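import Pool.Agent.Lib.MP_d439b2_co.R.Spec1

/-!
# MP_d439b2_co, row `K_3 + P_1`: C2, sparse vertices around a maximal clique
-/

set_option autoImplicit false

namespace Pool.Agent.MPd439b2

namespace rC2Aux

variable {V : Type} [Finite V]

theorem at_ms (D : SimpleGraph V) (C : Set V) (u : V) :
    (At D C u).ncard + (Ms D C u).ncard = C.ncard := by
  rw [← Set.ncard_union_eq]
  · congr 1
    ext c
    simp only [At, Ms, Set.mem_union, Set.mem_setOf_eq]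
    tauto
  · rw [Set.disjoint_left]
    intro c h1 h2
    exact h2.2 h1.2

/-- common neighbour: few common non-neighbours -/
theorem c1' (hC1 : S_C1) {D : SimpleGraph V} {X C : Set V} (hX : LCF D X) (hM : MaxCl D X C) {u u' v : V}
    (hu : u ∈ X) (hu' : u' ∈ X) (huC : u ∉ C) (hu'C : u' ∉ C) (hne : u ≠ u') (h1 : v ∈ At D C u)
    (h2 : v ∈ At D C u') : (Ms D C u ∩ Ms D C u').ncard ≤ 1 :=
  hC1 V D X C v u u' hX hM.1 hM.2.1 h1.1 hu hu' huC hu'C hne h1.2.symm h2.2.symm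

/-- (a) -/
theorem disj (hC1 : S_C1) {D : SimpleGraph V} {X C : Set V} (hX : LCF D X) (hM : MaxCl D X C) {s s' : V}
    (hs : s ∈ Sp D X C) (hs' : s' ∈ Sp D X C) (hne : s ≠ s') : Disjoint (At D C s) (At D C s') := by
  rw [Set.disjoint_left]
  intro v h1 h2
  have h3 := c1' hC1 hX hM hs.1 hs'.1 hs.2.1 hs'.2.1 hne h1 h2
  have h4 : C ⊆ (At D C s ∪ At D C s') ∪ (Ms D C s ∩ Ms D C s') := by
    intro c hc
    by_cases h5 : D.Adj s c
    · exact Or.inl (Or.inl ⟨hc, h5⟩)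
    · by_cases h6 : D.Adj s' c
      · exact Or.inl (Or.inr ⟨hc, h6⟩)
      · exact Or.inr ⟨⟨hc, h5⟩, ⟨hc, h6⟩⟩
  have h5 := Set.ncard_le_ncard h4 (Set.toFinite _)
  have h6 := Set.ncard_union_le (At D C s ∪ At D C s') (Ms D C s ∩ Ms D C s')
  have h7 := Set.ncard_union_add_ncard_inter (At D C s) (At D C s')
  have h8 : 0 < (At D C s ∩ At D C s').ncard := by
    rw [Set.ncard_pos (Set.toFinite _)]
    exact ⟨v, h1, h2⟩
  have h9 := hs.2.2.2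
  have h10 := hs'.2.2.2
  omega

/-- the non-neighbours of a vertex outside a maximal clique -/
theorem ms_ne {D : SimpleGraph V} {X C : Set V} (hM : MaxCl D X C) {u : V} (hu : u ∈ X) (huC : u ∉ C) :
    ∃ m, m ∈ Ms D C u := by
  obtain ⟨c, hc, h⟩ := hM.2.2 u hu huC
  exact ⟨c, hc, h⟩

/-- (b1) -/
theorem adj_of (hF1 : S_F1) {D : SimpleGraph V} {X C : Set V} (hX : LCF D X) (hM : MaxCl D X C)
    {u s v m : V} (hu : u ∈ X) (huC : u ∉ C) (hs : s ∈ X) (hsC : s ∉ C) (hne : u ≠ s) (h1 : v ∈ At D C u)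
    (h2 : v ∈ At D C s) (h3 : m ∈ Ms D C u) (h4 : m ∈ Ms D C s) : D.Adj u s := by
  by_contra h5
  have hmv : m ≠ v := by
    rintro rfl
    exact h3.2 h1.2
  have hvm : D.Adj v m := hM.2.1 v h1.1 m h3.1 hmv.symm
  have h6 := (hF1 V D {w | w ∈ X ∧ D.Adj v w} (hX v (hM.1 h1.1))).1 u ⟨hu, h1.2.symm⟩ s ⟨hs, h2.2.symm⟩ m
    ⟨hM.1 h3.1, hvm⟩ hne (fun h => huC (h ▸ h3.1)) (fun h => hsC (h ▸ h3.1)) h5 h3.2
  exact h4.2 h6

/-- (b2) -/
theorem few (hF1 : S_F1) {D : SimpleGraph V} {X C : Set V} (hX : LCF D X) (hM : MaxCl D X C)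
    {u s s' : V} (hu : u ∈ X) (hs : s ∈ X) (hsC : s ∉ C) (hs' : s' ∈ X) (hs'C : s' ∉ C) (hne : s ≠ s')
    (h1 : D.Adj u s) (h2 : D.Adj u s') {w w' : V} (hw : w ∈ At D C u \ (At D C s ∪ At D C s'))
    (hw' : w' ∈ At D C u \ (At D C s ∪ At D C s')) : w = w' := by
  by_contra hww
  have a1 : ¬ D.Adj s w := fun h => hw.2 (Or.inl ⟨hw.1.1, h⟩)
  have a2 : ¬ D.Adj w s' := fun h => hw.2 (Or.inr ⟨hw.1.1, h.symm⟩)
  have a3 : ¬ D.Adj s' w' := fun h => hw'.2 (Or.inr ⟨hw'.1.1, h⟩)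
  have h6 := (hF1 V D {x | x ∈ X ∧ D.Adj u x} (hX u hu)).2 s ⟨hs, h1⟩ w ⟨hM.1 hw.1.1, hw.1.2⟩ s' ⟨hs', h2⟩ w'
    ⟨hM.1 hw'.1.1, hw'.1.2⟩ (fun h => hsC (h ▸ hw.1.1)) hne (fun h => hsC (h ▸ hw'.1.1))
    (fun h => hs'C (h ▸ hw.1.1)) hww (fun h => hs'C (h ▸ hw'.1.1)) a1 a2 a3
  exact hw'.2 (Or.inl ⟨hw'.1.1, h6.symm⟩)

/-- (b3) -/
theorem avoid (hF1 : S_F1) (hC1 : S_C1) {D : SimpleGraph V} {X C : Set V} (hX : LCF D X)
    (hM : MaxCl D X C) (h5 : 5 ≤ (Sp D X C).ncard) {u s v : V} (hu : u ∈ X) (huC : u ∉ C)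
    (huS : u ∉ Sp D X C) (hs : s ∈ Sp D X C) (h1 : v ∈ At D C u) (h2 : v ∈ At D C s) : False := by
  have hune : ∀ t ∈ Sp D X C, u ≠ t := fun t ht h => huS (h ▸ ht)
  have hb1 := c1' hC1 hX hM hu hs.1 huC hs.2.1 (hune s hs) h1 h2
  rw [Set.ncard_le_one_iff (Set.toFinite _)] at hb1
  -- the other sparse vertices
  set T : Set V := Sp D X C \ {s} with hT
  have hTc : 4 ≤ T.ncard := by
    have h3 := Set.ncard_sdiff_singleton_add_one hs (Set.toFinite _)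
    rw [← hT] at h3
    omega
  set B : Set V := {t | t ∈ T ∧ (At D C t ∩ Ms D C u).Nonempty} with hB
  have hBc : B.ncard ≤ 1 := by
    rw [Set.ncard_le_one_iff (Set.toFinite _)]
    intro t t' ht ht'
    by_contra htt
    obtain ⟨m, hm1, hm2⟩ := ht.2
    obtain ⟨m', hm1', hm2'⟩ := ht'.2
    have k1 : m ∈ Ms D C s := by
      refine ⟨hm1.1, fun h => ?_⟩
      exact Set.disjoint_left.1 (disj hC1 hX hM ht.1.1 hs ht.1.2) hm1 ⟨hm1.1, h⟩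
    have k2 : m' ∈ Ms D C s := by
      refine ⟨hm1'.1, fun h => ?_⟩
      exact Set.disjoint_left.1 (disj hC1 hX hM ht'.1.1 hs ht'.1.2) hm1' ⟨hm1'.1, h⟩
    have k3 : m = m' := hb1 ⟨hm2, k1⟩ ⟨hm2', k2⟩
    subst k3
    exact Set.disjoint_left.1 (disj hC1 hX hM ht.1.1 ht'.1.1 htt) hm1 hm1'
  have hG : 2 < (T \ B).ncard := by
    have h3 := Set.le_ncard_sdiff B T (Set.toFinite _)
    omega
  obtain ⟨s₁, k1, s₂, k2, s₃, k3, n12, n13, n23⟩ := (Set.two_lt_ncard (Set.toFinite _)).1 hG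
  have key : ∀ t ∈ T \ B, t ∈ Sp D X C ∧ t ≠ s ∧ (∀ x ∈ At D C t, x ∈ At D C u) ∧ D.Adj u t := by
    intro t ht
    have g1 : ∀ x ∈ At D C t, x ∈ At D C u := by
      intro x hx
      by_contra hxu
      exact ht.2 ⟨ht.1, x, hx, hx.1, fun h => hxu ⟨hx.1, h⟩⟩
    refine ⟨ht.1.1, ht.1.2, g1, ?_⟩
    obtain ⟨x, hx⟩ := ht.1.1.2.2.1
    obtain ⟨m, hm⟩ := ms_ne hM hu huC
    have hmt : m ∈ Ms D C t := ⟨hm.1, fun h => hm.2 (g1 m ⟨hm.1, h⟩).2⟩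
    exact adj_of hF1 hX hM hu huC ht.1.1.1 ht.1.1.2.1 (hune t ht.1.1) (g1 x hx) hx hm hmt
  obtain ⟨p1, q1, r1, a1⟩ := key s₁ k1
  obtain ⟨p2, q2, r2, a2⟩ := key s₂ k2
  obtain ⟨p3, q3, r3, a3⟩ := key s₃ k3
  obtain ⟨x, hx⟩ := p3.2.2.1
  have hxv : x = v := by
    refine few hF1 hX hM hu p1.1 p1.2.1 p2.1 p2.2.1 n12 a1 a2 (w := x) (w' := v) ⟨r3 x hx, ?_⟩ ⟨h1, ?_⟩
    · rintro (h | h)
      · exact Set.disjoint_left.1 (disj hC1 hX hM p1 p3 n13) h hx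
      · exact Set.disjoint_left.1 (disj hC1 hX hM p2 p3 n23) h hx
    · rintro (h | h)
      · exact Set.disjoint_left.1 (disj hC1 hX hM p1 hs q1) h h2
      · exact Set.disjoint_left.1 (disj hC1 hX hM p2 hs q2) h h2
  subst hxv
  exact Set.disjoint_left.1 (disj hC1 hX hM p3 hs q3) hx h2

end rC2Aux

open rC2Aux in
theorem rC2 : (S_F1) → (S_C1) → S_C2 := by
  intro hF1 hC1 V _ D X C hX hM
  refine ⟨fun s hs s' hs' hne => disj hC1 hX hM hs hs' hne, fun h5 => ?_⟩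
  rw [Set.ncard_le_one_iff (Set.toFinite _)]
  intro u u' hu hu'
  by_contra hne
  have hav : ∀ t ∈ Dn D X C, ∀ s ∈ Sp D X C, ∀ x ∈ At D C s, x ∈ Ms D C t := by
    intro t ht s hs x hx
    refine ⟨hx.1, fun h => ?_⟩
    have htS : t ∉ Sp D X C := by
      intro h1
      have h2 := h1.2.2.2
      have h3 := ht.2.2
      omega
    exact avoid hF1 hC1 hX hM h5 ht.1 ht.2.1 htS hs (v := x) ⟨hx.1, h⟩ hx
  have h5' : 1 < (Sp D X C).ncard := by omega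
  obtain ⟨s, s', hs, hs', hss⟩ := (Set.one_lt_ncard_iff (Set.toFinite _)).1 h5'
  obtain ⟨x, hx⟩ := hs.2.2.1
  obtain ⟨x', hx'⟩ := hs'.2.2.1
  by_cases hc : ∃ v, v ∈ At D C u ∧ v ∈ At D C u'
  · obtain ⟨v, h1, h2⟩ := hc
    have h3 := c1' hC1 hX hM hu.1 hu'.1 hu.2.1 hu'.2.1 hne h1 h2
    rw [Set.ncard_le_one_iff (Set.toFinite _)] at h3
    have h4 : x = x' := h3 ⟨hav u hu s hs x hx, hav u' hu' s hs x hx⟩ ⟨hav u hu s' hs' x' hx', hav u' hu' s' hs' x' hx'⟩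
    subst h4
    exact Set.disjoint_left.1 (disj hC1 hX hM hs hs' hss) hx hx'
  · push Not at hc
    have h1 : Disjoint (At D C u) (At D C u') := Set.disjoint_left.2 hc
    have h2 := Set.ncard_union_eq h1 (Set.toFinite _) (Set.toFinite _)
    have h3 : At D C u ∪ At D C u' ⊆ C \ {x} := by
      rintro c (h | h)
      · exact ⟨h.1, fun h4 => (hav u hu s hs x hx).2 (h4 ▸ h.2)⟩
      · exact ⟨h.1, fun h4 => (hav u' hu' s hs x hx).2 (h4 ▸ h.2)⟩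
    have h4 := Set.ncard_le_ncard h3 (Set.toFinite _)
    have h6 := Set.ncard_sdiff_singleton_add_one hx.1 (Set.toFinite _)
    have h7 := hu.2.2
    have h8 := hu'.2.2
    omega

end Pool.Agent.MPd439b2
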