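import Pool.Agent.Lib.MP_d439b2_co.R.Spec1

set_option autoImplicit false

namespace Pool.Agent.MPd439b2

namespace rC3Aux

variable {V : Type}

lemma at_ms [Finite V] (D : SimpleGraph V) (C : Set V) (u : V) :
    (At D C u).ncard + (Ms D C u).ncard = C.ncard := by
  have h1 : At D C u ∪ Ms D C u = C := by
    ext c
    simp only [At, Ms, Set.mem_union, Set.mem_setOf_eq]
    by_cases h : D.Adj u c
    · simp [h]
    · simp [h]
  have h2 : Disjoint (At D C u) (Ms D C u) := by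
    rw [Set.disjoint_left]
    intro c hc hc'
    exact hc'.2 hc.2
  rw [← Set.ncard_union_eq h2 (Set.toFinite _) (Set.toFinite _), h1]

lemma far_not {D : SimpleGraph V} {X C : Set V} {w c : V} (hw : w ∈ Fr D X C) (hc : c ∈ C) :
    ¬ D.Adj w c := by
  intro h
  have h1 : c ∈ At D C w := ⟨hc, h⟩
  rw [hw.2.2] at h1
  exact h1

lemma dense_ne [Finite V] {D : SimpleGraph V} {X C : Set V} {u : V} (hu : u ∈ Dn D X C)
    (h7 : 7 ≤ C.ncard) : ∃ a ∈ At D C u, ∃ a' ∈ At D C u, a ≠ a' := by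
  have h1 := hu.2.2
  have h2 : 1 < (At D C u).ncard := by omega
  obtain ⟨a, b, ha, hb, hab⟩ := (Set.one_lt_ncard_iff (Set.toFinite _)).1 h2
  exact ⟨a, ha, b, hb, hab⟩

lemma one [Finite V] (hF : S_F1) {D : SimpleGraph V} {X C : Set V} (hL : LCF D X)
    (hC : MaxCl D X C) (h7 : 7 ≤ C.ncard) : ∀ u ∈ Dn D X C, ∀ w ∈ Fr D X C, ∀ w' ∈ Fr D X C,
    D.Adj u w → D.Adj u w' → w = w' := by
  intro u hu w hw w' hw' h h'
  by_contra hne
  obtain ⟨a, ha, a', ha', haa⟩ := dense_ne hu h7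
  have hwa : w ≠ a := fun e => hw.2.1 (e ▸ ha.1)
  have hwa' : w ≠ a' := fun e => hw.2.1 (e ▸ ha'.1)
  have hw'a : w' ≠ a := fun e => hw'.2.1 (e ▸ ha.1)
  have hw'a' : w' ≠ a' := fun e => hw'.2.1 (e ▸ ha'.1)
  have h1 := (hF V D _ (hL u hu.1)).2 w ⟨hw.1, h⟩ a ⟨hC.1 ha.1, ha.2⟩ w' ⟨hw'.1, h'⟩ a'
    ⟨hC.1 ha'.1, ha'.2⟩ hwa hne hwa' hw'a.symm haa hw'a' (far_not hw ha.1)
    (fun e => far_not hw' ha.1 e.symm) (far_not hw' ha'.1)
  exact far_not hw ha'.1 h1.symm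

lemma sub [Finite V] (hF : S_F1) {D : SimpleGraph V} {X C : Set V} (hL : LCF D X)
    (hC : MaxCl D X C) (h7 : 7 ≤ C.ncard) {u u' w w' : V} (hu : u ∈ Dn D X C) (hu' : u' ∈ Dn D X C)
    (hw : w ∈ Fr D X C) (hw' : w' ∈ Fr D X C) (hne : w ≠ w') (h : D.Adj u w) (h' : D.Adj u' w')
    (huu : D.Adj u u') : Ms D C u' ⊆ Ms D C u := by
  intro a ha
  refine ⟨ha.1, fun hua => ?_⟩
  have h1 : ¬ D.Adj w u' := fun e => hne (one hF hL hC h7 u' hu' w hw w' hw' e.symm h')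
  obtain ⟨b, hb, -⟩ := dense_ne hu' h7
  have hwu : w ≠ u' := by
    intro e
    rw [e] at hw
    exact far_not hw hb.1 hb.2
  have hwa : w ≠ a := fun e => hw.2.1 (e ▸ ha.1)
  have hau : a ≠ u' := fun e => hu'.2.1 (e ▸ ha.1)
  have h2 := (hF V D _ (hL u hu.1)).1 w ⟨hw.1, h⟩ a ⟨hC.1 ha.1, hua⟩ u' ⟨hu'.1, huu⟩ hwa hwu hau
    (far_not hw ha.1) h1
  exact ha.2 h2.symm

lemma two [Finite V] (hF : S_F1) (hC1 : S_C1) {D : SimpleGraph V} {X C : Set V} (hL : LCF D X)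
    (hC : MaxCl D X C) (h7 : 7 ≤ C.ncard) : ∀ u ∈ Dn D X C, ∀ u' ∈ Dn D X C, ∀ w ∈ Fr D X C,
    ∀ w' ∈ Fr D X C, w ≠ w' → D.Adj u w → D.Adj u' w' → D.Adj u u' →
    ∃ m ∈ C, Ms D C u = {m} ∧ Ms D C u' = {m} := by
  intro u hu u' hu' w hw w' hw' hne h h' huu
  have e1 : Ms D C u' = Ms D C u := Set.Subset.antisymm (sub hF hL hC h7 hu hu' hw hw' hne h h' huu)
    (sub hF hL hC h7 hu' hu hw' hw hne.symm h' h huu.symm)
  obtain ⟨v, hv, -⟩ := dense_ne hu h7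
  have hvu' : D.Adj u' v := by
    by_contra hn
    have h1 : v ∈ Ms D C u' := ⟨hv.1, hn⟩
    rw [e1] at h1
    exact h1.2 hv.2
  have h2 := hC1 V D X C v u u' hL hC.1 hC.2.1 hv.1 hu.1 hu'.1 hu.2.1 hu'.2.1 huu.ne hv.2.symm
    hvu'.symm
  rw [e1, Set.inter_self] at h2
  obtain ⟨c, hc, hcu⟩ := hC.2.2 u hu.1 hu.2.1
  have h3 : (Ms D C u).Nonempty := ⟨c, hc, hcu⟩
  have h4 : (Ms D C u).ncard = 1 := by
    have h5 := (Set.ncard_pos (Set.toFinite _)).2 h3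
    omega
  obtain ⟨m, hm⟩ := Set.ncard_eq_one.1 h4
  refine ⟨m, ?_, hm, by rw [e1, hm]⟩
  have h5 : m ∈ Ms D C u := by
    rw [hm]
    exact rfl
  exact h5.1

lemma three [Finite V] (hF : S_F1) {D : SimpleGraph V} {X C : Set V} (hL : LCF D X)
    (hC : MaxCl D X C) (h7 : 7 ≤ C.ncard) : ∀ u ∈ Dn D X C, ∀ u' ∈ Dn D X C, ∀ m, u ≠ u' →
    Ms D C u = {m} → Ms D C u' = {m} → D.Adj u u' := by
  intro u hu u' hu' m hne h h'
  by_contra hn
  have hm : m ∈ Ms D C u := by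
    rw [h]
    exact rfl
  have hm' : m ∈ Ms D C u' := by
    rw [h']
    exact rfl
  obtain ⟨v, hv, -⟩ := dense_ne hu h7
  have hvm : v ≠ m := by
    intro e
    rw [e] at hv
    exact hm.2 hv.2
  have hvu' : D.Adj u' v := by
    by_contra hn'
    have h1 : v ∈ Ms D C u' := ⟨hv.1, hn'⟩
    rw [h'] at h1
    exact hvm h1
  have hum : u ≠ m := fun e => hu.2.1 (e ▸ hm.1)
  have hum' : u' ≠ m := fun e => hu'.2.1 (e ▸ hm.1)
  have h2 := (hF V D _ (hL v (hC.1 hv.1))).1 u ⟨hu.1, hv.2.symm⟩ u' ⟨hu'.1, hvu'.symm⟩ m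
    ⟨hC.1 hm.1, hC.2.1 v hv.1 m hm.1 hvm⟩ hne hum hum' hn hm.2
  exact hm'.2 h2

lemma inter [Finite V] (hC1 : S_C1) {D : SimpleGraph V} {X C : Set V} (hL : LCF D X)
    (hC : MaxCl D X C) {u u' : V} (hu : u ∈ Dn D X C) (hu' : u' ∈ Dn D X C) (hne : u ≠ u') :
    (Ms D C u ∩ Ms D C u').ncard ≤ 1 := by
  by_cases h : (At D C u ∩ At D C u').Nonempty
  · obtain ⟨v, hv, hv'⟩ := h
    exact hC1 V D X C v u u' hL hC.1 hC.2.1 hv.1 hu.1 hu'.1 hu.2.1 hu'.2.1 hne hv.2.symm hv'.2.symm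
  · have h1 : At D C u' ⊆ Ms D C u := by
      intro c hc
      refine ⟨hc.1, fun e => h ⟨c, ⟨hc.1, e⟩, hc⟩⟩
    have h2 := at_ms D C u
    have h3 := at_ms D C u'
    have h4 := hu.2.2
    have h5 := hu'.2.2
    have h6 : At D C u' = Ms D C u := by
      apply Set.eq_of_subset_of_ncard_le h1 _ (Set.toFinite _)
      omega
    have h7 : Ms D C u ∩ Ms D C u' = ∅ := by
      rw [← h6]
      ext c
      simp only [Set.mem_inter_iff, Set.mem_empty_iff_false, iff_false]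
      rintro ⟨a, b⟩
      exact b.2 a.2
    rw [h7, Set.ncard_empty]
    omega

lemma four [Finite V] (hF : S_F1) (hC1 : S_C1) {D : SimpleGraph V} {X C : Set V} (hL : LCF D X)
    (hC : MaxCl D X C) (h7 : 7 ≤ C.ncard) (u : Fin 4 → V) (hu : ∀ i, u i ∈ Dn D X C)
    (hinj : Function.Injective u) : ∃ i j, i ≠ j ∧ D.Adj (u i) (u j) := by
  by_contra hno
  push Not at hno
  have key : ∀ v ∈ C, ∀ i j k : Fin 4, i ≠ j → i ≠ k → j ≠ k → D.Adj (u i) v → D.Adj (u j) v →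
      D.Adj (u k) v → False := by
    intro v hv i j k hij hik hjk h1 h2 h3
    exact hno j k hjk ((hF V D _ (hL v (hC.1 hv))).1 (u i) ⟨(hu i).1, h1.symm⟩ (u j)
      ⟨(hu j).1, h2.symm⟩ (u k) ⟨(hu k).1, h3.symm⟩ (hinj.ne hij) (hinj.ne hik) (hinj.ne hjk)
      (hno i j hij) (hno i k hik))
  have hS : ∀ i j : Fin 4, i ≠ j → (Ms D C (u i) ∩ Ms D C (u j)).ncard ≤ 1 := fun i j hij =>
    inter hC1 hL hC (hu i) (hu j) (hinj.ne hij)
  have hcov : C ⊆ (Ms D C (u 0) ∩ Ms D C (u 1)) ∪ (Ms D C (u 0) ∩ Ms D C (u 2)) ∪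
      (Ms D C (u 0) ∩ Ms D C (u 3)) ∪ (Ms D C (u 1) ∩ Ms D C (u 2)) ∪
      (Ms D C (u 1) ∩ Ms D C (u 3)) ∪ (Ms D C (u 2) ∩ Ms D C (u 3)) := by
    intro v hv
    have k012 := key v hv 0 1 2 (by decide) (by decide) (by decide)
    have k013 := key v hv 0 1 3 (by decide) (by decide) (by decide)
    have k023 := key v hv 0 2 3 (by decide) (by decide) (by decide)
    have k123 := key v hv 1 2 3 (by decide) (by decide) (by decide)
    simp only [Set.mem_union, Set.mem_inter_iff, Ms, Set.mem_setOf_eq]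
    tauto
  have hcard : C.ncard ≤ 6 := by
    refine (Set.ncard_le_ncard hcov (Set.toFinite _)).trans ?_
    refine (Set.ncard_union_le _ _).trans ?_
    have e5 := hS 2 3 (by decide)
    refine (Nat.add_le_add ((Set.ncard_union_le _ _).trans (Nat.add_le_add
      ((Set.ncard_union_le _ _).trans (Nat.add_le_add ((Set.ncard_union_le _ _).trans
      (Nat.add_le_add (Set.ncard_union_le _ _) le_rfl)) le_rfl)) le_rfl)) le_rfl).trans ?_
    have e0 := hS 0 1 (by decide)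
    have e1 := hS 0 2 (by decide)
    have e2 := hS 0 3 (by decide)
    have e3 := hS 1 2 (by decide)
    have e4 := hS 1 3 (by decide)
    omega
  omega

end rC3Aux

open rC3Aux in
theorem rC3 : (S_F1) → (S_C1) → S_C3 := by
  intro hF hC1 V _ D X C hL hC h7
  exact ⟨one hF hL hC h7, two hF hC1 hL hC h7, three hF hL hC h7, four hF hC1 hL hC h7⟩

end Pool.Agent.MPd439b2
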