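import Pool.Agent.Lib.MP_d439b2_co.R.Spec1

/-!
# MP_d439b2_co, row `K_3 + P_1`: C4, few far vertices or a better clique
-/

set_option autoImplicit false

namespace Pool.Agent.MPd439b2

namespace rC4Aux

variable {V : Type}

/-- a clique is contained in a maximal clique -/
theorem ext_max [Finite V] {D : SimpleGraph V} {X K : Set V} (hKX : K ⊆ X) (hK : CompleteOn D K) :
    ∃ C, MaxCl D X C ∧ K ⊆ C := by
  set 𝒮 : Set (Set V) := {C | K ⊆ C ∧ C ⊆ X ∧ CompleteOn D C} with h𝒮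
  obtain ⟨C, hC, hmax⟩ := Set.exists_max_image 𝒮 Set.ncard (Set.toFinite _) ⟨K, subset_rfl, hKX, hK⟩
  refine ⟨C, ⟨hC.2.1, hC.2.2, fun u hu huC => ?_⟩, hC.1⟩
  by_contra h
  push Not at h
  have h1 : insert u C ∈ 𝒮 := by
    refine ⟨hC.1.trans (Set.subset_insert _ _), Set.insert_subset hu hC.2.1, ?_⟩
    rintro a (rfl | ha) b (rfl | hb) hab
    · exact absurd rfl hab
    · exact h b hb
    · exact (h a ha).symm
    · exact hC.2.2 a ha b hb hab
  have h2 := hmax _ h1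
  have h3 := Set.ncard_insert_of_notMem huC (Set.toFinite _)
  omega

/-- greedy choice of four unrelated elements -/
theorem greedy [Finite V] (W : Set V) (R : V → V → Prop) (hW : 16 ≤ W.ncard)
    (h5 : ∀ i ∈ W, {w | w ∈ W ∧ (w = i ∨ R w i)}.ncard ≤ 5) :
    ∃ a ∈ W, ∃ b ∈ W, ∃ c ∈ W, ∃ d ∈ W, (b ≠ a ∧ c ≠ a ∧ c ≠ b ∧ d ≠ a ∧ d ≠ b ∧ d ≠ c) ∧
      ¬ R b a ∧ ¬ R c a ∧ ¬ R c b ∧ ¬ R d a ∧ ¬ R d b ∧ ¬ R d c := by
  have hne : W.Nonempty := by
    rw [← Set.ncard_pos (Set.toFinite _)]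
    omega
  obtain ⟨a, ha⟩ := hne
  set La : Set V := {w | w ∈ W ∧ (w = a ∨ R w a)} with hLa
  have a1 : La.ncard ≤ 5 := h5 a ha
  have a2 := Set.le_ncard_sdiff La W (Set.toFinite _)
  have hne : (W \ La).Nonempty := by
    rw [← Set.ncard_pos (Set.toFinite _)]
    omega
  obtain ⟨b, hb⟩ := hne
  set Lb : Set V := {w | w ∈ W ∧ (w = b ∨ R w b)} with hLb
  have b1 : Lb.ncard ≤ 5 := h5 b hb.1
  have b2 := Set.le_ncard_sdiff Lb (W \ La) (Set.toFinite _)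
  have hne : ((W \ La) \ Lb).Nonempty := by
    rw [← Set.ncard_pos (Set.toFinite _)]
    omega
  obtain ⟨c, hc⟩ := hne
  set Lc : Set V := {w | w ∈ W ∧ (w = c ∨ R w c)} with hLc
  have c1 : Lc.ncard ≤ 5 := h5 c hc.1.1
  have c2 := Set.le_ncard_sdiff Lc ((W \ La) \ Lb) (Set.toFinite _)
  have hne : (((W \ La) \ Lb) \ Lc).Nonempty := by
    rw [← Set.ncard_pos (Set.toFinite _)]
    omega
  obtain ⟨d, hd⟩ := hne
  refine ⟨a, ha, b, hb.1, c, hc.1.1, d, hd.1.1.1, ⟨?_, ?_, ?_, ?_, ?_, ?_⟩, ?_, ?_, ?_, ?_, ?_, ?_⟩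
  · exact fun h => hb.2 ⟨hb.1, Or.inl h⟩
  · exact fun h => hc.1.2 ⟨hc.1.1, Or.inl h⟩
  · exact fun h => hc.2 ⟨hc.1.1, Or.inl h⟩
  · exact fun h => hd.1.1.2 ⟨hd.1.1.1, Or.inl h⟩
  · exact fun h => hd.1.2 ⟨hd.1.1.1, Or.inl h⟩
  · exact fun h => hd.2 ⟨hd.1.1.1, Or.inl h⟩
  · exact fun h => hb.2 ⟨hb.1, Or.inr h⟩
  · exact fun h => hc.1.2 ⟨hc.1.1, Or.inr h⟩
  · exact fun h => hc.2 ⟨hc.1.1, Or.inr h⟩
  · exact fun h => hd.1.1.2 ⟨hd.1.1.1, Or.inr h⟩
  · exact fun h => hd.1.2 ⟨hd.1.1.1, Or.inr h⟩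
  · exact fun h => hd.2 ⟨hd.1.1.1, Or.inr h⟩

end rC4Aux

open rC4Aux in
theorem rC4 : (S_C2) → (S_C3) → S_RC4 := by
  intro hC2 hC3 V _ D X C hX hM h7
  by_contra hcon
  rw [not_or] at hcon
  obtain ⟨hW, hno⟩ := hcon
  apply hno
  obtain ⟨c3a, c3b, c3c, c3d⟩ := hC3 V D X C hX hM h7
  -- the choice function
  have hch : ∀ w : V, ∃ u : V, w ∈ Wf D X C → u ∈ Dn D X C ∧ D.Adj u w := by
    intro w
    by_cases hw : w ∈ Wf D X C
    · obtain ⟨u, hu, h⟩ := hw.2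
      exact ⟨u, fun _ => ⟨hu, h⟩⟩
    · exact ⟨w, fun h => absurd h hw⟩
  choose u hu using hch
  have hinj : ∀ w ∈ Wf D X C, ∀ w' ∈ Wf D X C, u w = u w' → w = w' := by
    intro w hw w' hw' h
    exact c3a (u w) (hu w hw).1 w hw.1 w' hw'.1 (hu w hw).2 (h ▸ (hu w' hw').2)
  -- the set `L`
  have hL : ∃ i ∈ Wf D X C, 6 ≤ {w | w ∈ Wf D X C ∧ (w = i ∨ D.Adj (u w) (u i))}.ncard := by
    by_contra hL
    push Not at hL
    obtain ⟨a, ha, b, hb, c, hc, d, hd, ⟨n1, n2, n3, n4, n5, n6⟩, m1, m2, m3, m4, m5, m6⟩ :=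
      greedy (Wf D X C) (fun w i => D.Adj (u w) (u i)) (by omega) (fun i hi => by
        have := hL i hi
        omega)
    obtain ⟨i, j, hij, hadj⟩ := c3d ![u a, u b, u c, u d] (by
      intro i
      fin_cases i
      · exact (hu a ha).1
      · exact (hu b hb).1
      · exact (hu c hc).1
      · exact (hu d hd).1) (by
      intro i j h
      fin_cases i <;> fin_cases j <;> simp at h ⊢
      · exact n1 (hinj b hb a ha h.symm)
      · exact n2 (hinj c hc a ha h.symm)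
      · exact n4 (hinj d hd a ha h.symm)
      · exact n1 (hinj b hb a ha h)
      · exact n3 (hinj c hc b hb h.symm)
      · exact n5 (hinj d hd b hb h.symm)
      · exact n2 (hinj c hc a ha h)
      · exact n3 (hinj c hc b hb h)
      · exact n6 (hinj d hd c hc h.symm)
      · exact n4 (hinj d hd a ha h)
      · exact n5 (hinj d hd b hb h)
      · exact n6 (hinj d hd c hc h))
    fin_cases i <;> fin_cases j <;> simp at hij hadj
    · exact m1 hadj.symm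
    · exact m2 hadj.symm
    · exact m4 hadj.symm
    · exact m1 hadj
    · exact m3 hadj.symm
    · exact m5 hadj.symm
    · exact m2 hadj
    · exact m3 hadj
    · exact m6 hadj.symm
    · exact m4 hadj
    · exact m5 hadj
    · exact m6 hadj
  obtain ⟨i, hi, h6⟩ := hL
  set L : Set V := {w | w ∈ Wf D X C ∧ (w = i ∨ D.Adj (u w) (u i))} with hLdef
  have hLW : ∀ w ∈ L, w ∈ Wf D X C := fun w hw => hw.1
  -- the vertex `m`
  have hm : ∃ m ∈ C, ∀ w ∈ L, Ms D C (u w) = {m} := by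
    have h1 : 1 < L.ncard := by omega
    have h2 : ∃ w ∈ L, w ≠ i := by
      obtain ⟨a, b, ha, hb, hab⟩ := (Set.one_lt_ncard_iff (Set.toFinite _)).1 h1
      by_cases h : a = i
      · exact ⟨b, hb, fun h' => hab (h.trans h'.symm)⟩
      · exact ⟨a, ha, h⟩
    obtain ⟨w₀, hw₀, hne₀⟩ := h2
    have h3 : ∀ w ∈ L, w ≠ i → ∃ m ∈ C, Ms D C (u w) = {m} ∧ Ms D C (u i) = {m} := by
      intro w hw hne
      have h4 : D.Adj (u w) (u i) := hw.2.resolve_left hne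
      exact c3b (u w) (hu w hw.1).1 (u i) (hu i hi).1 w hw.1.1 i hi.1 hne (hu w hw.1).2 (hu i hi).2 h4
    obtain ⟨m, hmC, h4, h5⟩ := h3 w₀ hw₀ hne₀
    refine ⟨m, hmC, fun w hw => ?_⟩
    by_cases h : w = i
    · rw [h]
      exact h5
    · obtain ⟨m', _, h6, h7⟩ := h3 w hw h
      rw [h6, ← h7, h5]
  obtain ⟨m, hmC, hMs⟩ := hm
  have hLadj : ∀ w ∈ L, ∀ w' ∈ L, w ≠ w' → D.Adj (u w) (u w') := fun w hw w' hw' hne =>
    c3c (u w) (hu w hw.1).1 (u w') (hu w' hw'.1).1 m (fun h => hne (hinj w hw.1 w' hw'.1 h)) (hMs w hw)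
      (hMs w' hw')
  have hCadj : ∀ w ∈ L, ∀ c ∈ C, c ≠ m → D.Adj (u w) c := by
    intro w hw c hc hcm
    by_contra h
    have h1 : c ∈ Ms D C (u w) := ⟨hc, h⟩
    rw [hMs w hw] at h1
    exact hcm h1
  -- the new clique
  set K : Set V := (C \ {m}) ∪ u '' L with hKdef
  have hKX : K ⊆ X := by
    rintro x (hx | ⟨w, hw, rfl⟩)
    · exact hM.1 hx.1
    · exact (hu w hw.1).1.1
  have hKc : CompleteOn D K := by
    rintro x (hx | ⟨w, hw, rfl⟩) y (hy | ⟨w', hw', rfl⟩) hxy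
    · exact hM.2.1 x hx.1 y hy.1 hxy
    · exact (hCadj w' hw' x hx.1 hx.2).symm
    · exact hCadj w hw y hy.1 hy.2
    · exact hLadj w hw w' hw' (fun h => hxy (h ▸ rfl))
  obtain ⟨C', hM', hKC'⟩ := ext_max hKX hKc
  have hCC' : C \ {m} ⊆ C' := fun x hx => hKC' (Or.inl hx)
  have huC' : ∀ w ∈ L, u w ∈ C' := fun w hw => hKC' (Or.inr ⟨w, hw, rfl⟩)
  have hCm : (C \ {m}).ncard + 1 = C.ncard := Set.ncard_sdiff_singleton_add_one hmC (Set.toFinite _)
  have huL : (u '' L).ncard = L.ncard := Set.InjOn.ncard_image (fun w hw w' hw' h =>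
    hinj w hw.1 w' hw'.1 h)
  have hKn : K.ncard = (C \ {m}).ncard + L.ncard := by
    rw [hKdef, Set.ncard_union_eq, huL]
    rw [Set.disjoint_left]
    rintro x hx ⟨w, hw, rfl⟩
    exact (hu w hw.1).1.2.1 hx.1
  have hC'n : C.ncard + 5 ≤ C'.ncard := by
    have := Set.ncard_le_ncard hKC' (Set.toFinite _)
    omega
  -- the elements of `C' \ C` are dense
  have hdn : ∀ v ∈ C', v ∉ C → v ∈ Dn D X C := by
    intro v hv hvC
    refine ⟨hM'.1 hv, hvC, ?_⟩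
    have h1 : C \ {m} ⊆ At D C v := fun c hc => ⟨hc.1, hM'.2.1 v hv c (hCC' hc) (fun h => hvC (h ▸ hc.1))⟩
    have h2 := Set.ncard_le_ncard h1 (Set.toFinite _)
    omega
  obtain ⟨c₁, hc₁⟩ : (C \ {m}).Nonempty := by
    rw [← Set.ncard_pos (Set.toFinite _)]
    omega
  have hfar : ∀ w ∈ L, ∀ c ∈ C, ¬ D.Adj w c := by
    intro w hw c hc h
    have h1 : c ∈ At D C w := ⟨hc, h⟩
    rw [hw.1.1.2.2] at h1
    exact h1
  have hAC : ∀ w ∈ L, At D C' w ⊆ C' \ C := fun w hw x hx => ⟨hx.1, fun h => hfar w hw x h hx.2⟩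
  have hdis : ∀ w ∈ L, ∀ w' ∈ L, w ≠ w' → Disjoint (At D C' w) (At D C' w') := by
    intro w hw w' hw' hne
    rw [Set.disjoint_left]
    intro x hx hx'
    exact hne (c3a x (hdn x hx.1 (hAC w hw hx).2) w hw.1.1 w' hw'.1.1 hx.2.symm hx'.2.symm)
  have hwC' : ∀ w ∈ L, w ∉ C' := by
    intro w hw h
    exact hfar w hw c₁ hc₁.1 (hM'.2.1 w h c₁ (hCC' hc₁) (fun h' => hw.1.1.2.1 (h' ▸ hc₁.1)))
  have hC'C : (C' \ C).ncard < C'.ncard :=
    Set.ncard_lt_ncard ⟨Set.sdiff_subset, fun h => (h (hCC' hc₁)).2 hc₁.1⟩ (Set.toFinite _)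
  -- at most one element of `L` is dense with respect to `C'`
  have hB : {w | w ∈ L ∧ C'.ncard ≤ 2 * (At D C' w).ncard}.ncard ≤ 1 := by
    rw [Set.ncard_le_one_iff (Set.toFinite _)]
    intro w w' hw hw'
    by_contra hne
    have h1 := Set.ncard_union_eq (hdis w hw.1 w' hw'.1 hne) (Set.toFinite _) (Set.toFinite _)
    have h2 := Set.ncard_le_ncard (Set.union_subset (hAC w hw.1) (hAC w' hw'.1)) (Set.toFinite _)
    have h3 := hw.2
    have h4 := hw'.2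
    omega
  have hSp : 5 ≤ (Sp D X C').ncard := by
    have h1 : L \ {w | w ∈ L ∧ C'.ncard ≤ 2 * (At D C' w).ncard} ⊆ Sp D X C' := by
      intro w hw
      refine ⟨hw.1.1.1.1, hwC' w hw.1, ⟨u w, huC' w hw.1, (hu w hw.1.1).2.symm⟩, ?_⟩
      by_contra h
      exact hw.2 ⟨hw.1, by omega⟩
    have h2 := Set.ncard_le_ncard h1 (Set.toFinite _)
    have h3 := Set.le_ncard_sdiff {w | w ∈ L ∧ C'.ncard ≤ 2 * (At D C' w).ncard} L (Set.toFinite _)
    omega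
  obtain ⟨c2a, c2b⟩ := hC2 V D X C' hX hM'
  have hDn1 := c2b hSp
  refine ⟨C', hM', by omega, ⟨m, hCC'⟩, hSp, ?_⟩
  -- the rest
  set S : Set V := (C ∪ Dn D X C) \ C' with hSdef
  have hBr : ∀ r ∈ S, r ∈ X ∧ At D C r \ {m} ⊆ At D C' r ∧ C.ncard ≤ 2 * (At D C r \ {m}).ncard + 2 := by
    intro r hr
    refine ⟨?_, fun c hc => ⟨hCC' ⟨hc.1.1, hc.2⟩, hc.1.2⟩, ?_⟩
    · rcases hr.1 with h | h
      · exact hM.1 h
      · exact h.1
    · rcases hr.1 with h | h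
      · have hrm : r = m := by
          by_contra hrm
          exact hr.2 (hCC' ⟨h, hrm⟩)
        subst hrm
        have h1 : C \ {r} ⊆ At D C r \ {r} := fun c hc =>
          ⟨⟨hc.1, hM.2.1 r h c hc.1 (fun h' => hc.2 h'.symm)⟩, hc.2⟩
        have h2 := Set.ncard_le_ncard h1 (Set.toFinite _)
        omega
      · have h1 := h.2.2
        have h2 := Set.le_ncard_sdiff {m} (At D C r) (Set.toFinite _)
        rw [Set.ncard_singleton] at h2
        omega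
  have hSD : S ⊆ (S ∩ Sp D X C') ∪ Dn D X C' := by
    intro r hr
    obtain ⟨h1, h2, h3⟩ := hBr r hr
    by_cases h : C'.ncard ≤ 2 * (At D C' r).ncard
    · exact Or.inr ⟨h1, hr.2, h⟩
    · refine Or.inl ⟨hr, h1, hr.2, ?_, by omega⟩
      have h4 : (At D C r \ {m}).Nonempty := by
        rw [← Set.ncard_pos (Set.toFinite _)]
        omega
      exact h4.mono h2
  have hS2 : (S ∩ Sp D X C').ncard ≤ 2 := by
    by_contra h
    have h' : 2 < (S ∩ Sp D X C').ncard := by omega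
    obtain ⟨a, ha, b, hb, c, hc, nab, nac, nbc⟩ := (Set.two_lt_ncard (Set.toFinite _)).1 h'
    obtain ⟨_, a2, a3⟩ := hBr a ha.1
    obtain ⟨_, b2, b3⟩ := hBr b hb.1
    obtain ⟨_, c2, c3⟩ := hBr c hc.1
    have d1 : Disjoint (At D C a \ {m}) (At D C b \ {m}) := (c2a a ha.2 b hb.2 nab).mono a2 b2
    have d2 : Disjoint ((At D C a \ {m}) ∪ (At D C b \ {m})) (At D C c \ {m}) :=
      Disjoint.union_left ((c2a a ha.2 c hc.2 nac).mono a2 c2) ((c2a b hb.2 c hc.2 nbc).mono b2 c2)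
    have e1 := Set.ncard_union_eq d1 (Set.toFinite _) (Set.toFinite _)
    have e2 := Set.ncard_union_eq d2 (Set.toFinite _) (Set.toFinite _)
    have e3 : ((At D C a \ {m}) ∪ (At D C b \ {m})) ∪ (At D C c \ {m}) ⊆ C \ {m} := by
      rintro x ((hx | hx) | hx) <;> exact ⟨hx.1.1, hx.2⟩
    have e4 := Set.ncard_le_ncard e3 (Set.toFinite _)
    omega
  have h1 := Set.ncard_le_ncard hSD (Set.toFinite _)
  have h2 := Set.ncard_union_le (S ∩ Sp D X C') (Dn D X C')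
  omega

end Pool.Agent.MPd439b2
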