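import Pool.Agent.Lib.MP_d439b2_co.R.Spec1

/-!
# MP_d439b2_co, R/C5: a vertex of the dense region with few non-neighbours
-/

set_option autoImplicit false

namespace Pool.Agent.MPd439b2

namespace rC5Aux

open Finset

variable {V : Type}

theorem pairs_card [DecidableEq V] (A B : Finset V) (r : V → V → Prop) [DecidableRel r] :
    ((A ×ˢ B).filter (fun p => r p.1 p.2)).card = ∑ a ∈ A, (B.filter (fun b => r a b)).card := by
  rw [Finset.card_filter, Finset.sum_product]
  refine Finset.sum_congr rfl (fun a _ => ?_)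
  rw [Finset.card_filter]

theorem dc [DecidableEq V] (A B : Finset V) (r : V → V → Prop) [DecidableRel r] :
    ∑ a ∈ A, (B.filter (fun b => r a b)).card = ∑ b ∈ B, (A.filter (fun a => r a b)).card := by
  simp only [Finset.card_filter]
  exact Finset.sum_comm

theorem cof_sub {D : SimpleGraph V} {Z Z' : Set V} (h : CoF D Z) (hs : Z' ⊆ Z) : CoF D Z' :=
  fun Y hY hne => h Y (hY.trans hs) hne

/-- F2 (b) for finsets -/
theorem np (hF2 : S_F2) [Fintype V] [DecidableEq V] (D : SimpleGraph V) [DecidableRel D.Adj]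
    (Z : Finset V) (h : CoF D (Z : Set V)) :
    ∑ y ∈ Z, (Z.filter (fun z => y ≠ z ∧ ¬ D.Adj y z)).card ≤ 2 * Z.card := by
  classical
  have h1 := (hF2 V D (Z : Set V) h).2
  rw [Set.ncard_coe_finset] at h1
  rw [← pairs_card Z Z (fun y z => y ≠ z ∧ ¬ D.Adj y z)]
  refine le_trans (le_of_eq ?_) h1
  rw [← Set.ncard_coe_finset]
  congr 1
  ext p
  simp only [coe_filter, mem_product, Set.mem_ofPred_eq, mem_coe]
  tauto

end rC5Aux

open rC5Aux Finset in
theorem rC5 : (S_F2) → (S_C1) → S_C5 := by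
  intro hF2 hC1 V _ D X C hL hM hc
  classical
  have : Fintype V := Fintype.ofFinite V
  obtain ⟨hCX, hCC, hCM⟩ := hM
  set Cf : Finset V := univ.filter (fun v => v ∈ C) with hCf
  set Df : Finset V := univ.filter (fun v => v ∈ Dn D X C) with hDf
  have mC : ∀ v, v ∈ Cf ↔ v ∈ C := fun v => by simp [hCf]
  have mD : ∀ v, v ∈ Df ↔ v ∈ Dn D X C := fun v => by simp [hDf]
  have eC : (Cf : Set V) = C := by ext v; simp [hCf]
  have cC : C.ncard = Cf.card := by rw [← eC, Set.ncard_coe_finset]
  set c := Cf.card with hcdef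
  set d := Df.card with hddef
  rw [cC] at hc
  have hAt : ∀ u, (At D C u).ncard = (Cf.filter (fun m => D.Adj u m)).card := by
    intro u
    rw [← Set.ncard_coe_finset]
    congr 1
    ext m
    simp [At, mC]
  have hMs : ∀ u, (Ms D C u).ncard = (Cf.filter (fun m => ¬ D.Adj u m)).card := by
    intro u
    rw [← Set.ncard_coe_finset]
    congr 1
    ext m
    simp [Ms, mC]
  have hsum : ∀ u, (Cf.filter (fun m => D.Adj u m)).card +
      (Cf.filter (fun m => ¬ D.Adj u m)).card = c := by
    intro u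
    exact Finset.card_filter_add_card_filter_not _
  have hD : ∀ u ∈ Df, u ∈ X ∧ u ∉ C ∧ c ≤ 2 * (Cf.filter (fun m => D.Adj u m)).card := by
    intro u hu
    have h := (mD u).mp hu
    refine ⟨h.1, h.2.1, ?_⟩
    have h2 := h.2.2
    rw [cC, hAt u] at h2
    exact h2
  have hdisj : Disjoint Cf Df := by
    rw [Finset.disjoint_left]
    intro v hv hv'
    exact (hD v hv').2.1 ((mC v).mp hv)
  set R : Finset V := Cf ∪ Df with hR
  have hRcard : R.card = c + d := Finset.card_union_of_disjoint hdisj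
  have hnb : ∀ v ∈ C, ∀ Y : Finset V, (∀ y ∈ Y, y ∈ R ∧ D.Adj v y) → CoF D (Y : Set V) := by
    intro v hv Y hY
    refine cof_sub (hL v (hCX hv)) ?_
    intro y hy
    have h := hY y hy
    refine ⟨?_, h.2⟩
    rcases Finset.mem_union.mp h.1 with h1 | h1
    · exact hCX ((mC y).mp h1)
    · exact (hD y h1).1
  -- (i)
  have hi : ∀ v ∈ C, ∑ u ∈ Df.filter (fun u => D.Adj v u),
      (Cf.filter (fun m => ¬ D.Adj u m)).card ≤ c + d := by
    intro v hv
    set Y : Finset V := R.filter (fun y => D.Adj v y) with hY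
    have h1 : CoF D (Y : Set V) := by
      apply hnb v hv Y
      intro y hy
      exact Finset.mem_filter.mp hy
    have h2 := np hF2 D Y h1
    have h3 : Y.card ≤ c + d := hRcard ▸ Finset.card_filter_le _ _
    have hA : Df.filter (fun u => D.Adj v u) ⊆ Y := by
      intro u hu
      rw [Finset.mem_filter] at hu
      exact Finset.mem_filter.mpr ⟨Finset.mem_union_right _ hu.1, hu.2⟩
    have hB : Cf.filter (fun u => D.Adj v u) ⊆ Y := by
      intro u hu
      rw [Finset.mem_filter] at hu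
      exact Finset.mem_filter.mpr ⟨Finset.mem_union_left _ hu.1, hu.2⟩
    have hAB : Disjoint (Df.filter (fun u => D.Adj v u)) (Cf.filter (fun u => D.Adj v u)) :=
      (Finset.disjoint_filter_filter (p := fun u => D.Adj v u) (q := fun u => D.Adj v u)
        hdisj.symm)
    have h4 : ∑ u ∈ Df.filter (fun u => D.Adj v u),
          (Y.filter (fun z => u ≠ z ∧ ¬ D.Adj u z)).card +
        ∑ u ∈ Cf.filter (fun u => D.Adj v u),
          (Y.filter (fun z => u ≠ z ∧ ¬ D.Adj u z)).card ≤
        ∑ y ∈ Y, (Y.filter (fun z => y ≠ z ∧ ¬ D.Adj y z)).card := by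
      rw [← Finset.sum_union hAB]
      exact Finset.sum_le_sum_of_subset (Finset.union_subset hA hB)
    have h5 : ∑ u ∈ Df.filter (fun u => D.Adj v u), (Cf.filter (fun m => ¬ D.Adj u m)).card ≤
        ∑ u ∈ Df.filter (fun u => D.Adj v u),
          (Y.filter (fun z => u ≠ z ∧ ¬ D.Adj u z)).card := by
      apply Finset.sum_le_sum
      intro u hu
      rw [Finset.mem_filter] at hu
      apply Finset.card_le_card
      intro m hm
      rw [Finset.mem_filter] at hm
      have hmC := (mC m).mp hm.1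
      have hmv : v ≠ m := by
        rintro rfl
        exact hm.2 hu.2.symm
      refine Finset.mem_filter.mpr ⟨Finset.mem_filter.mpr
        ⟨Finset.mem_union_left _ hm.1, hCC v hv m hmC hmv⟩, ?_, hm.2⟩
      rintro rfl
      exact (hD u hu.1).2.1 hmC
    have h6 : ∑ u ∈ Df.filter (fun u => D.Adj v u), (Cf.filter (fun m => ¬ D.Adj u m)).card ≤
        ∑ u ∈ Cf.filter (fun u => D.Adj v u),
          (Y.filter (fun z => u ≠ z ∧ ¬ D.Adj u z)).card := by
      rw [dc (Df.filter (fun u => D.Adj v u)) Cf (fun u m => ¬ D.Adj u m)]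
      have h7 : ∑ m ∈ Cf, ((Df.filter (fun u => D.Adj v u)).filter
            (fun u => ¬ D.Adj u m)).card =
          ∑ m ∈ Cf.filter (fun u => D.Adj v u),
            ((Df.filter (fun u => D.Adj v u)).filter (fun u => ¬ D.Adj u m)).card := by
        symm
        apply Finset.sum_subset (Finset.filter_subset _ _)
        intro m hm hm'
        rw [Finset.card_eq_zero, Finset.filter_eq_empty_iff]
        intro u hu
        rw [Finset.mem_filter] at hu
        have hmv : m = v := by
          by_contra hne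
          exact hm' (Finset.mem_filter.mpr ⟨hm, hCC v hv m ((mC m).mp hm) (Ne.symm hne)⟩)
        rw [hmv, not_not]
        exact hu.2.symm
      rw [h7]
      apply Finset.sum_le_sum
      intro m hm
      rw [Finset.mem_filter] at hm
      apply Finset.card_le_card
      intro u hu
      rw [Finset.mem_filter] at hu
      have hu1 := Finset.mem_filter.mp hu.1
      refine Finset.mem_filter.mpr ⟨hA hu.1, ?_, fun h => hu.2 h.symm⟩
      rintro rfl
      exact (hD m hu1.1).2.1 ((mC m).mp hm.1)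
    omega
  -- (ii)
  have hii : ∀ v ∈ C, ∀ v' ∈ C, v ≠ v' →
      (Df.filter (fun u => ¬ D.Adj u v ∧ ¬ D.Adj u v')).card ≤ 2 := by
    intro v hv v' hv' hne
    by_contra hcon
    have h3 : 2 < (Df.filter (fun u => ¬ D.Adj u v ∧ ¬ D.Adj u v')).card := by omega
    obtain ⟨a, b, e, ha, hb, he, hab, hae, hbe⟩ := Finset.two_lt_card_iff.mp h3
    have key : ∀ u ∈ Df.filter (fun u => ¬ D.Adj u v ∧ ¬ D.Adj u v'),
        ∀ u' ∈ Df.filter (fun u => ¬ D.Adj u v ∧ ¬ D.Adj u v'), u ≠ u' →
        Disjoint (Cf.filter (fun m => D.Adj u m)) (Cf.filter (fun m => D.Adj u' m)) := by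
      intro u hu u' hu' huu
      rw [Finset.mem_filter] at hu hu'
      rw [Finset.disjoint_left]
      intro m hm hm'
      rw [Finset.mem_filter] at hm hm'
      have h1 := hC1 V D X C m u u' hL hCX hCC ((mC m).mp hm.1) (hD u hu.1).1 (hD u' hu'.1).1
        (hD u hu.1).2.1 (hD u' hu'.1).2.1 huu hm.2.symm hm'.2.symm
      have h2 : ({v, v'} : Set V) ⊆ Ms D C u ∩ Ms D C u' := by
        rintro w (rfl | rfl)
        · exact ⟨⟨hv, hu.2.1⟩, hv, hu'.2.1⟩
        · exact ⟨⟨hv', hu.2.2⟩, hv', hu'.2.2⟩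
      have h3 := Set.ncard_le_ncard h2 (Set.toFinite _)
      rw [Set.ncard_pair hne] at h3
      omega
    have d1 := key a ha b hb hab
    have d2 := key a ha e he hae
    have d3 := key b hb e he hbe
    have h4 : (Cf.filter (fun m => D.Adj a m) ∪ Cf.filter (fun m => D.Adj b m) ∪
        Cf.filter (fun m => D.Adj e m)).card ≤ c := by
      apply Finset.card_le_card
      exact Finset.union_subset (Finset.union_subset (Finset.filter_subset _ _)
        (Finset.filter_subset _ _)) (Finset.filter_subset _ _)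
    rw [Finset.card_union_of_disjoint (Finset.disjoint_union_left.mpr ⟨d2, d3⟩),
      Finset.card_union_of_disjoint d1] at h4
    have ha' := (hD a (Finset.mem_filter.mp ha).1).2.2
    have hb' := (hD b (Finset.mem_filter.mp hb).1).2.2
    have he' := (hD e (Finset.mem_filter.mp he).1).2.2
    omega
  -- (iii)
  have hiii : ∑ u ∈ Df, (Cf.filter (fun m => ¬ D.Adj u m)).card ≤ 3 * c + 2 * d := by
    obtain ⟨v, v', hv, hv', hne⟩ := Finset.one_lt_card_iff.mp (show 1 < Cf.card by omega)
    have hvC := (mC v).mp hv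
    have hvC' := (mC v').mp hv'
    have h1 := hi v hvC
    have h2 := hi v' hvC'
    have h3 := hii v hvC v' hvC' hne
    have hcov : Df ⊆ Df.filter (fun u => D.Adj v u) ∪ Df.filter (fun u => D.Adj v' u) ∪
        Df.filter (fun u => ¬ D.Adj u v ∧ ¬ D.Adj u v') := by
      intro u hu
      by_cases ha : D.Adj v u
      · exact Finset.mem_union_left _ (Finset.mem_union_left _ (Finset.mem_filter.mpr ⟨hu, ha⟩))
      · by_cases hb : D.Adj v' u
        · exact Finset.mem_union_left _
            (Finset.mem_union_right _ (Finset.mem_filter.mpr ⟨hu, hb⟩))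
        · exact Finset.mem_union_right _ (Finset.mem_filter.mpr
            ⟨hu, fun h => ha h.symm, fun h => hb h.symm⟩)
    have hun : ∀ (A B : Finset V) (f : V → ℕ), ∑ u ∈ A ∪ B, f u ≤ ∑ u ∈ A, f u + ∑ u ∈ B, f u := by
      intro A B f
      have := Finset.sum_union_inter (s₁ := A) (s₂ := B) (f := f)
      omega
    have h4 : ∑ u ∈ Df.filter (fun u => ¬ D.Adj u v ∧ ¬ D.Adj u v'),
        2 * (Cf.filter (fun m => ¬ D.Adj u m)).card ≤ 2 * c := by
      calc ∑ u ∈ Df.filter (fun u => ¬ D.Adj u v ∧ ¬ D.Adj u v'),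
            2 * (Cf.filter (fun m => ¬ D.Adj u m)).card
          ≤ ∑ u ∈ Df.filter (fun u => ¬ D.Adj u v ∧ ¬ D.Adj u v'), c := by
            apply Finset.sum_le_sum
            intro u hu
            have h5 := (hD u (Finset.mem_filter.mp hu).1).2.2
            have h6 := hsum u
            omega
        _ = (Df.filter (fun u => ¬ D.Adj u v ∧ ¬ D.Adj u v')).card * c := by
            rw [Finset.sum_const, smul_eq_mul]
        _ ≤ 2 * c := Nat.mul_le_mul_right _ h3
    rw [← Finset.mul_sum] at h4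
    have h5 := Finset.sum_le_sum_of_subset (f := fun u => (Cf.filter (fun m => ¬ D.Adj u m)).card)
      hcov
    have h6 := hun (Df.filter (fun u => D.Adj v u) ∪ Df.filter (fun u => D.Adj v' u))
      (Df.filter (fun u => ¬ D.Adj u v ∧ ¬ D.Adj u v'))
      (fun u => (Cf.filter (fun m => ¬ D.Adj u m)).card)
    have h7 := hun (Df.filter (fun u => D.Adj v u)) (Df.filter (fun u => D.Adj v' u))
      (fun u => (Cf.filter (fun m => ¬ D.Adj u m)).card)
    beta_reduce at h5 h6 h7
    omega
  -- (iv)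
  have hiv : ∃ v ∈ C, ∃ v' ∈ C, v ≠ v' ∧
      c * (Df.filter (fun u => ¬ D.Adj u v)).card ≤ 6 * c + 4 * d ∧
      c * (Df.filter (fun u => ¬ D.Adj u v')).card ≤ 6 * c + 4 * d := by
    have h1 : ∑ v ∈ Cf, (Df.filter (fun u => ¬ D.Adj u v)).card ≤ 3 * c + 2 * d := by
      rw [← dc Df Cf (fun u v => ¬ D.Adj u v)]
      exact hiii
    set Bad : Finset V := Cf.filter
      (fun v => ¬ (c * (Df.filter (fun u => ¬ D.Adj u v)).card ≤ 6 * c + 4 * d)) with hBad
    have h2 : Bad.card * (6 * c + 4 * d) ≤ c * (3 * c + 2 * d) := by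
      calc Bad.card * (6 * c + 4 * d) = ∑ v ∈ Bad, (6 * c + 4 * d) := by
            rw [Finset.sum_const, smul_eq_mul]
        _ ≤ ∑ v ∈ Bad, c * (Df.filter (fun u => ¬ D.Adj u v)).card := by
            apply Finset.sum_le_sum
            intro v hv
            have := (Finset.mem_filter.mp hv).2
            omega
        _ ≤ ∑ v ∈ Cf, c * (Df.filter (fun u => ¬ D.Adj u v)).card :=
            Finset.sum_le_sum_of_subset (Finset.filter_subset _ _)
        _ = c * ∑ v ∈ Cf, (Df.filter (fun u => ¬ D.Adj u v)).card := by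
            rw [Finset.mul_sum]
        _ ≤ c * (3 * c + 2 * d) := Nat.mul_le_mul_left _ h1
    have h3 : 2 * Bad.card ≤ c := by
      by_contra hcon
      have h4 : c + 1 ≤ 2 * Bad.card := by omega
      have h5 : (c + 1) * (3 * c + 2 * d) ≤ 2 * Bad.card * (3 * c + 2 * d) :=
        Nat.mul_le_mul_right _ h4
      have h6 : 2 * Bad.card * (3 * c + 2 * d) = Bad.card * (6 * c + 4 * d) := by ring
      have h7 : (c + 1) * (3 * c + 2 * d) = c * (3 * c + 2 * d) + (3 * c + 2 * d) := by ring
      omega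
    have h4 := Finset.card_filter_add_card_filter_not (s := Cf)
      (fun v => c * (Df.filter (fun u => ¬ D.Adj u v)).card ≤ 6 * c + 4 * d)
    have h5 : 1 < (Cf.filter
        (fun v => c * (Df.filter (fun u => ¬ D.Adj u v)).card ≤ 6 * c + 4 * d)).card := by
      have h6 : Bad.card = (Cf.filter
        (fun v => ¬ (c * (Df.filter (fun u => ¬ D.Adj u v)).card ≤ 6 * c + 4 * d))).card := rfl
      omega
    obtain ⟨v, v', hv, hv', hne⟩ := Finset.one_lt_card_iff.mp h5
    rw [Finset.mem_filter] at hv hv'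
    exact ⟨v, (mC v).mp hv.1, v', (mC v').mp hv'.1, hne, hv.2, hv'.2⟩
  obtain ⟨v, hv, v', hv', hne, hXv, hXv'⟩ := hiv
  set Xv : Finset V := Df.filter (fun u => ¬ D.Adj u v) with hXvdef
  set Xv' : Finset V := Df.filter (fun u => ¬ D.Adj u v') with hXvdef'
  -- (v)
  set Y : Finset V := R \ ({v, v'} ∪ Xv ∪ Xv') with hY
  have hYc : c + d ≤ Y.card + 2 + Xv.card + Xv'.card := by
    have h1 : R ⊆ Y ∪ ({v, v'} ∪ Xv ∪ Xv') := by
      intro w hw
      by_cases h : w ∈ ({v, v'} ∪ Xv ∪ Xv')
      · exact Finset.mem_union_right _ h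
      · exact Finset.mem_union_left _ (Finset.mem_sdiff.mpr ⟨hw, h⟩)
    have h2 := Finset.card_le_card h1
    have h3 := Finset.card_union_le Y ({v, v'} ∪ Xv ∪ Xv')
    have h4 := Finset.card_union_le ({v, v'} ∪ Xv) Xv'
    have h5 := Finset.card_union_le {v, v'} Xv
    have h6 : ({v, v'} : Finset V).card = 2 := Finset.card_pair hne
    omega
  have hY2 : c + d ≤ 2 * Y.card := by
    have h1 : c * (c + d) ≤ c * Y.card + 2 * c + (6 * c + 4 * d) + (6 * c + 4 * d) := by
      calc c * (c + d) ≤ c * (Y.card + 2 + Xv.card + Xv'.card) := Nat.mul_le_mul_left _ hYc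
        _ = c * Y.card + 2 * c + c * Xv.card + c * Xv'.card := by ring
        _ ≤ c * Y.card + 2 * c + (6 * c + 4 * d) + (6 * c + 4 * d) := by
          exact Nat.add_le_add (Nat.add_le_add_left hXv _) hXv'
    by_contra hcon
    have h2 : 2 * Y.card + 1 ≤ c + d := by omega
    have h3 : c * (2 * Y.card + 1) ≤ c * (c + d) := Nat.mul_le_mul_left _ h2
    have h4 : 28 * c ≤ c * c := Nat.mul_le_mul_right _ hc
    have h5 : 28 * d ≤ c * d := Nat.mul_le_mul_right _ hc
    have h6 : c * (2 * Y.card + 1) = 2 * (c * Y.card) + c := by ring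
    have h7 : c * (c + d) = c * c + c * d := by ring
    omega
  -- (vi)
  by_contra hcon
  have hcon' : ∀ y ∈ R, 11 ≤ (R.filter (fun z => y ≠ z ∧ ¬ D.Adj y z)).card := by
    intro y hy
    by_contra hlt
    apply hcon
    refine ⟨y, ?_, ?_⟩
    · rcases Finset.mem_union.mp hy with h | h
      · exact Or.inl ((mC y).mp h)
      · exact Or.inr ((mD y).mp h)
    · have h1 : {z | z ∈ C ∪ Dn D X C ∧ z ≠ y ∧ ¬ D.Adj y z} =
          ((R.filter (fun z => y ≠ z ∧ ¬ D.Adj y z) : Finset V) : Set V) := by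
        ext z
        simp only [Set.mem_ofPred_eq, Finset.coe_filter, hR, Finset.mem_union, mC, mD, ne_eq,
          Set.mem_union, eq_comm (a := z) (b := y)]
      rw [h1, Set.ncard_coe_finset]
      omega
  have hYR : Y ⊆ R := Finset.sdiff_subset
  have adjv : ∀ w ∈ C, ∀ Xw : Finset V, Xw = Df.filter (fun u => ¬ D.Adj u w) →
      ∀ y ∈ R, y ≠ w → y ∉ Xw → D.Adj w y := by
    intro w hw Xw hXw y hy hyw hyX
    rcases Finset.mem_union.mp hy with h | h
    · exact hCC w hw y ((mC y).mp h) (Ne.symm hyw)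
    · by_contra hna
      apply hyX
      rw [hXw]
      exact Finset.mem_filter.mpr ⟨h, fun h' => hna h'.symm⟩
  have hYv : ∀ y ∈ Y, y ∈ R ∧ D.Adj v y ∧ D.Adj v' y := by
    intro y hy
    obtain ⟨h1, h0⟩ := Finset.mem_sdiff.mp hy
    simp only [Finset.mem_union, Finset.mem_insert, Finset.mem_singleton, not_or] at h0
    obtain ⟨⟨⟨h2, h3⟩, h4⟩, h5⟩ := h0
    exact ⟨h1, adjv v hv Xv hXvdef y h1 h2 h4, adjv v' hv' Xv' hXvdef' y h1 h3 h5⟩
  have hNb : ∀ w ∈ C, ∑ y ∈ R.filter (fun y => D.Adj w y),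
      ((R.filter (fun y => D.Adj w y)).filter (fun z => y ≠ z ∧ ¬ D.Adj y z)).card ≤
        2 * (c + d) := by
    intro w hw
    have h1 : CoF D ((R.filter (fun y => D.Adj w y) : Finset V) : Set V) :=
      hnb w hw _ (fun y hy => Finset.mem_filter.mp hy)
    have h2 := np hF2 D _ h1
    have h3 : (R.filter (fun y => D.Adj w y)).card ≤ c + d := hRcard ▸ Finset.card_filter_le _ _
    omega
  have hsumY : ∑ y ∈ Y, (R.filter (fun z => y ≠ z ∧ ¬ D.Adj y z)).card ≤
      ∑ y ∈ Y, (((R.filter (fun z => D.Adj v z)).filter (fun z => y ≠ z ∧ ¬ D.Adj y z)).card +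
        ((R.filter (fun z => D.Adj v' z)).filter (fun z => y ≠ z ∧ ¬ D.Adj y z)).card + 2) := by
    apply Finset.sum_le_sum
    intro y hy
    have h1 : R.filter (fun z => y ≠ z ∧ ¬ D.Adj y z) ⊆
        ((R.filter (fun z => D.Adj v z)).filter (fun z => y ≠ z ∧ ¬ D.Adj y z)) ∪
        ((R.filter (fun z => D.Adj v' z)).filter (fun z => y ≠ z ∧ ¬ D.Adj y z)) ∪
        (Df.filter (fun u => ¬ D.Adj u v ∧ ¬ D.Adj u v')) := by
      intro z hz
      rw [Finset.mem_filter] at hz
      obtain ⟨hzR, hyz, hnz⟩ := hz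
      by_cases ha : D.Adj v z
      · exact Finset.mem_union_left _ (Finset.mem_union_left _
          (Finset.mem_filter.mpr ⟨Finset.mem_filter.mpr ⟨hzR, ha⟩, hyz, hnz⟩))
      · by_cases hb : D.Adj v' z
        · exact Finset.mem_union_left _ (Finset.mem_union_right _
            (Finset.mem_filter.mpr ⟨Finset.mem_filter.mpr ⟨hzR, hb⟩, hyz, hnz⟩))
        · apply Finset.mem_union_right
          have hyv := hYv y hy
          rcases Finset.mem_union.mp hzR with h | h
          · exfalso
            have hzv : v ≠ z := by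
              rintro rfl
              exact hnz hyv.2.1.symm
            exact ha (hCC v hv z ((mC z).mp h) hzv)
          · exact Finset.mem_filter.mpr ⟨h, fun h' => ha h'.symm, fun h' => hb h'.symm⟩
    have h2 := Finset.card_le_card h1
    have h3 := hii v hv v' hv' hne
    have h4 := Finset.card_union_le
      (((R.filter (fun z => D.Adj v z)).filter (fun z => y ≠ z ∧ ¬ D.Adj y z)) ∪
        ((R.filter (fun z => D.Adj v' z)).filter (fun z => y ≠ z ∧ ¬ D.Adj y z)))
      (Df.filter (fun u => ¬ D.Adj u v ∧ ¬ D.Adj u v'))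
    have h5 := Finset.card_union_le
      ((R.filter (fun z => D.Adj v z)).filter (fun z => y ≠ z ∧ ¬ D.Adj y z))
      ((R.filter (fun z => D.Adj v' z)).filter (fun z => y ≠ z ∧ ¬ D.Adj y z))
    omega
  have hlow : Y.card * 11 ≤ ∑ y ∈ Y, (R.filter (fun z => y ≠ z ∧ ¬ D.Adj y z)).card := by
    rw [← smul_eq_mul, ← Finset.sum_const]
    exact Finset.sum_le_sum (fun y hy => hcon' y (hYR hy))
  rw [Finset.sum_add_distrib, Finset.sum_add_distrib, Finset.sum_const, smul_eq_mul] at hsumY
  have hs1 : ∑ y ∈ Y, ((R.filter (fun z => D.Adj v z)).filter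
      (fun z => y ≠ z ∧ ¬ D.Adj y z)).card ≤ 2 * (c + d) := by
    refine le_trans (Finset.sum_le_sum_of_subset ?_) (hNb v hv)
    intro y hy
    exact Finset.mem_filter.mpr ⟨(hYv y hy).1, (hYv y hy).2.1⟩
  have hs2 : ∑ y ∈ Y, ((R.filter (fun z => D.Adj v' z)).filter
      (fun z => y ≠ z ∧ ¬ D.Adj y z)).card ≤ 2 * (c + d) := by
    refine le_trans (Finset.sum_le_sum_of_subset ?_) (hNb v' hv')
    intro y hy
    exact Finset.mem_filter.mpr ⟨(hYv y hy).1, (hYv y hy).2.2⟩
  omega

end Pool.Agent.MPd439b2
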