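import Pool.Agent.Lib.MP_d439b2_co.R.Spec1

/-!
# MP_d439b2_co, row `K_3 + P_1`, module C6: the dense region has a layout
-/

set_option autoImplicit false

namespace Pool.Agent.MPd439b2

namespace rC6Aux

/-- Adding at most `n` vertices. -/
theorem add (h3 : S_Y3) {V : Type} [Finite V] (D : SimpleGraph V) (R : Set V) :
    ∀ (n : ℕ) (F : Set V) (k : ℕ), F.ncard ≤ n → 1 ≤ k → Lay (restr D (R \ F)) k (R \ F) →
      Lay (restr D R) (3 ^ n * k) R := by
  intro n
  induction n with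
  | zero =>
    intro F k hF hk hL
    have h0 : F = ∅ := (Set.ncard_eq_zero F.toFinite).1 (Nat.le_zero.1 hF)
    rw [h0, Set.sdiff_empty] at hL
    rw [pow_zero, one_mul]
    exact hL
  | succ n ih =>
    intro F k hF hk hL
    rcases F.eq_empty_or_nonempty with h0 | ⟨v, hv⟩
    · rw [h0, Set.sdiff_empty] at hL
      exact hL.mono (Nat.le_mul_of_pos_left k (by positivity))
    · have h1 : (F \ {v}).ncard ≤ n := by
        rw [Set.ncard_sdiff_singleton_of_mem hv]
        omega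
      have h2 : R \ F = (R \ (F \ {v})) \ {v} := by
        ext z
        simp only [Set.mem_sdiff, Set.mem_singleton_iff]
        constructor
        · rintro ⟨hz, hzF⟩
          refine ⟨⟨hz, fun h => hzF h.1⟩, ?_⟩
          rintro rfl
          exact hzF hv
        · rintro ⟨⟨hz, hzF⟩, hzv⟩
          exact ⟨hz, fun h => hzF ⟨h, hzv⟩⟩
      rw [h2] at hL
      have h4 := h3 V D k (R \ (F \ {v})) v hL
      have h5 := ih (F \ {v}) (2 * k + 1) h1 (by omega) h4
      refine h5.mono ?_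
      rw [pow_succ, mul_assoc]
      exact Nat.mul_le_mul_left _ (by omega)

end rC6Aux

theorem rC6 : (S_C5) → (S_Y2) → (S_Y3) → (S_Y9) → S_C6 := by
  intro h5 h2 h3 h9 V _ D X C hX hC hc
  obtain ⟨y, hy, hF⟩ := h5 V D X C hX hC hc
  have hyX : y ∈ X := by
    rcases hy with hy | hy
    · exact hC.1 hy
    · exact hy.1
  have hL := h9 V D {w | w ∈ X ∧ D.Adj y w} (hX y hyX)
  have hsub : (C ∪ Dn D X C) \ (insert y {z | z ∈ C ∪ Dn D X C ∧ z ≠ y ∧ ¬ D.Adj y z}) ⊆
      {w | w ∈ X ∧ D.Adj y w} := by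
    rintro z ⟨hz, hzF⟩
    refine ⟨?_, ?_⟩
    · rcases hz with hz | hz
      · exact hC.1 hz
      · exact hz.1
    · by_contra hadj
      apply hzF
      rcases eq_or_ne z y with rfl | hne
      · exact Set.mem_insert _ _
      · exact Set.mem_insert_of_mem _ ⟨hz, hne, hadj⟩
  have h6 := h2 V D 2 _ _ hsub hL
  have h7 : (insert y {z | z ∈ C ∪ Dn D X C ∧ z ≠ y ∧ ¬ D.Adj y z}).ncard ≤ 11 :=
    (Set.ncard_insert_le _ _).trans (by omega)
  have h8 := rC6Aux.add h3 D (C ∪ Dn D X C) 11 _ 2 h7 (by norm_num) h6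
  have h10 : c₀ = 3 ^ 11 * 2 := by
    unfold c₀
    norm_num
  rw [h10]
  exact h8

end Pool.Agent.MPd439b2
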