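import Pool.Agent.Lib.MP_d439b2_co.R.Spec1

/-!
# MP_d439b2_co, row `K_3 + P_1`: D1, dissolving a closed neighbourhood
-/

set_option autoImplicit false

namespace Pool.Agent.MPd439b2

namespace rD1Aux

variable {V : Type}

/-- a clique is contained in a maximal clique -/
theorem ext_max [Finite V] {D : SimpleGraph V} {X K : Set V} (hKX : K ⊆ X) (hK : CompleteOn D K) :
    ∃ C, MaxCl D X C ∧ K ⊆ C := by
  set 𝒮 : Set (Set V) := {C | K ⊆ C ∧ C ⊆ X ∧ CompleteOn D C} with h𝒮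
  obtain ⟨C, hC, hmax⟩ := Set.exists_max_image 𝒮 Set.ncard (Set.toFinite _) ⟨K, subset_rfl, hKX, hK⟩
  refine ⟨C, ⟨hC.2.1, hC.2.2, fun u hu huC => ?_⟩, hC.1⟩
  by_contra h
  push Not at h
  have h1 : insert u C ∈ 𝒮 := by
    refine ⟨hC.1.trans (Set.subset_insert _ _), Set.insert_subset hu hC.2.1, ?_⟩
    rintro a (rfl | ha) b (rfl | hb) hab
    · exact absurd rfl hab
    · exact h b hb
    · exact (h a ha).symm
    · exact hC.2.2 a ha b hb hab
  have h2 := hmax _ h1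
  have h3 := Set.ncard_insert_of_notMem huC (Set.toFinite _)
  omega

/-- removing a small set -/
theorem mv_set [Finite V] (D : SimpleGraph V) : ∀ (n : ℕ) (X F : Set V), F.ncard ≤ n →
    Mv D n X (X \ F) := by
  intro n
  induction n with
  | zero =>
    intro X F hF
    have h : F = ∅ := by
      rw [← Set.ncard_eq_zero (Set.toFinite _)]
      omega
    subst h
    rw [Set.sdiff_empty]
    exact Mv.nil 0 X
  | succ n ih =>
    intro X F hF
    rcases F.eq_empty_or_nonempty with rfl | ⟨v, hv⟩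
    · rw [Set.sdiff_empty]
      exact Mv.nil _ X
    · have h1 := Set.ncard_sdiff_singleton_add_one hv (Set.toFinite _)
      have h2 := ih (X \ {v}) (F \ {v}) (by omega)
      have h3 : (X \ {v}) \ (F \ {v}) = X \ F := by
        ext x
        simp only [Set.mem_sdiff, Set.mem_singleton_iff]
        constructor
        · rintro ⟨⟨a, b⟩, c⟩
          exact ⟨a, fun h => c ⟨h, b⟩⟩
        · rintro ⟨a, b⟩
          exact ⟨⟨a, fun h => b (h ▸ hv)⟩, fun h => b h.1⟩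
      rw [h3] at h2
      exact Mv.vert v h2

/-- a vertex outside `C` with a neighbour in `C` is sparse or dense -/
theorem sp_or_dn {D : SimpleGraph V} {X C : Set V} {a c : V} (ha : a ∈ X) (haC : a ∉ C) (hc : c ∈ C)
    (h : D.Adj c a) : a ∈ Sp D X C ∨ a ∈ Dn D X C := by
  by_cases h1 : C.ncard ≤ 2 * (At D C a).ncard
  · exact Or.inr ⟨ha, haC, h1⟩
  · exact Or.inl ⟨ha, haC, ⟨c, hc, h.symm⟩, by omega⟩

/-- after the dense vertices are removed the clique is free -/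
theorem free {D : SimpleGraph V} {X C : Set V} (hM : MaxCl D X C)
    (h2 : ∀ s ∈ Sp D X C, ∀ s' ∈ Sp D X C, s ≠ s' → Disjoint (At D C s) (At D C s')) :
    FreeCl D (X \ Dn D X C) C := by
  refine ⟨fun c hc => ⟨hM.1 hc, fun h => h.2.1 hc⟩, hM.2.1, ?_⟩
  intro c hc a ha b hb hca hcb
  have h3 := (sp_or_dn ha.1.1 ha.2 hc hca).resolve_right ha.1.2
  have h4 := (sp_or_dn hb.1.1 hb.2 hc hcb).resolve_right hb.1.2
  by_contra hne
  exact Set.disjoint_left.1 (h2 a h3 b h4 hne) ⟨hc, hca.symm⟩ ⟨hc, hcb.symm⟩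

/-! ### balls -/

theorem ball_succ {D : SimpleGraph V} {X : Set V} {x y : V} {r : ℕ} (h : y ∈ Ball D X x r) :
    y ∈ Ball D X x (r + 1) := Or.inl h

theorem ball_adj {D : SimpleGraph V} {X : Set V} {x y z : V} {r : ℕ} (hy : y ∈ X)
    (h : z ∈ Ball D X x r) (hzy : D.Adj z y) : y ∈ Ball D X x (r + 1) := Or.inr ⟨hy, z, h, hzy⟩

theorem ball_x {D : SimpleGraph V} {X : Set V} {x : V} : x ∈ Ball D X x 0 := rfl

theorem ball_clique {D : SimpleGraph V} {X C : Set V} {x a c : V} {r : ℕ} (hCX : C ⊆ X)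
    (hC : CompleteOn D C) (ha : a ∈ C) (h : a ∈ Ball D X x r) (hc : c ∈ C) :
    c ∈ Ball D X x (r + 1) := by
  by_cases hac : a = c
  · rw [← hac]
    exact ball_succ h
  · exact ball_adj (hCX hc) h (hC a ha c hc hac)

theorem ball_at {D : SimpleGraph V} {X C : Set V} {x y : V} {r : ℕ} (hy : y ∈ X)
    (hC : ∀ c ∈ C, c ∈ Ball D X x r) (h : (At D C y).Nonempty) : y ∈ Ball D X x (r + 1) := by
  obtain ⟨c, hc, h1⟩ := h
  exact ball_adj hy (hC c hc) h1.symm

theorem at_ne [Finite V] {D : SimpleGraph V} {C : Set V} {u : V} (h : 28 ≤ C.ncard)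
    (hu : C.ncard ≤ 2 * (At D C u).ncard) : (At D C u).Nonempty := by
  rw [← Set.ncard_pos (Set.toFinite _)]
  omega

end rD1Aux

open rD1Aux in
theorem rD1 : (S_F2) → (S_C2) → (S_RC4) → (S_C6) → (S_Y8) → S_D1 := by
  intro hF2 hC2 hC4 hC6 hY8 V _ D X x hX hx
  set N : Set V := {w | w ∈ X ∧ D.Adj x w} with hN
  have hlay : Lay (restr D ∅) c₀ (∅ : Set V) := Lay.empty
  -- it is enough to remove everything
  have red : ∀ Y : Set V, Y ⊆ X → Mv D 60 X Y → (∀ b ∈ Y, b ∉ Nc D x) →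
      (∀ b ∈ X, b ∉ Y → b ∈ Ball D X x 3) → ∃ Y R : Set V, R ⊆ Y ∧ Y ⊆ X ∧ Mv D 60 X Y ∧
        Lay (restr D R) c₀ R ∧ (∀ a ∈ R, ∀ b ∈ Y \ R, ¬ D.Adj a b) ∧ (∀ b ∈ Y \ R, b ∉ Nc D x) ∧
        ∀ b ∈ X, b ∉ Y \ R → b ∈ Ball D X x 3 := by
    intro Y hYX h1 h2 h3
    refine ⟨Y, ∅, Set.empty_subset _, hYX, h1, hlay, fun a ha => absurd ha (Set.notMem_empty a),
      fun b hb => h2 b hb.1, fun b hb hbY => h3 b hb (fun h => hbY ⟨h, Set.notMem_empty b⟩)⟩
  by_cases h56 : N.ncard ≤ 56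
  · -- case 0
    have h1 : (insert x N).ncard ≤ 60 := by
      have := Set.ncard_insert_le x N
      omega
    refine red (X \ insert x N) Set.sdiff_subset (mv_set D 60 X _ h1) ?_ ?_
    · rintro b hb (rfl | h)
      · exact hb.2 (Set.mem_insert _ _)
      · exact hb.2 (Set.mem_insert_of_mem _ ⟨hb.1, h⟩)
    · intro b hb hbY
      have h2 : b ∈ insert x N := by
        by_contra h
        exact hbY ⟨hb, h⟩
      rcases h2 with rfl | h
      · exact ball_succ (ball_succ (ball_succ ball_x))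
      · exact ball_succ (ball_succ (ball_adj h.1 ball_x h.2))
  -- the maximal clique
  have hQ : ∃ Q : Set V, Q ⊆ N ∧ CompleteOn D Q ∧ 28 ≤ Q.ncard := by
    obtain ⟨⟨Q₁, Q₂, h1, h2, h3⟩, _⟩ := hF2 V D N (hX x hx)
    have h4 := Set.ncard_union_le Q₁ Q₂
    rw [h1] at h4
    by_cases h5 : 28 ≤ Q₁.ncard
    · exact ⟨Q₁, h1 ▸ Set.subset_union_left, h2, h5⟩
    · exact ⟨Q₂, h1 ▸ Set.subset_union_right, h3, by omega⟩
  obtain ⟨Q, hQN, hQc, hQ28⟩ := hQ
  have hK1 : insert x Q ⊆ X := Set.insert_subset hx (fun q hq => (hQN hq).1)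
  have hK2 : CompleteOn D (insert x Q) := by
    rintro a (rfl | ha) b (rfl | hb) hab
    · exact absurd rfl hab
    · exact (hQN hb).2
    · exact (hQN ha).2.symm
    · exact hQc a ha b hb hab
  obtain ⟨C, hM, hKC⟩ := ext_max hK1 hK2
  have hxC : x ∈ C := hKC (Set.mem_insert _ _)
  have h28 : 28 ≤ C.ncard :=
    hQ28.trans (Set.ncard_le_ncard ((Set.subset_insert _ _).trans hKC) (Set.toFinite _))
  have hNC : ∀ b ∈ X, D.Adj x b → b ∈ C ∨ b ∈ Sp D X C ∨ b ∈ Dn D X C := by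
    intro b hb hxb
    by_cases hbC : b ∈ C
    · exact Or.inl hbC
    · exact Or.inr (sp_or_dn hb hbC hxC hxb)
  obtain ⟨c2a, c2b⟩ := hC2 V D X C hX hM
  -- the balls
  have bC : ∀ c ∈ C, c ∈ Ball D X x 1 := fun c hc => ball_clique hM.1 hM.2.1 hxC ball_x hc
  have bDn : ∀ b ∈ Dn D X C, b ∈ Ball D X x 2 := fun b hb => ball_at hb.1 bC (at_ne h28 hb.2.2)
  have bSp : ∀ b ∈ Sp D X C, b ∈ Ball D X x 2 := fun b hb => ball_at hb.1 bC hb.2.2.1
  have bWf : ∀ b ∈ Wf D X C, b ∈ Ball D X x 3 := by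
    intro b hb
    obtain ⟨u, hu, h⟩ := hb.2
    exact ball_adj hb.1.1 (bDn u hu) h
  by_cases h5 : 5 ≤ (Sp D X C).ncard
  · -- case 1a
    have hDn := c2b h5
    have m1 : Mv D 1 X (X \ Dn D X C) := mv_set D 1 X _ hDn
    have m2 : Mv D 1 (X \ Dn D X C) ((X \ Dn D X C) \ C) := Mv.cliq C (free hM c2a) (Mv.nil 0 _)
    have hF : (N ∩ Sp D X C).ncard ≤ 1 := by
      rw [Set.ncard_le_one_iff (Set.toFinite _)]
      intro a b ha hb
      by_contra hab
      exact Set.disjoint_left.1 (c2a a ha.2 b hb.2 hab) ⟨hxC, ha.1.2.symm⟩ ⟨hxC, hb.1.2.symm⟩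
    have m3 : Mv D 1 ((X \ Dn D X C) \ C) (((X \ Dn D X C) \ C) \ (N ∩ Sp D X C)) :=
      mv_set D 1 _ _ hF
    have m12 := (hY8 V D 1 _ _ m1).2.2.2.1 1 _ m2
    have m123 := (hY8 V D _ _ _ m12).2.2.2.1 1 _ m3
    have m60 := (hY8 V D _ _ _ m123).2.2.2.2 60 (by omega)
    refine red _ (fun b hb => hb.1.1.1) m60 ?_ ?_
    · rintro b hb (rfl | h)
      · exact hb.1.2 hxC
      · rcases hNC b hb.1.1.1 h with h1 | h1 | h1
        · exact hb.1.2 h1
        · exact hb.2 ⟨⟨hb.1.1.1, h⟩, h1⟩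
        · exact hb.1.1.2 h1
    · intro b hb hbY
      by_cases h1 : b ∈ Dn D X C
      · exact ball_succ (bDn b h1)
      by_cases h2 : b ∈ C
      · exact ball_succ (ball_succ (bC b h2))
      by_cases h3 : b ∈ N ∩ Sp D X C
      · exact ball_succ (bSp b h3.2)
      · exact absurd ⟨⟨⟨hb, h1⟩, h2⟩, h3⟩ hbY
  rcases hC4 V D X C hX hM (by omega) with hW | ⟨C', hM', hCC', ⟨m, hm⟩, hSp', hS3⟩
  · -- case 1b
    have hF : (Sp D X C ∪ Wf D X C).ncard ≤ 60 := by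
      have := Set.ncard_union_le (Sp D X C) (Wf D X C)
      omega
    have hfar : ∀ z ∈ (X \ (Sp D X C ∪ Wf D X C)) \ (C ∪ Dn D X C), ∀ c ∈ C, ¬ D.Adj c z := by
      intro z hz c hc h
      rcases sp_or_dn hz.1.1 (fun h' => hz.2 (Or.inl h')) hc h with h1 | h1
      · exact hz.1.2 (Or.inl h1)
      · exact hz.2 (Or.inr h1)
    refine ⟨X \ (Sp D X C ∪ Wf D X C), C ∪ Dn D X C, ?_, Set.sdiff_subset, mv_set D 60 X _ hF,
      hC6 V D X C hX hM h28, ?_, ?_, ?_⟩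
    · rintro a (ha | ha)
      · refine ⟨hM.1 ha, ?_⟩
        rintro (h | h)
        · exact h.2.1 ha
        · exact h.1.2.1 ha
      · refine ⟨ha.1, ?_⟩
        rintro (h | h)
        · have h1 := h.2.2.2
          have h2 := ha.2.2
          omega
        · have h1 := at_ne h28 ha.2.2
          rw [h.1.2.2] at h1
          exact Set.not_nonempty_empty h1
    · rintro a (ha | ha) z hz h
      · exact hfar z hz a ha h
      · apply hz.1.2
        refine Or.inr ⟨⟨hz.1.1, fun h' => hz.2 (Or.inl h'), ?_⟩, a, ha, h⟩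
        rw [Set.eq_empty_iff_forall_notMem]
        intro c hc
        exact hfar z hz c hc.1 hc.2.symm
    · rintro z hz (rfl | h)
      · exact hz.2 (Or.inl hxC)
      · exact hfar z hz x hxC h
    · intro b hb hbY
      by_cases h1 : b ∈ Sp D X C
      · exact ball_succ (bSp b h1)
      by_cases h2 : b ∈ Wf D X C
      · exact bWf b h2
      by_cases h3 : b ∈ C
      · exact ball_succ (ball_succ (bC b h3))
      by_cases h4 : b ∈ Dn D X C
      · exact ball_succ (bDn b h4)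
      · exact absurd ⟨⟨hb, fun h => h.elim h1 h2⟩, fun h => h.elim h3 h4⟩ hbY
  · -- case 1c
    obtain ⟨c2a', c2b'⟩ := hC2 V D X C' hX hM'
    have hDn' := c2b' hSp'
    have m1 : Mv D 1 X (X \ Dn D X C') := mv_set D 1 X _ hDn'
    have m2 : Mv D 1 (X \ Dn D X C') ((X \ Dn D X C') \ C') := Mv.cliq C' (free hM' c2a') (Mv.nil 0 _)
    have m3 : Mv D 3 ((X \ Dn D X C') \ C') (((X \ Dn D X C') \ C') \ ((C ∪ Dn D X C) \ C')) :=
      mv_set D 3 _ _ hS3
    have m4 : Mv D 4 (((X \ Dn D X C') \ C') \ ((C ∪ Dn D X C) \ C'))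
        ((((X \ Dn D X C') \ C') \ ((C ∪ Dn D X C) \ C')) \ Sp D X C) := mv_set D 4 _ _ (by omega)
    have m12 := (hY8 V D 1 _ _ m1).2.2.2.1 1 _ m2
    have m123 := (hY8 V D _ _ _ m12).2.2.2.1 3 _ m3
    have m1234 := (hY8 V D _ _ _ m123).2.2.2.1 4 _ m4
    have m60 := (hY8 V D _ _ _ m1234).2.2.2.2 60 (by omega)
    have h28' : 28 ≤ C'.ncard := h28.trans hCC'
    have ha : ∃ a ∈ C, a ∈ C' := by
      have h1 : 1 < C.ncard := by omega
      obtain ⟨a, b, ha, hb, hab⟩ := (Set.one_lt_ncard_iff (Set.toFinite _)).1 h1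
      by_cases h : a = m
      · exact ⟨b, hb, hm ⟨hb, fun h' => hab (h.trans h'.symm)⟩⟩
      · exact ⟨a, ha, hm ⟨ha, h⟩⟩
    obtain ⟨a, haC, haC'⟩ := ha
    have bC' : ∀ c ∈ C', c ∈ Ball D X x 2 := fun c hc => ball_clique hM'.1 hM'.2.1 haC' (bC a haC) hc
    have bDn' : ∀ b ∈ Dn D X C', b ∈ Ball D X x 3 := fun b hb => ball_at hb.1 bC' (at_ne h28' hb.2.2)
    have hrem : ∀ b ∈ (((X \ Dn D X C') \ C') \ ((C ∪ Dn D X C) \ C')) \ Sp D X C,
        b ∉ C ∧ b ∉ Dn D X C ∧ b ∉ Sp D X C := fun b hb =>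
      ⟨fun h => hb.1.2 ⟨Or.inl h, hb.1.1.2⟩, fun h => hb.1.2 ⟨Or.inr h, hb.1.1.2⟩, hb.2⟩
    refine red _ (fun b hb => hb.1.1.1.1) m60 ?_ ?_
    · rintro b hb (rfl | h)
      · exact (hrem b hb).1 hxC
      · obtain ⟨h1, h2, h3⟩ := hrem b hb
        rcases hNC b hb.1.1.1.1 h with h4 | h4 | h4
        · exact h1 h4
        · exact h3 h4
        · exact h2 h4
    · intro b hb hbY
      by_cases h1 : b ∈ Dn D X C'
      · exact bDn' b h1
      by_cases h2 : b ∈ C'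
      · exact ball_succ (bC' b h2)
      by_cases h3 : b ∈ Sp D X C
      · exact ball_succ (bSp b h3)
      by_cases h4 : b ∈ C
      · exact ball_succ (ball_succ (bC b h4))
      by_cases h5 : b ∈ Dn D X C
      · exact ball_succ (bDn b h5)
      · exact absurd ⟨⟨⟨⟨hb, h1⟩, h2⟩, fun h => h.1.elim h4 h5⟩, h3⟩ hbY

end Pool.Agent.MPd439b2
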