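import Pool.Agent.Lib.MP_d439b2_co.R.Spec1

/-!
# MP_d439b2_co, row `K_3 + P_1`, module D2: dissolving closed neighbourhoods in subsets
-/

set_option autoImplicit false

namespace Pool.Agent.MPd439b2

theorem rD2 : (S_D1) → (S_Y7) → (S_Y8) → S_D2 := by
  intro hD1 hY7 hY8 V _ D Z X x c n hZ hx hXZ hc hdis
  obtain ⟨Y, R, hRY, hYZ, hMv, hLay, hNo, hNc, -⟩ := hD1 V D Z x hZ hx
  obtain ⟨-, hb, -, -, -⟩ := hY8 V D 60 Z Y hMv
  obtain ⟨-, -, hc', -, -⟩ := hY8 V D 60 X (X ∩ Y) (hb X hXZ)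
  apply hc' c n
  apply Dis.comps
  intro K hK
  obtain ⟨hKsub, hKconn, hKnb⟩ := hK
  by_cases hKR : (K ∩ R).Nonempty
  · have hKR' : K ∩ R = K := by
      apply hKconn.eq_of_nb Set.inter_subset_left hKR
      rintro v hv ⟨hv1, a, ha, hav⟩
      have hvR : v ∉ R := fun h => hv1 ⟨hv, h⟩
      exact hNo a ha.2 v ⟨(hKsub hv).2, hvR⟩ hav
    have hKR2 : K ⊆ R := by
      rw [← hKR']
      exact Set.inter_subset_right
    exact hY7 V D c c n n R K hKR2 le_rfl le_rfl (Dis.base (hLay.mono hc))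
  · have hsub : K ⊆ X \ Nc D x := by
      intro v hv
      refine ⟨(hKsub hv).1, hNc v ⟨(hKsub hv).2, fun h => hKR ⟨v, hv, h⟩⟩⟩
    exact hY7 V D c c n n (X \ Nc D x) K hsub le_rfl le_rfl hdis

end Pool.Agent.MPd439b2
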