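import Pool.Agent.Lib.MP_d439b2_co.R.Spec1

/-!
# MP_d439b2_co, R/F1: no triangle and no four-cycle in the complement of a co-forest
-/

set_option autoImplicit false

namespace Pool.Agent.MPd439b2

namespace rF1Aux

theorem eq_of_le_one {V : Type} [Finite V] {S : Set V} (h : S.ncard ≤ 1) {x y : V} (hx : x ∈ S)
    (hy : y ∈ S) : x = y :=
  (Set.ncard_le_one (Set.toFinite S)).1 h x hx y hy

end rF1Aux

theorem rF1 : S_F1 := by
  intro V _ D Z hZ
  constructor
  · intro a ha b hb c hc hab hac hbc nab nac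
    by_contra nbc
    have hsub : ({a, b, c} : Set V) ⊆ Z := by
      intro x hx
      rcases hx with rfl | rfl | rfl
      · exact ha
      · exact hb
      · exact hc
    obtain ⟨y, hy, hc1⟩ := hZ {a, b, c} hsub ⟨a, by simp⟩
    rcases hy with rfl | rfl | rfl
    · exact hbc (rF1Aux.eq_of_le_one hc1 ⟨by simp, hab.symm, nab⟩ ⟨by simp, hac.symm, nac⟩)
    · exact hac (rF1Aux.eq_of_le_one hc1 ⟨by simp, hab, fun h => nab h.symm⟩
        ⟨by simp, hbc.symm, nbc⟩)
    · exact hab (rF1Aux.eq_of_le_one hc1 ⟨by simp, hac, fun h => nac h.symm⟩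
        ⟨by simp, hbc, fun h => nbc h.symm⟩)
  · intro a ha b hb c hc d hd hab hac had hbc hbd hcd nab nbc ncd
    by_contra nda
    have hsub : ({a, b, c, d} : Set V) ⊆ Z := by
      intro x hx
      rcases hx with rfl | rfl | rfl | rfl
      · exact ha
      · exact hb
      · exact hc
      · exact hd
    obtain ⟨y, hy, hc1⟩ := hZ {a, b, c, d} hsub ⟨a, by simp⟩
    rcases hy with rfl | rfl | rfl | rfl
    · exact hbd (rF1Aux.eq_of_le_one hc1 ⟨by simp, hab.symm, nab⟩
        ⟨by simp, had.symm, fun h => nda h.symm⟩)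
    · exact hac (rF1Aux.eq_of_le_one hc1 ⟨by simp, hab, fun h => nab h.symm⟩
        ⟨by simp, hbc.symm, nbc⟩)
    · exact hbd (rF1Aux.eq_of_le_one hc1 ⟨by simp, hbc, fun h => nbc h.symm⟩
        ⟨by simp, hcd.symm, ncd⟩)
    · exact hac (rF1Aux.eq_of_le_one hc1 ⟨by simp, had, nda⟩
        ⟨by simp, hcd, fun h => ncd h.symm⟩)

end Pool.Agent.MPd439b2
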