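import Pool.Agent.Lib.MP_d439b2_co.R.Spec1

/-!
# MP_d439b2_co, R/F2: two cliques and the number of non-adjacent pairs in a co-forest
-/

set_option autoImplicit false

namespace Pool.Agent.MPd439b2

namespace rF2Aux

variable {V : Type}

/-- the ordered non-adjacent pairs -/
def NP (D : SimpleGraph V) (Z : Set V) : Set (V × V) :=
  {p : V × V | p.1 ∈ Z ∧ p.2 ∈ Z ∧ p.1 ≠ p.2 ∧ ¬ D.Adj p.1 p.2}

theorem complete_insert {D : SimpleGraph V} {Q : Set V} {y : V} (hQ : CompleteOn D Q)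
    (hy : ∀ q ∈ Q, D.Adj y q) : CompleteOn D (insert y Q) := by
  intro u hu v hv huv
  rcases hu with rfl | hu
  · rcases hv with rfl | hv
    · exact absurd rfl huv
    · exact hy v hv
  · rcases hv with rfl | hv
    · exact (hy u hu).symm
    · exact hQ u hu v hv huv

theorem step [Finite V] {D : SimpleGraph V} {Z : Set V} {y : V} (hy : y ∈ Z)
    (h1 : {w | w ∈ Z ∧ w ≠ y ∧ ¬ D.Adj y w}.ncard ≤ 1)
    (ih : (∃ Q₁ Q₂ : Set V, Q₁ ∪ Q₂ = Z \ {y} ∧ CompleteOn D Q₁ ∧ CompleteOn D Q₂) ∧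
      (NP D (Z \ {y})).ncard ≤ 2 * (Z \ {y}).ncard) :
    (∃ Q₁ Q₂ : Set V, Q₁ ∪ Q₂ = Z ∧ CompleteOn D Q₁ ∧ CompleteOn D Q₂) ∧
      (NP D Z).ncard ≤ 2 * Z.ncard := by
  obtain ⟨⟨Q₁, Q₂, hQ, c1, c2⟩, hn⟩ := ih
  rw [Set.ncard_le_one (Set.toFinite _)] at h1
  have hQ1 : ∀ q ∈ Q₁, q ∈ Z ∧ q ≠ y := by
    intro q hq
    have : q ∈ Z \ {y} := hQ ▸ Or.inl hq
    exact ⟨this.1, fun h => this.2 h⟩
  have hQ2 : ∀ q ∈ Q₂, q ∈ Z ∧ q ≠ y := by
    intro q hq
    have : q ∈ Z \ {y} := hQ ▸ Or.inr hq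
    exact ⟨this.1, fun h => this.2 h⟩
  have hZ : insert y (Z \ {y}) = Z := Set.insert_sdiff_self_of_mem hy
  constructor
  · by_cases hc : ∀ q ∈ Q₁, D.Adj y q
    · refine ⟨insert y Q₁, Q₂, ?_, complete_insert c1 hc, c2⟩
      rw [Set.insert_union, hQ, hZ]
    · push Not at hc
      obtain ⟨w, hw, nw⟩ := hc
      by_cases hw2 : w ∈ Q₂
      · -- remove w from the second clique
        refine ⟨Q₁, insert y (Q₂ \ {w}), ?_, c1, complete_insert ?_ ?_⟩
        · rw [Set.union_insert, ← hZ, ← hQ]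
          congr 1
          ext z
          constructor
          · rintro (h | h)
            · exact Or.inl h
            · exact Or.inr h.1
          · rintro (h | h)
            · exact Or.inl h
            · by_cases hzw : z = w
              · exact Or.inl (hzw ▸ hw)
              · exact Or.inr ⟨h, fun h' => hzw h'⟩
        · intro a ha b hb hab
          exact c2 a ha.1 b hb.1 hab
        · intro q hq
          by_contra nq
          have hqw := h1 q ⟨(hQ2 q hq.1).1, (hQ2 q hq.1).2, nq⟩ w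
            ⟨(hQ1 w hw).1, (hQ1 w hw).2, nw⟩
          exact hq.2 hqw
      · refine ⟨Q₁, insert y Q₂, ?_, c1, complete_insert c2 ?_⟩
        · rw [Set.union_insert, hQ, hZ]
        · intro q hq
          by_contra nq
          have hqw := h1 q ⟨(hQ2 q hq).1, (hQ2 q hq).2, nq⟩ w
            ⟨(hQ1 w hw).1, (hQ1 w hw).2, nw⟩
          exact hw2 (hqw ▸ hq)
  · have hcard : (Z \ {y}).ncard + 1 = Z.ncard :=
      Set.ncard_sdiff_singleton_add_one hy (Set.toFinite Z)
    by_cases hex : ∃ w, w ∈ Z ∧ w ≠ y ∧ ¬ D.Adj y w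
    · obtain ⟨w, hwZ, hwy, nw⟩ := hex
      have hsub : NP D Z ⊆ insert (y, w) (insert (w, y) (NP D (Z \ {y}))) := by
        rintro ⟨p, q⟩ ⟨hp, hq, hpq, nadj⟩
        by_cases hpy : p = y
        · subst hpy
          have : q = w := h1 q ⟨hq, hpq.symm, nadj⟩ w ⟨hwZ, hwy, nw⟩
          subst this
          exact Or.inl rfl
        · by_cases hqy : q = y
          · subst hqy
            have : p = w := h1 p ⟨hp, hpy, fun h => nadj h.symm⟩ w ⟨hwZ, hwy, nw⟩
            subst this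
            exact Or.inr (Or.inl rfl)
          · exact Or.inr (Or.inr ⟨⟨hp, hpy⟩, ⟨hq, hqy⟩, hpq, nadj⟩)
      have h2 := Set.ncard_le_ncard hsub (Set.toFinite _)
      have h3 := Set.ncard_insert_le (y, w) (insert (w, y) (NP D (Z \ {y})))
      have h4 := Set.ncard_insert_le (w, y) (NP D (Z \ {y}))
      omega
    · push Not at hex
      have hsub : NP D Z ⊆ NP D (Z \ {y}) := by
        rintro ⟨p, q⟩ ⟨hp, hq, hpq, nadj⟩
        have hpy : p ≠ y := by
          intro h
          subst h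
          exact nadj (hex q hq hpq.symm)
        have hqy : q ≠ y := by
          intro h
          subst h
          exact nadj (hex p hp hpy).symm
        exact ⟨⟨hp, hpy⟩, ⟨hq, hqy⟩, hpq, nadj⟩
      have h2 := Set.ncard_le_ncard hsub (Set.toFinite _)
      omega

theorem main [Finite V] (D : SimpleGraph V) : ∀ (n : ℕ) (Z : Set V), Z.ncard ≤ n → CoF D Z →
    (∃ Q₁ Q₂ : Set V, Q₁ ∪ Q₂ = Z ∧ CompleteOn D Q₁ ∧ CompleteOn D Q₂) ∧
      (NP D Z).ncard ≤ 2 * Z.ncard := by
  intro n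
  induction n with
  | zero =>
    intro Z hZ _
    have : Z = ∅ := by
      rw [← Set.ncard_eq_zero (Set.toFinite Z)]
      omega
    subst this
    refine ⟨⟨∅, ∅, by simp, by intro u hu; exact hu.elim, by intro u hu; exact hu.elim⟩, ?_⟩
    have : NP D (∅ : Set V) = ∅ := by
      ext p
      simp [NP]
    rw [this]
    simp
  | succ n ih =>
    intro Z hn hZ
    rcases Set.eq_empty_or_nonempty Z with rfl | hne
    · exact ih ∅ (by simp) hZ
    · obtain ⟨y, hy, h1⟩ := hZ Z (subset_refl _) hne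
      have hcard : (Z \ {y}).ncard + 1 = Z.ncard :=
        Set.ncard_sdiff_singleton_add_one hy (Set.toFinite Z)
      exact step hy h1 (ih (Z \ {y}) (by omega)
        (fun Y hY hYn => hZ Y (hY.trans Set.sdiff_subset) hYn))

end rF2Aux

theorem rF2 : S_F2 := by
  intro V _ D Z hZ
  exact rF2Aux.main D Z.ncard Z le_rfl hZ

end Pool.Agent.MPd439b2
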