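import Pool.Agent.Lib.MP_d439b2_co.R.Spec1

/-!
# MP_d439b2_co, R/G2: the cut lemma
-/

set_option autoImplicit false

namespace Pool.Agent.MPd439b2

namespace rG2Aux

variable {V : Type}

theorem mv_sub {D : SimpleGraph V} {n : ℕ} {X Y : Set V} (h : Mv D n X Y) : Y ⊆ X := by
  induction h with
  | nil n X => exact subset_rfl
  | vert v _ ih => exact ih.trans Set.sdiff_subset
  | cliq C _ _ ih => exact ih.trans Set.sdiff_subset

theorem types_add {D D' : SimpleGraph V} {A A' : Set V} (T : Set V) {n : ℕ}
    (h : Types D' A' ⊆ insert T (Types D A)) (hn : (Types D A).encard ≤ n) :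
    (Types D' A').encard ≤ (n + 1 : ℕ) := by
  calc (Types D' A').encard ≤ (insert T (Types D A)).encard := Set.encard_le_encard h
    _ ≤ (Types D A).encard + 1 := Set.encard_insert_le _ _
    _ ≤ (n + 1 : ℕ) := by
      push_cast
      exact add_le_add hn le_rfl

theorem main {D : SimpleGraph V} {n : ℕ} {X Y : Set V} (h : Mv D n X Y) :
    ∀ P P' : Set V, Y = P ∪ P' → Disjoint P P' → (∀ a ∈ P, ∀ b ∈ P', ¬ D.Adj a b) →
      ∃ A, P ⊆ A ∧ A ⊆ X ∧ Disjoint A P' ∧ (Types (restr D X) A).encard ≤ n := by
  induction h with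
  | nil n X =>
    intro P P' hY hd hadj
    refine ⟨P, subset_rfl, ?_, hd, ?_⟩
    · rw [hY]
      exact Set.subset_union_left
    · have h0 : Types (restr D X) P = ∅ := by
        apply Set.eq_empty_of_forall_notMem
        rintro T ⟨⟨w, hw⟩, a, ha, rfl⟩
        obtain ⟨⟨h1, _, h3⟩, h4⟩ := hw
        rw [hY] at h3
        rcases h3 with h3 | h3
        · exact h4 h3
        · exact hadj a ha w h3 h1
      rw [h0, Set.encard_empty]
      exact zero_le
  | @vert n X Y v hM ih =>
    intro P P' hY hd hadj
    obtain ⟨A, hPA, hAX, hAP, hT⟩ := ih P P' hY hd hadj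
    by_cases hv : v ∈ X
    · have hvP : v ∉ P' := by
        intro hvP
        have h1 : v ∈ Y := by
          rw [hY]
          exact Or.inr hvP
        exact (mv_sub hM h1).2 rfl
      refine ⟨insert v A, hPA.trans (Set.subset_insert _ _), ?_, ?_, ?_⟩
      · intro w hw
        rcases hw with rfl | hw
        · exact hv
        · exact (hAX hw).1
      · rw [Set.disjoint_left]
        intro w hw hwP
        rcases hw with rfl | hw
        · exact hvP hwP
        · exact (Set.disjoint_left.mp hAP) hw hwP
      · refine types_add ((restr D X).neighborSet v \ insert v A) ?_ hT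
        rintro T ⟨hne, a, ha, rfl⟩
        rcases ha with rfl | ha
        · exact Or.inl rfl
        · refine Or.inr ⟨?_, a, ha, ?_⟩
          · exact hne
          · ext w
            constructor
            · rintro ⟨⟨h1, h2, h3⟩, h4⟩
              have h5 : w ≠ v := fun h => h4 (Or.inl h)
              exact ⟨⟨h1, hAX ha, h3, h5⟩, fun h => h4 (Or.inr h)⟩
            · rintro ⟨⟨h1, h2, h3⟩, h4⟩
              refine ⟨⟨h1, h2.1, h3.1⟩, ?_⟩
              rintro (h | h)
              · exact h3.2 h
              · exact h4 h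
    · have hX : X \ {v} = X := Set.sdiff_singleton_eq_self hv
      rw [hX] at hAX hT
      exact ⟨A, hPA, hAX, hAP, hT.trans (by exact_mod_cast Nat.le_succ n)⟩
  | @cliq n X Y C hC hM ih =>
    intro P P' hY hd hadj
    obtain ⟨A, hPA, hAX, hAP, hT⟩ := ih P P' hY hd hadj
    obtain ⟨hCX, hCc, hCf⟩ := hC
    set A' : Set V := A ∪ {c | c ∈ C ∧ ∀ b ∈ X \ C, D.Adj c b → b ∈ A} with hA'
    refine ⟨A', hPA.trans Set.subset_union_left, ?_, ?_, ?_⟩
    · rintro w (hw | hw)
      · exact (hAX hw).1
      · exact hCX hw.1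
    · rw [Set.disjoint_left]
      rintro w (hw | hw) hwP
      · exact (Set.disjoint_left.mp hAP) hw hwP
      · have h1 : w ∈ Y := by
          rw [hY]
          exact Or.inr hwP
        exact (mv_sub hM h1).2 hw.1
    · refine types_add (C \ A') ?_ hT
      rintro T ⟨hne, a, ha, rfl⟩
      rcases ha with ha | ha
      · refine Or.inr ⟨hne, a, ha, ?_⟩
        ext w
        constructor
        · rintro ⟨⟨h1, h2, h3⟩, h4⟩
          have hwC : w ∉ C := by
            intro hwC
            apply h4
            refine Or.inr ⟨hwC, ?_⟩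
            intro b hb hab
            have h5 : a = b := hCf w hwC a (hAX ha) b hb h1.symm hab
            rw [← h5]
            exact ha
          exact ⟨⟨h1, hAX ha, h3, hwC⟩, fun h => h4 (Or.inl h)⟩
        · rintro ⟨⟨h1, h2, h3⟩, h4⟩
          refine ⟨⟨h1, h2.1, h3.1⟩, ?_⟩
          rintro (h | h)
          · exact h4 h
          · exact h3.2 h.1
      · left
        ext w
        constructor
        · rintro ⟨⟨h1, h2, h3⟩, h4⟩
          refine ⟨?_, h4⟩
          by_contra hwC
          exact h4 (Or.inl (ha.2 w ⟨h3, hwC⟩ h1))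
        · rintro ⟨h1, h2⟩
          refine ⟨⟨hCc a ha.1 w h1 ?_, hCX ha.1, hCX h1⟩, h2⟩
          rintro rfl
          exact h2 (Or.inr ha)

end rG2Aux

theorem rG2 : S_G2 := by
  intro V _ D n X P P' hd hadj hM
  exact rG2Aux.main hM P P' rfl hd hadj

end Pool.Agent.MPd439b2
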