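import Pool.Agent.Lib.MP_d439b2_co.R.Spec1

/-!
# MP_d439b2_co, R/G3: layouts from a chain of sets with few types
-/

set_option autoImplicit false

namespace Pool.Agent.MPd439b2

namespace rG3Aux

variable {V : Type}

theorem count [Finite V] {D : SimpleGraph V} {X L Up B : Set V} {k t : ℕ} (hLU : L ⊆ Up)
    (hUX : Up ⊆ X) (hB : B ⊆ Up \ L)
    (hL : (Types (restr D X) L).encard ≤ t) (hU : (Types (restr D X) Up).encard ≤ t)
    (hk : (Types (restr D (Up \ L)) B).encard ≤ k) :
    (Types (restr D X) B).encard ≤ ((k + 1) * (t + 1) * 2 ^ t : ℕ) := by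
  classical
  have hL' : (Types (restr D X) L).ncard ≤ t := (Set.encard_le_coe_iff_finite_ncard_le.mp hL).2
  have hU' : (Types (restr D X) Up).ncard ≤ t := (Set.encard_le_coe_iff_finite_ncard_le.mp hU).2
  have hk' : (Types (restr D (Up \ L)) B).ncard ≤ k :=
    (Set.encard_le_coe_iff_finite_ncard_le.mp hk).2
  rw [Set.encard_le_coe_iff_finite_ncard_le]
  refine ⟨Set.toFinite _, ?_⟩
  set S1 : Set (Set V) := insert ∅ (Types (restr D (Up \ L)) B) with hS1
  set S2 : Set (Set V) := insert ∅ (Types (restr D X) Up) with hS2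
  set S3 : Set (Set (Set V)) := 𝒫 (Types (restr D X) L) with hS3
  set g : (Set V × Set V) × Set (Set V) → Set V := fun p =>
    p.1.1 ∪ p.1.2 ∪ {a | a ∈ L ∧ (restr D X).neighborSet a \ L ∈ p.2} with hg
  have hsub : Types (restr D X) B ⊆ g '' ((S1 ×ˢ S2) ×ˢ S3) := by
    rintro T ⟨hne, b, hb, rfl⟩
    have hbU : b ∈ Up \ L := hB hb
    refine ⟨(((restr D (Up \ L)).neighborSet b \ B, (restr D X).neighborSet b \ Up),
      {T | T ∈ Types (restr D X) L ∧ b ∈ T}), ⟨⟨?_, ?_⟩, ?_⟩, ?_⟩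
    · by_cases h : ((restr D (Up \ L)).neighborSet b \ B).Nonempty
      · exact Or.inr ⟨h, b, hb, rfl⟩
      · exact Or.inl (Set.not_nonempty_iff_eq_empty.mp h)
    · by_cases h : ((restr D X).neighborSet b \ Up).Nonempty
      · exact Or.inr ⟨h, b, hbU.1, rfl⟩
      · exact Or.inl (Set.not_nonempty_iff_eq_empty.mp h)
    · intro T hT
      exact hT.1
    · ext w
      constructor
      · rintro ((⟨⟨h1, h2, h3⟩, h4⟩ | ⟨⟨h1, h2, h3⟩, h4⟩) | ⟨h1, h2, h3⟩)
        · exact ⟨⟨h1, hUX h2.1, hUX h3.1⟩, h4⟩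
        · exact ⟨⟨h1, h2, h3⟩, fun h => h4 (hB h).1⟩
        · obtain ⟨⟨h4, h5, h6⟩, h7⟩ := h3
          exact ⟨⟨h4.symm, h6, h5⟩, fun h => (hB h).2 h1⟩
      · rintro ⟨⟨h1, h2, h3⟩, h4⟩
        by_cases hwU : w ∈ Up
        · by_cases hwL : w ∈ L
          · right
            refine ⟨hwL, ⟨⟨b, ⟨h1.symm, h3, h2⟩, hbU.2⟩, w, hwL, rfl⟩, ⟨h1.symm, h3, h2⟩, hbU.2⟩
          · left; left
            exact ⟨⟨h1, hbU, hwU, hwL⟩, h4⟩
        · left; right
          exact ⟨⟨h1, h2, h3⟩, hwU⟩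
  have h1 : S1.ncard ≤ k + 1 := (Set.ncard_insert_le _ _).trans (by omega)
  have h2 : S2.ncard ≤ t + 1 := (Set.ncard_insert_le _ _).trans (by omega)
  have h3 : S3.ncard ≤ 2 ^ t := by
    rw [hS3, Set.ncard_powerset]
    exact Nat.pow_le_pow_right (by norm_num) hL'
  calc (Types (restr D X) B).ncard ≤ (g '' ((S1 ×ˢ S2) ×ˢ S3)).ncard :=
        Set.ncard_le_ncard hsub (Set.toFinite _)
    _ ≤ ((S1 ×ˢ S2) ×ˢ S3).ncard := Set.ncard_image_le (Set.toFinite _)
    _ = S1.ncard * S2.ncard * S3.ncard := by rw [Set.ncard_prod, Set.ncard_prod]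
    _ ≤ (k + 1) * (t + 1) * 2 ^ t := Nat.mul_le_mul (Nat.mul_le_mul h1 h2) h3

theorem claim1 [Finite V] {D : SimpleGraph V} {X L Up : Set V} {k t : ℕ} (hLU : L ⊆ Up)
    (hUX : Up ⊆ X)
    (hL : (Types (restr D X) L).encard ≤ t) (hU : (Types (restr D X) Up).encard ≤ t)
    {B : Set V} (hlay : Lay (restr D (Up \ L)) k B) (hB : B ⊆ Up \ L) :
    Lay (restr D X) ((k + 1) * (t + 1) * 2 ^ t) B := by
  induction hlay with
  | empty => exact Lay.empty
  | single v h => exact Lay.single v (count hLU hUX hB hL hU h)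
  | @union A B _ _ hd ht ihA ihB =>
    exact Lay.union (ihA (Set.subset_union_left.trans hB)) (ihB (Set.subset_union_right.trans hB))
      hd (count hLU hUX hB hL hU ht)

end rG3Aux

open rG3Aux in
theorem rG3 : S_G3 := by
  intro V _ D X A m k t hmono hAm htypes hlay0 hlay
  have hle : ∀ i j, i ≤ j → j ≤ m → A i ⊆ A j := by
    intro i j hij
    induction j, hij using Nat.le_induction with
    | base => intro _; exact subset_rfl
    | succ j _ ih =>
      intro hj
      exact (ih (by omega)).trans (hmono j (by omega))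
  have hAX : ∀ j ≤ m, A j ⊆ X := by
    intro j hj
    rw [← hAm]
    exact hle j m hj le_rfl
  have ht' : t ≤ (k + 1) * (t + 1) * 2 ^ t := by
    have h1 : 1 ≤ 2 ^ t := Nat.one_le_two_pow
    calc t ≤ 1 * (t + 1) * 1 := by omega
      _ ≤ (k + 1) * (t + 1) * 2 ^ t :=
        Nat.mul_le_mul (Nat.mul_le_mul (by omega) le_rfl) h1
  have h2 : ∀ j ≤ m, Lay (restr D X) ((k + 1) * (t + 1) * 2 ^ t) (A j) := by
    intro j
    induction j with
    | zero =>
      intro _
      have h0 : A 0 \ ∅ = A 0 := Set.sdiff_empty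
      refine claim1 (L := ∅) (Up := A 0) (Set.empty_subset _) (hAX 0 (Nat.zero_le _)) ?_
        (htypes 0 (Nat.zero_le _)) ?_ ?_
      · have : Types (restr D X) (∅ : Set V) = ∅ := by
          apply Set.eq_empty_of_forall_notMem
          rintro T ⟨_, a, ha, _⟩
          exact ha
        rw [this, Set.encard_empty]
        exact zero_le
      · rw [h0]; exact hlay0
      · rw [h0]
    | succ j ih =>
      intro hj
      have h3 := claim1 (L := A j) (Up := A (j + 1)) (hmono j (by omega)) (hAX (j + 1) hj)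
        (htypes j (by omega)) (htypes (j + 1) hj) (hlay j (by omega)) subset_rfl
      have h4 : A j ∪ (A (j + 1) \ A j) = A (j + 1) :=
        Set.union_sdiff_cancel (hmono j (by omega))
      rw [← h4]
      refine Lay.union (ih (by omega)) h3 Set.disjoint_sdiff_right ?_
      rw [h4]
      exact (htypes (j + 1) hj).trans (by exact_mod_cast ht')
  have := h2 m le_rfl
  rw [hAm] at this
  exact this

end Pool.Agent.MPd439b2
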