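import Pool.Agent.Lib.MP_d439b2_co.R.Spec2

set_option autoImplicit false

namespace Pool.Agent.MPd439b2

namespace rK1Aux

/-- an injective path with `m + 1` vertices in `Y` -/
def PP {V : Type} (G : SimpleGraph V) (Y : Set V) (m : ℕ) (p : ℕ → V) : Prop :=
  (∀ i ≤ m, p i ∈ Y) ∧ (∀ i ≤ m, ∀ j ≤ m, p i = p j → i = j) ∧ ∀ i < m, G.Adj (p i) (p (i + 1))

theorem bound {V : Type} [Finite V] (G : SimpleGraph V) (Y : Set V) (m : ℕ) (p : ℕ → V) (h : PP G Y m p) :
    m + 1 ≤ Nat.card V := by
  have h1 : Function.Injective (fun i : Fin (m + 1) => p i.val) := by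
    intro i j hij
    exact Fin.ext (h.2.1 i.val (by omega) j.val (by omega) hij)
  have h2 := Nat.card_le_card_of_injective _ h1
  rwa [Nat.card_eq_fintype_card, Fintype.card_fin] at h2

theorem exists_max {V : Type} [Finite V] (G : SimpleGraph V) (Y : Set V) (hY : Y.Nonempty) :
    ∃ m p, PP G Y m p ∧ ∀ q, ¬ PP G Y (m + 1) q := by
  by_contra hcon
  push Not at hcon
  have h : ∀ m, ∃ p, PP G Y m p := by
    intro m
    induction m with
    | zero =>
      obtain ⟨y, hy⟩ := hY
      exact ⟨fun _ => y, fun _ _ => hy, fun i hi j hj _ => by omega, fun i hi => by omega⟩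
    | succ m ih =>
      obtain ⟨p, hp⟩ := ih
      exact hcon m p hp
  obtain ⟨p, hp⟩ := h (Nat.card V)
  have := bound G Y _ p hp
  omega

end rK1Aux

open rK1Aux in
theorem rK1 : S_K1 := by
  intro V _ G Y hY hdeg
  obtain ⟨m, p, hp, hmax⟩ := exists_max G Y hY
  have hnb : ∀ w ∈ Y, G.Adj (p 0) w → ∃ j ≤ m, 1 ≤ j ∧ w = p j := by
    intro w hw hadj
    by_contra hcon
    push Not at hcon
    have hne : ∀ j ≤ m, w ≠ p j := by
      intro j hj
      rcases Nat.eq_zero_or_pos j with h0 | h0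
      · rw [h0]
        exact hadj.ne'
      · exact hcon j hj h0
    refine hmax (fun i => if i = 0 then w else p (i - 1)) ⟨fun i hi => ?_, fun i hi j hj hij => ?_, fun i hi => ?_⟩
    · simp only
      split_ifs with h
      · exact hw
      · exact hp.1 _ (by omega)
    · simp only at hij
      split_ifs at hij with h1 h2 h2
      · omega
      · exact absurd hij (hne _ (by omega))
      · exact absurd hij.symm (hne _ (by omega))
      · have := hp.2.1 _ (by omega) _ (by omega) hij
        omega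
    · simp only
      rw [if_neg (Nat.succ_ne_zero i)]
      split_ifs with h
      · rw [h]
        exact hadj.symm
      · have h1 := hp.2.2 (i - 1) (by omega)
        rwa [Nat.sub_add_cancel (by omega : 1 ≤ i)] at h1
  have h2 := hdeg (p 0) (hp.1 0 (Nat.zero_le _))
  have h3 : 1 < {w | w ∈ Y ∧ G.Adj (p 0) w}.ncard := h2
  rw [Set.one_lt_ncard (Set.toFinite _)] at h3
  obtain ⟨a, ha, b, hb, hab⟩ := h3
  obtain ⟨i, hi, hi1, hia⟩ := hnb a ha.1 ha.2
  obtain ⟨j, hj, hj1, hjb⟩ := hnb b hb.1 hb.2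
  have hij : i ≠ j := by
    rintro rfl
    exact hab (hia.trans hjb.symm)
  have key : ∃ j ≤ m, 2 ≤ j ∧ G.Adj (p j) (p 0) := by
    rcases Nat.lt_or_ge i j with h | h
    · exact ⟨j, hj, by omega, by rw [← hjb]; exact hb.2.symm⟩
    · exact ⟨i, hi, by omega, by rw [← hia]; exact ha.2.symm⟩
  obtain ⟨l, hl, hl2, hadj⟩ := key
  refine ⟨l + 1, p, by omega, fun i hi => hp.1 i (by omega), fun i hi j hj => hp.2.1 i (by omega) j (by omega),
    fun i hi => hp.2.2 i (by omega), ?_⟩
  rw [Nat.add_sub_cancel]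
  exact hadj

end Pool.Agent.MPd439b2
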