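import Pool.Agent.Lib.MP_d439b2_co.R.Spec2

/-!
# MP_d439b2_co, R/K2 (helper51): graphs without `K_3 + P_1`
-/

set_option autoImplicit false

namespace Pool.Agent.MPd439b2

namespace rK2Aux

variable {V : Type}

/-- the vertices `z 1, ..., z n` -/
def Seg (z : ℕ → V) (n : ℕ) : Set V := {u | ∃ i, 1 ≤ i ∧ i ≤ n ∧ u = z i}

theorem seg_conn (G : SimpleGraph V) (z : ℕ → V) (l : ℕ)
    (hz : ∀ i, i + 1 < l → G.Adj (z i) (z (i + 1))) : ∀ n : ℕ, n + 2 < l → Conn G (Seg z (n + 1)) := by
  intro n
  induction n with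
  | zero =>
    intro _
    have h1 : Seg z (0 + 1) = {z 1} := by
      ext u
      constructor
      · rintro ⟨i, h1, h2, rfl⟩
        have h3 : i = 1 := by omega
        rw [h3]
        rfl
      · intro hu
        exact ⟨1, le_rfl, le_rfl, hu⟩
    rw [h1]
    exact Conn.singleton G _
  | succ n ih =>
    intro hn
    have h1 : Seg z (n + 1 + 1) = insert (z (n + 2)) (Seg z (n + 1)) := by
      ext u
      constructor
      · rintro ⟨i, h1, h2, rfl⟩
        by_cases h3 : i = n + 2
        · left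
          rw [h3]
        · right
          exact ⟨i, h1, by omega, rfl⟩
      · rintro (hu | ⟨i, h1, h2, rfl⟩)
        · exact ⟨n + 2, by omega, le_rfl, hu⟩
        · exact ⟨i, h1, by omega, rfl⟩
    rw [h1]
    exact (ih (by omega)).insert ⟨z (n + 1), ⟨n + 1, by omega, le_rfl, rfl⟩, hz (n + 1) (by omega)⟩

theorem model (G : SimpleGraph V) (X Y : Set V) (v : V) (hv : v ∈ X) (hYX : Y ⊆ X)
    (hYv : ∀ u ∈ Y, v ≠ u ∧ ¬ G.Adj v u) (l : ℕ) (z : ℕ → V) (hl : 3 ≤ l)
    (hzY : ∀ i < l, z i ∈ Y) (hinj : ∀ i < l, ∀ j < l, z i = z j → i = j)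
    (hz : ∀ i, i + 1 < l → G.Adj (z i) (z (i + 1))) (hz0 : G.Adj (z (l - 1)) (z 0)) :
    IMS K3P G X := by
  have hmid : Conn G (Seg z (l - 2)) := by
    have h1 := seg_conn G z l hz (l - 3) (by omega)
    have h2 : l - 3 + 1 = l - 2 := by omega
    rw [h2] at h1
    exact h1
  have d01 : Disjoint ({z 0} : Set V) (Seg z (l - 2)) := by
    rw [Set.disjoint_singleton_left]
    rintro ⟨i, h1, h2, h3⟩
    have := hinj 0 (by omega) i (by omega) h3
    omega
  have d02 : Disjoint ({z 0} : Set V) {z (l - 1)} := by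
    rw [Set.disjoint_singleton]
    intro h3
    have := hinj 0 (by omega) (l - 1) (by omega) h3
    omega
  have d12 : Disjoint (Seg z (l - 2)) ({z (l - 1)} : Set V) := by
    rw [Set.disjoint_singleton_right]
    rintro ⟨i, h1, h2, h3⟩
    have := hinj (l - 1) (by omega) i (by omega) h3
    omega
  have d03 : Disjoint ({z 0} : Set V) {v} := by
    rw [Set.disjoint_singleton]
    exact fun h => (hYv _ (hzY 0 (by omega))).1 h.symm
  have d13 : Disjoint (Seg z (l - 2)) ({v} : Set V) := by
    rw [Set.disjoint_singleton_right]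
    rintro ⟨i, h1, h2, h3⟩
    exact (hYv _ (hzY i (by omega))).1 h3
  have d23 : Disjoint ({z (l - 1)} : Set V) {v} := by
    rw [Set.disjoint_singleton]
    exact fun h => (hYv _ (hzY (l - 1) (by omega))).1 h.symm
  have t01 : Tch G ({z 0} : Set V) (Seg z (l - 2)) :=
    ⟨z 0, rfl, z 1, ⟨1, le_rfl, by omega, rfl⟩, hz 0 (by omega)⟩
  have t02 : Tch G ({z 0} : Set V) {z (l - 1)} := ⟨z 0, rfl, z (l - 1), rfl, hz0.symm⟩
  have t12 : Tch G (Seg z (l - 2)) ({z (l - 1)} : Set V) := by
    refine ⟨z (l - 2), ⟨l - 2, by omega, le_rfl, rfl⟩, z (l - 1), rfl, ?_⟩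
    have h1 := hz (l - 2) (by omega)
    have h2 : l - 2 + 1 = l - 1 := by omega
    rw [h2] at h1
    exact h1
  have nt : ∀ S : Set V, S ⊆ Y → ¬ Tch G S {v} := by
    rintro S hS ⟨a, ha, b, hb, hab⟩
    have hb' : b = v := hb
    subst hb'
    exact (hYv a (hS ha)).2 hab.symm
  have s0 : ({z 0} : Set V) ⊆ Y := Set.singleton_subset_iff.mpr (hzY 0 (by omega))
  have s1 : Seg z (l - 2) ⊆ Y := by
    rintro u ⟨i, h1, h2, rfl⟩
    exact hzY i (by omega)
  have s2 : ({z (l - 1)} : Set V) ⊆ Y := Set.singleton_subset_iff.mpr (hzY (l - 1) (by omega))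
  have n03 := nt _ s0
  have n13 := nt _ s1
  have n23 := nt _ s2
  refine ⟨![{z 0}, Seg z (l - 2), {z (l - 1)}, {v}], ?_, ?_, ?_, ?_⟩
  · intro w
    fin_cases w
    · exact s0.trans hYX
    · exact s1.trans hYX
    · exact s2.trans hYX
    · exact Set.singleton_subset_iff.mpr hv
  · intro w
    fin_cases w
    · exact Conn.singleton G _
    · exact hmid
    · exact Conn.singleton G _
    · exact Conn.singleton G _
  · intro w w' hne
    fin_cases w <;> fin_cases w'
    · exact absurd rfl hne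
    · exact d01
    · exact d02
    · exact d03
    · exact d01.symm
    · exact absurd rfl hne
    · exact d12
    · exact d13
    · exact d02.symm
    · exact d12.symm
    · exact absurd rfl hne
    · exact d23
    · exact d03.symm
    · exact d13.symm
    · exact d23.symm
    · exact absurd rfl hne
  · intro w w' hne
    fin_cases w <;> fin_cases w'
    · exact absurd rfl hne
    · exact iff_of_true ⟨hne, by decide, by decide⟩ t01
    · exact iff_of_true ⟨hne, by decide, by decide⟩ t02
    · exact iff_of_false (fun h => absurd h.2.2 (by decide)) n03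
    · exact iff_of_true ⟨hne, by decide, by decide⟩ t01.symm
    · exact absurd rfl hne
    · exact iff_of_true ⟨hne, by decide, by decide⟩ t12
    · exact iff_of_false (fun h => absurd h.2.2 (by decide)) n13
    · exact iff_of_true ⟨hne, by decide, by decide⟩ t02.symm
    · exact iff_of_true ⟨hne, by decide, by decide⟩ t12.symm
    · exact absurd rfl hne
    · exact iff_of_false (fun h => absurd h.2.2 (by decide)) n23
    · exact iff_of_false (fun h => absurd h.2.1 (by decide)) (fun h => n03 h.symm)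
    · exact iff_of_false (fun h => absurd h.2.1 (by decide)) (fun h => n13 h.symm)
    · exact iff_of_false (fun h => absurd h.2.1 (by decide)) (fun h => n23 h.symm)
    · exact absurd rfl hne

end rK2Aux

theorem rK2 : S_K1 → S_K2 := by
  intro h1 V _ G X hX v hv Y hY hYne
  by_contra hcon
  push Not at hcon
  have h2 : ∀ y ∈ Y, 2 ≤ {w | w ∈ Y ∧ G.Adj y w}.ncard := by
    intro y hy
    have h3 := hcon y hy
    have h4 : {w | w ∈ Y ∧ w ≠ y ∧ ¬ Gᶜ.Adj y w} ⊆ {w | w ∈ Y ∧ G.Adj y w} := by
      rintro w ⟨hw1, hw2, hw3⟩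
      refine ⟨hw1, ?_⟩
      by_contra h5
      exact hw3 ((SimpleGraph.compl_adj G y w).mpr ⟨hw2.symm, h5⟩)
    have h5 := Set.ncard_le_ncard h4 (Set.toFinite _)
    omega
  obtain ⟨l, z, hl, hzY, hinj, hz, hz0⟩ := h1 V G Y hYne h2
  refine hX (rK2Aux.model G X Y v hv (fun u hu => (hY hu).1) ?_ l z hl hzY hinj hz hz0)
  intro u hu
  exact (SimpleGraph.compl_adj G v u).mp (hY hu).2

end Pool.Agent.MPd439b2
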