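import Pool.Agent.Lib.MP_d439b2_co.R.Spec2

set_option autoImplicit false

namespace Pool.Agent.MPd439b2

namespace rK3Aux

theorem closed_reach {W : Type} (G : SimpleGraph W) (S : Set W) (h : ∀ w ∈ S, ∀ w', G.Adj w w' → w' ∈ S) :
    ∀ u v, G.Reachable u v → u ∈ S → v ∈ S := by
  rintro u v ⟨p⟩
  induction p with
  | nil => exact id
  | cons hadj p ih => exact fun hu => ih (h _ hu _ hadj)

theorem level {W ι : Type} (H : SimpleGraph W) (f : W → ι × Fin 3 × ℕ) (hf : Function.Injective f)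
    (hadj : ∀ u v, Hᶜ.Adj u v → (nets ι).Adj (f u) (f v)) (u v : W) (hr : Hᶜ.Reachable u v)
    (h1 : (f u).1 = (f v).1) (h2 : (f u).2.1 = (f v).2.1) (h3 : (f v).2.2 = (f u).2.2 + 1) : Hᶜ.Adj u v := by
  by_contra hcon
  have hcl : ∀ w ∈ {w | (f w).1 = (f v).1 ∧ (f w).2.1 = (f v).2.1 ∧ (f u).2.2 + 1 ≤ (f w).2.2}, ∀ w', Hᶜ.Adj w w' →
      w' ∈ {w | (f w).1 = (f v).1 ∧ (f w).2.1 = (f v).2.1 ∧ (f u).2.2 + 1 ≤ (f w).2.2} := by
    rintro w ⟨a1, a2, a3⟩ w' hw
    obtain ⟨b1, b2, b3⟩ := hadj w w' hw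
    rcases b3 with ⟨c1, c2⟩ | ⟨c1, c2⟩
    · refine ⟨b2.symm.trans a1, c1.symm.trans a2, ?_⟩
      by_contra hlt
      have e1 : (f w).2.2 = (f u).2.2 + 1 := by omega
      have e2 : (f w').2.2 = (f u).2.2 := by omega
      have e3 : w = v := hf (Prod.ext a1 (Prod.ext a2 (by rw [e1, h3])))
      have e4 : w' = u := hf (Prod.ext (b2.symm.trans (a1.trans h1.symm))
        (Prod.ext (c1.symm.trans (a2.trans h2.symm)) e2))
      rw [e3, e4] at hw
      exact hcon hw.symm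
    · omega
  have h4 := closed_reach Hᶜ _ hcl v u hr.symm ⟨rfl, rfl, h3.ge⟩
  have h5 := h4.2.2
  omega

end rK3Aux

open rK3Aux in
theorem rK3 : S_K3 := by
  rintro W _ H ⟨ι, f, hf, hadj, htri⟩
  obtain ⟨N, ⟨e⟩⟩ := Finite.exists_equiv_fin (Hᶜ.ConnectedComponent)
  obtain ⟨c, hc⟩ : ∃ c : W → ℕ, ∀ w, c w = (e (Hᶜ.connectedComponentMk w)).val := ⟨_, fun _ => rfl⟩
  have hcr : ∀ u v, c u = c v ↔ Hᶜ.Reachable u v := by
    intro u v
    rw [hc, hc, ← Fin.ext_iff, e.injective.eq_iff, SimpleGraph.ConnectedComponent.eq]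
  have hfst : ∀ u v, Hᶜ.Reachable u v → (f u).1 = (f v).1 := by
    intro u v h
    have := closed_reach Hᶜ {w | (f w).1 = (f u).1} (fun w hw w' hww => (hadj w w' hww).2.1.symm.trans hw) u v h rfl
    exact Eq.symm this
  obtain ⟨g, hg⟩ : ∃ g : W → ℕ × Fin 3 × ℕ, ∀ w, g w = (c w, (f w).2.1, (f w).2.2) := ⟨_, fun _ => rfl⟩
  have hginj : ∀ u v, g u = g v → u = v := by
    intro u v h
    rw [hg, hg, Prod.mk.injEq, Prod.mk.injEq] at h
    exact hf (Prod.ext (hfst u v ((hcr u v).1 h.1)) (Prod.ext h.2.1 h.2.2))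
  have hclaim : ∀ u v, Hᶜ.Adj u v ↔ (nets ℕ).Adj (g u) (g v) := by
    intro u v
    constructor
    · intro h
      refine ⟨fun h1 => h.ne (hginj u v h1), ?_, ?_⟩
      · rw [hg, hg]
        exact (hcr u v).2 h.reachable
      · rw [hg, hg]
        exact (hadj u v h).2.2
    · rintro ⟨h1, h2, h3⟩
      rw [hg, hg] at h2 h3
      have h4 := (hcr u v).1 h2
      rcases h3 with ⟨h5, h6⟩ | ⟨h5, h6⟩
      · rcases h6 with h6 | h6
        · exact (level H f hf hadj v u h4.symm (hfst v u h4.symm) h5.symm h6).symm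
        · exact level H f hf hadj u v h4 (hfst u v h4) h5 h6
      · exact htri u v (fun h => h1 (by rw [h])) (hfst u v h4) h5 h6
  obtain ⟨r, hr⟩ := (Set.finite_range c).bddAbove
  obtain ⟨k, hk⟩ := (Set.finite_range fun w => (f w).2.2).bddAbove
  have hr' : ∀ w, (g w).1 < r + 1 := by
    intro w
    have := hr (Set.mem_range_self w)
    rw [hg]
    exact Nat.lt_succ_of_le this
  have hk' : ∀ w, (g w).2.2 ≤ k := by
    intro w
    have := hk (Set.mem_range_self w)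
    rw [hg]
    exact this
  refine ⟨r + 1, k, fun V G hN => ?_⟩
  obtain ⟨F, -, hF⟩ := hN
  have hne : ∀ w w', w ≠ w' → F (g w) ≠ F (g w') := by
    intro w w' h h1
    exact h (hginj w w' ((hF (g w) (g w') (hr' w) (hk' w) (hr' w') (hk' w')).1 h1))
  refine ⟨fun w => {F (g w)}, fun w => Set.subset_univ _, fun w => Conn.singleton G _, fun w w' h => ?_,
    fun w w' h => ?_⟩
  · rw [Set.disjoint_singleton]
    exact hne w w' h
  · have h1 := (hF (g w) (g w') (hr' w) (hk' w) (hr' w') (hk' w')).2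
    rw [← hclaim w w', SimpleGraph.compl_adj, SimpleGraph.compl_adj] at h1
    have h2 := hne w w' h
    have h3 : Tch G {F (g w)} {F (g w')} ↔ G.Adj (F (g w)) (F (g w')) := by
      constructor
      · rintro ⟨a, ha, b, hb, hab⟩
        rw [Set.mem_singleton_iff] at ha hb
        rw [← ha, ← hb]
        exact hab
      · intro hab
        exact ⟨_, rfl, _, rfl, hab⟩
    rw [h3]
    tauto

end Pool.Agent.MPd439b2
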