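import Pool.Agent.Lib.MP_d439b2_co.R.Spec2

/-!
# MP_d439b2_co, R/K4 (helper40): connected sets with a model of `K_8` and without `K_4` + pendant vertex
-/

set_option autoImplicit false

namespace Pool.Agent.MPd439b2

namespace rK4Aux

variable {V : Type} {G : SimpleGraph V}

theorem mk {X P0 P1 P2 P3 P4 : Set V} (s0 : P0 ⊆ X) (s1 : P1 ⊆ X) (s2 : P2 ⊆ X) (s3 : P3 ⊆ X)
    (s4 : P4 ⊆ X) (c0 : Conn G P0) (c1 : Conn G P1) (c2 : Conn G P2) (c3 : Conn G P3)
    (c4 : Conn G P4) (d01 : Disjoint P0 P1) (d02 : Disjoint P0 P2) (d03 : Disjoint P0 P3)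
    (d04 : Disjoint P0 P4) (d12 : Disjoint P1 P2) (d13 : Disjoint P1 P3) (d14 : Disjoint P1 P4)
    (d23 : Disjoint P2 P3) (d24 : Disjoint P2 P4) (d34 : Disjoint P3 P4)
    (t01 : Tch G P0 P1) (t02 : Tch G P0 P2) (t03 : Tch G P0 P3) (t04 : Tch G P0 P4)
    (t12 : Tch G P1 P2) (t13 : Tch G P1 P3) (t23 : Tch G P2 P3)
    (n14 : ¬ Tch G P1 P4) (n24 : ¬ Tch G P2 P4) (n34 : ¬ Tch G P3 P4) : IMS K4P G X := by
  refine ⟨![P0, P1, P2, P3, P4], ?_, ?_, ?_, ?_⟩
  · intro w; fin_cases w <;> simpa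
  · intro w; fin_cases w <;> simpa
  · intro w w' hw
    fin_cases w <;> fin_cases w' <;> first
      | exact absurd rfl hw
      | assumption
      | (apply Disjoint.symm; assumption)
  · intro w w' hw
    have m14 : ¬ Tch G P4 P1 := fun h => n14 h.symm
    have m24 : ¬ Tch G P4 P2 := fun h => n24 h.symm
    have m34 : ¬ Tch G P4 P3 := fun h => n34 h.symm
    fin_cases w <;> fin_cases w' <;> first
      | exact absurd rfl hw
      | (refine iff_of_true ⟨by decide, by decide⟩ ?_; assumption)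
      | (refine iff_of_true ⟨by decide, by decide⟩ ?_; apply Tch.symm; assumption)
      | (refine iff_of_false (fun h => absurd h.2 (by decide)) ?_; assumption)

open Classical in
/-- (1) -/
theorem few {X : Set V} {B : ℕ → Set V} (hK : ¬ IMS K4P G X) {I : Finset ℕ} (hM : Mdl G I B)
    (hX : ∀ i ∈ I, B i ⊆ X) {D : Set V} (hD : Conn G D) (hDX : D ⊆ X)
    (hd : ∀ i ∈ I, Disjoint D (B i)) {a : ℕ} (ha : a ∈ I) (hta : Tch G D (B a)) :
    (I.filter fun j => ¬ Tch G D (B j)).card ≤ 2 := by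
  by_contra hcon
  push Not at hcon
  rw [Finset.two_lt_card] at hcon
  obtain ⟨b, hb, c, hc, d, hd', hbc, hbd, hcd⟩ := hcon
  rw [Finset.mem_filter] at hb hc hd'
  have hab : a ≠ b := by rintro rfl; exact hb.2 hta
  have hac : a ≠ c := by rintro rfl; exact hc.2 hta
  have had : a ≠ d := by rintro rfl; exact hd'.2 hta
  exact hK (mk (hX a ha) (hX b hb.1) (hX c hc.1) (hX d hd'.1) hDX (hM.1 a ha) (hM.1 b hb.1)
    (hM.1 c hc.1) (hM.1 d hd'.1) hD (hM.2 a ha b hb.1 hab).1 (hM.2 a ha c hc.1 hac).1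
    (hM.2 a ha d hd'.1 had).1 (hd a ha).symm (hM.2 b hb.1 c hc.1 hbc).1
    (hM.2 b hb.1 d hd'.1 hbd).1 (hd b hb.1).symm (hM.2 c hc.1 d hd'.1 hcd).1
    (hd c hc.1).symm (hd d hd'.1).symm (hM.2 a ha b hb.1 hab).2 (hM.2 a ha c hc.1 hac).2
    (hM.2 a ha d hd'.1 had).2 hta.symm (hM.2 b hb.1 c hc.1 hbc).2 (hM.2 b hb.1 d hd'.1 hbd).2
    (hM.2 c hc.1 d hd'.1 hcd).2 (fun h => hb.2 h.symm) (fun h => hc.2 h.symm)
    (fun h => hd'.2 h.symm))

/-- (2) -/
theorem touch {X : Set V} {B : ℕ → Set V} (hK : ¬ IMS K4P G X) (hXc : Conn G X) {I : Finset ℕ}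
    (hI : 5 ≤ I.card) (hM : Mdl G I B) (hX : ∀ i ∈ I, B i ⊆ X) {x : V} (hx : x ∈ X)
    (hxB : ∀ i ∈ I, x ∉ B i) : ∃ i ∈ I, Tch G {x} (B i) := by
  classical
  by_contra hcon
  push Not at hcon
  obtain ⟨i₀, hi₀⟩ : I.Nonempty := Finset.card_pos.1 (by omega)
  obtain ⟨p, hp⟩ := (hM.1 i₀ hi₀).1
  obtain ⟨w, hw, u, hu, hwu⟩ := hXc.2 {x | x ∈ X ∧ ∀ i ∈ I, x ∉ B i ∧ ¬ Tch G {x} (B i)}
    (fun x hx => hx.1) ⟨x, hx, fun i hi => ⟨hxB i hi, hcon i hi⟩⟩ (by
      intro h
      have h1 : p ∈ {x | x ∈ X ∧ ∀ i ∈ I, x ∉ B i ∧ ¬ Tch G {x} (B i)} := by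
        rw [h]
        exact hX i₀ hi₀ hp
      exact (h1.2 i₀ hi₀).1 hp)
  obtain ⟨huX, huF⟩ := hu
  have huB : ∀ i ∈ I, u ∉ B i := fun i hi h => (hw.2 i hi).2 ⟨w, rfl, u, h, hwu⟩
  have h1 : ∃ a ∈ I, Tch G {u} (B a) := by
    by_contra h
    push Not at h
    exact huF ⟨huX, fun i hi => ⟨huB i hi, h i hi⟩⟩
  obtain ⟨a, ha, hta⟩ := h1
  have h2 := few hK hM hX (Conn.singleton G u) (Set.singleton_subset_iff.2 huX)
    (fun i hi => Set.disjoint_singleton_left.2 (huB i hi)) ha hta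
  have h3 : 2 < (I.filter fun j => Tch G {u} (B j)).card := by
    have h4 := Finset.card_filter_add_card_filter_not (s := I) (fun j => Tch G {u} (B j))
    have h5 : (I.filter fun j => ¬ Tch G {u} (B j)).card ≤ 2 := by
      refine le_trans (le_of_eq ?_) h2
      apply congrArg Finset.card
      apply Finset.filter_congr
      intro _ _
      rfl
    omega
  rw [Finset.two_lt_card] at h3
  obtain ⟨b, hb, c, hc, d, hd', hbc, hbd, hcd⟩ := h3
  rw [Finset.mem_filter] at hb hc hd'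
  have nt : ∀ i ∈ I, ¬ Tch G (B i) {w} := fun i hi h => (hw.2 i hi).2 h.symm
  have dw : ∀ i ∈ I, Disjoint (B i) {w} := fun i hi =>
    Set.disjoint_singleton_right.2 (hw.2 i hi).1
  have du : ∀ i ∈ I, Disjoint {u} (B i) := fun i hi =>
    Set.disjoint_singleton_left.2 (huB i hi)
  exact hK (mk (Set.singleton_subset_iff.2 huX) (hX b hb.1) (hX c hc.1) (hX d hd'.1)
    (Set.singleton_subset_iff.2 hw.1) (Conn.singleton G u) (hM.1 b hb.1)
    (hM.1 c hc.1) (hM.1 d hd'.1) (Conn.singleton G w) (du b hb.1) (du c hc.1) (du d hd'.1)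
    (Set.disjoint_singleton.2 hwu.ne') (hM.2 b hb.1 c hc.1 hbc).1
    (hM.2 b hb.1 d hd'.1 hbd).1 (dw b hb.1) (hM.2 c hc.1 d hd'.1 hcd).1
    (dw c hc.1) (dw d hd'.1) hb.2 hc.2 hd'.2 ⟨u, rfl, w, rfl, hwu.symm⟩
    (hM.2 b hb.1 c hc.1 hbc).2 (hM.2 b hb.1 d hd'.1 hbd).2
    (hM.2 c hc.1 d hd'.1 hcd).2 (nt b hb.1) (nt c hc.1) (nt d hd'.1))

open Classical in
/-- (3) -/
theorem miss {X : Set V} {B : ℕ → Set V} (hK : ¬ IMS K4P G X) (hXc : Conn G X)
    (hM : Mdl G (Finset.range 8) B) (hX : ∀ i < 8, B i ⊆ X) {x : V} (hx : x ∈ X) :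
    ((Finset.range 8).filter fun j => x ∉ B j ∧ ¬ Tch G {x} (B j)).card ≤ 2 := by
  have key : ∀ I : Finset ℕ, I ⊆ Finset.range 8 → 5 ≤ I.card → (∀ i ∈ I, x ∉ B i) →
      (∀ i ∈ Finset.range 8, i ∉ I → x ∈ B i) →
      ((Finset.range 8).filter fun j => x ∉ B j ∧ ¬ Tch G {x} (B j)).card ≤ 2 := by
    intro I hI h5 hxI hxo
    have hMI : Mdl G I B := ⟨fun i hi => hM.1 i (hI hi), fun i hi j hj h => hM.2 i (hI hi) j (hI hj) h⟩
    have hXI : ∀ i ∈ I, B i ⊆ X := fun i hi => hX i (Finset.mem_range.1 (hI hi))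
    obtain ⟨a, ha, hta⟩ := touch hK hXc h5 hMI hXI hx hxI
    have h2 := few hK hMI hXI (Conn.singleton G x) (Set.singleton_subset_iff.2 hx)
      (fun i hi => Set.disjoint_singleton_left.2 (hxI i hi)) ha hta
    refine le_trans (Finset.card_le_card ?_) h2
    intro j hj
    rw [Finset.mem_filter] at hj ⊢
    refine ⟨?_, hj.2.2⟩
    by_contra h
    exact hj.2.1 (hxo j hj.1 h)
  by_cases h : ∃ i ∈ Finset.range 8, x ∈ B i
  · obtain ⟨i, hi, hxi⟩ := h
    apply key ((Finset.range 8).erase i) (Finset.erase_subset _ _)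
    · rw [Finset.card_erase_of_mem hi, Finset.card_range]
      norm_num
    · intro j hj hxj
      have hj' := Finset.mem_erase.1 hj
      exact Set.disjoint_left.1 (hM.2 i hi j hj'.2 hj'.1.symm).1 hxi hxj
    · intro j hj hj'
      have : j = i := by
        by_contra h
        exact hj' (Finset.mem_erase.2 ⟨h, hj⟩)
      rw [this]
      exact hxi
  · push Not at h
    apply key (Finset.range 8) (Finset.Subset.refl _) (by rw [Finset.card_range]; norm_num) h
    intro i hi hi'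
    exact absurd hi hi'

/-- the vertices `z a, ..., z b` -/
def Arc (z : ℕ → V) (a b : ℕ) : Set V := {u | ∃ i, a ≤ i ∧ i ≤ b ∧ u = z i}

theorem arc_conn {z : ℕ → V} {l : ℕ} (hz : ∀ i, i + 1 < l → G.Adj (z i) (z (i + 1))) (a : ℕ) :
    ∀ n : ℕ, a + n < l → Conn G (Arc z a (a + n)) := by
  intro n
  induction n with
  | zero =>
    intro _
    have h1 : Arc z a (a + 0) = {z a} := by
      ext u
      constructor
      · rintro ⟨i, h1, h2, rfl⟩
        have h3 : i = a := by omega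
        rw [h3]
        rfl
      · intro hu
        exact ⟨a, le_rfl, le_rfl, hu⟩
    rw [h1]
    exact Conn.singleton G _
  | succ n ih =>
    intro hn
    have h1 : Arc z a (a + (n + 1)) = insert (z (a + (n + 1))) (Arc z a (a + n)) := by
      ext u
      constructor
      · rintro ⟨i, h1, h2, rfl⟩
        by_cases h3 : i = a + (n + 1)
        · left
          rw [h3]
        · right
          exact ⟨i, h1, by omega, rfl⟩
      · rintro (hu | ⟨i, h1, h2, rfl⟩)
        · exact ⟨a + (n + 1), by omega, le_rfl, hu⟩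
        · exact ⟨i, h1, by omega, rfl⟩
    rw [h1]
    exact (ih (by omega)).insert ⟨z (a + n), ⟨a + n, by omega, le_rfl, rfl⟩,
      hz (a + n) (by omega)⟩

theorem arc_conn' {z : ℕ → V} {l : ℕ} (hz : ∀ i, i + 1 < l → G.Adj (z i) (z (i + 1))) {a b : ℕ}
    (hab : a ≤ b) (hb : b < l) : Conn G (Arc z a b) := by
  obtain ⟨n, rfl⟩ := Nat.exists_eq_add_of_le hab
  exact arc_conn hz a n hb

/-- (5) -/
theorem five {X : Set V} (hK : ¬ IMS K4P G X) {v : V} (hv : v ∈ X) {l : ℕ} {z : ℕ → V}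
    (hl : 3 ≤ l) (hzX : ∀ i < l, z i ∈ X) (hzv : ∀ i < l, z i ≠ v ∧ ¬ G.Adj (z i) v)
    (hinj : ∀ i < l, ∀ j < l, z i = z j → i = j)
    (hz : ∀ i, i + 1 < l → G.Adj (z i) (z (i + 1))) (hz0 : G.Adj (z (l - 1)) (z 0))
    {E : Set V} (hE : Conn G E) (hEX : E ⊆ X) (hEz : ∀ i < l, z i ∉ E) (hEv : v ∉ E)
    (ht : Tch G E {v}) {i j k : ℕ} (hij : i < j) (hjk : j < k) (hk : k < l)
    (h1 : Tch G E {z i}) (h2 : Tch G E {z j}) (h3 : Tch G E {z k}) : False := by
  have sub : ∀ a b, b < l → Arc z a b ⊆ X := by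
    rintro a b hb u ⟨i, _, h2, rfl⟩
    exact hzX i (by omega)
  have dE : ∀ a b, b < l → Disjoint E (Arc z a b) := by
    intro a b hb
    rw [Set.disjoint_left]
    rintro u hu ⟨i, _, h2, rfl⟩
    exact hEz i (by omega) hu
  have dA : ∀ a b c d, b < c → d < l → Disjoint (Arc z a b) (Arc z c d) := by
    intro a b c d hbc hd
    rw [Set.disjoint_left]
    rintro u ⟨i, h1, h2, rfl⟩ ⟨j, h3, h4, h5⟩
    have := hinj i (by omega) j (by omega) h5
    omega
  have dv : ∀ a b, b < l → Disjoint (Arc z a b) {v} := by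
    intro a b hb
    rw [Set.disjoint_singleton_right]
    rintro ⟨i, _, h2, h3⟩
    exact (hzv i (by omega)).1 h3.symm
  have nv : ∀ a b, b < l → ¬ Tch G (Arc z a b) {v} := by
    rintro a b hb ⟨u, ⟨i, _, h2, rfl⟩, w, hw, h⟩
    have hw' : w = v := hw
    rw [hw'] at h
    exact (hzv i (by omega)).2 h
  have tE : ∀ a b i, a ≤ i → i ≤ b → Tch G E {z i} → Tch G E (Arc z a b) := by
    intro a b i ha hb h
    apply Tch.mono h (Set.Subset.refl _)
    rw [Set.singleton_subset_iff]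
    exact ⟨i, ha, hb, rfl⟩
  exact hK (mk hEX (sub 0 i (by omega)) (sub (i + 1) j (by omega)) (sub (j + 1) (l - 1) (by omega))
    (Set.singleton_subset_iff.2 hv) hE (arc_conn' hz (Nat.zero_le _) (by omega))
    (arc_conn' hz (by omega) (by omega)) (arc_conn' hz (by omega) (by omega))
    (Conn.singleton G v) (dE _ _ (by omega)) (dE _ _ (by omega)) (dE _ _ (by omega))
    (Set.disjoint_singleton_right.2 hEv) (dA _ _ _ _ (by omega) (by omega))
    (dA _ _ _ _ (by omega) (by omega)) (dv _ _ (by omega)) (dA _ _ _ _ (by omega) (by omega))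
    (dv _ _ (by omega)) (dv _ _ (by omega)) (tE 0 i i (Nat.zero_le _) le_rfl h1)
    (tE (i + 1) j j (by omega) le_rfl h2) (tE (j + 1) (l - 1) k (by omega) (by omega) h3) ht
    ⟨z i, ⟨i, Nat.zero_le _, le_rfl, rfl⟩, z (i + 1), ⟨i + 1, le_rfl, by omega, rfl⟩,
      hz i (by omega)⟩
    ⟨z 0, ⟨0, le_rfl, Nat.zero_le _, rfl⟩, z (l - 1), ⟨l - 1, by omega, le_rfl, rfl⟩, hz0.symm⟩
    ⟨z j, ⟨j, by omega, le_rfl, rfl⟩, z (j + 1), ⟨j + 1, le_rfl, by omega, rfl⟩, hz j (by omega)⟩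
    (nv _ _ (by omega)) (nv _ _ (by omega)) (nv _ _ (by omega)))

open Classical in
theorem one {B : ℕ → Set V} (hM : Mdl G (Finset.range 8) B) (x : V) :
    ((Finset.range 8).filter fun j => x ∈ B j).card ≤ 1 := by
  rw [Finset.card_le_one]
  intro a ha b hb
  rw [Finset.mem_filter] at ha hb
  by_contra h
  exact Set.disjoint_left.1 (hM.2 a ha.1 b hb.1 h).1 ha.2 hb.2

theorem main {X : Set V} {B : ℕ → Set V} (hXc : Conn G X) (hM : Mdl G (Finset.range 8) B)
    (hX : ∀ i < 8, B i ⊆ X) (hK : ¬ IMS K4P G X) {v : V} (hv : v ∈ X) {l : ℕ} {z : ℕ → V}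
    (hl : 3 ≤ l) (hzX : ∀ i < l, z i ∈ X) (hzv : ∀ i < l, z i ≠ v ∧ ¬ G.Adj (z i) v)
    (hinj : ∀ i < l, ∀ j < l, z i = z j → i = j)
    (hz : ∀ i, i + 1 < l → G.Adj (z i) (z (i + 1))) (hz0 : G.Adj (z (l - 1)) (z 0)) : False := by
  classical
  -- a neighbour of `v`
  have h1 := miss hK hXc hM hX hv
  have h2 := one hM v
  obtain ⟨y, hyX, hvy⟩ : ∃ y ∈ X, G.Adj v y := by
    have h3 : ∃ j ∈ Finset.range 8, v ∉ B j ∧ Tch G {v} (B j) := by
      by_contra hcon
      push Not at hcon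
      have h4 : Finset.range 8 ⊆ ((Finset.range 8).filter fun j => v ∉ B j ∧ ¬ Tch G {v} (B j)) ∪
          ((Finset.range 8).filter fun j => v ∈ B j) := by
        intro j hj
        rw [Finset.mem_union, Finset.mem_filter, Finset.mem_filter]
        by_cases h : v ∈ B j
        · exact Or.inr ⟨hj, h⟩
        · exact Or.inl ⟨hj, h, hcon j hj h⟩
      have h5 := Finset.card_le_card h4
      have h6 := Finset.card_union_le ((Finset.range 8).filter fun j => v ∉ B j ∧ ¬ Tch G {v} (B j))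
        ((Finset.range 8).filter fun j => v ∈ B j)
      rw [Finset.card_range] at h5
      omega
    obtain ⟨j, hj, _, a, ha, b, hb, hab⟩ := h3
    have ha' : a = v := ha
    rw [ha'] at hab
    exact ⟨b, hX j (Finset.mem_range.1 hj) hb, hab⟩
  have hyz : ∀ i < l, z i ≠ y := by
    intro i hi h
    exact (hzv i hi).2 (by rw [h]; exact hvy.symm)
  -- the component
  have hyA : y ∈ {u | u ∈ X ∧ u ≠ v ∧ ∀ i < l, z i ≠ u} := ⟨hyX, hvy.ne', hyz⟩
  obtain ⟨E, hEA, hyE, hE, hEn⟩ := exists_comp G hyA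
  have hEX : E ⊆ X := fun u hu => (hEA hu).1
  have hEz : ∀ i < l, z i ∉ E := fun i hi h => (hEA h).2.2 i hi rfl
  have hEv : v ∉ E := fun h => (hEA h).2.1 rfl
  have htv : Tch G E {v} := ⟨y, hyE, v, rfl, hvy.symm⟩
  have h5 : ∀ i j k, i < j → j < k → k < l → Tch G E {z i} → Tch G E {z j} → Tch G E {z k} →
      False := fun i j k hij hjk hk h1 h2 h3 =>
    five hK hv hl hzX hzv hinj hz hz0 hE hEX hEz hEv htv hij hjk hk h1 h2 h3
  -- the indices of the neighbours on the cycle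
  have hT : ((Finset.range l).filter fun i => Tch G E {z i}).card ≤ 2 := by
    by_contra hcon
    push Not at hcon
    rw [Finset.two_lt_card] at hcon
    obtain ⟨a, ha, b, hb, c, hc, hab, hac, hbc⟩ := hcon
    rw [Finset.mem_filter, Finset.mem_range] at ha hb hc
    rcases lt_or_gt_of_ne hab with h1 | h1 <;> rcases lt_or_gt_of_ne hac with h2 | h2 <;>
      rcases lt_or_gt_of_ne hbc with h3 | h3
    · exact h5 a b c h1 h3 hc.1 ha.2 hb.2 hc.2
    · exact h5 a c b h2 h3 hb.1 ha.2 hc.2 hb.2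
    · omega
    · exact h5 c a b h2 h1 hb.1 hc.2 ha.2 hb.2
    · exact h5 b a c h1 h2 hc.1 hb.2 ha.2 hc.2
    · omega
    · exact h5 b c a h3 h2 ha.1 hb.2 hc.2 ha.2
    · exact h5 c b a h3 h1 ha.1 hc.2 hb.2 ha.2
  -- the good indices
  have hbadz : (((Finset.range l).filter fun i => Tch G E {z i}).biUnion
      (fun i => (Finset.range 8).filter fun j => z i ∈ B j)).card ≤ 2 := by
    refine le_trans (Finset.card_biUnion_le) ?_
    refine le_trans (Finset.sum_le_sum (fun i _ => one hM (z i))) ?_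
    rw [Finset.sum_const, smul_eq_mul, mul_one]
    exact hT
  have hmy := miss hK hXc hM hX hyX
  have hgood : 2 < ((Finset.range 8).filter fun j => B j ⊆ E).card := by
    by_contra hcon
    push Not at hcon
    have h4 : Finset.range 8 ⊆ ((Finset.range 8).filter fun j => B j ⊆ E) ∪
        (((Finset.range 8).filter fun j => y ∉ B j ∧ ¬ Tch G {y} (B j)) ∪
        (((Finset.range 8).filter fun j => v ∈ B j) ∪
        (((Finset.range l).filter fun i => Tch G E {z i}).biUnion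
      (fun i => (Finset.range 8).filter fun j => z i ∈ B j)))) := by
      intro j hj
      rw [Finset.mem_union, Finset.mem_union, Finset.mem_union, Finset.mem_filter,
        Finset.mem_filter, Finset.mem_filter, Finset.mem_biUnion]
      by_cases c1 : y ∉ B j ∧ ¬ Tch G {y} (B j)
      · exact Or.inr (Or.inl ⟨hj, c1⟩)
      by_cases c2 : v ∈ B j
      · exact Or.inr (Or.inr (Or.inl ⟨hj, c2⟩))
      by_cases c3 : ∃ i < l, Tch G E {z i} ∧ z i ∈ B j
      · obtain ⟨i, hi, h1, h2⟩ := c3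
        exact Or.inr (Or.inr (Or.inr ⟨i, Finset.mem_filter.2 ⟨Finset.mem_range.2 hi, h1⟩,
          Finset.mem_filter.2 ⟨hj, h2⟩⟩))
      push Not at c3
      left
      refine ⟨hj, ?_⟩
      have hjX : B j ⊆ X := hX j (Finset.mem_range.1 hj)
      -- a neighbour in `B j` of an element of `E` is in `E`
      have key : ∀ e ∈ E, ∀ u ∈ B j, G.Adj e u → u ∈ E := by
        intro e he u hu heu
        by_contra huE
        apply hEn u
        · refine ⟨hjX hu, fun h => c2 (h ▸ hu), fun i hi h => ?_⟩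
          apply c3 i hi
          · exact ⟨e, he, z i, rfl, by rw [h]; exact heu⟩
          · rw [h]; exact hu
        · exact ⟨huE, e, he, heu⟩
      have hmeet : ∃ u ∈ B j, u ∈ E := by
        by_cases hy : y ∈ B j
        · exact ⟨y, hy, hyE⟩
        · have : Tch G {y} (B j) := by
            by_contra h
            exact c1 ⟨hy, h⟩
          obtain ⟨a, ha, b, hb, hab⟩ := this
          have ha' : a = y := ha
          rw [ha'] at hab
          exact ⟨b, hb, key y hyE b hb hab⟩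
      obtain ⟨u, huB, huE⟩ := hmeet
      have h6 := (hM.1 j hj).eq_of_nb (C := B j ∩ E) Set.inter_subset_left ⟨u, huB, huE⟩ (by
        rintro w hw ⟨hw1, a, ha, haw⟩
        exact hw1 ⟨hw, key a ha.2 w hw haw⟩)
      rw [← h6]
      exact Set.inter_subset_right
    have h7 := Finset.card_le_card h4
    rw [Finset.card_range] at h7
    have e1 := Finset.card_union_le ((Finset.range 8).filter fun j => B j ⊆ E)
        (((Finset.range 8).filter fun j => y ∉ B j ∧ ¬ Tch G {y} (B j)) ∪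
        (((Finset.range 8).filter fun j => v ∈ B j) ∪
        (((Finset.range l).filter fun i => Tch G E {z i}).biUnion
      (fun i => (Finset.range 8).filter fun j => z i ∈ B j))))
    have e2 := Finset.card_union_le ((Finset.range 8).filter fun j => y ∉ B j ∧ ¬ Tch G {y} (B j))
        (((Finset.range 8).filter fun j => v ∈ B j) ∪
        (((Finset.range l).filter fun i => Tch G E {z i}).biUnion
      (fun i => (Finset.range 8).filter fun j => z i ∈ B j)))
    have e3 := Finset.card_union_le ((Finset.range 8).filter fun j => v ∈ B j)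
        (((Finset.range l).filter fun i => Tch G E {z i}).biUnion
      (fun i => (Finset.range 8).filter fun j => z i ∈ B j))
    omega
  -- every vertex of the cycle touches `E`
  have hall : ∀ i < l, Tch G E {z i} := by
    intro i hi
    by_contra hcon
    have h6 := miss hK hXc hM hX (hzX i hi)
    have h7 : ((Finset.range 8).filter fun j => B j ⊆ E) ⊆
        ((Finset.range 8).filter fun j => z i ∉ B j ∧ ¬ Tch G {z i} (B j)) := by
      intro j hj
      rw [Finset.mem_filter] at hj ⊢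
      refine ⟨hj.1, fun h => hEz i hi (hj.2 h), fun h => hcon ?_⟩
      exact (h.mono (Set.Subset.refl _) hj.2).symm
    have h8 := Finset.card_le_card h7
    omega
  exact h5 0 1 2 (by norm_num) (by norm_num) (by omega) (hall 0 (by omega)) (hall 1 (by omega))
    (hall 2 (by omega))

end rK4Aux

theorem rK4 : S_K1 → S_K4 := by
  intro hK1 V _ G X B hXc hM hX hK v hv Y hY hYne
  by_contra hcon
  push Not at hcon
  have h2 : ∀ y ∈ Y, 2 ≤ {w | w ∈ Y ∧ G.Adj y w}.ncard := by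
    intro y hy
    have h3 := hcon y hy
    have h4 : {w | w ∈ Y ∧ w ≠ y ∧ ¬ Gᶜ.Adj y w} ⊆ {w | w ∈ Y ∧ G.Adj y w} := by
      rintro w ⟨hw1, hw2, hw3⟩
      refine ⟨hw1, ?_⟩
      by_contra h5
      exact hw3 ((SimpleGraph.compl_adj G y w).mpr ⟨hw2.symm, h5⟩)
    have h5 := Set.ncard_le_ncard h4 (Set.toFinite _)
    omega
  obtain ⟨l, z, hl, hzY, hinj, hz, hz0⟩ := hK1 V G Y hYne h2
  refine rK4Aux.main hXc hM hX hK hv hl (fun i hi => (hY (hzY i hi)).1) ?_ hinj hz hz0
  intro i hi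
  have h6 := (SimpleGraph.compl_adj G v (z i)).mp (hY (hzY i hi)).2
  exact ⟨h6.1.symm, fun h => h6.2 h.symm⟩

end Pool.Agent.MPd439b2
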