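import Pool.Agent.Lib.MP_d439b2_co.R.Spec2

/-!
# MP_d439b2_co, row `K_3 + P_1`, module K5: the sufficient condition
-/

set_option autoImplicit false

namespace Pool.Agent.MPd439b2

theorem rK5 : S_K2 → S_K3 → S_P10 → S_Y1 → S_LayCW → S_K5 := by
  intro h2 h3 h10 h1 hcw W _ H hH
  obtain ⟨r, k, h⟩ := h3 W H hH
  obtain ⟨K, hK⟩ := h10 r k
  refine ⟨3 * (K + 1 + 1), fun V _ _ G hG₁ hG₂ => ?_⟩
  have ha : LCF Gᶜ Set.univ := h2 V G Set.univ (fun hh => hG₁ (ims_univ_iff.mp hh))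
  have hb : ¬ HasN Gᶜ Set.univ r k := fun hh => hG₂ (ims_univ_iff.mp (h V G hh))
  have hc := hK V Gᶜ Set.univ ha hb
  have hd := h1 V Gᶜ K Set.univ hc
  have he : restr Gᶜᶜ Set.univ = G := by
    rw [compl_compl]
    ext u v
    constructor
    · intro huv
      exact huv.1
    · intro huv
      exact ⟨huv, Set.mem_univ u, Set.mem_univ v⟩
  rw [he] at hd
  exact hcw V G (K + 1) hd

end Pool.Agent.MPd439b2
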