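import Pool.Agent.Lib.MP_d439b2_co.R.Spec2
import Pool.Agent.Lib.MP_d439b2_co.ImsTrans

/-!
# MP_d439b2_co, row `K_4` + pendant vertex: sufficient condition
-/

set_option autoImplicit false

namespace Pool.Agent.MPd439b2

namespace rK6Aux

/-- the branch sets in the `4 × 4` grid -/
def bs : Fin 5 → Set (Fin 4 × Fin 4) :=
  ![{(0, 2), (0, 1)}, {(2, 2), (1, 2)}, insert (2, 1) (insert (2, 0) {(1, 0), (0, 0)}), {(1, 1)},
    {(0, 3)}]

theorem adj_h (i : Fin 4) (j j' : Fin 4) (h : j.val = j'.val + 1 ∨ j'.val = j.val + 1) :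
    (grid 4).Adj (i, j) (i, j') := Or.inl ⟨rfl, h⟩

theorem adj_v (i i' : Fin 4) (j : Fin 4) (h : i.val = i'.val + 1 ∨ i'.val = i.val + 1) :
    (grid 4).Adj (i, j) (i', j) := Or.inr ⟨rfl, h⟩

theorem conn_bs : ∀ w, Conn (grid 4) (bs w) := by
  have h2 : Conn (grid 4) (insert (2, 1) (insert (2, 0) {(1, 0), (0, 0)})) := by
    refine Conn.insert (Conn.insert (Conn.pair (adj_v 1 0 0 (by decide)))
      ⟨(1, 0), Or.inl rfl, adj_v 1 2 0 (by decide)⟩) ⟨(2, 0), Or.inl rfl, adj_h 2 0 1 (by decide)⟩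
  intro w
  fin_cases w
  · exact Conn.pair (adj_h 0 2 1 (by decide))
  · exact Conn.pair (adj_v 2 1 2 (by decide))
  · exact h2
  · exact Conn.singleton _ _
  · exact Conn.singleton _ _

theorem t01 : Tch (grid 4) (bs 0) (bs 1) :=
  ⟨(0, 2), Or.inl rfl, (1, 2), Or.inr rfl, adj_v 0 1 2 (by decide)⟩
theorem t02 : Tch (grid 4) (bs 0) (bs 2) :=
  ⟨(0, 1), Or.inr rfl, (0, 0), Or.inr (Or.inr (Or.inr rfl)), adj_h 0 1 0 (by decide)⟩
theorem t03 : Tch (grid 4) (bs 0) (bs 3) :=
  ⟨(0, 1), Or.inr rfl, (1, 1), rfl, adj_v 0 1 1 (by decide)⟩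
theorem t04 : Tch (grid 4) (bs 0) (bs 4) :=
  ⟨(0, 2), Or.inl rfl, (0, 3), rfl, adj_h 0 2 3 (by decide)⟩
theorem t12 : Tch (grid 4) (bs 1) (bs 2) :=
  ⟨(2, 2), Or.inl rfl, (2, 1), Or.inl rfl, adj_h 2 2 1 (by decide)⟩
theorem t13 : Tch (grid 4) (bs 1) (bs 3) :=
  ⟨(1, 2), Or.inr rfl, (1, 1), rfl, adj_h 1 2 1 (by decide)⟩
theorem t23 : Tch (grid 4) (bs 2) (bs 3) :=
  ⟨(2, 1), Or.inl rfl, (1, 1), rfl, adj_v 2 1 1 (by decide)⟩

theorem n4 (i j : Fin 4) (h : ¬ (i.val = 0 ∧ j.val = 2))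
    (h' : ¬ (i.val = 1 ∧ j.val = 3)) :
    ¬ (grid 4).Adj (i, j) (0, 3) := by
  rintro (⟨h1, h2⟩ | ⟨h1, h2⟩)
  · have h3 : i.val = 0 := by
      have := congrArg Fin.val h1
      simpa using this
    have h4 : j.val = 3 + 1 ∨ 3 = j.val + 1 := h2
    have := j.isLt
    omega
  · have h3 : j.val = 3 := by
      have := congrArg Fin.val h1
      simpa using this
    have h4 : i.val = 0 + 1 ∨ 0 = i.val + 1 := h2
    omega

theorem n14 : ¬ Tch (grid 4) (bs 1) (bs 4) := by
  rintro ⟨a, ha, b, hb, hab⟩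
  have hb' : b = (0, 3) := hb
  subst hb'
  rcases ha with ha | ha
  · subst ha; exact n4 2 2 (by decide) (by decide) hab
  · have ha' : a = (1, 2) := ha
    subst ha'; exact n4 1 2 (by decide) (by decide) hab

theorem n24 : ¬ Tch (grid 4) (bs 2) (bs 4) := by
  rintro ⟨a, ha, b, hb, hab⟩
  have hb' : b = (0, 3) := hb
  subst hb'
  rcases ha with ha | ha | ha | ha
  · subst ha; exact n4 2 1 (by decide) (by decide) hab
  · subst ha; exact n4 2 0 (by decide) (by decide) hab
  · subst ha; exact n4 1 0 (by decide) (by decide) hab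
  · have ha' : a = (0, 0) := ha
    subst ha'; exact n4 0 0 (by decide) (by decide) hab

theorem n34 : ¬ Tch (grid 4) (bs 3) (bs 4) := by
  rintro ⟨a, ha, b, hb, hab⟩
  have hb' : b = (0, 3) := hb
  subst hb'
  have ha' : a = (1, 1) := ha
  subst ha'; exact n4 1 1 (by decide) (by decide) hab

/-- the label of a vertex of the grid -/
def lb (v : Fin 4 × Fin 4) : ℕ :=
  if v = (0, 2) ∨ v = (0, 1) then 0 else if v = (2, 2) ∨ v = (1, 2) then 1
  else if v = (1, 1) then 3 else if v = (0, 3) then 4 else 2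

theorem lb_bs : ∀ w : Fin 5, ∀ v ∈ bs w, lb v = w.val := by
  intro w v hv
  fin_cases w
  · rcases hv with hv | hv
    · subst hv; decide
    · have hv' : v = (0, 1) := hv
      subst hv'; decide
  · rcases hv with hv | hv
    · subst hv; decide
    · have hv' : v = (1, 2) := hv
      subst hv'; decide
  · rcases hv with hv | hv | hv | hv
    · subst hv; decide
    · subst hv; decide
    · subst hv; decide
    · have hv' : v = (0, 0) := hv
      subst hv'; decide
  · have hv' : v = (1, 1) := hv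
    subst hv'; decide
  · have hv' : v = (0, 3) := hv
    subst hv'; decide

theorem inGrid : IMS K4P (grid 4) Set.univ := by
  refine ⟨bs, fun w => Set.subset_univ _, conn_bs, ?_, ?_⟩
  · intro w w' hw
    rw [Set.disjoint_left]
    intro v hv hv'
    exact hw (Fin.ext ((lb_bs w v hv).symm.trans (lb_bs w' v hv')))
  · intro w w' hw
    have s14 : ¬ Tch (grid 4) (bs 4) (bs 1) := fun h => n14 h.symm
    have s24 : ¬ Tch (grid 4) (bs 4) (bs 2) := fun h => n24 h.symm
    have s34 : ¬ Tch (grid 4) (bs 4) (bs 3) := fun h => n34 h.symm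
    have key : ∀ i j : Fin 5, K4P.Adj i j ↔ (i ≠ j ∧ ((i.val < 4 ∧ j.val < 4) ∨ i.val = 0 ∨ j.val = 0)) :=
      fun i j => Iff.rfl
    rw [key]
    fin_cases w <;> fin_cases w' <;> first
      | exact absurd rfl hw
      | exact iff_of_true (by decide) t01
      | exact iff_of_true (by decide) t02
      | exact iff_of_true (by decide) t03
      | exact iff_of_true (by decide) t04
      | exact iff_of_true (by decide) t12
      | exact iff_of_true (by decide) t13
      | exact iff_of_true (by decide) t23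
      | exact iff_of_true (by decide) t01.symm
      | exact iff_of_true (by decide) t02.symm
      | exact iff_of_true (by decide) t03.symm
      | exact iff_of_true (by decide) t04.symm
      | exact iff_of_true (by decide) t12.symm
      | exact iff_of_true (by decide) t13.symm
      | exact iff_of_true (by decide) t23.symm
      | exact iff_of_false (by decide) n14
      | exact iff_of_false (by decide) n24
      | exact iff_of_false (by decide) n34
      | exact iff_of_false (by decide) s14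
      | exact iff_of_false (by decide) s24
      | exact iff_of_false (by decide) s34

theorem hasN_mono {V : Type} {D : SimpleGraph V} {X Y : Set V} (h : X ⊆ Y) {r k : ℕ}
    (hN : HasN D X r k) : HasN D Y r k := by
  obtain ⟨f, h1, h2⟩ := hN
  exact ⟨f, fun u hu hk => h (h1 u hu hk), h2⟩

theorem restr_univ {V : Type} (G : SimpleGraph V) : restr G Set.univ = G := by
  ext u v
  exact ⟨fun h => h.1, fun h => ⟨h, Set.mem_univ _, Set.mem_univ _⟩⟩

theorem restr_restr {V : Type} (G : SimpleGraph V) (X : Set V) :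
    restr (restr G X) X = restr G X := by
  ext u v
  exact ⟨fun h => h.1, fun h => ⟨h, h.2.1, h.2.2⟩⟩

/-- eight connected, pairwise touching sets in `restr G X` are a model of `K_8` in `X` -/
theorem mdl_of {V : Type} {G : SimpleGraph V} {X : Set V} (b : Fin 8 → Set V)
    (h1 : ∀ i, Conn (restr G X) (b i)) (h2 : ∀ i j, i ≠ j → Disjoint (b i) (b j))
    (h3 : ∀ i j, i ≠ j → Tch (restr G X) (b i) (b j)) :
    ∃ B : ℕ → Set V, Mdl G (Finset.range 8) B ∧ ∀ i < 8, B i ⊆ X := by
  have hsub : ∀ i, b i ⊆ X := by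
    intro i
    obtain ⟨j, hj⟩ : ∃ j : Fin 8, i ≠ j := by
      by_cases hi : i = 0
      · exact ⟨1, by rw [hi]; decide⟩
      · exact ⟨0, hi⟩
    obtain ⟨a, ha, c, _, hac⟩ := h3 i j hj
    have h4 : b i ∩ X = b i := by
      refine (h1 i).eq_of_nb Set.inter_subset_left ⟨a, ha, hac.2.1⟩ ?_
      rintro v hv ⟨hv1, e, _, hev⟩
      exact hv1 ⟨hv, hev.2.2⟩
    exact Set.inter_eq_left.mp h4
  refine ⟨fun n => if h : n < 8 then b ⟨n, h⟩ else ∅, ⟨?_, ?_⟩, ?_⟩
  · intro i hi
    have hi' := Finset.mem_range.mp hi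
    beta_reduce
    rw [dif_pos hi']
    exact (h1 ⟨i, hi'⟩).mono_graph fun u _ v _ h => h.1
  · intro i hi j hj hij
    have hi' := Finset.mem_range.mp hi
    have hj' := Finset.mem_range.mp hj
    have hne : (⟨i, hi'⟩ : Fin 8) ≠ ⟨j, hj'⟩ := fun h => hij (congrArg Fin.val h)
    beta_reduce
    rw [dif_pos hi', dif_pos hj']
    refine ⟨h2 _ _ hne, ?_⟩
    obtain ⟨a, ha, c, hc, hac⟩ := h3 _ _ hne
    exact ⟨a, ha, c, hc, hac.1⟩
  · intro i hi
    beta_reduce
    rw [dif_pos hi]
    exact hsub _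

end rK6Aux

open rK6Aux in
theorem rK6 : S_K3 → S_K4 → S_P10 → S_Y1 → S_Y2 → S_Y5 → S_Restr → S_LayB → S_LayCW → S_K6 := by
  intro hK3 hK4 hP10 hY1 hY2 hY5 hRestr hLayB hLayCW W _ H hH
  obtain ⟨r, k, hrk⟩ := hK3 W H hH
  obtain ⟨K, hK⟩ := hP10 r k
  obtain ⟨K', hK'⟩ := hLayB 8 8 0 4 (by norm_num) (by norm_num) (by norm_num)
  refine ⟨3 * (max (K + 1) K' + 1 + 1), ?_⟩
  intro V _ _ G hG1 hG2
  have hG1' : ¬ IMS K4P G Set.univ := fun h => hG1 (ims_univ_iff.mp h)
  have hG2' : ¬ IMS H G Set.univ := fun h => hG2 (ims_univ_iff.mp h)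
  apply hLayCW
  have main : ∀ X, IsComp G Set.univ X → Lay (restr G X) (max (K + 1) K' + 1) X := by
    intro X hX
    by_cases hM : ∃ B : ℕ → Set V, Mdl G (Finset.range 8) B ∧ ∀ i < 8, B i ⊆ X
    · obtain ⟨B, hB, hBX⟩ := hM
      have h1 : LCF Gᶜ X := hK4 V G X B hX.2.1 hB hBX fun h => hG1' (h.mono (Set.subset_univ _))
      have h2 : ¬ HasN Gᶜ X r k := fun h => hG2' (hrk V G (hasN_mono (Set.subset_univ _) h))
      have h3 := hY1 V Gᶜ K X (hK V Gᶜ X h1 h2)
      rw [compl_compl] at h3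
      exact h3.mono ((le_max_left _ _).trans (Nat.le_succ _))
    · have hfree : Free 8 8 0 (restr G X) := by
        constructor
        · rintro ⟨b, _, b2, b3, b4⟩
          exact hM (mdl_of (fun i => b (Sum.inl i)) (fun i => b2 _)
            (fun i j hij => b3 _ _ fun h => hij (Sum.inl.inj h))
            (fun i j hij => (b4 _ _ fun h => hij (Sum.inl.inj h)).mp hij))
        · rintro ⟨b, _, b2, b3, b4⟩
          exact hM (mdl_of (fun i => b (Sum.inl i)) (fun i => b2 _)
            (fun i j hij => b3 _ _ fun h => hij (Sum.inl.inj h))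
            (fun i j hij => (b4 _ _ fun h => hij (Sum.inl.inj h)).mp hij))
      have hgrid : ¬ IMS (grid 4) (restr G X) Set.univ := by
        intro h
        refine hG1' (hRestr V (Fin 5) G K4P X ?_ (imsTrans _ _ _ _ _ _ _ inGrid h))
        intro w
        by_cases hw : w = 0
        · exact ⟨1, by rw [hw]; exact ⟨by decide, Or.inr (Or.inl rfl)⟩⟩
        · exact ⟨0, hw, Or.inr (Or.inr rfl)⟩
      have h1 := hK' V (restr G X) hfree hgrid
      rw [← restr_univ (restr G X)] at h1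
      have h2 := hY2 V (restr G X) K' Set.univ X (Set.subset_univ _) h1
      rw [restr_restr] at h2
      exact h2.mono ((le_max_right _ _).trans (Nat.le_succ _))
  have h5 := hY5 V G (max (K + 1) K' + 1) Set.univ (Nat.le_add_left 1 _) main
  rw [restr_univ] at h5
  exact h5

end Pool.Agent.MPd439b2
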