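import Pool.Agent.Lib.MP_d439b2_co.R.Spec2

/-!
# MP_d439b2_co, K7: `K_3 + P_1` and `K_4` with a pendant vertex are not in `InCoT`
-/

set_option autoImplicit false

namespace Pool.Agent.MPd439b2

namespace rK7Aux

theorem claw {W : Type} {H : SimpleGraph W} (h : InCoT H) {x a b c : W} (hab : a ≠ b)
    (hac : a ≠ c) (hbc : b ≠ c) (ha : Hᶜ.Adj x a) (hb : Hᶜ.Adj x b) (hc : Hᶜ.Adj x c) :
    Hᶜ.Adj a b ∨ Hᶜ.Adj a c ∨ Hᶜ.Adj b c := by
  obtain ⟨ι, f, hf, h1, h2⟩ := h
  have key : ∀ u v : W, u ≠ v → (f u).1 = (f v).1 → (f u).2.1 = (f v).2.1 →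
      (f u).2.2 = (f v).2.2 → False := by
    intro u v huv e1 e2 e3
    exact huv (hf (Prod.ext e1 (Prod.ext e2 e3)))
  obtain ⟨-, ea, pa⟩ := h1 _ _ ha
  obtain ⟨-, eb, pb⟩ := h1 _ _ hb
  obtain ⟨-, ec, pc⟩ := h1 _ _ hc
  have eab : (f a).1 = (f b).1 := ea.symm.trans eb
  have eac : (f a).1 = (f c).1 := ea.symm.trans ec
  have ebc : (f b).1 = (f c).1 := eb.symm.trans ec
  have kab := key a b hab eab
  have kac := key a c hac eac
  have kbc := key b c hbc ebc
  have tab := h2 a b hab eab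
  have tac := h2 a c hac eac
  have tbc := h2 b c hbc ebc
  by_contra hcon
  push Not at hcon
  obtain ⟨nab, nac, nbc⟩ := hcon
  have tab' : ¬ ((f a).2.2 = 0 ∧ (f b).2.2 = 0) := fun h => nab (tab h.1 h.2)
  have tac' : ¬ ((f a).2.2 = 0 ∧ (f c).2.2 = 0) := fun h => nac (tac h.1 h.2)
  have tbc' : ¬ ((f b).2.2 = 0 ∧ (f c).2.2 = 0) := fun h => nbc (tbc h.1 h.2)
  have kab' : ¬ ((f a).2.1 = (f b).2.1 ∧ (f a).2.2 = (f b).2.2) := fun h => kab h.1 h.2
  have kac' : ¬ ((f a).2.1 = (f c).2.1 ∧ (f a).2.2 = (f c).2.2) := fun h => kac h.1 h.2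
  have kbc' : ¬ ((f b).2.1 = (f c).2.1 ∧ (f b).2.2 = (f c).2.2) := fun h => kbc h.1 h.2
  clear kab kac kbc tab tac tbc nab nac nbc key
  generalize (f a).2.1 = la at *
  generalize (f b).2.1 = lb at *
  generalize (f c).2.1 = lc at *
  generalize (f x).2.1 = lx at *
  generalize (f a).2.2 = ja at *
  generalize (f b).2.2 = jb at *
  generalize (f c).2.2 = jc at *
  generalize (f x).2.2 = jx at *
  omega

end rK7Aux

open rK7Aux in
theorem rK7 : S_K7 := by
  constructor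
  · intro h
    have := claw h (x := 3) (a := 0) (b := 1) (c := 2) (by decide) (by decide) (by decide)
      (by simp [SimpleGraph.compl_adj, K3P]) (by simp [SimpleGraph.compl_adj, K3P])
      (by simp [SimpleGraph.compl_adj, K3P])
    simp [SimpleGraph.compl_adj, K3P] at this
  · intro h
    have := claw h (x := 4) (a := 1) (b := 2) (c := 3) (by decide) (by decide) (by decide)
      (by simp [SimpleGraph.compl_adj, K4P]) (by simp [SimpleGraph.compl_adj, K4P])
      (by simp [SimpleGraph.compl_adj, K4P])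
    simp [SimpleGraph.compl_adj, K4P] at this

end Pool.Agent.MPd439b2
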