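import Pool.Agent.Lib.MP_d439b2_co.R.Spec2

/-!
# P0: sub-paths and reversal
-/

set_option autoImplicit false

namespace Pool.Agent.MPd439b2

theorem rP0 : S_P0 := by
  intro V D X l p hp
  obtain ⟨h1, h2, h3⟩ := hp
  refine ⟨fun l' hl => ⟨fun i hi => h1 i (by omega), fun i hi j hj => h2 i (by omega) j (by omega),
      fun i hi j hj => h3 i (by omega) j (by omega)⟩,
    fun a l' hl => ⟨fun i hi => h1 _ (by omega), fun i hi j hj h => ?_, fun i hi j hj => ?_⟩,
    fun i hi => h1 _ (by omega), fun i hi j hj h => ?_, fun i hi j hj => ?_⟩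
  · have := h2 (a + i) (by omega) (a + j) (by omega) h
    omega
  · show D.Adj (p (a + i)) (p (a + j)) ↔ _
    rw [h3 (a + i) (by omega) (a + j) (by omega)]
    omega
  · have := h2 (l - i) (by omega) (l - j) (by omega) h
    omega
  · show D.Adj (p (l - i)) (p (l - j)) ↔ _
    rw [h3 (l - i) (by omega) (l - j) (by omega)]
    omega

end Pool.Agent.MPd439b2
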