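import Pool.Agent.Lib.MP_d439b2_co.R.Spec2

/-!
# MP_d439b2_co, row `K_3 + P_1`, module P10: sets without `r` nets
-/

set_option autoImplicit false

namespace Pool.Agent.MPd439b2

namespace rP10Aux

variable {V : Type}

theorem coF_mono {D : SimpleGraph V} {Z Z' : Set V} (h : CoF D Z) (hZ : Z' ⊆ Z) : CoF D Z' :=
  fun Y hY hne => h Y (hY.trans hZ) hne

theorem lcf_mono {D : SimpleGraph V} {X X' : Set V} (h : LCF D X) (hX : X' ⊆ X) : LCF D X' :=
  fun v hv => coF_mono (h v (hX hv)) fun _ hw => ⟨hX hw.1, hw.2⟩

theorem hasN_mono {D : SimpleGraph V} {X X' : Set V} {r k : ℕ} (h : HasN D X' r k)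
    (hX : X' ⊆ X) : HasN D X r k := by
  obtain ⟨f, h1, h2⟩ := h
  exact ⟨f, fun u hu hu' => hX (h1 u hu hu'), h2⟩

theorem dis_list [Finite V] (hD2 : S_D2) {D : SimpleGraph V} {X : Set V} (hX : LCF D X) {c : ℕ}
    (hc : c₀ ≤ c) (n : ℕ) (l : List V) (hl : ∀ x ∈ l, x ∈ X) :
    ∀ Y ⊆ X, Dis D c n {v | v ∈ Y ∧ ∀ x ∈ l, v ∉ Nc D x} → Dis D c (n + 60 * l.length) Y := by
  induction l with
  | nil =>
    intro Y hY h
    have : {v | v ∈ Y ∧ ∀ x ∈ ([] : List V), v ∉ Nc D x} = Y := by
      ext v
      simp
    rw [this] at h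
    exact h
  | cons x l ih =>
    intro Y hY h
    have h1 : {v | v ∈ Y ∧ ∀ y ∈ x :: l, v ∉ Nc D y} =
        {v | v ∈ Y \ Nc D x ∧ ∀ y ∈ l, v ∉ Nc D y} := by
      ext v
      simp only [List.mem_cons, forall_eq_or_imp, Set.mem_ofPred_eq, Set.mem_sdiff]
      tauto
    rw [h1] at h
    have h2 := ih (fun y hy => hl y (List.mem_cons_of_mem _ hy)) (Y \ Nc D x)
      (fun y hy => hY hy.1) h
    have h3 := hD2 V D X Y x c _ hX (hl x List.mem_cons_self) hY hc h2
    have h4 : n + 60 * l.length + 60 = n + 60 * (x :: l).length := by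
      rw [List.length_cons]
      ring
    rw [h4] at h3
    exact h3

end rP10Aux

open rP10Aux in
/-- **P10.** Sets without `r` nets. -/
theorem rP10 : S_D2 → S_P9 → S_Y5 → S_Y6 → S_P10 := by
  intro hD2 hP9 hY5 hY6 r k
  induction r with
  | zero =>
    refine ⟨0, ?_⟩
    intro V _ D X hX hN
    rcases isEmpty_or_nonempty V with hV | ⟨⟨v⟩⟩
    · have : X = ∅ := Set.eq_empty_of_isEmpty X
      rw [this]
      exact Lay.empty
    · exact absurd ⟨fun _ => v, fun u hu => absurd hu (Nat.not_lt_zero _),
        fun u _ hu => absurd hu (Nat.not_lt_zero _)⟩ hN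
  | succ r ih =>
    obtain ⟨K', hK'⟩ := ih
    obtain ⟨K9, hK9⟩ := hP9 k
    refine ⟨max (max K9 1) (3 ^ (0 + 60 * (3 * (k + 1))) * max c₀ K'), ?_⟩
    intro V _ D X hX hN
    by_cases h1 : HasN D X 1 k
    · obtain ⟨f, hf1, hf2⟩ := h1
      set l : List V := (List.finRange 3 ×ˢ List.range (k + 1)).map (fun p => f (0, p.1, p.2))
        with hl
      have hlmem : ∀ x, x ∈ l ↔ ∃ (i : Fin 3) (j : ℕ), j ≤ k ∧ f (0, i, j) = x := by
        intro x
        rw [hl, List.mem_map]
        constructor
        · rintro ⟨⟨i, j⟩, hp, rfl⟩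
          rw [List.mem_product] at hp
          exact ⟨i, j, by simpa [Nat.lt_succ_iff] using hp.2, rfl⟩
        · rintro ⟨i, j, hj, rfl⟩
          refine ⟨⟨i, j⟩, ?_, rfl⟩
          rw [List.mem_product]
          exact ⟨List.mem_finRange i, by simpa [Nat.lt_succ_iff] using hj⟩
      have hllen : l.length = 3 * (k + 1) := by
        rw [hl, List.length_map, List.length_product, List.length_finRange, List.length_range]
      set X' : Set V := {v | v ∈ X ∧ ∀ x ∈ l, v ∉ Nc D x} with hX'
      have hX'X : X' ⊆ X := fun v hv => hv.1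
      have hN' : ¬ HasN D X' r k := by
        rintro ⟨g, hg1, hg2⟩
        apply hN
        refine ⟨fun u => if u.1 < r then g u else f (0, u.2), ?_, ?_⟩
        · intro u hu hu'
          by_cases h : u.1 < r
          · simp only [h, if_true]
            exact hX'X (hg1 u h hu')
          · simp only [h, if_false]
            exact hf1 (0, u.2) (by norm_num) hu'
        · have key : ∀ u v : ℕ × Fin 3 × ℕ, u.1 < r → u.2.2 ≤ k → v.2.2 ≤ k →
              g u ≠ f (0, v.2) ∧ ¬ D.Adj (f (0, v.2)) (g u) := by
            intro u v hu hu' hv'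
            have h2 := (hg1 u hu hu').2 (f (0, v.2)) ((hlmem _).mpr ⟨v.2.1, v.2.2, hv', rfl⟩)
            exact ⟨fun h => h2 (Or.inl h), fun h => h2 (Or.inr h)⟩
          intro u v hu hu' hv hv'
          by_cases h : u.1 < r
          · by_cases h' : v.1 < r
            · simp only [h, h', if_true]
              exact hg2 u v h hu' h' hv'
            · simp only [h, h', if_true, if_false]
              have h2 := key u v h hu' hv'
              refine ⟨fun e => absurd e h2.1, ?_⟩
              refine iff_of_false (fun e => h2.2 e.symm) ?_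
              rintro ⟨_, h3, _⟩
              omega
          · by_cases h' : v.1 < r
            · simp only [h, h', if_true, if_false]
              have h2 := key v u h' hv' hu'
              refine ⟨fun e => absurd e.symm h2.1, ?_⟩
              refine iff_of_false h2.2 ?_
              rintro ⟨_, h3, _⟩
              omega
            · simp only [h, h', if_false]
              have h2 := hf2 (0, u.2) (0, v.2) (by norm_num) hu' (by norm_num) hv'
              have huv : u.1 = v.1 := by omega
              have e1 : ((0, u.2) : ℕ × Fin 3 × ℕ) = (0, v.2) → u = v := by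
                intro e
                exact Prod.ext huv (Prod.mk.inj e).2
              refine ⟨fun e => e1 (h2.1 e), ?_⟩
              rw [h2.2]
              constructor
              · rintro ⟨h3, _, h4⟩
                refine ⟨fun e => h3 (by rw [e]), huv, h4⟩
              · rintro ⟨h3, _, h4⟩
                exact ⟨fun e => h3 (e1 e), rfl, h4⟩
      have h3 : Lay (restr D X') K' X' := hK' V D X' (lcf_mono hX hX'X) hN'
      have h4 : Dis D (max c₀ K') 0 X' := Dis.base (Lay.mono (le_max_right _ _) h3)
      have h5 : Dis D (max c₀ K') (0 + 60 * l.length) X := by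
        refine dis_list hD2 hX (le_max_left _ _) 0 l ?_ X subset_rfl h4
        intro x hx
        obtain ⟨i, j, hj, rfl⟩ := (hlmem x).mp hx
        exact hf1 (0, i, j) (by norm_num) hj
      rw [hllen] at h5
      have h6 := hY6 V D (max c₀ K') _ X (le_trans (by norm_num [c₀]) (le_max_left _ _)) h5
      exact Lay.mono (le_max_right _ _) h6
    · have h2 : Lay (restr D X) (max K9 1) X := by
        apply hY5 V D (max K9 1) X (le_max_right _ _)
        intro K hK
        refine Lay.mono (le_max_left _ _) (hK9 V D K (lcf_mono hX hK.1) hK.2.1 ?_)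
        exact fun h => h1 (hasN_mono h hK.1)
      exact Lay.mono (le_max_left _ _) h2

end Pool.Agent.MPd439b2
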