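import Pool.Agent.Lib.MP_d439b2_co.R.Spec2

/-!
# MP_d439b2_co, row `K_3 + P_1`: attachments of the components of `Off`
-/

set_option autoImplicit false

namespace Pool.Agent.MPd439b2

namespace rP2Aux

variable {V : Type} {D : SimpleGraph V} {X : Set V}

/-- the concatenation of two induced paths -/
theorem concat {a b : ℕ} {u v : ℕ → V} (hu : IPath D X a u) (hv : IPath D X b v)
    (hne : ∀ s ≤ a, ∀ t ≤ b, u s ≠ v t) (hadj : ∀ s ≤ a, ∀ t ≤ b, (D.Adj (u s) (v t) ↔ s = a ∧ t = 0)) :
    IPath D X (a + b + 1) (fun m => if m ≤ a then u m else v (m - a - 1)) := by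
  refine ⟨fun i hi => ?_, fun i hi j hj h => ?_, fun i hi j hj => ?_⟩
  · change (if i ≤ a then u i else v (i - a - 1)) ∈ X
    split_ifs with h
    · exact hu.1 i h
    · exact hv.1 _ (by omega)
  · change (if i ≤ a then u i else v (i - a - 1)) = (if j ≤ a then u j else v (j - a - 1)) at h
    split_ifs at h with h1 h2 h2
    · exact hu.2.1 i h1 j h2 h
    · exact absurd h (hne i h1 _ (by omega))
    · exact absurd h.symm (hne j h2 _ (by omega))
    · have := hv.2.1 _ (by omega) _ (by omega) h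
      omega
  · change D.Adj (if i ≤ a then u i else v (i - a - 1)) (if j ≤ a then u j else v (j - a - 1)) ↔ _
    split_ifs with h1 h2 h2
    · exact hu.2.2 i h1 j h2
    · rw [hadj i h1 _ (by omega)]
      omega
    · rw [D.adj_comm, hadj j h2 _ (by omega)]
      omega
    · rw [hv.2.2 _ (by omega) _ (by omega)]
      omega

theorem single {y : V} (hy : y ∈ X) : IPath D X 0 (fun _ => y) := by
  refine ⟨fun _ _ => hy, fun i hi j hj _ => by omega, fun i hi j hj => ?_⟩
  constructor
  · intro h
    exact absurd h (D.loopless.irrefl y)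
  · intro h
    omega

end rP2Aux

theorem rP2 : S_F1 → S_P2 := by
  intro hF1 V _ D X K L q y z hL hq hK hy hyK hz hyz
  classical
  obtain ⟨hqI, hqlong⟩ := hq
  obtain ⟨hqX, hqi, hqa⟩ := hqI
  have hzO := hK.1 hz
  have hz1 : ∀ i ≤ L, q i ≠ z := fun i hi h => hzO.2 i hi (Or.inl h.symm)
  have hz2 : ∀ i ≤ L, ¬ D.Adj (q i) z := fun i hi h => hzO.2 i hi (Or.inr h)
  have hyq : ∀ i ≤ L, q i ≠ y := by
    intro i hi h
    apply hz2 i hi
    rw [h]
    exact hyz
  refine ⟨hyq, ?_⟩
  have hyO : y ∉ Off D X L q := fun h => hK.2.2 y h ⟨hyK, z, hz, hyz.symm⟩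
  have hex : ∃ i, i ≤ L ∧ D.Adj y (q i) := by
    by_contra hcon
    push Not at hcon
    apply hyO
    refine ⟨hy, fun i hi h => ?_⟩
    rcases h with h | h
    · exact hyq i hi h.symm
    · exact hcon i hi h.symm
  have hnad : ∀ i j, i ≤ L → j ≤ L → i + 2 ≤ j → ¬ D.Adj (q i) (q j) := by
    intro i j hi hj hij h
    rcases (hqa i hi j hj).1 h with h1 | h1 <;> omega
  have hne : ∀ i j, i ≤ L → j ≤ L → i ≠ j → q i ≠ q j := fun i j hi hj hij h => hij (hqi i hi j hj h)
  have hclose : ∀ j j', j ≤ L → j' ≤ L → D.Adj y (q j) → D.Adj y (q j') → ¬ j + 2 ≤ j' := by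
    intro j j' hj hj' hyj hyj' h
    have hF := (hF1 V D _ (hL y hy)).1
    have h4 := hF z ⟨hzO.1, hyz⟩ (q j) ⟨hqX j hj, hyj⟩ (q j') ⟨hqX j' hj', hyj'⟩
      (fun h => hz1 j hj h.symm) (fun h => hz1 j' hj' h.symm) (hne _ _ hj hj' (by omega))
      (fun h => hz2 j hj h.symm) (fun h => hz2 j' hj' h.symm)
    exact hnad j j' hj hj' h h4
  set i := Nat.find hex with hi
  have hi1 : i ≤ L ∧ D.Adj y (q i) := Nat.find_spec hex
  have hmin : ∀ j, j ≤ L → D.Adj y (q j) → i ≤ j := fun j hj hyj => Nat.find_min' hex ⟨hj, hyj⟩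
  by_cases h1 : i + 1 ≤ L ∧ D.Adj y (q (i + 1))
  · refine ⟨i, by omega, fun j hj => ⟨fun h => ?_, fun h => ?_⟩⟩
    · have h2 := hmin j hj h
      have h3 := hclose i j hi1.1 hj hi1.2 h
      omega
    · rcases h with h | h
      · rw [h]; exact hi1.2
      · rw [h]; exact h1.2
  · exfalso
    have honly : ∀ j, j ≤ L → (D.Adj y (q j) ↔ j = i) := by
      intro j hj
      constructor
      · intro h
        have h2 := hmin j hj h
        have h3 := hclose i j hi1.1 hj hi1.2 h
        by_contra h4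
        have h5 : j = i + 1 := by omega
        rw [h5] at h hj
        exact h1 ⟨hj, h⟩
      · intro h
        rw [h]
        exact hi1.2
    rcases Nat.eq_zero_or_pos i with h0 | h0
    · have hp := rP2Aux.concat (rP2Aux.single (D := D) hy) (show IPath D X L q from ⟨hqX, hqi, hqa⟩)
        (fun s _ t ht h => hyq t ht h.symm) (fun s hs t ht => by
          rw [honly t ht]
          omega)
      have h3 : 0 + L + 1 = L + 1 := by omega
      rw [h3] at hp
      exact hqlong _ hp
    · rcases Nat.lt_or_ge i L with h2 | h2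
      · have hF := (hF1 V D _ (hL (q i) (hqX i hi1.1))).1
        have h4 : D.Adj (q i) (q (i - 1)) := (hqa i hi1.1 (i - 1) (by omega)).2 (Or.inl (by omega))
        have h5 : D.Adj (q i) (q (i + 1)) := (hqa i hi1.1 (i + 1) (by omega)).2 (Or.inr rfl)
        have h6 := hF y ⟨hy, hi1.2.symm⟩ (q (i - 1)) ⟨hqX _ (by omega), h4⟩ (q (i + 1)) ⟨hqX _ (by omega), h5⟩
          (fun h => hyq (i - 1) (by omega) h.symm) (fun h => hyq (i + 1) (by omega) h.symm)
          (hne _ _ (by omega) (by omega) (by omega))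
          (fun h => absurd ((honly (i - 1) (by omega)).1 h) (by omega))
          (fun h => absurd ((honly (i + 1) (by omega)).1 h) (by omega))
        exact hnad (i - 1) (i + 1) (by omega) (by omega) (by omega) h6
      · have h3 : i = L := le_antisymm hi1.1 h2
        have hp := rP2Aux.concat (show IPath D X L q from ⟨hqX, hqi, hqa⟩) (rP2Aux.single (D := D) hy)
          (fun s hs t _ h => hyq s hs h) (fun s hs t ht => by
            rw [D.adj_comm, honly s hs]
            omega)
        have h4 : L + 0 + 1 = L + 1 := by omega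
        rw [h4] at hp
        exact hqlong _ hp

end Pool.Agent.MPd439b2
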