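import Pool.Agent.Lib.MP_d439b2_co.R.Spec2

/-!
# MP_d439b2_co, row `K_3 + P_1`: the components of `Off` have bounded depth
-/

set_option autoImplicit false

namespace Pool.Agent.MPd439b2

namespace rP3Aux

variable {V : Type} {D : SimpleGraph V} {X : Set V}

theorem concat {a b : ℕ} {u v : ℕ → V} (hu : IPath D X a u) (hv : IPath D X b v)
    (hne : ∀ s ≤ a, ∀ t ≤ b, u s ≠ v t) (hadj : ∀ s ≤ a, ∀ t ≤ b, (D.Adj (u s) (v t) ↔ s = a ∧ t = 0)) :
    IPath D X (a + b + 1) (fun m => if m ≤ a then u m else v (m - a - 1)) := by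
  refine ⟨fun i hi => ?_, fun i hi j hj h => ?_, fun i hi j hj => ?_⟩
  · change (if i ≤ a then u i else v (i - a - 1)) ∈ X
    split_ifs with h
    · exact hu.1 i h
    · exact hv.1 _ (by omega)
  · change (if i ≤ a then u i else v (i - a - 1)) = (if j ≤ a then u j else v (j - a - 1)) at h
    split_ifs at h with h1 h2 h2
    · exact hu.2.1 i h1 j h2 h
    · exact absurd h (hne i h1 _ (by omega))
    · exact absurd h.symm (hne j h2 _ (by omega))
    · have := hv.2.1 _ (by omega) _ (by omega) h
      omega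
  · change D.Adj (if i ≤ a then u i else v (i - a - 1)) (if j ≤ a then u j else v (j - a - 1)) ↔ _
    split_ifs with h1 h2 h2
    · exact hu.2.2 i h1 j h2
    · rw [hadj i h1 _ (by omega)]
      omega
    · rw [D.adj_comm, hadj j h2 _ (by omega)]
      omega
    · rw [hv.2.2 _ (by omega) _ (by omega)]
      omega

theorem cof_mono {Z Z' : Set V} (h : CoF D Z) (hZ : Z' ⊆ Z) : CoF D Z' := fun Y hY hne => h Y (hY.trans hZ) hne

theorem lcf_mono {X' : Set V} (h : LCF D X) (hX : X' ⊆ X) : LCF D X' := fun v hv =>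
  cof_mono (h v (hX hv)) fun _ hw => ⟨hX hw.1, hw.2⟩

/-- a net from three legs -/
theorem net {k : ℕ} {r : Fin 3 → ℕ → V} (hX : ∀ a, ∀ j ≤ k, r a j ∈ X)
    (hinj : ∀ a b, ∀ i ≤ k, ∀ j ≤ k, r a i = r b j → a = b ∧ i = j)
    (hadj : ∀ a, ∀ i ≤ k, ∀ j ≤ k, (D.Adj (r a i) (r a j) ↔ i = j + 1 ∨ j = i + 1))
    (hadj2 : ∀ a b, a ≠ b → ∀ i ≤ k, ∀ j ≤ k, (D.Adj (r a i) (r b j) ↔ i = 0 ∧ j = 0)) : HasN D X 1 k := by
  refine ⟨fun u => r u.2.1 u.2.2, fun u _ hu => hX _ _ hu, ?_⟩
  rintro ⟨c, a, i⟩ ⟨c', b, j⟩ hc hi hc' hj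
  change c < 1 at hc
  change c' < 1 at hc'
  change i ≤ k at hi
  change j ≤ k at hj
  obtain rfl : c = 0 := by omega
  obtain rfl : c' = 0 := by omega
  refine ⟨fun h => ?_, ?_⟩
  · obtain ⟨rfl, rfl⟩ := hinj a b i hi j hj h
    rfl
  · change D.Adj (r a i) (r b j) ↔ ((0, a, i) ≠ (0, b, j) ∧ 0 = 0 ∧
      ((a = b ∧ (i = j + 1 ∨ j = i + 1)) ∨ (i = 0 ∧ j = 0)))
    by_cases hab : a = b
    · subst hab
      rw [hadj a i hi j hj]
      constructor
      · intro h
        refine ⟨fun h1 => ?_, rfl, Or.inl ⟨rfl, h⟩⟩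
        have h2 : i = j := by
          have := congrArg (fun x : ℕ × Fin 3 × ℕ => x.2.2) h1
          exact this
        omega
      · rintro ⟨h1, _, ⟨_, h2⟩ | ⟨h2, h3⟩⟩
        · exact h2
        · subst h2
          subst h3
          exact absurd rfl h1
    · rw [hadj2 a b hab i hi j hj]
      constructor
      · intro h
        refine ⟨fun h1 => hab ?_, rfl, Or.inr h⟩
        exact congrArg (fun x : ℕ × Fin 3 × ℕ => x.2.1) h1
      · rintro ⟨_, _, ⟨h2, _⟩ | h2⟩
        · exact absurd h2 hab
        · exact h2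

end rP3Aux

theorem rP3 : S_G1 → S_P0 → S_P2 → S_Y7 → S_P3 := by
  intro hG1 hP0 hP2 hY7 V _ D X K L k q hL hX hq hN hK
  classical
  have hqI := hq.1
  obtain ⟨hqX, hqi, hqa⟩ := hqI
  have hq0 : q 0 ∉ K := fun h => (hK.1 h).2 0 (Nat.zero_le _) (Or.inl rfl)
  have hKX : K ⊆ X := fun v hv => (hK.1 hv).1
  have hKne : K ≠ X := fun h => hq0 (h ▸ hqX 0 (Nat.zero_le _))
  obtain ⟨z, hz, y, ⟨hy, hyK⟩, hzy⟩ := hX.2 K hKX hK.2.1.1 hKne
  obtain ⟨hyq, i, hi, hyi⟩ := hP2 V D X K L q y z hL hq hK hy hyK hz hzy.symm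
  have hins : insert y K ⊆ X := Set.insert_subset hy hKX
  have hconn : Conn D (insert y K) := hK.2.1.insert ⟨z, hz, hzy⟩
  have hKq : ∀ w ∈ K, ∀ j ≤ L, q j ≠ w ∧ ¬ D.Adj (q j) w := fun w hw j hj =>
    ⟨fun h => (hK.1 hw).2 j hj (Or.inl h.symm), fun h => (hK.1 hw).2 j hj (Or.inr h)⟩
  have hclaim : ¬ ∃ p : ℕ → V, IPath D (insert y K) k p ∧ p 0 = y := by
    rintro ⟨p, hp, hp0⟩
    have hpK : ∀ j ≤ k, 0 < j → p j ∈ K := by
      intro j hj h0
      rcases hp.1 j hj with h | h
      · have := hp.2.1 j hj 0 (Nat.zero_le _) (by rw [h, hp0])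
        omega
      · exact h
    have hpX : IPath D X k p := ⟨fun j hj => hins (hp.1 j hj), hp.2.1, hp.2.2⟩
    have hpq : ∀ j ≤ k, ∀ m ≤ L, p j ≠ q m := by
      intro j hj m hm h
      rcases Nat.eq_zero_or_pos j with h0 | h0
      · rw [h0, hp0] at h
        exact hyq m hm h.symm
      · exact (hKq (p j) (hpK j hj h0) m hm).1 h.symm
    have hpa : ∀ j ≤ k, ∀ m ≤ L, (D.Adj (p j) (q m) ↔ j = 0 ∧ (m = i ∨ m = i + 1)) := by
      intro j hj m hm
      rcases Nat.eq_zero_or_pos j with h0 | h0
      · rw [h0, hp0, hyi m hm]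
        constructor
        · intro h
          exact ⟨rfl, h⟩
        · intro h
          exact h.2
      · constructor
        · intro h
          exact absurd h.symm (hKq (p j) (hpK j hj h0) m hm).2
        · intro h
          omega
    by_cases hik : i < k
    · -- the path `p k, ..., p 0, q (i + 1), ..., q L`
      have h1 : IPath D X k (fun m => p (k - m)) := (hP0 V D X k p hpX).2.2
      have h2 : IPath D X (L - i - 1) (fun m => q (i + 1 + m)) := (hP0 V D X L q hq.1).2.1 (i + 1) (L - i - 1) (by omega)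
      have h3 := rP3Aux.concat h1 h2 (fun s hs t ht => hpq _ (by omega) _ (by omega)) (fun s hs t ht => by
        rw [hpa _ (by omega) _ (by omega)]
        omega)
      exact hq.2 _ ((hP0 V D X _ _ h3).1 (L + 1) (by omega))
    · by_cases hiL : i + 1 + k ≤ L
      · -- the net
        apply hN
        refine rP3Aux.net (r := fun a j => if a = 0 then p j else if a = 1 then q (i - j) else q (i + 1 + j)) ?_ ?_ ?_ ?_
        · intro a j hj
          fin_cases a
          · exact hpX.1 j hj
          · exact hqX _ (by omega)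
          · exact hqX _ (by omega)
        · intro a b i' hi' j hj h
          fin_cases a <;> fin_cases b
          · exact ⟨rfl, hp.2.1 i' hi' j hj h⟩
          · exact absurd h (hpq i' hi' (i - j) (by omega))
          · exact absurd h (hpq i' hi' (i + 1 + j) (by omega))
          · exact absurd h.symm (hpq j hj (i - i') (by omega))
          · have := hqi (i - i') (by omega) (i - j) (by omega) h
            exact ⟨rfl, by omega⟩
          · have := hqi (i - i') (by omega) (i + 1 + j) (by omega) h
            omega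
          · exact absurd h.symm (hpq j hj (i + 1 + i') (by omega))
          · have := hqi (i + 1 + i') (by omega) (i - j) (by omega) h
            omega
          · have := hqi (i + 1 + i') (by omega) (i + 1 + j) (by omega) h
            exact ⟨rfl, by omega⟩
        · intro a i' hi' j hj
          fin_cases a
          · exact hp.2.2 i' hi' j hj
          · refine (hqa (i - i') (by omega) (i - j) (by omega)).trans ?_
            omega
          · refine (hqa (i + 1 + i') (by omega) (i + 1 + j) (by omega)).trans ?_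
            omega
        · intro a b hab i' hi' j hj
          fin_cases a <;> fin_cases b
          · exact absurd rfl hab
          · refine (hpa i' hi' (i - j) (by omega)).trans ?_
            omega
          · refine (hpa i' hi' (i + 1 + j) (by omega)).trans ?_
            omega
          · refine (D.adj_comm _ _).trans ((hpa j hj (i - i') (by omega)).trans ?_)
            omega
          · exact absurd rfl hab
          · refine (hqa (i - i') (by omega) (i + 1 + j) (by omega)).trans ?_
            omega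
          · refine (D.adj_comm _ _).trans ((hpa j hj (i + 1 + i') (by omega)).trans ?_)
            omega
          · refine (hqa (i + 1 + i') (by omega) (i - j) (by omega)).trans ?_
            omega
          · exact absurd rfl hab
      · -- the path `q 0, ..., q i, p 0, ..., p k`
        have h1 : IPath D X i q := (hP0 V D X L q hq.1).1 i (by omega)
        have h3 := rP3Aux.concat h1 hpX (fun s hs t ht h => hpq t ht s (by omega) h.symm) (fun s hs t ht => by
          rw [D.adj_comm, hpa t ht s (by omega)]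
          omega)
        exact hq.2 _ ((hP0 V D X _ _ h3).1 (L + 1) (by omega))
  have h1 := hG1 V D k (insert y K) y (rP3Aux.lcf_mono hL hins) hconn (Set.mem_insert _ _) hclaim
  exact hY7 V D c₀ c₀ (60 * k) (60 * k) (insert y K) K (Set.subset_insert _ _) (le_refl _) (le_refl _) h1

end Pool.Agent.MPd439b2
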