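import Pool.Agent.Lib.MP_d439b2_co.R.Spec2

/-!
# MP_d439b2_co, module R/P4: a net from a detour
-/

set_option autoImplicit false

namespace Pool.Agent.MPd439b2

namespace rP4Aux

/-- the third leg -/
def leg {V : Type} (p q : ℕ → V) (m b j : ℕ) : V := if j ≤ m then p j else q (b + (j - m))

lemma nets_iff (t t' : Fin 3) (i j : ℕ) : (nets ℕ).Adj (0, t, i) (0, t', j) ↔
    ((t = t' ∧ (i = j + 1 ∨ j = i + 1)) ∨ (t ≠ t' ∧ i = 0 ∧ j = 0)) := by
  constructor
  · rintro ⟨h1, -, h2⟩
    rcases h2 with h2 | h2
    · exact Or.inl h2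
    · obtain ⟨h3, h4⟩ := h2
      have h3' : i = 0 := h3
      have h4' : j = 0 := h4
      subst h3'
      subst h4'
      refine Or.inr ⟨?_, rfl, rfl⟩
      rintro rfl
      exact h1 rfl
  · intro h
    refine ⟨?_, rfl, ?_⟩
    · intro he
      have h1 : t = t' := congrArg (fun u => u.2.1) he
      have h2 : i = j := congrArg (fun u => u.2.2) he
      rcases h with ⟨-, h⟩ | ⟨h, -⟩
      · omega
      · exact h h1
    · rcases h with h | ⟨-, h⟩
      · exact Or.inl h
      · exact Or.inr h

end rP4Aux

open rP4Aux in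
theorem rP4 : S_P4 := by
  intro V D X L m k a b q p hq hp hm hka hab hbL h0 hM hin hne
  obtain ⟨hqX, hqi, hqa⟩ := hq
  obtain ⟨hpX, hpi, hpa⟩ := hp
  -- two vertices of the third leg
  have hA : ∀ i ≤ k, ∀ j ≤ k, (leg p q m b i = leg p q m b j → i = j) ∧
      (D.Adj (leg p q m b i) (leg p q m b j) ↔ i = j + 1 ∨ j = i + 1) := by
    -- one on `p`, one on `q`
    have hx : ∀ i j, i ≤ m → m < j → j ≤ k →
        (D.Adj (p i) (q (b + (j - m))) ↔ i = j + 1 ∨ j = i + 1) := by
      intro i j hi hj hjk
      have hb : b + (j - m) ≤ L := by omega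
      rcases Nat.lt_or_ge 0 i with h | h
      · rcases Nat.lt_or_ge i m with h' | h'
        · refine ⟨fun h1 => absurd h1 (hin i h h' _ hb), fun h1 => ?_⟩
          omega
        · have : i = m := by omega
          subst this
          rw [hM _ hb]
          omega
      · have : i = 0 := by omega
        subst this
        rw [h0 _ hb]
        omega
    intro i hi j hj
    unfold leg
    by_cases h1 : i ≤ m
    · by_cases h2 : j ≤ m
      · rw [if_pos h1, if_pos h2]
        exact ⟨hpi i h1 j h2, hpa i h1 j h2⟩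
      · rw [if_pos h1, if_neg h2]
        exact ⟨fun h => absurd h (hne i h1 _ (by omega)), hx i j h1 (by omega) hj⟩
    · by_cases h2 : j ≤ m
      · rw [if_neg h1, if_pos h2]
        refine ⟨fun h => absurd h.symm (hne j h2 _ (by omega)), ?_⟩
        rw [D.adj_comm, hx j i h2 (by omega) hi]
        omega
      · rw [if_neg h1, if_neg h2]
        refine ⟨fun h => ?_, ?_⟩
        · have := hqi _ (by omega) _ (by omega) h
          omega
        · rw [hqa _ (by omega) _ (by omega)]
          omega
  -- the third leg and the first part of the path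
  have hB : ∀ i ≤ k, ∀ n ≤ a + 1 + k, leg p q m b i ≠ q n ∧
      (D.Adj (leg p q m b i) (q n) ↔ i = 0 ∧ (n = a ∨ n = a + 1)) := by
    intro i hi n hn
    have hnL : n ≤ L := by omega
    unfold leg
    by_cases h1 : i ≤ m
    · rw [if_pos h1]
      refine ⟨hne i h1 n hnL, ?_⟩
      rcases Nat.lt_or_ge 0 i with h | h
      · rcases Nat.lt_or_ge i m with h' | h'
        · refine ⟨fun h2 => absurd h2 (hin i h h' _ hnL), fun h2 => ?_⟩
          omega
        · have : i = m := by omega
          subst this
          rw [hM _ hnL]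
          omega
      · have : i = 0 := by omega
        subst this
        rw [h0 _ hnL]
        omega
    · rw [if_neg h1]
      refine ⟨fun h => ?_, ?_⟩
      · have := hqi _ (by omega) _ hnL h
        omega
      · rw [hqa _ (by omega) _ hnL]
        omega
  refine ⟨fun u => if u.2.1 = 0 then leg p q m b u.2.2 else
    if u.2.1 = 1 then q (a - u.2.2) else q (a + 1 + u.2.2), ?_, ?_⟩
  · rintro ⟨c, t, i⟩ hc hi
    have hi' : i ≤ k := hi
    fin_cases t
    · change leg p q m b i ∈ X
      unfold leg
      split_ifs with h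
      · exact hpX i h
      · exact hqX _ (by omega)
    · change q (a - i) ∈ X
      exact hqX _ (by omega)
    · change q (a + 1 + i) ∈ X
      exact hqX _ (by omega)
  · rintro ⟨c, t, i⟩ ⟨c', t', j⟩ hc hi hc' hj
    have hi' : i ≤ k := hi
    have hj' : j ≤ k := hj
    have hc0 : c = 0 := by
      have : c < 1 := hc
      omega
    have hc0' : c' = 0 := by
      have : c' < 1 := hc'
      omega
    subst hc0
    subst hc0'
    rw [nets_iff]
    fin_cases t <;> fin_cases t'
    · change (leg p q m b i = leg p q m b j → _) ∧ (D.Adj (leg p q m b i) (leg p q m b j) ↔ _)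
      obtain ⟨e1, e2⟩ := hA i hi' j hj'
      refine ⟨fun h => by rw [e1 h], ?_⟩
      rw [e2]
      simp
    · change (leg p q m b i = q (a - j) → _) ∧ (D.Adj (leg p q m b i) (q (a - j)) ↔ _)
      obtain ⟨e1, e2⟩ := hB i hi' (a - j) (by omega)
      refine ⟨fun h => absurd h e1, ?_⟩
      rw [e2]
      simp
      omega
    · change (leg p q m b i = q (a + 1 + j) → _) ∧ (D.Adj (leg p q m b i) (q (a + 1 + j)) ↔ _)
      obtain ⟨e1, e2⟩ := hB i hi' (a + 1 + j) (by omega)
      refine ⟨fun h => absurd h e1, ?_⟩
      rw [e2]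
      simp
      omega
    · change (q (a - i) = leg p q m b j → _) ∧ (D.Adj (q (a - i)) (leg p q m b j) ↔ _)
      obtain ⟨e1, e2⟩ := hB j hj' (a - i) (by omega)
      refine ⟨fun h => absurd h.symm e1, ?_⟩
      rw [D.adj_comm, e2]
      simp
      omega
    · change (q (a - i) = q (a - j) → _) ∧ (D.Adj (q (a - i)) (q (a - j)) ↔ _)
      refine ⟨fun h => ?_, ?_⟩
      · have h1 := hqi _ (by omega) _ (by omega) h
        have h2 : i = j := by omega
        rw [h2]
      · rw [hqa _ (by omega) _ (by omega)]
        simp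
        omega
    · change (q (a - i) = q (a + 1 + j) → _) ∧ (D.Adj (q (a - i)) (q (a + 1 + j)) ↔ _)
      refine ⟨fun h => ?_, ?_⟩
      · have h1 := hqi _ (by omega) _ (by omega) h
        omega
      · rw [hqa _ (by omega) _ (by omega)]
        simp
        omega
    · change (q (a + 1 + i) = leg p q m b j → _) ∧ (D.Adj (q (a + 1 + i)) (leg p q m b j) ↔ _)
      obtain ⟨e1, e2⟩ := hB j hj' (a + 1 + i) (by omega)
      refine ⟨fun h => absurd h.symm e1, ?_⟩
      rw [D.adj_comm, e2]
      simp
      omega
    · change (q (a + 1 + i) = q (a - j) → _) ∧ (D.Adj (q (a + 1 + i)) (q (a - j)) ↔ _)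
      refine ⟨fun h => ?_, ?_⟩
      · have h1 := hqi _ (by omega) _ (by omega) h
        omega
      · rw [hqa _ (by omega) _ (by omega)]
        simp
        omega
    · change (q (a + 1 + i) = q (a + 1 + j) → _) ∧ (D.Adj (q (a + 1 + i)) (q (a + 1 + j)) ↔ _)
      refine ⟨fun h => ?_, ?_⟩
      · have h1 := hqi _ (by omega) _ (by omega) h
        have h2 : i = j := by omega
        rw [h2]
      · rw [hqa _ (by omega) _ (by omega)]
        simp
        omega

end Pool.Agent.MPd439b2
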