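import Pool.Agent.Lib.MP_d439b2_co.R.Spec2

set_option autoImplicit false

namespace Pool.Agent.MPd439b2

namespace rP5Aux

theorem core {V : Type} [Finite V] (h4 : S_P4) {D : SimpleGraph V} {X : Set V} {L k : ℕ}
    {q : ℕ → V} {y y' : V} {i i' : ℕ} (hq : IPath D X L q) (hN : ¬ HasN D X 1 k)
    (hyq : ∀ j ≤ L, q j ≠ y) (hyq' : ∀ j ≤ L, q j ≠ y') (hki : k ≤ i)
    (hiL : i' + k + 4 ≤ L) (hy : ∀ j ≤ L, (D.Adj y (q j) ↔ i ≤ j ∧ j ≤ i + 1))
    (hy' : ∀ j ≤ L, (D.Adj y' (q j) ↔ i' ≤ j ∧ j ≤ i' + 1)) (hlt : i + 2 * k + 7 ≤ i')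
    {m : ℕ} {p : ℕ → V} (hp : IPath D X m p) (hm : 1 ≤ m) (hp0 : p 0 = y) (hpm : p m = y')
    (hin : ∀ t, 0 < t → t < m → ∀ j ≤ L, ¬ D.Adj (p t) (q j) ∧ p t ≠ q j) : False := by
  refine hN (h4 V D X L m k i i' q p hq hp hm hki hlt (by omega) ?_ ?_ ?_ ?_)
  · intro j hj
    rw [hp0, hy j hj]
    omega
  · intro j hj
    rw [hpm, hy' j hj]
    omega
  · intro t ht htm j hj
    exact (hin t ht htm j hj).1
  · intro t ht j hj
    rcases Nat.eq_zero_or_pos t with h0 | h0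
    · rw [h0, hp0]
      exact fun h => hyq j hj h.symm
    · rcases Nat.lt_or_ge t m with h1 | h1
      · exact (hin t h0 h1 j hj).2
      · have : t = m := le_antisymm ht h1
        rw [this, hpm]
        exact fun h => hyq' j hj h.symm

/-- three vertices in the neighbourhood of `v` -/
theorem tri {V : Type} [Finite V] (h1 : S_F1) {D : SimpleGraph V} {X : Set V} (hX : LCF D X)
    {v a b c : V} (hv : v ∈ X) (ha : a ∈ X) (hb : b ∈ X) (hc : c ∈ X) (va : D.Adj v a)
    (vb : D.Adj v b) (vc : D.Adj v c) (ab : a ≠ b) (ac : a ≠ c) (bc : b ≠ c)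
    (nab : ¬ D.Adj a b) (nac : ¬ D.Adj a c) : D.Adj b c :=
  (h1 V D _ (hX v hv)).1 a ⟨ha, va⟩ b ⟨hb, vb⟩ c ⟨hc, vc⟩ ab ac bc nab nac

/-- the short case -/
theorem adjCase {V : Type} [Finite V] (h1 : S_F1) (h4 : S_P4) {D : SimpleGraph V} {X : Set V}
    {L k : ℕ} {q : ℕ → V} {y y' : V} {i i' r r' : ℕ} (hX : LCF D X) (hq : IPath D X L q)
    (hN : ¬ HasN D X 1 k) (hyX : y ∈ X) (hyX' : y' ∈ X)
    (hyq : ∀ j ≤ L, q j ≠ y) (hyq' : ∀ j ≤ L, q j ≠ y') (hr : 1 ≤ r) (hr' : 1 ≤ r')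
    (hr3 : r ≤ 3) (_hr3' : r' ≤ 3) (hki : k ≤ i)
    (hiL : i' + k + 4 ≤ L) (hy : ∀ j ≤ L, (D.Adj y (q j) ↔ i ≤ j ∧ j ≤ i + r))
    (hy' : ∀ j ≤ L, (D.Adj y' (q j) ↔ i' ≤ j ∧ j ≤ i' + r')) (hlt : i + 2 * k + 7 ≤ i')
    (hyy : D.Adj y y') : False := by
  have r1 : r = 1 := by
    by_contra hne
    have h := tri h1 hX hyX hyX' (hq.1 i (by omega)) (hq.1 (i + 2) (by omega)) hyy
      ((hy i (by omega)).mpr ⟨le_refl _, by omega⟩)
      ((hy (i + 2) (by omega)).mpr ⟨by omega, by omega⟩)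
      (fun h => hyq' i (by omega) h.symm) (fun h => hyq' (i + 2) (by omega) h.symm)
      (fun h => by have := hq.2.1 i (by omega) (i + 2) (by omega) h; omega)
      (fun h => by have := (hy' i (by omega)).mp h; omega)
      (fun h => by have := (hy' (i + 2) (by omega)).mp h; omega)
    have := (hq.2.2 i (by omega) (i + 2) (by omega)).mp h
    omega
  have r1' : r' = 1 := by
    by_contra hne
    have h := tri h1 hX hyX' hyX (hq.1 i' (by omega)) (hq.1 (i' + 2) (by omega)) hyy.symm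
      ((hy' i' (by omega)).mpr ⟨le_refl _, by omega⟩)
      ((hy' (i' + 2) (by omega)).mpr ⟨by omega, by omega⟩)
      (fun h => hyq i' (by omega) h.symm) (fun h => hyq (i' + 2) (by omega) h.symm)
      (fun h => by have := hq.2.1 i' (by omega) (i' + 2) (by omega) h; omega)
      (fun h => by have := (hy i' (by omega)).mp h; omega)
      (fun h => by have := (hy (i' + 2) (by omega)).mp h; omega)
    have := (hq.2.2 i' (by omega) (i' + 2) (by omega)).mp h
    omega
  subst r1 r1'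
  refine core h4 hq hN hyq hyq' hki hiL hy hy' hlt (m := 1)
    (p := fun n => if n = 0 then y else y') ?_ (le_refl _) (if_pos rfl) (if_neg (by omega)) ?_
  · refine ⟨?_, ?_, ?_⟩
    · intro t _
      show (if t = 0 then y else y') ∈ X
      split
      · exact hyX
      · exact hyX'
    · intro s hs t ht h
      have h' : (if s = 0 then y else y') = (if t = 0 then y else y') := h
      by_cases hs0 : s = 0
      · by_cases ht0 : t = 0
        · omega
        · rw [if_pos hs0, if_neg ht0] at h'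
          exact absurd h' hyy.ne
      · by_cases ht0 : t = 0
        · rw [if_neg hs0, if_pos ht0] at h'
          exact absurd h'.symm hyy.ne
        · omega
    · intro s hs t ht
      show D.Adj (if s = 0 then y else y') (if t = 0 then y else y') ↔ _
      by_cases hs0 : s = 0
      · by_cases ht0 : t = 0
        · rw [if_pos hs0, if_pos ht0]
          refine iff_of_false (D.loopless.irrefl y) (by omega)
        · rw [if_pos hs0, if_neg ht0]
          exact iff_of_true hyy (by omega)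
      · by_cases ht0 : t = 0
        · rw [if_neg hs0, if_pos ht0]
          exact iff_of_true hyy.symm (by omega)
        · rw [if_neg hs0, if_neg ht0]
          refine iff_of_false (D.loopless.irrefl y') (by omega)
  · intro t h0 h1'
    omega

theorem compCase {V : Type} [Finite V] (h2 : S_P2) (h4 : S_P4) (hPa : S_Path)
    {D : SimpleGraph V} {X : Set V}
    {L k : ℕ} {q : ℕ → V} {y y' : V} {i i' r r' : ℕ} (hX : LCF D X) (hL : LongP D X L q)
    (hN : ¬ HasN D X 1 k) (hyX : y ∈ X) (hyX' : y' ∈ X)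
    (hyq : ∀ j ≤ L, q j ≠ y) (hyq' : ∀ j ≤ L, q j ≠ y') (hr : 1 ≤ r) (hr' : 1 ≤ r')
    (hr3 : r ≤ 3) (hr3' : r' ≤ 3) (hki : k ≤ i)
    (hiL : i' + k + 4 ≤ L) (hy : ∀ j ≤ L, (D.Adj y (q j) ↔ i ≤ j ∧ j ≤ i + r))
    (hy' : ∀ j ≤ L, (D.Adj y' (q j) ↔ i' ≤ j ∧ j ≤ i' + r')) (hlt : i + 2 * k + 7 ≤ i')
    {K : Set V} (hK : IsComp D (Off D X L q) K) {z z' : V} (hz : z ∈ K) (hz' : z' ∈ K)
    (hyz : D.Adj y z) (hyz' : D.Adj y' z') : False := by
  have hq := hL.1
  have a1 : D.Adj y (q i) := (hy i (by omega)).mpr ⟨le_refl _, by omega⟩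
  have a2 : D.Adj y' (q i') := (hy' i' (by omega)).mpr ⟨le_refl _, by omega⟩
  have yK : y ∉ K := fun h => (hK.1 h).2 i (by omega) (Or.inr a1.symm)
  have yK' : y' ∉ K := fun h => (hK.1 h).2 i' (by omega) (Or.inr a2.symm)
  have hne : y ≠ y' := by
    intro h
    rw [h] at a1
    have := (hy' i (by omega)).mp a1
    omega
  have r1 : r = 1 := by
    obtain ⟨_, i0, hi0, h0⟩ := h2 V D X K L q y z hX hL hK hyX yK hz hyz
    by_contra hne1
    have e0 := (h0 i (by omega)).mp a1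
    have e1 := (h0 (i + 1) (by omega)).mp ((hy (i + 1) (by omega)).mpr ⟨by omega, by omega⟩)
    have e2 := (h0 (i + 2) (by omega)).mp ((hy (i + 2) (by omega)).mpr ⟨by omega, by omega⟩)
    omega
  have r1' : r' = 1 := by
    obtain ⟨_, i0, hi0, h0⟩ := h2 V D X K L q y' z' hX hL hK hyX' yK' hz' hyz'
    by_contra hne1
    have e0 := (h0 i' (by omega)).mp a2
    have e1 := (h0 (i' + 1) (by omega)).mp
      ((hy' (i' + 1) (by omega)).mpr ⟨by omega, by omega⟩)
    have e2 := (h0 (i' + 2) (by omega)).mp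
      ((hy' (i' + 2) (by omega)).mpr ⟨by omega, by omega⟩)
    omega
  subst r1 r1'
  have hC : Conn D (insert y' (insert y K)) :=
    (hK.2.1.insert ⟨z, hz, hyz.symm⟩).insert ⟨z', Set.mem_insert_of_mem y hz', hyz'.symm⟩
  obtain ⟨l, p, hp0, hpl, hpC, hinj, hadj, hX0, hYl⟩ :=
    hPa V D (insert y' (insert y K)) {y} {y'} hC
      ⟨y, Set.mem_insert_of_mem y' (Set.mem_insert y K), rfl⟩ ⟨y', Set.mem_insert y' _, rfl⟩
  have hp0' : p 0 = y := hp0
  have hpl' : p l = y' := hpl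
  have hl : 1 ≤ l := by
    by_contra h
    have : l = 0 := by omega
    rw [this, hp0'] at hpl'
    exact hne hpl'
  have hCX : ∀ v ∈ insert y' (insert y K), v ∈ X := by
    rintro v (rfl | rfl | hv)
    · exact hyX'
    · exact hyX
    · exact (hK.1 hv).1
  refine core h4 hq hN hyq hyq' hki hiL hy hy' hlt (m := l) (p := p)
    ⟨fun t ht => hCX _ (hpC t ht), hinj, hadj⟩ hl hp0' hpl' ?_
  intro t ht htl j hj
  have hKt : p t ∈ K := by
    rcases hpC t htl.le with h | h | h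
    · have := hYl t htl.le h
      omega
    · have := hX0 t htl.le h
      omega
    · exact h
  have hno := (hK.1 hKt).2 j hj
  exact ⟨fun h => hno (Or.inr h.symm), fun h => hno (Or.inl h)⟩

end rP5Aux

theorem rP5 : S_F1 → S_P2 → S_P4 → S_Path → S_P5 := by
  intro h1 h2 h4 hPa V _ D X L k q y y' i i' r r' hX hL hN hyX hyX' hyq hyq' hr hr' hr3 hr3'
    hki hiL hy hy' hor
  by_contra hcon
  have hlt : i + 2 * k + 7 ≤ i' := by omega
  rcases hor with hyy | ⟨K, hK, ⟨z, hz, hyz⟩, z', hz', hyz'⟩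
  · exact rP5Aux.adjCase h1 h4 hX hL.1 hN hyX hyX' hyq hyq' hr hr' hr3 hr3' hki hiL hy hy' hlt
      hyy
  · exact rP5Aux.compCase h2 h4 hPa hX hL hN hyX hyX' hyq hyq' hr hr' hr3 hr3' hki hiL hy hy'
      hlt hK hz hz' hyz hyz'

end Pool.Agent.MPd439b2
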