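import Pool.Agent.Lib.MP_d439b2_co.R.Spec2

set_option autoImplicit false

namespace Pool.Agent.MPd439b2

namespace rP6Aux

open Classical in
/-- the index of a vertex on the path or adjacent to the path -/
noncomputable def idx1 {V : Type} (D : SimpleGraph V) (L : ℕ) (q : ℕ → V) (v : V) : ℕ :=
  if h : ∃ j, j ≤ L ∧ q j = v then Nat.find h else if h : ∃ j, j ≤ L ∧ D.Adj v (q j) then Nat.find h else 0

/-- the indices of the neighbours of the component of `v` -/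
def NB {V : Type} (D : SimpleGraph V) (X : Set V) (L m : ℕ) (q : ℕ → V) (v : V) : Set ℕ :=
  {i | ∃ K, IsComp D (Off D X L q) K ∧ v ∈ K ∧ ∃ y ∈ Mid D X L m q, y ∉ K ∧ (∃ z ∈ K, D.Adj y z) ∧ idx1 D L q y = i}

open Classical in
/-- the index -/
noncomputable def idx {V : Type} (D : SimpleGraph V) (X : Set V) (L m : ℕ) (q : ℕ → V) (v : V) : ℕ :=
  if v ∈ Off D X L q then sInf (NB D X L m q v) else idx1 D L q v

section

variable {V : Type} {D : SimpleGraph V} {X : Set V} {L : ℕ} {q : ℕ → V}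

open Classical in
theorem idx1_le (v : V) : idx1 D L q v ≤ L := by
  unfold idx1
  split_ifs with h1 h2
  · exact (Nat.find_spec h1).1
  · exact (Nat.find_spec h2).1
  · exact Nat.zero_le _

theorem idx_le (m : ℕ) (v : V) : idx D X L m q v ≤ L := by
  unfold idx
  split_ifs with h1
  · rcases (NB D X L m q v).eq_empty_or_nonempty with h | h
    · rw [h, Nat.sInf_empty]
      exact Nat.zero_le _
    · obtain ⟨K, -, -, y, -, -, -, hy⟩ := Nat.sInf_mem h
      rw [← hy]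
      exact idx1_le y
  · exact idx1_le v

open Classical in
theorem idx1_path (hq : IPath D X L q) {j : ℕ} (hj : j ≤ L) : idx1 D L q (q j) = j := by
  have h : ∃ i, i ≤ L ∧ q i = q j := ⟨j, hj, rfl⟩
  unfold idx1
  rw [dif_pos h]
  exact hq.2.1 _ (Nat.find_spec h).1 _ hj (Nat.find_spec h).2

theorem mem_Nc_self (x : V) : x ∈ Nc D x := Or.inl rfl

/-- vertices on the path -/
theorem path_bounds (hq : IPath D X L q) {m j : ℕ} (hj : j ≤ L) (hv : q j ∈ Mid D X L m q) :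
    m + 2 ≤ j ∧ j + m + 2 ≤ L := by
  constructor
  · by_contra hlt
    have hcase : j ≤ m ∨ j = m + 1 := by omega
    rcases hcase with h | h
    · exact hv.2 j hj (Or.inl h) (mem_Nc_self _)
    · refine hv.2 m (by omega) (Or.inl le_rfl) (Or.inr ?_)
      rw [hq.2.2 m (by omega) j hj]
      exact Or.inr h
  · by_contra hlt
    have hcase : L ≤ j + m ∨ j + 1 + m = L := by omega
    rcases hcase with h | h
    · exact hv.2 j hj (Or.inr h) (mem_Nc_self _)
    · refine hv.2 (j + 1) (by omega) (Or.inr (by omega)) (Or.inr ?_)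
      rw [hq.2.2 (j + 1) (by omega) j hj]
      exact Or.inl rfl

/-- vertices of the second type -/
structure T2 (D : SimpleGraph V) (L m : ℕ) (q : ℕ → V) (v : V) (r : ℕ) : Prop where
  off : ∀ i ≤ L, q i ≠ v
  r1 : 1 ≤ r
  r3 : r ≤ 3
  lo : m < idx1 D L q v
  hi : idx1 D L q v + r + m < L
  adj : ∀ j ≤ L, (D.Adj v (q j) ↔ idx1 D L q v ≤ j ∧ j ≤ idx1 D L q v + r)

open Classical in
theorem exists_T2 [Finite V] (hP1 : S_P1) (hX : LCF D X) (hq : IPath D X L q) {m : ℕ} {v : V}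
    (hv : v ∈ Mid D X L m q) (h1 : ∀ i ≤ L, q i ≠ v) (h2 : ∃ i ≤ L, D.Adj v (q i)) : ∃ r, T2 D L m q v r := by
  have hna : ∀ i ≤ L, (i ≤ m ∨ L ≤ i + m) → ¬ D.Adj v (q i) := fun i hi h h3 => hv.2 i hi h (Or.inr h3.symm)
  obtain ⟨i, r, hi1, hr1, hr3, hiL, hadj⟩ := hP1 V D X L q v hX hq hv.1 h1
    (hna 0 (Nat.zero_le _) (Or.inl (Nat.zero_le _))) (hna L le_rfl (Or.inr (Nat.le_add_right _ _))) h2
  have hidx : idx1 D L q v = i := by
    have h3 : ¬ ∃ j, j ≤ L ∧ q j = v := by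
      rintro ⟨j, hj, hjv⟩
      exact h1 j hj hjv
    have h4 : ∃ j, j ≤ L ∧ D.Adj v (q j) := h2
    unfold idx1
    rw [dif_neg h3, dif_pos h4]
    apply le_antisymm
    · exact Nat.find_min' h4 ⟨by omega, (hadj i (by omega)).2 ⟨le_rfl, by omega⟩⟩
    · exact ((hadj _ (Nat.find_spec h4).1).1 (Nat.find_spec h4).2).1
  refine ⟨r, ⟨h1, hr1, hr3, ?_, ?_, ?_⟩⟩
  · rw [hidx]
    by_contra hlt
    exact hna i (by omega) (Or.inl (by omega)) ((hadj i (by omega)).2 ⟨le_rfl, by omega⟩)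
  · rw [hidx]
    by_contra hlt
    exact hna (i + r) (by omega) (Or.inr (by omega)) ((hadj (i + r) (by omega)).2 ⟨by omega, le_rfl⟩)
  · rw [hidx]
    exact hadj

/-- the three types of vertices -/
theorem types [Finite V] (hP1 : S_P1) (hX : LCF D X) (hq : IPath D X L q) {m : ℕ} {v : V}
    (hv : v ∈ Mid D X L m q) :
    (v ∉ Off D X L q ∧ ∃ j ≤ L, v = q j) ∨ (v ∉ Off D X L q ∧ ∃ r, T2 D L m q v r) ∨ v ∈ Off D X L q := by
  by_cases h1 : ∃ j ≤ L, v = q j
  · obtain ⟨j, hj, rfl⟩ := h1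
    exact Or.inl ⟨fun h => h.2 j hj (mem_Nc_self _), j, hj, rfl⟩
  · have h1' : ∀ i ≤ L, q i ≠ v := fun i hi h => h1 ⟨i, hi, h.symm⟩
    by_cases h2 : ∃ i ≤ L, D.Adj v (q i)
    · refine Or.inr (Or.inl ⟨?_, exists_T2 hP1 hX hq hv h1' h2⟩)
      obtain ⟨i, hi, hadj⟩ := h2
      exact fun h => h.2 i hi (Or.inr hadj.symm)
    · refine Or.inr (Or.inr ⟨hv.1, fun i hi h => ?_⟩)
      rcases h with h | h
      · exact h1' i hi h.symm
      · exact h2 ⟨i, hi, h.symm⟩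

theorem off_no_path {v : V} (h : v ∈ Off D X L q) {j : ℕ} (hj : j ≤ L) : ¬ D.Adj (q j) v :=
  fun h1 => h.2 j hj (Or.inr h1)

/-- adjacent vertices of `Off` have the same `NB` -/
theorem NB_sub {m : ℕ} {u v : V} (hv : v ∈ Off D X L q) (huv : D.Adj u v) :
    NB D X L m q u ⊆ NB D X L m q v := by
  rintro i ⟨K, hK, huK, hy⟩
  refine ⟨K, hK, ?_, hy⟩
  by_contra hvK
  exact hK.2.2 v hv ⟨hvK, u, huK, huv⟩

theorem idx_eq_of_not {m : ℕ} {v : V} (h : v ∉ Off D X L q) : idx D X L m q v = idx1 D L q v := by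
  unfold idx
  rw [if_neg h]

theorem idx_eq_of_mem {m : ℕ} {v : V} (h : v ∈ Off D X L q) : idx D X L m q v = sInf (NB D X L m q v) := by
  unfold idx
  rw [if_pos h]

/-- vertices of type 1 or 2 are in the closed neighbourhood of `q (idx v)` -/
theorem mem_Nc_idx [Finite V] (hP1 : S_P1) (hX : LCF D X) (hq : IPath D X L q) {m : ℕ} {v : V}
    (hv : v ∈ Mid D X L m q) (h : v ∉ Off D X L q) : v ∈ Nc D (q (idx D X L m q v)) := by
  rw [idx_eq_of_not h]
  rcases types hP1 hX hq hv with ⟨-, j, hj, rfl⟩ | ⟨-, r, hr⟩ | h1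
  · rw [idx1_path hq hj]
    exact mem_Nc_self _
  · exact Or.inr ((hr.adj _ (idx1_le v)).2 ⟨le_rfl, Nat.le_add_right _ _⟩).symm
  · exact absurd h1 h

/-- the index of a vertex of `Off` is at most the index of its neighbours outside -/
theorem idx_off_le {m : ℕ} {u v : V}
    (hu : u ∈ Mid D X L m q) (h : u ∉ Off D X L q) (hv : v ∈ Off D X L q) (huv : D.Adj u v) :
    idx D X L m q v ≤ idx D X L m q u := by
  rw [idx_eq_of_mem hv, idx_eq_of_not h]
  apply Nat.sInf_le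
  obtain ⟨K, hK, hvK, hconn, hnb⟩ := exists_comp D hv
  exact ⟨K, ⟨hK, hconn, hnb⟩, hvK, u, hu, fun h1 => h (hK h1), ⟨v, hvK, huv⟩, rfl⟩

theorem idx_off_eq {m : ℕ} {u v : V} (hu : u ∈ Off D X L q) (hv : v ∈ Off D X L q) (huv : D.Adj u v) :
    idx D X L m q u = idx D X L m q v := by
  rw [idx_eq_of_mem hu, idx_eq_of_mem hv, (NB_sub hv huv).antisymm (NB_sub hu huv.symm)]

/-- the main estimate -/
theorem idx_step [Finite V] (hP1 : S_P1) (hP2 : S_P2) (hP5 : S_P5) (k : ℕ) (hX : LCF D X) (hL : LongP D X L q)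
    (hN : ¬ HasN D X 1 k) {u v : V} (hu : u ∈ Mid D X L (2 * k + 10) q) (hv : v ∈ Mid D X L (2 * k + 10) q)
    (huv : D.Adj u v) : idx D X L (2 * k + 10) q v ≤ idx D X L (2 * k + 10) q u + (2 * k + 6) := by
  have hq := hL.1
  rcases types hP1 hX hq hu with ⟨hu0, j, hj, hju⟩ | ⟨hu0, r, hr⟩ | hu0
  · rcases types hP1 hX hq hv with ⟨hv0, j', hj', hjv⟩ | ⟨hv0, r', hr'⟩ | hv0
    · rw [idx_eq_of_not hu0, idx_eq_of_not hv0, hju, hjv, idx1_path hq hj, idx1_path hq hj']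
      rw [hju, hjv, hq.2.2 j hj j' hj'] at huv
      omega
    · rw [idx_eq_of_not hu0, idx_eq_of_not hv0, hju, idx1_path hq hj]
      rw [hju] at huv
      have := ((hr'.adj j hj).1 huv.symm).1
      omega
    · rw [hju] at huv
      exact absurd huv (off_no_path hv0 hj)
  · rcases types hP1 hX hq hv with ⟨hv0, j', hj', hjv⟩ | ⟨hv0, r', hr'⟩ | hv0
    · rw [idx_eq_of_not hu0, idx_eq_of_not hv0, hjv, idx1_path hq hj']
      rw [hjv] at huv
      have h1 := ((hr.adj j' hj').1 huv).2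
      have h2 := hr.r3
      omega
    · rw [idx_eq_of_not hu0, idx_eq_of_not hv0]
      have h1 := hr.lo
      have h2 := hr'.hi
      have h3 := hr'.r1
      have h4 := hP5 V D X L k q u v _ _ r r' hX hL hN hu.1 hv.1 hr.off hr'.off hr.r1 hr'.r1 hr.r3 hr'.r3
        (by omega) (by omega) hr.adj hr'.adj (Or.inl huv)
      omega
    · have h1 := idx_off_le hu hu0 hv0 huv
      omega
  · rcases types hP1 hX hq hv with ⟨hv0, j', hj', hjv⟩ | ⟨hv0, r', hr'⟩ | hv0
    · rw [hjv] at huv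
      exact absurd huv.symm (off_no_path hu0 hj')
    · -- the crucial case
      have hne : (NB D X L (2 * k + 10) q u).Nonempty := by
        obtain ⟨K, hK, huK, hconn, hnb⟩ := exists_comp D hu0
        exact ⟨_, K, ⟨hK, hconn, hnb⟩, huK, v, hv, fun h1 => hv0 (hK h1), ⟨u, huK, huv.symm⟩, rfl⟩
      obtain ⟨K, hK, huK, y, hy, hyK, ⟨z, hz, hyz⟩, hyi⟩ := Nat.sInf_mem hne
      rw [idx_eq_of_mem hu0, idx_eq_of_not hv0, ← hyi]
      obtain ⟨hy1, i, hi, hyadj⟩ := hP2 V D X K L q y z hX hL hK hy.1 hyK hz hyz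
      obtain ⟨s, hs⟩ := exists_T2 hP1 hX hq hy hy1 ⟨i, by omega, (hyadj i (by omega)).2 (Or.inl rfl)⟩
      have h1 := hs.lo
      have h2 := hr'.hi
      have h3 := hr'.r1
      have h4 := hP5 V D X L k q y v _ _ s r' hX hL hN hy.1 hv.1 hs.off hr'.off hs.r1 hr'.r1 hs.r3 hr'.r3
        (by omega) (by omega) hs.adj hr'.adj (Or.inr ⟨K, hK, ⟨z, hz, hyz⟩, ⟨u, huK, huv.symm⟩⟩)
      omega
    · rw [idx_off_eq hu0 hv0 huv]
      omega

/-- removing closed neighbourhoods of vertices of the path -/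
theorem dis_remove [Finite V] (hD2 : S_D2) (hY7 : S_Y7) (hX : LCF D X) (hq : IPath D X L q) (n a : ℕ) :
    ∀ (t : ℕ) (S : Set V), S ⊆ X → Dis D c₀ n (S \ {v | ∃ j < t, a + j ≤ L ∧ v ∈ Nc D (q (a + j))}) →
      Dis D c₀ (n + 60 * t) S := by
  intro t
  induction t with
  | zero =>
    intro S hS h
    refine hY7 V D c₀ c₀ n (n + 60 * 0) _ S ?_ (by omega) le_rfl h
    intro v hv
    exact ⟨hv, fun ⟨j, hj, _⟩ => by omega⟩
  | succ t ih =>
    intro S hS h
    by_cases ht : a + t ≤ L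
    · have h1 : Dis D c₀ (n + 60 * t) (S \ Nc D (q (a + t))) := by
        apply ih _ (Set.sdiff_subset.trans hS)
        refine hY7 V D c₀ c₀ n n _ _ ?_ le_rfl le_rfl h
        rintro v ⟨⟨hv1, hv2⟩, hv3⟩
        refine ⟨hv1, fun ⟨j, hj, hjL, hv⟩ => ?_⟩
        rcases Nat.lt_succ_iff_lt_or_eq.1 hj with h4 | h4
        · exact hv3 ⟨j, h4, hjL, hv⟩
        · rw [h4] at hv
          exact hv2 hv
      have h2 := hD2 V D X S (q (a + t)) c₀ (n + 60 * t) hX (hq.1 _ ht) hS le_rfl h1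
      have h3 : n + 60 * (t + 1) = n + 60 * t + 60 := by ring
      rw [h3]
      exact h2
    · have h1 : Dis D c₀ (n + 60 * t) S := by
        apply ih _ hS
        refine hY7 V D c₀ c₀ n n _ _ ?_ le_rfl le_rfl h
        rintro v ⟨hv1, hv2⟩
        refine ⟨hv1, fun ⟨j, hj, hjL, hv⟩ => ?_⟩
        rcases Nat.lt_succ_iff_lt_or_eq.1 hj with h4 | h4
        · exact hv2 ⟨j, h4, hjL, hv⟩
        · rw [h4] at hjL
          exact ht hjL
      exact hY7 V D c₀ c₀ _ _ _ _ le_rfl (by omega) le_rfl h1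

end

end rP6Aux

open rP6Aux in
theorem rP6 : S_D2 → S_P1 → S_P2 → S_P3 → S_P5 → S_Y7 → S_P6 := by
  intro hD2 hP1 hP2 hP3 hP5 hY7 V _ D X L k q hX hconn hL hN
  have hq := hL.1
  have hstep : ∀ u ∈ Mid D X L (2 * k + 10) q, ∀ v ∈ Mid D X L (2 * k + 10) q, D.Adj u v →
      idx D X L (2 * k + 10) q v ≤ idx D X L (2 * k + 10) q u + (2 * k + 6) :=
    fun u hu v hv huv => idx_step hP1 hP2 hP5 k hX hL hN hu hv huv
  refine ⟨idx D X L (2 * k + 10) q, hstep, idx_le _, ?_, ?_, ?_⟩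
  · intro j hj1 hj2
    have hjL : j ≤ L := by omega
    refine ⟨⟨hq.1 j hjL, fun i hi h h1 => ?_⟩, ?_⟩
    · rcases h1 with h1 | h1
      · have := hq.2.1 j hjL i hi h1
        omega
      · rw [hq.2.2 i hi j hjL] at h1
        omega
    · rw [idx_eq_of_not (fun h => h.2 j hjL (mem_Nc_self _)), idx1_path hq hjL]
  · intro a u hu v hv huv hua hav
    have h1 := hstep u hu v hv huv
    by_cases hv0 : v ∈ Off D X L q
    · exfalso
      by_cases hu0 : u ∈ Off D X L q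
      · have h2 := idx_off_eq (m := 2 * k + 10) hu0 hv0 huv
        omega
      · have h2 := idx_off_le hu hu0 hv0 huv
        omega
    · exact ⟨_, hav, by omega, Or.inr (mem_Nc_idx hP1 hX hq hv hv0)⟩
  · intro a l
    have hOff : Dis D c₀ (60 * k) (Off D X L q) :=
      Dis.comps fun K hK => hP3 V D X K L k q hX hconn hL hN hK
    have h3 : 60 * (k + l + 1) = 60 * k + 60 * (l + 1) := by ring
    rw [h3]
    refine dis_remove hD2 hY7 hX hq (60 * k) a (l + 1) _ (fun v hv => hv.1.1) ?_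
    refine hY7 V D c₀ c₀ _ _ _ _ ?_ le_rfl le_rfl hOff
    rintro v ⟨⟨hv, hva, hvl⟩, hv2⟩
    by_contra hv0
    obtain ⟨j, hj⟩ := Nat.exists_eq_add_of_le hva
    refine hv2 ⟨j, by omega, ?_, ?_⟩
    · rw [← hj]
      exact idx_le _ _
    · rw [← hj]
      exact mem_Nc_idx hP1 hX hq hv hv0

end Pool.Agent.MPd439b2
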