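import Pool.Agent.Lib.MP_d439b2_co.R.Spec2

/-!
# MP_d439b2_co, P7: one cut
-/

set_option autoImplicit false

namespace Pool.Agent.MPd439b2

namespace rP7Aux

variable {V : Type}

theorem ball_idx {D : SimpleGraph V} {X : Set V} {b : ℕ} {idx : V → ℕ}
    (hedge : ∀ u ∈ X, ∀ v ∈ X, D.Adj u v → idx v ≤ idx u + b) {x : V} (hx : x ∈ X) (r : ℕ) :
    ∀ v ∈ Ball D X x r, v ∈ X ∧ idx x ≤ idx v + r * b ∧ idx v ≤ idx x + r * b := by
  induction r with
  | zero =>
    intro v hv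
    have h1 : v = x := hv
    subst h1
    exact ⟨hx, by omega, by omega⟩
  | succ r ih =>
    intro v hv
    have h2 : (r + 1) * b = r * b + b := by ring
    rw [h2]
    rcases hv with hv | ⟨hvX, z, hz, hzv⟩
    · obtain ⟨h3, h4, h5⟩ := ih v hv
      exact ⟨h3, by omega, by omega⟩
    · obtain ⟨h3, h4, h5⟩ := ih z hz
      have h6 := hedge z h3 v hvX hzv
      have h7 := hedge v hvX z h3 hzv.symm
      exact ⟨hvX, by omega, by omega⟩

end rP7Aux

open rP7Aux in
theorem rP7 : S_D1 → S_G2 → S_Y8 → S_P7 := by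
  intro hD1 hG2 hY8 V _ D X a b q idx hLCF hq hedge hcross
  have H : ∀ i : ℕ, ∃ Y R : Set V, i ≤ b → (Mv D 60 X Y ∧
      (∀ u ∈ R, ∀ v ∈ Y \ R, ¬ D.Adj u v) ∧ (∀ v ∈ Y \ R, v ∉ Nc D (q (a + i))) ∧
      ∀ v ∈ X, v ∉ Y \ R → v ∈ Ball D X (q (a + i)) 3) := by
    intro i
    by_cases hi : i ≤ b
    · obtain ⟨Y, R, -, -, h3, -, h5, h6, h7⟩ := hD1 V D X (q (a + i)) hLCF (hq (a + i) (by omega) (by omega)).1
      exact ⟨Y, R, fun _ => ⟨h3, h5, h6, h7⟩⟩
    · exact ⟨∅, ∅, fun h => absurd h hi⟩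
  choose Y R hYR using H
  set W : ℕ → Set V := fun m => {v | v ∈ X ∧ ∀ i < m, v ∈ Y i} with hW
  have hMv : ∀ m ≤ b + 1, Mv D (60 * m) X (W m) := by
    intro m
    induction m with
    | zero =>
      intro _
      have h1 : W 0 = X := by
        ext v
        exact ⟨fun h => h.1, fun h => ⟨h, fun i hi => absurd hi (Nat.not_lt_zero i)⟩⟩
      rw [h1]
      exact Mv.nil _ _
    | succ m ih =>
      intro hm
      have h1 := ih (by omega)
      have h2 := (hYR m (by omega)).1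
      have h3 := (hY8 V D 60 X (Y m) h2).2.1 (W m) (fun v hv => hv.1)
      have h4 : W (m + 1) = W m ∩ Y m := by
        ext v
        constructor
        · intro h
          exact ⟨⟨h.1, fun i hi => h.2 i (by omega)⟩, h.2 m (by omega)⟩
        · rintro ⟨h, h'⟩
          refine ⟨h.1, fun i hi => ?_⟩
          rcases Nat.lt_succ_iff_lt_or_eq.1 hi with h5 | h5
          · exact h.2 i h5
          · rw [h5]
            exact h'
      rw [h4, show 60 * (m + 1) = 60 * m + 60 by ring]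
      exact (hY8 V D (60 * m) X (W m) h1).2.2.2.1 60 _ h3
  set P' : Set V := {v | v ∈ W (b + 1) ∧ a ≤ idx v ∧ ∀ i ≤ b, v ∉ R i} with hP'
  set P : Set V := W (b + 1) \ P' with hP
  have hdisj : Disjoint P P' := Set.disjoint_sdiff_left
  have hun : P ∪ P' = W (b + 1) := Set.sdiff_union_of_subset (fun v hv => hv.1)
  have hno : ∀ u ∈ P, ∀ v ∈ P', ¬ D.Adj u v := by
    intro u hu v hv huv
    by_cases h1 : ∃ i ≤ b, u ∈ R i
    · obtain ⟨i, hi, hui⟩ := h1
      exact (hYR i hi).2.1 u hui v ⟨hv.1.2 i (by omega), hv.2.2 i hi⟩ huv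
    · push Not at h1
      have h2 : idx u < a := by
        by_contra h2
        exact hu.2 ⟨hu.1, by omega, h1⟩
      obtain ⟨j, hj1, hj2, hj⟩ := hcross u hu.1.1 v hv.1.1 huv h2 hv.2.1
      obtain ⟨i, rfl⟩ := Nat.exists_eq_add_of_le hj1
      have hi : i ≤ b := by omega
      rcases hj with hj | hj
      · exact (hYR i hi).2.2.1 u ⟨hu.1.2 i (by omega), h1 i hi⟩ hj
      · exact (hYR i hi).2.2.1 v ⟨hv.1.2 i (by omega), hv.2.2 i hi⟩ hj
  obtain ⟨A, hPA, hAX, hAP', hA⟩ := hG2 V D (60 * (b + 1)) X P P' hdisj hno (by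
    rw [hun]
    exact hMv (b + 1) le_rfl)
  have hfar : ∀ v ∈ X, (∀ i ≤ b, v ∉ Ball D X (q (a + i)) 3) → v ∈ W (b + 1) ∧ ∀ i ≤ b, v ∉ R i := by
    intro v hv h
    have h1 : ∀ i ≤ b, v ∈ Y i \ R i := by
      intro i hi
      by_contra h2
      exact h i hi ((hYR i hi).2.2.2 v hv h2)
    exact ⟨⟨hv, fun i hi => (h1 i (by omega)).1⟩, fun i hi => (h1 i hi).2⟩
  refine ⟨A, hAX, hA, ?_, ?_⟩
  · intro v hv hlt
    have h1 := hfar v hv (fun i hi hball => by
      have h2 := hq (a + i) (by omega) (by omega)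
      have h3 := ball_idx hedge h2.1 3 v hball
      rw [h2.2] at h3
      omega)
    exact hPA ⟨h1.1, fun h2 => absurd h2.2.1 (by omega)⟩
  · intro v hv
    by_contra hlt
    push Not at hlt
    have h1 := hfar v (hAX hv) (fun i hi hball => by
      have h2 := hq (a + i) (by omega) (by omega)
      have h3 := ball_idx hedge h2.1 3 v hball
      rw [h2.2] at h3
      omega)
    exact Set.disjoint_left.1 hAP' hv ⟨h1.1, by omega, h1.2⟩

end Pool.Agent.MPd439b2
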