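import Pool.Agent.Lib.MP_d439b2_co.R.Spec2

/-!
# MP_d439b2_co, row `K_3 + P_1`: the middle part has layouts of bounded width
-/

set_option autoImplicit false

namespace Pool.Agent.MPd439b2

namespace rP8Aux

theorem lcf_mono {V : Type} {D : SimpleGraph V} {X X' : Set V} (h : X' ⊆ X) (hX : LCF D X) :
    LCF D X' := by
  intro v hv Y hY hne
  exact hX v (h hv) Y (fun w hw => ⟨h (hY hw).1, (hY hw).2⟩) hne

theorem mid_sub {V : Type} (D : SimpleGraph V) (X : Set V) (L m : ℕ) (q : ℕ → V) :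
    Mid D X L m q ⊆ X := fun _ h => h.1

theorem types_top {V : Type} (D : SimpleGraph V) (X : Set V) : Types (restr D X) X = ∅ := by
  rw [Set.eq_empty_iff_forall_notMem]
  rintro T ⟨⟨w, hw⟩, a, _, rfl⟩
  have h1 : (restr D X).Adj a w := hw.1
  exact hw.2 h1.2.2

end rP8Aux

open rP8Aux in
theorem rP8 : S_G3 → S_P6 → S_P7 → S_Y2 → S_Y6 → S_Y7 → S_P8 := by
  intro hG3 hP6 hP7 _ hY6 hY7 k
  obtain ⟨b, hb⟩ : ∃ b, b = 2 * k + 6 := ⟨_, rfl⟩
  obtain ⟨lo, hlo⟩ : ∃ lo, lo = 2 * k + 12 := ⟨_, rfl⟩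
  obtain ⟨l₀, hl₀⟩ : ∃ l₀, l₀ = 14 * b + 2 * lo + 1 := ⟨_, rfl⟩
  obtain ⟨k₁, hk₁⟩ : ∃ k₁, k₁ = 3 ^ (60 * (k + l₀ + 1)) * c₀ := ⟨_, rfl⟩
  obtain ⟨t, ht⟩ : ∃ t, t = 60 * (b + 1) := ⟨_, rfl⟩
  refine ⟨(k₁ + 1) * (t + 1) * 2 ^ t, ?_⟩
  intro V _ D X L q hX hconn hlong hnet
  obtain ⟨X₁, hX₁⟩ : ∃ X₁, X₁ = Mid D X L (2 * k + 10) q := ⟨_, rfl⟩
  obtain ⟨idx, ha, hbb, hc, hd, he⟩ := hP6 V D X L k q hX hconn hlong hnet
  rw [← hX₁] at ha hc hd he ⊢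
  rw [← hb] at ha hd
  rw [← hlo] at hc
  have hX₁X : X₁ ⊆ X := by rw [hX₁]; exact mid_sub D X L _ q
  have hL₁ : LCF D X₁ := lcf_mono hX₁X hX
  have layU : ∀ U ⊆ X₁, ∀ a, (∀ v ∈ U, a ≤ idx v ∧ idx v ≤ a + l₀) → Lay (restr D U) k₁ U := by
    intro U hU a h
    rw [hk₁]
    refine hY6 V D c₀ (60 * (k + l₀ + 1)) U (by norm_num [c₀]) ?_
    have hsub : U ⊆ {v | v ∈ X₁ ∧ a ≤ idx v ∧ idx v ≤ a + l₀} :=
      fun v hv => ⟨hU hv, (h v hv).1, (h v hv).2⟩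
    exact hY7 V D c₀ c₀ (60 * (k + l₀ + 1)) (60 * (k + l₀ + 1)) _ U hsub le_rfl le_rfl (he a l₀)
  have hk₁le : k₁ ≤ (k₁ + 1) * (t + 1) * 2 ^ t := by
    have h1 : 1 ≤ 2 ^ t := Nat.one_le_two_pow
    calc k₁ ≤ (k₁ + 1) * 1 * 1 := by omega
      _ ≤ (k₁ + 1) * (t + 1) * 2 ^ t := by gcongr <;> omega
  by_cases hL : L < 2 * lo + b
  · exact (layU X₁ subset_rfl 0 fun v _ => ⟨Nat.zero_le _, by have := hbb v; omega⟩).mono hk₁le
  have hL' : 2 * lo + b ≤ L := not_lt.mp hL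
  obtain ⟨M', hM'⟩ : ∃ M', M' = (L - (2 * lo + b)) / (7 * b + 1) := ⟨_, rfl⟩
  obtain ⟨M, hM⟩ : ∃ M, M = M' + 1 := ⟨_, rfl⟩
  have hM1 : ∀ j < M, lo + j * (7 * b + 1) + b + lo ≤ L := by
    intro j hj
    have h1 : j * (7 * b + 1) ≤ M' * (7 * b + 1) := Nat.mul_le_mul_right _ (by omega)
    have h2 : M' * (7 * b + 1) ≤ L - (2 * lo + b) := by
      rw [hM']; exact Nat.div_mul_le_self _ _
    omega
  have hM2 : L < lo + M * (7 * b + 1) + b + lo := by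
    have h1 : L - (2 * lo + b) < (7 * b + 1) * (M' + 1) := by
      rw [hM']; exact Nat.lt_mul_div_succ _ (by omega)
    have h2 : (7 * b + 1) * (M' + 1) = M * (7 * b + 1) := by rw [hM]; ring
    omega
  have hw : ∀ j, ∃ A : Set V, j < M → (A ⊆ X₁ ∧ (Types (restr D X₁) A).encard ≤ (t : ℕ) ∧
      (∀ v ∈ X₁, idx v + 3 * b < lo + j * (7 * b + 1) → v ∈ A) ∧
      ∀ v ∈ A, idx v ≤ lo + j * (7 * b + 1) + 4 * b) := by
    intro j
    by_cases hj : j < M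
    · have hj' := hM1 j hj
      obtain ⟨A, h1, h2, h3, h4⟩ := hP7 V D X₁ (lo + j * (7 * b + 1)) b q idx hL₁
        (fun i hi hi' => hc i (by omega) (by omega)) ha (hd _)
      exact ⟨A, fun _ => ⟨h1, by rw [ht]; exact h2, h3, h4⟩⟩
    · exact ⟨∅, fun h => absurd h hj⟩
  choose A hA using hw
  have hstep : ∀ j, (j + 1) * (7 * b + 1) = j * (7 * b + 1) + 7 * b + 1 := fun j => by ring
  have hG := hG3 V D X₁ (fun j => if j < M then A j else X₁) M k₁ t ?_ ?_ ?_ ?_ ?_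
  · exact hG
  · intro j hj
    rw [if_pos hj]
    obtain ⟨h1, _, _, h4⟩ := hA j hj
    by_cases hj1 : j + 1 < M
    · rw [if_pos hj1]
      intro v hv
      refine (hA (j + 1) hj1).2.2.1 v (h1 hv) ?_
      have h5 := h4 v hv
      rw [hstep]
      omega
    · rw [if_neg hj1]
      exact h1
  · skip
    rw [if_neg (lt_irrefl M)]
  · intro j _
    by_cases hj : j < M
    · rw [if_pos hj]
      exact (hA j hj).2.1
    · rw [if_neg hj, types_top, Set.encard_empty]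
      exact zero_le
  · skip
    have h0 : 0 < M := by omega
    rw [if_pos h0]
    obtain ⟨h1, _, _, h4⟩ := hA 0 h0
    refine layU _ h1 0 fun v hv => ⟨Nat.zero_le _, ?_⟩
    have h5 := h4 v hv
    omega
  · intro j hj
    rw [if_pos hj]
    obtain ⟨h1, _, h3, h4⟩ := hA j hj
    by_cases hj1 : j + 1 < M
    · rw [if_pos hj1]
      obtain ⟨g1, _, _, g4⟩ := hA (j + 1) hj1
      refine layU _ (fun v hv => g1 hv.1) (lo + j * (7 * b + 1) - 3 * b) fun v hv => ?_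
      have h5 : ¬ (idx v + 3 * b < lo + j * (7 * b + 1)) := fun h => hv.2 (h3 v (g1 hv.1) h)
      have h6 := g4 v hv.1
      rw [hstep] at h6
      constructor <;> omega
    · rw [if_neg hj1]
      refine layU _ (fun v hv => hv.1) (lo + j * (7 * b + 1) - 3 * b) fun v hv => ?_
      have h5 : ¬ (idx v + 3 * b < lo + j * (7 * b + 1)) := fun h => hv.2 (h3 v hv.1 h)
      have h6 := hbb v
      have h7 : M = j + 1 := by omega
      rw [h7, hstep] at hM2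
      constructor <;> omega

end Pool.Agent.MPd439b2
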