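import Pool.Agent.Lib.MP_d439b2_co.R.Spec2

/-!
# MP_d439b2_co, P9: connected sets without nets
-/

set_option autoImplicit false

namespace Pool.Agent.MPd439b2

namespace rP9Aux

variable {V : Type}

/-- a longest induced path exists -/
theorem exists_longP [Finite V] (D : SimpleGraph V) {X : Set V} (hX : X.Nonempty) : ∃ L q, LongP D X L q := by
  classical
  obtain ⟨x, hx⟩ := hX
  have h0 : IPath D X 0 (fun _ => x) := by
    refine ⟨fun i _ => hx, fun i hi j hj _ => by omega, fun i hi j hj => ?_⟩
    constructor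
    · intro h
      exact absurd h (D.loopless.irrefl x)
    · intro h
      omega
  have h1 : ∃ L, ¬ ∃ p, IPath D X (L + 1) p := by
    by_contra hcon
    push Not at hcon
    obtain ⟨p, hp⟩ := hcon (Nat.card V)
    have h2 : Function.Injective (fun i : Fin (Nat.card V + 1) => p i) := by
      intro i j hij
      have h3 := hp.2.1 i (by omega) j (by omega) hij
      exact Fin.ext h3
    have h4 := Nat.card_le_card_of_injective _ h2
    rw [Nat.card_eq_fintype_card (α := Fin (Nat.card V + 1)), Fintype.card_fin] at h4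
    omega
  have h2 := Nat.find_spec h1
  have h3 : ∃ q, IPath D X (Nat.find h1) q := by
    rcases Nat.eq_zero_or_pos (Nat.find h1) with h4 | h4
    · rw [h4]
      exact ⟨_, h0⟩
    · have h5 := Nat.find_min h1 (m := Nat.find h1 - 1) (by omega)
      rw [not_not] at h5
      rwa [Nat.sub_add_cancel h4] at h5
  obtain ⟨q, hq⟩ := h3
  exact ⟨Nat.find h1, q, hq, fun p hp => h2 ⟨p, hp⟩⟩

/-- removing several closed neighbourhoods -/
theorem dis_list [Finite V] (hD2 : S_D2) {D : SimpleGraph V} {Z : Set V} (hZ : LCF D Z) {c : ℕ} (hc : c₀ ≤ c) {n : ℕ}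
    (l : List V) : (∀ x ∈ l, x ∈ Z) → ∀ X ⊆ Z, Dis D c n {v | v ∈ X ∧ ∀ x ∈ l, v ∉ Nc D x} →
      Dis D c (n + 60 * l.length) X := by
  induction l with
  | nil =>
    intro _ X _ h
    have h1 : {v | v ∈ X ∧ ∀ x ∈ ([] : List V), v ∉ Nc D x} = X := by
      ext v
      simp
    rw [h1] at h
    simpa using h
  | cons y l ih =>
    intro hl X hX h
    have h1 : Dis D c (n + 60 * l.length) (X \ Nc D y) := by
      refine ih (fun x hx => hl x (List.mem_cons_of_mem _ hx)) _ (fun v hv => hX hv.1) ?_
      have h2 : {v | v ∈ X \ Nc D y ∧ ∀ x ∈ l, v ∉ Nc D x} = {v | v ∈ X ∧ ∀ x ∈ (y :: l), v ∉ Nc D x} := by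
        ext v
        simp only [Set.mem_setOf_eq, Set.mem_sdiff, List.mem_cons, forall_eq_or_imp]
        tauto
      rw [h2]
      exact h
    have h2 := hD2 V D Z X y c _ hZ (hl y (List.mem_cons_self ..)) hX hc h1
    have h3 : n + 60 * (y :: l).length = n + 60 * l.length + 60 := by
      rw [List.length_cons]
      ring
    rw [h3]
    exact h2

end rP9Aux

open rP9Aux in
theorem rP9 : S_D2 → S_P0 → S_P8 → S_Y6 → S_P9 := by
  intro hD2 _ hP8 hY6 k
  obtain ⟨K, hK⟩ := hP8 k
  refine ⟨3 ^ (60 * (4 * k + 22)) * max c₀ K, ?_⟩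
  intro V _ D X hLCF hconn hnet
  obtain ⟨L, q, hq⟩ := exists_longP D hconn.1
  have hlay := hK V D X L q hLCF hconn hq hnet
  have hdis : Dis D (max c₀ K) 0 (Mid D X L (2 * k + 10) q) := Dis.base (hlay.mono (le_max_right _ _))
  set l : List V := (List.range (2 * k + 11)).map (fun i => q (min i L)) ++
    (List.range (2 * k + 11)).map (fun i => q (L - i)) with hl
  have hlen : l.length = 4 * k + 22 := by
    rw [hl, List.length_append, List.length_map, List.length_map, List.length_range]
    ring
  have hlX : ∀ x ∈ l, x ∈ X := by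
    intro x hx
    rw [hl, List.mem_append, List.mem_map, List.mem_map] at hx
    rcases hx with ⟨i, -, rfl⟩ | ⟨i, -, rfl⟩
    · exact hq.1.1 _ (min_le_right _ _)
    · exact hq.1.1 _ (Nat.sub_le _ _)
  have hmid : {v | v ∈ X ∧ ∀ x ∈ l, v ∉ Nc D x} = Mid D X L (2 * k + 10) q := by
    ext v
    constructor
    · rintro ⟨hv, h⟩
      refine ⟨hv, fun i hi hor => h (q i) ?_⟩
      rw [hl, List.mem_append, List.mem_map, List.mem_map]
      rcases hor with h1 | h1
      · left
        exact ⟨i, List.mem_range.2 (by omega), by rw [min_eq_left hi]⟩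
      · right
        exact ⟨L - i, List.mem_range.2 (by omega), by rw [Nat.sub_sub_self hi]⟩
    · rintro ⟨hv, h⟩
      refine ⟨hv, fun x hx => ?_⟩
      rw [hl, List.mem_append, List.mem_map, List.mem_map] at hx
      rcases hx with ⟨i, hi, rfl⟩ | ⟨i, hi, rfl⟩
      · have h1 := List.mem_range.1 hi
        exact h _ (min_le_right _ _) (Or.inl ((min_le_left _ _).trans (by omega)))
      · have h1 := List.mem_range.1 hi
        exact h _ (Nat.sub_le _ _) (Or.inr (by omega))
  rw [← hmid] at hdis
  have h1 := dis_list hD2 hLCF (le_max_left c₀ K) l hlX X (subset_refl _) hdis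
  rw [hlen, Nat.zero_add] at h1
  exact hY6 V D (max c₀ K) _ X (le_trans (by unfold c₀; norm_num) (le_max_left c₀ K)) h1

end Pool.Agent.MPd439b2
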