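import Pool.Agent.Lib.MP_d439b2_co.R.Spec3

/-!
# MP_d439b2_co, V1: large minimum degree gives a model of a complete graph (Mader)
-/

set_option autoImplicit false

namespace Pool.Agent.MPd439b2

namespace rV1Aux

open Finset

variable {V : Type} [DecidableEq V]

open Classical in
/-- the degree of `y` into `Z` -/
noncomputable def dg (G : SimpleGraph V) (Z : Finset V) (y : V) : ℕ :=
  (Z.filter (fun w => G.Adj y w)).card

/-- the sum of the degrees -/
noncomputable def dd (G : SimpleGraph V) (Z : Finset V) : ℕ := ∑ y ∈ Z, dg G Z y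

open Classical in
/-- the vertices of `Y \ U` with a neighbour in `U` -/
noncomputable def NN (G : SimpleGraph V) (Y U : Finset V) : Finset V :=
  (Y \ U).filter (fun w => ∃ u ∈ U, G.Adj u w)

theorem dd_erase (G : SimpleGraph V) (Z : Finset V) {w : V} (hw : w ∈ Z) :
    dd G Z = dd G (Z.erase w) + 2 * dg G Z w := by
  classical
  unfold dd
  rw [← Finset.add_sum_erase Z _ hw]
  have h1 : ∀ y ∈ Z.erase w, dg G Z y = dg G (Z.erase w) y + (if G.Adj y w then 1 else 0) := by
    intro y hy
    unfold dg
    by_cases h : G.Adj y w
    · rw [if_pos h]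
      have : Z.filter (fun v => G.Adj y v) = insert w ((Z.erase w).filter (fun v => G.Adj y v)) := by
        ext v
        simp only [Finset.mem_filter, Finset.mem_insert, Finset.mem_erase]
        constructor
        · rintro ⟨hv, hyv⟩
          by_cases hvw : v = w
          · exact Or.inl hvw
          · exact Or.inr ⟨⟨hvw, hv⟩, hyv⟩
        · rintro (rfl | ⟨⟨_, hv⟩, hyv⟩)
          · exact ⟨hw, h⟩
          · exact ⟨hv, hyv⟩
      rw [this, Finset.card_insert_of_notMem]
      simp
    · rw [if_neg h]
      congr 1
      ext v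
      simp only [Finset.mem_filter, Finset.mem_erase]
      constructor
      · rintro ⟨hv, hyv⟩
        refine ⟨⟨?_, hv⟩, hyv⟩
        rintro rfl
        exact h hyv
      · rintro ⟨⟨_, hv⟩, hyv⟩
        exact ⟨hv, hyv⟩
  rw [Finset.sum_congr rfl h1, Finset.sum_add_distrib]
  have h2 : (∑ y ∈ Z.erase w, (if G.Adj y w then 1 else 0)) = dg G Z w := by
    rw [Finset.sum_ite, Finset.sum_const_zero, add_zero, Finset.sum_const, smul_eq_mul, mul_one]
    unfold dg
    congr 1
    ext v
    simp only [Finset.mem_filter, Finset.mem_erase]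
    constructor
    · rintro ⟨⟨_, hv⟩, h⟩
      exact ⟨hv, h.symm⟩
    · rintro ⟨hv, h⟩
      exact ⟨⟨h.ne', hv⟩, h.symm⟩
  rw [h2]
  ring

theorem card_NN_insert (G : SimpleGraph V) (Y U : Finset V) {w : V} (hw : w ∈ NN G Y U) :
    (NN G Y (insert w U)).card + 1 + dg G (NN G Y U) w = (NN G Y U).card + dg G (Y \ U) w := by
  classical
  have hw' : w ∈ Y \ U := (Finset.mem_filter.1 hw).1
  have h1 : NN G Y (insert w U) = (NN G Y U).erase w ∪ (Y \ U).filter (fun v => G.Adj w v) := by
    ext v
    simp only [NN, Finset.mem_filter, Finset.mem_sdiff, Finset.mem_insert, Finset.mem_union,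
      Finset.mem_erase, not_or]
    constructor
    · rintro ⟨⟨hvY, hvw, hvU⟩, u, hu, huv⟩
      rcases hu with rfl | hu
      · exact Or.inr ⟨⟨hvY, hvU⟩, huv⟩
      · exact Or.inl ⟨hvw, ⟨hvY, hvU⟩, u, hu, huv⟩
    · rintro (⟨hvw, ⟨hvY, hvU⟩, u, hu, huv⟩ | ⟨⟨hvY, hvU⟩, hwv⟩)
      · exact ⟨⟨hvY, hvw, hvU⟩, u, Or.inr hu, huv⟩
      · exact ⟨⟨hvY, hwv.ne', hvU⟩, w, Or.inl rfl, hwv⟩
  have h2 : (NN G Y U).erase w ∩ (Y \ U).filter (fun v => G.Adj w v) =
      (NN G Y U).filter (fun v => G.Adj w v) := by
    ext v
    simp only [NN, Finset.mem_filter, Finset.mem_sdiff, Finset.mem_inter, Finset.mem_erase]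
    constructor
    · rintro ⟨⟨_, h⟩, _, hwv⟩
      exact ⟨h, hwv⟩
    · rintro ⟨h, hwv⟩
      exact ⟨⟨hwv.ne', h⟩, h.1, hwv⟩
  have h3 := Finset.card_union_add_card_inter ((NN G Y U).erase w)
    ((Y \ U).filter (fun v => G.Adj w v))
  have h4 := Finset.card_erase_add_one hw
  rw [h2, ← h1] at h3
  unfold dg
  omega

/-- the claim -/
theorem claim (G : SimpleGraph V) (s : ℕ) : ∀ (n : ℕ) (Y : Finset V), Y.card ≤ n → Y.Nonempty →
    2 ^ s * Y.card ≤ dd G Y →
      ∃ B : ℕ → Set V, Mdl G (Finset.range (s + 1)) B ∧ ∀ i < s + 1, B i ⊆ (Y : Set V) := by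
  classical
  induction s with
  | zero =>
    intro n Y _ hne _
    obtain ⟨y, hy⟩ := hne
    refine ⟨fun _ => {y}, ⟨?_, ?_⟩, ?_⟩
    · intro i _
      exact Conn.singleton G y
    · intro i hi j hj hij
      simp only [Finset.mem_range] at hi hj
      omega
    · intro i _
      simpa using hy
  | succ s ihs =>
    intro n
    induction n with
    | zero =>
      intro Y hY hne
      have := Finset.card_pos.2 hne
      omega
    | succ n ihn =>
      intro Y hYn hne hd
      set good : Finset V → Prop := fun U => U ⊆ Y ∧ Conn G (U : Set V) ∧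
        2 ^ (s + 1) * ((Y \ U).card + 1) ≤ dd G (Y \ U) + 2 * (NN G Y U).card with hgood
      have hex : ((Y.powerset).filter good).Nonempty := by
        obtain ⟨u, hu⟩ := hne
        refine ⟨{u}, ?_⟩
        rw [Finset.mem_filter, Finset.mem_powerset]
        have hsub : ({u} : Finset V) ⊆ Y := by simpa using hu
        refine ⟨hsub, hsub, ?_, ?_⟩
        · rw [Finset.coe_singleton]
          exact Conn.singleton G u
        · have e1 : Y \ {u} = Y.erase u := Finset.sdiff_singleton_eq_erase u Y
          have e2 : NN G Y {u} = Y.filter (fun v => G.Adj u v) := by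
            ext v
            simp only [NN, Finset.mem_filter, Finset.mem_sdiff, Finset.mem_singleton,
              exists_eq_left]
            constructor
            · rintro ⟨⟨h1, _⟩, h2⟩
              exact ⟨h1, h2⟩
            · rintro ⟨h1, h2⟩
              exact ⟨⟨h1, h2.ne'⟩, h2⟩
          have e3 := dd_erase G Y hu
          have e4 := Finset.card_erase_add_one hu
          rw [e1, e2, e4]
          unfold dg at e3
          omega
      obtain ⟨U, hU, hmax⟩ := Finset.exists_max_image _ Finset.card hex
      rw [Finset.mem_filter] at hU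
      obtain ⟨_, hUY, hUc, hUg⟩ := hU
      have hUne : U.Nonempty := by simpa using hUc.1
      have hcard : (Y \ U).card + U.card = Y.card := Finset.card_sdiff_add_card_eq_card hUY
      have hUpos := Finset.card_pos.2 hUne
      by_cases hN : NN G Y U = ∅
      · rw [hN, Finset.card_empty, mul_zero, add_zero] at hUg
        have hne' : (Y \ U).Nonempty := by
          rw [Finset.nonempty_iff_ne_empty]
          intro h
          rw [h] at hUg
          simp [dd] at hUg
        have h2 : 2 ^ (s + 1) * (Y \ U).card ≤ dd G (Y \ U) :=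
          le_trans (Nat.mul_le_mul_left _ (Nat.le_succ _)) hUg
        obtain ⟨B, hB, hBs⟩ := ihn (Y \ U) (by omega) hne' h2
        refine ⟨B, hB, fun i hi => (hBs i hi).trans ?_⟩
        intro v hv
        have : v ∈ Y \ U := by simpa using hv
        exact_mod_cast (Finset.mem_sdiff.1 this).1
      · have hNne : (NN G Y U).Nonempty := Finset.nonempty_iff_ne_empty.2 hN
        have hdeg : ∀ w ∈ NN G Y U, 2 ^ s ≤ dg G (NN G Y U) w := by
          intro w hw
          have hw0 := hw
          simp only [NN, Finset.mem_filter, Finset.mem_sdiff] at hw0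
          obtain ⟨⟨hwY, hwU⟩, u, hu, huw⟩ := hw0
          have hwZ : w ∈ Y \ U := Finset.mem_sdiff.2 ⟨hwY, hwU⟩
          have hng : ¬ good (insert w U) := by
            intro hg
            have := hmax (insert w U) (by
              rw [Finset.mem_filter, Finset.mem_powerset]
              exact ⟨hg.1, hg⟩)
            rw [Finset.card_insert_of_notMem hwU] at this
            omega
          have hsub : insert w U ⊆ Y := Finset.insert_subset hwY hUY
          have hconn : Conn G ((insert w U : Finset V) : Set V) := by
            rw [Finset.coe_insert]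
            exact hUc.insert ⟨u, by exact_mod_cast hu, huw⟩
          have hlt : dd G (Y \ insert w U) + 2 * (NN G Y (insert w U)).card <
              2 ^ (s + 1) * ((Y \ insert w U).card + 1) := by
            by_contra hcon
            exact hng ⟨hsub, hconn, not_lt.1 hcon⟩
          have e1 : Y \ insert w U = (Y \ U).erase w := by
            ext v
            simp only [Finset.mem_sdiff, Finset.mem_insert, Finset.mem_erase, not_or]
            tauto
          have e2 := dd_erase G (Y \ U) hwZ
          have e3 := card_NN_insert G Y U hw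
          have e4 := Finset.card_erase_add_one hwZ
          rw [e1, e4] at hlt
          have e5 : 2 ^ (s + 1) * ((Y \ U).card + 1) = 2 ^ (s + 1) * (Y \ U).card + 2 ^ (s + 1) := by
            ring
          rw [e5] at hUg
          have e6 : 2 ^ (s + 1) = 2 * 2 ^ s := by ring
          generalize 2 ^ (s + 1) * (Y \ U).card = X at *
          omega
        have hdN : 2 ^ s * (NN G Y U).card ≤ dd G (NN G Y U) := by
          unfold dd
          calc 2 ^ s * (NN G Y U).card = ∑ _y ∈ NN G Y U, 2 ^ s := by
                rw [Finset.sum_const, smul_eq_mul, mul_comm]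
            _ ≤ _ := Finset.sum_le_sum hdeg
        obtain ⟨B, hB, hBs⟩ := ihs _ (NN G Y U) le_rfl hNne hdN
        have hNsub : ∀ v ∈ NN G Y U, v ∈ Y ∧ v ∉ U ∧ ∃ u ∈ U, G.Adj u v := by
          intro v hv
          simp only [NN, Finset.mem_filter, Finset.mem_sdiff] at hv
          exact ⟨hv.1.1, hv.1.2, hv.2⟩
        -- the sets `B i`, `i ≤ s`, are disjoint from `U` and touch `U`
        have hdis : ∀ i < s + 1, Disjoint (B i) (U : Set V) := by
          intro i hi
          rw [Set.disjoint_left]
          intro v hv hvU
          have := hBs i hi hv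
          exact (hNsub v (by exact_mod_cast this)).2.1 (by exact_mod_cast hvU)
        have htch : ∀ i < s + 1, Tch G (B i) (U : Set V) := by
          intro i hi
          obtain ⟨v, hv⟩ := (hB.1 i (Finset.mem_range.2 hi)).1
          obtain ⟨u, hu, huv⟩ := (hNsub v (by exact_mod_cast hBs i hi hv)).2.2
          exact ⟨v, hv, u, by exact_mod_cast hu, huv.symm⟩
        refine ⟨fun i => if i < s + 1 then B i else (U : Set V), ⟨?_, ?_⟩, ?_⟩
        · intro i _
          by_cases hi : i < s + 1
          · simp only [hi, if_true]
            exact hB.1 i (Finset.mem_range.2 hi)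
          · simp only [hi, if_false]
            exact hUc
        · intro i hi j hj hij
          rw [Finset.mem_range] at hi hj
          by_cases hi' : i < s + 1
          · by_cases hj' : j < s + 1
            · simp only [hi', hj', if_true]
              exact hB.2 i (Finset.mem_range.2 hi') j (Finset.mem_range.2 hj') hij
            · simp only [hi', hj', if_true, if_false]
              exact ⟨hdis i hi', htch i hi'⟩
          · by_cases hj' : j < s + 1
            · simp only [hi', hj', if_true, if_false]
              exact ⟨(hdis j hj').symm, (htch j hj').symm⟩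
            · omega
        · intro i _
          by_cases hi : i < s + 1
          · simp only [hi, if_true]
            intro v hv
            exact_mod_cast (hNsub v (by exact_mod_cast hBs i hi hv)).1
          · simp only [hi, if_false]
            exact_mod_cast hUY

end rV1Aux

open rV1Aux in
theorem rV1 : S_V1 := by
  intro s V _ G Y hne hdeg
  classical
  have hfin : Y.Finite := Set.toFinite Y
  have h1 : 2 ^ s * hfin.toFinset.card ≤ dd G hfin.toFinset := by
    unfold dd
    calc 2 ^ s * hfin.toFinset.card = ∑ _y ∈ hfin.toFinset, 2 ^ s := by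
          rw [Finset.sum_const, smul_eq_mul, mul_comm]
      _ ≤ _ := by
        apply Finset.sum_le_sum
        intro y hy
        have hy' : y ∈ Y := hfin.mem_toFinset.1 hy
        refine (hdeg y hy').trans (le_of_eq ?_)
        unfold dg
        rw [← Set.ncard_coe_finset]
        congr 1
        ext w
        rw [Finset.coe_filter, Set.mem_setOf_eq, Set.mem_setOf_eq, hfin.mem_toFinset]
  have hne' : hfin.toFinset.Nonempty := by
    obtain ⟨y, hy⟩ := hne
    exact ⟨y, hfin.mem_toFinset.2 hy⟩
  obtain ⟨B, hB, hBs⟩ := claim G s _ hfin.toFinset le_rfl hne' h1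
  refine ⟨B, hB, fun i hi => ?_⟩
  have h := hBs i hi
  rw [hfin.coe_toFinset] at h
  exact h

end Pool.Agent.MPd439b2
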