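import Pool.Agent.Lib.MP_d439b2_co.R.Spec3

/-!
# MP_d439b2_co, row `K_5` plus a vertex of degree two: V10, layouts of the exceptional graphs
-/

set_option autoImplicit false

namespace Pool.Agent.MPd439b2

namespace rV10Aux

theorem lay_add {V : Type} [Finite V] {G : SimpleGraph V} {k : ℕ} (hk : 1 ≤ k) {A F : Set V}
    (hA : Lay G k A) (h : ∀ F' ⊆ F, (Types G (A ∪ F')).encard ≤ k) : Lay G k (A ∪ F) := by
  have key : ∀ n : ℕ, ∀ F' ⊆ F, F'.ncard = n → Lay G k (A ∪ F') := by
    intro n
    induction n with
    | zero =>
      intro F' _ h0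
      have h1 : F' = ∅ := (Set.ncard_eq_zero (Set.toFinite _)).1 h0
      subst h1
      rw [Set.union_empty]
      exact hA
    | succ n ih =>
      intro F' hF' hn
      obtain ⟨v, hv⟩ : F'.Nonempty := by
        rw [← Set.ncard_pos (Set.toFinite _)]
        omega
      have h1 := Set.ncard_sdiff_singleton_add_one hv (Set.toFinite _)
      have h2 := ih (F' \ {v}) (Set.sdiff_subset.trans hF') (by omega)
      by_cases hvA : v ∈ A
      · have e : A ∪ F' = A ∪ (F' \ {v}) := by
          ext x
          by_cases hx : x = v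
          · subst hx
            exact ⟨fun _ => Or.inl hvA, fun _ => Or.inl hvA⟩
          · constructor
            · rintro (h' | h')
              · exact Or.inl h'
              · exact Or.inr ⟨h', hx⟩
            · rintro (h' | h')
              · exact Or.inl h'
              · exact Or.inr h'.1
        rw [e]
        exact h2
      · have e : A ∪ F' = insert v (A ∪ (F' \ {v})) := by
          ext x
          by_cases hx : x = v
          · subst hx
            exact ⟨fun _ => Or.inl rfl, fun _ => Or.inr hv⟩
          · constructor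
            · rintro (h' | h')
              · exact Or.inr (Or.inl h')
              · exact Or.inr (Or.inr ⟨h', hx⟩)
            · rintro (h' | h' | h')
              · exact absurd h' hx
              · exact Or.inl h'
              · exact Or.inr h'.1
        rw [e]
        refine h2.insert hk ?_ (by rw [← e]; exact h F' hF')
        rintro (h' | h')
        · exact hvA h'
        · exact h'.2 rfl
  exact key _ F subset_rfl rfl

end rV10Aux

open rV10Aux in
theorem rV10 : S_V10 := by
  intro V _ G X v l z hv hz hinj hadj hP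
  set P : Set V := {p | p ∈ X ∧ p ≠ v ∧ ∀ i < l, p ≠ z i} with hPdef
  set S : ℕ → Set V := fun m => {x | ∃ i < m, x = z i} with hS
  -- neighbours of `z i`
  have hnz : ∀ i < l, ∀ w, (restr G X).Adj (z i) w → w ∈ P ∨ ∃ j < l, w = z j ∧
      (i = j + 1 ∨ j = i + 1 ∨ (i = 0 ∧ j = l - 1) ∨ (j = 0 ∧ i = l - 1)) := by
    intro i hi w hw
    by_cases h1 : ∃ j < l, w = z j
    · obtain ⟨j, hj, rfl⟩ := h1
      exact Or.inr ⟨j, hj, rfl, hadj i hi j hj hw.1⟩
    · push Not at h1
      refine Or.inl ⟨hw.2.2, fun h => ?_, h1⟩
      rw [h] at hw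
      exact (hz i hi).2.2 hw.1.symm
  have hzP : ∀ i < l, ∀ w ∈ P, (restr G X).Adj (z i) w := fun i hi w hw =>
    ⟨(hP w hw.1 hw.2.1 hw.2.2).2.1 i hi, (hz i hi).1, hw.1⟩
  have hvP : ∀ w, (restr G X).Adj v w ↔ w ∈ P := by
    intro w
    constructor
    · intro hw
      refine ⟨hw.2.2, fun h => ?_, fun i hi h => ?_⟩
      · rw [h] at hw
        exact hw.1.ne rfl
      · rw [h] at hw
        exact (hz i hi).2.2 hw.1
    · intro hw
      exact ⟨(hP w hw.1 hw.2.1 hw.2.2).1, hv, hw.1⟩
  -- the cycle
  have h1 : ∀ m ≤ l, Lay (restr G X) 3 (S m) := by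
    intro m
    induction m with
    | zero =>
      intro _
      have e : S 0 = ∅ := by
        rw [Set.eq_empty_iff_forall_notMem]
        rintro x ⟨i, hi, _⟩
        omega
      rw [e]
      exact Lay.empty
    | succ m ih =>
      intro hm
      have e : S (m + 1) = insert (z m) (S m) := by
        ext x
        constructor
        · rintro ⟨i, hi, rfl⟩
          by_cases h : i = m
          · left
            rw [h]
          · right
            exact ⟨i, by omega, rfl⟩
        · rintro (rfl | ⟨i, hi, rfl⟩)
          · exact ⟨m, by omega, rfl⟩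
          · exact ⟨i, by omega, rfl⟩
      have ht : Types (restr G X) (S (m + 1)) ⊆ {P, (restr G X).neighborSet (z 0) \ S (m + 1),
          (restr G X).neighborSet (z m) \ S (m + 1)} := by
        rintro T ⟨_, a, ⟨i, hi, rfl⟩, rfl⟩
        by_cases hi0 : i = 0
        · right; left
          rw [hi0]
        by_cases him : i = m
        · right; right
          rw [him]
          rfl
        left
        ext w
        constructor
        · rintro ⟨hw, hwS⟩
          rcases hnz i (by omega) w hw with h | ⟨j, hj, rfl, h⟩
          · exact h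
          · exact absurd ⟨j, by omega, rfl⟩ hwS
        · intro hw
          exact ⟨hzP i (by omega) w hw, fun ⟨j, hj, h⟩ => hw.2.2 j (by omega) h⟩
      rw [e]
      refine (ih (by omega)).insert (by norm_num) ?_ ?_
      · rintro ⟨i, hi, h⟩
        have := hinj m (by omega) i (by omega) h
        omega
      · rw [← e]
        refine (Set.encard_le_encard ht).trans ?_
        refine (Set.encard_insert_le _ _).trans ?_
        have h3 := (Set.encard_insert_le ({(restr G X).neighborSet (z m) \ S (m + 1)} : Set (Set V))
          ((restr G X).neighborSet (z 0) \ S (m + 1)))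
        rw [Set.encard_singleton] at h3
        calc _ ≤ ((1 : ℕ∞) + 1) + 1 := add_le_add_left h3 1
          _ = ((3 : ℕ) : ℕ∞) := by norm_num
  -- add `v`
  have hvS : v ∉ S l := fun ⟨i, hi, h⟩ => (hz i hi).2.1 h.symm
  have hT : ∀ F ⊆ P, Types (restr G X) (insert v (S l) ∪ F) ⊆ {P \ F} := by
    rintro F hF T ⟨hne, a, ha, rfl⟩
    rcases ha with (rfl | ⟨i, hi, rfl⟩) | ha
    · ext w
      constructor
      · rintro ⟨hw, hwS⟩
        exact ⟨(hvP w).1 hw, fun h => hwS (Or.inr h)⟩
      · rintro ⟨hw, hwF⟩
        refine ⟨(hvP w).2 hw, ?_⟩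
        rintro ((h | ⟨i, hi, h⟩) | h)
        · exact hw.2.1 h
        · exact hw.2.2 i hi h
        · exact hwF h
    · ext w
      constructor
      · rintro ⟨hw, hwS⟩
        rcases hnz i hi w hw with h | ⟨j, hj, rfl, _⟩
        · exact ⟨h, fun h' => hwS (Or.inr h')⟩
        · exact absurd (Or.inl (Or.inr ⟨j, hj, rfl⟩)) hwS
      · rintro ⟨hw, hwF⟩
        refine ⟨hzP i hi w hw, ?_⟩
        rintro ((h | ⟨i, hi, h⟩) | h)
        · exact hw.2.1 h
        · exact hw.2.2 i hi h
        · exact hwF h
    · exfalso
      obtain ⟨w, hw, hwS⟩ := hne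
      have hw' : (restr G X).Adj a w := hw
      apply hwS
      by_cases h2 : w = v
      · exact Or.inl (Or.inl h2)
      by_cases h3 : ∃ i < l, w = z i
      · exact Or.inl (Or.inr h3)
      push Not at h3
      exact absurd hw'.1 ((hP a (hF ha).1 (hF ha).2.1 (hF ha).2.2).2.2 w hw'.2.2 h2 h3)
  have hT1 : ∀ F ⊆ P, (Types (restr G X) (insert v (S l) ∪ F)).encard ≤ (3 : ℕ) := by
    intro F hF
    refine (Set.encard_le_encard (hT F hF)).trans ?_
    rw [Set.encard_singleton]
    norm_num
  have h2 : Lay (restr G X) 3 (insert v (S l)) := by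
    refine (h1 l le_rfl).insert (by norm_num) hvS ?_
    have := hT1 ∅ (Set.empty_subset _)
    rwa [Set.union_empty] at this
  have h3 := lay_add (by norm_num) h2 hT1
  have e : insert v (S l) ∪ P = X := by
    ext x
    constructor
    · rintro ((rfl | ⟨i, hi, rfl⟩) | hx)
      · exact hv
      · exact (hz i hi).1
      · exact hx.1
    · intro hx
      by_cases h4 : x = v
      · exact Or.inl (Or.inl h4)
      by_cases h5 : ∃ i < l, x = z i
      · exact Or.inl (Or.inr h5)
      push Not at h5
      exact Or.inr ⟨hx, h4, h5⟩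
  rwa [e] at h3

end Pool.Agent.MPd439b2
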