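import Pool.Agent.Lib.MP_d439b2_co.R.Spec3

/-!
# MP_d439b2_co, Spec 3, V11: sets without cut vertices
-/

set_option autoImplicit false

namespace Pool.Agent.MPd439b2

namespace rV11Aux

theorem knn_symm {V : Type} {G : SimpleGraph V} {X P Q : Set V} {n : ℕ} (h : KNN G X n P Q) :
    KNN G X n Q P := by
  obtain ⟨h1, h2, h3, h4, h5, h6, h7, h8⟩ := h
  exact ⟨h2, h1, h3.symm, h5, h4, h7, h6, fun a ha b hb => (h8 b hb a ha).symm⟩

theorem lay (hV6 : S_V6) (hV9 : S_V9) (hV10 : S_V10) (V : Type) [Finite V] (G : SimpleGraph V)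
    (X P Q Y : Set V) (v : V) (hT : Tame G X) (hI : ¬ IMS K5P G Set.univ) (hK : KNN G X 20 P Q)
    (hv : v ∈ X) (hF : v ∈ Full G X Q) (hR : Ring G Y) (hYX : Y ⊆ X)
    (hY : ∀ y ∈ Y, y ≠ v ∧ ¬ G.Adj v y) : Lay (restr G X) 3 X := by
  obtain ⟨l, z, hC, hYz, hz⟩ := (hV6 V G Y).1 hR
  have hmem : ∀ i < l, z i ∈ Y := fun i hi => by rw [hYz]; exact ⟨i, hi, rfl⟩
  have hnot : ∀ p, p ≠ v → (∀ i < l, p ≠ z i) → p ∉ insert v Y := by
    intro p hpv hpz hp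
    rcases hp with hp | hp
    · exact hpv hp
    · rw [hYz] at hp
      obtain ⟨i, hi, h⟩ := hp
      exact hpz i hi h
  refine hV10 V G X v l z hv (fun i hi => ⟨hYX (hmem i hi), hY _ (hmem i hi)⟩) hC.2.1 hz ?_
  intro p hp hpv hpz
  obtain ⟨h1, h2, h3⟩ := hV9 V G X P Q Y v p hT hI hK hF hR hYX hY hp (hnot p hpv hpz)
  exact ⟨h1, fun i hi => h3 _ (hmem i hi), fun p' hp' hp'v hp'z => h2 p' hp' (hnot p' hp'v hp'z)⟩

end rV11Aux

theorem rV11 : S_V3 → S_V4 → S_V5 → S_V6 → S_V7 → S_V9 → S_V10 → S_V11 := by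
  intro hV3 hV4 hV5 hV6 hV7 hV9 hV10
  obtain ⟨t₀, ht₀⟩ := hV4
  refine ⟨t₀, ?_⟩
  intro V _ G X B hX hI hB hBX
  have hT : Tame G X := hV3 V G X hX hI
  rcases ht₀ V G X B hT hB hBX with ⟨C, hCX, hC, hCC⟩ | ⟨P, Q, hK⟩
  · exact Or.inl (hV5 V G X C hT hI hCX hC hCC)
  · by_cases hL : LCF Gᶜ X
    · exact Or.inl hL
    · right
      unfold LCF CoF at hL
      push Not at hL
      obtain ⟨v, hv, Y₀, hY₀, hne, hdeg⟩ := hL
      have hY₀' : ∀ y ∈ Y₀, y ∈ X ∧ y ≠ v ∧ ¬ G.Adj v y := by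
        intro y hy
        obtain ⟨h1, h2⟩ := hY₀ hy
        rw [SimpleGraph.compl_adj] at h2
        exact ⟨h1, h2.1.symm, h2.2⟩
      have hdeg' : ∀ y ∈ Y₀, 2 ≤ {w | w ∈ Y₀ ∧ G.Adj y w}.ncard := by
        intro y hy
        refine le_trans (hdeg y hy) (Set.ncard_le_ncard ?_ (Set.toFinite _))
        rintro w ⟨hw, hwy, hadj⟩
        refine ⟨hw, ?_⟩
        by_contra hcon
        exact hadj ((SimpleGraph.compl_adj _ _ _).2 ⟨hwy.symm, hcon⟩)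
      obtain ⟨Y, hYY₀, hR⟩ := (hV6 V G Y₀).2.1 hne hdeg'
      have hYX : Y ⊆ X := fun y hy => (hY₀' y (hYY₀ hy)).1
      have hY : ∀ y ∈ Y, y ≠ v ∧ ¬ G.Adj v y := fun y hy => (hY₀' y (hYY₀ hy)).2
      rcases (hV7 V G X P Q hT hK).1 v hv with hF | hF
      · exact rV11Aux.lay hV6 hV9 hV10 V G X Q P Y v hT hI (rV11Aux.knn_symm hK) hv hF hR hYX hY
      · exact rV11Aux.lay hV6 hV9 hV10 V G X P Q Y v hT hI hK hv hF hR hYX hY

end Pool.Agent.MPd439b2
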