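import Pool.Agent.Lib.MP_d439b2_co.R.Spec3

/-!
# MP_d439b2_co, row `K_5` plus a vertex of degree two: V12, leaf blocks
-/

set_option autoImplicit false

namespace Pool.Agent.MPd439b2

theorem rV12 : S_V12 := by
  intro V _ G X hX hB
  -- there is a cut vertex
  have h0 : ∃ p : V × Set V, p.1 ∈ X ∧ IsComp G (X \ {p.1}) p.2 ∧ p.2 ≠ X \ {p.1} := by
    by_contra hcon
    push Not at hcon
    apply hB
    refine ⟨hX, fun x hx hne => ?_⟩
    by_contra h1
    obtain ⟨C, hC1, hC2, hC3, hC4⟩ := exists_comp_of_not_conn hne h1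
    exact hC3 (hcon (x, C) hx ⟨hC1, hC2, hC4⟩)
  obtain ⟨p₀, hp₀⟩ := h0
  obtain ⟨⟨c, K⟩, ⟨hc, hK, hKne⟩, hmin⟩ := Set.exists_min_image
    {p : V × Set V | p.1 ∈ X ∧ IsComp G (X \ {p.1}) p.2 ∧ p.2 ≠ X \ {p.1}} (fun p => p.2.ncard)
    (Set.toFinite _) ⟨p₀, hp₀⟩
  simp only at hc hK hKne hmin
  have hcK : c ∉ K := fun h => (hK.1 h).2 rfl
  have hKX : K ⊆ X := fun x hx => (hK.1 hx).1
  -- (1)
  have h1 : ∃ a ∈ K, G.Adj a c := by
    obtain ⟨b, hb, a, ha, hab⟩ := hX.2 K hKX hK.2.1.1 (fun h => hcK (h ▸ hc))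
    by_cases hac : a = c
    · exact ⟨b, hb, hac ▸ hab⟩
    · exact absurd ⟨ha.2, b, hb, hab⟩ (hK.2.2 a ⟨ha.1, hac⟩)
  have h2 : Conn G (insert c K) := hK.2.1.insert h1
  refine ⟨c, hc, K, hK, ⟨h2, fun x hx hne => ?_⟩, ?_⟩
  · -- (2)
    rcases hx with rfl | hx
    · have e : insert x K \ {x} = K := by
        ext y
        constructor
        · rintro ⟨rfl | hy, hyx⟩
          · exact absurd rfl hyx
          · exact hy
        · exact fun hy => ⟨Or.inr hy, fun h => hcK (h ▸ hy)⟩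
      rw [e]
      exact hK.2.1
    · by_contra hcon
      have hcx : c ≠ x := fun h => hcK (h ▸ hx)
      have hcY : c ∈ insert c K \ {x} := ⟨Or.inl rfl, hcx⟩
      obtain ⟨C₀, hC1, hC2, hC3, hC4⟩ := exists_comp G hcY
      have hC5 : ∃ y ∈ insert c K \ {x}, y ∉ C₀ := by
        by_contra h
        push Not at h
        exact hcon ((Set.Subset.antisymm hC1 h) ▸ hC3)
      obtain ⟨y, hy, hyC⟩ := hC5
      obtain ⟨K', hK1, hK2, hK3, hK4⟩ := exists_comp G hy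
      have hcK' : c ∉ K' := by
        intro h
        have h3 := hK3.eq_of_nb (C := K' ∩ C₀) Set.inter_subset_left ⟨c, h, hC2⟩ (by
          rintro u hu ⟨hu1, a, ha, hau⟩
          exact hC4 u (hK1 hu) ⟨fun h' => hu1 ⟨hu, h'⟩, a, ha.2, hau⟩)
        rw [← h3] at hK2
        exact hyC hK2.2
      have hK'K : K' ⊆ K := by
        intro u hu
        rcases (hK1 hu).1 with h | h
        · exact absurd (h ▸ hu) hcK'
        · exact h
      have hxX : x ∈ X := hKX hx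
      have hcomp : IsComp G (X \ {x}) K' := by
        refine ⟨fun u hu => ⟨hKX (hK'K hu), (hK1 hu).2⟩, hK3, ?_⟩
        rintro u hu ⟨hu1, a, ha, hau⟩
        by_cases huc : u = c
        · exact hK4 u ⟨Or.inl huc, hu.2⟩ ⟨hu1, a, ha, hau⟩
        · by_cases huK : u ∈ K
          · exact hK4 u ⟨Or.inr huK, hu.2⟩ ⟨hu1, a, ha, hau⟩
          · exact hK.2.2 u ⟨hu.1, huc⟩ ⟨huK, a, hK'K ha, hau⟩
      have hlt : K'.ncard < K.ncard := by
        apply Set.ncard_lt_ncard ⟨hK'K, fun h => ?_⟩ (Set.toFinite _)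
        exact (hK1 (h hx)).2 rfl
      have hge := hmin (x, K') ⟨hxX, hcomp, fun h => hcK' (by
        have h' : K' = X \ {x} := h
        rw [h']
        exact ⟨hc, hcx⟩)⟩
      simp only at hge
      omega
  · -- (3)
    obtain ⟨Z, hZ1, hZ2, hZ3, hZ4⟩ := exists_comp G (show c ∈ X \ K from ⟨hc, hcK⟩)
    have h3 : K ∪ Z = X := by
      apply hX.eq_of_nb (Set.union_subset hKX (fun z hz => (hZ1 hz).1)) ⟨c, Or.inr hZ2⟩
      rintro v hv ⟨hv1, a, ha | ha, hav⟩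
      · have hvc : v ≠ c := fun h => hv1 (Or.inr (h ▸ hZ2))
        exact hK.2.2 v ⟨hv, hvc⟩ ⟨fun h => hv1 (Or.inl h), a, ha, hav⟩
      · exact hZ4 v ⟨hv, fun h => hv1 (Or.inl h)⟩ ⟨fun h => hv1 (Or.inr h), a, ha, hav⟩
    have h4 : X \ K = Z := by
      apply Set.Subset.antisymm _ hZ1
      intro v hv
      have h5 : v ∈ K ∪ Z := h3 ▸ hv.1
      exact h5.resolve_left hv.2
    rw [h4]
    exact hZ3

end Pool.Agent.MPd439b2
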