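import Pool.Agent.Lib.MP_d439b2_co.R.Spec3

set_option autoImplicit false

namespace Pool.Agent.MPd439b2

namespace rV13Aux

variable {V : Type} {G : SimpleGraph V} {X Y : Set V} {c : V}

theorem c_mem (h : X ∩ Y = {c}) : c ∈ X ∧ c ∈ Y := by
  have h1 : c ∈ X ∩ Y := by rw [h]; rfl
  exact h1

theorem eq_c (h : X ∩ Y = {c}) {w : V} (hX : w ∈ X) (hY : w ∈ Y) : w = c := by
  have h1 : w ∈ X ∩ Y := ⟨hX, hY⟩
  rw [h] at h1
  exact h1

/-- neighbours of a vertex of `Y` other than `c` are in `Y` -/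
theorem inY (h : X ∩ Y = {c}) (hno : ∀ a ∈ X \ {c}, ∀ b ∈ Y \ {c}, ¬ G.Adj a b) {a w : V}
    (haY : a ∈ Y) (hac : a ≠ c) (hw : (restr G (X ∪ Y)).Adj a w) : w ∈ Y := by
  obtain ⟨h1, _, h2⟩ := hw
  rcases h2 with h2 | h2
  · by_contra h3
    refine hno w ⟨h2, fun h4 => h3 ?_⟩ a ⟨haY, hac⟩ h1.symm
    have h5 : w = c := h4
    rw [h5]
    exact (c_mem h).2
  · exact h2

/-- neighbours of a vertex of `X` other than `c` are in `X` -/
theorem inX (h : X ∩ Y = {c}) (hno : ∀ a ∈ X \ {c}, ∀ b ∈ Y \ {c}, ¬ G.Adj a b) {a w : V}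
    (haX : a ∈ X) (hac : a ≠ c) (hw : (restr G (X ∪ Y)).Adj a w) : w ∈ X := by
  obtain ⟨h1, _, h2⟩ := hw
  rcases h2 with h2 | h2
  · exact h2
  · by_contra h3
    refine hno a ⟨haX, hac⟩ w ⟨h2, fun h4 => h3 ?_⟩ h1
    have h5 : w = c := h4
    rw [h5]
    exact (c_mem h).1

theorem typesY (h : X ∩ Y = {c}) (hno : ∀ a ∈ X \ {c}, ∀ b ∈ Y \ {c}, ¬ G.Adj a b) {S : Set V}
    (hS : S ⊆ Y) : Types (restr G (X ∪ Y)) S ⊆
      insert ((restr G (X ∪ Y)).neighborSet c \ S) (Types (restr G Y) S) := by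
  rintro T ⟨hne, a, ha, rfl⟩
  by_cases hac : a = c
  · left
    rw [hac]
  · right
    refine ⟨hne, a, ha, ?_⟩
    ext w
    constructor
    · rintro ⟨h1, h2⟩
      have h3 : (restr G (X ∪ Y)).Adj a w := h1
      exact ⟨show (restr G Y).Adj a w from ⟨h3.1, hS ha, inY h hno (hS ha) hac h3⟩, h2⟩
    · rintro ⟨h1, h2⟩
      have h3 : (restr G Y).Adj a w := h1
      exact ⟨show (restr G (X ∪ Y)).Adj a w from ⟨h3.1, Or.inr h3.2.1, Or.inr h3.2.2⟩, h2⟩

theorem layY (h : X ∩ Y = {c}) (hno : ∀ a ∈ X \ {c}, ∀ b ∈ Y \ {c}, ¬ G.Adj a b) {k : ℕ}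
    {S : Set V} (hL : Lay (restr G Y) k S) (hS : S ⊆ Y) : Lay (restr G (X ∪ Y)) (k + 1) S := by
  have key : ∀ S' : Set V, S' ⊆ Y → (Types (restr G Y) S').encard ≤ k →
      (Types (restr G (X ∪ Y)) S').encard ≤ ((k + 1 : ℕ) : ℕ∞) := by
    intro S' hS' hk
    refine (Set.encard_le_encard (typesY h hno hS')).trans ?_
    refine (Set.encard_insert_le _ _).trans ?_
    push_cast
    gcongr
  induction hL with
  | empty => exact Lay.empty
  | single v hv => exact Lay.single v (key _ hS hv)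
  | @union A B _ _ hd ht ihA ihB =>
    exact Lay.union (ihA (Set.subset_union_left.trans hS)) (ihB (Set.subset_union_right.trans hS))
      hd (key _ hS ht)

theorem typesX (h : X ∩ Y = {c}) (hno : ∀ a ∈ X \ {c}, ∀ b ∈ Y \ {c}, ¬ G.Adj a b) {S : Set V}
    (hS : S ⊆ X) (hc : c ∉ S) : Types (restr G (X ∪ Y)) S ⊆ Types (restr G X) S := by
  rintro T ⟨hne, a, ha, rfl⟩
  have hac : a ≠ c := fun h1 => hc (h1 ▸ ha)
  refine ⟨hne, a, ha, ?_⟩
  ext w
  constructor
  · rintro ⟨h1, h2⟩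
    have h3 : (restr G (X ∪ Y)).Adj a w := h1
    exact ⟨show (restr G X).Adj a w from ⟨h3.1, hS ha, inX h hno (hS ha) hac h3⟩, h2⟩
  · rintro ⟨h1, h2⟩
    have h3 : (restr G X).Adj a w := h1
    exact ⟨show (restr G (X ∪ Y)).Adj a w from ⟨h3.1, Or.inl h3.2.1, Or.inl h3.2.2⟩, h2⟩

theorem typesXY (h : X ∩ Y = {c}) (hno : ∀ a ∈ X \ {c}, ∀ b ∈ Y \ {c}, ¬ G.Adj a b) {S : Set V}
    (hS : S ⊆ X) (hc : c ∈ S) : Types (restr G (X ∪ Y)) (S ∪ Y) ⊆ Types (restr G X) S := by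
  rintro T ⟨hne, a, ha, rfl⟩
  have haS : a ∈ S := by
    rcases ha with ha | ha
    · exact ha
    · by_cases hac : a = c
      · rw [hac]
        exact hc
      · exfalso
        obtain ⟨w, hw, hwn⟩ := hne
        exact hwn (Or.inr (inY h hno ha hac hw))
  have e : (restr G (X ∪ Y)).neighborSet a \ (S ∪ Y) = (restr G X).neighborSet a \ S := by
    ext w
    constructor
    · rintro ⟨h1, h2⟩
      have h3 : (restr G (X ∪ Y)).Adj a w := h1
      have hwX : w ∈ X := by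
        rcases h3.2.2 with h4 | h4
        · exact h4
        · exact absurd (Or.inr h4) h2
      exact ⟨show (restr G X).Adj a w from ⟨h3.1, hS haS, hwX⟩, fun h4 => h2 (Or.inl h4)⟩
    · rintro ⟨h1, h2⟩
      have h3 : (restr G X).Adj a w := h1
      refine ⟨show (restr G (X ∪ Y)).Adj a w from ⟨h3.1, Or.inl h3.2.1, Or.inl h3.2.2⟩, ?_⟩
      rintro (h4 | h4)
      · exact h2 h4
      · have h5 := eq_c h h3.2.2 h4
        rw [h5] at h2
        exact h2 hc
  rw [e] at hne ⊢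
  exact ⟨hne, a, haS, rfl⟩

theorem layX (h : X ∩ Y = {c}) (hno : ∀ a ∈ X \ {c}, ∀ b ∈ Y \ {c}, ¬ G.Adj a b) {k : ℕ}
    (hY : Lay (restr G Y) k Y) {S : Set V} (hL : Lay (restr G X) (k + 1) S) (hS : S ⊆ X) :
    (c ∉ S → Lay (restr G (X ∪ Y)) (k + 1) S) ∧
      (c ∈ S → Lay (restr G (X ∪ Y)) (k + 1) (S ∪ Y)) := by
  induction hL with
  | empty => exact ⟨fun _ => Lay.empty, fun h1 => absurd h1 (Set.notMem_empty c)⟩
  | single v hv =>
    refine ⟨fun hc => Lay.single v ((Set.encard_le_encard (typesX h hno hS hc)).trans hv),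
      fun hc => ?_⟩
    have e : ({v} : Set V) ∪ Y = Y := by
      apply Set.union_eq_right.mpr
      intro w hw
      have h1 : w = v := hw
      have h2 : c = v := hc
      rw [h1, ← h2]
      exact (c_mem h).2
    rw [e]
    exact layY h hno hY (le_refl Y)
  | @union A B _ _ hd ht ihA ihB =>
    obtain ⟨a1, a2⟩ := ihA (Set.subset_union_left.trans hS)
    obtain ⟨b1, b2⟩ := ihB (Set.subset_union_right.trans hS)
    refine ⟨fun hc => Lay.union (a1 fun h1 => hc (Or.inl h1)) (b1 fun h1 => hc (Or.inr h1)) hd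
      ((Set.encard_le_encard (typesX h hno hS hc)).trans ht), fun hc => ?_⟩
    have hbd := (Set.encard_le_encard (typesXY h hno hS hc)).trans ht
    rcases hc with hc | hc
    · have hcB : c ∉ B := fun h1 => (Set.disjoint_left.mp hd) hc h1
      have e : A ∪ B ∪ Y = (A ∪ Y) ∪ B := Set.union_right_comm A B Y
      rw [e] at hbd ⊢
      refine Lay.union (a2 hc) (b1 hcB) ?_ hbd
      rw [Set.disjoint_left]
      rintro w (hw | hw) hwB
      · exact (Set.disjoint_left.mp hd) hw hwB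
      · have h5 := eq_c h (hS (Or.inr hwB)) hw
        rw [h5] at hwB
        exact hcB hwB
    · have hcA : c ∉ A := fun h1 => (Set.disjoint_left.mp hd) h1 hc
      have e : A ∪ B ∪ Y = A ∪ (B ∪ Y) := Set.union_assoc A B Y
      rw [e] at hbd ⊢
      refine Lay.union (a1 hcA) (b2 hc) ?_ hbd
      rw [Set.disjoint_left]
      rintro w hwA (hw | hw)
      · exact (Set.disjoint_left.mp hd) hwA hw
      · have h5 := eq_c h (hS (Or.inl hwA)) hw
        rw [h5] at hwA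
        exact hcA hwA

end rV13Aux

theorem rV13 : S_V13 := by
  intro V G k X Y c h hno hX hY
  exact (rV13Aux.layX h hno hY hX (le_refl X)).2 (rV13Aux.c_mem h).1

end Pool.Agent.MPd439b2
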