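import Pool.Agent.Lib.MP_d439b2_co.R.Spec3

/-!
# MP_d439b2_co, V14: layouts from layouts of the blocks
-/

set_option autoImplicit false

namespace Pool.Agent.MPd439b2

namespace rV14Aux

theorem conn_case (hV12 : S_V12) (hV13 : S_V13) {V : Type} [Finite V] (G : SimpleGraph V)
    (k : ℕ) : ∀ (n : ℕ) (X : Set V), X.ncard ≤ n → Conn G X →
      (∀ Y ⊆ X, Blk G Y → Lay (restr G Y) k Y) → Lay (restr G X) (k + 1) X := by
  intro n
  induction n with
  | zero =>
    intro X hn hX _
    have h0 : X = ∅ := by
      rw [← Set.ncard_eq_zero (Set.toFinite X)]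
      omega
    exact absurd hX.1 (by rw [h0]; exact Set.not_nonempty_empty)
  | succ n ih =>
    intro X hn hX hB
    by_cases hb : Blk G X
    · exact (hB X subset_rfl hb).mono (Nat.le_succ k)
    obtain ⟨c, hc, K, hK, hKb, hXK⟩ := hV12 V G X hX hb
    obtain ⟨hKX, hKc, hKn⟩ := hK
    have hcK : c ∉ K := fun h => (hKX h).2 rfl
    have hKX' : K ⊆ X := fun x hx => (hKX hx).1
    have hlt : (X \ K).ncard < X.ncard := by
      apply Set.ncard_lt_ncard _ (Set.toFinite X)
      refine ⟨Set.diff_subset, fun h => ?_⟩
      obtain ⟨x, hx⟩ := hKc.1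
      exact (h (hKX' hx)).2 hx
    have h1 := ih (X \ K) (by omega) hXK (fun Y hY => hB Y (hY.trans Set.diff_subset))
    have h2 := hB (insert c K) (Set.insert_subset hc hKX') hKb
    have h3 := hV13 V G k (X \ K) (insert c K) c ?_ ?_ h1 h2
    · have hU : X \ K ∪ insert c K = X := by
        ext x
        constructor
        · rintro (hx | hx)
          · exact hx.1
          · rcases hx with rfl | hx
            · exact hc
            · exact hKX' hx
        · intro hx
          by_cases hxK : x ∈ K
          · exact Or.inr (Or.inr hxK)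
          · exact Or.inl ⟨hx, hxK⟩
      rw [hU] at h3
      exact h3
    · ext x
      constructor
      · rintro ⟨hx1, hx2⟩
        rcases hx2 with rfl | hx2
        · rfl
        · exact absurd hx2 hx1.2
      · intro hx
        rw [Set.mem_singleton_iff] at hx
        subst hx
        exact ⟨⟨hc, hcK⟩, Or.inl rfl⟩
    · intro a ha b hb hab
      have hbK : b ∈ K := by
        rcases hb.1 with rfl | h
        · exact absurd rfl hb.2
        · exact h
      exact hKn a ⟨ha.1.1, ha.2⟩ ⟨ha.1.2, b, hbK, hab.symm⟩

end rV14Aux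

open rV14Aux in
theorem rV14 : S_V12 → S_V13 → S_Y5 → S_V14 := by
  intro hV12 hV13 hY5 V _ G k X hB
  apply hY5 V G (k + 1) X (Nat.succ_le_succ (Nat.zero_le k))
  intro K hK
  exact conn_case hV12 hV13 G k K.ncard K le_rfl hK.2.1
    (fun Y hY => hB Y (hY.trans hK.1))

end Pool.Agent.MPd439b2
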