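import Pool.Agent.Lib.MP_d439b2_co.R.Spec3

/-!
# MP_d439b2_co, row `K_5` plus a vertex of degree two, module V2: a cycle and two disjoint touching sets
-/

set_option autoImplicit false

namespace Pool.Agent.MPd439b2

namespace rV2Aux

variable {V : Type}

/-- the vertices `z i, ..., z j` -/
def Pt (z : ℕ → V) (i j : ℕ) : Set V := {y | ∃ m, i ≤ m ∧ m ≤ j ∧ y = z m}

theorem pt_mem (z : ℕ → V) {i j m : ℕ} (h1 : i ≤ m) (h2 : m ≤ j) : z m ∈ Pt z i j := ⟨m, h1, h2, rfl⟩

theorem pt_conn {G : SimpleGraph V} (z : ℕ → V) (i n : ℕ)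
    (h : ∀ m, i ≤ m → m < i + n → G.Adj (z m) (z (m + 1))) : Conn G (Pt z i (i + n)) := by
  induction n with
  | zero =>
    have h1 : Pt z i (i + 0) = {z i} := by
      ext y
      simp only [Pt, Set.mem_ofPred_eq, Set.mem_singleton_iff, Nat.add_zero]
      constructor
      · rintro ⟨m, h1, h2, rfl⟩
        have : m = i := by omega
        rw [this]
      · intro hy
        exact ⟨i, le_rfl, le_rfl, hy⟩
    rw [h1]
    exact Conn.singleton G (z i)
  | succ n ih =>
    have h1 : Pt z i (i + (n + 1)) = insert (z (i + n + 1)) (Pt z i (i + n)) := by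
      ext y
      simp only [Pt, Set.mem_ofPred_eq, Set.mem_insert_iff]
      constructor
      · rintro ⟨m, h1, h2, rfl⟩
        rcases Nat.lt_or_ge (i + n) m with h3 | h3
        · left
          have : m = i + n + 1 := by omega
          rw [this]
        · right
          exact ⟨m, h1, h3, rfl⟩
      · rintro (rfl | ⟨m, h1, h2, rfl⟩)
        · exact ⟨i + n + 1, by omega, by omega, rfl⟩
        · exact ⟨m, h1, by omega, rfl⟩
    rw [h1]
    refine (ih fun m hm1 hm2 => h m hm1 (by omega)).insert ?_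
    exact ⟨z (i + n), pt_mem z (by omega) le_rfl, h (i + n) (by omega) (by omega)⟩

theorem pt_conn' {G : SimpleGraph V} (z : ℕ → V) {i j : ℕ} (hij : i ≤ j)
    (h : ∀ m, i ≤ m → m < j → G.Adj (z m) (z (m + 1))) : Conn G (Pt z i j) := by
  obtain ⟨n, rfl⟩ := Nat.exists_eq_add_of_le hij
  exact pt_conn z i n h

/-- six sets forming a model of `K5P` -/
theorem ims_K5P {G : SimpleGraph V} {A B X Y Z D : Set V}
    (cA : Conn G A) (cB : Conn G B) (cX : Conn G X) (cY : Conn G Y) (cZ : Conn G Z) (cD : Conn G D)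
    (dAB : Disjoint A B) (dAX : Disjoint A X) (dAY : Disjoint A Y) (dAZ : Disjoint A Z)
    (dAD : Disjoint A D) (dBX : Disjoint B X) (dBY : Disjoint B Y) (dBZ : Disjoint B Z)
    (dBD : Disjoint B D) (dXY : Disjoint X Y) (dXZ : Disjoint X Z) (dXD : Disjoint X D)
    (dYZ : Disjoint Y Z) (dYD : Disjoint Y D) (dZD : Disjoint Z D)
    (tAB : Tch G A B) (tAX : Tch G A X) (tAY : Tch G A Y) (tAZ : Tch G A Z) (tAD : Tch G A D)
    (tBX : Tch G B X) (tBY : Tch G B Y) (tBZ : Tch G B Z) (tBD : Tch G B D)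
    (tXY : Tch G X Y) (tXZ : Tch G X Z) (tYZ : Tch G Y Z)
    (nXD : ¬ Tch G X D) (nYD : ¬ Tch G Y D) (nZD : ¬ Tch G Z D) : IMS K5P G Set.univ := by
  refine ⟨![A, B, X, Y, Z, D], fun w => Set.subset_univ _, ?_, ?_, ?_⟩
  · intro w; fin_cases w <;> simpa
  · intro w w' hw
    fin_cases w <;> fin_cases w' <;> first
      | exact absurd rfl hw
      | assumption
      | (apply Disjoint.symm; assumption)
  · intro w w' hw
    have n1 : ¬ Tch G D X := fun h => nXD h.symm
    have n2 : ¬ Tch G D Y := fun h => nYD h.symm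
    have n3 : ¬ Tch G D Z := fun h => nZD h.symm
    fin_cases w <;> fin_cases w' <;> first
      | exact absurd rfl hw
      | (refine iff_of_true ⟨by decide, by decide⟩ ?_; assumption)
      | (refine iff_of_true ⟨by decide, by decide⟩ ?_; apply Tch.symm; assumption)
      | (refine iff_of_false (fun h => absurd h.2 (by decide)) ?_; assumption)

end rV2Aux

open rV2Aux in
theorem rV2 : S_V2 := by
  intro V G l z v A B i j k hC hij hjk hkl cA cB dAB tAB hz hvA hvB tvA tvB ht
  obtain ⟨hl, hinj, hadj, hlast⟩ := hC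
  have hdA : ∀ a b, b < l → Disjoint A (Pt z a b) := by
    intro a b hb
    rw [Set.disjoint_left]
    rintro y hy ⟨m, h1, h2, rfl⟩
    exact (hz m (by omega)).1 hy
  have hdB : ∀ a b, b < l → Disjoint B (Pt z a b) := by
    intro a b hb
    rw [Set.disjoint_left]
    rintro y hy ⟨m, h1, h2, rfl⟩
    exact (hz m (by omega)).2.1 hy
  have hdV : ∀ a b, b < l → Disjoint (Pt z a b) {v} := by
    intro a b hb
    rw [Set.disjoint_left]
    rintro y ⟨m, h1, h2, rfl⟩ hy
    exact (hz m (by omega)).2.2.1 hy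
  have hnV : ∀ a b, b < l → ¬ Tch G (Pt z a b) {v} := by
    rintro a b hb ⟨y, ⟨m, h1, h2, rfl⟩, w, rfl, hw⟩
    exact (hz m (by omega)).2.2.2 hw.symm
  have hdP : ∀ a b c d, b < c → d < l → Disjoint (Pt z a b) (Pt z c d) := by
    intro a b c d hbc hd
    rw [Set.disjoint_left]
    rintro y ⟨m, h1, h2, rfl⟩ ⟨m', h3, h4, h5⟩
    have := hinj m (by omega) m' (by omega) h5
    omega
  have hcP : ∀ a b, a ≤ b → b < l → Conn G (Pt z a b) := fun a b hab hb =>
    pt_conn' z hab fun m _ hm => hadj m (by omega)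
  have htP : ∀ a b d, a ≤ b → b + 1 ≤ d → d < l → Tch G (Pt z a b) (Pt z (b + 1) d) := fun a b d hab hbd hd =>
    Tch.of_adj (hadj b (by omega)) (pt_mem z hab le_rfl) (pt_mem z le_rfl hbd)
  have htA : ∀ a b m, a ≤ m → m ≤ b → (m = i ∨ m = j ∨ m = k) → Tch G A (Pt z a b) := by
    intro a b m h1 h2 h3
    exact ((ht m h3).1.mono (Set.singleton_subset_iff.2 (pt_mem z h1 h2)) subset_rfl).symm
  have htB : ∀ a b m, a ≤ m → m ≤ b → (m = i ∨ m = j ∨ m = k) → Tch G B (Pt z a b) := by
    intro a b m h1 h2 h3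
    exact ((ht m h3).2.mono (Set.singleton_subset_iff.2 (pt_mem z h1 h2)) subset_rfl).symm
  have hdAv : Disjoint A {v} := Set.disjoint_singleton_right.2 hvA
  have hdBv : Disjoint B {v} := Set.disjoint_singleton_right.2 hvB
  refine ims_K5P (A := A) (B := B) (X := Pt z 0 i) (Y := Pt z (i + 1) j) (Z := Pt z (j + 1) (l - 1))
    (D := {v}) cA cB (hcP _ _ (by omega) (by omega)) (hcP _ _ (by omega) (by omega))
    (hcP _ _ (by omega) (by omega)) (Conn.singleton G v) dAB (hdA _ _ (by omega)) (hdA _ _ (by omega))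
    (hdA _ _ (by omega)) hdAv (hdB _ _ (by omega)) (hdB _ _ (by omega)) (hdB _ _ (by omega)) hdBv
    (hdP _ _ _ _ (by omega) (by omega)) (hdP _ _ _ _ (by omega) (by omega)) (hdV _ _ (by omega))
    (hdP _ _ _ _ (by omega) (by omega)) (hdV _ _ (by omega)) (hdV _ _ (by omega)) tAB
    (htA _ _ i (by omega) le_rfl (Or.inl rfl)) (htA _ _ j (by omega) le_rfl (Or.inr (Or.inl rfl)))
    (htA _ _ k (by omega) (by omega) (Or.inr (Or.inr rfl))) tvA.symm
    (htB _ _ i (by omega) le_rfl (Or.inl rfl)) (htB _ _ j (by omega) le_rfl (Or.inr (Or.inl rfl)))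
    (htB _ _ k (by omega) (by omega) (Or.inr (Or.inr rfl))) tvB.symm
    (htP _ _ _ (by omega) (by omega) (by omega)) ?_ (htP _ _ _ (by omega) (by omega) (by omega))
    (hnV _ _ (by omega)) (hnV _ _ (by omega)) (hnV _ _ (by omega))
  exact Tch.of_adj hlast.symm (pt_mem z le_rfl (by omega)) (pt_mem z (by omega) le_rfl)

end Pool.Agent.MPd439b2
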