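import Pool.Agent.Lib.MP_d439b2_co.R.Spec3

/-!
# MP_d439b2_co, row `K_5` plus a vertex of degree two, module V3: sets without cut vertices are tame
-/

set_option autoImplicit false

namespace Pool.Agent.MPd439b2

namespace rV3Aux

variable {V : Type} {G : SimpleGraph V}

/-- a model of `K5P` from six sets -/
theorem ims {P₀ P₁ Q₂ Q₃ Q₄ P₅ : Set V}
    (c0 : Conn G P₀) (c1 : Conn G P₁) (c2 : Conn G Q₂) (c3 : Conn G Q₃) (c4 : Conn G Q₄)
    (c5 : Conn G P₅)
    (d01 : Disjoint P₀ P₁) (d02 : Disjoint P₀ Q₂) (d03 : Disjoint P₀ Q₃) (d04 : Disjoint P₀ Q₄)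
    (d05 : Disjoint P₀ P₅) (d12 : Disjoint P₁ Q₂) (d13 : Disjoint P₁ Q₃) (d14 : Disjoint P₁ Q₄)
    (d15 : Disjoint P₁ P₅) (d23 : Disjoint Q₂ Q₃) (d24 : Disjoint Q₂ Q₄) (d25 : Disjoint Q₂ P₅)
    (d34 : Disjoint Q₃ Q₄) (d35 : Disjoint Q₃ P₅) (d45 : Disjoint Q₄ P₅)
    (t01 : Tch G P₀ P₁) (t02 : Tch G P₀ Q₂) (t03 : Tch G P₀ Q₃) (t04 : Tch G P₀ Q₄)
    (t05 : Tch G P₀ P₅) (t12 : Tch G P₁ Q₂) (t13 : Tch G P₁ Q₃) (t14 : Tch G P₁ Q₄)
    (t15 : Tch G P₁ P₅) (t23 : Tch G Q₂ Q₃) (t24 : Tch G Q₂ Q₄) (t34 : Tch G Q₃ Q₄)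
    (n25 : ¬ Tch G Q₂ P₅) (n35 : ¬ Tch G Q₃ P₅) (n45 : ¬ Tch G Q₄ P₅) :
    IMS K5P G Set.univ := by
  refine ⟨![P₀, P₁, Q₂, Q₃, Q₄, P₅], fun w => Set.subset_univ _, ?_, ?_, ?_⟩
  · intro w
    fin_cases w
    · exact c0
    · exact c1
    · exact c2
    · exact c3
    · exact c4
    · exact c5
  · have key : ∀ w w' : Fin 6, w < w' →
        Disjoint ((![P₀, P₁, Q₂, Q₃, Q₄, P₅] : Fin 6 → Set V) w)
          ((![P₀, P₁, Q₂, Q₃, Q₄, P₅] : Fin 6 → Set V) w') := by
      intro w w' hw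
      fin_cases w <;> fin_cases w' <;> first
        | exact absurd hw (by decide)
        | assumption
    intro w w' hw
    rcases lt_or_gt_of_ne hw with h | h
    · exact key w w' h
    · exact (key w' w h).symm
  · have key : ∀ w w' : Fin 6, w < w' →
        (K5P.Adj w w' ↔ Tch G ((![P₀, P₁, Q₂, Q₃, Q₄, P₅] : Fin 6 → Set V) w)
          ((![P₀, P₁, Q₂, Q₃, Q₄, P₅] : Fin 6 → Set V) w')) := by
      intro w w' hw
      fin_cases w <;> fin_cases w' <;> first
        | exact absurd hw (by decide)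
        | exact iff_of_true (by simp [K5P]) (by assumption)
        | exact iff_of_false (by simp [K5P]) (by assumption)
    intro w w' hw
    rcases lt_or_gt_of_ne hw with h | h
    · exact key w w' h
    · rw [SimpleGraph.adj_comm, tch_comm]
      exact key w' w h

/-- three different elements of a finite set -/
theorem three {s : Finset ℕ} (h : 3 ≤ s.card) : ∃ c ∈ s, ∃ d ∈ s, ∃ e ∈ s, c ≠ d ∧ c ≠ e ∧ d ≠ e := by
  obtain ⟨c, d, e, hc, hd, he, h1, h2, h3⟩ := Finset.two_lt_card_iff.mp (show 2 < s.card from h)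
  exact ⟨c, hc, d, hd, e, he, h1, h2, h3⟩

/-- two sets of the model, `P₅` and three other sets -/
theorem ims' {I : Finset ℕ} {B : ℕ → Set V} (hB : Mdl G I B) {P₀ P₁ P₅ : Set V}
    (c0 : Conn G P₀) (c1 : Conn G P₁) (c5 : Conn G P₅) (d01 : Disjoint P₀ P₁)
    (d05 : Disjoint P₀ P₅) (d15 : Disjoint P₁ P₅) (t01 : Tch G P₀ P₁) (t05 : Tch G P₀ P₅)
    (t15 : Tch G P₁ P₅) (J : Finset ℕ) (hJ : J ⊆ I) (hJc : 3 ≤ J.card)
    (h : ∀ i ∈ J, Disjoint P₀ (B i) ∧ Disjoint P₁ (B i) ∧ Disjoint (B i) P₅ ∧ Tch G P₀ (B i) ∧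
      Tch G P₁ (B i) ∧ ¬ Tch G (B i) P₅) : IMS K5P G Set.univ := by
  obtain ⟨c, hc, d, hd, e, he, hcd, hce, hde⟩ := three hJc
  have hcI := hJ hc
  have hdI := hJ hd
  have heI := hJ he
  obtain ⟨c02, c12, c25, ct0, ct1, cn⟩ := h c hc
  obtain ⟨d02, d12, d25, dt0, dt1, dn⟩ := h d hd
  obtain ⟨e02, e12, e25, et0, et1, en⟩ := h e he
  exact ims c0 c1 (hB.1 c hcI) (hB.1 d hdI) (hB.1 e heI) c5 d01 c02 d02 e02 d05 c12 d12 e12 d15
    (hB.2 c hcI d hdI hcd).1 (hB.2 c hcI e heI hce).1 c25 (hB.2 d hdI e heI hde).1 d25 e25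
    t01 ct0 dt0 et0 t05 ct1 dt1 et1 t15
    (hB.2 c hcI d hdI hcd).2 (hB.2 c hcI e heI hce).2 (hB.2 d hdI e heI hde).2 cn dn en

theorem mdl_mono {I J : Finset ℕ} {B : ℕ → Set V} (hB : Mdl G I B) (h : J ⊆ I) : Mdl G J B :=
  ⟨fun i hi => hB.1 i (h hi), fun i hi j hj hij => hB.2 i (h hi) j (h hj) hij⟩

/-- (a) -/
theorem few {I : Finset ℕ} {B : ℕ → Set V} (hB : Mdl G I B) (hK : ¬ IMS K5P G Set.univ) {D : Set V}
    (hD : Conn G D) (hdis : ∀ i ∈ I, Disjoint D (B i)) (h2 : 2 ≤ (tau G I B D).card) :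
    (I \ tau G I B D).card ≤ 2 := by
  by_contra hcon
  apply hK
  obtain ⟨a, ha, b, hb, hab⟩ := Finset.one_lt_card.mp (show 1 < (tau G I B D).card from h2)
  rw [mem_tau] at ha hb
  refine ims' hB (hB.1 a ha.1) (hB.1 b hb.1) hD (hB.2 a ha.1 b hb.1 hab).1 (hdis a ha.1).symm
    (hdis b hb.1).symm (hB.2 a ha.1 b hb.1 hab).2 ha.2.symm hb.2.symm (I \ tau G I B D)
    Finset.sdiff_subset (by omega) ?_
  intro i hi
  rw [Finset.mem_sdiff, mem_tau] at hi
  have hn : ¬ Tch G D (B i) := fun h => hi.2 ⟨hi.1, h⟩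
  have hia : a ≠ i := by
    rintro rfl
    exact hn ha.2
  have hib : b ≠ i := by
    rintro rfl
    exact hn hb.2
  exact ⟨(hB.2 a ha.1 i hi.1 hia).1, (hB.2 b hb.1 i hi.1 hib).1, (hdis i hi.1).symm,
    (hB.2 a ha.1 i hi.1 hia).2, (hB.2 b hb.1 i hi.1 hib).2, fun h => hn h.symm⟩

theorem card_split (I : Finset ℕ) (B : ℕ → Set V) (D : Set V) :
    (I \ tau G I B D).card + (tau G I B D).card = I.card := by
  apply Finset.card_sdiff_add_card_eq_card
  intro i hi
  exact (mem_tau.mp hi).1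

/-- (a), contrapositive -/
theorem few' {I : Finset ℕ} {B : ℕ → Set V} (hB : Mdl G I B) (hK : ¬ IMS K5P G Set.univ) {D : Set V}
    (hD : Conn G D) (hdis : ∀ i ∈ I, Disjoint D (B i)) :
    (tau G I B D).card ≤ 1 ∨ I.card ≤ (tau G I B D).card + 2 := by
  by_cases h : (tau G I B D).card ≤ 1
  · exact Or.inl h
  · right
    have h1 := few hB hK hD hdis (by omega)
    have h2 := card_split (G := G) I B D
    omega

/-- the vertices outside the model touching at most one of its sets -/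
def F (G : SimpleGraph V) (X : Set V) (I : Finset ℕ) (B : ℕ → Set V) : Set V :=
  {x | x ∈ X ∧ (∀ i ∈ I, x ∉ B i) ∧ (tau G I B {x}).card ≤ 1}

/-- (b) -/
theorem compOne [Finite V] {X : Set V} {I : Finset ℕ} {B : ℕ → Set V} (hB : Mdl G I B)
    (hI : 5 ≤ I.card) (hK : ¬ IMS K5P G Set.univ) {K : Set V} (hKF : K ⊆ F G X I B)
    (hKc : Conn G K) : (tau G I B K).card ≤ 1 := by
  classical
  obtain ⟨x, hx⟩ := hKc.1
  let 𝒮 : Set (Set V) := {D | D ⊆ K ∧ Conn G D ∧ (tau G I B D).card ≤ 1}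
  have hne : 𝒮.Nonempty :=
    ⟨{x}, Set.singleton_subset_iff.mpr hx, Conn.singleton G x, (hKF hx).2.2⟩
  obtain ⟨D, hD, hmax⟩ := Set.exists_max_image 𝒮 Set.ncard (Set.toFinite _) hne
  by_cases hDK : D = K
  · rw [← hDK]; exact hD.2.2
  exfalso
  obtain ⟨b, hb, y, hy, hby⟩ := hKc.2 D hD.1 hD.2.1.1 hDK
  have hc : Conn G (insert y D) := hD.2.1.insert ⟨b, hb, hby⟩
  have hsub : insert y D ⊆ K := Set.insert_subset hy.1 hD.1
  have h1 : ¬ (tau G I B (insert y D)).card ≤ 1 := by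
    intro h
    have h2 := hmax (insert y D) ⟨hsub, hc, h⟩
    rw [Set.ncard_insert_of_notMem hy.2 (Set.toFinite _)] at h2
    omega
  have h3 : tau G I B (insert y D) ⊆ tau G I B {y} ∪ tau G I B D := by
    intro i hi
    rw [mem_tau] at hi
    obtain ⟨hi, a, ha, c, hci, hac⟩ := hi
    rw [Finset.mem_union, mem_tau, mem_tau]
    rcases ha with hay | ha
    · exact Or.inl ⟨hi, a, hay, c, hci, hac⟩
    · exact Or.inr ⟨hi, a, ha, c, hci, hac⟩
  have h4 : (tau G I B (insert y D)).card ≤ 2 := by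
    have h5 := Finset.card_le_card h3
    have h6 := Finset.card_union_le (tau G I B {y}) (tau G I B D)
    have h7 := hD.2.2
    have h8 := (hKF hy.1).2.2
    omega
  have hdis : ∀ i ∈ I, Disjoint (insert y D) (B i) := by
    intro i hi
    rw [Set.disjoint_left]
    intro z hz
    exact (hKF (hsub hz)).2.1 i hi
  rcases few' hB hK hc hdis with h | h
  · exact h1 h
  · omega

/-- (c), the model -/
theorem clash {I : Finset ℕ} {B : ℕ → Set V} (hB : Mdl G I B)
    (hK : ¬ IMS K5P G Set.univ) {K P : Set V} {u : V} {f : ℕ} (hKc : Conn G K)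
    (hKd : ∀ i ∈ I, Disjoint K (B i)) (hu : u ∈ nb G K) (hui : ∀ i ∈ I, u ∉ B i) (hf : f ∈ I)
    (huf : Tch G {u} (B f)) (hP : Conn G P) (hPu : u ∉ P) (hPK : Disjoint P K)
    (hPf : Disjoint P (B f)) (htP : Tch G P (B f)) (htK : Tch G P K) (J : Finset ℕ) (hJ : J ⊆ I)
    (hJf : f ∉ J) (hJc : 3 ≤ J.card)
    (hJP : ∀ i ∈ J, Disjoint P (B i) ∧ Tch G P (B i) ∧ ¬ Tch G K (B i)) : False := by
  apply hK
  obtain ⟨huK, k, hk, hku⟩ := hu
  have hc0 : Conn G ({u} ∪ B f) := (Conn.singleton G u).union (hB.1 f hf) (Or.inr huf)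
  refine ims' hB hc0 hP hKc ?_ ?_ hPK ?_ ?_ htK J hJ hJc ?_
  · rw [Set.disjoint_union_left]
    exact ⟨Set.disjoint_singleton_left.mpr hPu, hPf.symm⟩
  · rw [Set.disjoint_union_left]
    exact ⟨Set.disjoint_singleton_left.mpr huK, (hKd f hf).symm⟩
  · exact htP.symm.mono Set.subset_union_right subset_rfl
  · exact ⟨u, Or.inl rfl, k, hk, hku.symm⟩
  · intro i hi
    have hiI := hJ hi
    have hfi : f ≠ i := by
      rintro rfl
      exact hJf hi
    obtain ⟨h1, h2, h3⟩ := hJP i hi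
    refine ⟨?_, h1, (hKd i hiI).symm, ?_, h2, fun h => h3 h.symm⟩
    · rw [Set.disjoint_union_left]
      exact ⟨Set.disjoint_singleton_left.mpr (hui i hiI), (hB.2 f hf i hiI hfi).1⟩
    · exact (hB.2 f hf i hiI hfi).2.mono Set.subset_union_right subset_rfl

/-- (c) -/
theorem compNb [Finite V] {X : Set V} {I : Finset ℕ} {B : ℕ → Set V} (hX : Blk G X)
    (hB : Mdl G I B) (hBX : ∀ i ∈ I, B i ⊆ X) (hI : 7 ≤ I.card) (hK : ¬ IMS K5P G Set.univ)
    {K : Set V} (hKF : IsComp G (F G X I B) K) :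
    ∃ a ∈ I, (nb G K ∩ X).Nonempty ∧ nb G K ∩ X ⊆ B a := by
  classical
  have hKX : K ⊆ X := fun x hx => (hKF.1 hx).1
  have hKc := hKF.2.1
  have h1 : (tau G I B K).card ≤ 1 := compOne hB (by omega) hK hKF.1 hKc
  have hKd : ∀ i ∈ I, Disjoint K (B i) := by
    intro i hi
    rw [Set.disjoint_left]
    intro z hz
    exact (hKF.1 hz).2.1 i hi
  obtain ⟨i₀, hi₀⟩ : I.Nonempty := by
    rw [← Finset.card_pos]; omega
  obtain ⟨b₀, hb₀⟩ := (hB.1 i₀ hi₀).1
  have hb₀K : b₀ ∉ K := fun h => Set.disjoint_left.mp (hKd i₀ hi₀) h hb₀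
  have hone : ∀ i ∈ tau G I B K, ∀ j ∈ tau G I B K, i = j := fun i hi j hj =>
    Finset.card_le_one.mp h1 i hi j hj
  -- elements of the neighbourhood outside the model touch many sets
  have hmany : ∀ u ∈ nb G K ∩ X, (∀ i ∈ I, u ∉ B i) → I.card ≤ (tau G I B {u}).card + 2 := by
    intro u hu hui
    rcases few' hB hK (Conn.singleton G u)
      (fun i hi => Set.disjoint_singleton_left.mpr (hui i hi)) with h | h
    · exact absurd hu.1 (hKF.2.2 u ⟨hu.2, hui, h⟩)
    · exact h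
  -- no element of the neighbourhood is outside the model
  have hin : ∀ u ∈ nb G K ∩ X, ∃ i ∈ I, u ∈ B i := by
    intro u hu
    by_contra hui
    push Not at hui
    have hm := hmany u hu hui
    have huK : u ∉ K := hu.1.1
    obtain ⟨u', hu', hne⟩ : ∃ u' ∈ nb G K ∩ X, u' ≠ u := by
      by_contra hcon
      push Not at hcon
      have hb : b₀ ∈ X \ {u} := ⟨hBX i₀ hi₀ hb₀, fun h => hui i₀ hi₀ (by
        rw [Set.mem_singleton_iff] at h; rw [← h]; exact hb₀)⟩
      have hc := hX.2 u hu.2 ⟨b₀, hb⟩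
      have he := hc.eq_of_nb (C := K) (fun x hx => ⟨hKX hx, fun h => huK (by
        rw [Set.mem_singleton_iff] at h; rw [← h]; exact hx)⟩) hKc.1
        (fun v hv hvn => hv.2 (hcon v ⟨hvn, hv.1⟩))
      rw [← he] at hb
      exact hb₀K hb
    obtain ⟨hu'K, k', hk', hku'⟩ := hu'.1
    by_cases hu'i : ∀ i ∈ I, u' ∉ B i
    · -- first case
      have hm' := hmany u' hu' hu'i
      have hS : 1 ≤ ((tau G I B {u'} \ tau G I B K) ∩ tau G I B {u}).card := by
        have e1 := card_split (G := G) I B {u}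
        have e2 := Finset.le_card_sdiff (tau G I B K) (tau G I B {u'})
        have e3 : (tau G I B {u'} \ tau G I B K) ⊆
            ((tau G I B {u'} \ tau G I B K) ∩ tau G I B {u}) ∪ (I \ tau G I B {u}) := by
          intro i hi
          by_cases hiu : i ∈ tau G I B {u}
          · exact Finset.mem_union_left _ (Finset.mem_inter.mpr ⟨hi, hiu⟩)
          · exact Finset.mem_union_right _ (Finset.mem_sdiff.mpr
              ⟨(mem_tau.mp (Finset.mem_sdiff.mp hi).1).1, hiu⟩)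
        have e4 := Finset.card_le_card e3
        have e5 := Finset.card_union_le
          ((tau G I B {u'} \ tau G I B K) ∩ tau G I B {u}) (I \ tau G I B {u})
        omega
      obtain ⟨f, hf⟩ := Finset.card_pos.mp hS
      rw [Finset.mem_inter, Finset.mem_sdiff] at hf
      have hfI := (mem_tau.mp hf.2).1
      have hJc : 3 ≤ ((tau G I B {u'} \ tau G I B K).erase f).card := by
        have e2 := Finset.le_card_sdiff (tau G I B K) (tau G I B {u'})
        have e6 := Finset.pred_card_le_card_erase (s := tau G I B {u'} \ tau G I B K) (a := f)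
        omega
      refine clash hB hK hKc hKd hu.1 hui hfI (mem_tau.mp hf.2).2 (Conn.singleton G u')
        (fun h => hne h.symm) (Set.disjoint_singleton_left.mpr hu'K)
        (Set.disjoint_singleton_left.mpr (hu'i f hfI)) (mem_tau.mp hf.1.1).2
        ⟨u', rfl, k', hk', hku'.symm⟩ _ ?_ (Finset.notMem_erase f _) hJc ?_
      · intro i hi
        exact (mem_tau.mp (Finset.mem_sdiff.mp (Finset.mem_of_mem_erase hi)).1).1
      · intro i hi
        have hi' := Finset.mem_sdiff.mp (Finset.mem_of_mem_erase hi)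
        have hiI := (mem_tau.mp hi'.1).1
        exact ⟨Set.disjoint_singleton_left.mpr (hu'i i hiI), (mem_tau.mp hi'.1).2,
          fun h => hi'.2 (mem_tau.mpr ⟨hiI, h⟩)⟩
    · -- second case
      push Not at hu'i
      obtain ⟨a, ha, hu'a⟩ := hu'i
      have haK : a ∈ tau G I B K := mem_tau.mpr ⟨ha, k', hk', u', hu'a, hku'⟩
      have hS : 1 ≤ ((tau G I B {u}).erase a).card := by
        have e6 := Finset.pred_card_le_card_erase (s := tau G I B {u}) (a := a)
        omega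
      obtain ⟨f, hf⟩ := Finset.card_pos.mp hS
      have hfa : f ≠ a := Finset.ne_of_mem_erase hf
      have hf' := mem_tau.mp (Finset.mem_of_mem_erase hf)
      have hJc : 3 ≤ ((I.erase a).erase f).card := by
        have e6 := Finset.pred_card_le_card_erase (s := I.erase a) (a := f)
        have e7 := Finset.pred_card_le_card_erase (s := I) (a := a)
        omega
      refine clash hB hK hKc hKd hu.1 hui hf'.1 hf'.2 (hB.1 a ha)
        (hui a ha) (hKd a ha).symm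
        (hB.2 a ha f hf'.1 hfa.symm).1 (hB.2 a ha f hf'.1 hfa.symm).2
        (mem_tau.mp haK).2.symm _ ?_ (Finset.notMem_erase f _) hJc ?_
      · exact (Finset.erase_subset _ _).trans (Finset.erase_subset _ _)
      · intro i hi
        have hi1 := Finset.mem_of_mem_erase hi
        have hia : i ≠ a := Finset.ne_of_mem_erase hi1
        have hiI := Finset.mem_of_mem_erase hi1
        exact ⟨(hB.2 a ha i hiI hia.symm).1, (hB.2 a ha i hiI hia.symm).2,
          fun h => hia (hone i (mem_tau.mpr ⟨hiI, h⟩) a haK)⟩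
  -- the neighbourhood is not empty
  have hN : (nb G K ∩ X).Nonempty := by
    by_contra hcon
    rw [Set.not_nonempty_iff_eq_empty] at hcon
    have he := hX.1.eq_of_nb hKX hKc.1 (fun v hv hvn => by
      have : v ∈ nb G K ∩ X := ⟨hvn, hv⟩
      rw [hcon] at this
      exact this)
    rw [he] at hb₀K
    exact hb₀K (hBX i₀ hi₀ hb₀)
  have htau : ∀ u ∈ nb G K ∩ X, ∀ i ∈ I, u ∈ B i → i ∈ tau G I B K := by
    intro u hu i hi hui
    obtain ⟨_, k, hk, hku⟩ := hu.1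
    exact mem_tau.mpr ⟨hi, k, hk, u, hui, hku⟩
  obtain ⟨u, hu⟩ := hN
  obtain ⟨a, ha, hua⟩ := hin u hu
  refine ⟨a, ha, ⟨u, hu⟩, fun v hv => ?_⟩
  obtain ⟨b, hb, hvb⟩ := hin v hv
  rw [hone a (htau u hu a ha hua) b (htau v hv b hb hvb)]
  exact hvb

/-- (d) -/
theorem outside [Finite V] {X : Set V} {I : Finset ℕ} {B : ℕ → Set V} (hX : Blk G X)
    (hB : Mdl G I B) (hBX : ∀ i ∈ I, B i ⊆ X) (hI : 8 ≤ I.card) (hK : ¬ IMS K5P G Set.univ)
    {x : V} (hx : x ∈ X) (hxi : ∀ i ∈ I, x ∉ B i) : (I \ tau G I B {x}).card ≤ 2 := by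
  classical
  by_contra hcon
  have h1 : (tau G I B {x}).card ≤ 1 := by
    rcases few' hB hK (Conn.singleton G x)
      (fun i hi => Set.disjoint_singleton_left.mpr (hxi i hi)) with h | h
    · exact h
    · have := card_split (G := G) I B {x}
      omega
  have hxF : x ∈ F G X I B := ⟨hx, hxi, h1⟩
  obtain ⟨K, hKF, hxK, hKc, hKn⟩ := exists_comp G hxF
  obtain ⟨a, ha, ⟨u, hu⟩, hNa⟩ := compNb hX hB hBX (by omega) hK (K := K) ⟨hKF, hKc, hKn⟩
  have hua : u ∈ B a := hNa hu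
  set I' := I.erase a with hI'
  have hsub : I' ⊆ I := Finset.erase_subset _ _
  have hI'c : 7 ≤ I'.card := by
    rw [hI', Finset.card_erase_of_mem ha]
    omega
  have hB' : Mdl G I' B := mdl_mono hB hsub
  have hKF' : K ⊆ F G X I' B := by
    intro y hy
    obtain ⟨h2, h3, h4⟩ := hKF hy
    refine ⟨h2, fun i hi => h3 i (hsub hi), le_trans (Finset.card_le_card ?_) h4⟩
    intro i hi
    rw [mem_tau] at hi ⊢
    exact ⟨hsub hi.1, hi.2⟩
  obtain ⟨K', hKF'', hxK', hKc', hKn'⟩ := exists_comp G (hKF' hxK)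
  have hKK : K ⊆ K' := by
    have he := hKc.eq_of_nb (C := K ∩ K') Set.inter_subset_left ⟨x, hxK, hxK'⟩ (by
      rintro v hv ⟨hv1, c, hc, hcv⟩
      exact hKn' v (hKF' hv) ⟨fun h => hv1 ⟨hv, h⟩, c, hc.2, hcv⟩)
    intro y hy
    rw [← he] at hy
    exact hy.2
  obtain ⟨c, hc, -, hNc⟩ := compNb hX hB' (fun i hi => hBX i (hsub hi)) hI'c hK (K := K')
    ⟨hKF'', hKc', hKn'⟩
  have hca : c ≠ a := Finset.ne_of_mem_erase hc
  have hdisj := Set.disjoint_left.mp (hB.2 c (hsub hc) a ha hca).1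
  have huK' : u ∈ K' := by
    by_contra hn
    obtain ⟨_, k, hk, hku⟩ := hu.1
    exact hdisj (hNc ⟨⟨hn, k, hKK hk, hku⟩, hu.2⟩) hua
  have hBK : B a ⊆ K' := by
    have he := (hB.1 a ha).eq_of_nb (C := B a ∩ K') Set.inter_subset_left ⟨u, hua, huK'⟩ (by
      rintro v hv ⟨hv1, d, hd, hdv⟩
      exact hdisj (hNc ⟨⟨fun h => hv1 ⟨hv, h⟩, d, hd.2, hdv⟩, hBX a ha hv⟩) hv)
    intro y hy
    rw [← he] at hy
    exact hy.2
  have hfin := compOne hB' (by omega) hK hKF'' hKc'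
  have hall : I' ⊆ tau G I' B K' := by
    intro i hi
    have hia : i ≠ a := Finset.ne_of_mem_erase hi
    exact mem_tau.mpr ⟨hi, (hB.2 a ha i (hsub hi) hia.symm).2.mono hBK subset_rfl⟩
  have := Finset.card_le_card hall
  omega

end rV3Aux

open rV3Aux in
theorem rV3 : S_V3 := by
  classical
  intro V _ G X hX hK I B hI hB hBX x hx
  by_cases hxi : ∀ i ∈ I, x ∉ B i
  · have h := outside hX hB hBX (by omega) hK hx hxi
    refine le_trans (Set.ncard_le_ncard (t := ↑(I \ tau G I B {x})) ?_ (Finset.finite_toSet _)) ?_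
    · rintro i ⟨hi, -, ht⟩
      rw [Finset.mem_coe, Finset.mem_sdiff, mem_tau]
      exact ⟨hi, fun h => ht h.2⟩
    · rw [Set.ncard_coe_finset]; exact h
  · push Not at hxi
    obtain ⟨a, ha, hxa⟩ := hxi
    have hsub : I.erase a ⊆ I := Finset.erase_subset _ _
    have h := outside (I := I.erase a) hX (mdl_mono hB hsub) (fun i hi => hBX i (hsub hi))
      (by rw [Finset.card_erase_of_mem ha]; omega) hK hx (fun i hi hxi =>
        Set.disjoint_left.mp (hB.2 i (hsub hi) a ha (Finset.ne_of_mem_erase hi)).1 hxi hxa)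
    refine le_trans (Set.ncard_le_ncard
      (t := ↑((I.erase a) \ tau G (I.erase a) B {x})) ?_ (Finset.finite_toSet _)) ?_
    · rintro i ⟨hi, hn, ht⟩
      rw [Finset.mem_coe, Finset.mem_sdiff, mem_tau]
      refine ⟨Finset.mem_erase.mpr ⟨?_, hi⟩, fun h => ht h.2⟩
      rintro rfl
      exact hn hxa
    · rw [Set.ncard_coe_finset]; exact h

end Pool.Agent.MPd439b2
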