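import Pool.Agent.Lib.MP_d439b2_co.R.Spec3

/-!
# MP_d439b2_co, R/V5 (helper29): sets with a clique
-/

set_option autoImplicit false

namespace Pool.Agent.MPd439b2

namespace rV5Aux

variable {V : Type}

/-- every vertex of a tame set is adjacent to all but at most two vertices of a clique -/
theorem few [Finite V] (G : SimpleGraph V) (X C : Set V) (hT : Tame G X) (hCX : C ⊆ X)
    (hC : C.ncard = 12) (hK : CompleteOn G C) (x : V) (hx : x ∈ X) :
    {c | c ∈ C ∧ c ≠ x ∧ ¬ G.Adj x c}.ncard ≤ 2 := by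
  classical
  have hcard : Nat.card C = 12 := by
    rw [Nat.card_coe_set_eq]
    exact hC
  let e : C ≃ Fin 12 := Finite.equivFinOfCardEq hcard
  let f : ℕ → V := fun i => if h : i < 12 then ((e.symm ⟨i, h⟩ : C) : V) else x
  have hf : ∀ i (h : i < 12), f i = ((e.symm ⟨i, h⟩ : C) : V) := fun i h => dif_pos h
  have hfC : ∀ i < 12, f i ∈ C := by
    intro i h
    rw [hf i h]
    exact (e.symm ⟨i, h⟩).2
  have hfi : ∀ i < 12, ∀ j < 12, f i = f j → i = j := by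
    intro i hi j hj h
    rw [hf i hi, hf j hj] at h
    have h1 := e.symm.injective (Subtype.ext h)
    exact congrArg Fin.val h1
  have hfs : ∀ c ∈ C, ∃ i < 12, f i = c := by
    intro c hc
    refine ⟨(e ⟨c, hc⟩).val, (e ⟨c, hc⟩).isLt, ?_⟩
    rw [hf _ (e ⟨c, hc⟩).isLt]
    have : (⟨(e ⟨c, hc⟩).val, (e ⟨c, hc⟩).isLt⟩ : Fin 12) = e ⟨c, hc⟩ := rfl
    rw [this, Equiv.symm_apply_apply]
  have hM : Mdl G (Finset.range 12) (fun i => {f i}) := by
    refine ⟨fun i _ => Conn.singleton G _, fun i hi j hj hij => ?_⟩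
    rw [Finset.mem_range] at hi hj
    have hne : f i ≠ f j := fun h => hij (hfi i hi j hj h)
    refine ⟨Set.disjoint_singleton.2 hne, f i, rfl, f j, rfl, hK _ (hfC i hi) _ (hfC j hj) hne⟩
  have h1 := hT (Finset.range 12) (fun i => {f i}) (by rw [Finset.card_range]; omega) hM
    (fun i hi => by
      rw [Finset.mem_range] at hi
      exact Set.singleton_subset_iff.2 (hCX (hfC i hi))) x hx
  have hfin : (Un G (Finset.range 12) (fun i => {f i}) x).Finite :=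
    (Finset.range 12).finite_toSet.subset fun i hi => Finset.mem_coe.2 hi.1
  have h2 : {c | c ∈ C ∧ c ≠ x ∧ ¬ G.Adj x c} ⊆
      f '' (Un G (Finset.range 12) (fun i => {f i}) x) := by
    rintro c ⟨hc, hcx, hadj⟩
    obtain ⟨i, hi, rfl⟩ := hfs c hc
    refine ⟨i, ⟨Finset.mem_range.2 hi, fun h => hcx h.symm, ?_⟩, rfl⟩
    rintro ⟨a, rfl, b, rfl, hab⟩
    exact hadj hab
  exact (Set.ncard_le_ncard h2 (hfin.image f)).trans ((Set.ncard_image_le hfin).trans h1)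

end rV5Aux

theorem rV5 : S_K1 → S_V2 → S_V5 := by
  intro hK1 hV2 V _ G X C hT hno hCX hC hK v hv Y hYs hYne
  by_contra hcon
  push Not at hcon
  have hYv : ∀ u ∈ Y, u ∈ X ∧ v ≠ u ∧ ¬ G.Adj v u := by
    intro u hu
    have h := hYs hu
    exact ⟨h.1, h.2.1, h.2.2⟩
  have h2 : ∀ y ∈ Y, 2 ≤ {w | w ∈ Y ∧ G.Adj y w}.ncard := by
    intro y hy
    have h3 := hcon y hy
    have h4 : {w | w ∈ Y ∧ w ≠ y ∧ ¬ Gᶜ.Adj y w} ⊆ {w | w ∈ Y ∧ G.Adj y w} := by
      rintro w ⟨hw, hwy, hn⟩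
      refine ⟨hw, ?_⟩
      by_contra h5
      exact hn ⟨hwy.symm, h5⟩
    have h5 := Set.ncard_le_ncard h4 (Set.toFinite _)
    omega
  obtain ⟨l, z, hl, hzY, hinj, hadj, hclose⟩ := hK1 V G Y hYne h2
  have hF := rV5Aux.few G X C hT hCX hC hK
  let N : V → Set V := fun x => {c | c ∈ C ∧ c ≠ x ∧ ¬ G.Adj x c}
  have hN : ∀ x ∈ X, (N x).ncard ≤ 2 := fun x hx => hF x hx
  let Bad : Set V := ((N v ∪ {v}) ∪ N (z 0)) ∪ (N (z 1) ∪ N (z 2))
  have hBad : Bad.ncard ≤ 9 := by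
    have a1 := Set.ncard_union_le ((N v ∪ {v}) ∪ N (z 0)) (N (z 1) ∪ N (z 2))
    have a2 := Set.ncard_union_le (N v ∪ {v}) (N (z 0))
    have a3 := Set.ncard_union_le (N v) {v}
    have a4 := Set.ncard_union_le (N (z 1)) (N (z 2))
    have b1 := hN v hv
    have b2 := hN (z 0) (hYv _ (hzY 0 (by omega))).1
    have b3 := hN (z 1) (hYv _ (hzY 1 (by omega))).1
    have b4 := hN (z 2) (hYv _ (hzY 2 (by omega))).1
    rw [Set.ncard_singleton] at a3
    change (((N v ∪ {v}) ∪ N (z 0)) ∪ (N (z 1) ∪ N (z 2))).ncard ≤ 9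
    omega
  have h12 : 1 < (C \ Bad).ncard := by
    have h3 := Set.le_ncard_sdiff Bad C (Set.toFinite _)
    omega
  obtain ⟨c, hc, c', hc', hcc⟩ := (Set.one_lt_ncard (Set.toFinite _)).1 h12
  have good : ∀ d ∈ C \ Bad, v ≠ d ∧ G.Adj v d ∧ (∀ m < l, z m ≠ d) ∧
      ∀ m, m = 0 ∨ m = 1 ∨ m = 2 → G.Adj (z m) d := by
    intro d hd
    have hdv : d ≠ v := fun h => hd.2 (Or.inl (Or.inl (Or.inr h)))
    have hvd : G.Adj v d := by
      by_contra h
      exact hd.2 (Or.inl (Or.inl (Or.inl ⟨hd.1, hdv, h⟩)))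
    have hz : ∀ m < l, z m ≠ d := by
      intro m hm h
      have h3 := (hYv _ (hzY m hm)).2.2
      rw [h] at h3
      exact h3 hvd
    refine ⟨hdv.symm, hvd, hz, ?_⟩
    rintro m (rfl | rfl | rfl)
    · by_contra h
      exact hd.2 (Or.inl (Or.inr ⟨hd.1, (hz 0 (by omega)).symm, h⟩))
    · by_contra h
      exact hd.2 (Or.inr (Or.inl ⟨hd.1, (hz 1 (by omega)).symm, h⟩))
    · by_contra h
      exact hd.2 (Or.inr (Or.inr ⟨hd.1, (hz 2 (by omega)).symm, h⟩))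
  obtain ⟨g1, g2, g3, g4⟩ := good c hc
  obtain ⟨g1', g2', g3', g4'⟩ := good c' hc'
  exact hno (hV2 V G l z v {c} {c'} 0 1 2 ⟨hl, hinj, hadj, hclose⟩ (by omega) (by omega) (by omega)
    (Conn.singleton G c) (Conn.singleton G c') (Set.disjoint_singleton.2 hcc)
    ⟨c, rfl, c', rfl, hK c hc.1 c' hc'.1 hcc⟩
    (fun m hm => ⟨g3 m hm, g3' m hm, (hYv _ (hzY m hm)).2.1.symm, (hYv _ (hzY m hm)).2.2⟩) g1 g1'
    ⟨v, rfl, c, rfl, g2⟩ ⟨v, rfl, c', rfl, g2'⟩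
    (fun m hm => ⟨⟨z m, rfl, c, rfl, g4 m hm⟩, ⟨z m, rfl, c', rfl, g4' m hm⟩⟩))

end Pool.Agent.MPd439b2
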