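import Pool.Agent.Lib.MP_d439b2_co.R.Spec3

/-!
# MP_d439b2_co, row `K_5` plus a vertex of degree two: rings are induced cycles
-/

set_option autoImplicit false

namespace Pool.Agent.MPd439b2

namespace rV6Aux

variable {V : Type} [Finite V] {G : SimpleGraph V}

theorem two_le_of_two {S : Set V} {a b : V} (ha : a ∈ S) (hb : b ∈ S) (hab : a ≠ b) :
    2 ≤ S.ncard := by
  have h1 : ({a, b} : Set V) ⊆ S := by
    intro x hx
    rcases hx with rfl | hx
    · exact ha
    · rw [Set.mem_singleton_iff] at hx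
      rw [hx]
      exact hb
  have h2 : ({a, b} : Set V).ncard = 2 := Set.ncard_pair hab
  rw [← h2]
  exact Set.ncard_le_ncard h1 (Set.toFinite _)

theorem cyc_deg {l : ℕ} {z : ℕ → V} (h : Cyc G l z) (y : V) (hy : y ∈ {y | ∃ i < l, y = z i}) :
    2 ≤ {w | w ∈ {y | ∃ i < l, y = z i} ∧ G.Adj y w}.ncard := by
  obtain ⟨h3, hinj, hadj, hcl⟩ := h
  obtain ⟨i, hi, rfl⟩ := hy
  by_cases h0 : i = 0
  · subst h0
    refine two_le_of_two (a := z 1) (b := z (l - 1)) ⟨⟨1, by omega, rfl⟩, hadj 0 (by omega)⟩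
      ⟨⟨l - 1, by omega, rfl⟩, hcl.symm⟩ ?_
    intro h
    have := hinj 1 (by omega) (l - 1) (by omega) h
    omega
  · have hp : G.Adj (z i) (z (i - 1)) := by
      have h1 := hadj (i - 1) (by omega)
      rw [show i - 1 + 1 = i by omega] at h1
      exact h1.symm
    by_cases hl : i = l - 1
    · subst hl
      refine two_le_of_two (a := z 0) (b := z (l - 1 - 1)) ⟨⟨0, by omega, rfl⟩, hcl⟩
        ⟨⟨l - 1 - 1, by omega, rfl⟩, hp⟩ ?_
      intro h
      have := hinj 0 (by omega) (l - 1 - 1) (by omega) h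
      omega
    · refine two_le_of_two (a := z (i + 1)) (b := z (i - 1))
        ⟨⟨i + 1, by omega, rfl⟩, hadj i (by omega)⟩ ⟨⟨i - 1, by omega, rfl⟩, hp⟩ ?_
      intro h
      have := hinj (i + 1) (by omega) (i - 1) (by omega) h
      omega

theorem part_a (hK : S_K1) {Y : Set V} (h : Ring G Y) :
    ∃ (l : ℕ) (z : ℕ → V), Cyc G l z ∧ Y = {y | ∃ i < l, y = z i} ∧
    ∀ i < l, ∀ j < l, G.Adj (z i) (z j) →
      i = j + 1 ∨ j = i + 1 ∨ (i = 0 ∧ j = l - 1) ∨ (j = 0 ∧ i = l - 1) := by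
  obtain ⟨hne, hdeg, hmin⟩ := h
  obtain ⟨l, z, h3, hzY, hinj, hadj, hcl⟩ := hK V G Y hne hdeg
  have hc : Cyc G l z := ⟨h3, hinj, hadj, hcl⟩
  have hY : {y | ∃ i < l, y = z i} = Y := by
    refine hmin _ ?_ ⟨z 0, 0, by omega, rfl⟩ fun y hy => cyc_deg hc y hy
    rintro y ⟨i, hi, rfl⟩
    exact hzY i hi
  refine ⟨l, z, hc, hY.symm, ?_⟩
  -- chords with `i < j`
  have key : ∀ i j : ℕ, i < j → j < l → G.Adj (z i) (z j) →
      j = i + 1 ∨ (i = 0 ∧ j = l - 1) := by
    intro i j hij hj ha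
    by_contra hcon
    rw [not_or] at hcon
    obtain ⟨hc1, hc2⟩ := hcon
    have hc' : Cyc G (j - i + 1) (fun m => z (i + m)) := by
      refine ⟨by omega, ?_, ?_, ?_⟩
      · intro a ha' b hb' hab
        have := hinj (i + a) (by omega) (i + b) (by omega) hab
        omega
      · intro a ha'
        have := hadj (i + a) (by omega)
        exact this
      · show G.Adj (z (i + (j - i + 1 - 1))) (z (i + 0))
        rw [show i + (j - i + 1 - 1) = j by omega, Nat.add_zero]
        exact ha.symm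
    have hE : {y | ∃ m < j - i + 1, y = z (i + m)} = Y := by
      refine hmin _ ?_ ⟨z (i + 0), 0, by omega, rfl⟩ fun y hy => cyc_deg hc' y hy
      rintro y ⟨m, hm, rfl⟩
      exact hzY _ (by omega)
    by_cases h0 : i = 0
    · have h1 : z (l - 1) ∈ {y | ∃ m < j - i + 1, y = z (i + m)} := by
        rw [hE]
        exact hzY _ (by omega)
      obtain ⟨m, hm, hm'⟩ := h1
      have := hinj (l - 1) (by omega) (i + m) (by omega) hm'
      omega
    · have h1 : z 0 ∈ {y | ∃ m < j - i + 1, y = z (i + m)} := by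
        rw [hE]
        exact hzY _ (by omega)
      obtain ⟨m, hm, hm'⟩ := h1
      have := hinj 0 (by omega) (i + m) (by omega) hm'
      omega
  intro i hi j hj ha
  rcases lt_trichotomy i j with h | h | h
  · rcases key i j h hj ha with h1 | h1
    · exact Or.inr (Or.inl h1)
    · exact Or.inr (Or.inr (Or.inl h1))
  · subst h
    exact absurd ha (G.loopless.irrefl _)
  · rcases key j i h hi ha.symm with h1 | h1
    · exact Or.inl h1
    · exact Or.inr (Or.inr (Or.inr h1))

theorem part_b : ∀ (n : ℕ) (Y : Set V), Y.ncard = n → Y.Nonempty →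
    (∀ y ∈ Y, 2 ≤ {w | w ∈ Y ∧ G.Adj y w}.ncard) → ∃ Y' ⊆ Y, Ring G Y' := by
  intro n
  induction n using Nat.strong_induction_on with
  | _ n ih =>
    intro Y hn hne hdeg
    by_cases h : ∀ Y' ⊆ Y, Y'.Nonempty → (∀ y ∈ Y', 2 ≤ {w | w ∈ Y' ∧ G.Adj y w}.ncard) → Y' = Y
    · exact ⟨Y, subset_rfl, hne, hdeg, h⟩
    · push Not at h
      obtain ⟨Y', hY', hne', hdeg', hneq⟩ := h
      have hlt : Y'.ncard < n := by
        rw [← hn]
        exact Set.ncard_lt_ncard (lt_of_le_of_ne hY' hneq) (Set.toFinite _)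
      obtain ⟨Y'', h1, h2⟩ := ih _ hlt Y' rfl hne' hdeg'
      exact ⟨Y'', h1.trans hY', h2⟩

theorem le_two_of_sub {S : Set V} {a b : V} (h : S ⊆ {a, b}) : S.ncard ≤ 2 := by
  refine (Set.ncard_le_ncard h (Set.toFinite _)).trans ?_
  by_cases hab : a = b
  · rw [hab, Set.pair_eq_singleton, Set.ncard_singleton]
    omega
  · rw [Set.ncard_pair hab]

theorem part_c (hK : S_K1) {Y : Set V} (h : Ring G Y) (y : V) (hy : y ∈ Y) :
    {w | w ∈ Y ∧ G.Adj y w}.ncard ≤ 2 := by
  obtain ⟨l, z, ⟨h3, hinj, -, -⟩, hY, hch⟩ := part_a hK h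
  rw [hY] at hy
  obtain ⟨i, hi, rfl⟩ := hy
  by_cases h0 : i = 0
  · refine le_two_of_sub (a := z 1) (b := z (l - 1)) ?_
    rintro w ⟨hw, hw'⟩
    rw [hY] at hw
    obtain ⟨j, hj, rfl⟩ := hw
    rcases hch i hi j hj hw' with h | h | h | h
    · omega
    · left
      rw [h, h0]
    · right
      rw [Set.mem_singleton_iff, h.2]
    · omega
  · by_cases hl : i = l - 1
    · refine le_two_of_sub (a := z (i - 1)) (b := z 0) ?_
      rintro w ⟨hw, hw'⟩
      rw [hY] at hw
      obtain ⟨j, hj, rfl⟩ := hw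
      rcases hch i hi j hj hw' with h | h | h | h
      · left
        rw [h, Nat.add_sub_cancel]
      · omega
      · omega
      · right
        rw [Set.mem_singleton_iff, h.1]
    · refine le_two_of_sub (a := z (i - 1)) (b := z (i + 1)) ?_
      rintro w ⟨hw, hw'⟩
      rw [hY] at hw
      obtain ⟨j, hj, rfl⟩ := hw
      rcases hch i hi j hj hw' with h | h | h | h
      · left
        rw [h, Nat.add_sub_cancel]
      · right
        rw [Set.mem_singleton_iff, h]
      · omega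
      · omega

end rV6Aux

theorem rV6 : S_K1 → S_V6 := by
  intro hK V _ G Y
  exact ⟨fun h => rV6Aux.part_a hK h, fun h h' => rV6Aux.part_b _ Y rfl h h',
    fun h y hy => rV6Aux.part_c hK h y hy⟩

end Pool.Agent.MPd439b2
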