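import Pool.Agent.Lib.MP_d439b2_co.R.Spec3

set_option autoImplicit false

namespace Pool.Agent.MPd439b2

namespace rV7Aux

theorem enum {V : Type} (S : Set V) (n : ℕ) (h : S.ncard = n) (x : V) (hfin : S.Finite) :
    ∃ f : ℕ → V, (∀ i < n, f i ∈ S) ∧ ∀ i < n, ∀ j < n, f i = f j → i = j := by
  classical
  haveI : Finite S := hfin
  have hc : Nat.card S = n := by rw [Nat.card_coe_set_eq]; exact h
  let e : S ≃ Fin n := Finite.equivFinOfCardEq hc
  refine ⟨fun i => if h : i < n then ((e.symm ⟨i, h⟩ : S) : V) else x, ?_, ?_⟩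
  · intro i hi
    simp only [hi, dif_pos]
    exact (e.symm ⟨i, hi⟩).2
  · intro i hi j hj hij
    simp only [hi, hj, dif_pos] at hij
    have h1 : e.symm ⟨i, hi⟩ = e.symm ⟨j, hj⟩ := Subtype.ext hij
    have h2 := e.symm.injective h1
    exact congrArg Fin.val h2

theorem enum3 {V : Type} [Finite V] (P P0 : Set V) (h : P.ncard = 20) (hsub : P0 ⊆ P)
    (h3 : 3 ≤ P0.ncard) (x : V) :
    ∃ a : ℕ → V, (∀ i < 20, a i ∈ P) ∧ (∀ i < 20, ∀ j < 20, a i = a j → i = j) ∧
      ∀ i < 3, a i ∈ P0 := by
  obtain ⟨T, hT, hTc⟩ := Set.exists_subset_card_eq h3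
  have hTP : T ⊆ P := hT.trans hsub
  have hd : (P \ T).ncard = 17 := by
    rw [Set.ncard_sdiff hTP (Set.toFinite _), h, hTc]
  obtain ⟨f, hf1, hf2⟩ := enum T 3 hTc x (Set.toFinite _)
  obtain ⟨g, hg1, hg2⟩ := enum (P \ T) 17 hd x (Set.toFinite _)
  refine ⟨fun i => if i < 3 then f i else g (i - 3), ?_, ?_, ?_⟩
  · intro i hi
    by_cases h : i < 3
    · simp only [h, if_true]
      exact hTP (hf1 i h)
    · simp only [h, if_false]
      exact (hg1 (i - 3) (by omega)).1
  · intro i hi j hj hij
    by_cases h : i < 3 <;> by_cases h' : j < 3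
    · simp only [h, h', if_true] at hij
      exact hf2 i h j h' hij
    · simp only [h, h', if_true, if_false] at hij
      exact absurd (hij ▸ hf1 i h) (hg1 (j - 3) (by omega)).2
    · simp only [h, h', if_true, if_false] at hij
      exact absurd (hij.symm ▸ hf1 j h') (hg1 (i - 3) (by omega)).2
    · simp only [h, h', if_false] at hij
      have := hg2 (i - 3) (by omega) (j - 3) (by omega) hij
      omega
  · intro i hi
    simp only [hi, if_true]
    exact hT (hf1 i hi)

end rV7Aux

open rV7Aux in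
theorem rV7 : S_V7 := by
  intro V _ G X P Q hT hK
  obtain ⟨hPX, hQX, hdisj, hPc, hQc, hPi, hQi, hPQ⟩ := hK
  constructor
  · intro x hx
    by_contra hcon
    push Not at hcon
    obtain ⟨h1, h2⟩ := hcon
    have h1' : 3 ≤ {y | y ∈ P ∧ y ≠ x ∧ ¬ G.Adj x y}.ncard := by
      by_contra hc
      exact h1 ⟨hx, by omega⟩
    have h2' : 3 ≤ {y | y ∈ Q ∧ y ≠ x ∧ ¬ G.Adj x y}.ncard := by
      by_contra hc
      exact h2 ⟨hx, by omega⟩
    have hxQ : x ∉ Q := by
      intro hxQ
      have : {y | y ∈ P ∧ y ≠ x ∧ ¬ G.Adj x y} = ∅ := by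
        ext y
        simp only [Set.mem_setOf_eq, Set.mem_empty_iff_false, iff_false]
        rintro ⟨hy, _, hn⟩
        exact hn (hPQ y hy x hxQ).symm
      rw [this, Set.ncard_empty] at h1'
      omega
    have hxP : x ∉ P := by
      intro hxP
      have : {y | y ∈ Q ∧ y ≠ x ∧ ¬ G.Adj x y} = ∅ := by
        ext y
        simp only [Set.mem_setOf_eq, Set.mem_empty_iff_false, iff_false]
        rintro ⟨hy, _, hn⟩
        exact hn (hPQ x hxP y hy)
      rw [this, Set.ncard_empty] at h2'
      omega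
    obtain ⟨a, ha1, ha2, ha3⟩ := enum3 P {y | y ∈ P ∧ y ≠ x ∧ ¬ G.Adj x y} hPc
      (fun y hy => hy.1) h1' x
    obtain ⟨b, hb1, hb2, hb3⟩ := enum3 Q {y | y ∈ Q ∧ y ≠ x ∧ ¬ G.Adj x y} hQc
      (fun y hy => hy.1) h2' x
    have hab : ∀ i < 20, ∀ j < 20, a i ≠ b j := by
      intro i hi j hj he
      exact Set.disjoint_left.1 hdisj (ha1 i hi) (he ▸ hb1 j hj)
    have hM : Mdl G (Finset.range 20) (fun i => {a i, b i}) := by
      refine ⟨fun i hi => Conn.pair (hPQ _ (ha1 i (Finset.mem_range.1 hi)) _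
        (hb1 i (Finset.mem_range.1 hi))), ?_⟩
      intro i hi j hj hij
      rw [Finset.mem_range] at hi hj
      refine ⟨?_, ⟨a i, by simp, b j, by simp, hPQ _ (ha1 i hi) _ (hb1 j hj)⟩⟩
      rw [Set.disjoint_left]
      intro y hy hy'
      simp only [Set.mem_insert_iff, Set.mem_singleton_iff] at hy hy'
      rcases hy with rfl | rfl <;> rcases hy' with h | h
      · exact hij (ha2 i hi j hj h)
      · exact hab i hi j hj h
      · exact hab j hj i hi h.symm
      · exact hij (hb2 i hi j hj h)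
    have hle := hT (Finset.range 20) (fun i => {a i, b i}) (by simp) hM (by
      intro i hi y hy
      rw [Finset.mem_range] at hi
      simp only [Set.mem_insert_iff, Set.mem_singleton_iff] at hy
      rcases hy with rfl | rfl
      · exact hPX (ha1 i hi)
      · exact hQX (hb1 i hi)) x hx
    have hfin : (Un G (Finset.range 20) (fun i => {a i, b i}) x).Finite :=
      (Finset.finite_toSet (Finset.range 20)).subset (fun i hi => hi.1)
    have hsub : (({0, 1, 2} : Finset ℕ) : Set ℕ) ⊆
        Un G (Finset.range 20) (fun i => {a i, b i}) x := by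
      intro i hi
      have hi3 : i < 3 := by
        simp only [Finset.coe_insert, Finset.coe_singleton, Set.mem_insert_iff,
          Set.mem_singleton_iff] at hi
        omega
      refine ⟨Finset.mem_range.2 (by omega), ?_, ?_⟩
      · intro hy
        simp only [Set.mem_insert_iff, Set.mem_singleton_iff] at hy
        rcases hy with h | h
        · exact hxP (h ▸ ha1 i (by omega))
        · exact hxQ (h ▸ hb1 i (by omega))
      · rintro ⟨u, hu, w, hw, huw⟩
        rw [Set.mem_singleton_iff] at hu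
        subst hu
        simp only [Set.mem_insert_iff, Set.mem_singleton_iff] at hw
        rcases hw with rfl | rfl
        · exact (ha3 i hi3).2.2 huw
        · exact (hb3 i hi3).2.2 huw
    have h3 := Set.ncard_le_ncard hsub hfin
    rw [Set.ncard_coe_finset] at h3
    have h4 : ({0, 1, 2} : Finset ℕ).card = 3 := by decide
    omega
  · intro x hx hF
    have he : {y | y ∈ Q ∧ y ≠ x ∧ ¬ G.Adj x y} = Q \ {x} := by
      ext y
      simp only [Set.mem_setOf_eq, Set.mem_sdiff, Set.mem_singleton_iff]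
      constructor
      · rintro ⟨h1, h2, _⟩
        exact ⟨h1, h2⟩
      · rintro ⟨h1, h2⟩
        exact ⟨h1, h2, hQi x hx y h1⟩
    have h1 := hF.2
    rw [he, Set.ncard_sdiff_singleton_of_mem hx, hQc] at h1
    omega

end Pool.Agent.MPd439b2
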