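import Pool.Agent.Lib.MP_d439b2_co.R.Spec3

/-!
# MP_d439b2_co, V8: the ring fills one side
-/

set_option autoImplicit false

namespace Pool.Agent.MPd439b2

namespace rV8Aux

/-- two elements outside a small set -/
theorem two {V : Type} [Finite V] {S E : Set V} (h : E.ncard + 2 ≤ S.ncard) :
    ∃ a ∈ S, a ∉ E ∧ ∃ b ∈ S, b ∉ E ∧ a ≠ b := by
  have h1 : S.ncard - E.ncard ≤ (S \ E).ncard := Set.le_ncard_sdiff E S (Set.toFinite _)
  have h2 : 1 < (S \ E).ncard := by omega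
  obtain ⟨a, ha, b, hb, hab⟩ := (Set.one_lt_ncard (Set.toFinite _)).1 h2
  exact ⟨a, ha.1, ha.2, b, hb.1, hb.2, hab⟩

/-- three indices -/
theorem three {s : Finset ℕ} (h : 3 ≤ s.card) : ∃ i ∈ s, ∃ j ∈ s, ∃ k ∈ s, i < j ∧ j < k := by
  refine ⟨s.orderEmbOfCardLe h 0, s.orderEmbOfCardLe_mem h 0, s.orderEmbOfCardLe h 1,
    s.orderEmbOfCardLe_mem h 1, s.orderEmbOfCardLe h 2, s.orderEmbOfCardLe_mem h 2, ?_, ?_⟩
  · exact (s.orderEmbOfCardLe h).strictMono (by decide)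
  · exact (s.orderEmbOfCardLe h).strictMono (by decide)

/-- the elements of `Q` excluded by `x` -/
def Ex {V : Type} (G : SimpleGraph V) (X Q : Set V) (x : V) : Set V :=
  {y | x ∈ Full G X Q ∧ y ∈ Q ∧ y ≠ x ∧ ¬ G.Adj x y}

theorem Ex_le {V : Type} [Finite V] (G : SimpleGraph V) (X Q : Set V) (x : V) :
    (Ex G X Q x).ncard ≤ 2 := by
  by_cases hx : x ∈ Full G X Q
  · refine le_trans (Set.ncard_le_ncard ?_ (Set.toFinite _)) hx.2
    intro y hy
    exact hy.2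
  · have h0 : Ex G X Q x = ∅ := by
      ext y
      simp only [Set.mem_empty_iff_false, iff_false]
      intro hy
      exact hx hy.1
    rw [h0, Set.ncard_empty]
    omega

theorem adj_of_not_Ex {V : Type} {G : SimpleGraph V} {X Q : Set V} {x y : V} (hx : x ∈ Full G X Q)
    (hy : y ∈ Q) (hne : y ≠ x) (h : y ∉ Ex G X Q x) : G.Adj x y := by
  by_contra hn
  exact h ⟨hx, hy, hne, hn⟩

end rV8Aux

open rV8Aux in
theorem rV8 : S_V2 → S_V6 → S_V7 → S_V8 := by
  intro hV2 hV6 hV7 V _ G X P Q Y v hT hI hK hv hR hYX hvY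
  obtain ⟨hPX, hQX, hPQ, hPc, hQc, hPi, hQi, hPQa⟩ := id hK
  obtain ⟨h7a, h7b⟩ := hV7 V G X P Q hT hK
  obtain ⟨⟨l, z, hz, hY, -⟩, h6c⟩ : (∃ (l : ℕ) (z : ℕ → V), Cyc G l z ∧ Y = {y | ∃ i < l, y = z i} ∧
    ∀ i < l, ∀ j < l, G.Adj (z i) (z j) →
      i = j + 1 ∨ j = i + 1 ∨ (i = 0 ∧ j = l - 1) ∨ (j = 0 ∧ i = l - 1)) ∧
      ∀ y ∈ Y, {w | w ∈ Y ∧ G.Adj y w}.ncard ≤ 2 :=
    ⟨(hV6 V G Y).1 hR, (hV6 V G Y).2.2 hR⟩
  have hl : 3 ≤ l := hz.1
  have hzY : ∀ m < l, z m ∈ Y := by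
    intro m hm
    rw [hY]
    exact ⟨m, hm, rfl⟩
  have hdisj : ∀ p ∈ P, ∀ q ∈ Q, p ≠ q := by
    intro p hp q hq h
    rw [Set.disjoint_left] at hPQ
    exact hPQ hp (h ▸ hq)
  have hvQ : v ∉ Q := fun h => h7b v h hv
  have hnotY : ∀ c, G.Adj v c → c ∉ Y := fun c hc hcY => (hvY c hcY).2 hc
  -- step 1
  have h1 : (P \ (insert v Y)).ncard ≤ 7 := by
    by_contra hcon
    have hc8 : 8 ≤ (P \ (insert v Y)).ncard := by omega
    obtain ⟨c, hcQ, hcE, c', hc'Q, hc'E, hcc⟩ := two (S := Q)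
      (E := Ex G X Q v ∪ (Ex G X Q (z 0) ∪ (Ex G X Q (z 1) ∪ Ex G X Q (z 2)))) (by
        have e0 := Ex_le G X Q v
        have e1 := Ex_le G X Q (z 0)
        have e2 := Ex_le G X Q (z 1)
        have e3 := Ex_le G X Q (z 2)
        have u1 := Set.ncard_union_le (Ex G X Q v) (Ex G X Q (z 0) ∪ (Ex G X Q (z 1) ∪ Ex G X Q (z 2)))
        have u2 := Set.ncard_union_le (Ex G X Q (z 0)) (Ex G X Q (z 1) ∪ Ex G X Q (z 2))
        have u3 := Set.ncard_union_le (Ex G X Q (z 1)) (Ex G X Q (z 2))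
        omega)
    obtain ⟨y, hyP, hyE, y', hy'P, hy'E, hyy⟩ := two (S := P \ (insert v Y))
      (E := Ex G X P (z 0) ∪ (Ex G X P (z 1) ∪ Ex G X P (z 2))) (by
        have e1 := Ex_le G X P (z 0)
        have e2 := Ex_le G X P (z 1)
        have e3 := Ex_le G X P (z 2)
        have u2 := Set.ncard_union_le (Ex G X P (z 0)) (Ex G X P (z 1) ∪ Ex G X P (z 2))
        have u3 := Set.ncard_union_le (Ex G X P (z 1)) (Ex G X P (z 2))
        omega)
    have hcv : G.Adj v c := adj_of_not_Ex hv hcQ (fun h => hvQ (h ▸ hcQ)) (fun h => hcE (Or.inl h))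
    have hc'v : G.Adj v c' :=
      adj_of_not_Ex hv hc'Q (fun h => hvQ (h ▸ hc'Q)) (fun h => hc'E (Or.inl h))
    have hyY : y ∉ Y := fun h => hyP.2 (Or.inr h)
    have hy'Y : y' ∉ Y := fun h => hy'P.2 (Or.inr h)
    have hyv : y ≠ v := fun h => hyP.2 (Or.inl h)
    have hy'v : y' ≠ v := fun h => hy'P.2 (Or.inl h)
    have hE3 : ∀ {a : V} {R : Set V} {m : ℕ}, m = 0 ∨ m = 1 ∨ m = 2 →
        a ∉ (Ex G X R (z 0) ∪ (Ex G X R (z 1) ∪ Ex G X R (z 2))) → a ∉ Ex G X R (z m) := by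
      intro a R m hm ha h
      rcases hm with rfl | rfl | rfl
      · exact ha (Or.inl h)
      · exact ha (Or.inr (Or.inl h))
      · exact ha (Or.inr (Or.inr h))
    have htouch : ∀ m, m = 0 ∨ m = 1 ∨ m = 2 → (G.Adj (z m) c ∧ G.Adj (z m) c') ∨
        (G.Adj (z m) y ∧ G.Adj (z m) y') := by
      intro m hm
      have hml : m < l := by omega
      have hzm := hzY m hml
      rcases h7a (z m) (hYX hzm) with hP' | hQ'
      · right
        exact ⟨adj_of_not_Ex hP' hyP.1 (fun h => hyY (h ▸ hzm)) (hE3 hm hyE),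
          adj_of_not_Ex hP' hy'P.1 (fun h => hy'Y (h ▸ hzm)) (hE3 hm hy'E)⟩
      · left
        exact ⟨adj_of_not_Ex hQ' hcQ (fun h => hnotY c hcv (h ▸ hzm))
            (hE3 hm (fun h => hcE (Or.inr h))),
          adj_of_not_Ex hQ' hc'Q (fun h => hnotY c' hc'v (h ▸ hzm))
            (hE3 hm (fun h => hc'E (Or.inr h)))⟩
    refine hI (hV2 V G l z v {c, y} {c', y'} 0 1 2 hz (by omega) (by omega) (by omega)
      (Conn.pair (hPQa y hyP.1 c hcQ).symm) (Conn.pair (hPQa y' hy'P.1 c' hc'Q).symm) ?_ ?_ ?_ ?_ ?_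
      ?_ ?_ ?_)
    · rw [Set.disjoint_left]
      rintro a (rfl | ha) (hb | hb)
      · exact hcc hb
      · exact hdisj y' hy'P.1 a hcQ (Set.mem_singleton_iff.1 hb).symm
      · rw [Set.mem_singleton_iff] at ha
        exact hdisj y hyP.1 c' hc'Q (ha ▸ hb)
      · rw [Set.mem_singleton_iff] at ha hb
        exact hyy (ha.symm.trans hb)
    · exact ⟨c, Or.inl rfl, y', Or.inr rfl, (hPQa y' hy'P.1 c hcQ).symm⟩
    · intro m hm
      have hzm := hzY m hm
      refine ⟨?_, ?_, (hvY _ hzm).1, (hvY _ hzm).2⟩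
      · rintro (h | h)
        · exact hnotY c hcv (h ▸ hzm)
        · exact hyY ((Set.mem_singleton_iff.1 h) ▸ hzm)
      · rintro (h | h)
        · exact hnotY c' hc'v (h ▸ hzm)
        · exact hy'Y ((Set.mem_singleton_iff.1 h) ▸ hzm)
    · rintro (h | h)
      · exact hvQ (h ▸ hcQ)
      · exact hyv (Set.mem_singleton_iff.1 h).symm
    · rintro (h | h)
      · exact hvQ (h ▸ hc'Q)
      · exact hy'v (Set.mem_singleton_iff.1 h).symm
    · exact ⟨v, rfl, c, Or.inl rfl, hcv⟩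
    · exact ⟨v, rfl, c', Or.inl rfl, hc'v⟩
    · intro m hm
      rcases htouch m hm with ⟨t1, t2⟩ | ⟨t1, t2⟩
      · exact ⟨⟨z m, rfl, c, Or.inl rfl, t1⟩, ⟨z m, rfl, c', Or.inl rfl, t2⟩⟩
      · exact ⟨⟨z m, rfl, y, Or.inr rfl, t1⟩, ⟨z m, rfl, y', Or.inr rfl, t2⟩⟩
  -- step 2
  have h2 : 12 ≤ (P ∩ Y).ncard := by
    have hsub : P ⊆ (P ∩ Y) ∪ ((P \ (insert v Y)) ∪ {v}) := by
      intro p hp
      by_cases h : p ∈ Y
      · exact Or.inl ⟨hp, h⟩
      · by_cases h' : p = v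
        · exact Or.inr (Or.inr h')
        · refine Or.inr (Or.inl ⟨hp, ?_⟩)
          rintro (h'' | h'')
          · exact h' h''
          · exact h h''
    have hle := Set.ncard_le_ncard hsub (Set.toFinite _)
    have u1 := Set.ncard_union_le (P ∩ Y) ((P \ (insert v Y)) ∪ {v})
    have u2 := Set.ncard_union_le (P \ (insert v Y)) ({v} : Set V)
    rw [Set.ncard_singleton] at u2
    omega
  refine ⟨?_, h2⟩
  apply Set.Subset.antisymm
  · -- step 3
    intro y hy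
    by_contra hyn
    have hyY : y ∉ Y := fun h => hyn (Or.inr h)
    have hyv : y ≠ v := fun h => hyn (Or.inl h)
    have hyQ : y ∉ Q := fun h => h7b y h hy
    obtain ⟨c, hcQ, hcE, c', hc'Q, hc'E, hcc⟩ := two (S := Q) (E := Ex G X Q v ∪ Ex G X Q y) (by
      have e0 := Ex_le G X Q v
      have e1 := Ex_le G X Q y
      have u1 := Set.ncard_union_le (Ex G X Q v) (Ex G X Q y)
      omega)
    have hcv : G.Adj v c := adj_of_not_Ex hv hcQ (fun h => hvQ (h ▸ hcQ)) (fun h => hcE (Or.inl h))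
    have hc'v : G.Adj v c' :=
      adj_of_not_Ex hv hc'Q (fun h => hvQ (h ▸ hc'Q)) (fun h => hc'E (Or.inl h))
    have hcy : G.Adj y c := adj_of_not_Ex hy hcQ (fun h => hyQ (h ▸ hcQ)) (fun h => hcE (Or.inr h))
    have hc'y : G.Adj y c' :=
      adj_of_not_Ex hy hc'Q (fun h => hyQ (h ▸ hc'Q)) (fun h => hc'E (Or.inr h))
    classical
    have hcard : 3 ≤ ((Finset.range l).filter (fun m => z m ∈ P)).card := by
      have hsub : P ∩ Y ⊆ z '' (((Finset.range l).filter (fun m => z m ∈ P) : Finset ℕ) : Set ℕ) := by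
        rintro p ⟨hp, hpY⟩
        rw [hY] at hpY
        obtain ⟨m, hm, rfl⟩ := hpY
        exact ⟨m, by simp [hm, hp], rfl⟩
      have hle := Set.ncard_le_ncard hsub (Set.toFinite _)
      have hle2 := Set.ncard_image_le (f := z)
        (Finset.finite_toSet ((Finset.range l).filter (fun m => z m ∈ P)))
      rw [Set.ncard_coe_finset] at hle2
      omega
    obtain ⟨i, hi, j, hj, k, hk, hij, hjk⟩ := three hcard
    rw [Finset.mem_filter, Finset.mem_range] at hi hj hk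
    refine hI (hV2 V G l z v {c} {c', y} i j k hz hij hjk hk.1 (Conn.singleton G c)
      (Conn.pair hc'y.symm) ?_ ?_ ?_ ?_ ?_ ?_ ?_ ?_)
    · rw [Set.disjoint_left]
      rintro a ha (hb | hb)
      · exact hcc ((Set.mem_singleton_iff.1 ha).symm.trans hb)
      · rw [Set.mem_singleton_iff] at ha hb
        exact hyQ ((hb.symm.trans ha) ▸ hcQ)
    · exact ⟨c, rfl, y, Or.inr rfl, hcy.symm⟩
    · intro m hm
      have hzm := hzY m hm
      refine ⟨?_, ?_, (hvY _ hzm).1, (hvY _ hzm).2⟩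
      · intro h
        exact hnotY c hcv ((Set.mem_singleton_iff.1 h) ▸ hzm)
      · rintro (h | h)
        · exact hnotY c' hc'v (h ▸ hzm)
        · exact hyY ((Set.mem_singleton_iff.1 h) ▸ hzm)
    · intro h
      exact hvQ ((Set.mem_singleton_iff.1 h) ▸ hcQ)
    · rintro (h | h)
      · exact hvQ (h ▸ hc'Q)
      · exact hyv (Set.mem_singleton_iff.1 h).symm
    · exact ⟨v, rfl, c, rfl, hcv⟩
    · exact ⟨v, rfl, c', Or.inl rfl, hc'v⟩
    · intro m hm
      have hmP : z m ∈ P := by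
        rcases hm with rfl | rfl | rfl
        · exact hi.2
        · exact hj.2
        · exact hk.2
      exact ⟨⟨z m, rfl, c, rfl, hPQa _ hmP c hcQ⟩, ⟨z m, rfl, c', Or.inl rfl, hPQa _ hmP c' hc'Q⟩⟩
  · -- step 4
    rintro y (rfl | hy)
    · exact hv
    · by_contra hyn
      have hyP : y ∈ Full G X P := (h7a y (hYX hy)).resolve_right hyn
      have hsub : P ∩ Y ⊆ {w | w ∈ Y ∧ G.Adj y w} ∪ (Ex G X P y ∪ {y}) := by
        rintro p ⟨hp, hpY⟩
        by_cases h : p = y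
        · exact Or.inr (Or.inr h)
        · by_cases h' : G.Adj y p
          · exact Or.inl ⟨hpY, h'⟩
          · exact Or.inr (Or.inl ⟨hyP, hp, h, h'⟩)
      have hle := Set.ncard_le_ncard hsub (Set.toFinite _)
      have u1 := Set.ncard_union_le {w | w ∈ Y ∧ G.Adj y w} (Ex G X P y ∪ {y})
      have u2 := Set.ncard_union_le (Ex G X P y) ({y} : Set V)
      have e1 := Ex_le G X P y
      have e2 := h6c y hy
      rw [Set.ncard_singleton] at u2
      omega

end Pool.Agent.MPd439b2
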