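import Pool.Agent.Lib.MP_d439b2_co.R.Spec3

set_option autoImplicit false

namespace Pool.Agent.MPd439b2

namespace rV9Aux

variable {V : Type} {G : SimpleGraph V}

theorem mk6 (B0 B1 B2 B3 B4 B5 : Set V) (c0 : Conn G B0) (c1 : Conn G B1) (c2 : Conn G B2)
    (c3 : Conn G B3) (c4 : Conn G B4) (c5 : Conn G B5)
    (d01 : Disjoint B0 B1) (d02 : Disjoint B0 B2) (d03 : Disjoint B0 B3) (d04 : Disjoint B0 B4)
    (d05 : Disjoint B0 B5) (d12 : Disjoint B1 B2) (d13 : Disjoint B1 B3) (d14 : Disjoint B1 B4)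
    (d15 : Disjoint B1 B5) (d23 : Disjoint B2 B3) (d24 : Disjoint B2 B4) (d25 : Disjoint B2 B5)
    (d34 : Disjoint B3 B4) (d35 : Disjoint B3 B5) (d45 : Disjoint B4 B5)
    (t01 : Tch G B0 B1) (t02 : Tch G B0 B2) (t03 : Tch G B0 B3) (t04 : Tch G B0 B4)
    (t05 : Tch G B0 B5) (t12 : Tch G B1 B2) (t13 : Tch G B1 B3) (t14 : Tch G B1 B4)
    (t15 : Tch G B1 B5) (t23 : Tch G B2 B3) (t24 : Tch G B2 B4) (t34 : Tch G B3 B4)
    (n25 : ¬ Tch G B2 B5) (n35 : ¬ Tch G B3 B5) (n45 : ¬ Tch G B4 B5) :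
    IMS K5P G Set.univ := by
  have key : ∀ w w' : Fin 6, w < w' →
      Disjoint ((![B0, B1, B2, B3, B4, B5] : Fin 6 → Set V) w) (![B0, B1, B2, B3, B4, B5] w') ∧
      (K5P.Adj w w' ↔ Tch G ((![B0, B1, B2, B3, B4, B5] : Fin 6 → Set V) w)
        (![B0, B1, B2, B3, B4, B5] w')) := by
    intro w w' h
    fin_cases w <;> fin_cases w' <;>
      first
      | exact absurd h (by decide)
      | exact ⟨d01, ⟨fun _ => t01, fun _ => ⟨by decide, by decide⟩⟩⟩
      | exact ⟨d02, ⟨fun _ => t02, fun _ => ⟨by decide, by decide⟩⟩⟩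
      | exact ⟨d03, ⟨fun _ => t03, fun _ => ⟨by decide, by decide⟩⟩⟩
      | exact ⟨d04, ⟨fun _ => t04, fun _ => ⟨by decide, by decide⟩⟩⟩
      | exact ⟨d05, ⟨fun _ => t05, fun _ => ⟨by decide, by decide⟩⟩⟩
      | exact ⟨d12, ⟨fun _ => t12, fun _ => ⟨by decide, by decide⟩⟩⟩
      | exact ⟨d13, ⟨fun _ => t13, fun _ => ⟨by decide, by decide⟩⟩⟩
      | exact ⟨d14, ⟨fun _ => t14, fun _ => ⟨by decide, by decide⟩⟩⟩
      | exact ⟨d15, ⟨fun _ => t15, fun _ => ⟨by decide, by decide⟩⟩⟩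
      | exact ⟨d23, ⟨fun _ => t23, fun _ => ⟨by decide, by decide⟩⟩⟩
      | exact ⟨d24, ⟨fun _ => t24, fun _ => ⟨by decide, by decide⟩⟩⟩
      | exact ⟨d34, ⟨fun _ => t34, fun _ => ⟨by decide, by decide⟩⟩⟩
      | exact ⟨d25, ⟨fun h' => absurd h'.2 (by decide), fun h' => absurd h' n25⟩⟩
      | exact ⟨d35, ⟨fun h' => absurd h'.2 (by decide), fun h' => absurd h' n35⟩⟩
      | exact ⟨d45, ⟨fun h' => absurd h'.2 (by decide), fun h' => absurd h' n45⟩⟩
  refine ⟨![B0, B1, B2, B3, B4, B5], fun w => Set.subset_univ _, ?_, ?_, ?_⟩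
  · intro w
    fin_cases w
    exacts [c0, c1, c2, c3, c4, c5]
  · intro w w' h
    rcases lt_or_gt_of_ne h with h1 | h1
    · exact (key w w' h1).1
    · exact (key w' w h1).1.symm
  · intro w w' h
    rcases lt_or_gt_of_ne h with h1 | h1
    · exact (key w w' h1).2
    · rw [SimpleGraph.adj_comm, (key w' w h1).2, tch_comm]

/-- a segment of a path is connected -/
theorem conn_seg (z : ℕ → V) (i : ℕ) : ∀ d : ℕ,
    (∀ n, i ≤ n → n < i + d → G.Adj (z n) (z (n + 1))) →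
      Conn G {y | ∃ n, i ≤ n ∧ n < i + d + 1 ∧ y = z n} := by
  intro d
  induction d with
  | zero =>
    intro _
    have : {y | ∃ n, i ≤ n ∧ n < i + 0 + 1 ∧ y = z n} = {z i} := by
      ext y
      simp only [Set.mem_ofPred_eq, Set.mem_singleton_iff]
      constructor
      · rintro ⟨n, h1, h2, h3⟩
        have : n = i := by omega
        rw [h3, this]
      · intro h
        exact ⟨i, le_refl _, by omega, h⟩
    rw [this]
    exact Conn.singleton G _
  | succ d ih =>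
    intro h
    have h1 := ih fun n hn hn' => h n hn (by omega)
    have : {y | ∃ n, i ≤ n ∧ n < i + (d + 1) + 1 ∧ y = z n} =
        insert (z (i + d + 1)) {y | ∃ n, i ≤ n ∧ n < i + d + 1 ∧ y = z n} := by
      ext y
      simp only [Set.mem_ofPred_eq, Set.mem_insert_iff]
      constructor
      · rintro ⟨n, h1, h2, h3⟩
        by_cases h4 : n = i + d + 1
        · left
          rw [h3, h4]
        · right
          exact ⟨n, h1, by omega, h3⟩
      · rintro (h | ⟨n, h1, h2, h3⟩)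
        · exact ⟨i + d + 1, by omega, by omega, h⟩
        · exact ⟨n, h1, by omega, h3⟩
    rw [this]
    exact h1.insert ⟨z (i + d), ⟨i + d, by omega, by omega, rfl⟩, h (i + d) (by omega) (by omega)⟩

theorem card_idx [Finite V] {l : ℕ} {z : ℕ → V} {W : Set V} (hW : ∀ y ∈ W, ∃ i < l, y = z i) :
    ∃ T : Finset ℕ, W.ncard ≤ T.card ∧ ∀ n ∈ T, n < l ∧ z n ∈ W := by
  classical
  refine ⟨(Finset.range l).filter (fun n => z n ∈ W), ?_, ?_⟩
  · have h1 : W ⊆ z '' (((Finset.range l).filter (fun n => z n ∈ W) : Finset ℕ) : Set ℕ) := by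
      intro y hy
      obtain ⟨i, hi, rfl⟩ := hW y hy
      exact ⟨i, by simp [hi, hy], rfl⟩
    calc W.ncard ≤ (z '' (((Finset.range l).filter (fun n => z n ∈ W) : Finset ℕ) : Set ℕ)).ncard :=
          Set.ncard_le_ncard h1 (Set.toFinite _)
      _ ≤ (((Finset.range l).filter (fun n => z n ∈ W) : Finset ℕ) : Set ℕ).ncard :=
          Set.ncard_image_le (Set.toFinite _)
      _ = _ := Set.ncard_coe_finset _
  · intro n hn
    rw [Finset.mem_filter, Finset.mem_range] at hn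
    exact hn

theorem three (T : Finset ℕ) (h : 3 ≤ T.card) : ∃ i j k, i ∈ T ∧ j ∈ T ∧ k ∈ T ∧ i < j ∧ j < k := by
  let f := T.orderEmbOfFin rfl
  refine ⟨f ⟨0, by omega⟩, f ⟨1, by omega⟩, f ⟨2, by omega⟩, ?_, ?_, ?_, ?_, ?_⟩
  · exact Finset.orderEmbOfFin_mem _ _ _
  · exact Finset.orderEmbOfFin_mem _ _ _
  · exact Finset.orderEmbOfFin_mem _ _ _
  · exact f.lt_iff_lt.2 (by simp)
  · exact f.lt_iff_lt.2 (by simp)

theorem four (T : Finset ℕ) (h : 4 ≤ T.card) :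
    ∃ i j k k', i ∈ T ∧ j ∈ T ∧ k ∈ T ∧ k' ∈ T ∧ i < j ∧ j < k ∧ k < k' := by
  let f := T.orderEmbOfFin rfl
  refine ⟨f ⟨0, by omega⟩, f ⟨1, by omega⟩, f ⟨2, by omega⟩, f ⟨3, by omega⟩, ?_, ?_, ?_, ?_, ?_, ?_, ?_⟩
  · exact Finset.orderEmbOfFin_mem _ _ _
  · exact Finset.orderEmbOfFin_mem _ _ _
  · exact Finset.orderEmbOfFin_mem _ _ _
  · exact Finset.orderEmbOfFin_mem _ _ _
  · exact f.lt_iff_lt.2 (by simp)
  · exact f.lt_iff_lt.2 (by simp)
  · exact f.lt_iff_lt.2 (by simp)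

theorem seven (T : Finset ℕ) (m : ℕ) (h : 7 ≤ T.card) (hm : m ∉ T) :
    ∃ i j k k', i ∈ T ∧ j ∈ T ∧ k ∈ T ∧ k' ∈ T ∧ i < j ∧ j < k ∧ k < k' ∧ (m < i ∨ k' < m) := by
  classical
  have h1 : T.card = (T.filter (fun n => m < n)).card + (T.filter (fun n => ¬ m < n)).card :=
    (Finset.card_filter_add_card_filter_not (s := T) (fun n => m < n)).symm
  by_cases h2 : 4 ≤ (T.filter (fun n => m < n)).card
  · obtain ⟨i, j, k, k', hi, hj, hk, hk', h3, h4, h5⟩ := four _ h2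
    rw [Finset.mem_filter] at hi hj hk hk'
    exact ⟨i, j, k, k', hi.1, hj.1, hk.1, hk'.1, h3, h4, h5, Or.inl hi.2⟩
  · obtain ⟨i, j, k, k', hi, hj, hk, hk', h3, h4, h5⟩ :=
      four (T.filter (fun n => ¬ m < n)) (by omega)
    rw [Finset.mem_filter] at hi hj hk hk'
    refine ⟨i, j, k, k', hi.1, hj.1, hk.1, hk'.1, h3, h4, h5, Or.inr ?_⟩
    have : k' ≠ m := fun h' => hm (h' ▸ hk'.1)
    omega

/-- removing few elements -/
theorem count [Finite V] (S E : Set V) (W : Set V) (h : ∀ y ∈ S, y ∈ W ∨ y ∈ E) :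
    S.ncard ≤ W.ncard + E.ncard := by
  have h1 : S ⊆ W ∪ E := fun y hy => h y hy
  exact (Set.ncard_le_ncard h1 (Set.toFinite _)).trans (Set.ncard_union_le _ _)

end rV9Aux

open rV9Aux in
theorem rV9 : S_V2 → S_V6 → S_V7 → S_V8 → S_V9 := by
  intro v2 v6 v7 v8
  -- facts for one vertex
  have main : ∀ (V : Type) [Finite V] (G : SimpleGraph V) (X P Q Y : Set V) (v p : V),
      Tame G X → ¬ IMS K5P G Set.univ → KNN G X 20 P Q → v ∈ Full G X Q → Ring G Y → Y ⊆ X →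
      (∀ y ∈ Y, y ≠ v ∧ ¬ G.Adj v y) → p ∈ X → p ∉ insert v Y →
      {y | y ∈ P ∧ y ≠ p ∧ ¬ G.Adj p y}.ncard ≤ 2 ∧ G.Adj v p := by
    intro V _ G X P Q Y v p hT hI hK hv hR hYX hYv hp hpY
    obtain ⟨hF, h12⟩ := v8 V G X P Q Y v hT hI hK hv hR hYX hYv
    obtain ⟨h71, h72⟩ := v7 V G X P Q hT hK
    have hpP : p ∈ Full G X P := by
      rcases h71 p hp with h | h
      · exact h
      · rw [hF] at h
        exact absurd h hpY
    have hp2 : {y | y ∈ P ∧ y ≠ p ∧ ¬ G.Adj p y}.ncard ≤ 2 := hpP.2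
    refine ⟨hp2, ?_⟩
    by_contra hvp
    obtain ⟨hpv, hpY'⟩ : p ≠ v ∧ p ∉ Y := by
      constructor
      · intro h
        exact hpY (h ▸ Set.mem_insert _ _)
      · intro h
        exact hpY (Set.mem_insert_of_mem _ h)
    obtain ⟨l, z, hz, hYz, hch⟩ := (v6 V G Y).1 hR
    obtain ⟨hl3, hinj, hadj, hlast⟩ := hz
    have hzY : ∀ n < l, z n ∈ Y := by
      intro n hn
      rw [hYz]
      exact ⟨n, hn, rfl⟩
    -- the neighbours of p
    have hc := count (P ∩ Y) {y | y ∈ P ∧ y ≠ p ∧ ¬ G.Adj p y} {y | y ∈ P ∩ Y ∧ G.Adj p y} (by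
      intro y hy
      by_cases h : G.Adj p y
      · exact Or.inl ⟨hy, h⟩
      · exact Or.inr ⟨hy.1, fun h' => hpY' (h' ▸ hy.2), h⟩)
    obtain ⟨T, hT1, hT2⟩ := card_idx (l := l) (z := z) (W := {y | y ∈ P ∩ Y ∧ G.Adj p y}) (by
      intro y hy
      have := hy.1.2
      rw [hYz] at this
      exact this)
    obtain ⟨i, j, k, hi, hj, hk, hij, hjk⟩ := three T (by omega)
    obtain ⟨hil, hi1, hi2⟩ := hT2 i hi
    obtain ⟨hjl, hj1, hj2⟩ := hT2 j hj
    obtain ⟨hkl, hk1, hk2⟩ := hT2 k hk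
    obtain ⟨Y'', hY'', hR''⟩ := (v6 V G {y | y = p ∨ ∃ n, i ≤ n ∧ n ≤ j ∧ y = z n}).2.1
      ⟨p, Or.inl rfl⟩ (by
        rintro y (rfl | ⟨n, hn1, hn2, rfl⟩)
        · -- p
          have h1 : ({z i, z j} : Set V) ⊆
              {w | w ∈ {x | x = y ∨ ∃ n, i ≤ n ∧ n ≤ j ∧ x = z n} ∧ G.Adj y w} := by
            rintro w (rfl | rfl)
            · exact ⟨Or.inr ⟨i, le_refl _, hij.le, rfl⟩, hi2⟩
            · exact ⟨Or.inr ⟨j, hij.le, le_refl _, rfl⟩, hj2⟩
          have h2 : ({z i, z j} : Set V).ncard = 2 :=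
            Set.ncard_pair fun h => by
              have := hinj i hil j hjl h
              omega
          have h3 := Set.ncard_le_ncard h1 (Set.toFinite _)
          rw [h2] at h3
          exact h3
        · have two : ∀ a b : V, a ≠ b → (a = p ∨ ∃ n, i ≤ n ∧ n ≤ j ∧ a = z n) →
              (b = p ∨ ∃ n, i ≤ n ∧ n ≤ j ∧ b = z n) → G.Adj (z n) a → G.Adj (z n) b →
              2 ≤ {w | w ∈ {x | x = p ∨ ∃ n, i ≤ n ∧ n ≤ j ∧ x = z n} ∧ G.Adj (z n) w}.ncard := by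
            intro a b hab ha hb ha' hb'
            have h1 : ({a, b} : Set V) ⊆
                {w | w ∈ {x | x = p ∨ ∃ n, i ≤ n ∧ n ≤ j ∧ x = z n} ∧ G.Adj (z n) w} := by
              rintro w (rfl | rfl)
              · exact ⟨ha, ha'⟩
              · exact ⟨hb, hb'⟩
            have h2 : ({a, b} : Set V).ncard = 2 := Set.ncard_pair hab
            have h3 := Set.ncard_le_ncard h1 (Set.toFinite _)
            rw [h2] at h3
            exact h3
          by_cases h1 : n = i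
          · subst h1
            refine two p (z (n + 1)) ?_ (Or.inl rfl) (Or.inr ⟨n + 1, by omega, by omega, rfl⟩)
              hi2.symm (hadj n (by omega))
            intro h
            exact hpY' (h ▸ hzY (n + 1) (by omega))
          by_cases h2 : n = j
          · subst h2
            refine two p (z (n - 1)) ?_ (Or.inl rfl) (Or.inr ⟨n - 1, by omega, by omega, rfl⟩)
              hj2.symm ?_
            · intro h
              exact hpY' (h ▸ hzY (n - 1) (by omega))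
            · have := hadj (n - 1) (by omega)
              rw [show n - 1 + 1 = n by omega] at this
              exact this.symm
          · refine two (z (n - 1)) (z (n + 1)) ?_ (Or.inr ⟨n - 1, by omega, by omega, rfl⟩)
              (Or.inr ⟨n + 1, by omega, by omega, rfl⟩) ?_ (hadj n (by omega))
            · intro h
              have := hinj (n - 1) (by omega) (n + 1) (by omega) h
              omega
            · have := hadj (n - 1) (by omega)
              rw [show n - 1 + 1 = n by omega] at this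
              exact this.symm)
    have hF'' := (v8 V G X P Q Y'' v hT hI hK hv hR'' (by
      intro y hy
      rcases hY'' hy with rfl | ⟨n, hn1, hn2, rfl⟩
      · exact hp
      · exact hYX (hzY n (by omega))) (by
      intro y hy
      rcases hY'' hy with rfl | ⟨n, hn1, hn2, rfl⟩
      · exact ⟨hpv, hvp⟩
      · exact hYv _ (hzY n (by omega)))).1
    have h5 : z k ∈ insert v Y'' := by
      rw [← hF'', hF]
      exact Set.mem_insert_of_mem _ (hzY k hkl)
    rcases h5 with h5 | h5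
    · exact (hYv _ (hzY k hkl)).1 h5
    · rcases hY'' h5 with h6 | ⟨n, hn1, hn2, h6⟩
      · exact hpY' (h6 ▸ hzY k hkl)
      · have := hinj k hkl n (by omega) h6
        omega
  intro V _ G X P Q Y v p hT hI hK hv hR hYX hYv hp hpY
  obtain ⟨hF, h12⟩ := v8 V G X P Q Y v hT hI hK hv hR hYX hYv
  obtain ⟨h71, h72⟩ := v7 V G X P Q hT hK
  obtain ⟨hp2, hvp⟩ := main V G X P Q Y v p hT hI hK hv hR hYX hYv hp hpY
  have hpY' : p ∉ Y := fun h => hpY (Set.mem_insert_of_mem _ h)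
  have hpv : p ≠ v := fun h => hpY (h ▸ Set.mem_insert _ _)
  obtain ⟨l, z, hz, hYz, hch⟩ := (v6 V G Y).1 hR
  have hz' := hz
  obtain ⟨hl3, hinj, hadj, hlast⟩ := hz'
  have hzY : ∀ n < l, z n ∈ Y := by
    intro n hn
    rw [hYz]
    exact ⟨n, hn, rfl⟩
  refine ⟨hvp, ?_, ?_⟩
  · intro p' hp' hpY2 hpp'
    obtain ⟨hp2', hvp'⟩ := main V G X P Q Y v p' hT hI hK hv hR hYX hYv hp' hpY2
    have hpY3 : p' ∉ Y := fun h => hpY2 (Set.mem_insert_of_mem _ h)
    have hpv' : p' ≠ v := fun h => hpY2 (h ▸ Set.mem_insert _ _)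
    have hc1 := count (P ∩ Y) {y | y ∈ P ∧ y ≠ p ∧ ¬ G.Adj p y} {y | y ∈ P ∩ Y ∧ G.Adj p y} (by
      intro y hy
      by_cases h : G.Adj p y
      · exact Or.inl ⟨hy, h⟩
      · exact Or.inr ⟨hy.1, fun h' => hpY' (h' ▸ hy.2), h⟩)
    have hc2 := count {y | y ∈ P ∩ Y ∧ G.Adj p y} {y | y ∈ P ∧ y ≠ p' ∧ ¬ G.Adj p' y}
      {y | y ∈ P ∩ Y ∧ G.Adj p y ∧ G.Adj p' y} (by
      intro y hy
      by_cases h : G.Adj p' y
      · exact Or.inl ⟨hy.1, hy.2, h⟩
      · exact Or.inr ⟨hy.1.1, fun h' => hpY3 (h' ▸ hy.1.2), h⟩)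
    obtain ⟨T, hT1, hT2⟩ := card_idx (l := l) (z := z)
      (W := {y | y ∈ P ∩ Y ∧ G.Adj p y ∧ G.Adj p' y}) (by
      intro y hy
      have := hy.1.2
      rw [hYz] at this
      exact this)
    obtain ⟨i, j, k, hi, hj, hk, hij, hjk⟩ := three T (by omega)
    obtain ⟨hil, hi1, hi2, hi3⟩ := hT2 i hi
    obtain ⟨hjl, hj1, hj2, hj3⟩ := hT2 j hj
    obtain ⟨hkl, hk1, hk2, hk3⟩ := hT2 k hk
    apply hI
    refine v2 V G l z v {p} {p'} i j k hz hij hjk hkl (Conn.singleton G p) (Conn.singleton G p')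
      ?_ ⟨p, rfl, p', rfl, hpp'⟩ ?_ ?_ ?_ ⟨v, rfl, p, rfl, hvp⟩ ⟨v, rfl, p', rfl, hvp'⟩ ?_
    · rw [Set.disjoint_singleton]
      exact hpp'.ne
    · intro m hm
      refine ⟨fun h => ?_, fun h => ?_, (hYv _ (hzY m hm)).1, (hYv _ (hzY m hm)).2⟩
      · exact hpY' ((Set.mem_singleton_iff.1 h) ▸ hzY m hm)
      · exact hpY3 ((Set.mem_singleton_iff.1 h) ▸ hzY m hm)
    · exact fun h => hpv (Set.mem_singleton_iff.1 h).symm
    · exact fun h => hpv' (Set.mem_singleton_iff.1 h).symm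
    · rintro m (rfl | rfl | rfl)
      · exact ⟨⟨z m, rfl, p, rfl, hi2.symm⟩, ⟨z m, rfl, p', rfl, hi3.symm⟩⟩
      · exact ⟨⟨z m, rfl, p, rfl, hj2.symm⟩, ⟨z m, rfl, p', rfl, hj3.symm⟩⟩
      · exact ⟨⟨z m, rfl, p, rfl, hk2.symm⟩, ⟨z m, rfl, p', rfl, hk3.symm⟩⟩
  · intro y hy
    by_contra hyp
    have hy' := hy
    rw [hYz] at hy'
    obtain ⟨m, hml, rfl⟩ := hy'
    -- the good indices
    have hc1 := count (P ∩ Y) {y | y ∈ P ∧ y ≠ p ∧ ¬ G.Adj p y} {y | y ∈ P ∩ Y ∧ G.Adj p y} (by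
      intro y hy
      by_cases h : G.Adj p y
      · exact Or.inl ⟨hy, h⟩
      · exact Or.inr ⟨hy.1, fun h' => hpY' (h' ▸ hy.2), h⟩)
    have hc2 := count {y | y ∈ P ∩ Y ∧ G.Adj p y} {w | w ∈ Y ∧ G.Adj (z m) w}
      {y | y ∈ P ∩ Y ∧ G.Adj p y ∧ ¬ G.Adj (z m) y} (by
      intro y hy
      by_cases h : G.Adj (z m) y
      · exact Or.inr ⟨hy.1.2, h⟩
      · exact Or.inl ⟨hy.1, hy.2, h⟩)
    have hc3 := (v6 V G Y).2.2 hR (z m) hy
    have hc4 := count {y | y ∈ P ∩ Y ∧ G.Adj p y ∧ ¬ G.Adj (z m) y} {z m}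
      {y | y ∈ P ∩ Y ∧ G.Adj p y ∧ ¬ G.Adj (z m) y ∧ y ≠ z m} (by
      intro y hy
      by_cases h : y = z m
      · exact Or.inr h
      · exact Or.inl ⟨hy.1, hy.2.1, hy.2.2, h⟩)
    rw [Set.ncard_singleton] at hc4
    obtain ⟨T, hT1, hT2⟩ := card_idx (l := l) (z := z)
      (W := {y | y ∈ P ∩ Y ∧ G.Adj p y ∧ ¬ G.Adj (z m) y ∧ y ≠ z m}) (by
      intro y hy
      have := hy.1.2
      rw [hYz] at this
      exact this)
    obtain ⟨i, j, k, k', hi, hj, hk, hk', hij, hjk, hkk', hmm⟩ := seven T m (by omega)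
      (fun h => (hT2 m h).2.2.2.2 rfl)
    obtain ⟨hil, hi1, hi2, hi3, hi4⟩ := hT2 i hi
    obtain ⟨hjl, hj1, hj2, hj3, hj4⟩ := hT2 j hj
    obtain ⟨hkl, hk1, hk2, hk3, hk4⟩ := hT2 k hk
    obtain ⟨hkl', hk1', hk2', hk3', hk4'⟩ := hT2 k' hk'
    -- the segment is far from z m
    have hfar : ∀ n, i ≤ n → n ≤ j → ¬ G.Adj (z n) (z m) := by
      intro n hn1 hn2 h
      have h5 := hch n (by omega) m hml h
      rcases hmm with h6 | h6
      · -- m < i; i is not m + 1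
        have h7 : i ≠ m + 1 := by
          intro h7
          apply hi3
          rw [h7]
          exact hadj m (by omega)
        omega
      · have h7 : k' + 1 ≠ m := by
          intro h7
          apply hk3'
          rw [← h7]
          exact (hadj k' (by omega)).symm
        rcases h5 with h5 | h5 | ⟨h5, h8⟩ | h5
        · omega
        · omega
        · have h9 : i = 0 := by omega
          apply hi3
          rw [h9, h8]
          exact hlast
        · omega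
    -- two vertices of Q
    have hmF : z m ∈ Full G X Q := by
      rw [hF]
      exact Set.mem_insert_of_mem _ hy
    have hc5 := count Q ({y | y ∈ Q ∧ y ≠ z m ∧ ¬ G.Adj (z m) y} ∪ {z m, p})
      {y | y ∈ Q ∧ G.Adj (z m) y ∧ y ≠ p} (by
      intro y hy
      by_cases h : y = z m
      · exact Or.inr (Or.inr (Or.inl h))
      by_cases h' : y = p
      · exact Or.inr (Or.inr (Or.inr h'))
      by_cases h'' : G.Adj (z m) y
      · exact Or.inl ⟨hy, h'', h'⟩
      · exact Or.inr (Or.inl ⟨hy, h, h''⟩))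
    have hc6 : ({y | y ∈ Q ∧ y ≠ z m ∧ ¬ G.Adj (z m) y} ∪ {z m, p}).ncard ≤ 2 + 2 :=
      (Set.ncard_union_le _ _).trans (Nat.add_le_add hmF.2 (by
      have h1 := Set.ncard_insert_le (z m) {p}
      rw [Set.ncard_singleton] at h1
      exact h1))
    obtain ⟨hPX, hQX, hPQ, hP20, hQ20, hPi, hQi, hadjPQ⟩ := hK
    have hc7 : 1 < {y | y ∈ Q ∧ G.Adj (z m) y ∧ y ≠ p}.ncard := by omega
    rw [Set.one_lt_ncard_iff (Set.toFinite _)] at hc7
    obtain ⟨x, x', hx, hx', hxx'⟩ := hc7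
    have hQY : ∀ x ∈ Q, x ∉ Y ∧ x ≠ v := by
      intro x hx
      have := h72 x hx
      rw [hF] at this
      exact ⟨fun h => this (Set.mem_insert_of_mem _ h), fun h => this (h ▸ Set.mem_insert _ _)⟩
    have hxz : ∀ n < l, x ≠ z n := fun n hn h => (hQY x hx.1).1 (h ▸ hzY n hn)
    have hxz' : ∀ n < l, x' ≠ z n := fun n hn h => (hQY x' hx'.1).1 (h ▸ hzY n hn)
    have hpz : ∀ n < l, p ≠ z n := fun n hn h => hpY' (h ▸ hzY n hn)
    have hne : ∀ a < l, ∀ b < l, a ≠ b → z a ≠ z b := fun a ha b hb hab h => hab (hinj a ha b hb h)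
    apply hI
    have hseg : Conn G {y | ∃ n, i ≤ n ∧ n < i + (j - i - 1) + 1 ∧ y = z n} :=
      conn_seg z i (j - i - 1) fun n hn hn' => hadj n (by omega)
    have hxk : G.Adj x (z k) := (hadjPQ _ hk1.1 _ hx.1).symm
    have hxk' : G.Adj x' (z k') := (hadjPQ _ hk1'.1 _ hx'.1).symm
    have hmi : m ≠ i := by rintro rfl; exact hi4 rfl
    refine mk6 {x, z k} {x', z k'} {p} {y | ∃ n, i ≤ n ∧ n < i + (j - i - 1) + 1 ∧ y = z n} {z j} {z m}
      (Conn.pair hxk) (Conn.pair hxk') (Conn.singleton G _) hseg (Conn.singleton G _)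
      (Conn.singleton G _) ?_ ?_ ?_ ?_ ?_ ?_ ?_ ?_ ?_ ?_ ?_ ?_ ?_ ?_ ?_ ?_ ?_ ?_ ?_ ?_ ?_ ?_ ?_ ?_ ?_
      ?_ ?_ ?_ ?_ ?_
    · rw [Set.disjoint_left]
      rintro a (rfl | rfl) (h | h)
      · exact hxx' h
      · exact hxz k' hkl' h
      · exact hxz' k hkl h.symm
      · exact hne k hkl k' hkl' (by omega) h
    · rw [Set.disjoint_left]
      rintro a (rfl | rfl) h
      · exact hx.2.2 h
      · exact hpz k hkl h.symm
    · rw [Set.disjoint_left]
      rintro a (rfl | rfl) ⟨n, hn1, hn2, h⟩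
      · exact hxz n (by omega) h
      · exact hne k hkl n (by omega) (by omega) h
    · rw [Set.disjoint_left]
      rintro a (rfl | rfl) h
      · exact hxz j hjl h
      · exact hne k hkl j hjl (by omega) h
    · rw [Set.disjoint_left]
      rintro a (rfl | rfl) h
      · exact hxz m hml h
      · exact hk4 h
    · rw [Set.disjoint_left]
      rintro a (rfl | rfl) h
      · exact hx'.2.2 h
      · exact hpz k' hkl' h.symm
    · rw [Set.disjoint_left]
      rintro a (rfl | rfl) ⟨n, hn1, hn2, h⟩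
      · exact hxz' n (by omega) h
      · exact hne k' hkl' n (by omega) (by omega) h
    · rw [Set.disjoint_left]
      rintro a (rfl | rfl) h
      · exact hxz' j hjl h
      · exact hne k' hkl' j hjl (by omega) h
    · rw [Set.disjoint_left]
      rintro a (rfl | rfl) h
      · exact hxz' m hml h
      · exact hk4' h
    · rw [Set.disjoint_left]
      rintro a rfl ⟨n, hn1, hn2, h⟩
      exact hpz n (by omega) h
    · rw [Set.disjoint_left]
      rintro a rfl h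
      exact hpz j hjl h
    · rw [Set.disjoint_left]
      rintro a rfl h
      exact hpz m hml h
    · rw [Set.disjoint_left]
      rintro a ⟨n, hn1, hn2, rfl⟩ h
      exact hne n (by omega) j hjl (by omega) h
    · rw [Set.disjoint_left]
      rintro a ⟨n, hn1, hn2, rfl⟩ h
      exact hne n (by omega) m hml (by omega) h
    · rw [Set.disjoint_left]
      rintro a rfl h
      exact hj4 h
    · exact ⟨x, Or.inl rfl, z k', Or.inr rfl, (hadjPQ _ hk1'.1 _ hx.1).symm⟩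
    · exact ⟨z k, Or.inr rfl, p, rfl, hk2.symm⟩
    · exact ⟨x, Or.inl rfl, z i, ⟨i, le_refl _, by omega, rfl⟩, (hadjPQ _ hi1.1 _ hx.1).symm⟩
    · exact ⟨x, Or.inl rfl, z j, rfl, (hadjPQ _ hj1.1 _ hx.1).symm⟩
    · exact ⟨x, Or.inl rfl, z m, rfl, hx.2.1.symm⟩
    · exact ⟨z k', Or.inr rfl, p, rfl, hk2'.symm⟩
    · exact ⟨x', Or.inl rfl, z i, ⟨i, le_refl _, by omega, rfl⟩, (hadjPQ _ hi1.1 _ hx'.1).symm⟩
    · exact ⟨x', Or.inl rfl, z j, rfl, (hadjPQ _ hj1.1 _ hx'.1).symm⟩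
    · exact ⟨x', Or.inl rfl, z m, rfl, hx'.2.1.symm⟩
    · exact ⟨p, rfl, z i, ⟨i, le_refl _, by omega, rfl⟩, hi2⟩
    · exact ⟨p, rfl, z j, rfl, hj2⟩
    · refine ⟨z (j - 1), ⟨j - 1, by omega, by omega, rfl⟩, z j, rfl, ?_⟩
      have := hadj (j - 1) (by omega)
      rw [show j - 1 + 1 = j by omega] at this
      exact this
    · rintro ⟨a, ha, b, hb, hab⟩
      rw [Set.mem_singleton_iff] at ha hb
      subst ha hb
      exact hyp hab.symm
    · rintro ⟨a, ⟨n, hn1, hn2, rfl⟩, b, hb, hab⟩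
      rw [Set.mem_singleton_iff] at hb
      subst hb
      exact hfar n hn1 (by omega) hab
    · rintro ⟨a, ha, b, hb, hab⟩
      rw [Set.mem_singleton_iff] at ha hb
      subst ha hb
      exact hfar j hij.le (le_refl _) hab

end Pool.Agent.MPd439b2
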