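import Pool.Agent.Lib.MP_d439b2_co.R.Spec1

/-!
# MP_d439b2_co, Y1: layouts of the complement
-/

set_option autoImplicit false

namespace Pool.Agent.MPd439b2

namespace rY1Aux

variable {V : Type}

theorem types_compl (D : SimpleGraph V) {k : ℕ} {X A : Set V} (hA : A ⊆ X)
    (h : (Types (restr D X) A).encard ≤ k) : (Types (restr Dᶜ X) A).encard ≤ ((k + 1 : ℕ) : ℕ∞) := by
  have h1 : Types (restr Dᶜ X) A ⊆ (fun T => (X \ A) \ T) '' (insert ∅ (Types (restr D X) A)) := by
    rintro T ⟨-, a, ha, rfl⟩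
    refine ⟨(restr D X).neighborSet a \ A, ?_, ?_⟩
    · rcases Set.eq_empty_or_nonempty ((restr D X).neighborSet a \ A) with h0 | h0
      · rw [h0]
        exact Set.mem_insert _ _
      · exact Set.mem_insert_of_mem _ ⟨h0, a, ha, rfl⟩
    · ext w
      constructor
      · rintro ⟨⟨hwX, hwA⟩, hw⟩
        refine ⟨⟨?_, hA ha, hwX⟩, hwA⟩
        rw [SimpleGraph.compl_adj]
        refine ⟨fun h0 => hwA (h0 ▸ ha), fun h0 => hw ⟨⟨h0, hA ha, hwX⟩, hwA⟩⟩
      · rintro ⟨⟨hw, -, hwX⟩, hwA⟩
        rw [SimpleGraph.compl_adj] at hw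
        exact ⟨⟨hwX, hwA⟩, fun h0 => hw.2 h0.1.1⟩
  calc (Types (restr Dᶜ X) A).encard
      ≤ ((fun T => (X \ A) \ T) '' (insert ∅ (Types (restr D X) A))).encard := Set.encard_le_encard h1
    _ ≤ (insert ∅ (Types (restr D X) A)).encard := Set.encard_image_le _ _
    _ ≤ (Types (restr D X) A).encard + 1 := Set.encard_insert_le _ _
    _ ≤ ((k + 1 : ℕ) : ℕ∞) := by
      push_cast
      exact add_le_add h le_rfl

theorem key (D : SimpleGraph V) {k : ℕ} {X A : Set V} (h : Lay (restr D X) k A) :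
    A ⊆ X → Lay (restr Dᶜ X) (k + 1) A := by
  induction h with
  | empty => exact fun _ => Lay.empty
  | single v h => exact fun hA => Lay.single v (types_compl D hA h)
  | union _ _ hd ht ihA ihB =>
    exact fun hA => Lay.union (ihA (Set.subset_union_left.trans hA)) (ihB (Set.subset_union_right.trans hA)) hd
      (types_compl D hA ht)

end rY1Aux

theorem rY1 : S_Y1 := fun _ D _ _ h => rY1Aux.key D h (subset_refl _)

end Pool.Agent.MPd439b2
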