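import Pool.Agent.Lib.MP_d439b2_co.R.Spec1

/-!
# MP_d439b2_co, Y3: adding a vertex to a layout
-/

set_option autoImplicit false

namespace Pool.Agent.MPd439b2

namespace rY3Aux

variable {V : Type}

theorem types_add (D : SimpleGraph V) {k : ℕ} {X A : Set V} {v : V} (hA : A ⊆ X \ {v}) (hv : v ∈ X)
    (h : (Types (restr D (X \ {v})) A).encard ≤ k) :
    (Types (restr D X) A).encard ≤ ((2 * k + 1 : ℕ) : ℕ∞) := by
  set G' := restr D (X \ {v}) with hG'
  have hvA : v ∉ A := fun h0 => (hA h0).2 rfl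
  have h1 : Types (restr D X) A ⊆ Types G' A ∪ (insert v) '' (insert ∅ (Types G' A)) := by
    rintro T ⟨hT, a, ha, rfl⟩
    by_cases hav : D.Adj a v
    · right
      refine ⟨G'.neighborSet a \ A, ?_, ?_⟩
      · rcases Set.eq_empty_or_nonempty (G'.neighborSet a \ A) with h0 | h0
        · rw [h0]
          exact Set.mem_insert _ _
        · exact Set.mem_insert_of_mem _ ⟨h0, a, ha, rfl⟩
      · ext w
        constructor
        · rintro (rfl | ⟨⟨hw, -, hwX⟩, hwA⟩)
          · exact ⟨⟨hav, (hA ha).1, hv⟩, hvA⟩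
          · exact ⟨⟨hw, (hA ha).1, hwX.1⟩, hwA⟩
        · rintro ⟨⟨hw, -, hwX⟩, hwA⟩
          by_cases hwv : w = v
          · exact Or.inl hwv
          · exact Or.inr ⟨⟨hw, hA ha, hwX, hwv⟩, hwA⟩
    · left
      have h2 : (restr D X).neighborSet a \ A = G'.neighborSet a \ A := by
        ext w
        constructor
        · rintro ⟨⟨hw, -, hwX⟩, hwA⟩
          refine ⟨⟨hw, hA ha, hwX, ?_⟩, hwA⟩
          intro hwv
          rw [Set.mem_singleton_iff] at hwv
          exact hav (hwv ▸ hw)
        · rintro ⟨⟨hw, -, hwX⟩, hwA⟩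
          exact ⟨⟨hw, (hA ha).1, hwX.1⟩, hwA⟩
      exact ⟨hT, a, ha, h2⟩
  calc (Types (restr D X) A).encard
      ≤ (Types G' A ∪ (insert v) '' (insert ∅ (Types G' A))).encard := Set.encard_le_encard h1
    _ ≤ (Types G' A).encard + ((insert v) '' (insert ∅ (Types G' A))).encard := Set.encard_union_le _ _
    _ ≤ (Types G' A).encard + (insert ∅ (Types G' A)).encard := add_le_add le_rfl (Set.encard_image_le _ _)
    _ ≤ (Types G' A).encard + ((Types G' A).encard + 1) := add_le_add le_rfl (Set.encard_insert_le _ _)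
    _ ≤ (k : ℕ∞) + ((k : ℕ∞) + 1) := add_le_add h (add_le_add h le_rfl)
    _ = ((2 * k + 1 : ℕ) : ℕ∞) := by
      push_cast
      ring

theorem key (D : SimpleGraph V) {k : ℕ} {X A : Set V} {v : V} (hv : v ∈ X) (h : Lay (restr D (X \ {v})) k A) :
    A ⊆ X \ {v} → Lay (restr D X) (2 * k + 1) A := by
  induction h with
  | empty => exact fun _ => Lay.empty
  | single v h => exact fun hA => Lay.single v (types_add D hA hv h)
  | union _ _ hd ht ihA ihB =>
    exact fun hA => Lay.union (ihA (Set.subset_union_left.trans hA)) (ihB (Set.subset_union_right.trans hA)) hd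
      (types_add D hA hv ht)

end rY3Aux

theorem rY3 : S_Y3 := by
  intro V D k X v h
  by_cases hv : v ∈ X
  · have h1 := rY3Aux.key D hv h (subset_refl _)
    have h2 : X = insert v (X \ {v}) := by
      rw [Set.insert_sdiff_singleton, Set.insert_eq_of_mem hv]
    have h3 : Types (restr D X) X = ∅ := by
      rw [Set.eq_empty_iff_forall_notMem]
      rintro T ⟨⟨w, hw⟩, a, ha, rfl⟩
      exact hw.2 hw.1.2.2
    have h4 : (Types (restr D X) (insert v (X \ {v}))).encard ≤ ((2 * k + 1 : ℕ) : ℕ∞) := by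
      rw [← h2, h3, Set.encard_empty]
      exact zero_le
    have h5 := Lay.insert (by omega) h1 (fun h0 => h0.2 rfl) h4
    rwa [← h2] at h5
  · rw [Set.sdiff_singleton_eq_self hv] at h
    exact h.mono (by omega)

end Pool.Agent.MPd439b2
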