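import Pool.Agent.Lib.MP_d439b2_co.R.Spec1

/-!
# MP_d439b2_co, row `K_3 + P_1`, module Y4: adding a free clique to a layout
-/

set_option autoImplicit false

namespace Pool.Agent.MPd439b2

namespace rY4Aux

variable {V : Type}

theorem insertMany [Finite V] {G : SimpleGraph V} {k : ℕ} (hk : 1 ≤ k) {A F : Set V}
    (hA : Lay G k A) (ht : ∀ F' ⊆ F, (Types G (A ∪ F')).encard ≤ k) : Lay G k (A ∪ F) := by
  have hfin : F.Finite := Set.toFinite _
  refine Set.Finite.induction_on_subset (motive := fun t _ => Lay G k (A ∪ t)) F hfin ?_ ?_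
  · rw [Set.union_empty]
    exact hA
  · intro a t ha hts hat ih
    by_cases haA : a ∈ A
    · have : A ∪ insert a t = A ∪ t := by
        ext x
        simp only [Set.mem_union, Set.mem_insert_iff]
        constructor
        · rintro (h | rfl | h)
          · exact Or.inl h
          · exact Or.inl haA
          · exact Or.inr h
        · rintro (h | h)
          · exact Or.inl h
          · exact Or.inr (Or.inr h)
      rw [this]
      exact ih
    · have e : A ∪ insert a t = insert a (A ∪ t) := Set.union_insert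
      have h1 := ht (insert a t) (Set.insert_subset ha hts)
      rw [e] at h1 ⊢
      refine Lay.insert hk ih ?_ h1
      rintro (h | h)
      · exact haA h
      · exact hat h

/-- the set together with the vertices of the clique attached to it -/
def P (D : SimpleGraph V) (C A : Set V) : Set V := A ∪ {c | c ∈ C ∧ ∃ a ∈ A, D.Adj c a}

theorem types_P {D : SimpleGraph V} {k : ℕ} {X C A : Set V} (hC : FreeCl D X C) (hA : A ⊆ X \ C)
    (ht : (Types (restr D (X \ C)) A).encard ≤ k) :
    (Types (restr D X) (P D C A)).encard ≤ (k + 1 : ℕ) := by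
  have hsub : Types (restr D X) (P D C A) ⊆ insert (C \ P D C A) (Types (restr D (X \ C)) A) := by
    rintro T ⟨hne, a, ha, rfl⟩
    rcases ha with ha | ⟨haC, a', ha', hadj⟩
    · right
      have e : (restr D X).neighborSet a \ P D C A = (restr D (X \ C)).neighborSet a \ A := by
        ext u
        constructor
        · rintro ⟨⟨h1, h2, h3⟩, h4⟩
          have hu : u ∉ C := fun hu => h4 (Or.inr ⟨hu, a, ha, h1.symm⟩)
          exact ⟨⟨h1, hA ha, h3, hu⟩, fun h => h4 (Or.inl h)⟩
        · rintro ⟨⟨h1, h2, h3⟩, h4⟩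
          refine ⟨⟨h1, h2.1, h3.1⟩, ?_⟩
          rintro (h | h)
          · exact h4 h
          · exact h3.2 h.1
      rw [e] at hne ⊢
      exact ⟨hne, a, ha, rfl⟩
    · left
      ext u
      constructor
      · rintro ⟨⟨h1, h2, h3⟩, h4⟩
        refine ⟨?_, h4⟩
        by_contra huC
        have : u = a' := hC.2.2 a haC u ⟨h3, huC⟩ a' (hA ha') h1 hadj
        exact h4 (Or.inl (this ▸ ha'))
      · rintro ⟨h1, h2⟩
        refine ⟨⟨?_, hC.1 haC, hC.1 h1⟩, h2⟩
        apply hC.2.1 a haC u h1
        rintro rfl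
        exact h2 (Or.inr ⟨haC, a', ha', hadj⟩)
  calc (Types (restr D X) (P D C A)).encard
      ≤ (insert (C \ P D C A) (Types (restr D (X \ C)) A)).encard := Set.encard_le_encard hsub
    _ ≤ (Types (restr D (X \ C)) A).encard + 1 := Set.encard_insert_le _ _
    _ ≤ (k + 1 : ℕ) := by
      push_cast
      exact add_le_add ht le_rfl

theorem P_single [Finite V] {D : SimpleGraph V} {k : ℕ} {X C : Set V} (hk : 1 ≤ k)
    (hC : FreeCl D X C) {v : V} (hv : v ∈ X \ C) : Lay (restr D X) (k + 1) (P D C {v}) := by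
  unfold P
  apply insertMany (by omega)
  · exact Lay.single' (by omega) v
  · intro F' hF'
    have hsub : Types (restr D X) ({v} ∪ F') ⊆
        {(restr D X).neighborSet v \ ({v} ∪ F'), C \ F'} := by
      rintro T ⟨hne, a, ha, rfl⟩
      rcases ha with ha | ha
      · rw [Set.mem_singleton_iff] at ha
        subst ha
        left
        rfl
      · right
        rw [Set.mem_singleton_iff]
        obtain ⟨haC, a', ha', hadj⟩ := hF' ha
        rw [Set.mem_singleton_iff] at ha'
        subst ha'
        ext u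
        constructor
        · rintro ⟨⟨h1, h2, h3⟩, h4⟩
          refine ⟨?_, fun h => h4 (Or.inr h)⟩
          by_contra huC
          have : u = a' := hC.2.2 a haC u ⟨h3, huC⟩ a' hv h1 hadj
          exact h4 (Or.inl this)
        · rintro ⟨h1, h2⟩
          refine ⟨⟨?_, hC.1 haC, hC.1 h1⟩, ?_⟩
          · apply hC.2.1 a haC u h1
            rintro rfl
            exact h2 ha
          · rintro (h | h)
            · rw [Set.mem_singleton_iff] at h
              subst h
              exact hv.2 h1
            · exact h2 h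
    calc (Types (restr D X) ({v} ∪ F')).encard ≤ _ := Set.encard_le_encard hsub
      _ ≤ ({C \ F'} : Set (Set V)).encard + 1 := Set.encard_insert_le _ _
      _ = 2 := by
        rw [Set.encard_singleton]
        rfl
      _ ≤ ((k + 1 : ℕ) : ℕ∞) := by
        have : 2 ≤ k + 1 := by omega
        exact_mod_cast this

theorem P_union (D : SimpleGraph V) (C A B : Set V) : P D C (A ∪ B) = P D C A ∪ P D C B := by
  ext x
  constructor
  · rintro ((h | h) | ⟨h1, a, (h2 | h2), h3⟩)
    · exact Or.inl (Or.inl h)
    · exact Or.inr (Or.inl h)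
    · exact Or.inl (Or.inr ⟨h1, a, h2, h3⟩)
    · exact Or.inr (Or.inr ⟨h1, a, h2, h3⟩)
  · rintro ((h | ⟨h1, a, h2, h3⟩) | (h | ⟨h1, a, h2, h3⟩))
    · exact Or.inl (Or.inl h)
    · exact Or.inr ⟨h1, a, Or.inl h2, h3⟩
    · exact Or.inl (Or.inr h)
    · exact Or.inr ⟨h1, a, Or.inr h2, h3⟩

theorem claim [Finite V] {D : SimpleGraph V} {k : ℕ} {X C : Set V} (hk : 1 ≤ k)
    (hC : FreeCl D X C) {A : Set V} (h : Lay (restr D (X \ C)) k A) (hA : A ⊆ X \ C) :
    Lay (restr D X) (k + 1) (P D C A) := by
  induction h with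
  | empty =>
    have : P D C ∅ = ∅ := by
      ext x
      simp [P]
    rw [this]
    exact Lay.empty
  | single v _ => exact P_single hk hC (hA rfl)
  | @union A B _ _ hd ht ihA ihB =>
    have hA' : A ⊆ X \ C := fun x hx => hA (Or.inl hx)
    have hB' : B ⊆ X \ C := fun x hx => hA (Or.inr hx)
    have h1 := types_P hC hA ht
    rw [P_union] at h1 ⊢
    refine Lay.union (ihA hA') (ihB hB') ?_ h1
    rw [Set.disjoint_left]
    rintro x (h2 | ⟨h2, a, h3, h4⟩) (h5 | ⟨h5, b, h6, h7⟩)
    · exact Set.disjoint_left.mp hd h2 h5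
    · exact (hA' h2).2 h5
    · exact (hB' h5).2 h2
    · have := hC.2.2 x h2 a (hA' h3) b (hB' h6) h4 h7
      subst this
      exact Set.disjoint_left.mp hd h3 h6

end rY4Aux

open rY4Aux in
/-- **Y4.** Adding a free clique to a layout. -/
theorem rY4 : S_Y4 := by
  intro V _ D k X C hk hC hL
  have h1 := claim hk hC hL subset_rfl
  have h2 : P D C (X \ C) ∪ C = X := by
    ext x
    constructor
    · rintro ((h | h) | h)
      · exact h.1
      · exact hC.1 h.1
      · exact hC.1 h
    · intro h
      by_cases hx : x ∈ C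
      · exact Or.inr hx
      · exact Or.inl (Or.inl ⟨h, hx⟩)
  have h3 : Lay (restr D X) (k + 1) (P D C (X \ C) ∪ C) := by
    apply insertMany (by omega) h1
    intro F' hF'
    have hsub : Types (restr D X) (P D C (X \ C) ∪ F') ⊆ {C \ (P D C (X \ C) ∪ F')} := by
      rintro T ⟨hne, a, ha, rfl⟩
      have haC : a ∈ C := by
        by_contra haC
        obtain ⟨u, ⟨h4, h5, h6⟩, h7⟩ := hne
        have haX : a ∈ X \ C := ⟨h5, haC⟩
        apply h7
        left
        by_cases hu : u ∈ C
        · exact Or.inr ⟨hu, a, haX, h4.symm⟩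
        · exact Or.inl ⟨h6, hu⟩
      rw [Set.mem_singleton_iff]
      ext u
      constructor
      · rintro ⟨⟨h4, h5, h6⟩, h7⟩
        refine ⟨?_, h7⟩
        by_contra hu
        exact h7 (Or.inl (Or.inl ⟨h6, hu⟩))
      · rintro ⟨h4, h5⟩
        refine ⟨⟨?_, hC.1 haC, hC.1 h4⟩, h5⟩
        apply hC.2.1 a haC u h4
        rintro rfl
        exact h5 ha
    calc (Types (restr D X) (P D C (X \ C) ∪ F')).encard ≤ _ := Set.encard_le_encard hsub
      _ ≤ 1 := by rw [Set.encard_singleton]
      _ ≤ ((k + 1 : ℕ) : ℕ∞) := by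
        have : 1 ≤ k + 1 := by omega
        exact_mod_cast this
  rw [h2] at h3
  exact h3

end Pool.Agent.MPd439b2
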