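import Pool.Agent.Lib.MP_d439b2_co.R.Spec1
import Pool.Agent.Lib.MP_d439b2_co.B.LayU

/-!
# MP_d439b2_co, row `K_3 + P_1`: components of a layout
-/

set_option autoImplicit false

namespace Pool.Agent.MPd439b2

namespace rY5Aux

variable {V : Type} {D : SimpleGraph V} {X : Set V}

theorem types_eq {K A : Set V} (hK : IsComp D X K) (hA : A ⊆ K) : Types (restr D X) A ⊆ Types (restr D K) A := by
  rintro T ⟨hne, a, ha, hT⟩
  refine ⟨hne, a, ha, ?_⟩
  rw [hT]
  ext w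
  constructor
  · rintro ⟨⟨h1, _, h3⟩, h4⟩
    refine ⟨⟨h1, hA ha, ?_⟩, h4⟩
    by_contra hw
    exact hK.2.2 w h3 ⟨hw, a, hA ha, h1⟩
  · rintro ⟨⟨h1, _, h3⟩, h4⟩
    exact ⟨⟨h1, hK.1 (hA ha), hK.1 h3⟩, h4⟩

theorem lay_comp {k : ℕ} {K A : Set V} (hK : IsComp D X K) (h : Lay (restr D K) k A) :
    A ⊆ K → Lay (restr D X) k A := by
  induction h with
  | empty => exact fun _ => Lay.empty
  | single v h =>
    intro hA
    exact Lay.single v ((Set.encard_le_encard (types_eq hK hA)).trans h)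
  | union _ _ hd ht ihA ihB =>
    intro hA
    exact Lay.union (ihA (Set.subset_union_left.trans hA)) (ihB (Set.subset_union_right.trans hA)) hd
      ((Set.encard_le_encard (types_eq hK hA)).trans ht)

theorem comp_eq {K K' : Set V} (hK : IsComp D X K) (hK' : IsComp D X K') (h : (K ∩ K').Nonempty) : K = K' := by
  have h1 : K ∩ K' = K := by
    refine hK.2.1.eq_of_nb Set.inter_subset_left h fun v hv hvn => ?_
    obtain ⟨h1, a, ha, hav⟩ := hvn
    exact hK'.2.2 v (hK.1 hv) ⟨fun h2 => h1 ⟨hv, h2⟩, a, ha.2, hav⟩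
  have h2 : K ∩ K' = K' := by
    refine hK'.2.1.eq_of_nb Set.inter_subset_right h fun v hv hvn => ?_
    obtain ⟨h1, a, ha, hav⟩ := hvn
    exact hK.2.2 v (hK'.1 hv) ⟨fun h2 => h1 ⟨h2, hv⟩, a, ha.1, hav⟩
  rw [← h1, h2]

end rY5Aux

theorem rY5 : S_Y5 := by
  intro V _ D k X hk h
  have h1 : ⋃₀ {K | IsComp D X K} = X := by
    ext v
    constructor
    · rintro ⟨K, hK, hv⟩
      exact hK.1 hv
    · intro hv
      obtain ⟨C, hC, hvC, hconn, hnb⟩ := exists_comp D hv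
      exact ⟨C, ⟨hC, hconn, hnb⟩, hvC⟩
  have h2 := layU V (restr D X) k ∅ {K | IsComp D X K} (by rw [Set.ncard_empty, pow_zero]; exact hk)
    (fun K hK => ⟨rY5Aux.lay_comp hK (h K hK) (subset_refl _), by
      rintro v ⟨hv, a, ha, hav, _, hvX⟩
      exact absurd ⟨hv, a, ha, hav⟩ (hK.2.2 v hvX)⟩)
    (fun K hK K' hK' hne => by
      rw [Set.disjoint_iff_inter_eq_empty]
      by_contra hcon
      exact hne (rY5Aux.comp_eq hK hK' (Set.nonempty_iff_ne_empty.2 hcon)))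
  rwa [h1] at h2

end Pool.Agent.MPd439b2
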