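import Pool.Agent.Lib.MP_d439b2_co.R.Spec1

/-!
# MP_d439b2_co, row `K_3 + P_1`: sets of bounded depth have layouts
-/

set_option autoImplicit false

namespace Pool.Agent.MPd439b2

theorem rY6 : (S_Y3) → (S_Y4) → (S_Y5) → S_Y6 := by
  intro h3 h4 h5 V _ D c n X hc hD
  have hpos : ∀ m : ℕ, 1 ≤ 3 ^ m * c := fun m => Nat.succ_le_of_lt (Nat.mul_pos (pow_pos (by norm_num) m) hc)
  induction hD with
  | @base n X h =>
    exact h.mono (Nat.le_mul_of_pos_left c (pow_pos (by norm_num) n))
  | @vert n X v _ ih =>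
    refine (h3 V D _ X v ih).mono ?_
    have := hpos n
    rw [pow_succ]
    nlinarith
  | @cliq n X C hC _ ih =>
    refine (h4 V D _ X C (hpos n) hC ih).mono ?_
    have := hpos n
    rw [pow_succ]
    nlinarith
  | @comps n X _ ih => exact h5 V D _ X (hpos n) ih

end Pool.Agent.MPd439b2
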