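import Pool.Agent.Lib.MP_d439b2_co.R.Spec1

/-!
# MP_d439b2_co, row `K_3 + P_1`: monotonicity of `Dis`
-/

set_option autoImplicit false

namespace Pool.Agent.MPd439b2

namespace rY7Aux

variable {V : Type} {D : SimpleGraph V}

theorem freeCl {X X' C : Set V} (h : FreeCl D X C) (hX : X' ⊆ X) : FreeCl D X' (C ∩ X') := by
  refine ⟨Set.inter_subset_right, fun u hu v hv huv => h.2.1 u hu.1 v hv.1 huv, fun c hc a ha b hb hca hcb => ?_⟩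
  exact h.2.2 c hc.1 a ⟨hX ha.1, fun h1 => ha.2 ⟨h1, ha.1⟩⟩ b ⟨hX hb.1, fun h1 => hb.2 ⟨h1, hb.1⟩⟩ hca hcb

theorem comp_sub {X X' K' : Set V} (hX : X' ⊆ X) (hK' : IsComp D X' K') : ∃ K, IsComp D X K ∧ K' ⊆ K := by
  obtain ⟨v, hv⟩ := hK'.2.1.1
  obtain ⟨K, hK, hvK, hconn, hnb⟩ := exists_comp D (hX (hK'.1 hv))
  refine ⟨K, ⟨hK, hconn, hnb⟩, ?_⟩
  have h1 : K' ∩ K = K' := by
    refine hK'.2.1.eq_of_nb Set.inter_subset_left ⟨v, hv, hvK⟩ fun u hu hun => ?_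
    obtain ⟨h1, a, ha, hau⟩ := hun
    exact hnb u (hX (hK'.1 hu)) ⟨fun h2 => h1 ⟨hu, h2⟩, a, ha.2, hau⟩
  rw [← h1]
  exact Set.inter_subset_right

end rY7Aux

theorem rY7 : (S_Y2) → S_Y7 := by
  intro h2 V D c c' n n' X X' hX hn hc hD
  induction hD generalizing n' X' with
  | @base n X h => exact Dis.base ((h2 V D c X X' hX h).mono hc)
  | @vert n X v _ ih =>
    obtain ⟨m, rfl⟩ : ∃ m, n' = m + 1 := ⟨n' - 1, by omega⟩
    exact Dis.vert v (ih m (X' \ {v}) (Set.sdiff_subset_sdiff_left hX) (by omega))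
  | @cliq n X C hC _ ih =>
    obtain ⟨m, rfl⟩ : ∃ m, n' = m + 1 := ⟨n' - 1, by omega⟩
    refine Dis.cliq (C ∩ X') (rY7Aux.freeCl hC hX) (ih m _ ?_ (by omega))
    rintro v ⟨hv, hvC⟩
    exact ⟨hX hv, fun h => hvC ⟨h, hv⟩⟩
  | @comps n X _ ih =>
    refine Dis.comps fun K' hK' => ?_
    obtain ⟨K, hK, hKK⟩ := rY7Aux.comp_sub hX hK'
    exact ih K hK n' K' hKK hn

end Pool.Agent.MPd439b2
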