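import Pool.Agent.Lib.MP_d439b2_co.R.Spec1

set_option autoImplicit false

namespace Pool.Agent.MPd439b2

namespace rY8Aux

variable {V : Type} {D : SimpleGraph V}

theorem sub {n : ℕ} {X Y : Set V} (h : Mv D n X Y) : Y ⊆ X := by
  induction h with
  | nil n X => exact subset_rfl
  | vert v _ ih => exact ih.trans Set.sdiff_subset
  | cliq C _ _ ih => exact ih.trans Set.sdiff_subset

theorem restr {n : ℕ} {X Y : Set V} (h : Mv D n X Y) : ∀ X' ⊆ X, Mv D n X' (X' ∩ Y) := by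
  induction h with
  | nil n X =>
    intro X' h
    rw [Set.inter_eq_left.2 h]
    exact Mv.nil n X'
  | @vert n X Y v h' ih =>
    intro X' hX
    have h1 := ih (X' \ {v}) (Set.sdiff_subset_sdiff_left hX)
    have h2 : (X' \ {v}) ∩ Y = X' ∩ Y := by
      ext x
      have h3 : x ∈ Y → x ∈ X \ {v} := fun hx => sub h' hx
      constructor
      · rintro ⟨hx, hy⟩
        exact ⟨hx.1, hy⟩
      · rintro ⟨hx, hy⟩
        exact ⟨⟨hx, (h3 hy).2⟩, hy⟩
    rw [h2] at h1
    exact Mv.vert v h1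
  | @cliq n X Y C hC h' ih =>
    intro X' hX
    have h1 := ih (X' \ C) (Set.sdiff_subset_sdiff_left hX)
    have h2 : (X' \ C) ∩ Y = X' ∩ Y := by
      ext x
      have h3 : x ∈ Y → x ∈ X \ C := fun hx => sub h' hx
      constructor
      · rintro ⟨hx, hy⟩
        exact ⟨hx.1, hy⟩
      · rintro ⟨hx, hy⟩
        exact ⟨⟨hx, (h3 hy).2⟩, hy⟩
    have h4 : X' \ (C ∩ X') = X' \ C := by
      ext x
      constructor
      · rintro ⟨hx, hy⟩
        exact ⟨hx, fun hc => hy ⟨hc, hx⟩⟩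
      · rintro ⟨hx, hy⟩
        exact ⟨hx, fun hc => hy hc.1⟩
    rw [h2, ← h4] at h1
    refine Mv.cliq (C ∩ X') ⟨Set.inter_subset_right, ?_, ?_⟩ h1
    · intro a ha b hb hab
      exact hC.2.1 a ha.1 b hb.1 hab
    · intro c hc a ha b hb
      rw [h4] at ha hb
      exact hC.2.2 c hc.1 a ⟨hX ha.1, ha.2⟩ b ⟨hX hb.1, hb.2⟩

theorem dis (h7 : S_Y7) {n : ℕ} {X Y : Set V} (h : Mv D n X Y) :
    ∀ c m, Dis D c m Y → Dis D c (m + n) X := by
  induction h with
  | nil n X =>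
    intro c m h
    exact h7 V D c c m (m + n) X X subset_rfl (Nat.le_add_right _ _) le_rfl h
  | vert v _ ih => exact fun c m h => Dis.vert v (ih c m h)
  | cliq C hC _ ih => exact fun c m h => Dis.cliq C hC (ih c m h)

theorem mono {n : ℕ} {X Y : Set V} (h : Mv D n X Y) : ∀ n', n ≤ n' → Mv D n' X Y := by
  induction h with
  | nil n X => exact fun n' _ => Mv.nil n' X
  | @vert n X Y v _ ih =>
    intro n' hn
    obtain ⟨k, rfl⟩ : ∃ k, n' = k + 1 := ⟨n' - 1, by omega⟩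
    exact Mv.vert v (ih k (by omega))
  | @cliq n X Y C hC _ ih =>
    intro n' hn
    obtain ⟨k, rfl⟩ : ∃ k, n' = k + 1 := ⟨n' - 1, by omega⟩
    exact Mv.cliq C hC (ih k (by omega))

theorem app {n : ℕ} {X Y : Set V} (h : Mv D n X Y) : ∀ m Z, Mv D m Y Z → Mv D (n + m) X Z := by
  induction h with
  | nil n X => exact fun m Z h => mono h _ (Nat.le_add_left _ _)
  | @vert n X Y v _ ih =>
    intro m Z h
    have h1 := Mv.vert v (ih m Z h)
    rwa [Nat.add_right_comm] at h1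
  | @cliq n X Y C hC _ ih =>
    intro m Z h
    have h1 := Mv.cliq C hC (ih m Z h)
    rwa [Nat.add_right_comm] at h1

end rY8Aux

theorem rY8 : (S_Y7) → S_Y8 := fun h7 _ _ _ _ _ h =>
  ⟨rY8Aux.sub h, rY8Aux.restr h, rY8Aux.dis h7 h, rY8Aux.app h, rY8Aux.mono h⟩

end Pool.Agent.MPd439b2
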