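import Pool.Agent.Lib.MP_d439b2_co.R.Spec1

/-!
# MP_d439b2_co, R/Y9 (helper51): layouts of complements of forests
-/

set_option autoImplicit false

namespace Pool.Agent.MPd439b2

namespace rY9Aux

variable {V : Type}

/-- the set `A`, with `y` added if `w ∈ A` -/
def Pl (y w : V) (A : Set V) : Set V := A ∪ {v | v = y ∧ w ∈ A}

theorem types_sub (G : SimpleGraph V) (Z : Set V) (y w : V)
    (hM : ∀ v ∈ Z, G.Adj y v → v = w) (A : Set V) (hA : A ⊆ Z \ {y}) :
    Types (restr G Z) (Pl y w A) ⊆ Types (restr G (Z \ {y})) A := by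
  rintro T ⟨hne, a, ha, rfl⟩
  rcases ha with ha | ⟨rfl, hwA⟩
  · refine ⟨hne, a, ha, ?_⟩
    ext v
    constructor
    · rintro ⟨⟨h1, h2, h3⟩, h4⟩
      have hv : v ≠ y := by
        rintro rfl
        have h5 : a = w := hM a h2 h1.symm
        exact h4 (Or.inr ⟨rfl, h5 ▸ ha⟩)
      exact ⟨⟨h1, hA ha, h3, hv⟩, fun h => h4 (Or.inl h)⟩
    · rintro ⟨⟨h1, h2, h3⟩, h4⟩
      refine ⟨⟨h1, h2.1, h3.1⟩, fun h => ?_⟩
      rcases h with h | ⟨h, _⟩
      · exact h4 h
      · exact h3.2 h
  · exfalso
    obtain ⟨v, ⟨h1, _, h3⟩, h4⟩ := hne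
    have h5 : v = w := hM v h3 h1
    exact h4 (Or.inl (h5 ▸ hwA))

theorem step (G : SimpleGraph V) (Z : Set V) (y w : V) (hwy : w ≠ y)
    (hM : ∀ v ∈ Z, G.Adj y v → v = w) (A : Set V) (hA : Lay (restr G (Z \ {y})) 1 A) :
    A ⊆ Z \ {y} → Lay (restr G Z) 1 (Pl y w A) := by
  induction hA with
  | empty =>
    intro _
    have h1 : Pl y w (∅ : Set V) = ∅ := by
      ext v
      constructor
      · rintro (h | ⟨_, h⟩)
        · exact h
        · exact h
      · intro h
        exact absurd h (Set.notMem_empty v)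
    rw [h1]
    exact Lay.empty
  | single v h =>
    intro hA
    by_cases hv : v = w
    · subst hv
      have h1 : Pl y v ({v} : Set V) = insert y {v} := by
        ext u
        constructor
        · rintro (hu | ⟨hu, _⟩)
          · exact Or.inr hu
          · exact Or.inl hu
        · rintro (hu | hu)
          · exact Or.inr ⟨hu, rfl⟩
          · exact Or.inl hu
      rw [h1]
      refine Lay.insert le_rfl (Lay.single' le_rfl v) (fun hu => hwy (Set.mem_singleton_iff.mp hu).symm) ?_
      rw [← h1]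
      exact (Set.encard_le_encard (types_sub G Z y v hM {v} hA)).trans h
    · have h1 : Pl y w ({v} : Set V) = {v} := by
        ext u
        constructor
        · rintro (hu | ⟨_, hu⟩)
          · exact hu
          · exact absurd (Set.mem_singleton_iff.mp hu).symm hv
        · intro hu
          exact Or.inl hu
      rw [h1]
      exact Lay.single' le_rfl v
  | @union A B _ _ hd ht ihA ihB =>
    intro hAB
    have h1 : Pl y w (A ∪ B) = Pl y w A ∪ Pl y w B := by
      ext u
      constructor
      · rintro ((hu | hu) | ⟨hu, (hw | hw)⟩)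
        · exact Or.inl (Or.inl hu)
        · exact Or.inr (Or.inl hu)
        · exact Or.inl (Or.inr ⟨hu, hw⟩)
        · exact Or.inr (Or.inr ⟨hu, hw⟩)
      · rintro ((hu | ⟨hu, hw⟩) | (hu | ⟨hu, hw⟩))
        · exact Or.inl (Or.inl hu)
        · exact Or.inr ⟨hu, Or.inl hw⟩
        · exact Or.inl (Or.inr hu)
        · exact Or.inr ⟨hu, Or.inr hw⟩
    have hA' : A ⊆ Z \ {y} := fun u hu => hAB (Or.inl hu)
    have hB' : B ⊆ Z \ {y} := fun u hu => hAB (Or.inr hu)
    have ht' : (Types (restr G Z) (Pl y w A ∪ Pl y w B)).encard ≤ 1 := by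
      rw [← h1]
      exact (Set.encard_le_encard (types_sub G Z y w hM (A ∪ B) hAB)).trans ht
    rw [h1]
    refine Lay.union (ihA hA') (ihB hB') ?_ ht'
    rw [Set.disjoint_left]
    rintro u (hu | ⟨hu, hw⟩) (hu' | ⟨hu', hw'⟩)
    · exact Set.disjoint_left.mp hd hu hu'
    · exact (hA' hu).2 hu'
    · exact (hB' hu').2 hu
    · exact Set.disjoint_left.mp hd hw hw'

theorem main [Finite V] (D : SimpleGraph V) : ∀ (n : ℕ) (Z : Set V), Z.ncard = n → CoF D Z →
    Lay (restr Dᶜ Z) 1 Z := by
  intro n
  induction n with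
  | zero =>
    intro Z hZ _
    have h1 : Z = ∅ := (Set.ncard_eq_zero (Set.toFinite Z)).mp hZ
    rw [h1]
    exact Lay.empty
  | succ n ih =>
    intro Z hZ hC
    have hne : Z.Nonempty := by
      rw [Set.nonempty_iff_ne_empty]
      rintro rfl
      rw [Set.ncard_empty] at hZ
      omega
    obtain ⟨y, hy, hM⟩ := hC Z (fun u hu => hu) hne
    have hZ' : (Z \ {y}).ncard = n := by
      rw [Set.ncard_sdiff_singleton_of_mem hy, hZ]
      rfl
    have hL := ih (Z \ {y}) hZ' (fun Y hY hYne => hC Y (fun u hu => (hY hu).1) hYne)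
    have hadj : ∀ v ∈ Z, (Dᶜ).Adj y v → v ∈ {w | w ∈ Z ∧ w ≠ y ∧ ¬ D.Adj y w} := by
      intro v hv h
      rw [SimpleGraph.compl_adj] at h
      exact ⟨hv, h.1.symm, h.2⟩
    rw [Set.ncard_le_one_iff_eq (Set.toFinite _)] at hM
    rcases hM with hM | ⟨w, hM⟩
    · have hG : restr Dᶜ Z = restr Dᶜ (Z \ {y}) := by
        ext u v
        constructor
        · rintro ⟨h1, h2, h3⟩
          refine ⟨h1, ⟨h2, ?_⟩, ⟨h3, ?_⟩⟩
          · intro hu
            have hu' : u = y := hu
            subst hu'
            have h4 := hadj v h3 h1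
            rw [hM] at h4
            exact h4
          · intro hv
            have hv' : v = y := hv
            subst hv'
            have h4 := hadj u h2 h1.symm
            rw [hM] at h4
            exact h4
        · rintro ⟨h1, h2, h3⟩
          exact ⟨h1, h2.1, h3.1⟩
      have hins : Z = insert y (Z \ {y}) := by
        ext u
        constructor
        · intro hu
          by_cases h : u = y
          · exact Or.inl h
          · exact Or.inr ⟨hu, h⟩
        · rintro (rfl | hu)
          · exact hy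
          · exact hu.1
      have hT : Types (restr Dᶜ Z) (insert y (Z \ {y})) = ∅ := by
        rw [← hins]
        rw [Set.eq_empty_iff_forall_notMem]
        rintro T ⟨⟨v, hv⟩, a, _, rfl⟩
        exact hv.2 hv.1.2.2
      have hL2 : Lay (restr Dᶜ Z) 1 (Z \ {y}) := by
        rw [hG]
        exact hL
      have h5 : Lay (restr Dᶜ Z) 1 (insert y (Z \ {y})) := by
        refine Lay.insert le_rfl hL2 (fun h => h.2 rfl) ?_
        rw [hT, Set.encard_empty]
        exact bot_le
      rw [← hins] at h5
      exact h5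
    · have hw : w ∈ {w | w ∈ Z ∧ w ≠ y ∧ ¬ D.Adj y w} := by
        rw [hM]
        rfl
      have hM' : ∀ v ∈ Z, (Dᶜ).Adj y v → v = w := by
        intro v hv h
        have h4 := hadj v hv h
        rw [hM] at h4
        exact h4
      have h5 := step Dᶜ Z y w hw.2.1 hM' (Z \ {y}) hL (fun u hu => hu)
      have h6 : Pl y w (Z \ {y}) = Z := by
        ext u
        constructor
        · rintro (hu | ⟨rfl, _⟩)
          · exact hu.1
          · exact hy
        · intro hu
          by_cases h : u = y
          · exact Or.inr ⟨h, hw.1, hw.2.1⟩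
          · exact Or.inl ⟨hu, h⟩
      rw [h6] at h5
      exact h5

end rY9Aux

theorem rY9 : (S_Y1) → S_Y9 := by
  intro h1 V _ D Z hC
  have h2 := rY9Aux.main D Z.ncard Z rfl hC
  have h3 := h1 V Dᶜ 1 Z h2
  rw [compl_compl] at h3
  exact h3

end Pool.Agent.MPd439b2
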