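import Pool.Agent.Lib.MP_d439b2_co.R.C1
import Pool.Agent.Lib.MP_d439b2_co.R.C2
import Pool.Agent.Lib.MP_d439b2_co.R.C3
import Pool.Agent.Lib.MP_d439b2_co.R.C4
import Pool.Agent.Lib.MP_d439b2_co.R.C5
import Pool.Agent.Lib.MP_d439b2_co.R.C6
import Pool.Agent.Lib.MP_d439b2_co.R.D1
import Pool.Agent.Lib.MP_d439b2_co.R.D2
import Pool.Agent.Lib.MP_d439b2_co.R.F1
import Pool.Agent.Lib.MP_d439b2_co.R.F2
import Pool.Agent.Lib.MP_d439b2_co.R.G1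
import Pool.Agent.Lib.MP_d439b2_co.R.G2
import Pool.Agent.Lib.MP_d439b2_co.R.G3
import Pool.Agent.Lib.MP_d439b2_co.R.K1
import Pool.Agent.Lib.MP_d439b2_co.R.K2
import Pool.Agent.Lib.MP_d439b2_co.R.K3
import Pool.Agent.Lib.MP_d439b2_co.R.K4
import Pool.Agent.Lib.MP_d439b2_co.R.K5
import Pool.Agent.Lib.MP_d439b2_co.R.K6
import Pool.Agent.Lib.MP_d439b2_co.R.K7
import Pool.Agent.Lib.MP_d439b2_co.R.P0
import Pool.Agent.Lib.MP_d439b2_co.R.P1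
import Pool.Agent.Lib.MP_d439b2_co.R.P2
import Pool.Agent.Lib.MP_d439b2_co.R.P3
import Pool.Agent.Lib.MP_d439b2_co.R.P4
import Pool.Agent.Lib.MP_d439b2_co.R.P5
import Pool.Agent.Lib.MP_d439b2_co.R.P6
import Pool.Agent.Lib.MP_d439b2_co.R.P7
import Pool.Agent.Lib.MP_d439b2_co.R.P8
import Pool.Agent.Lib.MP_d439b2_co.R.P9
import Pool.Agent.Lib.MP_d439b2_co.R.P10
import Pool.Agent.Lib.MP_d439b2_co.R.Y1
import Pool.Agent.Lib.MP_d439b2_co.R.Y2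
import Pool.Agent.Lib.MP_d439b2_co.R.Y3
import Pool.Agent.Lib.MP_d439b2_co.R.Y4
import Pool.Agent.Lib.MP_d439b2_co.R.Y5
import Pool.Agent.Lib.MP_d439b2_co.R.Y6
import Pool.Agent.Lib.MP_d439b2_co.R.Y7
import Pool.Agent.Lib.MP_d439b2_co.R.Y8
import Pool.Agent.Lib.MP_d439b2_co.R.Y9
import Pool.Agent.Lib.MP_d439b2_co.R.V1
import Pool.Agent.Lib.MP_d439b2_co.R.V2
import Pool.Agent.Lib.MP_d439b2_co.R.V3
import Pool.Agent.Lib.MP_d439b2_co.R.V4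
import Pool.Agent.Lib.MP_d439b2_co.R.V5
import Pool.Agent.Lib.MP_d439b2_co.R.V6
import Pool.Agent.Lib.MP_d439b2_co.R.V7
import Pool.Agent.Lib.MP_d439b2_co.R.V8
import Pool.Agent.Lib.MP_d439b2_co.R.V9
import Pool.Agent.Lib.MP_d439b2_co.R.V10
import Pool.Agent.Lib.MP_d439b2_co.R.V11
import Pool.Agent.Lib.MP_d439b2_co.R.V12
import Pool.Agent.Lib.MP_d439b2_co.R.V13
import Pool.Agent.Lib.MP_d439b2_co.R.V14
import Pool.Agent.Lib.MP_d439b2_co.R.V15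
import Pool.Agent.Lib.MP_d439b2_co.R.V16
import Pool.Agent.Lib.MP_d439b2_co.B.Path
import Pool.Agent.Lib.MP_d439b2_co.B.Ram
import Pool.Agent.Lib.MP_d439b2_co.B.Restr
import Pool.Agent.Lib.MP_d439b2_co.LayCW
import Pool.Agent.Lib.MP_d439b2_co.B.Fin1
import Pool.Agent.Lib.MP_d439b2_co.B.Fin2
import Pool.Agent.Lib.MP_d439b2_co.CWCut
import Pool.Agent.Lib.MP_d439b2_co.S2Closed
import Pool.Agent.Lib.MP_d439b2_co.SGUnb
import Pool.Agent.Lib.MP_d439b2_co.Legs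
import Pool.Agent.Lib.MP_d439b2_co.CoSClosed
import Pool.Agent.Lib.MP_d439b2_co.CoTClosed
import Pool.Agent.Lib.MP_d439b2_co.WTCut
import Pool.Agent.Lib.MP_d439b2_co.WTUnb
import Pool.Agent.Lib.MP_d439b2_co.GridUnb
import Pool.Agent.Lib.MP_d439b2_co.QSClosed
import Pool.Agent.Lib.MP_d439b2_co.QSUnb
import Pool.Agent.Lib.MP_d439b2_co.IntClosed
import Pool.Agent.Lib.MP_d439b2_co.A3Fam
import Pool.Agent.Lib.MP_d439b2_co.A3Closed

/-!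
# MP_d439b2_co, the rows `K_3 + P_1`, `K_4` with a pendant vertex and `K_5` with a vertex of degree two
-/

set_option autoImplicit false

namespace Pool.Agent.MPd439b2

namespace RFin

theorem y7 : S_Y7 := rY7 rY2
theorem y8 : S_Y8 := rY8 y7
theorem y6 : S_Y6 := rY6 rY3 rY4 rY5
theorem c1 : S_C1 := rC1 rF1
theorem c2 : S_C2 := rC2 rF1 c1
theorem d1 : S_D1 := rD1 rF2 c2 (rC4 c2 (rC3 rF1 c1)) (rC6 (rC5 rF2 c1) rY2 rY3 (rY9 rY1)) y8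
theorem d2 : S_D2 := rD2 d1 y7 y8
theorem p2 : S_P2 := rP2 rF1
theorem p3 : S_P3 := rP3 (rG1 d2 y7) rP0 p2 y7
theorem p6 : S_P6 := rP6 d2 (rP1 rF1) p2 p3 (rP5 rF1 p2 rP4 path) y7
theorem p8 : S_P8 := rP8 rG3 p6 (rP7 d1 rG2 y8) rY2 y6 y7
theorem p10 : S_P10 := rP10 d2 (rP9 d2 rP0 p8 y6) rY5 y6

theorem v6 : S_V6 := rV6 rK1
theorem v8 : S_V8 := rV8 rV2 v6 rV7
theorem v11 : S_V11 := rV11 rV3 (rV4 ram rV1) (rV5 rK1 rV2) v6 rV7 (rV9 rV2 v6 rV7 v8) rV10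
theorem v14 : S_V14 := rV14 rV12 rV13 rY5

/-- one of the two graphs belongs to each of the six classes -/
theorem nec (W₁ W₂ : Type) [Finite W₁] [Finite W₂] (H₁ : SimpleGraph W₁) (H₂ : SimpleGraph W₂)
    (h : BoundedCW H₁ H₂) : (InS2 H₁ ∨ InS2 H₂) ∧ (InCoS H₁ ∨ InCoS H₂) ∧ (InCoT H₁ ∨ InCoT H₂) ∧
      (InGrid H₁ ∨ InGrid H₂) ∧ (InQS H₁ ∨ InQS H₂) ∧ (InA3 H₁ ∨ InA3 H₂) :=
  Fin2Aux.six s2Closed (sgUnb cwCut) (coSClosed legs) (coTClosed legs)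
    (wtUnb cwCut wtCut) (gridUnb cwCut) (qsClosed legs) (qsUnb cwCut wtCut) (a3Fam cwCut)
    (a3Closed intClosed) W₁ W₂ H₁ H₂ h

/-- row `K_3 + P_1` -/
theorem rowK3P (W : Type) [Finite W] (H : SimpleGraph W) : BoundedCW K3P H ↔ InCoT H := by
  refine ⟨fun h => ?_, fun h => ?_⟩
  · rcases (nec _ _ _ _ h).2.2.1 with h' | h'
    · exact absurd h' rK7.1
    · exact h'
  · exact rK5 (rK2 rK1) rK3 p10 rY1 layCW W H h

/-- row `K_4` with a pendant vertex -/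
theorem rowK4P (W : Type) [Finite W] (H : SimpleGraph W) : BoundedCW K4P H ↔ InCoT H := by
  refine ⟨fun h => ?_, fun h => ?_⟩
  · rcases (nec _ _ _ _ h).2.2.1 with h' | h'
    · exact absurd h' rK7.2
    · exact h'
  · exact rK6 rK3 (rK4 rK1) p10 rY1 rY2 rY5 restrIMS layBFinal layCW W H h

/-- row `K_5` with a vertex of degree two -/
theorem rowK5P (W : Type) [Finite W] (H : SimpleGraph W) :
    BoundedCW K5P H ↔ InCoT H ∧ (InGrid K5P ∨ InGrid H) := by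
  refine ⟨fun h => ?_, fun h => ?_⟩
  · refine ⟨?_, (nec _ _ _ _ h).2.2.2.1⟩
    rcases (nec _ _ _ _ h).2.2.1 with h' | h'
    · exact absurd h' rV16
    · exact h'
  · exact rV15 rK3 p10 v11 v14 rY1 rY2 restrIMS layBFinal layCW W H h.1 h.2

end RFin

end Pool.Agent.MPd439b2
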