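import Pool.Agent.Lib.MP_d439b2_co.R.Spec4

/-!
# MP_d439b2_co, X0: five sets give a kite
-/

set_option autoImplicit false

namespace Pool.Agent.MPd439b2

theorem rX0 : S_X0 := by
  intro V G T0 T1 T2 T3 T4 c0 c1 c2 c3 c4 d01 d02 d03 d04 d12 d13 d14 d23 d24 d34
    t01 t02 t12 t14 t24 t03 n04 n13 n23 n34
  have m04 : ¬ Tch G T4 T0 := fun h => n04 h.symm
  have m13 : ¬ Tch G T3 T1 := fun h => n13 h.symm
  have m23 : ¬ Tch G T3 T2 := fun h => n23 h.symm
  have m34 : ¬ Tch G T4 T3 := fun h => n34 h.symm
  refine ⟨![T0, T1, T2, T3, T4], ?_, ?_, ?_, ?_⟩
  · intro w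
    exact Set.subset_univ _
  · intro w
    fin_cases w
    · exact c0
    · exact c1
    · exact c2
    · exact c3
    · exact c4
  · intro w w' hne
    fin_cases w <;> fin_cases w' <;>
      first
        | exact absurd rfl hne
        | exact d01 | exact d02 | exact d03 | exact d04 | exact d12
        | exact d13 | exact d14 | exact d23 | exact d24 | exact d34
        | exact d01.symm | exact d02.symm | exact d03.symm | exact d04.symm | exact d12.symm
        | exact d13.symm | exact d14.symm | exact d23.symm | exact d24.symm | exact d34.symm
  · intro w w' hne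
    fin_cases w <;> fin_cases w' <;>
      first
        | exact absurd rfl hne
        | exact iff_of_true (by simp [Kite]) t01 | exact iff_of_true (by simp [Kite]) t01.symm
        | exact iff_of_true (by simp [Kite]) t02 | exact iff_of_true (by simp [Kite]) t02.symm
        | exact iff_of_true (by simp [Kite]) t12 | exact iff_of_true (by simp [Kite]) t12.symm
        | exact iff_of_true (by simp [Kite]) t14 | exact iff_of_true (by simp [Kite]) t14.symm
        | exact iff_of_true (by simp [Kite]) t24 | exact iff_of_true (by simp [Kite]) t24.symm
        | exact iff_of_true (by simp [Kite]) t03 | exact iff_of_true (by simp [Kite]) t03.symm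
        | exact iff_of_false (by simp [Kite]) n04 | exact iff_of_false (by simp [Kite]) m04
        | exact iff_of_false (by simp [Kite]) n13 | exact iff_of_false (by simp [Kite]) m13
        | exact iff_of_false (by simp [Kite]) n23 | exact iff_of_false (by simp [Kite]) m23
        | exact iff_of_false (by simp [Kite]) n34 | exact iff_of_false (by simp [Kite]) m34

end Pool.Agent.MPd439b2
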