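import Pool.Agent.Lib.MP_d439b2_co.R.Spec4

/-!
# MP_d439b2_co, row `Kite`, X1: layouts from layouts of the prime sets
-/

set_option autoImplicit false

namespace Pool.Agent.MPd439b2

namespace rX1Aux

variable {V : Type}

theorem nbr {G : SimpleGraph V} {X : Set V} {a : V} (ha : a ∈ X) :
    (restr G X).neighborSet a = {u | u ∈ X ∧ G.Adj a u} := by
  ext u
  exact ⟨fun h => ⟨h.2.2, h.1⟩, fun h => ⟨h.2, ha, h.1⟩⟩

/-- (i) sets inside the module -/
theorem inner {G : SimpleGraph V} {k : ℕ} {X M : Set V} {m : V} (hM : Mod G X M) (hm : m ∈ M) {S : Set V}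
    (hL : Lay (restr G M) k S) : S ⊆ M → Lay (restr G X) (k + 1) S := by
  induction hL with
  | empty => exact fun _ => Lay.empty
  | single v _ => exact fun _ => Lay.single' (by omega) v
  | @union A B hA hB hd hT ihA ihB =>
    intro hS
    refine Lay.union (ihA (Set.subset_union_left.trans hS)) (ihB (Set.subset_union_right.trans hS)) hd ?_
    have hsub : Types (restr G X) (A ∪ B) ⊆
        (fun T => T ∪ {u | u ∈ X ∧ u ∉ M ∧ G.Adj m u}) '' (insert ∅ (Types (restr G M) (A ∪ B))) := by
      rintro T ⟨-, a, ha, rfl⟩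
      refine ⟨(restr G M).neighborSet a \ (A ∪ B), ?_, ?_⟩
      · by_cases h : ((restr G M).neighborSet a \ (A ∪ B)).Nonempty
        · exact Set.mem_insert_of_mem _ ⟨h, a, ha, rfl⟩
        · rw [Set.not_nonempty_iff_eq_empty] at h
          rw [h]
          exact Set.mem_insert _ _
      · have haM := hS ha
        have haX := hM.1 haM
        rw [nbr haM, nbr haX]
        ext u
        constructor
        · rintro (⟨⟨h1, h2⟩, h3⟩ | ⟨h1, h2, h3⟩)
          · exact ⟨⟨hM.1 h1, h2⟩, h3⟩
          · refine ⟨⟨h1, ?_⟩, fun h => h2 (hS h)⟩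
            rcases hM.2 u h1 h2 with h | h
            · exact (h a haM).symm
            · exact absurd h3.symm (h m hm)
        · rintro ⟨⟨h1, h2⟩, h3⟩
          by_cases hu : u ∈ M
          · exact Or.inl ⟨⟨hu, h2⟩, h3⟩
          · refine Or.inr ⟨h1, hu, ?_⟩
            rcases hM.2 u h1 hu with h | h
            · exact (h m hm).symm
            · exact absurd h2.symm (h a haM)
    calc (Types (restr G X) (A ∪ B)).encard ≤ _ := Set.encard_le_encard hsub
      _ ≤ (insert ∅ (Types (restr G M) (A ∪ B))).encard := Set.encard_image_le _ _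
      _ ≤ (Types (restr G M) (A ∪ B)).encard + 1 := Set.encard_insert_le _ _
      _ ≤ ((k + 1 : ℕ) : ℕ∞) := by
        push_cast
        exact add_le_add_left hT 1

/-- the types of a set which does not meet the module -/
theorem types1 {G : SimpleGraph V} {X M : Set V} {m : V} (hM : Mod G X M) (hm : m ∈ M) {S : Set V}
    (hS : S ⊆ X \ (M \ {m})) (hmS : m ∉ S) :
    (Types (restr G X) S).encard ≤ (Types (restr G (X \ (M \ {m}))) S).encard := by
  classical
  have hsub : Types (restr G X) S ⊆ (fun T => T ∪ {u | u ∈ M ∧ m ∈ T}) '' Types (restr G (X \ (M \ {m}))) S := by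
    rintro T ⟨hne, a, ha, rfl⟩
    have haX := (hS ha).1
    have haM : a ∉ M := by
      intro h
      apply (hS ha).2
      refine ⟨h, ?_⟩
      rintro rfl
      exact hmS ha
    have hmX : m ∈ X \ (M \ {m}) := ⟨hM.1 hm, fun h => h.2 rfl⟩
    have heq : (restr G X).neighborSet a \ S = ((restr G (X \ (M \ {m}))).neighborSet a \ S) ∪
        {u | u ∈ M ∧ m ∈ (restr G (X \ (M \ {m}))).neighborSet a \ S} := by
      rw [nbr haX, nbr (hS ha)]
      ext u
      constructor
      · rintro ⟨⟨h1, h2⟩, h3⟩
        by_cases hu : u ∈ M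
        · refine Or.inr ⟨hu, ⟨⟨hmX, ?_⟩, hmS⟩⟩
          rcases hM.2 a haX haM with h | h
          · exact h m hm
          · exact absurd h2 (h u hu)
        · exact Or.inl ⟨⟨⟨h1, fun h => hu h.1⟩, h2⟩, h3⟩
      · rintro (⟨⟨h1, h2⟩, h3⟩ | ⟨h1, ⟨-, h2⟩, -⟩)
        · exact ⟨⟨h1.1, h2⟩, h3⟩
        · refine ⟨⟨hM.1 h1, ?_⟩, ?_⟩
          · rcases hM.2 a haX haM with h | h
            · exact h u h1
            · exact absurd h2 (h m hm)
          · intro h
            apply (hS h).2
            refine ⟨h1, ?_⟩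
            rintro rfl
            exact hmS h
    refine ⟨(restr G (X \ (M \ {m}))).neighborSet a \ S, ⟨?_, a, ha, rfl⟩, heq.symm⟩
    by_contra h
    rw [Set.not_nonempty_iff_eq_empty] at h
    rw [heq, h] at hne
    obtain ⟨u, hu | hu⟩ := hne
    · exact hu
    · exact hu.2
  exact (Set.encard_le_encard hsub).trans (Set.encard_image_le _ _)

/-- the types of a set which contains the module -/
theorem types2 {G : SimpleGraph V} {X M : Set V} {m : V} (hM : Mod G X M) (hm : m ∈ M) {S : Set V}
    (hS : S ⊆ X \ (M \ {m})) (hmS : m ∈ S) :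
    (Types (restr G X) (S ∪ M)).encard ≤ (Types (restr G (X \ (M \ {m}))) S).encard := by
  apply Set.encard_le_encard
  have hmX : m ∈ X \ (M \ {m}) := ⟨hM.1 hm, fun h => h.2 rfl⟩
  have key : ∀ a ∈ S, (restr G X).neighborSet a \ (S ∪ M) = (restr G (X \ (M \ {m}))).neighborSet a \ S := by
    intro a ha
    rw [nbr (hS ha).1, nbr (hS ha)]
    ext u
    constructor
    · rintro ⟨⟨h1, h2⟩, h3⟩
      exact ⟨⟨⟨h1, fun h => h3 (Or.inr h.1)⟩, h2⟩, fun h => h3 (Or.inl h)⟩
    · rintro ⟨⟨h1, h2⟩, h3⟩
      refine ⟨⟨h1.1, h2⟩, ?_⟩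
      rintro (h | h)
      · exact h3 h
      · apply h1.2
        refine ⟨h, ?_⟩
        rintro rfl
        exact h3 hmS
  rintro T ⟨hne, a, ha, rfl⟩
  by_cases haS : a ∈ S
  · rw [key a haS] at hne ⊢
    exact ⟨hne, a, haS, rfl⟩
  · have haM : a ∈ M := by
      rcases ha with h | h
      · exact absurd h haS
      · exact h
    have heq : (restr G X).neighborSet a \ (S ∪ M) = (restr G X).neighborSet m \ (S ∪ M) := by
      rw [nbr (hM.1 haM), nbr (hM.1 hm)]
      ext u
      constructor
      · rintro ⟨⟨h1, h2⟩, h3⟩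
        refine ⟨⟨h1, ?_⟩, h3⟩
        rcases hM.2 u h1 (fun h => h3 (Or.inr h)) with h | h
        · exact (h m hm).symm
        · exact absurd h2.symm (h a haM)
      · rintro ⟨⟨h1, h2⟩, h3⟩
        refine ⟨⟨h1, ?_⟩, h3⟩
        rcases hM.2 u h1 (fun h => h3 (Or.inr h)) with h | h
        · exact (h a haM).symm
        · exact absurd h2.symm (h m hm)
    rw [heq, key m hmS] at hne ⊢
    exact ⟨hne, m, hmS, rfl⟩

/-- (ii) sets of the quotient -/
theorem outer {G : SimpleGraph V} {k : ℕ} {X M : Set V} {m : V} (hM : Mod G X M) (hm : m ∈ M)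
    (hMl : Lay (restr G X) (k + 1) M) {S : Set V} (hL : Lay (restr G (X \ (M \ {m}))) (k + 1) S) :
    S ⊆ X \ (M \ {m}) → (m ∉ S → Lay (restr G X) (k + 1) S) ∧ (m ∈ S → Lay (restr G X) (k + 1) (S ∪ M)) := by
  induction hL with
  | empty => exact fun _ => ⟨fun _ => Lay.empty, fun h => absurd h (Set.notMem_empty m)⟩
  | single v _ =>
    refine fun _ => ⟨fun _ => Lay.single' (by omega) v, fun h => ?_⟩
    have h1 : m = v := h
    rw [← h1, Set.union_eq_self_of_subset_left (Set.singleton_subset_iff.2 hm)]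
    exact hMl
  | @union A B hA hB hd hT ihA ihB =>
    intro hS
    obtain ⟨a1, a2⟩ := ihA (Set.subset_union_left.trans hS)
    obtain ⟨b1, b2⟩ := ihB (Set.subset_union_right.trans hS)
    have hdis : ∀ C : Set V, C ⊆ X \ (M \ {m}) → m ∉ C → Disjoint C M := by
      intro C hC hmC
      rw [Set.disjoint_left]
      intro u hu huM
      apply (hC hu).2
      refine ⟨huM, ?_⟩
      rintro rfl
      exact hmC hu
    refine ⟨fun hmS => ?_, fun hmS => ?_⟩
    · exact Lay.union (a1 fun h => hmS (Or.inl h)) (b1 fun h => hmS (Or.inr h)) hd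
        ((types1 hM hm hS hmS).trans hT)
    · have hty := (types2 hM hm hS hmS).trans hT
      rcases hmS with hmA | hmB
      · have hmB : m ∉ B := Set.disjoint_left.1 hd hmA
        have heq : A ∪ B ∪ M = (A ∪ M) ∪ B := by
          rw [Set.union_assoc, Set.union_comm B M, ← Set.union_assoc]
        rw [heq] at hty ⊢
        refine Lay.union (a2 hmA) (b1 hmB) ?_ hty
        rw [Set.disjoint_union_left]
        exact ⟨hd, (hdis B (Set.subset_union_right.trans hS) hmB).symm⟩
      · have hmA : m ∉ A := fun h => Set.disjoint_left.1 hd h hmB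
        have heq : A ∪ B ∪ M = A ∪ (B ∪ M) := Set.union_assoc _ _ _
        rw [heq] at hty ⊢
        refine Lay.union (a1 hmA) (b2 hmB) ?_ hty
        rw [Set.disjoint_union_right]
        exact ⟨hd, hdis A (Set.subset_union_left.trans hS) hmA⟩

end rX1Aux

open rX1Aux in
theorem rX1 : S_X1 := by
  intro V _ G k X
  obtain ⟨n, hn⟩ : ∃ n, X.ncard ≤ n := ⟨_, le_rfl⟩
  induction n generalizing X with
  | zero =>
    intro _
    have h1 : X = ∅ := (Set.ncard_eq_zero (Set.toFinite X)).1 (by omega)
    rw [h1]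
    exact Lay.empty
  | succ n ih =>
    intro hY
    by_cases hp : Prm G X
    · exact (hY X subset_rfl hp).mono (by omega)
    · unfold Prm at hp
      push Not at hp
      obtain ⟨M0, hM0, hM0X, hM0s⟩ := hp
      obtain ⟨M, ⟨hM, hMX, hMs⟩, hmin⟩ := (measure (fun M : Set V => M.ncard)).wf.has_min
        {M | Mod G X M ∧ M ≠ X ∧ M.Nontrivial} ⟨M0, hM0, hM0X, hM0s⟩
      obtain ⟨m, hm, m', hm', hmm⟩ := hMs
      have hprime : Prm G M := by
        intro M' hM'
        by_contra hcon
        push Not at hcon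
        obtain ⟨hc1, hc2⟩ := hcon
        have hmod : Mod G X M' := by
          refine ⟨hM'.1.trans hM.1, fun u hu huM' => ?_⟩
          by_cases huM : u ∈ M
          · exact hM'.2 u huM huM'
          · rcases hM.2 u hu huM with h | h
            · exact Or.inl fun x hx => h x (hM'.1 hx)
            · exact Or.inr fun x hx => h x (hM'.1 hx)
        have hlt : M'.ncard < M.ncard :=
          Set.ncard_lt_ncard (Set.ssubset_iff_subset_ne.2 ⟨hM'.1, hc1⟩) (Set.toFinite M)
        refine hmin M' ⟨hmod, ?_, hc2⟩ hlt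
        rintro rfl
        exact hc1 (Set.Subset.antisymm hM'.1 hM.1)
      have hMl : Lay (restr G X) (k + 1) M := inner hM hm (hY M hM.1 hprime) subset_rfl
      have hX' : (X \ (M \ {m})).ncard ≤ n := by
        have h1 : (X \ (M \ {m})).ncard < X.ncard := by
          apply Set.ncard_lt_ncard _ (Set.toFinite X)
          rw [Set.ssubset_iff_subset_ne]
          refine ⟨Set.sdiff_subset, ?_⟩
          intro h
          have h2 : m' ∈ X \ (M \ {m}) := by
            rw [h]
            exact hM.1 hm'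
          exact h2.2 ⟨hm', fun h3 => hmm h3.symm⟩
        omega
      have hXl := ih (X \ (M \ {m})) hX' (fun Y hYX => hY Y (hYX.trans Set.sdiff_subset))
      have h3 := (outer hM hm hMl hXl subset_rfl).2 ⟨hM.1 hm, fun h => h.2 rfl⟩
      have h4 : X \ (M \ {m}) ∪ M = X := by
        ext u
        constructor
        · rintro (h | h)
          · exact h.1
          · exact hM.1 h
        · intro h
          by_cases hu : u ∈ M
          · exact Or.inr hu
          · exact Or.inl ⟨h, fun h' => hu h'.1⟩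
      rwa [h4] at h3

end Pool.Agent.MPd439b2
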