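import Pool.Agent.Lib.MP_d439b2_co.R.Spec4

/-!
# MP_d439b2_co, R/X10: complete blocks, first part
-/

set_option autoImplicit false

namespace Pool.Agent.MPd439b2

namespace rX10Aux

variable {V : Type} {G : SimpleGraph V}

/-- X0 with four single vertices -/
theorem kt (hX0 : S_X0) (T0 : Set V) (t1 t2 t4 t3 : V) (hT : Conn G T0) (h3 : t3 ∉ T0)
    (h4 : t4 ∉ T0) (h12 : G.Adj t1 t2) (h14 : G.Adj t1 t4) (h24 : G.Adj t2 t4)
    (h01 : ∃ a ∈ T0, G.Adj a t1) (h02 : ∃ a ∈ T0, G.Adj a t2) (h03 : ∃ a ∈ T0, G.Adj a t3)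
    (h04 : ∀ a ∈ T0, ¬ G.Adj a t4) (h13 : ¬ G.Adj t1 t3) (h23 : ¬ G.Adj t2 t3)
    (h34 : ¬ G.Adj t3 t4) : IMS Kite G Set.univ := by
  have e1 : t1 ∉ T0 := fun h => h04 t1 h h14
  have e2 : t2 ∉ T0 := fun h => h04 t2 h h24
  have e13 : t1 ≠ t3 := fun h => h23 (h ▸ h12.symm)
  have e23 : t2 ≠ t3 := fun h => h13 (h ▸ h12)
  have e34 : t3 ≠ t4 := fun h => h13 (h ▸ h14)
  refine hX0 V G T0 {t1} {t2} {t3} {t4} hT (Conn.singleton G _) (Conn.singleton G _)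
    (Conn.singleton G _) (Conn.singleton G _) (Set.disjoint_singleton_right.2 e1)
    (Set.disjoint_singleton_right.2 e2) (Set.disjoint_singleton_right.2 h3)
    (Set.disjoint_singleton_right.2 h4) (Set.disjoint_singleton.2 h12.ne)
    (Set.disjoint_singleton.2 e13) (Set.disjoint_singleton.2 h14.ne)
    (Set.disjoint_singleton.2 e23) (Set.disjoint_singleton.2 h24.ne)
    (Set.disjoint_singleton.2 e34) ?_ ?_ ⟨t1, rfl, t2, rfl, h12⟩ ⟨t1, rfl, t4, rfl, h14⟩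
    ⟨t2, rfl, t4, rfl, h24⟩ ?_ ?_ ?_ ?_ ?_
  · obtain ⟨a, ha, h⟩ := h01
    exact ⟨a, ha, t1, rfl, h⟩
  · obtain ⟨a, ha, h⟩ := h02
    exact ⟨a, ha, t2, rfl, h⟩
  · obtain ⟨a, ha, h⟩ := h03
    exact ⟨a, ha, t3, rfl, h⟩
  · rintro ⟨a, ha, _, rfl, h⟩
    exact h04 a ha h
  · rintro ⟨_, rfl, _, rfl, h⟩
    exact h13 h
  · rintro ⟨_, rfl, _, rfl, h⟩
    exact h23 h
  · rintro ⟨_, rfl, _, rfl, h⟩
    exact h34 h

/-- a path is connected -/
theorem pconn (p : ℕ → V) (a l : ℕ) (hal : a ≤ l)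
    (h : ∀ i, a ≤ i → i < l → G.Adj (p i) (p (i + 1))) : Conn G (p '' Set.Icc a l) := by
  induction l, hal using Nat.le_induction with
  | base =>
    rw [Set.Icc_self, Set.image_singleton]
    exact Conn.singleton G _
  | succ l hl IH =>
    have h1 := (IH fun i hi hil => h i hi (by omega)).insert (v := p (l + 1))
      ⟨p l, ⟨l, ⟨hl, le_rfl⟩, rfl⟩, h l hl (Nat.lt_succ_self l)⟩
    have h2 : p '' Set.Icc a (l + 1) = insert (p (l + 1)) (p '' Set.Icc a l) := by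
      ext x
      constructor
      · rintro ⟨i, ⟨hi1, hi2⟩, rfl⟩
        rcases Nat.lt_or_ge i (l + 1) with h3 | h3
        · exact Or.inr ⟨i, ⟨hi1, by omega⟩, rfl⟩
        · have h4 : i = l + 1 := by omega
          exact Or.inl (by rw [h4])
      · rintro (h3 | ⟨i, ⟨hi1, hi2⟩, rfl⟩)
        · exact ⟨l + 1, ⟨by omega, le_rfl⟩, h3.symm⟩
        · exact ⟨i, ⟨hi1, by omega⟩, rfl⟩
    rw [h2]
    exact h1

end rX10Aux

open rX10Aux in
theorem rX10 : S_Path → S_X0 → S_X10 := by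
  classical
  intro hPath hX0 V _ G X L v hPrm hK hLoc hC
  obtain ⟨hLX, -, hL3, hvX, hvL, hvw, l1, l2, l3, l4⟩ := hLoc
  have hsplit : ∀ u ∈ X, u ∉ L → u ∈ Fl G X L ∨ u ∈ Rs G X L := by
    intro u hu huL
    by_cases h : ∀ w ∈ L, G.Adj u w
    · exact Or.inl ⟨hu, huL, h⟩
    · push Not at h
      exact Or.inr ⟨hu, huL, h⟩
  have hRL : ∀ e ∈ Rs G X L, e ∉ L := fun e he => he.2.1
  have hFR : ∀ f ∈ Fl G X L, f ∉ Rs G X L := by
    rintro f hf ⟨-, -, w, hw, h⟩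
    exact h (hf.2.2 w hw)
  have hLfin : L.Finite := Set.toFinite L
  have h3 : ∀ x y : V, ∃ z ∈ L, z ≠ x ∧ z ≠ y := by
    intro x y
    by_contra hcon
    push Not at hcon
    have h1 : L ⊆ {x, y} := by
      intro z hz
      by_cases hzx : z = x
      · exact Or.inl hzx
      · exact Or.inr (hcon z hz hzx)
    have h2 := Set.ncard_le_ncard h1 (Set.toFinite _)
    have h3 := Set.ncard_insert_le x {y}
    rw [Set.ncard_singleton] at h3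
    omega
  -- (1)
  have hG2 : ∀ a ∈ L, ∀ b ∈ L, (∀ e ∈ Rs G X L, ¬ G.Adj e a) → (∀ e ∈ Rs G X L, ¬ G.Adj e b) →
      a = b := by
    have hM : Mod G X {w | w ∈ L ∧ ∀ e ∈ Rs G X L, ¬ G.Adj e w} := by
      refine ⟨fun w hw => hLX hw.1, fun u hu huM => ?_⟩
      by_cases huL : u ∈ L
      · left
        intro m hm
        exact hC u huL m hm.1 (fun h => huM (h ▸ hm))
      · rcases hsplit u hu huL with h | h
        · exact Or.inl fun m hm => h.2.2 m hm.1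
        · exact Or.inr fun m hm => hm.2 u h
    rcases hPrm _ hM with h | h
    · have hv : v ∈ {w | w ∈ L ∧ ∀ e ∈ Rs G X L, ¬ G.Adj e w} := by
        rw [h]
        exact hvX
      exact absurd hv.1 hvL
    · intro a ha b hb h1 h2
      exact h ⟨ha, h1⟩ ⟨hb, h2⟩
  have hG1 : ∃ a ∈ L, ∃ b ∈ L, a ≠ b ∧ (∃ e ∈ Rs G X L, G.Adj e a) ∧ ∃ e ∈ Rs G X L, G.Adj e b := by
    obtain ⟨x, hx, -, -⟩ := h3 v v
    obtain ⟨y, hy, hyx, -⟩ := h3 x x
    obtain ⟨z, hz, hzx, hzy⟩ := h3 x y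
    by_cases h1 : ∃ e ∈ Rs G X L, G.Adj e x
    · by_cases h2 : ∃ e ∈ Rs G X L, G.Adj e y
      · exact ⟨x, hx, y, hy, hyx.symm, h1, h2⟩
      · refine ⟨x, hx, z, hz, hzx.symm, h1, ?_⟩
        by_contra h4
        push Not at h2 h4
        exact hzy (hG2 z hz y hy h4 h2)
    · refine ⟨y, hy, z, hz, hzy.symm, ?_, ?_⟩
      · by_contra h4
        push Not at h1 h4
        exact hyx (hG2 y hy x hx h4 h1)
      · by_contra h4
        push Not at h1 h4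
        exact hzx (hG2 z hz x hx h4 h1)
  -- (2)
  have hG3 : ∀ a ∈ L, ∀ b ∈ L, ∀ e ∈ Rs G X L, ∀ e' ∈ Rs G X L, a ≠ b → G.Adj e a → G.Adj e' b →
      ¬ G.Adj e e' := by
    intro x hx y hy e he e' he' hxy hex hey hee
    obtain ⟨hve, hve'⟩ := l4 x hx y hy e he e' he' hxy hex hey hee
    obtain ⟨z, hz, hzx, hzy⟩ := h3 x y
    apply hK
    refine kt hX0 {e, e'} x y z v (Conn.pair hee) ?_ ?_ (hC x hx y hy hxy) (hC x hx z hz hzx.symm)
      (hC y hy z hz hzy.symm) ⟨e, Or.inl rfl, hex⟩ ⟨e', Or.inr rfl, hey⟩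
      ⟨e, Or.inl rfl, hve.symm⟩ ?_ (fun h => hvw x hx h.symm) (fun h => hvw y hy h.symm) (hvw z hz)
    · rintro (h | h)
      · exact hve.ne h
      · exact hve'.ne h
    · rintro (h | h)
      · exact hRL e he (h ▸ hz)
      · exact hRL e' he' (h ▸ hz)
    · rintro a (rfl | rfl) h
      · exact hzx (l1 a he z hz x hx h hex)
      · exact hzy (l1 a he' z hz y hy h hey)
  -- (3)
  have h31 : ∀ f ∈ Fl G X L, ∀ x ∈ L, ∀ y ∈ L, ∀ e ∈ Rs G X L, ∀ e' ∈ Rs G X L, x ≠ y →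
      G.Adj e x → G.Adj e' y → G.Adj f e → G.Adj f e' := by
    intro f hf x hx y hy e he e' he' hxy hex hey hfe
    by_contra hfe'
    apply hK
    refine kt hX0 {y} x f e e' (Conn.singleton G y) (fun h => hRL e' he' (by rw [h]; exact hy))
      (fun h => hRL e he (by rw [h]; exact hy)) (hf.2.2 x hx).symm hex.symm hfe
      ⟨y, rfl, hC y hy x hx hxy.symm⟩ ⟨y, rfl, (hf.2.2 y hy).symm⟩ ⟨y, rfl, hey.symm⟩ ?_
      (fun h => hxy (l1 e' he' x hx y hy h.symm hey)) hfe' ?_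
    · rintro a rfl h
      exact hxy (l1 e he x hx a hy hex h.symm)
    · exact fun h => hG3 x hx y hy e he e' he' hxy hex hey h.symm
  have hdich : ∀ f ∈ Fl G X L, (∀ x ∈ L, ∀ e ∈ Rs G X L, G.Adj e x → G.Adj f e) ∨
      (∀ x ∈ L, ∀ e ∈ Rs G X L, G.Adj e x → ¬ G.Adj f e) := by
    intro f hf
    by_contra hcon
    push Not at hcon
    obtain ⟨⟨x, hx, e, he, hex, hfe⟩, y, hy, e', he', hey, hfe'⟩ := hcon
    by_cases hxy : x = y
    · subst hxy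
      obtain ⟨a, ha, b, hb, hab, ⟨ea, hea, heaa⟩, eb, heb, hebb⟩ := hG1
      by_cases hxa : x = a
      · subst hxa
        have h1 := h31 f hf x hx b hb e' he' eb heb hab hey hebb hfe'
        exact hfe (h31 f hf b hb x hx eb heb e he hab.symm hebb hex h1)
      · have h1 := h31 f hf x hx a ha e' he' ea hea hxa hey heaa hfe'
        exact hfe (h31 f hf a ha x hx ea hea e he (Ne.symm hxa) heaa hex h1)
    · exact hfe (h31 f hf y hy x hx e' he' e he (Ne.symm hxy) hey hex hfe')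
  -- (4)
  have h4 : ∀ f ∈ Fl G X L, (∀ x ∈ L, ∀ e ∈ Rs G X L, G.Adj e x → G.Adj f e) →
      ∀ D, IsComp G (Rs G X L) D → (∃ d ∈ D, ∃ x ∈ L, G.Adj d x) → ∀ z ∈ D, G.Adj f z := by
    intro f hf hf1 D hD hDL z hz
    by_contra hfz
    obtain ⟨d, hd, x₀, hx₀, hdx⟩ := hDL
    obtain ⟨l, p, hp0, ⟨x, hx, hpx⟩, hpD, hinj, hadj, -, hlast⟩ :=
      hPath V G D {z} {u | ∃ x ∈ L, G.Adj u x} hD.2.1 ⟨z, hz, rfl⟩ ⟨d, hd, x₀, hx₀, hdx⟩
    have hp0' : p 0 = z := hp0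
    have hpR : ∀ i ≤ l, p i ∈ Rs G X L := fun i hi => hD.1 (hpD i hi)
    have hl : 1 ≤ l := by
      by_contra hl
      have hl0 : l = 0 := by omega
      subst hl0
      rw [hp0'] at hpx
      exact hfz (hf1 x hx z (hD.1 hz) hpx)
    obtain ⟨y, hy, hyx, -⟩ := h3 x x
    have hno : ∀ i < l, ∀ w ∈ L, ¬ G.Adj (p i) w := fun i hi w hw h => by
      have := hlast i hi.le ⟨w, hw, h⟩
      omega
    apply hK
    refine kt hX0 (p '' Set.Icc 1 l) x f y z (pconn p 1 l hl fun i _ hi =>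
      (hadj i hi.le (i + 1) hi).2 (Or.inr rfl)) ?_ ?_ (hf.2.2 x hx).symm (hC x hx y hy hyx.symm)
      (hf.2.2 y hy) ⟨p l, ⟨l, ⟨hl, le_rfl⟩, rfl⟩, hpx⟩
      ⟨p l, ⟨l, ⟨hl, le_rfl⟩, rfl⟩, (hf1 x hx _ (hpR l le_rfl) hpx).symm⟩
      ⟨p 1, ⟨1, ⟨le_rfl, hl⟩, rfl⟩, ?_⟩ ?_ ?_ hfz ?_
    · rintro ⟨i, ⟨hi1, hi2⟩, hi⟩
      have := hinj i hi2 0 (Nat.zero_le _) (hi.trans hp0'.symm)
      omega
    · rintro ⟨i, ⟨hi1, hi2⟩, hi⟩
      exact hRL _ (hpR i hi2) (hi ▸ hy)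
    · rw [← hp0']
      exact (hadj 1 hl 0 (Nat.zero_le _)).2 (Or.inl rfl)
    · rintro _ ⟨i, ⟨hi1, hi2⟩, rfl⟩ h
      rcases Nat.lt_or_ge i l with h5 | h5
      · exact hno i h5 y hy h
      · have h6 : i = l := by omega
        rw [h6] at h
        exact hyx (l1 _ (hpR l le_rfl) y hy x hx h hpx)
    · rw [← hp0']
      exact fun h => hno 0 hl x hx h.symm
    · rw [← hp0']
      exact hno 0 hl y hy
  -- (5)
  have h5 : ∀ f₀ ∈ Fl G X L, (∀ x ∈ L, ∀ e ∈ Rs G X L, G.Adj e x → ¬ G.Adj f₀ e) →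
      ∀ f₁ ∈ Fl G X L, (∀ x ∈ L, ∀ e ∈ Rs G X L, G.Adj e x → G.Adj f₁ e) → G.Adj f₁ f₀ := by
    intro f₀ hf₀ h0 f₁ hf₁ h1
    by_contra hff
    obtain ⟨z, hz, -, -, -, ⟨e, he, hez⟩, -⟩ := hG1
    obtain ⟨x, hx, hxz, -⟩ := h3 z z
    obtain ⟨y, hy, hyz, hyx⟩ := h3 z x
    apply hK
    refine kt hX0 {f₁} x y f₀ e (Conn.singleton G f₁) (fun h => h0 z hz e he hez ?_)
      (fun h => h0 z hz e he hez ?_) (hC x hx y hy hyx.symm) (hf₀.2.2 x hx).symm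
      (hf₀.2.2 y hy).symm ⟨f₁, rfl, hf₁.2.2 x hx⟩ ⟨f₁, rfl, hf₁.2.2 y hy⟩
      ⟨f₁, rfl, h1 z hz e he hez⟩ ?_ (fun h => hxz (l1 e he x hx z hz h.symm hez))
      (fun h => hyz (l1 e he y hy z hz h.symm hez)) (fun h => h0 z hz e he hez h.symm)
    · have h' : e = f₁ := h
      exact absurd (h' ▸ he) (hFR f₁ hf₁)
    · have h' : f₀ = f₁ := h
      rw [h']
      exact h1 z hz e he hez
    · rintro a rfl
      exact hff
  -- (6)
  have h6 : ∀ f₀ ∈ Fl G X L, (∀ x ∈ L, ∀ e ∈ Rs G X L, G.Adj e x → ¬ G.Adj f₀ e) →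
      ∀ f₁ ∈ Fl G X L, (∀ x ∈ L, ∀ e ∈ Rs G X L, G.Adj e x → G.Adj f₁ e) →
      ∀ D, IsComp G (Rs G X L) D → (∀ d ∈ D, ∀ x ∈ L, ¬ G.Adj d x) → (∃ d ∈ D, G.Adj d f₀) →
      ∀ z ∈ D, G.Adj f₁ z := by
    intro f₀ hf₀ h0 f₁ hf₁ h1 D hD hDL hDf z hz
    by_contra hfz
    have hff := h5 f₀ hf₀ h0 f₁ hf₁ h1
    obtain ⟨d, hd, hdf⟩ := hDf
    obtain ⟨l, p, hp0, hpl, hpD, hinj, hadj, -, -⟩ :=
      hPath V G D {z} {u | G.Adj u f₀} hD.2.1 ⟨z, hz, rfl⟩ ⟨d, hd, hdf⟩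
    have hp0' : p 0 = z := hp0
    have hpl' : G.Adj (p l) f₀ := hpl
    have hpR : ∀ i ≤ l, p i ∈ Rs G X L := fun i hi => hD.1 (hpD i hi)
    obtain ⟨x, hx, -, -, -, ⟨e, he, hex⟩, -⟩ := hG1
    have heD : e ∉ D := fun h => hDL e h x hx hex
    have hno : ∀ d ∈ D, ¬ G.Adj d e := fun d hd h => hD.2.2 e he ⟨heD, d, hd, h⟩
    have hconn : Conn G (insert f₀ (p '' Set.Icc 1 l)) := by
      rcases Nat.lt_or_ge 0 l with hl | hl
      · exact (pconn p 1 l hl fun i _ hi => (hadj i hi.le (i + 1) hi).2 (Or.inr rfl)).insert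
          ⟨p l, ⟨l, ⟨hl, le_rfl⟩, rfl⟩, hpl'⟩
      · have h7 : p '' Set.Icc 1 l = ∅ := by
          rw [Set.Icc_eq_empty (by omega), Set.image_empty]
        rw [h7, insert_empty_eq]
        exact Conn.singleton G _
    apply hK
    refine kt hX0 (insert f₀ (p '' Set.Icc 1 l)) x f₁ e z hconn ?_ ?_ (hf₁.2.2 x hx).symm hex.symm
      (h1 x hx e he hex) ⟨f₀, Or.inl rfl, hf₀.2.2 x hx⟩ ⟨f₀, Or.inl rfl, hff.symm⟩ ?_ ?_ ?_ hfz ?_
    · rintro (h | ⟨i, ⟨hi1, hi2⟩, hi⟩)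
      · exact hFR f₀ hf₀ (h ▸ hD.1 hz)
      · have := hinj i hi2 0 (Nat.zero_le _) (hi.trans hp0'.symm)
        omega
    · rintro (h | ⟨i, ⟨hi1, hi2⟩, hi⟩)
      · exact hFR f₀ hf₀ (h ▸ he)
      · exact heD (hi ▸ hpD i hi2)
    · rcases Nat.lt_or_ge 0 l with hl | hl
      · refine ⟨p 1, Or.inr ⟨1, ⟨le_rfl, hl⟩, rfl⟩, ?_⟩
        rw [← hp0']
        exact (hadj 1 hl 0 (Nat.zero_le _)).2 (Or.inl rfl)
      · have h7 : l = 0 := by omega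
        rw [h7, hp0'] at hpl'
        exact ⟨f₀, Or.inl rfl, hpl'.symm⟩
    · rintro a (h | ⟨i, ⟨hi1, hi2⟩, rfl⟩)
      · rw [h]
        exact h0 x hx e he hex
      · exact hno _ (hpD i hi2)
    · exact fun h => hDL z hz x hx h.symm
    · exact hno z hz
  -- (7)
  have h7 : ∀ f ∈ Fl G X L, ¬ ∀ x ∈ L, ∀ e ∈ Rs G X L, G.Adj e x → G.Adj f e := by
    intro f hf hf1
    let F0 : Set V := {f | f ∈ Fl G X L ∧ ∀ x ∈ L, ∀ e ∈ Rs G X L, G.Adj e x → ¬ G.Adj f e}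
    let M : Set V := {u | u ∈ L ∨ u ∈ F0 ∨ ∃ D, IsComp G (Rs G X L) D ∧ u ∈ D ∧
      ∃ d ∈ D, ∃ y, (y ∈ L ∨ y ∈ F0) ∧ G.Adj d y}
    have hfR : f ∉ Rs G X L := hFR f hf
    have hM : Mod G X M := by
      refine ⟨?_, fun u hu huM => ?_⟩
      · rintro u (h | h | ⟨D, hD, h, -⟩)
        · exact hLX h
        · exact h.1.1
        · exact (hD.1 h).1
      · have huL : u ∉ L := fun h => huM (Or.inl h)
        rcases hsplit u hu huL with h | h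
        · left
          have hu1 : ∀ x ∈ L, ∀ e ∈ Rs G X L, G.Adj e x → G.Adj u e := by
            rcases hdich u h with h8 | h8
            · exact h8
            · exact absurd (Or.inr (Or.inl ⟨h, h8⟩)) huM
          rintro m (hm | hm | ⟨D, hD, hm, d, hd, y, hy | hy, hdy⟩)
          · exact h.2.2 m hm
          · exact h5 m hm.1 hm.2 u h hu1
          · exact h4 u h hu1 D hD ⟨d, hd, y, hy, hdy⟩ m hm
          · by_cases h9 : ∃ d ∈ D, ∃ x ∈ L, G.Adj d x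
            · exact h4 u h hu1 D hD h9 m hm
            · push Not at h9
              exact h6 y hy.1 hy.2 u h hu1 D hD h9 ⟨d, hd, hdy⟩ m hm
        · right
          obtain ⟨C, hC1, hC2, hC3, hC4⟩ := exists_comp G h
          have hCc : IsComp G (Rs G X L) C := ⟨hC1, hC3, hC4⟩
          rintro m (hm | hm | ⟨D, hD, hm, hd⟩) hum
          · exact huM (Or.inr (Or.inr ⟨C, hCc, hC2, u, hC2, m, Or.inl hm, hum⟩))
          · exact huM (Or.inr (Or.inr ⟨C, hCc, hC2, u, hC2, m, Or.inr hm, hum⟩))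
          · have huD : u ∉ D := fun h8 => huM (Or.inr (Or.inr ⟨D, hD, h8, hd⟩))
            exact hD.2.2 u h ⟨huD, m, hm, hum.symm⟩
    have hfM : f ∉ M := by
      rintro (h | h | ⟨D, hD, h, -⟩)
      · exact hf.2.1 h
      · obtain ⟨z, hz, -, -, -, ⟨e, he, hez⟩, -⟩ := hG1
        exact h.2 z hz e he hez (hf1 z hz e he hez)
      · exact hfR (hD.1 h)
    rcases hPrm M hM with h | h
    · exact hfM (by rw [h]; exact hf.1)
    · obtain ⟨x, hx, -, -⟩ := h3 v v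
      obtain ⟨y, hy, hyx, -⟩ := h3 x x
      exact hyx (h (Or.inl hy) (Or.inl hx))
  refine ⟨hG1, hG2, hG3, fun f hf e he a ha hea hfe => ?_⟩
  rcases hdich f hf with h | h
  · exact h7 f hf h
  · exact h a ha e he hea hfe

end Pool.Agent.MPd439b2
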