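import Pool.Agent.Lib.MP_d439b2_co.R.Spec4

/-!
# MP_d439b2_co, row `Kite`: X11, complete blocks, second part
-/

set_option autoImplicit false

namespace Pool.Agent.MPd439b2

namespace rX11Aux

variable {V : Type} {G : SimpleGraph V}

theorem dj {A B : Set V} (h : ∀ a ∈ A, a ∉ B) : Disjoint A B := Set.disjoint_left.mpr fun _ ha hb => h _ ha hb

theorem nt {A B : Set V} (h : ∀ a ∈ A, ∀ b ∈ B, ¬ G.Adj a b) : ¬ Tch G A B := by
  rintro ⟨a, ha, b, hb, hab⟩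
  exact h a ha b hb hab

theorem ts {a b : V} (h : G.Adj a b) : Tch G {a} {b} := ⟨a, rfl, b, rfl, h⟩

theorem pair_le (a b : V) : ({a, b} : Set V).ncard ≤ 2 := by
  have h := Set.ncard_insert_le a ({b} : Set V)
  rw [Set.ncard_singleton] at h
  exact h

/-- a connected subset of `X` meeting a component is contained in it -/
theorem comp_sub {X D E : Set V} {v : V} (hD : IsComp G X D) (hv : v ∈ D) (hE : Conn G E)
    (hEX : E ⊆ X) (hvE : v ∈ E) : E ⊆ D := by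
  have h := hE.eq_of_nb (C := D ∩ E) Set.inter_subset_right ⟨v, hv, hvE⟩ (by
    intro w hw hwn
    obtain ⟨h1, d, hd, hdw⟩ := hwn
    exact hD.2.2 w (hEX hw) ⟨fun h => h1 ⟨h, hw⟩, d, hd.1, hdw⟩)
  rw [← h]; exact Set.inter_subset_left

/-- a kite with four single vertices `y, x, f, e` and the set `D`: `y; x, f; D; e` -/
theorem kite1 (h0 : S_X0) {D : Set V} {y x f e : V} (hD : Conn G D) (hyx : G.Adj y x)
    (hyf : G.Adj y f) (hxf : G.Adj x f) (hye : G.Adj y e) (hxe : ¬ G.Adj x e) (hfe : ¬ G.Adj f e)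
    (hyD : y ∉ D) (hxD : x ∉ D) (hfD : f ∉ D) (heD : e ∉ D) (hxe' : x ≠ e) (hfe' : f ≠ e)
    (tx : ∃ d ∈ D, G.Adj x d) (tf : ∃ d ∈ D, G.Adj f d) (ny : ∀ d ∈ D, ¬ G.Adj y d)
    (ne : ∀ d ∈ D, ¬ G.Adj e d) : IMS Kite G Set.univ := by
  refine h0 V G {y} {x} {f} {e} D (Conn.singleton G y) (Conn.singleton G x) (Conn.singleton G f)
    (Conn.singleton G e) hD ?_ ?_ ?_ ?_ ?_ ?_ ?_ ?_ ?_ ?_ (ts hyx) (ts hyf) (ts hxf) ?_ ?_ (ts hye)
    ?_ ?_ ?_ ?_
  · exact Set.disjoint_singleton.mpr hyx.ne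
  · exact Set.disjoint_singleton.mpr hyf.ne
  · exact Set.disjoint_singleton.mpr hye.ne
  · exact Set.disjoint_singleton_left.mpr hyD
  · exact Set.disjoint_singleton.mpr hxf.ne
  · exact Set.disjoint_singleton.mpr hxe'
  · exact Set.disjoint_singleton_left.mpr hxD
  · exact Set.disjoint_singleton.mpr hfe'
  · exact Set.disjoint_singleton_left.mpr hfD
  · exact Set.disjoint_singleton_left.mpr heD
  · obtain ⟨d, hd, h⟩ := tx
    exact ⟨x, rfl, d, hd, h⟩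
  · obtain ⟨d, hd, h⟩ := tf
    exact ⟨f, rfl, d, hd, h⟩
  · refine nt fun a ha b hb => ?_
    rw [Set.mem_singleton_iff] at ha
    subst ha
    exact ny b hb
  · refine nt fun a ha b hb => ?_
    rw [Set.mem_singleton_iff] at ha hb
    subst ha
    subst hb
    exact hxe
  · refine nt fun a ha b hb => ?_
    rw [Set.mem_singleton_iff] at ha hb
    subst ha
    subst hb
    exact hfe
  · refine nt fun a ha b hb => ?_
    rw [Set.mem_singleton_iff] at ha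
    subst ha
    exact ne b hb

/-- a kite with the set `D` as centre: `D; x, f; z; e` -/
theorem kite2 (h0 : S_X0) {D : Set V} {x f z e : V} (hD : Conn G D) (hxf : G.Adj x f)
    (hxz : G.Adj x z) (hfz : G.Adj f z) (hxe : ¬ G.Adj x e) (hfe : ¬ G.Adj f e) (hez : ¬ G.Adj e z)
    (hxD : x ∉ D) (hfD : f ∉ D) (hzD : z ∉ D) (heD : e ∉ D) (hxe' : x ≠ e) (hfe' : f ≠ e)
    (hez' : e ≠ z) (tx : ∃ d ∈ D, G.Adj d x) (tf : ∃ d ∈ D, G.Adj d f) (te : ∃ d ∈ D, G.Adj d e)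
    (nz : ∀ d ∈ D, ¬ G.Adj d z) : IMS Kite G Set.univ := by
  refine h0 V G D {x} {f} {e} {z} hD (Conn.singleton G x) (Conn.singleton G f)
    (Conn.singleton G e) (Conn.singleton G z) ?_ ?_ ?_ ?_ ?_ ?_ ?_ ?_ ?_ ?_ ?_ ?_ (ts hxf) (ts hxz)
    (ts hfz) ?_ ?_ ?_ ?_ ?_
  · exact Set.disjoint_singleton_right.mpr hxD
  · exact Set.disjoint_singleton_right.mpr hfD
  · exact Set.disjoint_singleton_right.mpr heD
  · exact Set.disjoint_singleton_right.mpr hzD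
  · exact Set.disjoint_singleton.mpr hxf.ne
  · exact Set.disjoint_singleton.mpr hxe'
  · exact Set.disjoint_singleton.mpr hxz.ne
  · exact Set.disjoint_singleton.mpr hfe'
  · exact Set.disjoint_singleton.mpr hfz.ne
  · exact Set.disjoint_singleton.mpr hez'
  · obtain ⟨d, hd, h⟩ := tx
    exact ⟨d, hd, x, rfl, h⟩
  · obtain ⟨d, hd, h⟩ := tf
    exact ⟨d, hd, f, rfl, h⟩
  · obtain ⟨d, hd, h⟩ := te
    exact ⟨d, hd, e, rfl, h⟩
  · refine nt fun a ha b hb => ?_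
    rw [Set.mem_singleton_iff] at hb
    subst hb
    exact nz a ha
  · refine nt fun a ha b hb => ?_
    rw [Set.mem_singleton_iff] at ha hb
    subst ha
    subst hb
    exact hxe
  · refine nt fun a ha b hb => ?_
    rw [Set.mem_singleton_iff] at ha hb
    subst ha
    subst hb
    exact hfe
  · refine nt fun a ha b hb => ?_
    rw [Set.mem_singleton_iff] at ha hb
    subst ha
    subst hb
    exact hez

/-- part (1) -/
theorem part1 (h0 : S_X0) {X L : Set V} {v : V} (hB : Blk G X)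
    (hK : ¬ IMS Kite G Set.univ) (hL : Loc G X v L) (hC : CompleteOn G L)
    (h1 : ∃ a ∈ L, ∃ b ∈ L, a ≠ b ∧ (∃ e ∈ Rs G X L, G.Adj e a) ∧ ∃ e ∈ Rs G X L, G.Adj e b)
    (h4 : ∀ f ∈ Fl G X L, ∀ e ∈ Rs G X L, ∀ a ∈ L, G.Adj e a → ¬ G.Adj f e)
    {D : Set V} (hD : IsComp G (Rs G X L) D) {x : V} (hx : x ∈ L) (hxD : x ∈ nb G D) : v ∈ D := by
  by_contra hvD
  obtain ⟨l1, l2, l3, l4, l5, l6, l7, l8, l9, l10⟩ := hL
  have hDX : D ⊆ X := fun d hd => (hD.1 hd).1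
  have hDL : ∀ d ∈ D, d ∉ L := fun d hd => (hD.1 hd).2.1
  have huniq : ∀ w ∈ L, w ∈ nb G D → w = x := fun w hw hwD => l9 D hD hvD w hw x hx hwD hxD
  have hvx : v ≠ x := fun h => l5 (h ▸ hx)
  have hcX : Conn G (X \ {x}) := hB.2 x (l1 hx) ⟨v, l4, hvx⟩
  have hDsub : D ⊆ X \ {x} := fun d hd => ⟨hDX hd, fun h => hDL d hd (by
    rw [Set.mem_singleton_iff] at h; rw [h]; exact hx)⟩
  have hDne : D ≠ X \ {x} := fun h => hvD (by rw [h]; exact ⟨l4, hvx⟩)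
  obtain ⟨d, hd, f, hf, hdf⟩ := hcX.2 D hDsub hD.2.1.1 hDne
  have hfnb : f ∈ nb G D := ⟨hf.2, d, hd, hdf⟩
  have hfx : f ≠ x := hf.1.2
  have hfL : f ∉ L := fun h => hfx (huniq f h hfnb)
  have hfR : f ∉ Rs G X L := fun h => hD.2.2 f h hfnb
  have hfF : ∀ w ∈ L, G.Adj f w := by
    intro w hw
    by_contra hn
    exact hfR ⟨hf.1.1, hfL, w, hw, hn⟩
  have hfFl : f ∈ Fl G X L := ⟨hf.1.1, hfL, hfF⟩
  obtain ⟨y, hy, hyx, e, he, hey⟩ : ∃ y ∈ L, y ≠ x ∧ ∃ e ∈ Rs G X L, G.Adj e y := by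
    obtain ⟨a, ha, b, hb, hab, ⟨e, he, hea⟩, e', he', heb⟩ := h1
    by_cases hax : a = x
    · exact ⟨b, hb, fun h => hab (hax.trans h.symm), e', he', heb⟩
    · exact ⟨a, ha, hax, e, he, hea⟩
  have heL : e ∉ L := he.2.1
  have heD : e ∉ D := fun h => hyx (huniq y hy ⟨fun h' => hDL y h' hy, e, h, hey⟩)
  obtain ⟨d', hd', hdx⟩ := hxD.2
  apply hK
  refine kite1 h0 (D := D) (y := y) (x := x) (f := f) (e := e) hD.2.1 (hC y hy x hx hyx)
    (hfF y hy).symm (hfF x hx).symm hey.symm ?_ (h4 f hfFl e he y hy hey)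
    (fun h => hDL y h hy) (fun h => hDL x h hx) hf.2 heD (fun h => heL (h ▸ hx)) ?_
    ⟨d', hd', hdx.symm⟩ ⟨d, hd, hdf.symm⟩ ?_ ?_
  · intro h
    exact hyx (l7 e he y hy x hx hey h.symm)
  · intro h
    subst h
    obtain ⟨w, hw, hn⟩ := he.2.2
    exact hn (hfF w hw)
  · intro d hd h
    exact hyx (huniq y hy ⟨fun h' => hDL y h' hy, d, hd, h.symm⟩)
  · intro d hd h
    exact hD.2.2 e he ⟨heD, d, hd, h.symm⟩

/-- part (2) -/
theorem part2 [Finite V] (h0 : S_X0) {X L : Set V} {v : V} (hB : Blk G X)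
    (hK : ¬ IMS Kite G Set.univ) (hL : Loc G X v L) (hC : CompleteOn G L)
    (h1 : ∃ a ∈ L, ∃ b ∈ L, a ≠ b ∧ (∃ e ∈ Rs G X L, G.Adj e a) ∧ ∃ e ∈ Rs G X L, G.Adj e b)
    (h4 : ∀ f ∈ Fl G X L, ∀ e ∈ Rs G X L, ∀ a ∈ L, G.Adj e a → ¬ G.Adj f e) :
    Fl G X L = ∅ := by
  have hp1 := fun {D : Set V} (hD : IsComp G (Rs G X L) D) {x : V} (hx : x ∈ L)
    (hxD : x ∈ nb G D) => part1 h0 hB hK hL hC h1 h4 hD hx hxD
  rw [Set.eq_empty_iff_forall_notMem]
  intro f hf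
  obtain ⟨l1, l2, l3, l4, l5, l6, l7, l8, l9, l10⟩ := hL
  have hLne : L.Nonempty := l2.1.1
  have hvR : v ∈ Rs G X L := by
    obtain ⟨w, hw⟩ := hLne
    exact ⟨l4, l5, w, hw, l6 w hw⟩
  obtain ⟨D, hDR, hvD, hDc, hDn⟩ := exists_comp G hvR
  have hD : IsComp G (Rs G X L) D := ⟨hDR, hDc, hDn⟩
  -- every element of Rs with a neighbour in L is in D
  have hall : ∀ e ∈ Rs G X L, ∀ w ∈ L, G.Adj e w → e ∈ D := by
    intro e he w hw hew
    obtain ⟨D', hDR', heD', hDc', hDn'⟩ := exists_comp G he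
    have hv' : v ∈ D' := hp1 ⟨hDR', hDc', hDn'⟩ hw ⟨fun h => (hDR' h).2.1 hw, e, heD', hew⟩
    exact comp_sub hD hvD hDc' hDR' hv' heD'
  let B : Set V := {u | u ∈ D ∧ ∀ w ∈ L, ¬ G.Adj u w}
  have hvB : v ∈ B := ⟨hvD, l6⟩
  obtain ⟨Q, hQB, hvQ, hQc, hQn⟩ := exists_comp G hvB
  have hQD : Q ⊆ D := fun q hq => (hQB hq).1
  have hQne : Q ≠ D := by
    intro h
    obtain ⟨a, ha, b, hb, hab, ⟨e, he, hea⟩, e', he', heb⟩ := h1
    have : e ∈ Q := by rw [h]; exact hall e he a ha hea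
    exact (hQB this).2 a ha hea
  obtain ⟨q, hq, e, he, hqe⟩ := hDc.2 Q hQD ⟨v, hvQ⟩ hQne
  have heR : e ∈ Rs G X L := hDR he.1
  obtain ⟨x, hx, hex⟩ : ∃ x ∈ L, G.Adj e x := by
    by_contra hcon
    push Not at hcon
    exact hQn e ⟨he.1, hcon⟩ ⟨he.2, q, hq, hqe⟩
  have hvf : G.Adj v f := l8 f hf
  obtain ⟨y, hy, hyx, e', he', hey'⟩ : ∃ y ∈ L, y ≠ x ∧ ∃ e ∈ Rs G X L, G.Adj e y := by
    obtain ⟨a, ha, b, hb, hab, ⟨e, he, hea⟩, e', he', heb⟩ := h1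
    by_cases hax : a = x
    · exact ⟨b, hb, fun h => hab (hax.trans h.symm), e', he', heb⟩
    · exact ⟨a, ha, hax, e, he, hea⟩
  obtain ⟨z, hz, hzx, hzy⟩ : ∃ z ∈ L, z ≠ x ∧ z ≠ y := by
    by_contra hcon
    push Not at hcon
    have hsub : L ⊆ {x, y} := by
      intro z hz
      by_cases h : z = x
      · exact Or.inl h
      · exact Or.inr (hcon z hz h)
    have h2 := Set.ncard_le_ncard hsub (Set.toFinite _)
    have h3 : ({x, y} : Set V).ncard ≤ 2 := pair_le x y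
    omega
  -- Q' = insert e Q
  have hQ'c : Conn G (insert e Q) := hQc.insert ⟨q, hq, hqe⟩
  have hQ'R : insert e Q ⊆ Rs G X L := Set.insert_subset heR (fun u hu => hDR (hQD hu))
  have hQ'L : ∀ u ∈ insert e Q, u ∉ L := fun u hu => (hQ'R hu).2.1
  have hQ'n : ∀ u ∈ insert e Q, ∀ w ∈ L, G.Adj u w → w = x := by
    intro u hu w hw huw
    rcases hu with rfl | hu
    · exact l7 u heR w hw x hx huw hex
    · exact absurd huw ((hQB hu).2 w hw)
  have hFR : ∀ u ∈ Rs G X L, f ≠ u := by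
    intro u hu h
    subst h
    obtain ⟨w, hw, hn⟩ := hu.2.2
    exact hn (hf.2.2 w hw)
  have he'Q : e' ∉ insert e Q := by
    intro h
    exact hyx (hQ'n e' h y hy hey')
  have hxe' : ¬ G.Adj x e' := fun h => hyx (l7 e' he' y hy x hx hey' h.symm)
  have hfe' : ¬ G.Adj f e' := h4 f hf e' he' y hy hey'
  have hxe'' : x ≠ e' := fun h => he'.2.1 (h ▸ hx)
  apply hK
  by_cases ht : ∃ d ∈ insert e Q, G.Adj d e'
  · -- kite(Q'; x, f; z; e')
    refine kite2 h0 (D := insert e Q) (x := x) (f := f) (z := z) (e := e') hQ'c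
      (hf.2.2 x hx).symm (hC x hx z hz hzx.symm) (hf.2.2 z hz) hxe' hfe' ?_
      (fun h => hQ'L x h hx) (fun h => hFR f (hQ'R h) rfl) (fun h => hQ'L z h hz) he'Q
      hxe'' (hFR e' he') (fun h => he'.2.1 (h ▸ hz)) ⟨e, Set.mem_insert _ _, hex⟩
      ⟨v, Set.mem_insert_of_mem _ hvQ, hvf⟩ ht ?_
    · intro h
      exact hzy (l7 e' he' z hz y hy h hey')
    · intro d hd h
      exact hzx (hQ'n d hd z hz h)
  · push Not at ht
    refine kite1 h0 (D := insert e Q) (y := y) (x := x) (f := f) (e := e') hQ'c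
      (hC y hy x hx hyx) (hf.2.2 y hy).symm (hf.2.2 x hx).symm hey'.symm hxe' hfe'
      (fun h => hQ'L y h hy) (fun h => hQ'L x h hx) (fun h => hFR f (hQ'R h) rfl) he'Q
      hxe'' (hFR e' he') ⟨e, Set.mem_insert _ _, hex.symm⟩
      ⟨v, Set.mem_insert_of_mem _ hvQ, hvf.symm⟩ ?_ ?_
    · intro d hd h
      exact hyx (hQ'n d hd y hy h.symm)
    · intro d hd h
      exact ht d hd h.symm

/-- part (3) -/
theorem part3 (h0 : S_X0) {X L : Set V} {v : V} (hB : Blk G X)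
    (hK : ¬ IMS Kite G Set.univ) (hL : Loc G X v L) (hC : CompleteOn G L)
    (h1 : ∃ a ∈ L, ∃ b ∈ L, a ≠ b ∧ (∃ e ∈ Rs G X L, G.Adj e a) ∧ ∃ e ∈ Rs G X L, G.Adj e b)
    (h4 : ∀ f ∈ Fl G X L, ∀ e ∈ Rs G X L, ∀ a ∈ L, G.Adj e a → ¬ G.Adj f e)
    (hF : Fl G X L = ∅) : X \ L = Rs G X L ∧ Conn G (X \ L) := by
  have hp1 := fun {D : Set V} (hD : IsComp G (Rs G X L) D) {x : V} (hx : x ∈ L)
    (hxD : x ∈ nb G D) => part1 h0 hB hK hL hC h1 h4 hD hx hxD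
  obtain ⟨l1, l2, l3, l4, l5, l6, l7, l8, l9, l10⟩ := hL
  have hLne : L.Nonempty := l2.1.1
  have hXR : X \ L = Rs G X L := by
    apply Set.Subset.antisymm
    · intro u hu
      by_contra hn
      have : u ∈ Fl G X L := by
        refine ⟨hu.1, hu.2, fun w hw => ?_⟩
        by_contra hn'
        exact hn ⟨hu.1, hu.2, w, hw, hn'⟩
      rw [hF] at this
      exact this
    · intro u hu
      exact ⟨hu.1, hu.2.1⟩
  refine ⟨hXR, ?_⟩
  rw [hXR]
  have hvR : v ∈ Rs G X L := by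
    obtain ⟨w, hw⟩ := hLne
    exact ⟨l4, l5, w, hw, l6 w hw⟩
  obtain ⟨D, hDR, hvD, hDc, hDn⟩ := exists_comp G hvR
  have hD : IsComp G (Rs G X L) D := ⟨hDR, hDc, hDn⟩
  have hDe : D = Rs G X L := by
    apply Set.Subset.antisymm hDR
    intro u hu
    obtain ⟨D', hDR', huD', hDc', hDn'⟩ := exists_comp G hu
    have hsub : D' ⊆ X := fun d hd => (hDR' hd).1
    have hne : D' ≠ X := by
      intro h
      obtain ⟨w, hw⟩ := hLne
      have : w ∈ D' := by rw [h]; exact l1 hw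
      exact (hDR' this).2.1 hw
    obtain ⟨d, hd, a, ha, hda⟩ := hB.1.2 D' hsub ⟨u, huD'⟩ hne
    have haL : a ∈ L := by
      by_contra haL
      have : a ∈ Rs G X L := by rw [← hXR]; exact ⟨ha.1, haL⟩
      exact hDn' a this ⟨ha.2, d, hd, hda⟩
    have hv' : v ∈ D' := hp1 ⟨hDR', hDc', hDn'⟩ haL ⟨ha.2, d, hd, hda⟩
    exact comp_sub hD hvD hDc' hDR' hv' huD'
  rw [← hDe]
  exact hDc

end rX11Aux

open rX11Aux in
theorem rX11 : S_X0 → S_X10 → S_X11 := by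
  intro h0 h10 V _ G X L v hP hB hK hL hC
  obtain ⟨h1, h2, h3, h4⟩ := h10 V G X L v hP hK hL hC
  have hF := part2 h0 hB hK hL hC h1 h4
  obtain ⟨hXR, hconn⟩ := part3 h0 hB hK hL hC h1 h4 hF
  refine ⟨hF, hconn, ?_⟩
  obtain ⟨l1, l2, l3, l4, l5, l6, l7, l8, l9, l10⟩ := hL
  by_contra hcard
  have h4L : 4 ≤ L.ncard := by omega
  classical
  -- neighbours in L
  let N : Set V → Set V := fun Z => {w | w ∈ L ∧ ∃ u ∈ Z, G.Adj u w}
  let 𝒵 : Set (Set V) := {Z | Z ⊆ X \ L ∧ Conn G Z ∧ (N Z).ncard ≤ 2}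
  have h𝒵 : 𝒵.Nonempty := by
    refine ⟨{v}, Set.singleton_subset_iff.mpr ⟨l4, l5⟩, Conn.singleton G v, ?_⟩
    have : N {v} = ∅ := by
      rw [Set.eq_empty_iff_forall_notMem]
      rintro w ⟨hw, u, hu, huw⟩
      rw [Set.mem_singleton_iff] at hu
      subst hu
      exact l6 w hw huw
    rw [this, Set.ncard_empty]
    omega
  obtain ⟨Z, hZ, hmax⟩ := Set.exists_max_image 𝒵 Set.ncard (Set.toFinite _) h𝒵
  have hZne : Z ≠ X \ L := by
    intro h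
    have hsub : (L \ N Z).ncard ≤ 1 := by
      rw [Set.ncard_le_one (Set.toFinite _)]
      intro a ha b hb
      refine h2 a ha.1 b hb.1 ?_ ?_
      · intro e he hea
        exact ha.2 ⟨ha.1, e, by rw [h, hXR]; exact he, hea⟩
      · intro e he heb
        exact hb.2 ⟨hb.1, e, by rw [h, hXR]; exact he, heb⟩
    have h5 : L.ncard ≤ (L \ N Z).ncard + (N Z).ncard :=
      Set.ncard_le_ncard_sdiff_add_ncard _ _ (Set.toFinite _)
    have := hZ.2.2
    omega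
  obtain ⟨c, hc, p, hp, hcp⟩ := hconn.2 Z hZ.1 hZ.2.1.1 hZne
  have hpR : p ∈ Rs G X L := by rw [← hXR]; exact hp.1
  have hins : ¬ (N (insert p Z)).ncard ≤ 2 := by
    intro h
    have h5 : insert p Z ∈ 𝒵 := ⟨Set.insert_subset hp.1 hZ.1, hZ.2.1.insert ⟨c, hc, hcp⟩, h⟩
    have h6 := hmax _ h5
    rw [Set.ncard_insert_of_notMem hp.2 (Set.toFinite _)] at h6
    omega
  have hNi : N (insert p Z) ⊆ N Z ∪ N {p} := by
    rintro w ⟨hw, u, hu, huw⟩
    rcases hu with rfl | hu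
    · exact Or.inr ⟨hw, u, rfl, huw⟩
    · exact Or.inl ⟨hw, u, hu, huw⟩
  have hNp : (N {p}).ncard ≤ 1 := by
    rw [Set.ncard_le_one (Set.toFinite _)]
    rintro a ⟨ha, u, hu, hua⟩ b ⟨hb, u', hu', hub⟩
    rw [Set.mem_singleton_iff] at hu hu'
    rw [hu] at hua
    rw [hu'] at hub
    exact l7 p hpR a ha b hb hua hub
  have hN2 : (N Z).ncard = 2 := by
    have h5 := Set.ncard_le_ncard hNi (Set.toFinite _)
    have h6 := Set.ncard_union_le (N Z) (N {p})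
    have := hZ.2.2
    omega
  obtain ⟨x, y, hxy, hNxy⟩ := Set.ncard_eq_two.mp hN2
  obtain ⟨z', hz', hz'N⟩ : ∃ z' ∈ N {p}, z' ∉ N Z := by
    by_contra hcon
    push Not at hcon
    apply hins
    have : N (insert p Z) ⊆ N Z := hNi.trans (Set.union_subset subset_rfl hcon)
    have h5 := Set.ncard_le_ncard this (Set.toFinite _)
    omega
  have hxN : x ∈ N Z := by rw [hNxy]; exact Or.inl rfl
  have hyN : y ∈ N Z := by rw [hNxy]; exact Or.inr rfl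
  obtain ⟨hx, ux, hux, huxx⟩ := hxN
  obtain ⟨hy, uy, huy, huyy⟩ := hyN
  obtain ⟨hz'L, p', hp', hpz'⟩ := hz'
  rw [Set.mem_singleton_iff] at hp'
  subst hp'
  have hpu : ∀ w ∈ L, G.Adj p' w → w = z' := fun w hw h => l7 p' hpR w hw z' hz'L h hpz'
  have hz'x : z' ≠ x := fun h => hz'N (by rw [h, hNxy]; exact Or.inl rfl)
  have hz'y : z' ≠ y := fun h => hz'N (by rw [h, hNxy]; exact Or.inr rfl)
  obtain ⟨z, hz, hzx, hzy, hzz'⟩ : ∃ z ∈ L, z ≠ x ∧ z ≠ y ∧ z ≠ z' := by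
    by_contra hcon
    push Not at hcon
    have hsub : L ⊆ {x, y, z'} := by
      intro z hz
      by_cases h : z = x
      · exact Or.inl h
      by_cases h' : z = y
      · exact Or.inr (Or.inl h')
      · exact Or.inr (Or.inr (hcon z hz h h'))
    have h5 := Set.ncard_le_ncard hsub (Set.toFinite _)
    have h6 : ({x, y, z'} : Set V).ncard ≤ 3 := by
      have h7 := Set.ncard_insert_le x ({y, z'} : Set V)
      have h8 := pair_le y z'
      omega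
    omega
  have hZL : ∀ u ∈ Z, u ∉ L := fun u hu => (hZ.1 hu).2
  apply hK
  refine kite2 h0 (D := Z) (x := x) (f := y) (z := z) (e := p') hZ.2.1 (hC x hx y hy hxy)
    (hC x hx z hz hzx.symm) (hC y hy z hz hzy.symm) ?_ ?_ ?_ (fun h => hZL x h hx)
    (fun h => hZL y h hy) (fun h => hZL z h hz) hp.2 ?_ ?_ ?_ ⟨ux, hux, huxx⟩ ⟨uy, huy, huyy⟩
    ⟨c, hc, hcp⟩ ?_
  · intro h
    exact hz'x (hpu x hx h.symm).symm
  · intro h
    exact hz'y (hpu y hy h.symm).symm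
  · intro h
    exact hzz' (hpu z hz h)
  · intro h
    exact hp.1.2 (h ▸ hx)
  · intro h
    exact hp.1.2 (h ▸ hy)
  · intro h
    exact hp.1.2 (h ▸ hz)
  · intro d hd h
    have : z ∈ N Z := ⟨hz, d, hd, h⟩
    rw [hNxy] at this
    rcases this with h' | h'
    · exact hzx h'
    · exact hzy h'

end Pool.Agent.MPd439b2
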