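import Pool.Agent.Lib.MP_d439b2_co.R.Spec4

/-!
# MP_d439b2_co, row `Kite`, X12: a vertex of degree two, first case
-/

set_option autoImplicit false

namespace Pool.Agent.MPd439b2

namespace rX12Aux

variable {V : Type} {G : SimpleGraph V} {X L : Set V}

/-- `u` is not adjacent to `L` -/
def Unc (G : SimpleGraph V) (L : Set V) (u : V) : Prop := ∀ w ∈ L, ¬ G.Adj u w

/-- the general hypotheses -/
structure Ctx (G : SimpleGraph V) (X L : Set V) : Prop where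
  kite : ¬ IMS Kite G Set.univ
  sub : L ⊆ X
  blk : Blk G L
  three : 3 ≤ L.ncard
  conn : Conn G (X \ L)
  one : One1 G X L
  all : ∀ w ∈ L, ∃ e ∈ X, e ∉ L ∧ G.Adj e w

/-- the vertices `s i, ..., s j` -/
def Seg (s : ℕ → V) (i j : ℕ) : Set V := {x | ∃ t, i ≤ t ∧ t ≤ j ∧ x = s t}

theorem seg_conn (s : ℕ → V) (i : ℕ) : ∀ d : ℕ,
    (∀ t, i ≤ t → t < i + d → G.Adj (s t) (s (t + 1))) → Conn G (Seg s i (i + d))
  | 0, _ => by
    have h1 : Seg s i (i + 0) = {s i} := by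
      ext x
      constructor
      · rintro ⟨t, h1, h2, rfl⟩
        have h3 : t = i := by omega
        rw [h3]
        rfl
      · rintro rfl
        exact ⟨i, le_rfl, by omega, rfl⟩
    rw [h1]
    exact Conn.singleton G _
  | d + 1, h => by
    have ih := seg_conn s i d (fun t h1 h2 => h t h1 (by omega))
    have h1 : Seg s i (i + (d + 1)) = insert (s (i + d + 1)) (Seg s i (i + d)) := by
      ext x
      constructor
      · rintro ⟨t, h1, h2, rfl⟩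
        by_cases ht : t = i + d + 1
        · left
          rw [ht]
        · right
          exact ⟨t, h1, by omega, rfl⟩
      · rintro (rfl | ⟨t, h1, h2, rfl⟩)
        · exact ⟨i + d + 1, by omega, by omega, rfl⟩
        · exact ⟨t, h1, by omega, rfl⟩
    rw [h1]
    exact ih.insert ⟨s (i + d), ⟨i + d, by omega, le_rfl, rfl⟩, h (i + d) (by omega) (by omega)⟩

theorem seg_conn' {s : ℕ → V} {i j : ℕ} (hij : i ≤ j)
    (h : ∀ t, i ≤ t → t < j → G.Adj (s t) (s (t + 1))) : Conn G (Seg s i j) := by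
  obtain ⟨d, rfl⟩ := Nat.exists_eq_add_of_le hij
  exact seg_conn s i d h

theorem Ctx.third (c : Ctx G X L) (a b : V) : ∃ w ∈ L, w ≠ a ∧ w ≠ b := by
  by_contra hcon
  push Not at hcon
  have h1 : L ⊆ {a, b} := by
    intro w hw
    by_cases h : w = a
    · exact Or.inl h
    · exact Or.inr (hcon w hw h)
  have h2 := Set.ncard_le_ncard h1 (Set.toFinite _)
  have h3 : ({a, b} : Set V).ncard ≤ 2 := Set.ncard_insert_le _ _ |>.trans (by simp)
  have := c.three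
  omega

/-- (I) -/
theorem stepI [Finite V] (h0 : S_X0) (h3 : S_X3) (c : Ctx G X L) {Z : Set V} (hZ : Z ⊆ X \ L)
    (hc : Conn G Z) {a b p : V} (ha : a ∈ L) (hb : b ∈ L) (hab : a ≠ b)
    (hza : ∃ z ∈ Z, G.Adj z a) (hzb : ∃ z ∈ Z, G.Adj z b)
    (hcol : ∀ z ∈ Z, ∀ w ∈ L, G.Adj z w → w = a ∨ w = b) (hp : p ∈ X \ L) (hpu : Unc G L p)
    (hpZ : p ∉ Z) : ∀ z ∈ Z, ¬ G.Adj p z := by
  intro z hz hpz
  obtain ⟨w, hw, hwa, hwb⟩ := c.third a b
  have hwZ : ∀ z ∈ Z, ¬ G.Adj z w := fun z hz h => (hcol z hz w hw h).elim hwa hwb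
  obtain ⟨P, Q, hPQ, hd, cP, cQ, tP, tQ, tPQ, ⟨x, hxP, hx⟩, ⟨y, hyQ, hy⟩⟩ :=
    h3 V G L {a, b} w c.blk hw (by rintro u (rfl | rfl) <;> assumption)
      (by rintro (h | h); exact hwa h; exact hwb h) ⟨a, Or.inl rfl, b, Or.inr rfl, hab⟩
  have hPL : P ⊆ L := fun u hu => by
    have h1 : u ∈ L \ {w} := hPQ ▸ Or.inl hu
    exact h1.1
  have hQL : Q ⊆ L := fun u hu => by
    have h1 : u ∈ L \ {w} := hPQ ▸ Or.inr hu
    exact h1.1
  have hwP : w ∉ P := fun hu => by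
    have h1 : w ∈ L \ {w} := hPQ ▸ Or.inl hu
    exact h1.2 rfl
  have hwQ : w ∉ Q := fun hu => by
    have h1 : w ∈ L \ {w} := hPQ ▸ Or.inr hu
    exact h1.2 rfl
  have tZ : ∀ S : Set V, ∀ x ∈ S, x ∈ ({a, b} : Set V) → Tch G Z S := by
    rintro S x hxS (rfl | hxb)
    · obtain ⟨z, hz, h⟩ := hza
      exact ⟨z, hz, x, hxS, h⟩
    · obtain ⟨z, hz, h⟩ := hzb
      have : x = b := hxb
      subst this
      exact ⟨z, hz, x, hxS, h⟩
  have dZ : ∀ S : Set V, S ⊆ L → Disjoint Z S := fun S hS =>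
    Set.disjoint_left.2 fun u hu hu' => (hZ hu).2 (hS hu')
  have dp : ∀ S : Set V, S ⊆ L → Disjoint S {p} := fun S hS =>
    Set.disjoint_left.2 fun u hu hu' => by
      have h1 : u = p := hu'
      subst h1
      exact hp.2 (hS hu)
  have np : ∀ S : Set V, S ⊆ L → ¬ Tch G S {p} := by
    rintro S hS ⟨u, hu, p', hp', h⟩
    have h1 : p' = p := hp'
    subst h1
    exact hpu u (hS hu) h.symm
  have hwL : ({w} : Set V) ⊆ L := Set.singleton_subset_iff.2 hw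
  refine c.kite (h0 V G Z P Q {p} {w} hc cP cQ (Conn.singleton G p) (Conn.singleton G w)
    (dZ P hPL) (dZ Q hQL) (Set.disjoint_singleton_right.2 hpZ) (dZ _ hwL) hd (dp P hPL)
    (Set.disjoint_singleton_right.2 hwP) (dp Q hQL) (Set.disjoint_singleton_right.2 hwQ)
    (dp _ hwL).symm (tZ P x hxP hx) (tZ Q y hyQ hy) tPQ tP.symm tQ.symm
    ⟨z, hz, p, rfl, hpz.symm⟩ ?_ (np P hPL) (np Q hQL) (fun h => np _ hwL h.symm))
  rintro ⟨u, hu, w', hw', h⟩
  have h1 : w' = w := hw'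
  subst h1
  exact hwZ u hu h

/-- (II) -/
theorem stepII [Finite V] (h0 : S_X0) (h3 : S_X3) (c : Ctx G X L) {q e a : V} {K : Set V}
    (hq : q ∈ X \ L) (hqu : Unc G L q) (he : e ∈ K) (ha : a ∈ L) (hea : G.Adj e a)
    (heq : G.Adj e q) (hK : Conn G K) (hKX : K ⊆ X \ L) (hqK : q ∉ K) :
    ∀ u ∈ K, ∀ w ∈ L, G.Adj u w → w = a := by
  obtain ⟨Z, hZK, heZ, hZc, hZn⟩ := exists_comp G (A := {u | u ∈ K ∧ ∀ w ∈ L, G.Adj u w → w = a})
    (v := e) ⟨he, fun w hw h => c.one e (hKX he).1 (hKX he).2 w hw a ha h hea⟩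
  by_cases hZ : Z = K
  · intro u hu
    exact (hZK (by rw [hZ]; exact hu)).2
  · exfalso
    obtain ⟨z, hz, p, ⟨hpK, hpZ⟩, hzp⟩ := hK.2 Z (fun u hu => (hZK hu).1) ⟨e, heZ⟩ hZ
    have hp : ∃ b ∈ L, G.Adj p b ∧ b ≠ a := by
      by_contra hcon
      push Not at hcon
      exact hZn p ⟨hpK, hcon⟩ ⟨hpZ, z, hz, hzp⟩
    obtain ⟨b, hb, hpb, hba⟩ := hp
    refine stepI h0 h3 c (Z := insert p Z) (a := a) (b := b) (p := q) ?_
      (hZc.insert ⟨z, hz, hzp⟩) ha hb hba.symm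
      ⟨e, Or.inr heZ, hea⟩ ⟨p, Or.inl rfl, hpb⟩ ?_ hq hqu ?_ e (Or.inr heZ) heq.symm
    · rintro u (rfl | hu)
      · exact hKX hpK
      · exact hKX (hZK hu).1
    · rintro u (rfl | hu) w hw h
      · exact Or.inr (c.one u (hKX hpK).1 (hKX hpK).2 w hw b hb h hpb)
      · exact Or.inl ((hZK hu).2 w hw h)
    · rintro (rfl | hu)
      · exact hqK hpK
      · exact hqK (hZK hu).1

/-- the data of a path with uncoloured interior -/
structure PathD (G : SimpleGraph V) (X L : Set V) (n : ℕ) (s : ℕ → V) (a w : V) : Prop where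
  mem : ∀ i ≤ n, s i ∈ X \ L
  inj : ∀ i ≤ n, ∀ j ≤ n, s i = s j → i = j
  adj : ∀ i, i < n → G.Adj (s i) (s (i + 1))
  ha : a ∈ L
  hw : w ∈ L
  haw : a ≠ w
  h0 : G.Adj (s 0) a
  hn : G.Adj (s n) w
  unc : ∀ i, 0 < i → i < n → Unc G L (s i)

theorem PathD.reverse {n : ℕ} {s : ℕ → V} {a w : V} (h : PathD G X L n s a w) :
    PathD G X L n (fun i => s (n - i)) w a where
  mem := fun i _ => h.mem _ (by omega)
  inj := fun i hi j hj hij => by
    have := h.inj _ (by omega) _ (by omega) hij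
    omega
  adj := fun i hi => by
    have h1 := h.adj (n - (i + 1)) (by omega)
    have h2 : n - (i + 1) + 1 = n - i := by omega
    rw [h2] at h1
    exact h1.symm
  ha := h.hw
  hw := h.ha
  haw := h.haw.symm
  h0 := by simpa using h.hn
  hn := by simpa using h.h0
  unc := fun i h1 h2 => h.unc _ (by omega) (by omega)

theorem PathD.half [Finite V] (h0 : S_X0) (h3 : S_X3) (c : Ctx G X L) {n : ℕ} {s : ℕ → V}
    {a w : V} (h : PathD G X L n s a w) {u b : V} {i : ℕ} (hu : u ∈ X \ L)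
    (huP : ∀ t ≤ n, u ≠ s t) (hb : b ∈ L) (hub : G.Adj u b) (hba : b ≠ a) (hi : 0 < i)
    (hin : i < n) (hui : G.Adj u (s i)) : n ≤ i + 1 := by
  by_contra hcon
  push Not at hcon
  refine stepI h0 h3 c (Z := insert u (Seg s 0 i)) (a := a) (b := b) (p := s (i + 1)) ?_
    ((seg_conn' (Nat.zero_le i) fun t _ ht => h.adj t (by omega)).insert
      ⟨s i, ⟨i, by omega, le_rfl, rfl⟩, hui.symm⟩) h.ha hb hba.symm
    ⟨s 0, Or.inr ⟨0, le_rfl, by omega, rfl⟩, h.h0⟩ ⟨u, Or.inl rfl, hub⟩ ?_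
    (h.mem _ (by omega)) (h.unc _ (by omega) hcon) ?_ (s i)
    (Or.inr ⟨i, by omega, le_rfl, rfl⟩) (h.adj i hin).symm
  · rintro x (rfl | ⟨t, _, ht, rfl⟩)
    · exact hu
    · exact h.mem t (by omega)
  · rintro x (rfl | ⟨t, _, ht, rfl⟩) y hy hxy
    · exact Or.inr (c.one x hu.1 hu.2 y hy b hb hxy hub)
    · by_cases ht0 : t = 0
      · subst ht0
        exact Or.inl (c.one _ (h.mem 0 (by omega)).1 (h.mem 0 (by omega)).2 y hy a h.ha hxy h.h0)
      · exact absurd hxy (h.unc t (by omega) (by omega) y hy)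
  · rintro (hx | ⟨t, _, ht, hx⟩)
    · exact huP (i + 1) (by omega) hx.symm
    · have := h.inj _ (by omega) _ (by omega) hx
      omega

/-- there is no such path -/
theorem PathD.false [Finite V] (h0 : S_X0) (h3 : S_X3) (c : Ctx G X L) {n : ℕ} {s : ℕ → V}
    {a w : V} (h : PathD G X L n s a w) (hn : 3 ≤ n) : False := by
  obtain ⟨x, hx, hxa, hxw⟩ := c.third a w
  obtain ⟨u, huX, huL, hux⟩ := c.all x hx
  have hcolP : ∀ t ≤ n, ∀ y ∈ L, G.Adj (s t) y → y = a ∨ y = w := by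
    intro t ht y hy hty
    by_cases ht0 : t = 0
    · subst ht0
      exact Or.inl (c.one _ (h.mem 0 ht).1 (h.mem 0 ht).2 y hy a h.ha hty h.h0)
    by_cases htn : t = n
    · subst htn
      exact Or.inr (c.one _ (h.mem _ ht).1 (h.mem _ ht).2 y hy w h.hw hty h.hn)
    exact absurd hty (h.unc t (by omega) (by omega) y hy)
  have huP : u ∉ Seg s 0 n := by
    rintro ⟨t, _, ht, rfl⟩
    rcases hcolP t ht x hx hux with h1 | h1
    · exact hxa h1
    · exact hxw h1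
  obtain ⟨C, hCD, huC, hCc, hCn⟩ := exists_comp G (A := (X \ L) \ Seg s 0 n) (v := u)
    ⟨⟨huX, huL⟩, huP⟩
  have hCne : C ≠ X \ L := by
    intro h1
    have h2 : s 0 ∈ C := by rw [h1]; exact h.mem 0 (by omega)
    exact (hCD h2).2 ⟨0, le_rfl, by omega, rfl⟩
  obtain ⟨y, hyC, z, ⟨hzD, hzC⟩, hyz⟩ := c.conn.2 C (fun x hx => (hCD hx).1) ⟨u, huC⟩ hCne
  have hzP : z ∈ Seg s 0 n := by
    by_contra h1
    exact hCn z ⟨hzD, h1⟩ ⟨hzC, y, hyC, hyz⟩
  have hyP : ∀ t ≤ n, y ≠ s t := fun t ht h1 => (hCD hyC).2 ⟨t, by omega, ht, h1⟩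
  have hsC : ∀ t ≤ n, s t ∉ C := fun t ht h1 => (hCD h1).2 ⟨t, by omega, ht, rfl⟩
  -- `y` is coloured
  have hyc : ∃ b ∈ L, G.Adj y b := by
    by_contra hcon
    push Not at hcon
    exact stepI h0 h3 c (Z := Seg s 0 n) (a := a) (b := w) (p := y)
      (by rintro _ ⟨t, _, ht, rfl⟩; exact h.mem t ht)
      (seg_conn' (Nat.zero_le n) fun t _ ht => h.adj t ht) h.ha h.hw h.haw
      ⟨s 0, ⟨0, le_rfl, by omega, rfl⟩, h.h0⟩ ⟨s n, ⟨n, by omega, le_rfl, rfl⟩, h.hn⟩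
      (by rintro _ ⟨t, _, ht, rfl⟩; exact hcolP t ht) (hCD hyC).1 hcon (hCD hyC).2 z hzP hyz
  obtain ⟨b, hb, hyb⟩ := hyc
  obtain ⟨i, _, hi, rfl⟩ := hzP
  by_cases hi0 : i = 0
  · subst hi0
    refine hxa (stepII h0 h3 c (q := s 1) (e := s 0) (K := insert (s 0) C)
      (h.mem 1 (by omega)) (h.unc 1 (by omega) (by omega)) (Or.inl rfl) h.ha h.h0
      (h.adj 0 (by omega)) (hCc.insert ⟨y, hyC, hyz⟩) ?_ ?_ u (Or.inr huC) x hx hux)
    · rintro t (rfl | ht)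
      · exact h.mem 0 (by omega)
      · exact (hCD ht).1
    · rintro (h1 | h1)
      · have := h.inj 1 (by omega) 0 (by omega) h1
        omega
      · exact hsC 1 (by omega) h1
  by_cases hin : i = n
  · subst hin
    have h4 : i - 1 + 1 = i := by omega
    refine hxw (stepII h0 h3 c (q := s (i - 1)) (e := s i) (K := insert (s i) C)
      (h.mem _ (by omega)) (h.unc _ (by omega) (by omega)) (Or.inl rfl) h.hw h.hn
      (by have := h.adj (i - 1) (by omega); rw [h4] at this; exact this.symm)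
      (hCc.insert ⟨y, hyC, hyz⟩) ?_ ?_ u (Or.inr huC) x hx hux)
    · rintro t (rfl | ht)
      · exact h.mem i le_rfl
      · exact (hCD ht).1
    · rintro (h1 | h1)
      · have := h.inj _ (by omega) i (by omega) h1
        omega
      · exact hsC _ (by omega) h1
  have hl : b ≠ a → n ≤ i + 1 := fun hba =>
    h.half h0 h3 c (hCD hyC).1 hyP hb hyb hba (by omega) (by omega) hyz
  have hr : b ≠ w → i ≤ 1 := fun hbw => by
    have h5 := h.reverse.half h0 h3 c (i := n - i) (hCD hyC).1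
      (fun t ht => hyP (n - t) (by omega)) hb hyb hbw (by omega) (by omega)
      (by
        have h6 : n - (n - i) = i := by omega
        change G.Adj y (s (n - (n - i)))
        rw [h6]
        exact hyz)
    omega
  by_cases hba : b = a
  · have hi1 : i = 1 := by
      have := hr (by rw [hba]; exact h.haw)
      omega
    subst hi1
    exact hxa (stepII h0 h3 c (q := s 1) (e := y) (K := C) (h.mem 1 (by omega))
      (h.unc 1 (by omega) (by omega)) hyC h.ha (hba ▸ hyb) hyz hCc (fun t ht => (hCD ht).1)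
      (hsC 1 (by omega)) u huC x hx hux)
  by_cases hbw : b = w
  · have hi1 : i + 1 = n := by
      have := hl hba
      omega
    exact hxw (stepII h0 h3 c (q := s i) (e := y) (K := C) (h.mem i (by omega))
      (h.unc i (by omega) (by omega)) hyC h.hw (hbw ▸ hyb) hyz hCc (fun t ht => (hCD ht).1)
      (hsC i (by omega)) u huC x hx hux)
  have h7 := hl hba
  have h8 := hr hbw
  omega

/-- a component of `G[D \ {q}]` is adjacent to `q` -/
theorem comp_adj {D K : Set V} {q : V} (hD : Conn G D) (hq : q ∈ D) (hK : IsComp G (D \ {q}) K) :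
    ∃ z ∈ K, G.Adj z q := by
  obtain ⟨hKD, hKc, hKn⟩ := hK
  have hne : K ≠ D := by
    intro h
    have h1 : q ∈ K := by rw [h]; exact hq
    exact (hKD h1).2 rfl
  obtain ⟨z, hz, y, ⟨hyD, hyK⟩, hzy⟩ := hD.2 K (fun x hx => (hKD hx).1) hKc.1 hne
  by_cases hyq : y = q
  · subst hyq
    exact ⟨z, hz, hzy⟩
  · exact absurd ⟨hyK, z, hz, hzy⟩ (hKn y ⟨hyD, hyq⟩)

/-- (III) -/
theorem stepIII [Finite V] (hP : S_Path) (h0 : S_X0) (h3 : S_X3) (c : Ctx G X L) {q e a : V}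
    {K : Set V} (hq : q ∈ X \ L) (hqu : Unc G L q) (he : e ∈ X \ L) (ha : a ∈ L)
    (hea : G.Adj e a) (heq : G.Adj e q) (hK : IsComp G ((X \ L) \ {q}) K)
    (hno : ∀ z ∈ K, G.Adj q z → Unc G L z) : ∀ z ∈ K, ∀ w ∈ L, G.Adj z w → w = a := by
  intro z₀ hz₀ w₀ hw₀ hzw₀
  by_contra hne
  obtain ⟨z₁, hz₁, hzq₁⟩ := comp_adj c.conn hq hK
  obtain ⟨hKD, hKc, hKn⟩ := hK
  have heK : e ∉ K := fun h => hno e h heq.symm a ha hea
  have hqK : q ∉ K := fun h => (hKD h).2 rfl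
  obtain ⟨m, r, hr0, hrm, hrK, hrinj, hradj, _, hrY⟩ := hP V G K {z | G.Adj q z}
    {z | ∃ w ∈ L, w ≠ a ∧ G.Adj z w} hKc ⟨z₁, hz₁, hzq₁.symm⟩ ⟨z₀, hz₀, w₀, hw₀, hne, hzw₀⟩
  obtain ⟨w, hw, hwa, hrw⟩ := hrm
  have hr0' : G.Adj q (r 0) := hr0
  have hu0 : Unc G L (r 0) := hno _ (hrK 0 (by omega)) hr0'
  have hm : 0 < m := by
    by_contra h
    have h1 : m = 0 := by omega
    subst h1
    exact hu0 w hw hrw
  have hcol : ∀ i < m, ∀ y ∈ L, G.Adj (r i) y → y = a := by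
    intro i hi y hy hry
    by_contra h
    have := hrY i hi.le ⟨y, hy, h, hry⟩
    omega
  have hunc : ∀ i < m, Unc G L (r i) := by
    intro i
    induction i with
    | zero => exact fun _ => hu0
    | succ i ih =>
      intro hi
      by_contra hcon
      unfold Unc at hcon
      push Not at hcon
      obtain ⟨y, hy, hry⟩ := hcon
      have hya := hcol _ hi y hy hry
      subst hya
      refine stepI h0 h3 c (Z := Seg r (i + 1) m) (a := y) (b := w) (p := r i) ?_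
        (seg_conn' (by omega) fun t _ ht => (hradj t (by omega) (t + 1) (by omega)).2 (Or.inr rfl))
        hy hw (Ne.symm hwa) ⟨r (i + 1), ⟨i + 1, le_rfl, by omega, rfl⟩, hry⟩
        ⟨r m, ⟨m, by omega, le_rfl, rfl⟩, hrw⟩ ?_ (hKD (hrK i (by omega))).1 (ih (by omega)) ?_
        (r (i + 1)) ⟨i + 1, le_rfl, by omega, rfl⟩
        ((hradj i (by omega) (i + 1) (by omega)).2 (Or.inr rfl))
      · rintro _ ⟨t, _, ht, rfl⟩
        exact (hKD (hrK t ht)).1
      · rintro _ ⟨t, _, ht, rfl⟩ x hx htx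
        by_cases htm : t = m
        · subst htm
          exact Or.inr (c.one _ (hKD (hrK t ht)).1.1 (hKD (hrK t ht)).1.2 x hx w hw htx hrw)
        · exact Or.inl (hcol t (by omega) x hx htx)
      · rintro ⟨t, h1, ht, h2⟩
        have := hrinj i (by omega) t ht h2
        omega
  -- the path
  let s : ℕ → V := fun i => if i = 0 then e else if i = 1 then q else r (i - 2)
  have hs0 : s 0 = e := rfl
  have hs1 : s 1 = q := rfl
  have hs2 : ∀ i, s (i + 2) = r i := fun i => rfl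
  have hsr : ∀ i, 2 ≤ i → s i = r (i - 2) := by
    intro i hi
    obtain ⟨j, rfl⟩ := Nat.exists_eq_add_of_le hi
    rw [Nat.add_comm 2 j]
    exact hs2 j
  refine PathD.false h0 h3 c (n := m + 2) (s := s) (a := a) (w := w)
    ⟨?_, ?_, ?_, ha, hw, Ne.symm hwa, hea, hrw, ?_⟩ (by omega)
  · intro i hi
    by_cases hi0 : i = 0
    · subst hi0
      exact he
    by_cases hi1 : i = 1
    · subst hi1
      exact hq
    rw [hsr i (by omega)]
    exact (hKD (hrK _ (by omega))).1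
  · have key : ∀ i j, i < j → j ≤ m + 2 → s i ≠ s j := by
      intro i j hij hj
      by_cases hi0 : i = 0
      · subst hi0
        by_cases hj1 : j = 1
        · subst hj1
          exact heq.ne
        · rw [hsr j (by omega), hs0]
          intro h
          exact heK (h ▸ hrK _ (by omega))
      by_cases hi1 : i = 1
      · subst hi1
        rw [hsr j (by omega), hs1]
        intro h
        exact hqK (h ▸ hrK _ (by omega))
      rw [hsr i (by omega), hsr j (by omega)]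
      intro h
      have := hrinj _ (by omega) _ (by omega) h
      omega
    intro i hi j hj hij
    rcases Nat.lt_trichotomy i j with h | h | h
    · exact absurd hij (key i j h hj)
    · exact h
    · exact absurd hij.symm (key j i h hi)
  · intro i hi
    by_cases hi0 : i = 0
    · subst hi0
      exact heq
    by_cases hi1 : i = 1
    · subst hi1
      exact hr0'
    rw [hsr i (by omega), hsr (i + 1) (by omega)]
    exact (hradj _ (by omega) _ (by omega)).2 (Or.inr (by omega))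
  · intro i hi hin
    by_cases hi1 : i = 1
    · subst hi1
      exact hqu
    rw [hsr i (by omega)]
    exact hunc _ (by omega)

/-- (IV) -/
theorem stepIV [Finite V] (hP : S_Path) (h0 : S_X0) (h3 : S_X3) (c : Ctx G X L) {q e a : V}
    (hq : q ∈ X \ L) (hqu : Unc G L q) (he : e ∈ X \ L) (ha : a ∈ L)
    (hea : G.Adj e a) (heq : G.Adj e q) : ∀ b ∈ L, ∃ z ∈ X \ L, G.Adj z q ∧ G.Adj z b := by
  intro b hb
  by_cases hba : b = a
  · exact ⟨e, he, heq, hba ▸ hea⟩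
  obtain ⟨u, huX, huL, hub⟩ := c.all b hb
  have huq : u ≠ q := by
    rintro rfl
    exact hqu b hb hub
  obtain ⟨K, hKD, huK, hKc, hKn⟩ := exists_comp G (A := (X \ L) \ {q}) (v := u) ⟨⟨huX, huL⟩, huq⟩
  have h1 : ¬ ∀ z ∈ K, G.Adj q z → Unc G L z := fun hno =>
    hba (stepIII hP h0 h3 c hq hqu he ha hea heq ⟨hKD, hKc, hKn⟩ hno u huK b hb hub)
  unfold Unc at h1
  push Not at h1
  obtain ⟨z, hz, hqz, w, hw, hzw⟩ := h1
  have h2 := stepII h0 h3 c hq hqu hz hw hzw hqz.symm hKc (fun t ht => (hKD ht).1)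
    (fun h => (hKD h).2 rfl) u huK b hb hub
  exact ⟨z, (hKD hz).1, hqz.symm, h2 ▸ hzw⟩

/-- the complement of a component is connected -/
theorem conn_sdiff {K K₂ : Set V} {u : V} (hK : Conn G K) (hu : u ∈ K)
    (h2 : IsComp G (K \ {u}) K₂) : Conn G (K \ K₂) := by
  obtain ⟨hsub, hc, hn⟩ := h2
  have huK₂ : u ∉ K₂ := fun h => (hsub h).2 rfl
  refine ⟨⟨u, hu, huK₂⟩, fun B hB hne hne' => ?_⟩
  have key : ∀ B : Set V, B ⊆ K \ K₂ → B.Nonempty → u ∉ B →
      ∃ b ∈ B, ∃ a ∈ (K \ K₂) \ B, G.Adj b a := by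
    intro B hB hne huB
    obtain ⟨b, hb, a, ⟨haK, haB⟩, hba⟩ := hK.2 B (fun x hx => (hB hx).1) hne (by
      intro h
      exact huB (h ▸ hu))
    refine ⟨b, hb, a, ⟨⟨haK, fun haK₂ => ?_⟩, haB⟩, hba⟩
    refine hn b ⟨(hB hb).1, ?_⟩ ⟨(hB hb).2, a, haK₂, hba.symm⟩
    rintro rfl
    exact huB hb
  by_cases huB : u ∈ B
  · obtain ⟨b, hb, a, ha, hba⟩ := key ((K \ K₂) \ B) (fun x hx => hx.1) (by
      by_contra h
      rw [Set.not_nonempty_iff_eq_empty, Set.sdiff_eq_empty] at h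
      exact hne' (Set.Subset.antisymm hB h)) (fun h => h.2 huB)
    refine ⟨a, ?_, b, hb, hba.symm⟩
    by_contra h
    exact ha.2 ⟨ha.1, h⟩
  · exact key B hB hne huB

/-- (V) -/
theorem stepV [Finite V] (h0 : S_X0) (h3 : S_X3) (c : Ctx G X L) {q : V}
    (hq : q ∈ X \ L) (hqu : Unc G L q) (hN : ∀ b ∈ L, ∃ z ∈ X \ L, G.Adj z q ∧ G.Adj z b) :
    ∀ z ∈ X \ L, G.Adj q z → ¬ Unc G L z := by
  intro z hz hqz hzu
  obtain ⟨a, ha⟩ := c.blk.1.1
  obtain ⟨b, hb, hba, _⟩ := c.third a a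
  obtain ⟨e, he, heq, hea⟩ := hN a ha
  obtain ⟨f, hf, hfq, hfb⟩ := hN b hb
  refine stepI h0 h3 c (Z := insert f (insert e {q})) (a := a) (b := b) (p := z) ?_
    (((Conn.singleton G q).insert ⟨q, rfl, heq.symm⟩).insert ⟨q, Or.inr rfl, hfq.symm⟩) ha hb
    hba.symm ⟨e, Or.inr (Or.inl rfl), hea⟩ ⟨f, Or.inl rfl, hfb⟩ ?_ hz hzu ?_ q
    (Or.inr (Or.inr rfl)) hqz.symm
  · rintro u (rfl | rfl | rfl)
    · exact hf
    · exact he
    · exact hq
  · rintro u (rfl | rfl | rfl) w hw h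
    · exact Or.inr (c.one _ hf.1 hf.2 w hw b hb h hfb)
    · exact Or.inl (c.one _ he.1 he.2 w hw a ha h hea)
    · exact absurd h (hqu w hw)
  · rintro (rfl | rfl | rfl)
    · exact hzu b hb hfb
    · exact hzu a ha hea
    · exact hqz.ne rfl

/-- (VI) -/
theorem stepVI [Finite V] (h0 : S_X0) (h3 : S_X3) (c : Ctx G X L) {q : V}
    (hq : q ∈ X \ L) (hqu : Unc G L q) (hN : ∀ b ∈ L, ∃ z ∈ X \ L, G.Adj z q ∧ G.Adj z b) :
    ∀ p ∈ X \ L, p ≠ q → ¬ Unc G L p := by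
  intro p hp hpq hpu
  obtain ⟨K, hKD, hpK, hKc, hKn⟩ := exists_comp G (A := (X \ L) \ {q}) (v := p) ⟨hp, hpq⟩
  obtain ⟨n, hnK, hnq⟩ := comp_adj c.conn hq ⟨hKD, hKc, hKn⟩
  have hnc := stepV h0 h3 c hq hqu hN n (hKD hnK).1 hnq.symm
  have hnc' := hnc
  unfold Unc at hnc'
  push Not at hnc'
  obtain ⟨x, hx, hnx⟩ := hnc'
  have hKx := stepII h0 h3 c hq hqu hnK hx hnx hnq hKc (fun t ht => (hKD ht).1)
    (fun h => (hKD h).2 rfl)
  obtain ⟨b, hb, hbx, _⟩ := c.third x x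
  obtain ⟨f, hf, hfq, hfb⟩ := hN b hb
  obtain ⟨Z, hZK, hnZ, hZc, hZn⟩ := exists_comp G (A := {u | u ∈ K ∧ ¬ Unc G L u})
    (v := n) ⟨hnK, hnc⟩
  have hne : Z ≠ K := by
    rintro rfl
    exact (hZK hpK).2 hpu
  obtain ⟨z, hz, p', ⟨hp'K, hp'Z⟩, hzp'⟩ := hKc.2 Z (fun u hu => (hZK hu).1) ⟨n, hnZ⟩ hne
  have hp'u : Unc G L p' := by
    by_contra hcon
    exact hZn p' ⟨hp'K, hcon⟩ ⟨hp'Z, z, hz, hzp'⟩
  refine stepI h0 h3 c (Z := insert f (insert q Z)) (a := x) (b := b) (p := p') ?_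
    ((hZc.insert ⟨n, hnZ, hnq⟩).insert ⟨q, Or.inl rfl, hfq.symm⟩) hx hb
    hbx.symm ⟨n, Or.inr (Or.inr hnZ), hnx⟩ ⟨f, Or.inl rfl, hfb⟩ ?_ (hKD hp'K).1 hp'u ?_ z
    (Or.inr (Or.inr hz)) hzp'.symm
  · rintro u (rfl | rfl | hu)
    · exact hf
    · exact hq
    · exact (hKD (hZK hu).1).1
  · rintro u (rfl | rfl | hu) w hw h
    · exact Or.inr (c.one _ hf.1 hf.2 w hw b hb h hfb)
    · exact absurd h (hqu w hw)
    · exact Or.inl (hKx u (hZK hu).1 w hw h)
  · rintro (rfl | rfl | hu)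
    · exact hp'u b hb hfb
    · exact (hKD hp'K).2 rfl
    · exact hp'Z hu

/-- (VII) -/
theorem stepVII (h0 : S_X0) (c : Ctx G X L) {q x : V} {K : Set V}
    (hq : q ∈ X \ L) (hqu : Unc G L q) (hK : Conn G K) (hKD : K ⊆ (X \ L) \ {q}) (hx : x ∈ L)
    (hKx : ∀ u ∈ K, G.Adj u x) {u u' : V} (hu : u ∈ K) (hu' : u' ∈ K) (hqu₁ : G.Adj q u)
    (hqu₂ : G.Adj q u') : u = u' := by
  by_contra hne
  obtain ⟨K₂, hsub, hu'K₂, hc, hn⟩ := exists_comp G (A := K \ {u}) (v := u') ⟨hu', Ne.symm hne⟩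
  have hK₁ := conn_sdiff hK hu ⟨hsub, hc, hn⟩
  have huK₂ : u ∉ K₂ := fun h => (hsub h).2 rfl
  obtain ⟨x', hx', y, ⟨hyL, hyx⟩, hxy⟩ := c.blk.1.2 {x} (Set.singleton_subset_iff.2 hx) ⟨x, rfl⟩
    (by
      intro h
      have h1 := c.three
      rw [← h, Set.ncard_singleton] at h1
      omega)
  have h1 : x' = x := hx'
  subst h1
  have hyx' : y ≠ x' := hyx
  have hKy : ∀ u ∈ K, ¬ G.Adj u y := fun u hu h =>
    hyx' (c.one u (hKD hu).1.1 (hKD hu).1.2 y hyL x' hx h (hKx u hu))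
  have hKL : ∀ u ∈ K, u ∉ L := fun u hu => (hKD hu).1.2
  have hqK : q ∉ K := fun h => (hKD h).2 rfl
  refine c.kite (h0 V G {x'} (K \ K₂) K₂ {y} {q} (Conn.singleton G _) hK₁ hc
    (Conn.singleton G _) (Conn.singleton G _) ?_ ?_ ?_ ?_ ?_ ?_ ?_ ?_ ?_ ?_ ?_ ?_ ?_ ?_ ?_ ?_
    ?_ ?_ ?_ ?_)
  · exact Set.disjoint_singleton_left.2 fun h => hKL _ h.1 hx
  · exact Set.disjoint_singleton_left.2 fun h => hKL _ (hsub h).1 hx
  · exact Set.disjoint_singleton_left.2 fun h => hyx' (Eq.symm h)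
  · exact Set.disjoint_singleton_left.2 fun h => hq.2 ((show x' = q from h) ▸ hx)
  · exact Set.disjoint_left.2 fun t ht ht' => ht.2 ht'
  · exact Set.disjoint_singleton_right.2 fun h => hKL _ h.1 hyL
  · exact Set.disjoint_singleton_right.2 fun h => hqK h.1
  · exact Set.disjoint_singleton_right.2 fun h => hKL _ (hsub h).1 hyL
  · exact Set.disjoint_singleton_right.2 fun h => hqK (hsub h).1
  · exact Set.disjoint_singleton_left.2 fun h => hq.2 ((show y = q from h) ▸ hyL)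
  · exact ⟨x', rfl, u, ⟨hu, huK₂⟩, (hKx u hu).symm⟩
  · exact ⟨x', rfl, u', hu'K₂, (hKx u' hu').symm⟩
  · -- the two parts touch
    obtain ⟨b, hb, a, ⟨haK, haB⟩, hba⟩ := hK.2 K₂ (fun t ht => (hsub ht).1) ⟨u', hu'K₂⟩ (by
      intro h
      exact huK₂ (h ▸ hu))
    exact ⟨a, ⟨haK, haB⟩, b, hb, hba.symm⟩
  · exact ⟨u, ⟨hu, huK₂⟩, q, rfl, hqu₁.symm⟩
  · exact ⟨u', hu'K₂, q, rfl, hqu₂.symm⟩
  · exact ⟨x', rfl, y, rfl, hxy⟩
  · rintro ⟨a, ha, b, hb, h⟩
    have h1 : a = x' := ha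
    have h2 : b = q := hb
    subst h1 h2
    exact hqu a hx h.symm
  · rintro ⟨a, ha, b, hb, h⟩
    have h2 : b = y := hb
    subst h2
    exact hKy a ha.1 h
  · rintro ⟨a, ha, b, hb, h⟩
    have h2 : b = y := hb
    subst h2
    exact hKy a (hsub ha).1 h
  · rintro ⟨a, ha, b, hb, h⟩
    have h1 : a = y := ha
    have h2 : b = q := hb
    subst h1 h2
    exact hqu a hyL h.symm

/-- (VIII) -/
theorem stepVIII [Finite V] (h0 : S_X0) (c : Ctx G X L) {q x k : V} {K : Set V}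
    (hq : q ∈ X \ L) (hqu : Unc G L q) (hN : ∀ b ∈ L, ∃ z ∈ X \ L, G.Adj z q ∧ G.Adj z b)
    (hK : IsComp G ((X \ L) \ {q}) K) (hx : x ∈ L) (hKx : ∀ u ∈ K, G.Adj u x) (hk : k ∈ K)
    (hqk : G.Adj q k) (huniq : ∀ u ∈ K, G.Adj q u → u = k) : K = {k} := by
  obtain ⟨hKD, hKc, hKn⟩ := hK
  by_contra hne
  obtain ⟨k', hk', u, ⟨huK, huk⟩, hku⟩ := hKc.2 {k} (Set.singleton_subset_iff.2 hk) ⟨k, rfl⟩
    (Ne.symm hne)
  have h1 : k' = k := hk'
  subst h1
  obtain ⟨x', hx', y, ⟨hyL, hyx⟩, hxy⟩ := c.blk.1.2 {x} (Set.singleton_subset_iff.2 hx) ⟨x, rfl⟩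
    (by
      intro h
      have h1 := c.three
      rw [← h, Set.ncard_singleton] at h1
      omega)
  have h1 : x' = x := hx'
  subst h1
  have hyx' : y ≠ x' := hyx
  obtain ⟨z, hz, hzx, hzy⟩ := c.third x' y
  obtain ⟨e, he, heq, hey⟩ := hN y hyL
  obtain ⟨f, hf, hfq, hfz⟩ := hN z hz
  have hKcol : ∀ u ∈ K, ∀ w ∈ L, G.Adj u w → w = x' := fun u hu w hw h =>
    c.one u (hKD hu).1.1 (hKD hu).1.2 w hw x' hx h (hKx u hu)
  have hKL : ∀ u ∈ K, u ∉ L := fun u hu => (hKD hu).1.2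
  have hqK : q ∉ K := fun h => (hKD h).2 rfl
  have heK : e ∉ K := fun h => hyx' (hKcol e h y hyL hey)
  have hfK : f ∉ K := fun h => hzx (hKcol f h z hz hfz)
  have heq' : e ≠ q := heq.ne
  have hfq' : f ≠ q := hfq.ne
  have hef : e ≠ f := by
    rintro rfl
    exact hzy (c.one _ he.1 he.2 z hz y hyL hfz hey)
  have hKe : ∀ u ∈ K, ¬ G.Adj u e := fun u hu h => hKn e ⟨he, heq'⟩ ⟨heK, u, hu, h⟩
  have hKf : ∀ u ∈ K, ¬ G.Adj u f := fun u hu h => hKn f ⟨hf, hfq'⟩ ⟨hfK, u, hu, h⟩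
  have hfx : ¬ G.Adj f x' := fun h => hzx (c.one f hf.1 hf.2 z hz x' hx hfz h)
  have huk' : u ≠ k' := huk
  refine c.kite (h0 V G (insert q (insert e {y})) {x'} {k'} {f} {u}
    (((Conn.singleton G y).insert ⟨y, rfl, hey.symm⟩).insert ⟨e, Or.inl rfl, heq⟩)
    (Conn.singleton G _) (Conn.singleton G _) (Conn.singleton G _) (Conn.singleton G _)
    ?_ ?_ ?_ ?_ ?_ ?_ ?_ ?_ ?_ ?_ ?_ ?_ ?_ ?_ ?_ ?_ ?_ ?_ ?_ ?_)
  · refine Set.disjoint_singleton_right.2 ?_
    rintro (h | h | h)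
    · exact hq.2 (h ▸ hx)
    · exact he.2 (h ▸ hx)
    · exact hyx' (Eq.symm h)
  · refine Set.disjoint_singleton_right.2 ?_
    rintro (h | h | h)
    · exact hqK (h ▸ hk)
    · exact heK (h ▸ hk)
    · exact hKL _ hk ((show k' = y from h) ▸ hyL)
  · refine Set.disjoint_singleton_right.2 ?_
    rintro (h | h | h)
    · exact hfq' h
    · exact hef (Eq.symm h)
    · exact hf.2 ((show f = y from h) ▸ hyL)
  · refine Set.disjoint_singleton_right.2 ?_
    rintro (h | h | h)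
    · exact hqK (h ▸ huK)
    · exact heK (h ▸ huK)
    · exact hKL _ huK ((show u = y from h) ▸ hyL)
  · exact Set.disjoint_singleton_left.2 fun h => hKL _ hk ((show x' = k' from h) ▸ hx)
  · exact Set.disjoint_singleton_left.2 fun h => hf.2 ((show x' = f from h) ▸ hx)
  · exact Set.disjoint_singleton_left.2 fun h => hKL _ huK ((show x' = u from h) ▸ hx)
  · exact Set.disjoint_singleton_left.2 fun h => hfK ((show k' = f from h) ▸ hk)
  · exact Set.disjoint_singleton_left.2 fun h => huk' (Eq.symm h)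
  · exact Set.disjoint_singleton_left.2 fun h => hfK ((show f = u from h) ▸ huK)
  · exact ⟨y, Or.inr (Or.inr rfl), x', rfl, hxy.symm⟩
  · exact ⟨q, Or.inl rfl, k', rfl, hqk⟩
  · exact ⟨x', rfl, k', rfl, (hKx k' hk).symm⟩
  · exact ⟨x', rfl, u, rfl, (hKx u huK).symm⟩
  · exact ⟨k', rfl, u, rfl, hku⟩
  · exact ⟨q, Or.inl rfl, f, rfl, hfq.symm⟩
  · rintro ⟨a, ha, b, hb, h⟩
    have h2 : b = u := hb
    subst h2
    rcases ha with rfl | rfl | ha
    · exact huk' (huniq b huK h)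
    · exact hKe b huK h.symm
    · have h3 : a = y := ha
      subst h3
      exact hyx' (hKcol b huK a hyL h.symm)
  · rintro ⟨a, ha, b, hb, h⟩
    have h1 : a = x' := ha
    have h2 : b = f := hb
    subst h1 h2
    exact hfx h.symm
  · rintro ⟨a, ha, b, hb, h⟩
    have h1 : a = k' := ha
    have h2 : b = f := hb
    subst h1 h2
    exact hKf a hk h
  · rintro ⟨a, ha, b, hb, h⟩
    have h1 : a = f := ha
    have h2 : b = u := hb
    subst h1 h2
    exact hKf b huK h.symm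

end rX12Aux

open rX12Aux in
/-- **X12.** -/
theorem rX12 : S_Path → S_X0 → S_X3 → S_X12 := by
  intro hP h0 h3 V _ G X L v hkite hLX hblk hthree hconn hvX hvL hvn hone hall
  have c : Ctx G X L := ⟨hkite, hLX, hblk, hthree, hconn, hone, hall⟩
  have hvD : v ∈ X \ L := ⟨hvX, hvL⟩
  have hvu : Unc G L v := hvn
  obtain ⟨a₀, ha₀⟩ := hblk.1.1
  obtain ⟨e₀, he₀X, he₀L, hea₀⟩ := hall a₀ ha₀
  obtain ⟨e, ⟨heD, hec⟩, q, ⟨hqD, hqC⟩, heq⟩ := hconn.2 {u | u ∈ X \ L ∧ ¬ Unc G L u}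
    (fun u hu => hu.1) ⟨e₀, ⟨he₀X, he₀L⟩, fun h => h a₀ ha₀ hea₀⟩ (by
      intro h
      have h1 : v ∈ {u | u ∈ X \ L ∧ ¬ Unc G L u} := by rw [h]; exact hvD
      exact h1.2 hvu)
  have hqu : Unc G L q := by
    by_contra h
    exact hqC ⟨hqD, h⟩
  have hec' := hec
  unfold Unc at hec'
  push Not at hec'
  obtain ⟨a, ha, hea⟩ := hec'
  have hN := stepIV hP h0 h3 c hqD hqu heD ha hea heq
  have hVI := stepVI h0 h3 c hqD hqu hN
  have hvq : v = q := by
    by_contra h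
    exact hVI v hvD h hvu
  subst hvq
  obtain ⟨K, hKD, heK, hKc, hKn⟩ := exists_comp G (A := (X \ L) \ {v}) (v := e)
    ⟨heD, heq.ne⟩
  have hKa := stepII h0 h3 c hqD hqu heK ha hea heq hKc (fun t ht => (hKD ht).1)
    (fun h => (hKD h).2 rfl)
  have hKx : ∀ u ∈ K, G.Adj u a := by
    intro u hu
    have h1 := hVI u (hKD hu).1 (hKD hu).2
    unfold Unc at h1
    push Not at h1
    obtain ⟨w, hw, huw⟩ := h1
    have h2 := hKa u hu w hw huw
    rwa [h2] at huw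
  have huniq : ∀ u ∈ K, G.Adj v u → u = e := fun u hu hvu' =>
    stepVII h0 c hqD hqu hKc hKD ha hKx hu heK hvu' heq.symm
  have hKe := stepVIII h0 c hqD hqu hN ⟨hKD, hKc, hKn⟩ ha hKx heK heq.symm huniq
  refine ⟨e, heD.1, ?_⟩
  have hsub : {w | w ∈ X ∧ G.Adj e w} ⊆ {a, v} := by
    rintro w ⟨hwX, hew⟩
    by_cases hwL : w ∈ L
    · exact Or.inl (hKa e heK w hwL hew)
    · by_contra hcon
      have hwv : w ≠ v := fun h => hcon (Or.inr h)
      have hwK : w ∉ K := by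
        rw [hKe]
        intro h
        exact hew.ne (Eq.symm h)
      exact hKn w ⟨⟨hwX, hwL⟩, hwv⟩ ⟨hwK, e, heK, hew⟩
  exact (Set.ncard_le_ncard hsub (Set.toFinite _)).trans
    ((Set.ncard_insert_le _ _).trans (by simp))

end Pool.Agent.MPd439b2
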