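import Pool.Agent.Lib.MP_d439b2_co.R.Spec4

/-!
# MP_d439b2_co, row `Kite`: X13, a vertex of degree two, or the block is a cycle
-/

set_option autoImplicit false

namespace Pool.Agent.MPd439b2

namespace rX13Aux

variable {V : Type} {G : SimpleGraph V}

theorem pair_le (a b : V) : ({a, b} : Set V).ncard ≤ 2 := by
  have h := Set.ncard_insert_le a ({b} : Set V)
  rw [Set.ncard_singleton] at h
  exact h

/-- complements of forests, for `Gᶜ`: an element with at most one neighbour -/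
theorem cof_pt [Finite V] {S Y : Set V} (h : CoF Gᶜ S) (hY : Y ⊆ S) (hne : Y.Nonempty) :
    ∃ y ∈ Y, ∃ c, ∀ w ∈ Y, G.Adj y w → w = c := by
  obtain ⟨y, hy, hc⟩ := h Y hY hne
  refine ⟨y, hy, ?_⟩
  rw [Set.ncard_le_one (Set.toFinite _)] at hc
  by_cases hex : ∃ c ∈ Y, G.Adj y c
  · obtain ⟨c, hcY, hyc⟩ := hex
    refine ⟨c, fun w hw hyw => ?_⟩
    apply hc w ⟨hw, hyw.ne.symm, ?_⟩ c ⟨hcY, hyc.ne.symm, ?_⟩
    · intro h'
      rw [SimpleGraph.compl_adj] at h'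
      exact h'.2 hyw
    · intro h'
      rw [SimpleGraph.compl_adj] at h'
      exact h'.2 hyc
  · push Not at hex
    exact ⟨y, fun w hw hyw => absurd hyw (hex w hw)⟩

theorem cof_mono {S S' : Set V} (h : CoF Gᶜ S) (hS : S' ⊆ S) : CoF Gᶜ S' :=
  fun Y hY hne => h Y (hY.trans hS) hne

/-- a ring is not contained in a forest -/
theorem ring_mem [Finite V] {L Y : Set V} {p : V} (hY : Ring G Y) (hYL : Y ⊆ L)
    (h : CoF Gᶜ (L \ {p})) : p ∈ Y := by
  by_contra hp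
  have hsub : Y ⊆ L \ {p} := fun y hy => ⟨hYL hy, fun h' => hp (by
    rw [Set.mem_singleton_iff] at h'; rw [← h']; exact hy)⟩
  obtain ⟨y, hy, c, hc⟩ := cof_pt h hsub hY.1
  have h2 := hY.2.1 y hy
  have h3 : {w | w ∈ Y ∧ G.Adj y w} ⊆ {c} := fun w hw => hc w hw.1 hw.2
  have h4 := Set.ncard_le_ncard h3 (Set.toFinite _)
  rw [Set.ncard_singleton] at h4
  omega

end rX13Aux

open rX13Aux in
theorem rX13 : S_V6 → S_X5 → S_X6 → S_X13 := by
  intro hV6 hX5 hX6 V _ G X L x y e hP hK hLX hL hL3 hO hx hy hxy hnxy heX heL hxe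
  by_cases hdeg : ∃ t ∈ X, {w | w ∈ X ∧ G.Adj t w}.ncard ≤ 2
  · exact Or.inl hdeg
  right
  push Not at hdeg
  -- |L| ≥ 4
  have hL4 : 4 ≤ L.ncard := by
    by_contra hcon
    have hc3 : L.ncard = 3 := by omega
    obtain ⟨z, hz, hzx, hzy⟩ : ∃ z ∈ L, z ≠ x ∧ z ≠ y := by
      by_contra hcon
      push Not at hcon
      have hsub : L ⊆ {x, y} := by
        intro z hz
        by_cases h : z = x
        · exact Or.inl h
        · exact Or.inr (hcon z hz h)
      have h2 := Set.ncard_le_ncard hsub (Set.toFinite _)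
      have h3 := pair_le x y
      omega
    have hc : Conn G (L \ {z}) := hL.2 z hz ⟨x, hx, hzx.symm⟩
    have hsub : {x} ⊆ L \ {z} := Set.singleton_subset_iff.mpr ⟨hx, hzx.symm⟩
    have hne : ({x} : Set V) ≠ L \ {z} := by
      intro h
      have : y ∈ ({x} : Set V) := by rw [h]; exact ⟨hy, hzy.symm⟩
      exact hxy this.symm
    obtain ⟨b, hb, a, ha, hab⟩ := hc.2 {x} hsub ⟨x, rfl⟩ hne
    rw [Set.mem_singleton_iff] at hb
    have hax : a ≠ x := ha.2
    have haz : a ≠ z := ha.1.2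
    have hay : a ≠ y := by
      rintro rfl
      exact hnxy (hb ▸ hab)
    have hsub : ({a, x, y, z} : Set V) ⊆ L := by
      intro u hu
      rcases hu with rfl | rfl | rfl | rfl
      · exact ha.1.1
      · exact hx
      · exact hy
      · exact hz
    have h2 := Set.ncard_le_ncard hsub (Set.toFinite _)
    rw [Set.ncard_insert_of_notMem (by
      rintro (h | h | h)
      · exact hax h
      · exact hay h
      · exact haz h) (Set.toFinite _), Set.ncard_insert_of_notMem (by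
      rintro (h | h)
      · exact hxy h
      · exact hzx h.symm) (Set.toFinite _), Set.ncard_insert_of_notMem (by
      intro h
      exact hzy h.symm) (Set.toFinite _), Set.ncard_singleton] at h2
    omega
  -- (1)
  have h1 : ∀ p ∈ L, {w | w ∈ L ∧ G.Adj p w}.ncard ≤ 2 → CoF Gᶜ (L \ {p}) := by
    intro p hp hpd
    obtain ⟨e', he'X, he'L, hpe'⟩ : ∃ e' ∈ X, e' ∉ L ∧ G.Adj p e' := by
      by_contra hcon
      push Not at hcon
      have h3 := hdeg p (hLX hp)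
      have hsub : {w | w ∈ X ∧ G.Adj p w} ⊆ {w | w ∈ L ∧ G.Adj p w} := by
        intro w hw
        refine ⟨?_, hw.2⟩
        by_contra hwL
        exact hcon w hw.1 hwL hw.2
      have h4 := Set.ncard_le_ncard hsub (Set.toFinite _)
      omega
    obtain ⟨y', hy', hy'p, hny'⟩ : ∃ y' ∈ L, p ≠ y' ∧ ¬ G.Adj p y' := by
      by_contra hcon
      push Not at hcon
      have hsub : L \ {p} ⊆ {w | w ∈ L ∧ G.Adj p w} := by
        intro w hw
        exact ⟨hw.1, hcon w hw.1 (fun h => hw.2 h.symm)⟩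
      have h4 := Set.ncard_le_ncard hsub (Set.toFinite _)
      rw [Set.ncard_sdiff_singleton_of_mem hp] at h4
      omega
    exact hX5 V G X L p y' e' hP hK hLX hL hL3 hO hp hy' hy'p hny' he'X he'L hpe'
  have hFx : CoF Gᶜ (L \ {x}) :=
    hX5 V G X L x y e hP hK hLX hL hL3 hO hx hy hxy hnxy heX heL hxe
  obtain ⟨t, ht, c, hc⟩ := cof_pt hFx subset_rfl ⟨y, hy, hxy.symm⟩
  have htx : t ≠ x := ht.2
  have htd : {w | w ∈ L ∧ G.Adj t w}.ncard ≤ 2 := by
    have hsub : {w | w ∈ L ∧ G.Adj t w} ⊆ {x, c} := by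
      intro w hw
      by_cases h : w = x
      · exact Or.inl h
      · exact Or.inr (hc w ⟨hw.1, h⟩ hw.2)
    exact (Set.ncard_le_ncard hsub (Set.toFinite _)).trans (pair_le x c)
  have hFt : CoF Gᶜ (L \ {t}) := h1 t ht.1 htd
  -- (2)
  have hd2 : ∀ w ∈ L, 2 ≤ {u | u ∈ L ∧ G.Adj w u}.ncard := by
    intro w hw
    by_contra hcon
    have hle : {u | u ∈ L ∧ G.Adj w u}.ncard ≤ 1 := by omega
    rw [Set.ncard_le_one (Set.toFinite _)] at hle
    -- choose the only neighbour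
    have hne1 : ({w} : Set V) ≠ L := by
      intro h
      rw [← h, Set.ncard_singleton] at hL4
      omega
    obtain ⟨b, hb, a, ha, hab⟩ := hL.1.2 {w} (Set.singleton_subset_iff.mpr hw) ⟨w, rfl⟩ hne1
    rw [Set.mem_singleton_iff] at hb
    subst hb
    have hba : a ≠ b := ha.2
    have hne2 : ({b} : Set V) ≠ L \ {a} := by
      intro h
      have h3 : (L \ {a}).ncard = L.ncard - 1 := Set.ncard_sdiff_singleton_of_mem ha.1
      rw [← h, Set.ncard_singleton] at h3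
      omega
    obtain ⟨b', hb', a', ha', hab'⟩ := (hL.2 a ha.1 ⟨b, hw, hba.symm⟩).2 {b}
      (Set.singleton_subset_iff.mpr ⟨hw, hba.symm⟩) ⟨b, rfl⟩ hne2
    rw [Set.mem_singleton_iff] at hb'
    subst hb'
    exact ha'.1.2 (hle a' ⟨ha'.1.1, hab'⟩ a ⟨ha.1, hab⟩)
  obtain ⟨Y, hYL, hY⟩ := (hV6 V G L).2.1 ⟨x, hx⟩ hd2
  have hxY : x ∈ Y := ring_mem hY hYL hFx
  have htY : t ∈ Y := ring_mem hY hYL hFt
  have hstar : ∀ p ∈ L, {w | w ∈ L ∧ G.Adj p w}.ncard ≤ 2 → p ∈ Y := fun p hp hpd =>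
    ring_mem hY hYL (h1 p hp hpd)
  obtain ⟨hYB, hY3⟩ := hX6.1 V G Y hY
  -- (3)
  have hYeq : Y = L := by
    by_contra hne
    obtain ⟨k₀, hk₀, hk₀Y⟩ : ∃ k ∈ L, k ∉ Y := by
      by_contra hcon
      push Not at hcon
      exact hne (Set.Subset.antisymm hYL hcon)
    obtain ⟨K, hKs, hk₀K, hKc, hKn⟩ := exists_comp G (show k₀ ∈ L \ Y from ⟨hk₀, hk₀Y⟩)
    have hKL : K ⊆ L := fun k hk => (hKs hk).1
    have hKY : ∀ k ∈ K, k ∉ Y := fun k hk => (hKs hk).2
    -- neighbours in L of elements of K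
    have hKnb : ∀ k ∈ K, ∀ w ∈ L, G.Adj k w → w ∉ K → w ∈ Y := by
      intro k hk w hw hkw hwK
      by_contra hwY
      exact hKn w ⟨hw, hwY⟩ ⟨hwK, k, hk, hkw⟩
    have huniq : ∀ s ∈ Y, CoF Gᶜ (L \ {s}) → ∀ k ∈ K, ∀ k' ∈ K, ∀ y₁ ∈ Y, ∀ y₂ ∈ Y, y₁ ≠ s → y₂ ≠ s →
        G.Adj k y₁ → G.Adj k' y₂ → k = k' ∧ y₁ = y₂ := by
      intro s hs hFs k hk k' hk' y₁ hy₁ y₂ hy₂ hn₁ hn₂ ha₁ ha₂
      have hcs : Conn G (Y \ {s}) := hYB.2 s hs ⟨y₁, hy₁, hn₁⟩
      refine hX6.2 V G K (Y \ {s}) k k' y₁ y₂ hKc hcs ?_ hk hk' ⟨hy₁, hn₁⟩ ⟨hy₂, hn₂⟩ ha₁ ha₂ ?_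
      · exact Set.disjoint_left.mpr fun u hu hu' => hKY u hu hu'.1
      · apply cof_mono hFs
        rintro u (hu | hu)
        · exact ⟨hKL hu, fun h => hKY u hu (by rw [Set.mem_singleton_iff] at h; rw [h]; exact hs)⟩
        · exact ⟨hYL hu.1, hu.2⟩
    -- two pairs
    obtain ⟨k₁, hk₁, y₁, hy₁, hky₁, k₂, hk₂, y₂, hy₂, hky₂, hy12⟩ : ∃ k₁ ∈ K, ∃ y₁ ∈ Y,
        G.Adj k₁ y₁ ∧ ∃ k₂ ∈ K, ∃ y₂ ∈ Y, G.Adj k₂ y₂ ∧ y₁ ≠ y₂ := by
      have hKneL : K ≠ L := fun h => hKY x (by rw [h]; exact hx) hxY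
      obtain ⟨k₁, hk₁, y₁, hy₁, hky₁⟩ := hL.1.2 K hKL ⟨k₀, hk₀K⟩ hKneL
      have hy₁Y : y₁ ∈ Y := hKnb k₁ hk₁ y₁ hy₁.1 hky₁ hy₁.2
      have hKsub : K ⊆ L \ {y₁} := fun k hk => ⟨hKL hk, fun h => hy₁.2 (by
        rw [Set.mem_singleton_iff] at h; rw [← h]; exact hk)⟩
      have hKne' : K ≠ L \ {y₁} := by
        intro h
        obtain ⟨s, hs, hsy⟩ : ∃ s ∈ Y, s ≠ y₁ := by
          by_cases h' : x = y₁
          · exact ⟨t, htY, fun h'' => htx (h''.trans h'.symm)⟩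
          · exact ⟨x, hxY, h'⟩
        exact hKY s (by rw [h]; exact ⟨hYL hs, hsy⟩) hs
      obtain ⟨k₂, hk₂, y₂, hy₂, hky₂⟩ := (hL.2 y₁ hy₁.1 ⟨k₀, hKsub hk₀K⟩).2 K hKsub ⟨k₀, hk₀K⟩ hKne'
      exact ⟨k₁, hk₁, y₁, hy₁Y, hky₁, k₂, hk₂, y₂, hKnb k₂ hk₂ y₂ hy₂.1.1 hky₂ hy₂.2, hky₂,
        fun h => hy₂.1.2 h.symm⟩
    -- one is x, the other is t
    obtain ⟨kx, hkx, hkxx, kt, hkt, hktt⟩ : ∃ kx ∈ K, G.Adj kx x ∧ ∃ kt ∈ K, G.Adj kt t := by
      have hxin : y₁ = x ∨ y₂ = x := by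
        by_contra hcon
        push Not at hcon
        exact hy12 (huniq x hxY hFx k₁ hk₁ k₂ hk₂ y₁ hy₁ y₂ hy₂ hcon.1 hcon.2 hky₁ hky₂).2
      have htin : y₁ = t ∨ y₂ = t := by
        by_contra hcon
        push Not at hcon
        exact hy12 (huniq t htY hFt k₁ hk₁ k₂ hk₂ y₁ hy₁ y₂ hy₂ hcon.1 hcon.2 hky₁ hky₂).2
      rcases hxin with h | h
      · rcases htin with h' | h'
        · exact absurd (h'.symm.trans h) htx
        · exact ⟨k₁, hk₁, h ▸ hky₁, k₂, hk₂, h' ▸ hky₂⟩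
      · rcases htin with h' | h'
        · exact ⟨k₂, hk₂, h ▸ hky₂, k₁, hk₁, h' ▸ hky₁⟩
        · exact absurd (h'.symm.trans h) htx
    have hthird : ∀ k ∈ K, ∀ w ∈ Y, G.Adj k w → (k = kt ∧ w = t) ∨ (k = kx ∧ w = x) := by
      intro k hk w hw hkw
      by_cases hwx : w = x
      · right
        have hwt : w ≠ t := fun h => htx (h.symm.trans hwx)
        exact ⟨(huniq t htY hFt k hk kx hkx w hw x hxY hwt htx.symm hkw hkxx).1, hwx⟩
      · left
        obtain ⟨h1', h2'⟩ := huniq x hxY hFx k hk kt hkt w hw t htY hwx htx hkw hktt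
        exact ⟨h1', h2'⟩
    have hFK : CoF Gᶜ K := cof_mono hFx (fun k hk => ⟨hKL hk, fun h => hKY k hk (by
      rw [Set.mem_singleton_iff] at h; rw [h]; exact hxY)⟩)
    -- (4)
    obtain ⟨p, hp, cp, hcp⟩ := cof_pt hFK subset_rfl ⟨k₀, hk₀K⟩
    have hpY : p ∉ Y := hKY p hp
    have hpx : p = kx := by
      by_contra hpx
      apply hpY
      apply hstar p (hKL hp)
      have hsub : {w | w ∈ L ∧ G.Adj p w} ⊆ {cp, t} := by
        intro w hw
        by_cases hwK : w ∈ K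
        · exact Or.inl (hcp w hwK hw.2)
        · rcases hthird p hp w (hKnb p hp w hw.1 hw.2 hwK) hw.2 with h | h
          · exact Or.inr h.2
          · exact absurd h.1 hpx
      exact (Set.ncard_le_ncard hsub (Set.toFinite _)).trans (pair_le _ _)
    have hpt : p = kt := by
      by_contra hpt
      apply hpY
      apply hstar p (hKL hp)
      have hsub : {w | w ∈ L ∧ G.Adj p w} ⊆ {cp, x} := by
        intro w hw
        by_cases hwK : w ∈ K
        · exact Or.inl (hcp w hwK hw.2)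
        · rcases hthird p hp w (hKnb p hp w hw.1 hw.2 hwK) hw.2 with h | h
          · exact absurd h.1 hpt
          · exact Or.inr h.2
      exact (Set.ncard_le_ncard hsub (Set.toFinite _)).trans (pair_le _ _)
    by_cases hKp : (K \ {p}).Nonempty
    · obtain ⟨p', hp', cp', hcp'⟩ := cof_pt hFK (Y := K \ {p}) Set.sdiff_subset hKp
      have hp'p : p' ≠ p := hp'.2
      apply hKY p' hp'.1
      apply hstar p' (hKL hp'.1)
      have hsub : {w | w ∈ L ∧ G.Adj p' w} ⊆ {p, cp'} := by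
        intro w hw
        by_cases hwp : w = p
        · exact Or.inl hwp
        by_cases hwK : w ∈ K
        · exact Or.inr (hcp' w ⟨hwK, hwp⟩ hw.2)
        · rcases hthird p' hp'.1 w (hKnb p' hp'.1 w hw.1 hw.2 hwK) hw.2 with h | h
          · exact absurd (h.1.trans hpt.symm) hp'p
          · exact absurd (h.1.trans hpx.symm) hp'p
      exact (Set.ncard_le_ncard hsub (Set.toFinite _)).trans (pair_le _ _)
    · apply hpY
      apply hstar p (hKL hp)
      have hsub : {w | w ∈ L ∧ G.Adj p w} ⊆ {x, t} := by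
        intro w hw
        by_cases hwK : w ∈ K
        · exfalso
          apply hKp
          exact ⟨w, hwK, fun h => hw.2.ne (by rw [Set.mem_singleton_iff] at h; exact h.symm)⟩
        · rcases hthird p hp w (hKnb p hp w hw.1 hw.2 hwK) hw.2 with h | h
          · exact Or.inr h.2
          · exact Or.inl h.2
      exact (Set.ncard_le_ncard hsub (Set.toFinite _)).trans (pair_le _ _)
  intro w hw
  have h6 := (hV6 V G Y).2.2 hY w (by rw [hYeq]; exact hw)
  rw [hYeq] at h6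
  exact h6

end Pool.Agent.MPd439b2
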