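import Pool.Agent.Lib.MP_d439b2_co.R.Spec4

/-!
# MP_d439b2_co, row `Kite`, X14: blocks of the non-neighbourhood, summary
-/

set_option autoImplicit false

namespace Pool.Agent.MPd439b2

namespace rX14Aux

/-- If no vertex outside `L` is adjacent to all of `L`, then every vertex of `X \ L` has at most one
neighbour in `L`. -/
theorem one1 {V : Type} (G : SimpleGraph V) (X L : Set V) (hF : Fl G X L = ∅)
    (hR : ∀ u ∈ Rs G X L, ∀ a ∈ L, ∀ b ∈ L, G.Adj u a → G.Adj u b → a = b) : One1 G X L := by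
  intro u huX huL a ha b hb hua hub
  refine hR u ⟨huX, huL, ?_⟩ a ha b hb hua hub
  by_contra hcon
  have h1 : u ∈ Fl G X L := by
    refine ⟨huX, huL, fun w hw => ?_⟩
    by_contra h2
    exact hcon ⟨w, hw, h2⟩
  rw [hF] at h1
  exact h1

/-- The last step: all vertices of `L` have at most two neighbours in `L`. -/
theorem fin {V : Type} [Finite V] (hX12 : S_X12) (G : SimpleGraph V) (X L : Set V) (v : V)
    (hK : ¬ IMS Kite G Set.univ) (hLX : L ⊆ X) (hBL : Blk G L) (h3 : 3 ≤ L.ncard)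
    (hC : Conn G (X \ L)) (hv : v ∈ X) (hvL : v ∉ L) (hvw : ∀ w ∈ L, ¬ G.Adj v w)
    (hO : One1 G X L) (h2 : ∀ w ∈ L, {u | u ∈ L ∧ G.Adj w u}.ncard ≤ 2) :
    ∃ t ∈ X, {w | w ∈ X ∧ G.Adj t w}.ncard ≤ 2 := by
  by_cases h : ∀ w ∈ L, ∃ e ∈ X, e ∉ L ∧ G.Adj e w
  · exact hX12 V G X L v hK hLX hBL h3 hC hv hvL hvw hO h
  · push Not at h
    obtain ⟨w, hw, he⟩ := h
    refine ⟨w, hLX hw, le_trans (Set.ncard_le_ncard ?_ (Set.toFinite _)) (h2 w hw)⟩
    rintro u ⟨huX, hwu⟩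
    refine ⟨?_, hwu⟩
    by_contra huL
    exact he u huX huL hwu.symm

end rX14Aux

theorem rX14 : S_X5 → S_X7 → S_X8 → S_X9 → S_X11 → S_X12 → S_X13 → S_X14 := by
  intro hX5 hX7 hX8 hX9 hX11 hX12 hX13 V _ G X W L v hP hB hK hv hW hL h3
  have hLoc : Loc G X v L := hX8 V G X W L v hK hv hW hL h3
  obtain ⟨hLX, hBL, -, -, hvL, hvw, hR, -, -, -⟩ := id hLoc
  have hLne : L ≠ X := by
    rintro rfl
    exact hvL hv
  by_cases hcomp : CompleteOn G L
  · obtain ⟨hF, hC, hL3⟩ := hX11 V G X L v hP hB hK hLoc hcomp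
    refine ⟨Or.inl hL3, ?_⟩
    refine rX14Aux.fin hX12 G X L v hK hLX hBL h3 hC hv hvL hvw (rX14Aux.one1 G X L hF hR) ?_
    intro w hw
    have h1 : {u | u ∈ L ∧ G.Adj w u} ⊆ L \ {w} := by
      rintro u ⟨huL, hwu⟩
      exact ⟨huL, fun h => G.loopless.irrefl w (by rw [Set.mem_singleton_iff.mp h] at hwu; exact hwu)⟩
    refine le_trans (Set.ncard_le_ncard h1 (Set.toFinite _)) ?_
    rw [Set.ncard_sdiff_singleton_of_mem hw, hL3]
  · obtain ⟨hF, hC⟩ := hX9 V G X L v hP hB hK hLoc hcomp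
    have hO := rX14Aux.one1 G X L hF hR
    have h7 : ∃ x ∈ L, (∃ e ∈ Rs G X L, G.Adj e x) ∧ ∃ y ∈ L, y ≠ x ∧ ¬ G.Adj x y := by
      by_contra hcon
      apply hcomp
      apply hX7.1 V G X L hP hLX hLne
      intro x hx he y hy hyx
      by_contra hxy
      exact hcon ⟨x, hx, he, y, hy, hyx, hxy⟩
    obtain ⟨x, hx, ⟨e, he, hex⟩, y, hy, hyx, hxy⟩ := h7
    refine ⟨Or.inr ⟨x, hx, hX5 V G X L x y e hP hK hLX hBL h3 hO hx hy hyx.symm hxy he.1 he.2.1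
      hex.symm⟩, ?_⟩
    rcases hX13 V G X L x y e hP hK hLX hBL h3 hO hx hy hyx.symm hxy he.1 he.2.1 hex.symm with ht | h2
    · exact ht
    · exact rX14Aux.fin hX12 G X L v hK hLX hBL h3 hC hv hvL hvw hO h2

end Pool.Agent.MPd439b2
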