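import Pool.Agent.Lib.MP_d439b2_co.R.Spec4

/-!
# MP_d439b2_co, X15: layouts of small sets, complete sets and almost forests
-/

set_option autoImplicit false

namespace Pool.Agent.MPd439b2

namespace rX15Aux

/-- a layout is built by inserting the elements one after the other -/
theorem build {V : Type} [Finite V] (G : SimpleGraph V) (Y : Set V) (k : ℕ) (hk : 1 ≤ k)
    (h : ∀ S ⊆ Y, (Types G S).encard ≤ k) : Lay G k Y := by
  have key : ∀ S : Set V, S.Finite → S ⊆ Y → Lay G k S := by
    intro S hS
    induction S, hS using Set.Finite.induction_on with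
    | empty => exact fun _ => Lay.empty
    | insert ha _ ih =>
      intro hSY
      exact Lay.insert hk (ih ((Set.subset_insert _ _).trans hSY)) ha (h _ hSY)
  exact key Y (Set.toFinite Y) subset_rfl

end rX15Aux

open rX15Aux in
theorem rX15 : S_Y1 → S_Y3 → S_Y9 → S_X15 := by
  intro hY1 hY3 hY9 V _ G Y h
  rcases h with h | h | ⟨x, h⟩
  · refine build _ Y 7 (by norm_num) fun S hS => ?_
    have h1 : Types (restr G Y) S ⊆ (fun a => (restr G Y).neighborSet a \ S) '' S := by
      rintro T ⟨-, a, ha, rfl⟩
      exact ⟨a, ha, rfl⟩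
    have h2 : S.encard ≤ 3 := by
      refine (Set.encard_le_encard hS).trans ?_
      rw [← (Set.toFinite Y).cast_ncard_eq]
      exact_mod_cast h
    exact ((Set.encard_le_encard h1).trans (Set.encard_image_le _ _)).trans
      (h2.trans (by norm_num))
  · refine build _ Y 7 (by norm_num) fun S hS => ?_
    have h1 : Types (restr G Y) S ⊆ {Y \ S} := by
      rintro T ⟨-, a, ha, rfl⟩
      rw [Set.mem_singleton_iff]
      ext u
      constructor
      · rintro ⟨hu, huS⟩
        exact ⟨hu.2.2, huS⟩
      · rintro ⟨hu, huS⟩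
        refine ⟨⟨h a (hS ha) u hu ?_, hS ha, hu⟩, huS⟩
        rintro rfl
        exact huS ha
    refine (Set.encard_le_encard h1).trans ?_
    rw [Set.encard_singleton]
    norm_num
  · have h1 := hY1 V Gᶜ 2 (Y \ {x}) (hY9 V Gᶜ (Y \ {x}) h)
    rw [compl_compl] at h1
    exact hY3 V G 3 Y x h1

end Pool.Agent.MPd439b2
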