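import Pool.Agent.Lib.MP_d439b2_co.R.Spec4

set_option autoImplicit false

namespace Pool.Agent.MPd439b2

namespace rX16Aux

variable {V : Type}

theorem cof_mono {D : SimpleGraph V} {Z Z' : Set V} (h : Z' ⊆ Z) (hZ : CoF D Z) : CoF D Z' :=
  fun Y hY hne => hZ Y (hY.trans h) hne

/-- a prime set which is not connected has at most two elements -/
theorem small [Finite V] {G : SimpleGraph V} {X : Set V} (hP : Prm G X)
    (hc : ¬ Conn G X) : X.ncard ≤ 2 := by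
  -- every component is a singleton
  have hsub : ∀ u ∈ X, ∀ w ∈ X, ¬ G.Adj u w := by
    intro u hu w hw huw
    obtain ⟨K, hK, huK, hKc, hKn⟩ := exists_comp G hu
    have hKX : K ≠ X := fun h => hc (h ▸ hKc)
    have hM : Mod G X K := by
      refine ⟨hK, fun z hz hzK => Or.inr fun m hm hzm => hKn z hz ⟨hzK, m, hm, hzm.symm⟩⟩
    rcases hP K hM with h | h
    · exact hKX h
    · have hwK : w ∈ K := by
        by_contra hwK
        exact hKn w hw ⟨hwK, u, huK, huw⟩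
      exact G.ne_of_adj huw (h huK hwK)
  by_contra hcard
  push Not at hcard
  obtain ⟨a, ha, b, hb, hab⟩ : ∃ a ∈ X, ∃ b ∈ X, a ≠ b := by
    by_contra h
    push Not at h
    have h1 : X.ncard ≤ 1 := (Set.ncard_le_one (Set.toFinite X)).mpr fun a ha b hb => h a ha b hb
    omega
  have hM : Mod G X {a, b} := by
    refine ⟨Set.insert_subset ha (Set.singleton_subset_iff.mpr hb), fun z hz _ => Or.inr ?_⟩
    intro m hm
    rcases hm with rfl | hm
    · exact hsub z hz _ ha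
    · rw [Set.mem_singleton_iff] at hm
      subst hm
      exact hsub z hz _ hb
  rcases hP _ hM with h | h
  · have h2 : X.ncard ≤ 2 := by
      rw [← h]
      exact (Set.ncard_insert_le a {b}).trans (by rw [Set.ncard_singleton])
    omega
  · exact hab (h (Set.mem_insert a {b}) (Set.mem_insert_of_mem a (Set.mem_singleton b)))

/-- a set without cut vertices is contained in a maximal one in a component -/
theorem extend [Finite V] {G : SimpleGraph V} {U Y : Set V} (hY : Y ⊆ U) (hB : Blk G Y) :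
    ∃ W L, IsComp G U W ∧ MBlk G W L ∧ Y ⊆ L := by
  obtain ⟨y, hy⟩ := hB.1.1
  obtain ⟨W, hW, hyW, hWc, hWn⟩ := exists_comp G (hY hy)
  have hYW : Y ⊆ W := by
    have h1 : W ∩ Y = Y := hB.1.eq_of_nb Set.inter_subset_right ⟨y, hyW, hy⟩ (by
      intro v hv hn
      obtain ⟨hv1, a, ha, hav⟩ := hn
      exact hWn v (hY hv) ⟨fun h => hv1 ⟨h, hv⟩, a, ha.1, hav⟩)
    intro z hz
    rw [← h1] at hz
    exact hz.1
  have hfin : {L : Set V | L ⊆ W ∧ Blk G L}.Finite := Set.toFinite _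
  obtain ⟨L, hYL, hL⟩ := hfin.exists_le_maximal (a := Y) ⟨hYW, hB⟩
  refine ⟨W, L, ⟨hW, hWc, hWn⟩, ⟨hL.prop.2, hL.prop.1, ?_⟩, hYL⟩
  intro L' h1 h2 h3
  exact Set.Subset.antisymm (hL.le_of_ge ⟨h2, h3⟩ h1) h1

end rX16Aux

open rX16Aux in
theorem rX16 : S_V6 → S_V14 → S_X6 → S_X7 → S_X14 → S_X15 → S_Y3 → S_X16 := by
  intro hV6 hV14 hX6 hX7 hX14 hX15 hY3 V _ G X hP hK
  by_cases hne : X.Nonempty
  swap
  · rw [Set.not_nonempty_iff_eq_empty] at hne
    rw [hne]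
    exact Or.inr Lay.empty
  by_cases hc : Conn G X
  swap
  · right
    have h1 := small hP hc
    exact Lay.mono (by norm_num) (hX15 V G X (Or.inl (by omega)))
  by_cases hB : Blk G X
  swap
  · right
    refine Lay.mono (k := 8) (by norm_num) (hV14 V G 7 X ?_)
    intro Y hY hBY
    apply hX15 V G Y
    exact Or.inr (hX7.2 V G X Y hc hP hB hK hY hBY)
  by_cases hL : LCF Gᶜ X
  · exact Or.inl hL
  right
  -- the vertex `v` and the ring
  obtain ⟨v, hv, Y₀, hY₀, hY₀ne, hY₀d⟩ : ∃ v ∈ X, ∃ Y₀ ⊆ {w | w ∈ X ∧ Gᶜ.Adj v w}, Y₀.Nonempty ∧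
      ∀ y ∈ Y₀, 2 ≤ {w | w ∈ Y₀ ∧ G.Adj y w}.ncard := by
    unfold LCF CoF at hL
    push Not at hL
    obtain ⟨v, hv, Y₀, h1, h2, h3⟩ := hL
    refine ⟨v, hv, Y₀, h1, h2, fun y hy => ?_⟩
    have h4 := h3 y hy
    have h5 : {w | w ∈ Y₀ ∧ w ≠ y ∧ ¬ Gᶜ.Adj y w} = {w | w ∈ Y₀ ∧ G.Adj y w} := by
      ext w
      simp only [Set.mem_ofPred_eq, SimpleGraph.compl_adj]
      constructor
      · rintro ⟨a, b, c⟩
        refine ⟨a, ?_⟩
        by_contra hn
        exact c ⟨Ne.symm b, hn⟩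
      · rintro ⟨a, b⟩
        exact ⟨a, (G.ne_of_adj b).symm, fun c => c.2 b⟩
    rw [← h5]
    omega
  obtain ⟨Y, hYY, hR⟩ := (hV6 V G Y₀).2.1 hY₀ne hY₀d
  obtain ⟨hYB, hYn3⟩ := hX6.1 V G Y hR
  have hYU : Y ⊆ X \ Nc G v := by
    intro y hy
    obtain ⟨h1, h2⟩ := hY₀ (hYY hy)
    rw [SimpleGraph.compl_adj] at h2
    refine ⟨h1, ?_⟩
    rintro (h3 | h3)
    · exact h2.1 h3.symm
    · exact h2.2 h3
  obtain ⟨W, L, hW, hML, hYL⟩ := extend hYU hYB
  have hL3 : 3 ≤ L.ncard := hYn3.trans (Set.ncard_le_ncard hYL (Set.toFinite L))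
  obtain ⟨-, t, ht, htd⟩ := hX14 V G X W L v hP hB hK hv hW hML hL3
  -- the layout of the non-neighbourhood of `t`
  have hU : Lay (restr G (X \ Nc G t)) 8 (X \ Nc G t) := by
    refine hV14 V G 7 _ ?_
    intro Y' hY' hBY'
    obtain ⟨W', L', hW', hML', hYL'⟩ := extend hY' hBY'
    have hle : Y'.ncard ≤ L'.ncard := Set.ncard_le_ncard hYL' (Set.toFinite L')
    apply hX15 V G Y'
    by_cases h3 : 3 ≤ L'.ncard
    · obtain ⟨h4 | ⟨x, _, h4⟩, -⟩ := hX14 V G X W' L' t hP hB hK ht hW' hML' h3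
      · exact Or.inl (by omega)
      · exact Or.inr (Or.inr ⟨x, cof_mono (Set.sdiff_subset_sdiff_left hYL') h4⟩)
    · exact Or.inl (by omega)
  -- three more vertices
  obtain ⟨a, b, hab⟩ : ∃ a b, {w | w ∈ X ∧ (w = t ∨ G.Adj t w)} = {t, a, b} := by
    have h1 : {w | w ∈ X ∧ (w = t ∨ G.Adj t w)} = insert t {w | w ∈ X ∧ G.Adj t w} := by
      ext w
      simp only [Set.mem_ofPred_eq, Set.mem_insert_iff]
      constructor
      · rintro ⟨h, h' | h'⟩
        · exact Or.inl h'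
        · exact Or.inr ⟨h, h'⟩
      · rintro (h | ⟨h, h'⟩)
        · exact ⟨h ▸ ht, Or.inl h⟩
        · exact ⟨h, Or.inr h'⟩
    rw [h1]
    rcases Nat.lt_or_ge {w | w ∈ X ∧ G.Adj t w}.ncard 1 with h2 | h2
    · have h3 : {w | w ∈ X ∧ G.Adj t w} = ∅ := by
        rw [← Set.ncard_eq_zero (Set.toFinite _)]
        omega
      refine ⟨t, t, ?_⟩
      rw [h3]
      simp
    · rcases Nat.lt_or_ge {w | w ∈ X ∧ G.Adj t w}.ncard 2 with h3 | h3
      · obtain ⟨a, ha⟩ := Set.ncard_eq_one.mp (show {w | w ∈ X ∧ G.Adj t w}.ncard = 1 by omega)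
        refine ⟨a, a, ?_⟩
        rw [ha]
        simp
      · obtain ⟨a, b, _, ha⟩ := Set.ncard_eq_two.mp (show {w | w ∈ X ∧ G.Adj t w}.ncard = 2 by omega)
        exact ⟨a, b, by rw [ha]⟩
  have hXU : X \ Nc G t = ((X \ {t}) \ {a}) \ {b} := by
    ext w
    constructor
    · rintro ⟨h1, h2⟩
      have h3 : ∀ z ∈ ({t, a, b} : Set V), w ≠ z := by
        intro z hz hwz
        rw [← hab] at hz
        exact h2 (hwz ▸ hz.2)
      refine ⟨⟨⟨h1, ?_⟩, ?_⟩, ?_⟩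
      · exact h3 t (by simp)
      · exact h3 a (by simp)
      · exact h3 b (by simp)
    · rintro ⟨⟨⟨h1, h2⟩, h3⟩, h4⟩
      refine ⟨h1, fun h5 => ?_⟩
      have h6 : w ∈ ({t, a, b} : Set V) := by
        rw [← hab]
        exact ⟨h1, h5⟩
      rcases h6 with h6 | h6 | h6
      · exact h2 h6
      · exact h3 h6
      · exact h4 h6
  rw [hXU] at hU
  have h17 := hY3 V G 8 ((X \ {t}) \ {a}) b hU
  have h35 := hY3 V G 17 (X \ {t}) a h17
  exact hY3 V G 35 X t h35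

end Pool.Agent.MPd439b2
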