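import Pool.Agent.Lib.MP_d439b2_co.R.Spec4

/-!
# MP_d439b2_co, row `Kite`, module X17: the sufficient condition
-/

set_option autoImplicit false

namespace Pool.Agent.MPd439b2

namespace rX17Aux

theorem hasN_mono {V : Type} {D : SimpleGraph V} {X Y : Set V} (h : X ⊆ Y) {r k : ℕ}
    (hN : HasN D X r k) : HasN D Y r k := by
  obtain ⟨f, h1, h2⟩ := hN
  exact ⟨f, fun u hu hk => h (h1 u hu hk), h2⟩

theorem restr_univ {V : Type} (G : SimpleGraph V) : restr G Set.univ = G := by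
  ext u v
  exact ⟨fun h => h.1, fun h => ⟨h, Set.mem_univ _, Set.mem_univ _⟩⟩

end rX17Aux

open rX17Aux in
theorem rX17 : S_K3 → S_P10 → S_X1 → S_X16 → S_Y1 → S_LayCW → S_X17 := by
  intro h3 h10 hX1 hX16 h1 hcw W _ H hH
  obtain ⟨r, k, h⟩ := h3 W H hH
  obtain ⟨K, hK⟩ := h10 r k
  refine ⟨3 * (max (K + 1) 71 + 1 + 1), fun V _ _ G hG₁ hG₂ => ?_⟩
  have hG1 : ¬ IMS Kite G Set.univ := fun hh => hG₁ (ims_univ_iff.mp hh)
  have hG2 : ¬ IMS H G Set.univ := fun hh => hG₂ (ims_univ_iff.mp hh)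
  have key : ∀ Y ⊆ (Set.univ : Set V), Prm G Y → Lay (restr G Y) (max (K + 1) 71) Y := by
    intro Y _ hY
    rcases hX16 V G Y hY hG1 with ha | ha
    · have hb : ¬ HasN Gᶜ Y r k := fun hh => hG2 (h V G (hasN_mono (Set.subset_univ _) hh))
      have hd := h1 V Gᶜ K Y (hK V Gᶜ Y ha hb)
      rw [compl_compl] at hd
      exact hd.mono (le_max_left _ _)
    · exact ha.mono (le_max_right _ _)
  have hfin := hX1 V G (max (K + 1) 71) Set.univ key
  rw [restr_univ] at hfin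
  exact hcw V G _ hfin

end Pool.Agent.MPd439b2
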