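import Pool.Agent.Lib.MP_d439b2_co.R.Spec3

/-!
# MP_d439b2_co, row `Kite`, Spec 4

The kite: two triangles `0 1 2` and `1 2 4` with the common edge `1 2` (a diamond with the tips `0` and
`4`) and a pendant vertex `3` attached to the tip `0`.  In a graph without the kite (as an induced
minor) every prime set `X` satisfies `LCF Gᶜ X` (so everything about the row `K_3 + P_1` applies) or
has a layout of small width.

Every `S_...` is a statement to be proved in its own file; the docstring contains the complete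
proof.  Notation: `a ~ b` means `G.Adj a b`, `A ~ B` for sets means `Tch G A B`.  `kite(T0; T1, T2; T4; T3)`
refers to X0: five disjoint connected sets, touching are exactly `T0 T1`, `T0 T2`, `T1 T2`, `T1 T4`,
`T2 T4`, `T0 T3`.
-/

set_option autoImplicit false

namespace Pool.Agent.MPd439b2

/-- the kite: the diamond with tips `0`, `4` and middle edge `1 2`, and the vertex `3` attached to `0` -/
def Kite : SimpleGraph (Fin 5) where
  Adj i j := i ≠ j ∧ ((i.val = 0 ∧ j.val = 3) ∨ (i.val = 3 ∧ j.val = 0) ∨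
    (i.val ≠ 3 ∧ j.val ≠ 3 ∧ ¬ (i.val = 0 ∧ j.val = 4) ∧ ¬ (i.val = 4 ∧ j.val = 0)))
  symm := ⟨fun _ _ h => ⟨h.1.symm, by tauto⟩⟩
  loopless := ⟨fun _ h => h.1 rfl⟩

/-- `M` is a module of `G[X]` -/
def Mod {V : Type} (G : SimpleGraph V) (X M : Set V) : Prop :=
  M ⊆ X ∧ ∀ u ∈ X, u ∉ M → (∀ m ∈ M, G.Adj u m) ∨ ∀ m ∈ M, ¬ G.Adj u m

/-- `G[X]` is prime: all modules are trivial -/
def Prm {V : Type} (G : SimpleGraph V) (X : Set V) : Prop :=
  ∀ M, Mod G X M → M = X ∨ M.Subsingleton

/-- `L` is a block of `G[C]`: a maximal set without cut vertices -/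
def MBlk {V : Type} (G : SimpleGraph V) (C L : Set V) : Prop :=
  Blk G L ∧ L ⊆ C ∧ ∀ L', L ⊆ L' → L' ⊆ C → Blk G L' → L' = L

/-- the vertices of `C` are distributed to the vertices of `L` (every `z` hangs at `h z`): the fibres
are connected, and edges between different fibres are edges of `G[L]` -/
def Hg {V : Type} (G : SimpleGraph V) (C L : Set V) (h : V → V) : Prop :=
  (∀ z ∈ C, h z ∈ L) ∧ (∀ y ∈ L, h y = y) ∧ (∀ y ∈ L, Conn G {z | z ∈ C ∧ h z = y}) ∧
    ∀ z ∈ C, ∀ z' ∈ C, G.Adj z z' → h z ≠ h z' → z ∈ L ∧ z' ∈ L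

/-- the vertices of `X \ L` which are adjacent to all vertices of `L` -/
def Fl {V : Type} (G : SimpleGraph V) (X L : Set V) : Set V :=
  {u | u ∈ X ∧ u ∉ L ∧ ∀ w ∈ L, G.Adj u w}

/-- the other vertices of `X \ L` -/
def Rs {V : Type} (G : SimpleGraph V) (X L : Set V) : Set V :=
  {u | u ∈ X ∧ u ∉ L ∧ ∃ w ∈ L, ¬ G.Adj u w}

/-- every vertex of `X \ L` has at most one neighbour in `L` -/
def One1 {V : Type} (G : SimpleGraph V) (X L : Set V) : Prop :=
  ∀ u ∈ X, u ∉ L → ∀ a ∈ L, ∀ b ∈ L, G.Adj u a → G.Adj u b → a = b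

/-- `L` is a set without cut vertices, not adjacent to `v`, and the vertices of `X \ L` behave as in
the case of a block of the non-neighbourhood of `v` (see X8) -/
def Loc {V : Type} (G : SimpleGraph V) (X : Set V) (v : V) (L : Set V) : Prop :=
  L ⊆ X ∧ Blk G L ∧ 3 ≤ L.ncard ∧ v ∈ X ∧ v ∉ L ∧ (∀ w ∈ L, ¬ G.Adj v w) ∧
  (∀ u ∈ Rs G X L, ∀ a ∈ L, ∀ b ∈ L, G.Adj u a → G.Adj u b → a = b) ∧
  (∀ u ∈ Fl G X L, G.Adj v u) ∧
  (∀ D, IsComp G (Rs G X L) D → v ∉ D → ∀ a ∈ L, ∀ b ∈ L, a ∈ nb G D → b ∈ nb G D → a = b) ∧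
  ∀ a ∈ L, ∀ b ∈ L, ∀ e ∈ Rs G X L, ∀ e' ∈ Rs G X L, a ≠ b → G.Adj e a → G.Adj e' b →
    G.Adj e e' → G.Adj v e ∧ G.Adj v e'

/-- **X0.** Five sets give a kite.

Proof. The model `i ↦ T i`. -/
def S_X0 : Prop := ∀ (V : Type) (G : SimpleGraph V) (T0 T1 T2 T3 T4 : Set V),
  Conn G T0 → Conn G T1 → Conn G T2 → Conn G T3 → Conn G T4 →
  Disjoint T0 T1 → Disjoint T0 T2 → Disjoint T0 T3 → Disjoint T0 T4 → Disjoint T1 T2 →
  Disjoint T1 T3 → Disjoint T1 T4 → Disjoint T2 T3 → Disjoint T2 T4 → Disjoint T3 T4 →
  Tch G T0 T1 → Tch G T0 T2 → Tch G T1 T2 → Tch G T1 T4 → Tch G T2 T4 → Tch G T0 T3 →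
  ¬ Tch G T0 T4 → ¬ Tch G T1 T3 → ¬ Tch G T2 T3 → ¬ Tch G T3 T4 → IMS Kite G Set.univ

/-- **X1.** Layouts from layouts of the prime sets.

Proof. Induction on `|X|`.  If `X` is prime use the hypothesis and `Lay.mono`.  Otherwise let `M` be a module of `G[X]`
with at least two elements, `M ≠ X`, with `|M|` minimal.  `M` is prime: a module `M'` of `G[M]` is a module of `G[X]`.
Choose `m ∈ M`, `X' = X \ (M \ {m})`, smaller than `X`; `Lay (restr G X') (k + 1) X'` by induction, `Lay (restr G M) k M` by
hypothesis.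
(i) Claim: `Lay (restr G M) k S`, `S ⊆ M` imply `Lay (restr G X) (k + 1) S`.  The trace of `a ∈ S` in `restr G X` outside `S` is
`T ∪ N`, where `T` is the trace in `restr G M` and `N = {u ∈ X \ M | u ~ m}`; `T` is empty or one of `k` sets.
(ii) Claim: `Lay (restr G X') (k + 1) S`, `S ⊆ X'` imply: if `m ∉ S` then `Lay (restr G X) (k + 1) S`, and if `m ∈ S` then
`Lay (restr G X) (k + 1) (S ∪ M)`.  Induction on `Lay`; `{m}`: use (i) for `M`.  If `m ∉ S` then the trace of `a ∈ S` in
`restr G X` outside `S` is `T` or (if `m ∈ T`) `T ∪ M`, where `T` is the trace in `restr G X'`.  If `m ∈ S` then the trace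
of `a ∈ S` outside `S ∪ M` is the trace of `a` in `restr G X'` outside `S`, and the trace of an element of `M` is the trace
of `m`.  The result is (ii) for `S = X'`. -/
def S_X1 : Prop := ∀ (V : Type) [Finite V] (G : SimpleGraph V) (k : ℕ) (X : Set V),
  (∀ Y ⊆ X, Prm G Y → Lay (restr G Y) k Y) → Lay (restr G X) (k + 1) X

/-- **X2.** Blocks.

Proof. (1) No component `K` of `G[C \ L]` is adjacent to two different elements `a, b` of `L`.  Otherwise let `K₀ ⊆ K` be a
connected set adjacent to both, with the minimal number of elements.  `L ∪ K₀` has no cut vertex: if `x ∈ L` is removed,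
`L \ {x}` is connected (it is not empty) and adjacent to `K₀` (by `a` or `b`).  If `x ∈ K₀` is removed, every component
`K'` of `G[K₀ \ {x}]` is adjacent to `a` or `b` (otherwise `K₀ \ K'` is connected and adjacent to both: contradiction to
the minimality), so `L ∪ (K₀ \ {x})` is connected.  This contradicts the maximality of `L`.
(2) Every component `K` of `G[C \ L]` is adjacent to an element of `L` (`C` is connected), so to exactly one; `h z` is
this element for `z ∈ K`, and `h y = y` for `y ∈ L`.  The fibre of `y` is `{y}` together with the components adjacent to `y`: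
connected.  If `z ∈ C \ L` and `z ~ z' ∈ C` then `z'` is in the same component or `z' = h z`: same fibre. -/
def S_X2 : Prop := ∀ (V : Type) [Finite V] (G : SimpleGraph V) (C L : Set V), Conn G C →
  MBlk G C L → 2 ≤ L.ncard → ∃ h : V → V, Hg G C L h

/-- **X3.** Two disjoint connections.

Proof. Let `N` be the set of the neighbours of `w` in `L`.  In the graph `restr G (L \ {w})` there are two disjoint paths from
`N` to `A` (Menger's theorem, for instance `GT.pMen` in `GT/Men.lean`): otherwise a set `X` with at most one element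
separates them (in the sense of `Cut`: a set `Lc` containing `N \ X`, disjoint from `A`, closed up to `X`); let
`X ⊆ {c}`, `c ∈ L \ {w}` (if `X = ∅` take any `c ∈ A`); `L \ {c}` is connected, so `{w} ∪ (Lc \ {c})` would have a
neighbour in the rest of `L \ {c}`, which contains an element of `A`: contradiction.  (Or give a direct proof.)
The paths give disjoint connected sets `P₀, Q₀ ⊆ L \ {w}`, each meets `N` and `A`.  `P` = the component of
`G[(L \ {w}) \ Q₀]` containing `P₀`, `Q = (L \ {w}) \ P`; `Q` is connected, since every other component of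
`G[(L \ {w}) \ Q₀]` is adjacent to `Q₀` (`L \ {w}` is connected).  `P` and `Q` touch for the same reason. -/
def S_X3 : Prop := ∀ (V : Type) [Finite V] (G : SimpleGraph V) (L A : Set V) (w : V), Blk G L →
  w ∈ L → A ⊆ L → w ∉ A → (∃ a ∈ A, ∃ b ∈ A, a ≠ b) → ∃ P Q : Set V, P ∪ Q = L \ {w} ∧
    Disjoint P Q ∧ Conn G P ∧ Conn G Q ∧ Tch G {w} P ∧ Tch G {w} Q ∧ Tch G P Q ∧
    (P ∩ A).Nonempty ∧ (Q ∩ A).Nonempty

/-- **X4.** A vertex with a private neighbour touching two fibres is adjacent to the whole block.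
(Uses `S_X0`, `S_X3`.)

Proof. Suppose `w ∈ L`, `¬ v ~ w`.  Let `At` be the set of the `y ∈ L` such that `v` is adjacent to an element of the fibre of
`y`; `a, b ∈ At`.  If `w ∈ At` and `At = {w, y}`, replace `w` by an element of `L \ {w, y}` (it is not in `At`, so it is not
adjacent to `v`).  So `A = At \ {w}` has at least two elements.  X3 for `L, A, w` gives `P, Q`.  Let `T1, T2` be the unions
of the fibres of the elements of `P`, `Q`: connected, disjoint, touching each other, touching `v` and touching `w`.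
`kite({v}; T1, T2; {w}; {e})`. -/
def S_X4 : Prop := ∀ (V : Type) [Finite V] (G : SimpleGraph V) (C L : Set V) (h : V → V)
  (v e a b : V), ¬ IMS Kite G Set.univ → Blk G L → L ⊆ C → 3 ≤ L.ncard → Hg G C L h → v ∉ C →
    e ∉ C → G.Adj v e → (∀ z ∈ C, ¬ G.Adj e z) → a ∈ L → b ∈ L → a ≠ b →
    (∃ z ∈ C, h z = a ∧ G.Adj v z) → (∃ z ∈ C, h z = b ∧ G.Adj v z) → ∀ w ∈ L, G.Adj v w

/-- **X5.** Removing a non-universal vertex with a private neighbour leaves a forest.
(Uses `S_V6`, `S_X0`, `S_X2`, `S_X4`, `S_X6`.)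

Proof. `C = L \ {x}` is connected.  Note that `e` and all vertices of `X \ L` have at most one neighbour in `L`.  Suppose that
`CoF Gᶜ C` is false: there is a nonempty subset of `C` of minimum degree at least two, so a ring (V6 (b)), which has
no cut vertex and at least three elements (X6).  Let `L'` be a maximal subset of `C` without cut vertex containing it;
`MBlk G C L'`, `3 ≤ |L'|`; X2 gives `h`; `fib w` denotes the fibre of `w ∈ L'`.
(1) `x` is adjacent to at least two fibres.  Suppose that it is adjacent to no other fibre than the one of `y₀ ∈ L'`.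
`L \ {y₀}` is connected and contains `x` and `Z = C \ fib y₀`, `Z ≠ ∅`, but there is no edge from `Z` to
`(L \ {y₀}) \ Z`: contradiction.
(2) By X4 (with `v := x`) `x` is adjacent to all elements of `L'`.
(3) Call `w ∈ L'` marked if there are a connected `Z ⊆ fib w` containing `w` and a vertex `p ∈ X`, `p ∉ Z`, `p ≠ x`,
`p` adjacent to an element of `Z`, `¬ p ~ x`, and `p ∈ fib w` or `p ∉ L`.  (Then `p` is not adjacent to the other
fibres, and `Z ∪ {p}` is adjacent to other fibres only by `w`; `Z ~ {x}` by `w`.)  If some `p ∈ X \ L` is adjacent to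
`w` then `w` is marked (`Z = {w}`).  If `fib w` contains a vertex not adjacent to `x` then `w` is marked (`Z` = the
component of `w` in the set of the neighbours of `x` in `fib w`).
(4) There is a marked vertex: `y ≠ x`, `¬ x ~ y`, `y ∈ L`, is in some fibre.
(5) A marked `w` is adjacent to all other `y' ∈ L'`: otherwise let `P ⊆ L' \ {w, y'}` be connected touching `w` and
`y'` (the interior of an induced path in `L'`): `kite(Z; {x}, P; {y'}; {p})`.
(6) If `w` is not marked then `fib w = {w}`: otherwise (`fib w` is connected) let `y' ∈ fib w`, `y' ~ w`, `y' ≠ w`; `y' ~ x`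
(as `w` is not marked).  Let `w₁` be marked (`Z₁, p₁`): `kite(Z₁; {w}, {x}; {y'}; {p₁})`.
(7) The set `M` of the vertices of `L'` which are not marked is a module of `G[X]`: `x` and the marked vertices are
adjacent to all its elements, all others to none (other elements of `C` are not in the fibres of elements of `M`, and by
(3) no vertex of `X \ L` is adjacent to an element of `M`).  `x ∉ M`, so `M` has at most one element.  So `L'` is complete
(5) and has at least two marked vertices.
(8) `fib w₁ = {w₁}` for marked `w₁`: otherwise let `K₁` be a component of `G[fib w₁ \ {w₁}]`; it touches `w₁`, and it touches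
`x` since `L \ {w₁}` is connected and `K₁` has no other neighbours in it.  Let `w₂ ≠ w₁` be marked (`Z₂, p₂`):
`kite(Z₂; {w₁}, {x}; K₁; {p₂})`.
(9) By (6), (8) `C = L'`, so `x` is adjacent to all elements of `L \ {x}` by (2): contradiction to `y`. -/
def S_X5 : Prop := ∀ (V : Type) [Finite V] (G : SimpleGraph V) (X L : Set V) (x y e : V),
  Prm G X → ¬ IMS Kite G Set.univ → L ⊆ X → Blk G L → 3 ≤ L.ncard → One1 G X L → x ∈ L →
    y ∈ L → x ≠ y → ¬ G.Adj x y → e ∈ X → e ∉ L → G.Adj x e → CoF Gᶜ (L \ {x})

/-- **X6.** Rings have no cut vertices; two connected sets joined by two edges contain a cycle.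
(Uses `S_V6`, `S_Path`.)

Proof. (a) `Y = {z i | i < l}` as in V6 (a); all sets `{z i, ..., z j}` are connected, and `Y \ {z m}` is the union of
`{z (m+1), ..., z (l-1)}` and `{z 0, ..., z (m-1)}`, which touch by `z (l-1) ~ z 0` (or one of them is empty).
(b) Let `(a, b) ≠ (a', b')`.  `S_Path` gives an induced path `p` in `A` from `a` to `a'` and `r` in `B` from `b` to
`b'`.  Every vertex of the union `Y` of the two paths has at least two neighbours in `Y`: contradiction to
`CoF Gᶜ (A ∪ B)` (`¬ Gᶜ.Adj y w`, `w ≠ y` means `y ~ w`). -/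
def S_X6 : Prop := (∀ (V : Type) [Finite V] (G : SimpleGraph V) (Y : Set V), Ring G Y →
    Blk G Y ∧ 3 ≤ Y.ncard) ∧
  ∀ (V : Type) [Finite V] (G : SimpleGraph V) (A B : Set V) (a a' b b' : V), Conn G A →
    Conn G B → Disjoint A B → a ∈ A → a' ∈ A → b ∈ B → b' ∈ B → G.Adj a b → G.Adj a' b' →
    CoF Gᶜ (A ∪ B) → a = a' ∧ b = b'

/-- **X7.** Prime sets with a cut vertex; and a criterion for complete blocks.
(Uses `S_X2`, `S_X5`.)

Proof. (a) Let `M` be the set of the `w ∈ L` without neighbours in `Rs G X L`.  It is a module of `G[X]`: elements of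
`L \ M` are adjacent to all other elements of `L` by hypothesis, elements of `Fl G X L` to all, elements of
`Rs G X L` to none.  `M ⊆ L ≠ X`, so `M` has at most one element, so of two different elements of `L` one is not in `M`.
(b) Let `L ⊇ Y` be a maximal subset of `X` without cut vertices; `MBlk G X L`, `L ≠ X`.  If `|L| ≤ 2` then `Y` is complete.
Let `3 ≤ |L|`; X2 gives `h` for `C = X`; if `u ∈ X \ L` is adjacent to `a ∈ L` then `h u = a`; so `One1 G X L`.  If some
`x ∈ L` has a neighbour in `X \ L` and is not adjacent to some `y ∈ L`, `y ≠ x`, use X5 (`CoF` is inherited by subsets).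
Otherwise (a) shows that `L` is complete. -/
def S_X7 : Prop := (∀ (V : Type) [Finite V] (G : SimpleGraph V) (X L : Set V), Prm G X → L ⊆ X →
    L ≠ X → (∀ x ∈ L, (∃ e ∈ Rs G X L, G.Adj e x) → ∀ y ∈ L, y ≠ x → G.Adj x y) →
    CompleteOn G L) ∧
  ∀ (V : Type) [Finite V] (G : SimpleGraph V) (X Y : Set V), Conn G X → Prm G X → ¬ Blk G X →
    ¬ IMS Kite G Set.univ → Y ⊆ X → Blk G Y → CompleteOn G Y ∨ ∃ x, CoF Gᶜ (Y \ {x})

/-- **X8.** Blocks of the non-neighbourhood of a vertex.  (Uses `S_X2`, `S_X4`.)

Proof. `h` from X2 for `C = W`.  `v ∉ W` and `v` is not adjacent to `W`.  A vertex `u ∈ X \ W` which is adjacent to an element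
of `W` is adjacent to `v` (`W` is a component of `G[X \ Nc G v]`, and `u ≠ v`).
(1) If `u ∈ W \ L` is adjacent to `a ∈ L` then `h u = a` (otherwise `u ∈ L`); so it has at most one neighbour in `L`, so
`u ∈ Rs G X L`.
(2) If `u ∈ X \ W` is adjacent to elements of two different fibres then by X4 (for `u`, with `e := v`) `u` is adjacent to all
elements of `L`, `u ∈ Fl G X L`.  So `u ∈ Rs G X L`, `u ∉ W`, is adjacent to at most one fibre; in particular it has at most
one neighbour in `L`.
(3) `u ∈ Fl G X L` is not in `W` by (1), so `v ~ u`.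
(4) Let `D` be a component of `G[Rs G X L]`, `v ∉ D`.  `v ∈ Rs G X L`, so `D` contains no neighbour of `v`, `D ⊆ X \ Nc G v`.  If
`D` has a neighbour in `L ⊆ W` then `D ⊆ W` (`W ∪ D` is connected, and `W` is a component); `D ⊆ W \ L` is connected, so
it is contained in one fibre, and all neighbours in `L` of its elements are equal to the element of this fibre (1).
(5) `e ~ a`, `e' ~ b`, `a ≠ b`, `e ~ e'`.  If `e, e' ∈ W` then `h e = a`, `h e' = b`, so `e ∈ L`: contradiction.  If `e ∈ W`,
`e' ∉ W` then `e'` is adjacent to the fibres of `a` (by `e`) and of `b`: contradiction to (2).  So `e, e' ∉ W`, both are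
adjacent to `v`. -/
def S_X8 : Prop := ∀ (V : Type) [Finite V] (G : SimpleGraph V) (X W L : Set V) (v : V),
  ¬ IMS Kite G Set.univ → v ∈ X → IsComp G (X \ Nc G v) W → MBlk G W L → 3 ≤ L.ncard →
    Loc G X v L

/-- **X9.** Non-complete blocks.  (Uses `S_Path`, `S_X0`, `S_X7`.)

Proof. Write `F = Fl G X L`, `R = Rs G X L`; `A w` = the set of the neighbours in `R` of `w ∈ L`; the sets `A w` are disjoint.
`D` denotes components of `G[R]`.  Call `w ∈ L` universal if it is adjacent to all other elements of `L`.  By X7 (a)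
(`v ∉ L`, so `L ≠ X`) there is a non-universal `x' ∈ L` with `A x' ≠ ∅`.
(1) If `D` contains an element of `A w` for some non-universal `w` then every `f ∈ F` is adjacent to all elements of `D`.
Suppose `z ∈ D`, `¬ z ~ f`.  `S_Path` (in `D`, from `{z}` to the union of the `A w`, `w` non-universal) gives a path
`r 0 = z, ..., r m ∈ A w`, with `r i`, `i < m`, not adjacent to non-universal vertices.  Choose `y ∈ L`, `y ≠ w`,
`¬ y ~ w` (so `y` is non-universal).  There is a connected `P ⊆ L \ {w, y}` touching `w` and `y`, no element of which is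
adjacent to `z`: if `z` has a neighbour `u` in `L` and `u ≠ w` then `m ≠ 0`, `u` is universal, and `P` is the interior of
an induced path from `w` to `y` in the connected set `L \ {u}`; otherwise the interior of an induced path in `L`.
`kite({w, r m, ..., r 1}; {f}, P; {y}; {z})` (for `m = 0` the first set is `{w}`).
(2) If `D` contains elements of some `A w`, but only for universal `w`, then every `f ∈ F` is adjacent to all elements
of `D`.  Take `e' ∈ A x'`; it is in another component, which is completely adjacent to `F` by (1), so `e' ~ f`.  Suppose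
`z ∈ D`, `¬ z ~ f`.  `S_Path` in `D` from `{z}` to the union of the `A w`: `r 0 = z, ..., r m ∈ A w`.
`kite({w, r m, ..., r 1}; {x'}, {f}; {e'}; {z})`.
(3) `M = L ∪` (the union of the `D` with a neighbour in `L`) is a module of `G[X]`: elements of `F` are adjacent to all its
elements, elements of other components to none.  So `M = X` and `F = ∅`.
(4) `X \ L = R`.  Every component `D` of `G[R]` has a neighbour in `L` (`X` is connected).  If `v ∉ D` then this is only one
vertex `w` (`Loc`), and `D` has no neighbours in `X \ {w}` outside `D`; but `X \ {w}` is connected and contains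
`L \ {w}`: contradiction.  So `v ∈ D`, and `R = D` is connected. -/
def S_X9 : Prop := ∀ (V : Type) [Finite V] (G : SimpleGraph V) (X L : Set V) (v : V), Prm G X →
  Blk G X → ¬ IMS Kite G Set.univ → Loc G X v L → ¬ CompleteOn G L →
    Fl G X L = ∅ ∧ Conn G (X \ L)

/-- **X10.** Complete blocks, first part.  (Uses `S_Path`, `S_X0`.)

Proof. Notation as in X9: `F`, `R`, `A w`, components `D` of `G[R]`; `L₁ = {w ∈ L | A w ≠ ∅}`.
(1) `L \ L₁` is a module of `G[X]` (`L` is complete, elements of `F` are adjacent to all, of `R` to none), so it has at most one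
element; so `|L₁| ≥ 2`.
(2) If `e ∈ A x`, `e' ∈ A y`, `x ≠ y` then `¬ e ~ e'`: otherwise `v ~ e`, `v ~ e'` by `Loc`; let `z ∈ L \ {x, y}`:
`kite({e, e'}; {x}, {y}; {z}; {v})`.
(3) Let `f ∈ F`, `f ~ e`, `e ∈ A x`, `y ≠ x`, `e' ∈ A y`.  Then `f ~ e'`: otherwise `kite({y}; {x}, {f}; {e}; {e'})`.  Applying
this twice: `F = F₁ ∪ F₀`, where `f ∈ F₁` is adjacent to all elements of all `A w`, and `f ∈ F₀` to none.
(4) If `D` has a neighbour in `L` then every `f ∈ F₁` is adjacent to all elements of `D`.  Suppose `z ∈ D`, `¬ z ~ f`.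
`S_Path` in `D` from `{z}` to the union of the `A w`: `r 0 = z, ..., r m ∈ A x`, `m ≥ 1` by (3); `y ∈ L \ {x}`:
`kite({r 1, ..., r m}; {x}, {f}; {y}; {z})`.
(5) `f₀ ~ f₁` for `f₀ ∈ F₀`, `f₁ ∈ F₁`: otherwise let `z ∈ L₁`, `e ∈ A z`, and `x, y` two elements of `L \ {z}`:
`kite({f₁}; {x}, {y}; {f₀}; {e})`.
(6) If `D` has a neighbour `f₀ ∈ F₀` and none in `L` then `f₁ ∈ F₁` is adjacent to all elements of `D`.  Suppose `z ∈ D`,
`¬ z ~ f₁`.  `S_Path` in `D` from `{z}` to the neighbours of `f₀`: `r 0 = z, ..., r m ~ f₀`.  Let `x ∈ L₁`, `e ∈ A x` (in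
another component): `kite({f₀, r m, ..., r 1}; {x}, {f₁}; {e}; {z})`.
(7) `M = L ∪ F₀ ∪` (the union of the `D` with a neighbour in `L ∪ F₀`) is a module of `G[X]`: elements of `F₁` are adjacent
to all its elements, elements of the other components to none.  So `M = X` and `F₁ = ∅`. -/
def S_X10 : Prop := ∀ (V : Type) [Finite V] (G : SimpleGraph V) (X L : Set V) (v : V), Prm G X →
  ¬ IMS Kite G Set.univ → Loc G X v L → CompleteOn G L →
    (∃ a ∈ L, ∃ b ∈ L, a ≠ b ∧ (∃ e ∈ Rs G X L, G.Adj e a) ∧ ∃ e ∈ Rs G X L, G.Adj e b) ∧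
    (∀ a ∈ L, ∀ b ∈ L, (∀ e ∈ Rs G X L, ¬ G.Adj e a) → (∀ e ∈ Rs G X L, ¬ G.Adj e b) → a = b) ∧
    (∀ a ∈ L, ∀ b ∈ L, ∀ e ∈ Rs G X L, ∀ e' ∈ Rs G X L, a ≠ b → G.Adj e a → G.Adj e' b →
      ¬ G.Adj e e') ∧
    ∀ f ∈ Fl G X L, ∀ e ∈ Rs G X L, ∀ a ∈ L, G.Adj e a → ¬ G.Adj f e

/-- **X11.** Complete blocks, second part.  (Uses `S_X0`, `S_X10`.)

Proof. Notation as in X9, X10; so `L₁` has at least two and `L \ L₁` at most one element, and elements of `F` are not
adjacent to elements of the sets `A w`; elements of different `A w` are not adjacent.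
(1) Every component `D` of `G[R]` with a neighbour in `L` contains `v`.  Otherwise it has exactly one neighbour `x` in `L`.
`X \ {x}` is connected, so `D` has a neighbour in `X \ {x}`, which must be some `f ∈ F`.  Let `y ∈ L₁`, `y ≠ x`,
`e ∈ A y` (`e ∉ D`): `kite({y}; {x}, {f}; D; {e})`.
(2) So all `A w` are subsets of the component `D` of `v`.  `F = ∅`: let `f ∈ F`, `v ~ f`.  Let `B` be the set of the elements
of `D` without neighbours in `L`, and `Q` the component of `G[B]` containing `v`.  `D` is connected, `Q ≠ D`, so some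
`e ∈ D \ Q` is adjacent to `Q`, `e ∈ A x` for some `x`.  `Q' = Q ∪ {e}` is connected and adjacent to `x`, `f`, and to no
other element of `L`.  Let `y ∈ L₁ \ {x}`, `e' ∈ A y`, `z ∈ L \ {x, y}`.  If `e'` is not adjacent to `Q'`:
`kite({y}; {x}, {f}; Q'; {e'})`.  If `e'` is adjacent to `Q'`: `kite(Q'; {x}, {f}; {z}; {e'})`.
(3) As in X9 (4): `X \ L = R` is connected (each component has a neighbour in `L`, so it contains `v` by (1)).
(4) `|L| = 3`: let `|L| ≥ 4`, `|L₁| ≥ 3`.  Let `Z ⊆ X \ L` be a connected set with neighbours at most two elements of `L`, of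
maximal size.  `Z ≠ X \ L`, so some `p ∈ (X \ L) \ Z` is adjacent to `Z`; by maximality `Z ∪ {p}` is adjacent to at least
three elements of `L`, so `Z` is adjacent to exactly two, `x, y`, and `p` to a third one, `z'`.  Let
`z ∈ L \ {x, y, z'}`: `kite(Z; {x}, {y}; {z}; {p})`. -/
def S_X11 : Prop := ∀ (V : Type) [Finite V] (G : SimpleGraph V) (X L : Set V) (v : V), Prm G X →
  Blk G X → ¬ IMS Kite G Set.univ → Loc G X v L → CompleteOn G L →
    Fl G X L = ∅ ∧ Conn G (X \ L) ∧ L.ncard = 3

/-- **X12.** A vertex of degree two, first case.  (Uses `S_Path`, `S_X0`, `S_X3`.)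

Proof. `D = X \ L`.  An element of `D` adjacent to `w ∈ L` has colour `w` (at most one colour), the others are uncoloured.  All
elements of `L` are colours; there are at least three colours; `v` is uncoloured.
(I) If `Z ⊆ D` is connected and has at least two colours, but not all colours, and `p ∈ D \ Z` is uncoloured, then `p` is
not adjacent to `Z`.  Let `a ≠ b` be colours of `Z`, `w` not a colour of `Z`; X3 for `L`, `{a, b}`, `w` gives `P, Q`;
`kite(Z; P, Q; {w}; {p})`.
(II) Let `q ∈ D` be uncoloured, `e ∈ D` of colour `a`, `e ~ q`.  All elements of the component `K` of `e` in `G[D \ {q}]` have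
colour `a` or none: otherwise let `Z ⊆ K` be a maximal connected set containing `e` whose only colour is `a`, and
`p ∈ K \ Z` adjacent to `Z`; `Z ∪ {p}` has exactly two colours and `q` is adjacent to it: contradiction to (I).
(III) There are an uncoloured `q` and `e` of some colour `a` with `e ~ q` (`D` is connected).  Fix them.  CLAIM: a component
`K'` of `G[D \ {q}]` without coloured neighbours of `q` has no colour different from `a`.  Suppose it has.  `S_Path` in `K'`
from the neighbours of `q` to the vertices with a colour `≠ a`: an induced path `r 0, ..., r m`, only `r 0 ~ q`, `r m` has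
colour `w ≠ a`, the others have colour `a` or none, `r 0` is uncoloured.  All `r i`, `i < m`, are uncoloured: otherwise
there is `i` with `r i` of colour `a` and `r (i-1)` uncoloured, contradiction to (I) for `{r i, ..., r m}`.
Put `q 1 = q`, `q (i+2) = r i` for `i < m`, `k = m + 1 ≥ 2`, `e' = r m`: `e, q 1, ..., q k, e'` is an induced path `P`, `q i`
uncoloured.  Let `c ∈ D \ P` be adjacent to `P`; by (I) `c` is coloured, of colour `b`.  If `c ~ q i`, `b ≠ a`, `i < k`: then
`{e, q 1, ..., q i, c}` has the colours `a, b` and `q (i+1)` contradicts (I).  If `c ~ q i`, `b ≠ w`, `i > 1`: the same with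
`{e', q k, ..., q i, c}` and `q (i-1)`.  So `b = a`, `i = 1` or `b = w`, `i = k`.  If `c ~ e` then `b = a` by (II) for `q 1, e`.
If `c ~ e'` then `b = w` by (II) for `q k, e'`.  So if `b = a`, `c` is in a component of `G[D \ {q 1}]` containing a
neighbour of `q 1` of colour `a` (`c` or `e`), and all coloured elements of this component have colour `a`; if `b = w` the
same for `q k` and `w`.  Every element of `D \ P` is connected in `D \ P` to such a `c`; so `D` has only the colours
`a, w`: contradiction.
(IV) So for every colour `b ≠ a` there is a component of `G[D \ {q}]` containing the colour `b`, by (III) it contains a coloured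
neighbour of `q`, by (II) of colour `b`.  So `q` has neighbours `e b` of all colours `b ∈ L` (`e a = e`), in different
components.
(V) `q` has no uncoloured neighbour `q'`: (I) for `{e a, q, e b}`.  So all components of `G[D \ {q}]` have exactly one colour, by (II).
(VI) All elements of `D \ {q}` are coloured: let `p` be uncoloured, in a component `K` of colour `x`; take a path in `K` from `p` to a
neighbour of `q`, its last vertex is coloured; let `p'` be the last uncoloured vertex of the path, `Z` the set of the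
later vertices; (I) for `Z ∪ {q, e b}`, `b ≠ x`, and `p'`: contradiction.  So `q = v`.
(VII) Let `K` be a component of `G[D \ {v}]`, of colour `x`: all its elements are adjacent to `x`.  `v` has exactly one neighbour in
`K`: suppose two, `u ≠ u'`; let `K₂` be the component of `u'` in `G[K \ {u}]`, `K₁ = K \ K₂` (connected); let `y ∈ L`,
`y ~ x`: `kite({x}; K₁, K₂; {v}; {y})`.
(VIII) Let `k` be the neighbour of `v` in `K`.  `K = {k}`: otherwise let `u ∈ K`, `u ≠ k`, `u ~ k`; `y ∈ L`, `y ~ x`,
`z ∈ L \ {x, y}`: `kite({v, e y, y}; {x}, {k}; {u}; {e z})`.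
So `t = k` has the neighbours `x, v` only. -/
def S_X12 : Prop := ∀ (V : Type) [Finite V] (G : SimpleGraph V) (X L : Set V) (v : V),
  ¬ IMS Kite G Set.univ → L ⊆ X → Blk G L → 3 ≤ L.ncard → Conn G (X \ L) → v ∈ X → v ∉ L →
    (∀ w ∈ L, ¬ G.Adj v w) → One1 G X L → (∀ w ∈ L, ∃ e ∈ X, e ∉ L ∧ G.Adj e w) →
    ∃ t ∈ X, {w | w ∈ X ∧ G.Adj t w}.ncard ≤ 2

/-- **X13.** A vertex of degree two, or the block is a cycle.  (Uses `S_V6`, `S_X5`, `S_X6`.)

Proof. Suppose that all vertices of `X` have at least three neighbours in `X`.  `|L| ≥ 4`: otherwise `L = {x, y, z}`, and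
`L \ {z} = {x, y}` is not connected.
(1) If `p ∈ L` has at most two neighbours in `L` then it has a neighbour in `X \ L`, and there is `y' ∈ L`, `y' ≠ p`,
`¬ p ~ y'`; so `CoF Gᶜ (L \ {p})` by X5 (we say that `L \ {p}` is a forest).  `L \ {x}` is a forest by X5; so it has an
element `t` with at most one neighbour in `L \ {x}`, so at most two in `L`; `L \ {t}` is a forest, `t ≠ x`.
(2) All elements of `L` have at least two neighbours in `L` (`Blk`), so there is a ring `Y ⊆ L` (V6 (b)); a forest contains no ring, so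
`x ∈ Y`, `t ∈ Y`, and by (1): (*) every `p ∈ L` with at most two neighbours in `L` is in `Y`.
(3) Suppose `Y ≠ L`; let `K` be a component of `G[L \ Y]`.  `Y \ {x}` and `Y \ {t}` are connected (X6 (a)).  By X6 (b) there is at most
one pair of adjacent `k ∈ K`, `y' ∈ Y \ {x}`, and at most one pair of adjacent `k ∈ K`, `y' ∈ Y \ {t}`.  `K` is adjacent
to at least two elements of `Y`: otherwise to at most one, `y'`, and in the connected set `L \ {y'}` there is no edge
from `K` to the rest, which contains `Y \ {y'}`.  So there are two adjacent pairs `(k₁, y₁)`, `(k₂, y₂)`, `y₁ ≠ y₂`;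
one of `y₁, y₂` is `x`, one is `t`; say `y₁ = x`, `y₂ = t`; there is no third pair.
(4) `K` is a forest: let `p ∈ K` have at most one neighbour in `K`.  If `k₁, k₂` are not both equal to `p` then `p` has at most two
neighbours in `L`: contradiction to (*).  So `k₁ = k₂ = p`.  If `K = {p}` the same.  Otherwise take `p' ∈ K \ {p}` with at most
one neighbour in `K \ {p}`; it has at most two neighbours in `L`: contradiction to (*).
So `L = Y`, and V6 (c). -/
def S_X13 : Prop := ∀ (V : Type) [Finite V] (G : SimpleGraph V) (X L : Set V) (x y e : V),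
  Prm G X → ¬ IMS Kite G Set.univ → L ⊆ X → Blk G L → 3 ≤ L.ncard → One1 G X L → x ∈ L →
    y ∈ L → x ≠ y → ¬ G.Adj x y → e ∈ X → e ∉ L → G.Adj x e →
    (∃ t ∈ X, {w | w ∈ X ∧ G.Adj t w}.ncard ≤ 2) ∨ ∀ w ∈ L, {u | u ∈ L ∧ G.Adj w u}.ncard ≤ 2

/-- **X14.** Blocks of the non-neighbourhood, summary.  (Uses `S_X5`, `S_X7`, `S_X8`, `S_X9`, `S_X11`, `S_X12`,
`S_X13`.)

Proof. `Loc G X v L` by X8.
(a) `L` complete: X11: `Fl G X L = ∅`, `X \ L` connected, `|L| = 3`, so (with `Loc`) `One1 G X L`.  If every `w ∈ L` has a neighbour in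
`X \ L`: X12.  Otherwise `t = w` has only the two neighbours in `L`.
(b) `L` not complete: X9: `Fl G X L = ∅`, `X \ L` connected, `One1 G X L`.  By X7 (a) there are `x ∈ L`, `e ∈ Rs G X L`, `e ~ x`, and
`y ∈ L`, `y ≠ x`, `¬ x ~ y`.  X5: `CoF Gᶜ (L \ {x})`.  X13: a vertex `t`, or all `w ∈ L` have at most two neighbours in `L`; in the
second case either some `w ∈ L` has no neighbour in `X \ L`, `t = w`, or X12. -/
def S_X14 : Prop := ∀ (V : Type) [Finite V] (G : SimpleGraph V) (X W L : Set V) (v : V),
  Prm G X → Blk G X → ¬ IMS Kite G Set.univ → v ∈ X → IsComp G (X \ Nc G v) W → MBlk G W L →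
    3 ≤ L.ncard → (L.ncard = 3 ∨ ∃ x ∈ L, CoF Gᶜ (L \ {x})) ∧
      ∃ t ∈ X, {w | w ∈ X ∧ G.Adj t w}.ncard ≤ 2

/-- **X15.** Layouts of small sets, complete sets and almost forests.  (Uses `S_Y1`, `S_Y3`, `S_Y9`.)

Proof. (a) `|Y| ≤ 3`: insert the elements one after the other, a set `S` has at most `|S| ≤ 3` types.  (b) `Y` complete: for
`S ⊆ Y` all elements of `S` have the same trace `Y \ S`.  (c) Y9 for `D = Gᶜ`, `Z = Y \ {x}`, then Y1 (`Gᶜᶜ = G`), then Y3
(`2 * 3 + 1 = 7`). -/
def S_X15 : Prop := ∀ (V : Type) [Finite V] (G : SimpleGraph V) (Y : Set V),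
  (Y.ncard ≤ 3 ∨ CompleteOn G Y ∨ ∃ x, CoF Gᶜ (Y \ {x})) → Lay (restr G Y) 7 Y

/-- **X16.** Prime sets.  (Uses `S_V6`, `S_V14`, `S_X6`, `S_X7`, `S_X14`, `S_X15`, `S_Y3`.)

Proof. (1) `X` not connected (or empty): then `|X| ≤ 2`: if a component has at least two elements it is a module different from
`X`; if all components have one element and `|X| ≥ 3` then two elements form a module.  X15.
(2) `X` connected, not `Blk`: X7 (b), X15 and V14: `Lay (restr G X) 8 X`.
(3) `Blk G X`.  Suppose that `LCF Gᶜ X` is false: `v ∈ X` and a nonempty `Y₀ ⊆ {w ∈ X | Gᶜ.Adj v w}` all of whose elements have at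
least two neighbours in `Y₀`; V6 (b): a ring `Y ⊆ Y₀`, which is connected, without cut vertex, `|Y| ≥ 3` (X6); `Y ⊆ X \ Nc G v`.
Let `W` be the component of `G[X \ Nc G v]` containing `Y`, `L ⊇ Y` a maximal subset of `W` without cut vertex.  X14 gives
`t ∈ X` with at most two neighbours in `X`.  Let `U = X \ Nc G t`.  For every `Y' ⊆ U` with `Blk G Y'`: it is contained in
a component `W'` of `G[U]` and in a maximal `L' ⊆ W'` without cut vertex; if `|L'| ≤ 2` then `|Y'| ≤ 2`, otherwise X14 (for `t`, `W'`, `L'`)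
gives `|L'| = 3` or `CoF Gᶜ (L' \ {x})`; X15 gives `Lay (restr G Y') 7 Y'`.  V14: `Lay (restr G U) 8 U`.  Add the at most three
elements of `X \ U` with Y3: `8, 17, 35, 71`. -/
def S_X16 : Prop := ∀ (V : Type) [Finite V] (G : SimpleGraph V) (X : Set V), Prm G X →
  ¬ IMS Kite G Set.univ → LCF Gᶜ X ∨ Lay (restr G X) 71 X

/-- **X17.** Row `Kite`, sufficient condition.  (Uses `S_K3`, `S_P10`, `S_X1`, `S_X16`, `S_Y1`, `S_LayCW`.)

Proof. K3 gives `r, k` for `H`, P10 gives `K`.  Let `G` contain neither the kite nor `H`.  For every prime `X`: X16; if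
`LCF Gᶜ X` then `¬ HasN Gᶜ X r k` by K3 (`HasN` is monotone in the set), P10: `Lay (restr Gᶜ X) K X`, Y1:
`Lay (restr G X) (K + 1) X` (`Gᶜᶜ = G`).  So `Lay (restr G X) (max (K + 1) 71) X`; X1 for `X = univ`, and `S_LayCW`
(`restr G univ = G`). -/
def S_X17 : Prop := ∀ (W : Type) [Finite W] (H : SimpleGraph W), InCoT H → BoundedCW Kite H

/-- **X18.** The kite is not in `InCoT`.

Proof. See K7: in the complement of the kite the vertex `3` is adjacent to `1, 2, 4`, and these are pairwise not
adjacent in the complement: `1 ~ 2`, `1 ~ 4`, `2 ~ 4` in the kite. -/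
def S_X18 : Prop := ¬ InCoT Kite

end Pool.Agent.MPd439b2
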