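import Pool.Agent.Lib.MP_d439b2_co.R.K7
import Pool.Agent.Lib.MP_d439b2_co.R.Spec4

/-!
# MP_d439b2_co, X18: the kite is not in `InCoT`
-/

set_option autoImplicit false

namespace Pool.Agent.MPd439b2

open rK7Aux in
theorem rX18 : S_X18 := by
  intro h
  have := claw h (x := 3) (a := 1) (b := 2) (c := 4) (by decide) (by decide) (by decide)
    (by simp [SimpleGraph.compl_adj, Kite]) (by simp [SimpleGraph.compl_adj, Kite])
    (by simp [SimpleGraph.compl_adj, Kite])
  simp [SimpleGraph.compl_adj, Kite] at this

end Pool.Agent.MPd439b2
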