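import Pool.Agent.Lib.MP_d439b2_co.R.Spec4
import Pool.Agent.Lib.MP_d439b2_co.B.Q3a

set_option autoImplicit false

namespace Pool.Agent.MPd439b2

namespace rX2Aux

variable {V : Type} {G : SimpleGraph V}

/-- (1) a connected subset of `C \ L` is adjacent to at most one element of a maximal block -/
theorem one [Finite V] {C L K : Set V} (hL : MBlk G C L) (hK : K ⊆ C \ L) (cK : Conn G K)
    {a b : V} (ha : a ∈ L) (hb : b ∈ L) (haK : a ∈ nb G K) (hbK : b ∈ nb G K) : a = b := by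
  by_contra hab
  obtain ⟨K₀, ⟨hK₀, cK₀, a, ha, b, hb, hab, haK, hbK⟩, hmin⟩ := q3aAux.exists_min
    (fun K₀ : Set V => K₀ ⊆ C \ L ∧ Conn G K₀ ∧ ∃ a ∈ L, ∃ b ∈ L, a ≠ b ∧ a ∈ nb G K₀ ∧ b ∈ nb G K₀)
    ⟨K, hK, cK, a, ha, b, hb, hab, haK, hbK⟩
  obtain ⟨hblk, hLC, hmax⟩ := hL
  obtain ⟨cL, hcut⟩ := hblk
  have hdis : ∀ x ∈ K₀, x ∉ L := fun x hx => (hK₀ hx).2
  have tch : ∀ c ∈ L, c ∈ nb G K₀ → ∀ L' : Set V, c ∈ L' → Tch G L' K₀ := by
    intro c _ hc L' hcL'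
    obtain ⟨_, k, hk, hkc⟩ := hc
    exact ⟨c, hcL', k, hk, hkc.symm⟩
  have hB : Blk G (L ∪ K₀) := by
    refine ⟨cL.union cK₀ (Or.inr (tch a ha haK L ha)), fun x hx hne => ?_⟩
    rcases hx with hx | hx
    · -- `x ∈ L`
      have hxK : x ∉ K₀ := fun h => hdis x h hx
      have e : (L ∪ K₀) \ {x} = (L \ {x}) ∪ K₀ := by
        ext w
        simp only [Set.mem_sdiff, Set.mem_union, Set.mem_singleton_iff]
        constructor
        · rintro ⟨h1 | h1, h2⟩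
          · exact Or.inl ⟨h1, h2⟩
          · exact Or.inr h1
        · rintro (⟨h1, h2⟩ | h1)
          · exact ⟨Or.inl h1, h2⟩
          · exact ⟨Or.inr h1, fun h => hxK (h ▸ h1)⟩
      rw [e]
      have hc : ∃ c ∈ L, c ≠ x ∧ c ∈ nb G K₀ := by
        by_cases hax : a = x
        · exact ⟨b, hb, fun h => hab (hax.trans h.symm), hbK⟩
        · exact ⟨a, ha, hax, haK⟩
      obtain ⟨c, hcL, hcx, hcK⟩ := hc
      have hne' : (L \ {x}).Nonempty := ⟨c, hcL, hcx⟩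
      exact (hcut x hx hne').union cK₀ (Or.inr (tch c hcL hcK _ ⟨hcL, hcx⟩))
    · -- `x ∈ K₀`
      have e : (L ∪ K₀) \ {x} = L ∪ (K₀ \ {x}) := by
        ext w
        simp only [Set.mem_sdiff, Set.mem_union, Set.mem_singleton_iff]
        constructor
        · rintro ⟨h1 | h1, h2⟩
          · exact Or.inl h1
          · exact Or.inr ⟨h1, h2⟩
        · rintro (h1 | ⟨h1, h2⟩)
          · exact ⟨Or.inl h1, fun h => hdis x hx (h ▸ h1)⟩
          · exact ⟨Or.inr h1, h2⟩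
      rw [e]
      -- the components of `K₀ \ {x}`
      have hcomp : ∀ z : {z // z ∈ K₀ \ {x}}, ∃ K', K' ⊆ K₀ \ {x} ∧ (z : V) ∈ K' ∧ Conn G K' ∧
          ∀ u ∈ K₀ \ {x}, u ∉ nb G K' := by
        intro z
        obtain ⟨K', h1, h2, h3, h4⟩ := exists_comp G z.2
        exact ⟨K', h1, h2, h3, h4⟩
      choose K' hK'1 hK'2 hK'3 hK'4 using hcomp
      have hT : ∀ z, Tch G L (K' z) := by
        intro z
        by_contra hT
        have hc : Conn G (K₀ \ K' z) := q3aAux.compl_conn cK₀ (Conn.singleton G x)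
          (Set.singleton_subset_iff.mpr hx) (hK'1 z) (hK'4 z)
        have hnb : ∀ c ∈ L, c ∈ nb G K₀ → c ∈ nb G (K₀ \ K' z) := by
          rintro c hcL ⟨hcK, k, hk, hkc⟩
          refine ⟨fun h => hcK h.1, k, ⟨hk, fun h => ?_⟩, hkc⟩
          exact hT ⟨c, hcL, k, h, hkc.symm⟩
        have h1 := hmin (K₀ \ K' z) ⟨fun w hw => hK₀ hw.1, hc, a, ha, b, hb, hab,
          hnb a ha haK, hnb b hb hbK⟩
        have h2 : (K₀ \ K' z).ncard < K₀.ncard := by
          apply Set.ncard_lt_ncard _ (Set.toFinite _)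
          refine ⟨Set.sdiff_subset, fun h => ?_⟩
          exact (h z.2.1).2 (hK'2 z)
        omega
      have e2 : L ∪ (K₀ \ {x}) = L ∪ ⋃ z, K' z := by
        congr 1
        ext w
        constructor
        · intro hw
          exact Set.mem_iUnion.mpr ⟨⟨w, hw⟩, hK'2 ⟨w, hw⟩⟩
        · intro hw
          obtain ⟨z, hz⟩ := Set.mem_iUnion.mp hw
          exact hK'1 z hz
      rw [e2]
      exact cL.union_iUnion hK'3 fun z => Or.inr (hT z)
  have h3 := hmax (L ∪ K₀) Set.subset_union_left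
    (Set.union_subset hLC fun x hx => (hK₀ hx).1) hB
  obtain ⟨k, hk⟩ := cK₀.1
  exact hdis k hk (h3 ▸ Or.inr hk)

end rX2Aux

open rX2Aux in
theorem rX2 : S_X2 := by
  classical
  intro V _ G C L hC hL _
  obtain ⟨hblk, hLC, hmax⟩ := id hL
  have hLne : L.Nonempty := hblk.1.1
  have hcomp : ∀ z : V, ∃ K : Set V, z ∈ C \ L → K ⊆ C \ L ∧ z ∈ K ∧ Conn G K ∧
      ∀ u ∈ C \ L, u ∉ nb G K := by
    intro z
    by_cases hz : z ∈ C \ L
    · obtain ⟨K, h1, h2, h3, h4⟩ := exists_comp G hz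
      exact ⟨K, fun _ => ⟨h1, h2, h3, h4⟩⟩
    · exact ⟨∅, fun h => absurd h hz⟩
  choose K hK using hcomp
  have hat : ∀ z : V, ∃ a : V, z ∈ C \ L → a ∈ L ∧ a ∈ nb G (K z) := by
    intro z
    by_cases hz : z ∈ C \ L
    · obtain ⟨h1, h2, h3, h4⟩ := hK z hz
      obtain ⟨k, hk, a, ha, hka⟩ := q3aAux.comp_tch hC hLne hLC h1 ⟨z, h2⟩ h4
      exact ⟨a, fun _ => ⟨ha, fun h => (h1 h).2 ha, k, hk, hka⟩⟩
    · exact ⟨z, fun h => absurd h hz⟩
  choose at' hat using hat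
  let h : V → V := fun z => if z ∈ L then z else at' z
  have hL' : ∀ y ∈ L, h y = y := fun y hy => if_pos hy
  have hN : ∀ z, z ∉ L → h z = at' z := fun z hz => if_neg hz
  -- elements of the same component
  have hsame : ∀ z ∈ C \ L, ∀ w ∈ K z, w ∈ C \ L ∧ K w = K z ∧ at' w = at' z := by
    intro z hz w hw
    obtain ⟨h1, h2, h3, h4⟩ := hK z hz
    have hwC : w ∈ C \ L := h1 hw
    obtain ⟨g1, g2, g3, g4⟩ := hK w hwC
    have e : K w = K z := by
      rcases q3aAux.comp_cases g1 h1 g3 h3 g4 h4 with h5 | h5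
      · exact h5
      · exact absurd hw (Set.disjoint_left.mp h5.1 g2)
    refine ⟨hwC, e, ?_⟩
    obtain ⟨a1, a2⟩ := hat w hwC
    obtain ⟨b1, b2⟩ := hat z hz
    rw [e] at a2
    exact one hL h1 h3 a1 b1 a2 b2
  refine ⟨h, ?_, hL', ?_, ?_⟩
  · intro z hz
    by_cases hzL : z ∈ L
    · rw [hL' z hzL]; exact hzL
    · rw [hN z hzL]; exact (hat z ⟨hz, hzL⟩).1
  · intro y hy
    have e : {z | z ∈ C ∧ h z = y} = {y} ∪ ⋃ z : {z // z ∈ C \ L ∧ at' z = y}, K z.1 := by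
      ext w
      constructor
      · rintro ⟨hwC, hwy⟩
        by_cases hwL : w ∈ L
        · left
          rw [hL' w hwL] at hwy
          exact hwy
        · right
          rw [hN w hwL] at hwy
          exact Set.mem_iUnion.mpr ⟨⟨w, ⟨hwC, hwL⟩, hwy⟩, (hK w ⟨hwC, hwL⟩).2.1⟩
      · rintro (hw | hw)
        · rw [Set.mem_singleton_iff] at hw
          subst hw
          exact ⟨hLC hy, hL' w hy⟩
        · obtain ⟨⟨z, hz, hzy⟩, hwz⟩ := Set.mem_iUnion.mp hw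
          obtain ⟨h1, _, h3⟩ := hsame z hz w hwz
          refine ⟨h1.1, ?_⟩
          rw [hN w h1.2, h3]
          exact hzy
    rw [e]
    apply (Conn.singleton G y).union_iUnion
    · rintro ⟨z, hz, hzy⟩
      exact (hK z hz).2.2.1
    · rintro ⟨z, hz, hzy⟩
      right
      obtain ⟨_, ⟨_, k, hk, hky⟩⟩ := hat z hz
      rw [hzy] at hky
      exact ⟨y, rfl, k, hk, hky.symm⟩
  · -- edges
    have key : ∀ z ∈ C, ∀ z' ∈ C, G.Adj z z' → h z ≠ h z' → z ∈ L := by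
      intro z hz z' hz' hadj hne
      by_contra hzL
      obtain ⟨h1, h2, h3, h4⟩ := hK z ⟨hz, hzL⟩
      apply hne
      rw [hN z hzL]
      by_cases hz'L : z' ∈ L
      · rw [hL' z' hz'L]
        obtain ⟨a1, a2⟩ := hat z ⟨hz, hzL⟩
        exact one hL h1 h3 a1 hz'L a2 ⟨fun h => (h1 h).2 hz'L, z, h2, hadj⟩
      · rw [hN z' hz'L]
        have hz'K : z' ∈ K z := by
          by_contra h5
          exact h4 z' ⟨hz', hz'L⟩ ⟨h5, z, h2, hadj⟩
        exact (hsame z ⟨hz, hzL⟩ z' hz'K).2.2.symm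
    intro z hz z' hz' hadj hne
    exact ⟨key z hz z' hz' hadj hne, key z' hz' z hz hadj.symm (Ne.symm hne)⟩

end Pool.Agent.MPd439b2

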