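import Pool.Agent.Lib.MP_d439b2_co.R.Spec4
import Pool.Agent.Lib.MP_d439b2_co.GT.Men

/-!
# MP_d439b2_co, row `Kite`, X3: two disjoint connections
-/

set_option autoImplicit false

namespace Pool.Agent.MPd439b2

namespace rX3Aux

open GT

variable {V : Type} {G : SimpleGraph V}

/-- two disjoint connected sets from `N` to `A` -/
theorem two_sets [Finite V] {L A : Set V} {w : V} (hL : Blk G L) (hw : w ∈ L) (hA : A ⊆ L)
    (hwA : w ∉ A) {a b : V} (ha : a ∈ A) (hb : b ∈ A) (hab : a ≠ b) :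
    ∃ P Q : Set V, P ⊆ L \ {w} ∧ Q ⊆ L \ {w} ∧ Disjoint P Q ∧ Conn G P ∧ Conn G Q ∧
      Tch G {w} P ∧ Tch G {w} Q ∧ (P ∩ A).Nonempty ∧ (Q ∩ A).Nonempty := by
  classical
  haveI : Fintype V := Fintype.ofFinite V
  let M : Finset V := (Set.toFinite (L \ {w})).toFinset
  have hM : ∀ x, x ∈ M ↔ x ∈ L ∧ x ≠ w := fun x => Set.Finite.mem_toFinset _
  let N : Finset V := M.filter fun x => G.Adj w x
  have hN : ∀ x, x ∈ N ↔ x ∈ M ∧ G.Adj w x := by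
    intro x
    simp [N]
  let A' : Finset V := (Set.toFinite A).toFinset
  have hA' : ∀ x, x ∈ A' ↔ x ∈ A := fun x => Set.Finite.mem_toFinset _
  have hAM : ∀ x ∈ A, x ∈ M := fun x hx => (hM x).2 ⟨hA hx, fun h => hwA (h ▸ hx)⟩
  have hmen := pMen V (ins G M) N A' 2 (by
    intro Lc X hcut
    by_contra hlt
    have hX1 : X.card ≤ 1 := by omega
    have hXe : ∀ x ∈ X, ∀ y ∈ X, x = y := Finset.card_le_one.1 hX1
    -- the connected set `L \ X`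
    have hconn : Conn G (L \ {x | x ∈ X ∧ x ∈ M}) := by
      by_cases hc : ∃ c, c ∈ X ∧ c ∈ M
      · obtain ⟨c, hcX, hcM⟩ := hc
        have h1 : L \ {x | x ∈ X ∧ x ∈ M} = L \ {c} := by
          ext x
          constructor
          · rintro ⟨h2, h3⟩
            exact ⟨h2, fun h4 => h3 ⟨(show x = c from h4) ▸ hcX, (show x = c from h4) ▸ hcM⟩⟩
          · rintro ⟨h2, h3⟩
            exact ⟨h2, fun h4 => h3 (hXe x h4.1 c hcX)⟩
        rw [h1]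
        have h2 := (hM c).1 hcM
        exact hL.2 c h2.1 ⟨w, hw, fun h => h2.2 (show w = c from h).symm⟩
      · have h1 : L \ {x | x ∈ X ∧ x ∈ M} = L := by
          ext x
          constructor
          · rintro ⟨h2, -⟩
            exact h2
          · intro h2
            exact ⟨h2, fun h3 => hc ⟨x, h3.1, h3.2⟩⟩
        rw [h1]
        exact hL.1
    -- an element of `A` outside `X`
    obtain ⟨e, heA, heX⟩ : ∃ e ∈ A, e ∉ X := by
      by_contra h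
      push Not at h
      exact hab (hXe a (h a ha) b (h b hb))
    have heM := hAM e heA
    have heL : e ∉ Lc := fun h => Finset.disjoint_left.1 hcut.last ((hA' e).2 heA) h
    have hdis : ∀ x, x ∈ Lc → x ∉ X := fun x hx hx' => Finset.disjoint_left.1 hcut.dis hx hx'
    let B : Set V := {x | x = w ∨ (x ∈ Lc ∧ x ∈ M)}
    have hBs : B ⊆ L \ {x | x ∈ X ∧ x ∈ M} := by
      rintro x (h | h)
      · rw [h]
        exact ⟨hw, fun h' => ((hM w).1 h'.2).2 rfl⟩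
      · exact ⟨((hM x).1 h.2).1, fun h' => hdis x h.1 h'.1⟩
    have hBne : B ≠ L \ {x | x ∈ X ∧ x ∈ M} := by
      intro h
      have h1 : e ∈ B := by
        rw [h]
        exact ⟨hA heA, fun h' => heX h'.1⟩
      rcases h1 with h1 | h1
      · exact hwA (h1 ▸ heA)
      · exact heL h1.1
    obtain ⟨x, hx, y, hy, hxy⟩ := hconn.2 B hBs ⟨w, Or.inl rfl⟩ hBne
    have hyw : y ≠ w := fun h => hy.2 (Or.inl h)
    have hyM : y ∈ M := (hM y).2 ⟨hy.1.1, hyw⟩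
    have hyX : y ∉ X := fun h => hy.1.2 ⟨h, hyM⟩
    have hyL : y ∉ Lc := fun h => hy.2 (Or.inr ⟨h, hyM⟩)
    have hfin : y ∈ Lc ∪ X := by
      rcases hx with h | h
      · apply hcut.head
        rw [hN]
        exact ⟨hyM, h ▸ hxy⟩
      · exact hcut.far x h.1 y ⟨hxy, h.2, hyM⟩
    rcases Finset.mem_union.1 hfin with h | h
    · exact hyL h
    · exact hyX h)
  obtain ⟨n, p, hp⟩ := hmen
  have hmem : ∀ i : Fin 2, ∀ s, s ≤ n i → p i s ∈ M := by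
    intro i s hs
    cases s with
    | zero => exact ((hN _).1 (hp.pth i).head).1
    | succ s => exact ((hp.pth i).adj s (by omega)).2.2
  have hsub : ∀ i : Fin 2, (GT.seg (p i) 0 (n i + 1) : Set V) ⊆ L \ {w} := by
    intro i x hx
    obtain ⟨s, -, hs, rfl⟩ := GT.mem_seg.1 (Finset.mem_coe.1 hx)
    have := (hM _).1 (hmem i s (by omega))
    exact ⟨this.1, this.2⟩
  have hcon : ∀ i : Fin 2, Conn G (GT.seg (p i) 0 (n i + 1) : Set V) := by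
    intro i
    refine GT.conn_seg (a := 0) (b := n i + 1) (by omega) ?_
    intro s _ hs
    exact ((hp.pth i).adj s (by omega)).1
  have htch : ∀ i : Fin 2, Tch G {w} (GT.seg (p i) 0 (n i + 1) : Set V) := by
    intro i
    refine ⟨w, rfl, p i 0, ?_, ((hN _).1 (hp.pth i).head).2⟩
    exact Finset.mem_coe.2 (GT.mem_seg.2 ⟨0, le_rfl, by omega, rfl⟩)
  have hmA : ∀ i : Fin 2, ((GT.seg (p i) 0 (n i + 1) : Set V) ∩ A).Nonempty := by
    intro i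
    refine ⟨p i (n i), ?_, (hA' _).1 (hp.pth i).last⟩
    exact Finset.mem_coe.2 (GT.mem_seg.2 ⟨n i, by omega, by omega, rfl⟩)
  refine ⟨_, _, hsub 0, hsub 1, ?_, hcon 0, hcon 1, htch 0, htch 1, hmA 0, hmA 1⟩
  rw [Set.disjoint_left]
  intro x hx hx'
  obtain ⟨s, -, hs, h1⟩ := GT.mem_seg.1 (Finset.mem_coe.1 hx)
  obtain ⟨t, -, ht, h2⟩ := GT.mem_seg.1 (Finset.mem_coe.1 hx')
  exact hp.dis 0 1 (by decide) s (by omega) t (by omega) (h1.trans h2.symm)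

end rX3Aux

open rX3Aux in
theorem rX3 : S_X3 := by
  rintro V _ G L A w hL hw hA hwA ⟨a, ha, b, hb, hab⟩
  obtain ⟨P₀, Q₀, hP₀, hQ₀, hdis, hcP, hcQ, htP, htQ, hPA, hQA⟩ :=
    two_sets hL hw hA hwA ha hb hab
  have hMc : Conn G (L \ {w}) := hL.2 w hw ⟨a, hA ha, fun h => hwA ((show a = w from h) ▸ ha)⟩
  obtain ⟨x₀, hx₀⟩ := hcP.1
  have hx₀' : x₀ ∈ (L \ {w}) \ Q₀ := ⟨hP₀ hx₀, fun h => Set.disjoint_left.1 hdis hx₀ h⟩
  obtain ⟨P, hPs, hxP, hPc, hPn⟩ := exists_comp G hx₀'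
  -- `P₀ ⊆ P`
  have hP₀P : P₀ ⊆ P := by
    have h1 : P₀ ∩ P = P₀ := by
      refine hcP.eq_of_nb Set.inter_subset_left ⟨x₀, hx₀, hxP⟩ ?_
      rintro v hv ⟨h2, c, hc, hcv⟩
      have h3 : v ∉ P := fun h => h2 ⟨hv, h⟩
      exact hPn v ⟨hP₀ hv, fun h => Set.disjoint_left.1 hdis hv h⟩ ⟨h3, c, hc.2, hcv⟩
    intro v hv
    rw [← h1] at hv
    exact hv.2
  have hPM : P ⊆ L \ {w} := fun v hv => (hPs hv).1
  have hQ₀Q : Q₀ ⊆ (L \ {w}) \ P := fun v hv => ⟨hQ₀ hv, fun h => (hPs h).2 hv⟩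
  obtain ⟨q₀, hq₀⟩ := hcQ.1
  have hPne : P ≠ L \ {w} := by
    intro h
    have h1 := hQ₀ hq₀
    rw [← h] at h1
    exact (hQ₀Q hq₀).2 h1
  have hkey : ∀ B ⊆ (L \ {w}) \ P, B.Nonempty → (∀ x ∈ B, x ∉ Q₀) →
      ∃ x ∈ B, ∃ y ∈ ((L \ {w}) \ P) \ B, G.Adj x y := by
    intro B hB hne hBQ
    have hBM : B ⊆ L \ {w} := fun x hx => (hB hx).1
    have hBne : B ≠ L \ {w} := by
      intro h
      have h1 := hQ₀ hq₀
      rw [← h] at h1
      exact hBQ _ h1 hq₀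
    obtain ⟨x, hx, y, hy, hxy⟩ := hMc.2 B hBM hne hBne
    refine ⟨x, hx, y, ⟨⟨hy.1, ?_⟩, hy.2⟩, hxy⟩
    intro hyP
    exact hPn x ⟨hBM hx, hBQ x hx⟩ ⟨(hB hx).2, y, hyP, hxy.symm⟩
  have hQc : Conn G ((L \ {w}) \ P) := by
    refine ⟨⟨q₀, hQ₀Q hq₀⟩, ?_⟩
    intro B hB hne hBne
    by_cases h1 : ∀ x ∈ B, x ∉ Q₀
    · exact hkey B hB hne h1
    · push Not at h1
      obtain ⟨z, hzB, hzQ⟩ := h1
      by_cases h2 : Q₀ ⊆ B
      · -- the complement avoids `Q₀`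
        obtain ⟨c, hc, hcB⟩ : ∃ c ∈ (L \ {w}) \ P, c ∉ B := by
          by_contra h
          push Not at h
          exact hBne (Set.Subset.antisymm hB h)
        obtain ⟨x, hx, y, hy, hxy⟩ := hkey (((L \ {w}) \ P) \ B) Set.diff_subset ⟨c, hc, hcB⟩
          (fun x hx hxQ => hx.2 (h2 hxQ))
        refine ⟨y, ?_, x, hx, hxy.symm⟩
        by_contra h
        exact hy.2 ⟨hy.1, h⟩
      · have h3 : Q₀ ∩ B ≠ Q₀ := fun h => h2 (Set.inter_eq_left.1 h)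
        obtain ⟨x, hx, y, hy, hxy⟩ := hcQ.2 (Q₀ ∩ B) Set.inter_subset_left ⟨z, hzQ, hzB⟩ h3
        exact ⟨x, hx.2, y, ⟨hQ₀Q hy.1, fun h => hy.2 ⟨hy.1, h⟩⟩, hxy⟩
  refine ⟨P, (L \ {w}) \ P, Set.union_diff_cancel hPM, Set.disjoint_sdiff_right, hPc, hQc,
    htP.mono subset_rfl hP₀P, htQ.mono subset_rfl hQ₀Q, ?_, hPA.mono fun x hx => ⟨hP₀P hx.1, hx.2⟩,
    hQA.mono fun x hx => ⟨hQ₀Q hx.1, hx.2⟩⟩
  obtain ⟨x, hx, y, hy, hxy⟩ := hMc.2 P hPM hPc.1 hPne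
  exact ⟨x, hx, y, hy, hxy⟩

end Pool.Agent.MPd439b2
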