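import Pool.Agent.Lib.MP_d439b2_co.R.Spec4

/-!
# MP_d439b2_co, X4: a vertex with a private neighbour touching two fibres
-/

set_option autoImplicit false

namespace Pool.Agent.MPd439b2

namespace rX4Aux

variable {V : Type}

/-- the union of the fibres of the elements of `P` -/
def fibs (C : Set V) (h : V → V) (P : Set V) : Set V := {z | z ∈ C ∧ h z ∈ P}

theorem fibs_conn {G : SimpleGraph V} {C L : Set V} {h : V → V} (hg : Hg G C L h) (hLC : L ⊆ C)
    {P : Set V} (hP : Conn G P) (hPL : P ⊆ L) : Conn G (fibs C h P) := by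
  have h1 : fibs C h P = P ∪ ⋃ y : P, {z | z ∈ C ∧ h z = y} := by
    ext z
    constructor
    · rintro ⟨hz, hzP⟩
      exact Or.inr (Set.mem_iUnion.2 ⟨⟨h z, hzP⟩, hz, rfl⟩)
    · rintro (hz | hz)
      · refine ⟨hLC (hPL hz), ?_⟩
        rw [hg.2.1 z (hPL hz)]
        exact hz
      · obtain ⟨y, hz1, hz2⟩ := Set.mem_iUnion.1 hz
        refine ⟨hz1, ?_⟩
        rw [hz2]
        exact y.2
  rw [h1]
  refine Conn.union_iUnion hP (fun y => hg.2.2.1 y (hPL y.2)) fun y => Or.inl ⟨y, y.2, ?_⟩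
  exact ⟨hLC (hPL y.2), hg.2.1 y (hPL y.2)⟩

theorem sub_fibs {G : SimpleGraph V} {C L : Set V} {h : V → V} (hg : Hg G C L h) (hLC : L ⊆ C)
    {P : Set V} (hPL : P ⊆ L) : P ⊆ fibs C h P := by
  intro z hz
  refine ⟨hLC (hPL hz), ?_⟩
  rw [hg.2.1 z (hPL hz)]
  exact hz

/-- the main case -/
theorem main (hX0 : S_X0) (hX3 : S_X3) [Finite V] (G : SimpleGraph V) (C L : Set V) (h : V → V)
    (v e : V) (hK : ¬ IMS Kite G Set.univ) (hL : Blk G L) (hLC : L ⊆ C) (hg : Hg G C L h)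
    (hv : v ∉ C) (he : e ∉ C) (hve : G.Adj v e) (heC : ∀ z ∈ C, ¬ G.Adj e z)
    (w a b : V) (hw : w ∈ L) (hvw : ¬ G.Adj v w) (ha : a ∈ L) (hb : b ∈ L) (hab : a ≠ b)
    (haw : a ≠ w) (hbw : b ≠ w) (hta : ∃ z ∈ C, h z = a ∧ G.Adj v z)
    (htb : ∃ z ∈ C, h z = b ∧ G.Adj v z) : False := by
  obtain ⟨P, Q, hPQ, hd, hP, hQ, hwP, hwQ, hPQt, hPA, hQA⟩ := hX3 V G L {a, b} w hL hw
    (by rintro x (rfl | rfl) <;> assumption) (by rintro (rfl | rfl) <;> contradiction)
    ⟨a, Or.inl rfl, b, Or.inr rfl, hab⟩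
  have hPL' : P ⊆ L \ {w} := by
    rw [← hPQ]
    exact Set.subset_union_left
  have hQL' : Q ⊆ L \ {w} := by
    rw [← hPQ]
    exact Set.subset_union_right
  have hPL : P ⊆ L := fun x hx => (hPL' hx).1
  have hQL : Q ⊆ L := fun x hx => (hQL' hx).1
  have hwP' : w ∉ P := fun hx => (hPL' hx).2 rfl
  have hwQ' : w ∉ Q := fun hx => (hQL' hx).2 rfl
  have hhw : h w = w := hg.2.1 w hw
  have touch : ∀ R : Set V, (R ∩ {a, b}).Nonempty → Tch G {v} (fibs C h R) := by
    rintro R ⟨x, hx, hx'⟩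
    have hz : ∃ z ∈ C, h z = x ∧ G.Adj v z := by
      rcases hx' with rfl | rfl
      · exact hta
      · exact htb
    obtain ⟨z, hz1, hz2, hz3⟩ := hz
    refine ⟨v, rfl, z, ⟨hz1, ?_⟩, hz3⟩
    rw [hz2]
    exact hx
  apply hK
  apply hX0 V G {v} (fibs C h P) (fibs C h Q) {e} {w}
  · exact Conn.singleton G v
  · exact fibs_conn hg hLC hP hPL
  · exact fibs_conn hg hLC hQ hQL
  · exact Conn.singleton G e
  · exact Conn.singleton G w
  · exact Set.disjoint_singleton_left.2 fun hx => hv hx.1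
  · exact Set.disjoint_singleton_left.2 fun hx => hv hx.1
  · rw [Set.disjoint_singleton]
    exact hve.ne
  · rw [Set.disjoint_singleton]
    rintro rfl
    exact hv (hLC hw)
  · rw [Set.disjoint_left]
    intro x hx hx'
    exact Set.disjoint_left.1 hd hx.2 hx'.2
  · exact Set.disjoint_singleton_right.2 fun hx => he hx.1
  · refine Set.disjoint_singleton_right.2 fun hx => hwP' ?_
    have := hx.2
    rwa [hhw] at this
  · exact Set.disjoint_singleton_right.2 fun hx => he hx.1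
  · refine Set.disjoint_singleton_right.2 fun hx => hwQ' ?_
    have := hx.2
    rwa [hhw] at this
  · rw [Set.disjoint_singleton]
    rintro rfl
    exact he (hLC hw)
  · exact touch P hPA
  · exact touch Q hQA
  · exact hPQt.mono (sub_fibs hg hLC hPL) (sub_fibs hg hLC hQL)
  · exact hwP.symm.mono (sub_fibs hg hLC hPL) subset_rfl
  · exact hwQ.symm.mono (sub_fibs hg hLC hQL) subset_rfl
  · exact ⟨v, rfl, e, rfl, hve⟩
  · rintro ⟨x, rfl, y, rfl, hxy⟩
    exact hvw hxy
  · rintro ⟨x, hx, y, rfl, hxy⟩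
    exact heC x hx.1 hxy.symm
  · rintro ⟨x, hx, y, rfl, hxy⟩
    exact heC x hx.1 hxy.symm
  · rintro ⟨x, rfl, y, rfl, hxy⟩
    exact heC _ (hLC hw) hxy

end rX4Aux

open rX4Aux in
theorem rX4 : S_X0 → S_X3 → S_X4 := by
  intro hX0 hX3 V _ G C L h v e a b hK hL hLC h3 hg hv he hve heC ha hb hab hta htb w hw
  by_contra hvw
  have third : ∃ c ∈ L, c ≠ a ∧ c ≠ b := by
    by_contra hno
    have h1 : L ⊆ {a, b} := by
      intro x hx
      by_contra hx'
      apply hno
      refine ⟨x, hx, ?_, ?_⟩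
      · rintro rfl
        exact hx' (Or.inl rfl)
      · rintro rfl
        exact hx' (Or.inr rfl)
    have h2 := Set.ncard_le_ncard h1 (Set.toFinite _)
    rw [Set.ncard_pair hab] at h2
    omega
  obtain ⟨c, hc, hca, hcb⟩ := third
  have use3 : ¬ G.Adj v c → False := fun hvc =>
    main hX0 hX3 G C L h v e hK hL hLC hg hv he hve heC c a b hc hvc ha hb hab hca.symm hcb.symm
      hta htb
  have hvc : G.Adj v c := by
    by_contra hvc
    exact use3 hvc
  have htc : ∃ z ∈ C, h z = c ∧ G.Adj v z := ⟨c, hLC hc, hg.2.1 c hc, hvc⟩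
  by_cases hwa : w = a
  · subst hwa
    exact main hX0 hX3 G C L h v e hK hL hLC hg hv he hve heC w b c hw hvw hb hc hcb.symm
      hab.symm hca htb htc
  · by_cases hwb : w = b
    · subst hwb
      exact main hX0 hX3 G C L h v e hK hL hLC hg hv he hve heC w a c hw hvw ha hc hca.symm
        hab hcb hta htc
    · exact main hX0 hX3 G C L h v e hK hL hLC hg hv he hve heC w a b hw hvw ha hb hab
        (Ne.symm hwa) (Ne.symm hwb) hta htb

end Pool.Agent.MPd439b2
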