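import Pool.Agent.Lib.MP_d439b2_co.R.Spec4

/-!
# MP_d439b2_co, X5: removing a non-universal vertex with a private neighbour leaves a forest
-/

set_option autoImplicit false

namespace Pool.Agent.MPd439b2

namespace rX5Aux

variable {V : Type} {G : SimpleGraph V}

/-- the fibre of `w` -/
def fib (C : Set V) (h : V → V) (w : V) : Set V := {z | z ∈ C ∧ h z = w}

/-- data of a marked vertex -/
structure MkD (G : SimpleGraph V) (X L C : Set V) (h : V → V) (x w : V) (Z : Set V) (p : V) :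
    Prop where
  sub : Z ⊆ fib C h w
  mem : w ∈ Z
  conn : Conn G Z
  pX : p ∈ X
  pZ : p ∉ Z
  px : p ≠ x
  adj : ∃ z ∈ Z, G.Adj z p
  nadj : ¬ G.Adj p x
  or : p ∈ fib C h w ∨ p ∉ L

/-- marked vertices -/
def Mk (G : SimpleGraph V) (X L C : Set V) (h : V → V) (x w : V) : Prop :=
  ∃ Z p, MkD G X L C h x w Z p

/-- the situation after step (2) -/
structure Ctx (G : SimpleGraph V) (X L C L' : Set V) (h : V → V) (x : V) : Prop where
  x0 : S_X0
  LX : L ⊆ X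
  hC : C = L \ {x}
  blkL : Blk G L
  one : One1 G X L
  xL : x ∈ L
  blk : Blk G L'
  sub : L' ⊆ C
  card : 3 ≤ L'.ncard
  fin : L'.Finite
  hg : Hg G C L' h
  adj : ∀ w ∈ L', G.Adj x w
  kite : ¬ IMS Kite G Set.univ

variable {X L C L' : Set V} {h : V → V} {x : V}

theorem Ctx.CL (c : Ctx G X L C L' h x) {z : V} (hz : z ∈ C) : z ∈ L := by
  rw [c.hC] at hz; exact hz.1

theorem Ctx.Cx (c : Ctx G X L C L' h x) {z : V} (hz : z ∈ C) : z ≠ x := by
  rw [c.hC] at hz; exact hz.2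

theorem Ctx.memC (c : Ctx G X L C L' h x) {z : V} (hz : z ∈ L) (hx : z ≠ x) : z ∈ C := by
  rw [c.hC]; exact ⟨hz, hx⟩

/-- an edge between two fibres joins the two vertices of `L'` -/
theorem Ctx.edge (c : Ctx G X L C L' h x) {z z' : V} (hz : z ∈ C) (hz' : z' ∈ C)
    (ha : G.Adj z z') (hne : h z ≠ h z') : z = h z ∧ z' = h z' := by
  obtain ⟨h1, h2⟩ := c.hg.2.2.2 z hz z' hz' ha hne
  exact ⟨(c.hg.2.1 z h1).symm, (c.hg.2.1 z' h2).symm⟩

/-- `p` is not adjacent to the other fibres -/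
theorem MkD.far (c : Ctx G X L C L' h x) {w p : V} {Z : Set V} (m : MkD G X L C h x w Z p)
    {z : V} (hz : z ∈ C) (hw : h z ≠ w) : ¬ G.Adj p z := by
  intro ha
  rcases m.or with hp | hp
  · have := (c.edge hp.1 hz ha (by rw [hp.2]; exact hw.symm)).1
    rw [hp.2] at this
    exact m.pZ (this ▸ m.mem)
  · obtain ⟨z1, hz1, ha1⟩ := m.adj
    have h2 := c.one p m.pX hp z1 (c.CL (m.sub hz1).1) z (c.CL hz) ha1.symm ha
    apply hw
    rw [← h2]
    exact (m.sub hz1).2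

/-- `p` is not in another fibre -/
theorem MkD.notin (c : Ctx G X L C L' h x) {w p : V} {Z : Set V} (m : MkD G X L C h x w Z p)
    {z : V} (hz : z ∈ C) (hw : h z ≠ w) : p ≠ z := by
  intro he
  rcases m.or with hp | hp
  · exact hw (he ▸ hp.2)
  · exact hp (he ▸ c.CL hz)

/-- elements of `Z` adjacent to another fibre -/
theorem MkD.near (c : Ctx G X L C L' h x) {w p : V} {Z : Set V} (m : MkD G X L C h x w Z p)
    {u z : V} (hu : u ∈ Z) (hz : z ∈ C) (hw : h z ≠ w) (ha : G.Adj u z) : u = w ∧ z = h z := by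
  have h1 := c.edge (m.sub hu).1 hz ha (by rw [(m.sub hu).2]; exact hw.symm)
  rw [(m.sub hu).2] at h1
  exact h1

/-- (3), first criterion -/
theorem Ctx.mk_of_out (c : Ctx G X L C L' h x) {w p : V} (hw : w ∈ L') (hp : p ∈ X) (hpL : p ∉ L)
    (ha : G.Adj p w) : Mk G X L C h x w := by
  have hwC := c.sub hw
  refine ⟨{w}, p, ?_, rfl, Conn.singleton G w, hp, ?_, ?_, ⟨w, rfl, ha.symm⟩, ?_, Or.inr hpL⟩
  · rintro z rfl
    exact ⟨hwC, c.hg.2.1 _ hw⟩
  · intro he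
    rw [Set.mem_singleton_iff] at he
    exact hpL (he ▸ c.CL hwC)
  · intro he
    exact hpL (he ▸ c.xL)
  · intro hax
    exact c.Cx hwC (c.one p hp hpL w (c.CL hwC) x c.xL ha hax)

/-- (3), second criterion -/
theorem Ctx.mk_of_fib (c : Ctx G X L C L' h x) {w q : V} (hw : w ∈ L') (hq : q ∈ fib C h w)
    (hna : ¬ G.Adj x q) : Mk G X L C h x w := by
  have hwC := c.sub hw
  have hwf : w ∈ fib C h w := ⟨hwC, c.hg.2.1 w hw⟩
  have hwN : w ∈ {z | z ∈ fib C h w ∧ G.Adj x z} := ⟨hwf, c.adj w hw⟩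
  obtain ⟨Z, hZ, hwZ, hcZ, hnb⟩ := exists_comp G hwN
  have hZf : Z ⊆ fib C h w := fun z hz => (hZ hz).1
  have hne : Z ≠ fib C h w := by
    intro he
    rw [← he] at hq
    exact hna (hZ hq).2
  obtain ⟨b, hb, p, hp, hbp⟩ := (c.hg.2.2.1 w hw).2 Z hZf ⟨w, hwZ⟩ hne
  have hpf : p ∈ fib C h w := hp.1
  have hpx : ¬ G.Adj x p := by
    intro hax
    exact hnb p ⟨hpf, hax⟩ ⟨hp.2, b, hb, hbp⟩
  exact ⟨Z, p, hZf, hwZ, hcZ, c.LX (c.CL hpf.1), hp.2, c.Cx hpf.1, ⟨b, hb, hbp⟩,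
    fun ha => hpx ha.symm, Or.inl hpf⟩

/-- `Z` touches `x` -/
theorem MkD.tx (c : Ctx G X L C L' h x) {w p : V} {Z : Set V} (m : MkD G X L C h x w Z p)
    (hw : w ∈ L') : Tch G Z {x} := ⟨w, m.mem, x, rfl, (c.adj w hw).symm⟩

theorem MkD.dx (c : Ctx G X L C L' h x) {w p : V} {Z : Set V} (m : MkD G X L C h x w Z p) :
    Disjoint Z {x} := by
  rw [Set.disjoint_singleton_right]
  intro hx
  exact c.Cx (m.sub hx).1 rfl

/-- (5) -/
theorem Ctx.mk_adj (c : Ctx G X L C L' h x) {w y : V} (hw : w ∈ L') (hm : Mk G X L C h x w)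
    (hy : y ∈ L') (hne : y ≠ w) : G.Adj w y := by
  by_contra hna
  obtain ⟨Z, p, m⟩ := hm
  -- a third vertex of `L'`
  obtain ⟨v, hv, hvw, hvy⟩ : ∃ v ∈ L', v ≠ w ∧ v ≠ y := by
    by_contra hcon
    push Not at hcon
    have h1 : L' ⊆ {w, y} := by
      intro v hv
      by_cases h2 : v = w
      · exact Or.inl h2
      · exact Or.inr (hcon v hv h2)
    have h3 : L'.ncard ≤ ({w, y} : Set V).ncard := Set.ncard_le_ncard h1 (by simp)
    have h4 : ({w, y} : Set V).ncard ≤ 2 := Set.ncard_insert_le _ _ |>.trans (by simp)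
    have := c.card
    omega
  have hvN : v ∈ (L' \ {w, y} : Set V) := ⟨hv, by
    rintro (h1 | h1)
    · exact hvw h1
    · exact hvy h1⟩
  obtain ⟨P, hP, hvP, hcP, hnb⟩ := exists_comp G hvN
  have hPL : ∀ u ∈ P, u ∈ L' := fun u hu => (hP hu).1
  have hPw : ∀ u ∈ P, u ≠ w := fun u hu he => (hP hu).2 (Or.inl he)
  have hPy : ∀ u ∈ P, u ≠ y := fun u hu he => (hP hu).2 (Or.inr he)
  -- `P` touches `y` and `w`
  have tPy : Tch G P {y} := by
    have hcon := c.blk.2 w hw ⟨v, hv, hvw⟩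
    obtain ⟨b, hb, a, ha, hba⟩ := hcon.2 P (fun u hu => ⟨hPL u hu, hPw u hu⟩) ⟨v, hvP⟩ (by
      intro he
      have : y ∈ L' \ {w} := ⟨hy, hne⟩
      rw [← he] at this
      exact hPy y this rfl)
    refine ⟨b, hb, a, ?_, hba⟩
    by_contra hay
    exact hnb a ⟨ha.1.1, by
      rintro (h1 | h1)
      · exact ha.1.2 h1
      · exact hay h1⟩ ⟨ha.2, b, hb, hba⟩
  have tPw : Tch G P {w} := by
    have hcon := c.blk.2 y hy ⟨v, hv, hvy⟩
    obtain ⟨b, hb, a, ha, hba⟩ := hcon.2 P (fun u hu => ⟨hPL u hu, hPy u hu⟩) ⟨v, hvP⟩ (by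
      intro he
      have : w ∈ L' \ {y} := ⟨hw, hne.symm⟩
      rw [← he] at this
      exact hPw w this rfl)
    refine ⟨b, hb, a, ?_, hba⟩
    by_contra hay
    exact hnb a ⟨ha.1.1, by
      rintro (h1 | h1)
      · exact hay h1
      · exact ha.1.2 h1⟩ ⟨ha.2, b, hb, hba⟩
  have hhP : ∀ u ∈ P, h u ≠ w := by
    intro u hu
    rw [c.hg.2.1 u (hPL u hu)]
    exact hPw u hu
  have hhy : h y ≠ w := by
    rw [c.hg.2.1 y hy]; exact hne
  apply c.kite
  refine c.x0 V G Z {x} P {p} {y} m.conn (Conn.singleton G x) hcP (Conn.singleton G p)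
    (Conn.singleton G y) (m.dx c) ?_ ?_ ?_ ?_ ?_ ?_ ?_ ?_ ?_ (m.tx c hw) ?_ ?_ ?_ tPy ?_ ?_ ?_ ?_ ?_
  · rw [Set.disjoint_left]
    intro u hu hu'
    exact hhP u hu' (m.sub hu).2
  · rw [Set.disjoint_singleton_right]; exact m.pZ
  · rw [Set.disjoint_singleton_right]
    intro hu
    exact hhy (m.sub hu).2
  · rw [Set.disjoint_singleton_left]
    intro hu
    exact c.Cx (c.sub (hPL x hu)) rfl
  · rw [Set.disjoint_singleton]; exact m.px.symm
  · rw [Set.disjoint_singleton]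
    intro he
    exact c.Cx (c.sub hy) he.symm
  · rw [Set.disjoint_singleton_right]
    intro hu
    exact m.notin c (c.sub (hPL p hu)) (hhP p hu) rfl
  · rw [Set.disjoint_singleton_right]
    intro hu
    exact hPy y hu rfl
  · rw [Set.disjoint_singleton]
    exact m.notin c (c.sub hy) hhy
  · obtain ⟨b, hb, a, ha, hba⟩ := tPw
    rw [Set.mem_singleton_iff] at ha
    subst ha
    exact ⟨a, m.mem, b, hb, hba.symm⟩
  · exact ⟨x, rfl, v, hvP, c.adj v hv⟩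
  · exact ⟨x, rfl, y, rfl, c.adj y hy⟩
  · obtain ⟨z, hz, hzp⟩ := m.adj
    exact ⟨z, hz, p, rfl, hzp⟩
  · rintro ⟨u, hu, y', hy', ha⟩
    rw [Set.mem_singleton_iff] at hy'
    subst hy'
    obtain ⟨h1, -⟩ := m.near c hu (c.sub hy) hhy ha
    subst h1
    exact hna ha
  · rintro ⟨x', hx', p', hp', ha⟩
    rw [Set.mem_singleton_iff] at hx' hp'
    subst hx'; subst hp'
    exact m.nadj ha.symm
  · rintro ⟨u, hu, p', hp', ha⟩
    rw [Set.mem_singleton_iff] at hp'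
    subst hp'
    exact m.far c (c.sub (hPL u hu)) (hhP u hu) ha.symm
  · rintro ⟨p', hp', y', hy', ha⟩
    rw [Set.mem_singleton_iff] at hp' hy'
    subst hp'; subst hy'
    exact m.far c (c.sub hy) hhy ha

/-- (6) and (8): the common kite -/
theorem Ctx.no_part (c : Ctx G X L C L' h x) {w w₂ : V} (hw : w ∈ L') (hw₂ : w₂ ∈ L')
    (hne : w ≠ w₂) (hm : Mk G X L C h x w₂) {K : Set V} (hK : K ⊆ fib C h w) (hwK : w ∉ K)
    (hcK : Conn G K) (tw : Tch G {w} K) (tx : Tch G {x} K) : False := by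
  have hadj : G.Adj w₂ w := c.mk_adj hw₂ hm hw hne
  obtain ⟨Z, p, m⟩ := hm
  have hhw : h w ≠ w₂ := by rw [c.hg.2.1 w hw]; exact hne
  have hhK : ∀ u ∈ K, h u ≠ w₂ := fun u hu => by rw [(hK hu).2]; exact hne
  apply c.kite
  refine c.x0 V G Z {w} {x} {p} K m.conn (Conn.singleton G w) (Conn.singleton G x)
    (Conn.singleton G p) hcK ?_ (m.dx c) ?_ ?_ ?_ ?_ ?_ ?_ ?_ ?_ ?_ (m.tx c hw₂) ?_ tw tx
    ?_ ?_ ?_ ?_ ?_
  · rw [Set.disjoint_singleton_right]
    intro hu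
    exact hhw (m.sub hu).2
  · rw [Set.disjoint_singleton_right]; exact m.pZ
  · rw [Set.disjoint_left]
    intro u hu hu'
    exact hhK u hu' (m.sub hu).2
  · rw [Set.disjoint_singleton]
    exact c.Cx (c.sub hw)
  · rw [Set.disjoint_singleton]
    exact (m.notin c (c.sub hw) hhw).symm
  · rw [Set.disjoint_singleton_left]; exact hwK
  · rw [Set.disjoint_singleton]; exact m.px.symm
  · rw [Set.disjoint_singleton_left]
    intro hu
    exact c.Cx (hK hu).1 rfl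
  · rw [Set.disjoint_singleton_left]
    intro hu
    exact m.notin c (hK hu).1 (hhK p hu) rfl
  · exact ⟨w₂, m.mem, w, rfl, hadj⟩
  · exact ⟨w, rfl, x, rfl, (c.adj w hw).symm⟩
  · obtain ⟨z, hz, hzp⟩ := m.adj
    exact ⟨z, hz, p, rfl, hzp⟩
  · rintro ⟨u, hu, k, hk, ha⟩
    obtain ⟨-, h1⟩ := m.near c hu (hK hk).1 (hhK k hk) ha
    rw [(hK hk).2] at h1
    exact hwK (h1 ▸ hk)
  · rintro ⟨w', hw', p', hp', ha⟩
    rw [Set.mem_singleton_iff] at hw' hp'
    subst hw'; subst hp'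
    exact m.far c (c.sub hw) hhw ha.symm
  · rintro ⟨x', hx', p', hp', ha⟩
    rw [Set.mem_singleton_iff] at hx' hp'
    subst hx'; subst hp'
    exact m.nadj ha.symm
  · rintro ⟨p', hp', k, hk, ha⟩
    rw [Set.mem_singleton_iff] at hp'
    subst hp'
    exact m.far c (hK hk).1 (hhK k hk) ha

/-- (6) -/
theorem Ctx.fib_unmarked (c : Ctx G X L C L' h x) {w w₁ : V} (hw : w ∈ L') (hw₁ : w₁ ∈ L')
    (hm : ¬ Mk G X L C h x w) (hm₁ : Mk G X L C h x w₁) {z : V} (hz : z ∈ fib C h w) : z = w := by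
  by_contra hzw
  have hwf : w ∈ fib C h w := ⟨c.sub hw, c.hg.2.1 w hw⟩
  obtain ⟨b, hb, y, hy, hby⟩ := (c.hg.2.2.1 w hw).2 {w} (by
      rintro u rfl
      exact hwf) ⟨w, rfl⟩ (by
      intro he
      have h1 : z ∈ ({w} : Set V) := by rw [he]; exact hz
      exact hzw h1)
  rw [Set.mem_singleton_iff] at hb
  subst hb
  have hyf : y ∈ fib C h b := hy.1
  have hxy : G.Adj x y := by
    by_contra hna
    exact hm (c.mk_of_fib hw hyf hna)
  have hne : b ≠ w₁ := by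
    intro he
    rw [he] at hm
    exact hm hm₁
  refine c.no_part hw hw₁ hne hm₁ (K := {y}) ?_ ?_ (Conn.singleton G y) ⟨b, rfl, y, rfl, hby⟩
    ⟨x, rfl, y, rfl, hxy⟩
  · rintro u rfl
    exact hyf
  · intro he
    exact hy.2 he.symm

/-- (8) -/
theorem Ctx.fib_marked (c : Ctx G X L C L' h x) {w w₂ : V} (hw : w ∈ L') (hw₂ : w₂ ∈ L')
    (hne : w ≠ w₂) (hm₂ : Mk G X L C h x w₂) {z : V} (hz : z ∈ fib C h w) : z = w := by
  by_contra hzw
  have hwf : w ∈ fib C h w := ⟨c.sub hw, c.hg.2.1 w hw⟩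
  have hzN : z ∈ fib C h w \ {w} := ⟨hz, hzw⟩
  obtain ⟨K, hK, hzK, hcK, hnb⟩ := exists_comp G hzN
  have hKf : K ⊆ fib C h w := fun u hu => (hK hu).1
  have hKw : ∀ u ∈ K, u ≠ w := fun u hu => (hK hu).2
  have hwK : w ∉ K := fun h1 => hKw w h1 rfl
  refine c.no_part hw hw₂ hne hm₂ hKf hwK hcK ?_ ?_
  · obtain ⟨b, hb, a, ha, hba⟩ := (c.hg.2.2.1 w hw).2 K hKf ⟨z, hzK⟩ (by
      intro he
      apply hwK
      rw [he]; exact hwf)
    have haf : a ∈ fib C h w := ha.1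
    have haw : a = w := by
      by_contra h1
      exact hnb a ⟨haf, h1⟩ ⟨ha.2, b, hb, hba⟩
    subst haw
    exact ⟨a, rfl, b, hb, hba.symm⟩
  · have hcon := c.blkL.2 w (c.CL (c.sub hw)) ⟨x, c.xL, (c.Cx (c.sub hw)).symm⟩
    obtain ⟨b, hb, a, ha, hba⟩ := hcon.2 K (fun u hu => ⟨c.CL (hKf hu).1, hKw u hu⟩) ⟨z, hzK⟩ (by
      intro he
      have : x ∈ L \ {w} := ⟨c.xL, (c.Cx (c.sub hw)).symm⟩
      rw [← he] at this
      exact c.Cx (hKf this).1 rfl)
    have hax : a = x := by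
      by_contra h1
      have haC : a ∈ C := c.memC ha.1.1 h1
      by_cases h2 : h a = w
      · exact hnb a ⟨⟨haC, h2⟩, ha.1.2⟩ ⟨ha.2, b, hb, hba⟩
      · have h3 := (c.edge (hKf hb).1 haC hba (by rw [(hKf hb).2]; exact fun h4 => h2 h4.symm)).1
        rw [(hKf hb).2] at h3
        exact hKw b hb h3
    subst hax
    exact ⟨a, rfl, b, hb, hba.symm⟩

/-- (7): the unmarked vertices form a module -/
theorem Ctx.mod_unmarked (c : Ctx G X L C L' h x) {w₁ : V} (hw₁ : w₁ ∈ L')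
    (hm₁ : Mk G X L C h x w₁) : Mod G X {w | w ∈ L' ∧ ¬ Mk G X L C h x w} := by
  refine ⟨fun w hw => c.LX (c.CL (c.sub hw.1)), ?_⟩
  intro u hu huM
  by_cases hux : u = x
  · left
    intro m hm
    rw [hux]
    exact c.adj m hm.1
  by_cases huL' : u ∈ L'
  · left
    intro m hm
    have hmu : Mk G X L C h x u := by
      by_contra h1
      exact huM ⟨huL', h1⟩
    refine c.mk_adj huL' hmu hm.1 ?_
    intro he
    exact hm.2 (he ▸ hmu)
  right
  intro m hm ha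
  by_cases huL : u ∈ L
  · have huC : u ∈ C := c.memC huL hux
    by_cases h1 : h u = m
    · exact huL' (by rw [c.fib_unmarked hm.1 hw₁ hm.2 hm₁ ⟨huC, h1⟩]; exact hm.1)
    · have h2 := (c.edge huC (c.sub hm.1) ha (by rw [c.hg.2.1 m hm.1]; exact h1)).1
      exact huL' (by rw [h2]; exact c.hg.1 u huC)
  · exact hm.2 (c.mk_of_out hm.1 hu huL ha)

/-- another marked vertex -/
theorem Ctx.other (c : Ctx G X L C L' h x) (hP : Prm G X) {w₁ : V} (hw₁ : w₁ ∈ L')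
    (hm₁ : Mk G X L C h x w₁) (w : V) : ∃ w₂ ∈ L', w ≠ w₂ ∧ Mk G X L C h x w₂ := by
  have hsub : ({w | w ∈ L' ∧ ¬ Mk G X L C h x w} : Set V).Subsingleton := by
    rcases hP _ (c.mod_unmarked hw₁ hm₁) with h1 | h1
    · exfalso
      have h2 : x ∈ {w | w ∈ L' ∧ ¬ Mk G X L C h x w} := by
        rw [h1]; exact c.LX c.xL
      exact c.Cx (c.sub h2.1) rfl
    · exact h1
  by_contra hcon
  push Not at hcon
  -- all other vertices are unmarked
  have h3 : L' ⊆ insert w {w | w ∈ L' ∧ ¬ Mk G X L C h x w} := by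
    intro v hv
    by_cases hvw : v = w
    · exact Or.inl hvw
    · exact Or.inr ⟨hv, hcon v hv (fun he => hvw he.symm)⟩
  have hfin : ({w | w ∈ L' ∧ ¬ Mk G X L C h x w} : Set V).Finite :=
    c.fin.subset fun v hv => hv.1
  have h4 := Set.ncard_le_ncard h3 (hfin.insert w)
  have h5 := Set.ncard_insert_le w {w | w ∈ L' ∧ ¬ Mk G X L C h x w}
  have h6 : ({w | w ∈ L' ∧ ¬ Mk G X L C h x w} : Set V).ncard ≤ 1 := by
    rw [Set.ncard_le_one hfin]
    intro a ha b hb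
    exact hsub ha hb
  have := c.card
  omega

/-- (9) -/
theorem Ctx.final (c : Ctx G X L C L' h x) (hP : Prm G X) {y : V} (hy : y ∈ C)
    (hna : ¬ G.Adj x y) : False := by
  have hw₁ : h y ∈ L' := c.hg.1 y hy
  have hm₁ : Mk G X L C h x (h y) := c.mk_of_fib hw₁ ⟨hy, rfl⟩ hna
  obtain ⟨w₂, hw₂, hne, hm₂⟩ := c.other hP hw₁ hm₁ (h y)
  have h1 := c.fib_marked hw₁ hw₂ hne hm₂ ⟨hy, rfl⟩
  apply hna
  rw [h1]
  exact c.adj _ hw₁

end rX5Aux

theorem rX5 : S_V6 → S_X0 → S_X2 → S_X4 → S_X6 → S_X5 := by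
  intro hV6 hX0 hX2 hX4 hX6 V _ G X L x y e hPrm hkite hLX hBlk hcard hone hx hy hxy hna heX heL
    hxe
  by_contra hcof
  set C : Set V := L \ {x} with hC
  have hyC : y ∈ C := ⟨hy, fun h => hxy h.symm⟩
  have hconC : Conn G C := hBlk.2 x hx ⟨y, hyC⟩
  -- a subset of minimum degree two
  unfold CoF at hcof
  push Not at hcof
  obtain ⟨Y₀, hY₀, hne₀, hdeg⟩ := hcof
  have hdeg' : ∀ z ∈ Y₀, 2 ≤ {w | w ∈ Y₀ ∧ G.Adj z w}.ncard := by
    intro z hz
    have h1 := hdeg z hz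
    have h2 : {w | w ∈ Y₀ ∧ w ≠ z ∧ ¬ Gᶜ.Adj z w} = {w | w ∈ Y₀ ∧ G.Adj z w} := by
      ext w
      simp only [Set.mem_ofPred_eq, SimpleGraph.compl_adj]
      constructor
      · rintro ⟨h3, h4, h5⟩
        refine ⟨h3, ?_⟩
        by_contra h6
        exact h5 ⟨fun h7 => h4 h7.symm, h6⟩
      · rintro ⟨h3, h4⟩
        exact ⟨h3, h4.ne', fun h5 => h5.2 h4⟩
    rw [h2] at h1
    exact h1
  obtain ⟨Y', hY', hring⟩ := (hV6 V G Y₀).2.1 hne₀ hdeg'
  obtain ⟨hblkY, hcardY⟩ := hX6.1 V G Y' hring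
  -- a maximal set without cut vertices
  have hfin : {M : Set V | Y' ⊆ M ∧ M ⊆ C ∧ Blk G M}.Finite := Set.toFinite _
  obtain ⟨L', hL'max⟩ := hfin.exists_maximal ⟨Y', subset_rfl, hY'.trans hY₀, hblkY⟩
  have hYL' : Y' ⊆ L' := hL'max.prop.1
  have hL'C : L' ⊆ C := hL'max.prop.2.1
  have hblk' : Blk G L' := hL'max.prop.2.2
  have hM : MBlk G C L' := by
    refine ⟨hblk', hL'C, ?_⟩
    intro M hLM hMC hMb
    exact Set.Subset.antisymm (hL'max.le_of_ge ⟨hYL'.trans hLM, hMC, hMb⟩ hLM) hLM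
  have hcard' : 3 ≤ L'.ncard := hcardY.trans (Set.ncard_le_ncard hYL' (Set.toFinite _))
  obtain ⟨h, hg⟩ := hX2 V G C L' hconC hM (by omega)
  have hxC : x ∉ C := fun h1 => h1.2 rfl
  -- (1)
  have hstep1 : ∃ a ∈ L', ∃ b ∈ L', a ≠ b ∧ (∃ z ∈ C, h z = a ∧ G.Adj x z) ∧
      ∃ z ∈ C, h z = b ∧ G.Adj x z := by
    by_contra hcon
    push Not at hcon
    have hneL' : L'.Nonempty := hblk'.1.1
    obtain ⟨y₀, hy₀, hall⟩ : ∃ y₀ ∈ L', ∀ z ∈ C, G.Adj x z → h z = y₀ := by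
      by_cases hz : ∃ z ∈ C, G.Adj x z
      · obtain ⟨z, hzC, hxz⟩ := hz
        refine ⟨h z, hg.1 z hzC, ?_⟩
        intro z' hz' hxz'
        by_contra hne
        exact hcon (h z) (hg.1 z hzC) (h z') (hg.1 z' hz') (fun he => hne he.symm)
          ⟨z, hzC, rfl, hxz⟩ z' hz' rfl hxz'
      · push Not at hz
        obtain ⟨y₀, hy₀⟩ := hneL'
        exact ⟨y₀, hy₀, fun z hzC hxz => absurd hxz (hz z hzC)⟩
    have hy₀C := hL'C hy₀
    obtain ⟨w, hw, hwy⟩ : ∃ w ∈ L', w ≠ y₀ := by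
      by_contra hcon2
      push Not at hcon2
      have h1 : L' ⊆ {y₀} := fun v hv => hcon2 v hv
      have h2 := Set.ncard_le_ncard h1 (Set.toFinite _)
      rw [Set.ncard_singleton] at h2
      omega
    have hconL := hBlk.2 y₀ hy₀C.1 ⟨x, hx, fun he => hxC (by
      rw [Set.mem_singleton_iff] at he
      rw [he]; exact hy₀C)⟩
    obtain ⟨b, hb, a, ha, hba⟩ := hconL.2 {z | z ∈ C ∧ h z ≠ y₀} (by
        intro z hz
        refine ⟨hz.1.1, ?_⟩
        intro he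
        rw [Set.mem_singleton_iff] at he
        apply hz.2
        rw [he]; exact hg.2.1 y₀ hy₀)
      ⟨w, hL'C hw, by rw [hg.2.1 w hw]; exact hwy⟩ (by
        intro he
        have h1 : x ∈ L \ {y₀} := ⟨hx, fun he2 => hxC (by
          rw [Set.mem_singleton_iff] at he2
          rw [he2]; exact hy₀C)⟩
        rw [← he] at h1
        exact hxC h1.1)
    by_cases hax : a = x
    · subst hax
      exact hb.2 (hall b hb.1 hba.symm)
    · have haC : a ∈ C := ⟨ha.1.1, hax⟩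
      have hha : h a = y₀ := by
        by_contra h1
        exact ha.2 ⟨haC, h1⟩
      obtain ⟨-, h2⟩ := hg.2.2.2 b hb.1 a haC hba (by rw [hha]; exact hb.2)
      have h3 := hg.2.1 a h2
      rw [hha] at h3
      exact ha.1.2 h3.symm
  obtain ⟨a, ha, b, hb, hab, hza, hzb⟩ := hstep1
  have heC : e ∉ C := fun h1 => heL h1.1
  have hez : ∀ z ∈ C, ¬ G.Adj e z := by
    intro z hz haz
    have := hone e heX heL x hx z hz.1 hxe.symm haz
    exact hz.2 this.symm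
  -- (2)
  have hadj : ∀ w ∈ L', G.Adj x w :=
    hX4 V G C L' h x e a b hkite hblk' hL'C hcard' hg hxC heC hxe hez ha hb hab hza hzb
  have c : rX5Aux.Ctx G X L C L' h x :=
    ⟨hX0, hLX, hC, hBlk, hone, hx, hblk', hL'C, hcard', Set.toFinite _, hg, hadj, hkite⟩
  exact c.final hPrm hyC hna

end Pool.Agent.MPd439b2
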