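import Pool.Agent.Lib.MP_d439b2_co.R.Spec4

/-!
# MP_d439b2_co, row `Kite`, X6: rings have no cut vertices, two edges between connected sets
-/

set_option autoImplicit false

namespace Pool.Agent.MPd439b2

namespace rX6Aux

variable {V : Type}

/-- a segment of the sequence -/
def sg (z : ℕ → V) (i j : ℕ) : Set V := {y | ∃ t, i ≤ t ∧ t < j ∧ y = z t}

theorem sg_conn {G : SimpleGraph V} {l : ℕ} {z : ℕ → V} (h : ∀ i, i + 1 < l → G.Adj (z i) (z (i + 1)))
    (i n : ℕ) (hn : i + n + 1 ≤ l) : Conn G (sg z i (i + n + 1)) := by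
  induction n with
  | zero =>
    have h1 : sg z i (i + 0 + 1) = {z i} := by
      ext y
      constructor
      · rintro ⟨t, h1, h2, rfl⟩
        have : t = i := by omega
        rw [this]
        rfl
      · intro hy
        exact ⟨i, le_rfl, by omega, hy⟩
    rw [h1]
    exact Conn.singleton G _
  | succ n ih =>
    have h1 : sg z i (i + (n + 1) + 1) = insert (z (i + n + 1)) (sg z i (i + n + 1)) := by
      ext y
      constructor
      · rintro ⟨t, h1, h2, rfl⟩
        by_cases ht : t = i + n + 1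
        · rw [ht]
          exact Set.mem_insert _ _
        · exact Set.mem_insert_of_mem _ ⟨t, h1, by omega, rfl⟩
      · rintro (hy | ⟨t, h1, h2, rfl⟩)
        · exact ⟨i + n + 1, by omega, by omega, hy⟩
        · exact ⟨t, h1, by omega, rfl⟩
    rw [h1]
    exact (ih (by omega)).insert ⟨z (i + n), ⟨i + n, by omega, by omega, rfl⟩, h (i + n) (by omega)⟩

theorem sg_conn' {G : SimpleGraph V} {l : ℕ} {z : ℕ → V} (h : ∀ i, i + 1 < l → G.Adj (z i) (z (i + 1)))
    (i j : ℕ) (hij : i < j) (hj : j ≤ l) : Conn G (sg z i j) := by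
  obtain ⟨n, rfl⟩ : ∃ n, j = i + n + 1 := ⟨j - i - 1, by omega⟩
  exact sg_conn h i n hj

/-- the vertices of one of two paths have two neighbours -/
theorem two {G : SimpleGraph V} {l l' : ℕ} {p q : ℕ → V} (hp : ∀ i ≤ l, ∀ j ≤ l, p i = p j → i = j)
    (hq : ∀ i ≤ l', ∀ j ≤ l', q i = q j → i = j) (hpa : ∀ i < l, G.Adj (p i) (p (i + 1)))
    (h0 : G.Adj (p 0) (q 0)) (h1 : G.Adj (p l) (q l')) (hd : ∀ i ≤ l, ∀ j ≤ l', p i ≠ q j)
    (hne : ¬ (l = 0 ∧ l' = 0)) {i : ℕ} (hi : i ≤ l) :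
    ∃ u v, u ≠ v ∧ G.Adj (p i) u ∧ G.Adj (p i) v ∧ ((∃ i ≤ l, u = p i) ∨ ∃ j ≤ l', u = q j) ∧
      ((∃ i ≤ l, v = p i) ∨ ∃ j ≤ l', v = q j) := by
  rcases Nat.eq_zero_or_pos i with h | h
  · subst h
    rcases Nat.eq_zero_or_pos l with hl | hl
    · subst hl
      refine ⟨q 0, q l', ?_, h0, h1, Or.inr ⟨0, by omega, rfl⟩, Or.inr ⟨l', le_rfl, rfl⟩⟩
      intro h
      have := hq 0 (by omega) l' le_rfl h
      omega
    · exact ⟨p 1, q 0, hd 1 (by omega) 0 (by omega), hpa 0 hl, h0, Or.inl ⟨1, by omega, rfl⟩,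
        Or.inr ⟨0, by omega, rfl⟩⟩
  · have h2 : G.Adj (p i) (p (i - 1)) := by
      have h3 := hpa (i - 1) (by omega)
      rw [Nat.sub_add_cancel h] at h3
      exact h3.symm
    rcases hi.eq_or_lt with hil | hil
    · subst hil
      exact ⟨p (i - 1), q l', hd _ (by omega) l' le_rfl, h2, h1, Or.inl ⟨i - 1, by omega, rfl⟩,
        Or.inr ⟨l', le_rfl, rfl⟩⟩
    · refine ⟨p (i - 1), p (i + 1), ?_, h2, hpa i hil, Or.inl ⟨i - 1, by omega, rfl⟩, Or.inl ⟨i + 1, hil, rfl⟩⟩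
      intro h
      have := hp (i - 1) (by omega) (i + 1) hil h
      omega

end rX6Aux

open rX6Aux in
theorem rX6 : S_V6 → S_Path → S_X6 := by
  intro hV6 hPath
  refine ⟨?_, ?_⟩
  · intro V _ G Y hY
    obtain ⟨l, z, ⟨hl, hinj, hadj, hlast⟩, hYz, -⟩ := (hV6 V G Y).1 hY
    have hYsg : Y = sg z 0 l := by
      rw [hYz]
      ext y
      exact ⟨fun ⟨i, hi, h⟩ => ⟨i, Nat.zero_le i, hi, h⟩, fun ⟨i, _, hi, h⟩ => ⟨i, hi, h⟩⟩
    refine ⟨⟨?_, ?_⟩, ?_⟩
    · rw [hYsg]
      exact sg_conn' hadj 0 l (by omega) le_rfl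
    · intro x hx _
      rw [hYsg] at hx
      obtain ⟨m, -, hm, rfl⟩ := hx
      have hrem : Y \ {z m} = sg z 0 m ∪ sg z (m + 1) l := by
        rw [hYsg]
        ext y
        constructor
        · rintro ⟨⟨t, -, ht, rfl⟩, h⟩
          have htm : t ≠ m := by
            rintro rfl
            exact h rfl
          rcases lt_or_gt_of_ne htm with h1 | h1
          · exact Or.inl ⟨t, Nat.zero_le t, h1, rfl⟩
          · exact Or.inr ⟨t, h1, ht, rfl⟩
        · rintro (⟨t, -, ht, rfl⟩ | ⟨t, h1, ht, rfl⟩)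
          · refine ⟨⟨t, Nat.zero_le t, by omega, rfl⟩, ?_⟩
            intro h
            have := hinj t (by omega) m hm h
            omega
          · refine ⟨⟨t, Nat.zero_le t, ht, rfl⟩, ?_⟩
            intro h
            have := hinj t ht m hm h
            omega
      rw [hrem]
      by_cases h0 : m = 0
      · have h1 : sg z 0 m = ∅ := by
          rw [Set.eq_empty_iff_forall_notMem]
          rintro y ⟨t, -, ht, -⟩
          omega
        rw [h1, Set.empty_union]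
        exact sg_conn' hadj _ l (by omega) le_rfl
      · by_cases h1 : m + 1 = l
        · have h2 : sg z (m + 1) l = ∅ := by
            rw [Set.eq_empty_iff_forall_notMem]
            rintro y ⟨t, h3, ht, -⟩
            omega
          rw [h2, Set.union_empty]
          exact sg_conn' hadj 0 m (by omega) (by omega)
        · refine (sg_conn' hadj 0 m (by omega) (by omega)).union (sg_conn' hadj (m + 1) l (by omega) le_rfl) (Or.inr ?_)
          exact ⟨z 0, ⟨0, le_rfl, by omega, rfl⟩, z (l - 1), ⟨l - 1, by omega, by omega, rfl⟩, hlast.symm⟩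
    · have h1 : Y = z '' ((Finset.range l : Finset ℕ) : Set ℕ) := by
        rw [hYz]
        ext y
        constructor
        · rintro ⟨i, hi, rfl⟩
          exact ⟨i, Finset.mem_coe.2 (Finset.mem_range.2 hi), rfl⟩
        · rintro ⟨i, hi, rfl⟩
          exact ⟨i, Finset.mem_range.1 (Finset.mem_coe.1 hi), rfl⟩
      rw [h1, Set.ncard_image_of_injOn, Set.ncard_coe_finset, Finset.card_range]
      · exact hl
      · intro i hi j hj hij
        exact hinj i (Finset.mem_range.1 (Finset.mem_coe.1 hi)) j (Finset.mem_range.1 (Finset.mem_coe.1 hj)) hij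
  · intro V _ G A B a a' b b' hA hB hAB ha ha' hb hb' hab hab' hcof
    by_contra hcon
    obtain ⟨l, p, hp0, hpl, hpA, hpi, hpadj, -, -⟩ := hPath V G A {a} {a'} hA ⟨a, ha, rfl⟩ ⟨a', ha', rfl⟩
    obtain ⟨l', q, hq0, hql, hqB, hqi, hqadj, -, -⟩ := hPath V G B {b} {b'} hB ⟨b, hb, rfl⟩ ⟨b', hb', rfl⟩
    have hp0' : p 0 = a := hp0
    have hpl' : p l = a' := hpl
    have hq0' : q 0 = b := hq0
    have hql' : q l' = b' := hql
    have hne : ¬ (l = 0 ∧ l' = 0) := by
      rintro ⟨rfl, rfl⟩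
      exact hcon ⟨hp0'.symm.trans hpl', hq0'.symm.trans hql'⟩
    have h0 : G.Adj (p 0) (q 0) := by rw [hp0', hq0']; exact hab
    have h1 : G.Adj (p l) (q l') := by rw [hpl', hql']; exact hab'
    have hd : ∀ i ≤ l, ∀ j ≤ l', p i ≠ q j := by
      intro i hi j hj h
      exact Set.disjoint_left.1 hAB (hpA i hi) (h ▸ hqB j hj)
    obtain ⟨Y, hY⟩ : ∃ Y : Set V, Y = {y | (∃ i ≤ l, y = p i) ∨ ∃ j ≤ l', y = q j} := ⟨_, rfl⟩
    have hYs : Y ⊆ A ∪ B := by
      rw [hY]
      rintro y (⟨i, hi, rfl⟩ | ⟨j, hj, rfl⟩)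
      · exact Or.inl (hpA i hi)
      · exact Or.inr (hqB j hj)
    have hYn : Y.Nonempty := by
      rw [hY]
      exact ⟨p 0, Or.inl ⟨0, Nat.zero_le l, rfl⟩⟩
    obtain ⟨y, hy, hcard⟩ := hcof Y hYs hYn
    have key : ∃ u v, u ≠ v ∧ G.Adj y u ∧ G.Adj y v ∧ u ∈ Y ∧ v ∈ Y := by
      rw [hY] at hy
      rcases hy with ⟨i, hi, rfl⟩ | ⟨j, hj, rfl⟩
      · obtain ⟨u, v, h2, h3, h4, h5, h6⟩ := two hpi hqi (fun i hi => (hpadj i (by omega) (i + 1) (by omega)).2
          (Or.inr rfl)) h0 h1 hd hne hi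
        rw [hY]
        exact ⟨u, v, h2, h3, h4, h5, h6⟩
      · obtain ⟨u, v, h2, h3, h4, h5, h6⟩ := two hqi hpi (fun i hi => (hqadj i (by omega) (i + 1) (by omega)).2
          (Or.inr rfl)) h0.symm h1.symm (fun i hi j hj h => hd j hj i hi h.symm) (fun h => hne ⟨h.2, h.1⟩) hj
        rw [hY]
        exact ⟨u, v, h2, h3, h4, h5.symm, h6.symm⟩
    obtain ⟨u, v, h2, h3, h4, h5, h6⟩ := key
    rw [Set.ncard_le_one (Set.toFinite _)] at hcard
    refine h2 (hcard u ⟨h5, h3.ne', ?_⟩ v ⟨h6, h4.ne', ?_⟩)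
    · intro h
      rw [SimpleGraph.compl_adj] at h
      exact h.2 h3
    · intro h
      rw [SimpleGraph.compl_adj] at h
      exact h.2 h4

end Pool.Agent.MPd439b2
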