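import Pool.Agent.Lib.MP_d439b2_co.R.Spec4

set_option autoImplicit false

namespace Pool.Agent.MPd439b2

namespace rX7Aux

/-- the criterion for complete sets -/
theorem partA {V : Type} (G : SimpleGraph V) (X L : Set V) (hP : Prm G X) (hLX : L ⊆ X)
    (hne : L ≠ X)
    (h : ∀ x ∈ L, (∃ e ∈ Rs G X L, G.Adj e x) → ∀ y ∈ L, y ≠ x → G.Adj x y) :
    CompleteOn G L := by
  have hM : Mod G X {w | w ∈ L ∧ ∀ e ∈ Rs G X L, ¬ G.Adj e w} := by
    refine ⟨fun w hw => hLX hw.1, ?_⟩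
    intro u hu huM
    by_cases huL : u ∈ L
    · left
      intro m hm
      have h1 : ∃ e ∈ Rs G X L, G.Adj e u := by
        by_contra hcon
        push Not at hcon
        exact huM ⟨huL, hcon⟩
      exact h u huL h1 m hm.1 fun h2 => huM (h2 ▸ hm)
    · by_cases hF : ∀ w ∈ L, G.Adj u w
      · exact Or.inl fun m hm => hF m hm.1
      · push Not at hF
        exact Or.inr fun m hm => hm.2 u ⟨hu, huL, hF⟩
  have hsub : {w | w ∈ L ∧ ∀ e ∈ Rs G X L, ¬ G.Adj e w}.Subsingleton := by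
    rcases hP _ hM with h1 | h1
    · exfalso
      apply hne
      apply Set.Subset.antisymm hLX
      intro x hx
      rw [← h1] at hx
      exact hx.1
    · exact h1
  intro a ha b hb hab
  by_cases h1 : ∃ e ∈ Rs G X L, G.Adj e a
  · exact h a ha h1 b hb (Ne.symm hab)
  by_cases h2 : ∃ e ∈ Rs G X L, G.Adj e b
  · exact (h b hb h2 a ha hab).symm
  push Not at h1 h2
  exact absurd (hsub ⟨ha, h1⟩ ⟨hb, h2⟩) hab

theorem exists_max {V : Type} [Finite V] (G : SimpleGraph V) (X Y : Set V) (hYX : Y ⊆ X)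
    (hY : Blk G Y) : ∃ L, Y ⊆ L ∧ MBlk G X L := by
  classical
  have hbdd : ∃ n, ∃ L, Y ⊆ L ∧ L ⊆ X ∧ Blk G L ∧ X.ncard - L.ncard = n :=
    ⟨_, Y, subset_rfl, hYX, hY, rfl⟩
  obtain ⟨L, h1, h2, h3, h4⟩ := Nat.find_spec hbdd
  refine ⟨L, h1, h3, h2, ?_⟩
  intro L' h5 h6 h7
  have h8 : Nat.find hbdd ≤ X.ncard - L'.ncard :=
    Nat.find_min' hbdd ⟨L', h1.trans h5, h6, h7, rfl⟩
  have h9 := Set.ncard_le_ncard h2 (Set.toFinite X)
  have h10 := Set.ncard_le_ncard h6 (Set.toFinite X)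
  have h11 : L'.ncard ≤ L.ncard := by omega
  exact (Set.eq_of_subset_of_ncard_le h5 h11 (Set.toFinite _)).symm

end rX7Aux

open rX7Aux in
theorem rX7 : S_X2 → S_X5 → S_X7 := by
  intro x2 x5
  refine ⟨fun V _ G X L hP hLX hne h => partA G X L hP hLX hne h, ?_⟩
  intro V _ G X Y hX hP hB hK hYX hY
  obtain ⟨L, hYL, hM⟩ := exists_max G X Y hYX hY
  have hM' := hM
  obtain ⟨hBL, hLX, -⟩ := hM'
  have hne : L ≠ X := fun h => hB (h ▸ hBL)
  by_cases h3 : 3 ≤ L.ncard
  · obtain ⟨h, hh1, hh2, -, hh4⟩ := x2 V G X L hX hM (by omega)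
    have one : One1 G X L := by
      intro u hu huL a ha b hb hua hub
      have key : ∀ c ∈ L, G.Adj u c → h u = c := by
        intro c hc huc
        by_contra hcon
        apply huL
        refine (hh4 u hu c (hLX hc) huc ?_).1
        rw [hh2 c hc]
        exact hcon
      rw [← key a ha hua, ← key b hb hub]
    by_cases hyp : ∃ x ∈ L, ∃ e ∈ X, e ∉ L ∧ G.Adj x e ∧ ∃ y ∈ L, x ≠ y ∧ ¬ G.Adj x y
    · obtain ⟨x, hx, e, he, heL, hxe, y, hy, hxy, hxy'⟩ := hyp
      right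
      refine ⟨x, ?_⟩
      have h4 := x5 V G X L x y e hP hK hLX hBL h3 one hx hy hxy hxy' he heL hxe
      intro Z hZ hZne
      exact h4 Z (hZ.trans fun z hz => ⟨hYL hz.1, hz.2⟩) hZne
    · left
      have h4 : CompleteOn G L := by
        apply partA G X L hP hLX hne
        rintro x hx ⟨e, he, hex⟩ y hy hyx
        by_contra hcon
        exact hyp ⟨x, hx, e, he.1, he.2.1, hex.symm, y, hy, Ne.symm hyx, hcon⟩
      exact fun u hu v hv huv => h4 u (hYL hu) v (hYL hv) huv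
  · left
    intro u hu v hv huv
    obtain ⟨b, hb, a, ha, hab⟩ := hY.1.2 {u} (Set.singleton_subset_iff.2 hu) ⟨u, rfl⟩ (by
      intro h
      rw [← h] at hv
      exact huv (Set.mem_singleton_iff.1 hv).symm)
    rw [Set.mem_singleton_iff] at hb
    subst hb
    have hau : a ≠ b := fun h => ha.2 (Set.mem_singleton_iff.2 h)
    have hav : a = v := by
      by_contra hne'
      apply h3
      have h5 : ({b, v, a} : Set V) ⊆ L := by
        rintro x (rfl | rfl | rfl)
        · exact hYL hu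
        · exact hYL hv
        · exact hYL ha.1
      have h6 : ({b, v, a} : Set V).ncard = 3 := by
        rw [Set.ncard_eq_three]
        exact ⟨b, v, a, huv, Ne.symm hau, Ne.symm hne', rfl⟩
      rw [← h6]
      exact Set.ncard_le_ncard h5 (Set.toFinite _)
    rw [← hav]
    exact hab

end Pool.Agent.MPd439b2
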