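import Pool.Agent.Lib.MP_d439b2_co.R.Spec4

set_option autoImplicit false

namespace Pool.Agent.MPd439b2

theorem rX8 (hX2 : S_X2) (hX4 : S_X4) : S_X8 := by
  classical
  intro V _ G X W L v hK hvX hcomp hL hL3
  obtain ⟨hWX, hWc, hWcl⟩ := hcomp
  obtain ⟨h, hh1, hh2, _, hh4⟩ := id (hX2 V G W L hWc hL (by omega))
  have hHg : Hg G W L h := by
    refine ⟨hh1, hh2, ?_, hh4⟩
    assumption
  obtain ⟨hblk, hLW, _⟩ := hL
  have hvW : v ∉ W := fun hv => (hWX hv).2 (Or.inl rfl)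
  have hvN : ∀ z ∈ W, ¬ G.Adj v z := fun z hz hvz => (hWX hz).2 (Or.inr hvz)
  have hLne : L.Nonempty := hblk.1.1
  -- (A)
  have hA : ∀ u ∈ X, u ∉ W → ∀ z ∈ W, G.Adj u z → G.Adj v u := by
    intro u hu huW z hz huz
    by_contra hvu
    have h1 : u ∈ X \ Nc G v := by
      refine ⟨hu, ?_⟩
      rintro (h2 | h2)
      · subst h2
        exact hvN z hz huz
      · exact hvu h2
    exact hWcl u h1 ⟨huW, z, hz, huz.symm⟩
  -- (1)
  have h1 : ∀ u ∈ W, u ∉ L → ∀ a ∈ L, G.Adj u a → h u = a := by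
    intro u hu huL a ha hua
    by_contra hne
    have h2 : h u ≠ h a := by rw [hh2 a ha]; exact hne
    exact huL (hh4 u hu a (hLW ha) hua h2).1
  -- (2)
  have h2 : ∀ u ∈ X, u ∉ W → ∀ z ∈ W, ∀ z' ∈ W, G.Adj u z → G.Adj u z' → h z ≠ h z' →
      ∀ w ∈ L, G.Adj u w := by
    intro u hu huW z hz z' hz' huz huz' hne
    exact hX4 V G W L h u v (h z) (h z') hK hblk hLW hL3 hHg huW hvW (hA u hu huW z hz huz).symm
      hvN (hh1 z hz) (hh1 z' hz') hne ⟨z, hz, rfl, huz⟩ ⟨z', hz', rfl, huz'⟩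
  refine ⟨fun x hx => (hWX (hLW hx)).1, hblk, hL3, hvX, fun hv => hvW (hLW hv),
    fun w hw => hvN w (hLW hw), ?_, ?_, ?_, ?_⟩
  · rintro u ⟨huX, huL, w, hw, huw⟩ a ha b hb hua hub
    by_cases huW : u ∈ W
    · rw [← h1 u huW huL a ha hua, h1 u huW huL b hb hub]
    · by_contra hab
      refine huw (h2 u huX huW a (hLW ha) b (hLW hb) hua hub ?_ w hw)
      rw [hh2 a ha, hh2 b hb]
      exact hab
  · rintro u ⟨huX, huL, hu⟩
    obtain ⟨a, ha⟩ := hLne
    by_cases huW : u ∈ W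
    · exfalso
      have h3 : 1 < L.ncard := by omega
      obtain ⟨b, hb, c, hc, hbc⟩ := (Set.one_lt_ncard (Set.toFinite L)).mp h3
      exact hbc ((h1 u huW huL b hb (hu b hb)).symm.trans (h1 u huW huL c hc (hu c hc)))
    · exact hA u huX huW a (hLW ha) (hu a ha)
  · rintro D ⟨hD1, hD2, hD3⟩ hvD a ha b hb haD hbD
    have hvR : v ∈ Rs G X L := by
      obtain ⟨w, hw⟩ := hLne
      exact ⟨hvX, fun hv => hvW (hLW hv), w, hw, hvN w (hLW hw)⟩
    have hDX : D ⊆ X \ Nc G v := by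
      intro d hd
      refine ⟨(hD1 hd).1, ?_⟩
      rintro (h3 | h3)
      · subst h3
        exact hvD hd
      · exact hD3 v hvR ⟨hvD, d, hd, h3.symm⟩
    have hDW : D ⊆ W := by
      have hc : Conn G (W ∪ D) := by
        apply hWc.union hD2
        right
        obtain ⟨_, d, hd, hda⟩ := haD
        exact ⟨a, hLW ha, d, hd, hda.symm⟩
      have e : W = W ∪ D := by
        apply hc.eq_of_nb Set.subset_union_left hWc.1
        intro x hx
        exact hWcl x (Set.union_subset hWX hDX hx)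
      rw [e]
      exact Set.subset_union_right
    have hDL : ∀ d ∈ D, d ∉ L := fun d hd => (hD1 hd).2.1
    have hsame : ∀ d ∈ D, ∀ d' ∈ D, h d' = h d := by
      intro d hd
      have e : {x | x ∈ D ∧ h x = h d} = D := by
        apply hD2.eq_of_nb (fun x hx => hx.1) (⟨d, hd, rfl⟩ : {x | x ∈ D ∧ h x = h d}.Nonempty)
        rintro x hx ⟨hx1, y, ⟨hy, hy'⟩, hyx⟩
        apply hx1
        refine ⟨hx, ?_⟩
        by_contra hne
        have h3 : h y ≠ h x := by rw [hy']; exact Ne.symm hne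
        exact hDL y hy (hh4 y (hDW hy) x (hDW hx) hyx h3).1
      intro d' hd'
      have h3 : d' ∈ {x | x ∈ D ∧ h x = h d} := by rw [e]; exact hd'
      exact h3.2
    obtain ⟨_, d, hd, hda⟩ := haD
    obtain ⟨_, d', hd', hdb⟩ := hbD
    rw [← h1 d (hDW hd) (hDL d hd) a ha hda, ← h1 d' (hDW hd') (hDL d' hd') b hb hdb]
    exact hsame d' hd' d hd
  · have key : ∀ a ∈ L, ∀ b ∈ L, ∀ e ∈ Rs G X L, ∀ e' ∈ Rs G X L, a ≠ b → G.Adj e a →
        G.Adj e' b → G.Adj e e' → G.Adj v e := by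
      rintro a ha b hb e ⟨heX, heL, _, _, _⟩ e' ⟨heX', heL', w, hw, hew⟩ hab hea heb hee
      by_cases heW : e ∈ W
      · exfalso
        have h3 := h1 e heW heL a ha hea
        by_cases heW' : e' ∈ W
        · have h4 := h1 e' heW' heL' b hb heb
          exact heL (hh4 e heW e' heW' hee (by rw [h3, h4]; exact hab)).1
        · exact hew (h2 e' heX' heW' e heW b (hLW hb) hee.symm heb
            (by rw [h3, hh2 b hb]; exact hab) w hw)
      · exact hA e heX heW a (hLW ha) hea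
    intro a ha b hb e he e' he' hab hea heb hee
    exact ⟨key a ha b hb e he e' he' hab hea heb hee,
      key b hb a ha e' he' e he (Ne.symm hab) heb hea hee.symm⟩

end Pool.Agent.MPd439b2
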