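import Pool.Agent.Lib.MP_d439b2_co.R.Final
import Pool.Agent.Lib.MP_d439b2_co.R.X0
import Pool.Agent.Lib.MP_d439b2_co.R.X1
import Pool.Agent.Lib.MP_d439b2_co.R.X2
import Pool.Agent.Lib.MP_d439b2_co.R.X3
import Pool.Agent.Lib.MP_d439b2_co.R.X4
import Pool.Agent.Lib.MP_d439b2_co.R.X5
import Pool.Agent.Lib.MP_d439b2_co.R.X6
import Pool.Agent.Lib.MP_d439b2_co.R.X7
import Pool.Agent.Lib.MP_d439b2_co.R.X8
import Pool.Agent.Lib.MP_d439b2_co.R.X9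
import Pool.Agent.Lib.MP_d439b2_co.R.X10
import Pool.Agent.Lib.MP_d439b2_co.R.X11
import Pool.Agent.Lib.MP_d439b2_co.R.X12
import Pool.Agent.Lib.MP_d439b2_co.R.X13
import Pool.Agent.Lib.MP_d439b2_co.R.X14
import Pool.Agent.Lib.MP_d439b2_co.R.X15
import Pool.Agent.Lib.MP_d439b2_co.R.X16
import Pool.Agent.Lib.MP_d439b2_co.R.X17
import Pool.Agent.Lib.MP_d439b2_co.R.X18

/-!
# MP_d439b2_co, row `Kite`
-/

set_option autoImplicit false

namespace Pool.Agent.MPd439b2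

namespace RFin

theorem x4 : S_X4 := rX4 rX0 rX3
theorem x6 : S_X6 := rX6 v6 path
theorem x5 : S_X5 := rX5 v6 rX0 rX2 x4 x6
theorem x7 : S_X7 := rX7 rX2 x5
theorem x8 : S_X8 := rX8 rX2 x4
theorem x9 : S_X9 := rX9 path rX0 x7
theorem x11 : S_X11 := rX11 rX0 (rX10 path rX0)
theorem x14 : S_X14 := rX14 x5 x7 x8 x9 x11 (rX12 path rX0 rX3) (rX13 v6 x5 x6)
theorem x16 : S_X16 := rX16 v6 v14 x6 x7 x14 (rX15 rY1 rY3 (rY9 rY1)) rY3

/-- row `Kite` -/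
theorem rowKite (W : Type) [Finite W] (H : SimpleGraph W) : BoundedCW Kite H ↔ InCoT H := by
  refine ⟨fun h => ?_, fun h => ?_⟩
  · rcases (nec _ _ _ _ h).2.2.1 with h' | h'
    · exact absurd h' rX18
    · exact h'
  · exact rX17 rK3 p10 rX1 x16 rY1 layCW W H h

end RFin

end Pool.Agent.MPd439b2
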