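import Pool.Agent.Lib.MP_d439b2_co.B.SpecR

/-!
# MP_d439b2_co, rows of small graphs: definitions

`D` is the complement of the graph we are interested in.  Everything is relative to a set `X` of
vertices; `restr D X` (in `B/SpecR.lean`) is the graph `D` with the vertices outside `X` isolated.
-/

set_option autoImplicit false

namespace Pool.Agent.MPd439b2

variable {V : Type}

/-- `Z` induces the complement of a forest: every nonempty subset contains an element which has at
most one non-neighbour in the subset -/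
def CoF (D : SimpleGraph V) (Z : Set V) : Prop :=
  ∀ Y ⊆ Z, Y.Nonempty → ∃ y ∈ Y, {w | w ∈ Y ∧ w ≠ y ∧ ¬ D.Adj y w}.ncard ≤ 1

/-- all neighbourhoods in `D[X]` are complements of forests -/
def LCF (D : SimpleGraph V) (X : Set V) : Prop := ∀ v ∈ X, CoF D {w | w ∈ X ∧ D.Adj v w}

/-- `C` is a maximal clique of `D[X]` -/
def MaxCl (D : SimpleGraph V) (X C : Set V) : Prop :=
  C ⊆ X ∧ CompleteOn D C ∧ ∀ u ∈ X, u ∉ C → ∃ c ∈ C, ¬ D.Adj u c

/-- the neighbours of `u` in `C` -/
def At (D : SimpleGraph V) (C : Set V) (u : V) : Set V := {c | c ∈ C ∧ D.Adj u c}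

/-- the non-neighbours of `u` in `C` (used for `u ∉ C`) -/
def Ms (D : SimpleGraph V) (C : Set V) (u : V) : Set V := {c | c ∈ C ∧ ¬ D.Adj u c}

/-- the sparse vertices of `X`: adjacent to at least one, but fewer than half of the vertices of `C` -/
def Sp (D : SimpleGraph V) (X C : Set V) : Set V :=
  {u | u ∈ X ∧ u ∉ C ∧ (At D C u).Nonempty ∧ 2 * (At D C u).ncard < C.ncard}

/-- the dense vertices of `X`: outside `C` and adjacent to at least half of the vertices of `C` -/
def Dn (D : SimpleGraph V) (X C : Set V) : Set V :=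
  {u | u ∈ X ∧ u ∉ C ∧ C.ncard ≤ 2 * (At D C u).ncard}

/-- the far vertices of `X`: outside `C` and without neighbours in `C` -/
def Fr (D : SimpleGraph V) (X C : Set V) : Set V := {w | w ∈ X ∧ w ∉ C ∧ At D C w = ∅}

/-- the far vertices of `X` which are adjacent to a dense vertex -/
def Wf (D : SimpleGraph V) (X C : Set V) : Set V := {w | w ∈ Fr D X C ∧ ∃ u ∈ Dn D X C, D.Adj u w}

/-- `C` is a free clique of `D[X]`: a clique, every vertex of which has at most one neighbour in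
`X \ C` -/
def FreeCl (D : SimpleGraph V) (X C : Set V) : Prop :=
  C ⊆ X ∧ CompleteOn D C ∧
    ∀ c ∈ C, ∀ a ∈ X \ C, ∀ b ∈ X \ C, D.Adj c a → D.Adj c b → a = b

/-- `X` is reduced to `Y` by at most `n` moves: a move removes a vertex or a free clique -/
inductive Mv (D : SimpleGraph V) : ℕ → Set V → Set V → Prop
  | nil (n : ℕ) (X : Set V) : Mv D n X X
  | vert {n : ℕ} {X Y : Set V} (v : V) : Mv D n (X \ {v}) Y → Mv D (n + 1) X Y
  | cliq {n : ℕ} {X Y : Set V} (C : Set V) : FreeCl D X C → Mv D n (X \ C) Y → Mv D (n + 1) X Y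

/-- `D[X]` has depth at most `n` over the sets with layouts of width at most `c` -/
inductive Dis (D : SimpleGraph V) (c : ℕ) : ℕ → Set V → Prop
  | base {n : ℕ} {X : Set V} : Lay (restr D X) c X → Dis D c n X
  | vert {n : ℕ} {X : Set V} (v : V) : Dis D c n (X \ {v}) → Dis D c (n + 1) X
  | cliq {n : ℕ} {X : Set V} (C : Set V) : FreeCl D X C → Dis D c n (X \ C) → Dis D c (n + 1) X
  | comps {n : ℕ} {X : Set V} : (∀ K, IsComp D X K → Dis D c n K) → Dis D c n X

/-- an induced path of `D` with the `l + 1` vertices `p 0, ..., p l` in `X` -/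
def IPath (D : SimpleGraph V) (X : Set V) (l : ℕ) (p : ℕ → V) : Prop :=
  (∀ i ≤ l, p i ∈ X) ∧ (∀ i ≤ l, ∀ j ≤ l, p i = p j → i = j) ∧
    ∀ i ≤ l, ∀ j ≤ l, (D.Adj (p i) (p j) ↔ i = j + 1 ∨ j = i + 1)

/-- the closed neighbourhood of `x` -/
def Nc (D : SimpleGraph V) (x : V) : Set V := {y | y = x ∨ D.Adj x y}

/-- the vertices of `X` at distance at most `r` from `x` in `D[X]` -/
def Ball (D : SimpleGraph V) (X : Set V) (x : V) : ℕ → Set V
  | 0 => {x}
  | r + 1 => {y | y ∈ Ball D X x r ∨ (y ∈ X ∧ ∃ z ∈ Ball D X x r, D.Adj z y)}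

/-- `D[X]` contains `r` disjoint nets (triangles with three pendant paths) with pendant paths of
length `k`, as an induced subgraph -/
def HasN (D : SimpleGraph V) (X : Set V) (r k : ℕ) : Prop :=
  ∃ f : ℕ × Fin 3 × ℕ → V, (∀ u, u.1 < r → u.2.2 ≤ k → f u ∈ X) ∧
    ∀ u v, u.1 < r → u.2.2 ≤ k → v.1 < r → v.2.2 ≤ k →
      (f u = f v → u = v) ∧ (D.Adj (f u) (f v) ↔ (nets ℕ).Adj u v)

/-- the base width -/
def c₀ : ℕ := 2 * 3 ^ 11

/-- the graph `K_3 + P_1` -/
def K3P : SimpleGraph (Fin 4) where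
  Adj i j := i ≠ j ∧ i.val < 3 ∧ j.val < 3
  symm := ⟨fun _ _ h => ⟨h.1.symm, h.2.2, h.2.1⟩⟩
  loopless := ⟨fun _ h => h.1 rfl⟩

/-- the graph `K_4` on `0, 1, 2, 3` with the vertex `4` adjacent to `0` -/
def K4P : SimpleGraph (Fin 5) where
  Adj i j := i ≠ j ∧ ((i.val < 4 ∧ j.val < 4) ∨ i.val = 0 ∨ j.val = 0)
  symm := ⟨fun _ _ h => ⟨h.1.symm, by tauto⟩⟩
  loopless := ⟨fun _ h => h.1 rfl⟩

end Pool.Agent.MPd439b2
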