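import Pool.Agent.Lib.MP_d439b2_co.R.Spec1

/-!
# MP_d439b2_co, R/C1: two vertices outside a clique with a common neighbour in it
-/

set_option autoImplicit false

namespace Pool.Agent.MPd439b2

theorem rC1 : (S_F1) → S_C1 := by
  intro hF1 V _ D X C v u u' hL hCX hC hv hu hu' huC hu'C huu' hvu hvu'
  rw [Set.ncard_le_one (Set.toFinite _)]
  intro w hw w' hw'
  by_contra hne
  obtain ⟨⟨hwC, nuw⟩, ⟨_, nu'w⟩⟩ := hw
  obtain ⟨⟨hw'C, nuw'⟩, ⟨_, nu'w'⟩⟩ := hw'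
  have hvw : v ≠ w := by
    rintro rfl
    exact nuw hvu.symm
  have hvw' : v ≠ w' := by
    rintro rfl
    exact nuw' hvu.symm
  have h := (hF1 V D _ (hL v (hCX hv))).2 u ⟨hu, hvu⟩ w ⟨hCX hwC, hC v hv w hwC hvw⟩
    u' ⟨hu', hvu'⟩ w' ⟨hCX hw'C, hC v hv w' hw'C hvw'⟩ (fun h => huC (h ▸ hwC)) huu'
    (fun h => huC (h ▸ hw'C)) (fun h => hu'C (h ▸ hwC)) hne (fun h => hu'C (h ▸ hw'C))
    nuw (fun h => nu'w h.symm) nu'w'
  exact nuw' h.symm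

end Pool.Agent.MPd439b2
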