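import Pool.Agent.Lib.MP_d439b2_co.R.Spec1

/-!
# MP_d439b2_co, row `K_3 + P_1`, module G1: no long induced paths from a vertex
-/

set_option autoImplicit false

namespace Pool.Agent.MPd439b2

theorem rG1Aux.lcf_subset {V : Type} {D : SimpleGraph V} {X X' : Set V} (h : LCF D X) (hX : X' ⊆ X) :
    LCF D X' := by
  intro v hv Y hY hne
  exact h v (hX hv) Y (fun w hw => ⟨hX (hY hw).1, (hY hw).2⟩) hne

theorem rG1 : (S_D2) → (S_Y7) → S_G1 := by
  intro hD2 hY7 V _ D l
  induction l with
  | zero =>
    intro X x _ _ hx hno
    exfalso
    apply hno
    refine ⟨fun _ => x, ⟨fun _ _ => hx, ?_, ?_⟩, rfl⟩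
    · intro i hi j hj _
      omega
    · intro i hi j hj
      constructor
      · intro h
        exact absurd h (D.loopless.irrefl x)
      · intro h
        omega
  | succ l ih =>
    intro X x hX hconn hx hno
    have key : Dis D c₀ (60 * l) (X \ Nc D x) := by
      apply Dis.comps
      intro K hK
      obtain ⟨hKsub, hKconn, hKnb⟩ := hK
      have hKX : K ⊆ X := fun v hv => (hKsub hv).1
      have hxK : x ∉ K := fun h => (hKsub h).2 (Or.inl rfl)
      have hKne : K ≠ X := fun h => hxK (h ▸ hx)
      obtain ⟨b, hb, y, hy, hby⟩ := hconn.2 K hKX hKconn.1 hKne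
      have hyN : y ∈ Nc D x := by
        by_contra hyN
        exact hKnb y ⟨hy.1, hyN⟩ ⟨hy.2, b, hb, hby⟩
      have hyx : y ≠ x := by
        rintro rfl
        exact (hKsub hb).2 (Or.inr hby.symm)
      have hxy : D.Adj x y := hyN.resolve_left hyx
      have hconn2 : Conn D (insert y K) := hKconn.insert ⟨b, hb, hby⟩
      have hsub2 : insert y K ⊆ X := Set.insert_subset hy.1 hKX
      have hK' : Dis D c₀ (60 * l) (insert y K) := by
        apply ih (insert y K) y (rG1Aux.lcf_subset hX hsub2) hconn2 (Set.mem_insert _ _)
        rintro ⟨q, ⟨hq1, hq2, hq3⟩, hq0⟩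
        apply hno
        have hqK : ∀ i, i ≤ l → i ≠ 0 → q i ∈ K := by
          intro i hi hi0
          rcases hq1 i hi with h | h
          · exact absurd (hq2 i hi 0 (Nat.zero_le _) (h.trans hq0.symm)) hi0
          · exact h
        have hqx : ∀ i, i ≤ l → q i ≠ x := by
          intro i hi h
          by_cases hi0 : i = 0
          · subst hi0
            exact hyx (hq0.symm.trans h)
          · exact hxK (h ▸ hqK i hi hi0)
        have hqa : ∀ i, i ≤ l → (D.Adj x (q i) ↔ i = 0) := by
          intro i hi
          constructor
          · intro h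
            by_contra hi0
            exact (hKsub (hqK i hi hi0)).2 (Or.inr h)
          · intro h
            subst h
            rw [hq0]
            exact hxy
        refine ⟨fun i => if i = 0 then x else q (i - 1), ⟨?_, ?_, ?_⟩, by simp⟩
        · intro i hi
          rcases Nat.eq_zero_or_pos i with h0 | h0
          · simp only [h0, if_true]
            exact hx
          · simp only [Nat.pos_iff_ne_zero.mp h0, if_false]
            exact hsub2 (hq1 (i - 1) (by omega))
        · intro i hi j hj hij
          rcases Nat.eq_zero_or_pos i with h0 | h0 <;> rcases Nat.eq_zero_or_pos j with h1 | h1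
          · omega
          · simp only [h0, if_true, Nat.pos_iff_ne_zero.mp h1, if_false] at hij
            exact absurd hij.symm (hqx (j - 1) (by omega))
          · simp only [h1, if_true, Nat.pos_iff_ne_zero.mp h0, if_false] at hij
            exact absurd hij (hqx (i - 1) (by omega))
          · simp only [Nat.pos_iff_ne_zero.mp h0, Nat.pos_iff_ne_zero.mp h1, if_false] at hij
            have := hq2 (i - 1) (by omega) (j - 1) (by omega) hij
            omega
        · intro i hi j hj
          rcases Nat.eq_zero_or_pos i with h0 | h0 <;> rcases Nat.eq_zero_or_pos j with h1 | h1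
          · simp only [h0, h1, if_true]
            constructor
            · intro h
              exact absurd h (D.loopless.irrefl x)
            · intro h
              omega
          · simp only [h0, if_true, Nat.pos_iff_ne_zero.mp h1, if_false]
            rw [hqa (j - 1) (by omega)]
            omega
          · simp only [h1, if_true, Nat.pos_iff_ne_zero.mp h0, if_false]
            rw [D.adj_comm, hqa (i - 1) (by omega)]
            omega
          · simp only [Nat.pos_iff_ne_zero.mp h0, Nat.pos_iff_ne_zero.mp h1, if_false]
            rw [hq3 (i - 1) (by omega) (j - 1) (by omega)]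
            omega
      exact hY7 V D c₀ c₀ (60 * l) (60 * l) (insert y K) K (Set.subset_insert _ _) le_rfl le_rfl
        hK'
    have h60 : 60 * (l + 1) = 60 * l + 60 := by ring
    rw [h60]
    exact hD2 V D X X x c₀ (60 * l) hX hx (Set.Subset.refl _) le_rfl key

end Pool.Agent.MPd439b2
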