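import Pool.Agent.Lib.MP_d439b2_co.R.Spec2

/-!
# MP_d439b2_co, row `K_3 + P_1`: the neighbours on an induced path of a vertex outside
-/

set_option autoImplicit false

namespace Pool.Agent.MPd439b2

theorem rP1 : S_F1 → S_P1 := by
  intro hF1 V _ D X L q y hL hq hy hyq hy0 hyL hex
  classical
  obtain ⟨hqX, hqi, hqa⟩ := hq
  -- the index set
  have hJ0 : ∀ j, j ≤ L → D.Adj y (q j) → 0 < j ∧ j < L := by
    intro j hj hyj
    refine ⟨?_, ?_⟩
    · rcases Nat.eq_zero_or_pos j with h | h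
      · subst h
        exact absurd hyj hy0
      · exact h
    · rcases Nat.lt_or_ge j L with h | h
      · exact h
      · have : j = L := le_antisymm hj h
        subst this
        exact absurd hyj hyL
  have hnad : ∀ i j, i ≤ L → j ≤ L → i + 2 ≤ j → ¬ D.Adj (q i) (q j) := by
    intro i j hi hj hij h
    rcases (hqa i hi j hj).1 h with h1 | h1 <;> omega
  have hne : ∀ i j, i ≤ L → j ≤ L → i ≠ j → q i ≠ q j := fun i j hi hj hij h => hij (hqi i hi j hj h)
  -- (a)
  have ha : ∀ j, j ≤ L → D.Adj y (q j) → D.Adj y (q (j - 1)) ∨ D.Adj y (q (j + 1)) := by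
    intro j hj hyj
    obtain ⟨h0, h1⟩ := hJ0 j hj hyj
    by_contra hcon
    push Not at hcon
    have hF := (hF1 V D _ (hL (q j) (hqX j hj))).1
    have h2 : D.Adj (q j) (q (j - 1)) := (hqa j hj (j - 1) (by omega)).2 (Or.inl (by omega))
    have h3 : D.Adj (q j) (q (j + 1)) := (hqa j hj (j + 1) (by omega)).2 (Or.inr rfl)
    have h4 := hF y ⟨hy, hyj.symm⟩ (q (j - 1)) ⟨hqX _ (by omega), h2⟩ (q (j + 1)) ⟨hqX _ (by omega), h3⟩
      (fun h => hyq (j - 1) (by omega) h.symm) (fun h => hyq (j + 1) (by omega) h.symm)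
      (hne _ _ (by omega) (by omega) (by omega)) hcon.1 hcon.2
    exact hnad (j - 1) (j + 1) (by omega) (by omega) (by omega) h4
  -- the minimal index
  have hex' : ∃ i, i ≤ L ∧ D.Adj y (q i) := hex
  set i := Nat.find hex' with hi
  have hi1 : i ≤ L ∧ D.Adj y (q i) := Nat.find_spec hex'
  have hmin : ∀ j, j ≤ L → D.Adj y (q j) → i ≤ j := fun j hj hyj => Nat.find_min' hex' ⟨hj, hyj⟩
  obtain ⟨hi0, hiL⟩ := hJ0 i hi1.1 hi1.2
  have hii : D.Adj y (q (i + 1)) := by
    rcases ha i hi1.1 hi1.2 with h | h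
    · exact absurd (hmin (i - 1) (by omega) h) (by omega)
    · exact h
  -- (b)
  have hb : ∀ j, j ≤ L → D.Adj y (q j) → j ≤ i + 3 := by
    intro j hj hyj
    by_contra hcon
    push Not at hcon
    obtain ⟨h0, h1⟩ := hJ0 j hj hyj
    obtain ⟨j', hj', hyj', hd⟩ : ∃ j', j' ≤ L ∧ D.Adj y (q j') ∧ (j' = j - 1 ∨ j' = j + 1) := by
      rcases ha j hj hyj with h | h
      · exact ⟨j - 1, by omega, h, Or.inl rfl⟩
      · exact ⟨j + 1, by omega, h, Or.inr rfl⟩
    have hF := (hF1 V D _ (hL y hy)).2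
    have h4 := hF (q i) ⟨hqX _ hi1.1, hi1.2⟩ (q j) ⟨hqX _ hj, hyj⟩ (q (i + 1)) ⟨hqX _ (by omega), hii⟩
      (q j') ⟨hqX _ hj', hyj'⟩ (hne _ _ hi1.1 hj (by omega)) (hne _ _ hi1.1 (by omega) (by omega))
      (hne _ _ hi1.1 hj' (by omega)) (hne _ _ hj (by omega) (by omega)) (hne _ _ hj hj' (by omega))
      (hne _ _ (by omega) hj' (by omega)) (hnad _ _ hi1.1 hj (by omega))
      (fun h => hnad (i + 1) j (by omega) hj (by omega) h.symm) (hnad (i + 1) j' (by omega) hj' (by omega))
    exact hnad i j' hi1.1 hj' (by omega) h4.symm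
  have hiL1 : i + 1 < L := (hJ0 (i + 1) (by omega) hii).2
  by_cases h2 : D.Adj y (q (i + 2))
  · have hiL2 : i + 2 < L := (hJ0 (i + 2) (by omega) h2).2
    by_cases h3 : D.Adj y (q (i + 3))
    · have hiL3 : i + 3 < L := (hJ0 (i + 3) (by omega) h3).2
      refine ⟨i, 3, hi0, by norm_num, le_refl _, hiL3, fun j hj => ⟨fun h => ⟨hmin j hj h, hb j hj h⟩, fun h => ?_⟩⟩
      obtain h' | h' | h' | h' : j = i ∨ j = i + 1 ∨ j = i + 2 ∨ j = i + 3 := by omega
      · rw [h']; exact hi1.2
      · rw [h']; exact hii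
      · rw [h']; exact h2
      · rw [h']; exact h3
    · refine ⟨i, 2, hi0, by norm_num, by norm_num, hiL2, fun j hj => ⟨fun h => ⟨hmin j hj h, ?_⟩, fun h => ?_⟩⟩
      · have h4 := hb j hj h
        rcases Nat.lt_or_ge j (i + 3) with h5 | h5
        · omega
        · have : j = i + 3 := by omega
          rw [this] at h
          exact absurd h h3
      · obtain h' | h' | h' : j = i ∨ j = i + 1 ∨ j = i + 2 := by omega
        · rw [h']; exact hi1.2
        · rw [h']; exact hii
        · rw [h']; exact h2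
  · refine ⟨i, 1, hi0, le_refl _, by norm_num, hiL1, fun j hj => ⟨fun h => ⟨hmin j hj h, ?_⟩, fun h => ?_⟩⟩
    · have h4 := hb j hj h
      by_contra h5
      push Not at h5
      obtain h6 | h6 : j = i + 2 ∨ j = i + 3 := by omega
      · rw [h6] at h
        exact h2 h
      · rw [h6] at h hj
        rcases ha (i + 3) hj h with h7 | h7
        · exact h2 h7
        · have h8 := (hJ0 (i + 3) hj h).2
          have h9 := hb (i + 3 + 1) (by omega) h7
          omega
    · obtain h' | h' : j = i ∨ j = i + 1 := by omega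
      · rw [h']; exact hi1.2
      · rw [h']; exact hii

end Pool.Agent.MPd439b2
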