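import Pool.Agent.Lib.MP_d439b2_co.R.Defs

/-!
# MP_d439b2_co, row `K_3 + P_1`, Spec 1: layouts, large cliques, dissolving a neighbourhood

Every `S_...` is a statement to be proved in its own file; the docstring contains the complete
proof.  Notation: `a ~ b` means `D.Adj a b`, `At u = At D C u`, `Ms u = Ms D C u`.
-/

set_option autoImplicit false

namespace Pool.Agent.MPd439b2

/-! ### layouts of `restr D X` -/

/-- **Y1.** Complement.

Proof. Let `G' = restr D X`, `G'' = restr Dᶜ X`.  Claim: `Lay G' k A` and `A ⊆ X` imply `Lay G'' (k + 1) A`.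
Induction on `Lay`; in all three cases only the number of types has to be bounded.  For `a ∈ A` the
`G''`-trace of `a` outside `A` is `(X \ A) \ T` where `T` is the `G'`-trace of `a` outside `A` (note `a ∉ X \ A`), and
`T` is empty or one of the at most `k` elements of `Types G' A`; so
`Types G'' A ⊆ (fun T => (X \ A) \ T) '' (insert ∅ (Types G' A))`, at most `k + 1` elements. -/
def S_Y1 : Prop := ∀ (V : Type) (D : SimpleGraph V) (k : ℕ) (X : Set V),
  Lay (restr D X) k X → Lay (restr Dᶜ X) (k + 1) X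

/-- **Y2.** Restriction.

Proof. Claim: for all `A` with `Lay (restr D X) k A`: `Lay (restr D X') k (A ∩ X')`.  Induction on `Lay`.
`∅`: `∅`.  `{v}`: `{v} ∩ X'` is `∅` or `{v}`.  `A ∪ B`: `(A ∩ X') ∪ (B ∩ X')`.  Number of types: for
`a ∈ A ∩ X'` the trace in `restr D X'` outside `A ∩ X'` is `T ∩ X'`, where `T` is the trace of `a` in
`restr D X` outside `A`; if it is nonempty then `T` is nonempty; so `Types (restr D X') (A ∩ X')` is
contained in the image of `Types (restr D X) A` under `(· ∩ X')`. -/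
def S_Y2 : Prop := ∀ (V : Type) (D : SimpleGraph V) (k : ℕ) (X X' : Set V), X' ⊆ X →
  Lay (restr D X) k X → Lay (restr D X') k X'

/-- **Y3.** Adding a vertex.

Proof. `X' = X \ {v}`, `v ∈ X` (otherwise `X' = X`, `Lay.mono`).  Claim: `Lay (restr D X') k A`, `A ⊆ X'` imply
`Lay (restr D X) (2 * k + 1) A`: the trace of `a ∈ A` in `restr D X` outside `A` is `T` or `insert v T`, where
`T` is the trace in `restr D X'`; `T` is empty or one of at most `k` sets; so the nonempty ones are in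
`Types (restr D X') A ∪ (insert v) '' (insert ∅ (Types (restr D X') A))`: at most `2 k + 1`.  Then
`X = insert v X'` by `Lay.insert`: `Types (restr D X) X = ∅`, as all neighbours are in `X`. -/
def S_Y3 : Prop := ∀ (V : Type) (D : SimpleGraph V) (k : ℕ) (X : Set V) (v : V),
  Lay (restr D (X \ {v})) k (X \ {v}) → Lay (restr D X) (2 * k + 1) X

/-- **Y4.** Adding a free clique.

Proof. For `A ⊆ X \ C` put `A⁺ = A ∪ {c ∈ C | ∃ a ∈ A, c ~ a}`.  Claim: `Lay (restr D (X \ C)) k A` (and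
`A ⊆ X \ C`) implies `Lay (restr D X) (k + 1) A⁺`.  Induction.  `∅⁺ = ∅`.
`{v}⁺ = {v} ∪ C_v`: `Lay.single`, then insert the elements of `C_v` (finite) one after the other with
`Lay.insert`: every set `{v} ∪ C'`, `C' ⊆ C_v`, has at most two types (the one of `v`; all `c ∈ C'` have the
trace `C \ C'`, as their only neighbour outside `C` is `v`).
`(A ∪ B)⁺ = A⁺ ∪ B⁺`, disjoint (`c ∈ C` in both would have two neighbours in `X \ C`).  Types: for
`a ∈ A ∪ B` the trace outside `(A ∪ B)⁺` is the trace in `restr D (X \ C)` outside `A ∪ B` (a neighbour in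
`C` of `a` is in `(A ∪ B)⁺`): at most `k`; for `c ∈ C ∩ (A ∪ B)⁺` it is `C \ (A ∪ B)⁺`: one more.
Finally `(X \ C)⁺` and then the other elements of `C` (finite) one after the other: the only possible type is
`C \ S`. -/
def S_Y4 : Prop := ∀ (V : Type) [Finite V] (D : SimpleGraph V) (k : ℕ) (X C : Set V), 1 ≤ k →
  FreeCl D X C → Lay (restr D (X \ C)) k (X \ C) → Lay (restr D X) (k + 1) X

/-- **Y5.** Components.

Proof. For a component `K` of `D[X]` and `A ⊆ K` the traces in `restr D K` and in `restr D X` outside `A` are the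
same (a neighbour in `X` of an element of `K` is in `K`), so `Lay (restr D X) k K` by induction on `Lay`.
`nb (restr D X) K = ∅`.  Different components are disjoint.  `S_LayU` (theorem `layU` in `B/LayU.lean`, which
you may import) with `E = ∅` and `𝒟 = {K | IsComp D X K}`, `⋃₀ 𝒟 = X` by `exists_comp`. -/
def S_Y5 : Prop := ∀ (V : Type) [Finite V] (D : SimpleGraph V) (k : ℕ) (X : Set V), 1 ≤ k →
  (∀ K, IsComp D X K → Lay (restr D K) k K) → Lay (restr D X) k X

/-- **Y6.** Sets of bounded depth have layouts.  (Uses `S_Y3`, `S_Y4`, `S_Y5`.)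

Proof. Induction on `Dis`: `base`: `Lay.mono` (`c ≤ 3 ^ n * c`); `vert`: `2 h + 1 ≤ 3 h` for `h = 3 ^ n * c ≥ 1`;
`cliq`: `h + 1 ≤ 3 h`; `comps`. -/
def S_Y6 : Prop := ∀ (V : Type) [Finite V] (D : SimpleGraph V) (c n : ℕ) (X : Set V), 1 ≤ c →
  Dis D c n X → Lay (restr D X) (3 ^ n * c) X

/-- **Y7.** Monotonicity of `Dis`.  (Uses `S_Y2`.)

Proof. Induction on `Dis D c n X`, for all `X' ⊆ X`, `n ≤ n'`, `c ≤ c'`.  `base`: `S_Y2`, `Lay.mono`.  `vert`:
`X' \ {v} ⊆ X \ {v}`.  `cliq`: `C ∩ X'` is free in `X'`.  `comps`: a component `K'` of `D[X']` is connected, so it is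
contained in a component `K` of `D[X]` (`exists_comp` for a vertex of `K'`; `K' ∩ K` is closed in `K'`,
`Conn.eq_of_nb`); use the induction hypothesis for `K` and `K' ⊆ K`. -/
def S_Y7 : Prop := ∀ (V : Type) (D : SimpleGraph V) (c c' n n' : ℕ) (X X' : Set V), X' ⊆ X →
  n ≤ n' → c ≤ c' → Dis D c n X → Dis D c' n' X'

/-- **Y8.** Reductions.  (Uses `S_Y7`.)

Proof. All by induction on `Mv`.  (a) `Y ⊆ X`.  (b) in `X'` remove the same vertices and the free cliques
`C ∩ X'`; the result is `X' ∩ Y`.  (c) clear (for `nil` use `S_Y7`).  (d) append; `Mv D n X Y` implies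
`Mv D n' X Y` for `n ≤ n'` (induction). -/
def S_Y8 : Prop := ∀ (V : Type) (D : SimpleGraph V) (n : ℕ) (X Y : Set V), Mv D n X Y →
  Y ⊆ X ∧ (∀ X' ⊆ X, Mv D n X' (X' ∩ Y)) ∧ (∀ c m, Dis D c m Y → Dis D c (m + n) X) ∧
    (∀ m Z, Mv D m Y Z → Mv D (n + m) X Z) ∧ ∀ n', n ≤ n' → Mv D n' X Y

/-- **Y9.** Layouts of complements of forests.  (Uses `S_Y1`.)

Proof. Let `G = Dᶜ`.  We show `Lay (restr G Z) 1 Z` by induction on `|Z|`; then `S_Y1` for `G` (`Gᶜ = D`).
`Z = ∅`: `Lay.empty`.  Otherwise there is `y ∈ Z` with at most one non-neighbour (in `D`) in `Z`, `CoF` holds for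
`Z' = Z \ {y}`, so `Lay (restr G Z') 1 Z'`.  If there is no non-neighbour then `y` is isolated in
`restr G Z`; claim: `Lay (restr G Z') 1 A` implies `Lay (restr G Z) 1 A` for `A ⊆ Z'` (the traces are the same),
then `Lay.insert` (there are no types of `Z`).  If `w` is the non-neighbour: for `A ⊆ Z'` put `A⁺ = A ∪ {y}` if
`w ∈ A`, `A⁺ = A` otherwise; claim: `Lay (restr G Z') 1 A` implies `Lay (restr G Z) 1 A⁺`.  Traces outside `A⁺`: for
`a ∈ A` the same as before (if `a = w` then `y ∈ A⁺`; other `a` are not `G`-adjacent to `y`); for `y ∈ A⁺`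
it is empty.  `{w}⁺ = {w} ∪ {y}`: `Lay.single`, `Lay.insert`.  `Z = Z'⁺`. -/
def S_Y9 : Prop := ∀ (V : Type) [Finite V] (D : SimpleGraph V) (Z : Set V), CoF D Z →
  Lay (restr D Z) 2 Z

/-! ### complements of forests -/

/-- **F1.** No triangle and no four-cycle in the complement.

Proof. In the first case `Y = {a, b, c}`, in the second case `Y = {a, b, c, d}`: every element of `Y` has at
least two non-neighbours (different from itself) in `Y`: contradiction to `CoF`. -/
def S_F1 : Prop := ∀ (V : Type) [Finite V] (D : SimpleGraph V) (Z : Set V), CoF D Z →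
  (∀ a ∈ Z, ∀ b ∈ Z, ∀ c ∈ Z, a ≠ b → a ≠ c → b ≠ c → ¬ D.Adj a b → ¬ D.Adj a c → D.Adj b c) ∧
  ∀ a ∈ Z, ∀ b ∈ Z, ∀ c ∈ Z, ∀ d ∈ Z, a ≠ b → a ≠ c → a ≠ d → b ≠ c → b ≠ d → c ≠ d →
    ¬ D.Adj a b → ¬ D.Adj b c → ¬ D.Adj c d → D.Adj d a

/-- **F2.** Two cliques, and the number of non-adjacent pairs.

Proof. Induction on `|Z|` with the element `y` of `CoF D Z` (which has at most one non-neighbour `w` in
`Z \ {y}`).  (a) `Z \ {y} = Q₁ ∪ Q₂` with cliques `Q₁, Q₂`; `y` can be added to the one which does not contain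
`w`.  (b) The ordered non-adjacent pairs of `Z` which are not pairs of `Z \ {y}` are at most the two pairs
`(y, w)`, `(w, y)`. -/
def S_F2 : Prop := ∀ (V : Type) [Finite V] (D : SimpleGraph V) (Z : Set V), CoF D Z →
  (∃ Q₁ Q₂ : Set V, Q₁ ∪ Q₂ = Z ∧ CompleteOn D Q₁ ∧ CompleteOn D Q₂) ∧
    {p : V × V | p.1 ∈ Z ∧ p.2 ∈ Z ∧ p.1 ≠ p.2 ∧ ¬ D.Adj p.1 p.2}.ncard ≤ 2 * Z.ncard

/-! ### the structure around a large clique -/

/-- **C1.** Two vertices outside a clique with a common neighbour in it.  (Uses `S_F1`.)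

Proof. Otherwise let `w, w'` be two different common non-neighbours in `C` of `u, u'`.  `u, w, u', w'` are four
different elements of the neighbourhood of `v` (`w, w' ≠ v` as `v ~ u`; `w ~ v` as `C` is a clique) with
`u`, `w` and `w`, `u'` and `u'`, `w'` non-adjacent, so `w' ~ u` by `S_F1`: contradiction. -/
def S_C1 : Prop := ∀ (V : Type) [Finite V] (D : SimpleGraph V) (X C : Set V) (v u u' : V),
  LCF D X → C ⊆ X → CompleteOn D C → v ∈ C → u ∈ X → u' ∈ X → u ∉ C → u' ∉ C → u ≠ u' →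
    D.Adj v u → D.Adj v u' → (Ms D C u ∩ Ms D C u').ncard ≤ 1

/-- **C2.** Sparse vertices.  (Uses `S_F1`, `S_C1`.)

Proof. (a) If `At s ∩ At s'` is nonempty then `|Ms s ∩ Ms s'| ≤ 1`, so `|At s ∪ At s'| ≥ |C| - 1` and
`|At s| + |At s'| ≥ |C|`: contradiction to `2 |At| < |C|`.
(b) Let `u` be dense (`Ms u` is nonempty by maximality).
(b1) If `At u ∩ At s ≠ ∅` (`s` sparse) then `|Ms u \ At s| ≤ 1` (`C1`), and if `m ∈ Ms u \ At s` then `u ~ s`
(otherwise `u, s, m` is a non-adjacent triple in the neighbourhood of `v ∈ At u ∩ At s`).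
(b2) If `u ~ s`, `u ~ s'` with sparse `s ≠ s'` then `|At u \ (At s ∪ At s')| ≤ 1` (otherwise a four-cycle
`s, w, s', w'` of non-adjacent pairs in the neighbourhood of `u`).
(b3) Suppose `At u ∩ At s ≠ ∅` for some sparse `s`.  There are four other sparse vertices `s'`; the sets
`At s'` are disjoint from `At s` and from each other, and `|Ms u \ At s| ≤ 1`, so at most one of them meets
`Ms u`; the others, at least three, `s₁, s₂, s₃`, satisfy `At s_i ⊆ At u`, `At s_i ≠ ∅`; by (b1)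
`|Ms u| = |Ms u \ At s_i| ≤ 1`, so it is `1` and `u ~ s_i`.  By (b2) `|At u \ (At s₁ ∪ At s₂)| ≤ 1`, but this
set contains an element of `At s₃` and an element of `At u ∩ At s`: contradiction.
So `At s ⊆ Ms u` for all sparse `s` and all dense `u`.
(b4) Let `u ≠ u'` be dense.  If `At u ∩ At u' ≠ ∅` then `|Ms u ∩ Ms u'| ≤ 1` (`C1`), but `Ms u ∩ Ms u'` contains the
five nonempty disjoint sets `At s`.  Otherwise `|At u| + |At u'| ≥ |C|` but both are in `C \ At s`: contradiction. -/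
def S_C2 : Prop := ∀ (V : Type) [Finite V] (D : SimpleGraph V) (X C : Set V), LCF D X →
  MaxCl D X C → (∀ s ∈ Sp D X C, ∀ s' ∈ Sp D X C, s ≠ s' → Disjoint (At D C s) (At D C s')) ∧
    (5 ≤ (Sp D X C).ncard → (Dn D X C).ncard ≤ 1)

/-- **C3.** Far vertices and dense vertices.  (Uses `S_F1`, `S_C1`.)

Proof. (a) `At u` has two different elements `a, a'` (`2 |At u| ≥ |C| ≥ 7`); `w, a, w', a'` is a four-cycle
of non-adjacent pairs in the neighbourhood of `u` (`w`, `w'` are far).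
(b) `u ≁ w'` and `u' ≁ w` by (a).  If `a ∈ At u ∩ Ms u'` then `w, a, u'` is a non-adjacent triple in the
neighbourhood of `u` (`w` far, `a ≁ u'`, `w ≁ u'`).  So `Ms u' ⊆ Ms u`, and by symmetry they are equal; so
`At u = At u'` is nonempty and `|Ms u| ≤ 1` by `C1`; it is nonempty by maximality of `C`.
(c) Otherwise `u, u', m` is a non-adjacent triple in the neighbourhood of any `v ∈ C \ {m}`.
(d) Suppose `u₁, ..., u₄` are pairwise different and non-adjacent.  No `v ∈ C` is adjacent to three of them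
(non-adjacent triple), so every `v ∈ C` is in at least two of the sets `Ms u_i`; `2 |Ms u_i| ≤ |C|`; counting gives
`2 |C| ≤ ∑ |Ms u_i| ≤ 2 |C|`.  `|Ms u_i ∩ Ms u_j| ≤ 1` for `i ≠ j`: if `At u_i ∩ At u_j ≠ ∅` by `C1`; otherwise
`At u_j ⊆ Ms u_i` and `2 |At u_j| ≥ |C| ≥ 2 |Ms u_i|`, so `At u_j = Ms u_i` and `Ms u_i ∩ Ms u_j = ∅`.  Every
`v ∈ C` is in one of the six sets `Ms u_i ∩ Ms u_j`: `|C| ≤ 6`, contradiction. -/
def S_C3 : Prop := ∀ (V : Type) [Finite V] (D : SimpleGraph V) (X C : Set V), LCF D X →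
  MaxCl D X C → 7 ≤ C.ncard →
    (∀ u ∈ Dn D X C, ∀ w ∈ Fr D X C, ∀ w' ∈ Fr D X C, D.Adj u w → D.Adj u w' → w = w') ∧
    (∀ u ∈ Dn D X C, ∀ u' ∈ Dn D X C, ∀ w ∈ Fr D X C, ∀ w' ∈ Fr D X C, w ≠ w' → D.Adj u w →
      D.Adj u' w' → D.Adj u u' → ∃ m ∈ C, Ms D C u = {m} ∧ Ms D C u' = {m}) ∧
    (∀ u ∈ Dn D X C, ∀ u' ∈ Dn D X C, ∀ m, u ≠ u' → Ms D C u = {m} → Ms D C u' = {m} →
      D.Adj u u') ∧
    ∀ u : Fin 4 → V, (∀ i, u i ∈ Dn D X C) → Function.Injective u →
      ∃ i j, i ≠ j ∧ D.Adj (u i) (u j)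

/-- **C4.** Few far vertices, or a better clique.  (Uses `S_C2`, `S_C3`.)

Proof. Choose for every `w ∈ Wf` some `u w ∈ Dn` with `u w ~ w`; `u` is injective on `Wf` (C3 (a)).  Suppose
`|Wf| ≥ 16`.  Take a maximal subset `I ⊆ Wf` such that the `u i`, `i ∈ I`, are pairwise non-adjacent; `|I| ≤ 3` by
C3 (d).  Every `w ∈ Wf` is in `I` or `u w ~ u i` for some `i ∈ I`; so for some `i` the set
`L = {w | w = i ∨ u w ~ u i}` has at least six elements.  By C3 (b) `Ms (u w) = {m}` for all `w ∈ L` (same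
`m ∈ C`), by C3 (c) the `u w`, `w ∈ L`, form a clique; they are adjacent to all elements of `C \ {m}`.
Let `C'` be a maximal clique of `D[X]` containing `(C \ {m}) ∪ u '' L` (`X` is finite);
`|C'| ≥ |C| - 1 + 6`.
(i) A vertex `v ∈ C' \ C` is adjacent to all of `C \ {m}`, so it is dense with respect to `C` and has at most
one neighbour in `Fr D X C`; so the sets `At D C' w`, `w ∈ L`, are pairwise disjoint (`w` has no neighbour in `C`);
each contains `u w`; `w ∉ C'`.  At most one `w ∈ L` has `2 |At D C' w| ≥ |C'|`: otherwise two disjoint subsets of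
`C' \ C` would have together at least `|C'|` elements, but `C' ∩ C ⊇ C \ {m} ≠ ∅`.  So at least five `w ∈ L` are
in `Sp D X C'`, and `|Dn D X C'| ≤ 1` by C2.
(ii) `(C ∪ Dn D X C) \ C' ⊆ {m} ∪ (Dn D X C \ C')`.  For `r ∈ Dn D X C \ C'`: `At D C' r ⊇ At D C r \ {m}` is nonempty, so
`r` is sparse or dense with respect to `C'`; at most one is dense; the sparse ones have disjoint sets
`At D C' r ⊇ At D C r \ {m}` with at least `|C| / 2 - 1` elements inside a set with `|C| - 1` elements `C \ {m}`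
(intersect with it), so there are at most two sparse ones (`|C| ≥ 7`).  If there are two sparse ones and a dense
one among the `r`, and also `m ∉ C'`, then `m` (adjacent to all of `C \ {m} ⊆ C'`) is dense or sparse with respect to
`C'`; it is not the dense one (`|Dn D X C'| ≤ 1`), and not sparse since `At D C' m` meets `At D C' r`.  So there
are at most three elements altogether. -/
def S_RC4 : Prop := ∀ (V : Type) [Finite V] (D : SimpleGraph V) (X C : Set V), LCF D X →
  MaxCl D X C → 7 ≤ C.ncard → (Wf D X C).ncard ≤ 15 ∨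
    ∃ C', MaxCl D X C' ∧ C.ncard ≤ C'.ncard ∧ (∃ m, C \ {m} ⊆ C') ∧ 5 ≤ (Sp D X C').ncard ∧
      ((C ∪ Dn D X C) \ C').ncard ≤ 3

/-- **C5.** A vertex of the dense region with few non-neighbours.  (Uses `S_F2`, `S_C1`.)

Proof. `R = C ∪ Dn`, `c = |C|`, `d = |Dn|`, `|R| = c + d`.
(i) Let `v ∈ C`.  `Y = (Dn ∩ N(v)) ∪ (C \ {v})` is contained in the neighbourhood of `v`; by F2 (b) it has at most
`2 |Y| ≤ 2 (c + d)` ordered non-adjacent pairs; the pairs `(u, m)`, `(m, u)` with `u ∈ Dn ∩ N(v)`, `m ∈ Ms u`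
(`m ≠ v`) are among them; so `∑ |Ms u| ≤ c + d`, the sum over `u ∈ Dn ∩ N(v)`.
(ii) Let `v ≠ v'` in `C`.  At most two elements of `Dn` are adjacent neither to `v` nor to `v'`: for two such
`u, u'`: `v, v' ∈ Ms u ∩ Ms u'`, so `At u ∩ At u' = ∅` by C1; three pairwise disjoint subsets of `C` with at
least `c / 2` elements are impossible.
(iii) `2 |Ms u| ≤ c`, so `∑_{u ∈ Dn} |Ms u| ≤ 2 (c + d) + c = 3 c + 2 d`.
(iv) For `v ∈ C` let `X_v = {u ∈ Dn | u ≁ v}`.  `∑_{v ∈ C} |X_v| = ∑_u |Ms u| ≤ 3 c + 2 d`; so fewer than `c / 2`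
elements `v ∈ C` satisfy `c |X_v| > 2 (3 c + 2 d)`, and there are `v ≠ v'` in `C` with
`c |X_v|, c |X_v'| ≤ 6 c + 4 d`.
(v) `Y = R \ ({v, v'} ∪ X_v ∪ X_v')`: `c |Y| ≥ c (c + d - 2) - 12 c - 8 d`, so `2 |Y| ≥ c + d` (as `c ≥ 28`:
`c² - 14 c ≥ c² / 2`, `c - 8 ≥ c / 2`).
(vi) For `y ∈ Y` a non-neighbour `z ∈ R`, `z ≠ y`, is in `R ∩ N(v)`, or in `R ∩ N(v')`, or in `X_v ∩ X_v'` (at most two
elements); (`z ≠ v, v'` since `y ~ v, v'`; an element of `C \ {v}` is in `N(v)`).  Summing over `y ∈ Y` and using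
F2 (b) for `R ∩ N(v)` and `R ∩ N(v')` (subsets of neighbourhoods) the total number is at most
`2 |R| + 2 |R| + 2 |Y| ≤ 10 |Y|`; `Y` is nonempty. -/
def S_C5 : Prop := ∀ (V : Type) [Finite V] (D : SimpleGraph V) (X C : Set V), LCF D X →
  MaxCl D X C → 28 ≤ C.ncard → ∃ y ∈ C ∪ Dn D X C,
    {z | z ∈ C ∪ Dn D X C ∧ z ≠ y ∧ ¬ D.Adj y z}.ncard ≤ 10

/-- **C6.** The dense region has a layout.  (Uses `S_C5`, `S_Y2`, `S_Y3`, `S_Y9`.)

Proof. `R = C ∪ Dn D X C`, `y` from C5.  `R ∩ N(y)` is contained in the neighbourhood of `y ∈ X`, so `CoF` holds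
for it and it has a layout of width `2` (Y9).  `R` is obtained from it by adding at most `11` vertices (`y` and the
non-neighbours); use Y3 eleven times (by induction on the number `n` of the vertices which are added:
`Lay (restr D (R \ F)) k (R \ F)`, `|F| ≤ n`, imply `Lay (restr D R) (3 ^ n * k) R` for `k ≥ 1`). -/
def S_C6 : Prop := ∀ (V : Type) [Finite V] (D : SimpleGraph V) (X C : Set V), LCF D X →
  MaxCl D X C → 28 ≤ C.ncard → Lay (restr D (C ∪ Dn D X C)) c₀ (C ∪ Dn D X C)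

/-- **D1.** Dissolving a closed neighbourhood.  (Uses `S_F2`, `S_C2`, `S_RC4`, `S_C6`, `S_Y8`.)

Proof. Let `N = {w ∈ X | x ~ w}`.
CASE 0: `|N| ≤ 56`.  Remove `x` and the elements of `N`: at most `57` moves, `R = ∅`.
CASE 1: `|N| ≥ 57`.  By F2 (a) `N` contains a clique with at least `28` elements; together with `x` it is contained
in a maximal clique `C` of `D[X]`, `x ∈ C`, `|C| ≥ 28`.  `N ⊆ C ∪ Dn ∪ Sp`.
CASE 1a: `|Sp D X C| ≥ 5`.  `|Dn| ≤ 1` (C2).  Remove `Dn`; in `X \ Dn` the clique `C` is free: a neighbour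
`a ∈ X \ (C ∪ Dn)` of `c ∈ C` is in `Sp`, and two different ones would have `c` in both sets `At` (C2 (a)).  Remove `C`,
and remove the neighbour of `x` in `Sp` (at most one).  `R = ∅`.
CASE 1b: `|Sp D X C| ≤ 4`, `|Wf D X C| ≤ 15`.  Remove `Sp ∪ Wf`: at most `19` moves, `Y = X \ (Sp ∪ Wf)`,
`R = C ∪ Dn ⊆ Y`, layout by C6.  No edges between `R` and `Y \ R`: let `z ∈ Y \ R`; `z` is not dense and not sparse,
so `At D C z = ∅`: `z` is far, it has no neighbour in `C`, and it has no neighbour in `Dn` since `z ∉ Wf`.  So `z`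
is also not adjacent to `x ∈ C`.
CASE 1c: `|Sp D X C| ≤ 4` and `C'` as in C4.  `|Dn D X C'| ≤ 1` (C2).  Remove `Dn D X C'` (one move), then the free
clique `C'` (as in 1a), then `(C ∪ Dn D X C) \ C'` (at most three), then `Sp D X C` (at most four).  `R = ∅`, and
`x` and `N ⊆ C ∪ Dn ∪ Sp` are removed.
BALLS: all the removed vertices and all elements of `R` are in `Ball D X x 3`: `C ⊆ Ball 1`, `Dn, Sp ⊆ Ball 2`,
`Wf ⊆ Ball 3`; in case 1c: `C'` contains `C \ {m}`, take `a ∈ C \ {m}`, `a ∈ Ball 1`, so `C' ⊆ Ball 2` and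
`Dn D X C' ⊆ Ball 3` (an element of it has a neighbour in `C'`).
(It is convenient to prove first: if `F ⊆ X` has at most `n` elements then `Mv D n X (X \ F)`.) -/
def S_D1 : Prop := ∀ (V : Type) [Finite V] (D : SimpleGraph V) (X : Set V) (x : V), LCF D X →
  x ∈ X → ∃ Y R : Set V, R ⊆ Y ∧ Y ⊆ X ∧ Mv D 60 X Y ∧ Lay (restr D R) c₀ R ∧
    (∀ a ∈ R, ∀ b ∈ Y \ R, ¬ D.Adj a b) ∧ (∀ b ∈ Y \ R, b ∉ Nc D x) ∧
    ∀ b ∈ X, b ∉ Y \ R → b ∈ Ball D X x 3

/-- **D2.** Dissolving closed neighbourhoods in subsets.  (Uses `S_D1`, `S_Y7`, `S_Y8`.)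

Proof. D1 for `x` in `Z` gives `Y, R`.  By Y8 (b) `Mv D 60 X (X ∩ Y)`.  By Y8 (c) it is enough that
`Dis D c n (X ∩ Y)`: by `comps` it is enough for a component `K` of `D[X ∩ Y]`.  There are no edges between
`R` and `Y \ R`, so `K ⊆ R` (then `base`, by Y7 for `Dis.base` of `R`; `c₀ ≤ c`) or
`K ⊆ (X ∩ Y) \ R ⊆ X \ Nc D x` (then Y7 for the hypothesis). -/
def S_D2 : Prop := ∀ (V : Type) [Finite V] (D : SimpleGraph V) (Z X : Set V) (x : V) (c n : ℕ),
  LCF D Z → x ∈ Z → X ⊆ Z → c₀ ≤ c → Dis D c n (X \ Nc D x) → Dis D c (n + 60) X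

/-- **G1.** No long induced paths from a vertex.  (Uses `S_D2`, `S_Y7`.)

Proof. Induction on `l`, for all `X, x`.  `l = 0`: `p i = x` is an induced path with one vertex in `X`: the
hypothesis is false.  `l + 1`: by D2 (with `Z = X`) it is enough that `Dis D c₀ (60 * l) (X \ Nc D x)`, so by `comps`
let `K` be a component of `D[X \ Nc D x]`.  `X` is connected, `K ≠ X`, so some `y ∈ X \ K` is adjacent to an element
of `K`; `y ∈ Nc D x` (component) and `y ≠ x` (elements of `K` are not adjacent to `x`), so `x ~ y`.  `K ∪ {y}` is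
connected (`Conn.insert`).  There is no induced path `q 0 = y, ..., q l` in `K ∪ {y}`: otherwise
`p 0 = x, p (i + 1) = q i` is an induced path with `l + 2` vertices in `X` (`q i ∈ K` for `i ≥ 1`, as `q` is
injective, is not adjacent and not equal to `x`).  By induction `Dis D c₀ (60 * l) (K ∪ {y})`, then Y7. -/
def S_G1 : Prop := ∀ (V : Type) [Finite V] (D : SimpleGraph V) (l : ℕ) (X : Set V) (x : V),
  LCF D X → Conn D X → x ∈ X → (¬ ∃ p : ℕ → V, IPath D X l p ∧ p 0 = x) →
    Dis D c₀ (60 * l) X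

/-- **G2.** The cut lemma.

Proof. Induction on `Mv` (`nil`: `A = P`, no types).  `vert v`: if `v ∉ X` then `X \ {v} = X` and there is nothing to
do.  Let `A` be the set for `X \ {v}`; take `insert v A`: for `a ∈ A` the trace in `restr D X` outside `insert v A` is the
trace in `restr D (X \ {v})` outside `A`; `v` gives one more type.  `cliq C`: let `A` be the set for `X \ C`; take
`A ∪ {c ∈ C | ∀ b ∈ X \ C, c ~ b → b ∈ A}`.  For `a ∈ A` the trace outside the new set: a neighbour `c ∈ C` of `a` has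
no other neighbour in `X \ C`, so `c` is in the new set; so it is the old trace.  For `c ∈ C` in the new set the
trace is `C` minus the new set: one more type. -/
def S_G2 : Prop := ∀ (V : Type) [Finite V] (D : SimpleGraph V) (n : ℕ) (X P P' : Set V),
  Disjoint P P' → (∀ a ∈ P, ∀ b ∈ P', ¬ D.Adj a b) → Mv D n X (P ∪ P') →
    ∃ A, P ⊆ A ∧ A ⊆ X ∧ Disjoint A P' ∧ (Types (restr D X) A).encard ≤ n

/-- **G3.** Layouts from a chain of sets with few types.

Proof. Let `k' = (k + 1) * (t + 1) * 2 ^ t`.  Claim 1: `Lay (restr D X) k' (U)` for `U = A (j + 1) \ A j` and for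
`U = A 0`.  Induction on the layout of `restr D U`, for `B ⊆ U`: for `b ∈ B` the trace in `restr D X` outside `B` is
the union of the trace in `U \ B` (at most `k + 1` possibilities), of the trace in `X \ A (j + 1)` (it is empty or
one of the at most `t` types of `A (j + 1)`) and of the trace in `A j` (for `w ∉ A j` the neighbours in `A j` of `w` are
the `a ∈ A j` whose trace outside `A j` contains `w`; so they are determined by the set of the types of `A j`
containing `w`: at most `2 ^ t` possibilities).  Claim 2: `Lay (restr D X) k' (A j)` by induction on `j`: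
`A (j + 1) = A j ∪ (A (j + 1) \ A j)`, `Lay.union`.  `A m = X`. -/
def S_G3 : Prop := ∀ (V : Type) [Finite V] (D : SimpleGraph V) (X : Set V) (A : ℕ → Set V)
  (m k t : ℕ), (∀ j < m, A j ⊆ A (j + 1)) → A m = X →
    (∀ j ≤ m, (Types (restr D X) (A j)).encard ≤ t) → Lay (restr D (A 0)) k (A 0) →
    (∀ j < m, Lay (restr D (A (j + 1) \ A j)) k (A (j + 1) \ A j)) →
    Lay (restr D X) ((k + 1) * (t + 1) * 2 ^ t) X

end Pool.Agent.MPd439b2
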