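import Pool.Agent.Lib.MP_d439b2_co.R.Spec1
import Pool.Agent.Lib.MP_d439b2_co.Spec1
import Pool.Agent.Lib.MP_d439b2_co.B.SpecK
import Pool.Agent.Lib.MP_d439b2_co.Defs3

/-!
# MP_d439b2_co, row `K_3 + P_1`, Spec 2: the longest induced path, nets, the linear structure, and the rows
`K_3 + P_1` and `K_4` with a pendant vertex

Every `S_...` is a statement to be proved in its own file; the docstring contains the complete
proof.  Notation: `a ~ b` means `D.Adj a b`.
-/

set_option autoImplicit false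

namespace Pool.Agent.MPd439b2

/-- `q` is an induced path with `L + 1` vertices in `X`, and there is none with `L + 2` vertices -/
def LongP {V : Type} (D : SimpleGraph V) (X : Set V) (L : ℕ) (q : ℕ → V) : Prop :=
  IPath D X L q ∧ ∀ p : ℕ → V, ¬ IPath D X (L + 1) p

/-- the vertices of `X` which are not on the path `q 0, ..., q L` and not adjacent to it -/
def Off {V : Type} (D : SimpleGraph V) (X : Set V) (L : ℕ) (q : ℕ → V) : Set V :=
  {v | v ∈ X ∧ ∀ i ≤ L, v ∉ Nc D (q i)}

/-- the vertices of `X` which are not in the closed neighbourhoods of the first and last `m + 1`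
vertices of the path `q 0, ..., q L` -/
def Mid {V : Type} (D : SimpleGraph V) (X : Set V) (L m : ℕ) (q : ℕ → V) : Set V :=
  {v | v ∈ X ∧ ∀ i ≤ L, (i ≤ m ∨ L ≤ i + m) → v ∉ Nc D (q i)}

/-- **P0.** Sub-paths and reversal.

Proof. (a) Immediate.  (b) Immediate.  (c) Reversal: `i ↦ p (l - i)`. -/
def S_P0 : Prop := ∀ (V : Type) (D : SimpleGraph V) (X : Set V) (l : ℕ) (p : ℕ → V),
  IPath D X l p → (∀ l' ≤ l, IPath D X l' p) ∧
    (∀ a l', a + l' ≤ l → IPath D X l' (fun i => p (a + i))) ∧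
    IPath D X l (fun i => p (l - i))

/-- **P1.** The neighbours on an induced path of a vertex outside.  (Uses `S_F1`.)

Proof. `J = {j ≤ L | y ~ q j}`, `0, L ∉ J`.  (a) If `j ∈ J` then `0 < j < L` and `j - 1 ∈ J` or `j + 1 ∈ J`: otherwise
`q (j - 1), q (j + 1), y` is a non-adjacent triple in the neighbourhood of `q j` (F1; `y` is not on the path).
(b) Let `i = min J`; so `i + 1 ∈ J`.  There is no `j ∈ J` with `j ≥ i + 4`: otherwise let `j' = j ± 1 ∈ J`,
`j, j' ≥ i + 3`; `q i, q j, q (i + 1), q j'` is a four-cycle of non-adjacent pairs in the neighbourhood of `y`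
(F1).  So `J ⊆ {i, .., i + 3}`; if `i + 3 ∈ J` then by (a) (and `i + 4 ∉ J`) `i + 2 ∈ J`.  So
`J = {i, .., i + r}` with `r ∈ {1, 2, 3}`; `i ≥ 1` and `i + r < L`. -/
def S_P1 : Prop := ∀ (V : Type) [Finite V] (D : SimpleGraph V) (X : Set V) (L : ℕ) (q : ℕ → V)
  (y : V), LCF D X → IPath D X L q → y ∈ X → (∀ i ≤ L, q i ≠ y) → ¬ D.Adj y (q 0) →
    ¬ D.Adj y (q L) → (∃ i ≤ L, D.Adj y (q i)) →
    ∃ i r, 1 ≤ i ∧ 1 ≤ r ∧ r ≤ 3 ∧ i + r < L ∧ ∀ j ≤ L, (D.Adj y (q j) ↔ i ≤ j ∧ j ≤ i + r)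

/-- **P2.** Attachments of the components of `Off`.  (Uses `S_F1`.)

Proof. `z ∈ K ⊆ Off D X L q`, `y ~ z`, `y ∈ X \ K`.  `y ∉ Off` (`K` is a component), so `y ∈ Nc D (q i)` for some
`i ≤ L`; `y` is not on the path since `z ∉ Nc D (q i)` is adjacent to `y`.  So `J = {j ≤ L | y ~ q j}` is
nonempty.  If `j, j' ∈ J` with `j + 2 ≤ j'` then `z, q j, q j'` is a non-adjacent triple in the neighbourhood of `y`
(F1): contradiction.  So `J = {j}` or `J = {j, j + 1}`.  If `J = {j}`, `0 < j < L`: the triple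
`q (j - 1), q (j + 1), y` in the neighbourhood of `q j`: contradiction.  If `J = {0}`: `y, q 0, ..., q L` is an
induced path with `L + 2` vertices; if `J = {L}` (and `L > 0`; for `L = 0` this is the same case):
`q 0, ..., q L, y`: contradiction to `LongP`. -/
def S_P2 : Prop := ∀ (V : Type) [Finite V] (D : SimpleGraph V) (X K : Set V) (L : ℕ) (q : ℕ → V)
  (y z : V), LCF D X → LongP D X L q → IsComp D (Off D X L q) K → y ∈ X → y ∉ K → z ∈ K →
    D.Adj y z → (∀ i ≤ L, q i ≠ y) ∧ ∃ i < L, ∀ j ≤ L, (D.Adj y (q j) ↔ j = i ∨ j = i + 1)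

/-- **P3.** The components of `Off` have bounded depth.  (Uses `S_G1`, `S_P0`, `S_P2`, `S_Y7`.)

Proof. `X` is connected and `K ≠ X` (`q 0 ∉ K`), so there are `z ∈ K`, `y ∈ X \ K` with `y ~ z`; P2 gives `i`.
`K ∪ {y}` is connected.  CLAIM: there is no induced path `p 0 = y, ..., p k` in `K ∪ {y}`; then G1 gives
`Dis D c₀ (60 * k) (K ∪ {y})` and Y7 gives the result.  Suppose there is; `p j ∈ K` for `1 ≤ j ≤ k` is not
adjacent to the path `q`, and different from it.
If `i ≥ k` and `i + 1 + k ≤ L`: the three paths `p 0, .., p k`; `q i, q (i - 1), .., q (i - k)`;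
`q (i + 1), .., q (i + 1 + k)` form a net: `HasN D X 1 k` (`f (0, 0, j) = p j`, `f (0, 1, j) = q (i - j)`,
`f (0, 2, j) = q (i + 1 + j)`; the only adjacencies between different paths are those between
`y, q i, q (i + 1)`).
If `i < k`: `p k, ..., p 1, y, q (i + 1), ..., q L` is an induced path with `k + 1 + (L - i) ≥ L + 2` vertices;
its first `L + 2` vertices contradict `LongP`.
If `i + 1 + k > L`: `q 0, ..., q i, y, p 1, ..., p k` has `i + 1 + k + 1 ≥ L + 2` vertices. -/
def S_P3 : Prop := ∀ (V : Type) [Finite V] (D : SimpleGraph V) (X K : Set V) (L k : ℕ)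
  (q : ℕ → V), LCF D X → Conn D X → LongP D X L q → ¬ HasN D X 1 k →
    IsComp D (Off D X L q) K → Dis D c₀ (60 * k) K

/-- **P4.** A net from a detour.

Proof. The third leg is `r j = p j` for `j ≤ m`, `r (m + 1 + s) = q (b + 1 + s)`; only `r 0, ..., r k` are used
(the last possible index of `q` is `b + k - m ≤ L`).  It is an induced path: `p m` is adjacent to `q b`,
`q (b + 1)` only; the `p j`, `0 < j < m`, are not adjacent to the path `q`; `p 0` is adjacent to `q a, q (a + 1)` only.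
The other legs are `q a, q (a - 1), ..., q (a - k)` and `q (a + 1), ..., q (a + 1 + k)`, `a + 1 + k < b`.
`f (0, 0, j) = r j`, `f (0, 1, j) = q (a - j)`, `f (0, 2, j) = q (a + 1 + j)`. -/
def S_P4 : Prop := ∀ (V : Type) (D : SimpleGraph V) (X : Set V) (L m k a b : ℕ) (q p : ℕ → V),
  IPath D X L q → IPath D X m p → 1 ≤ m → k ≤ a → a + 2 * k + 7 ≤ b → b + k + 1 ≤ L →
    (∀ j ≤ L, (D.Adj (p 0) (q j) ↔ j = a ∨ j = a + 1)) →
    (∀ j ≤ L, (D.Adj (p m) (q j) ↔ j = b ∨ j = b + 1)) →
    (∀ i, 0 < i → i < m → ∀ j ≤ L, ¬ D.Adj (p i) (q j)) → (∀ i ≤ m, ∀ j ≤ L, p i ≠ q j) →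
    HasN D X 1 k

/-- **P5.** Detours are short.  (Uses `S_F1`, `S_P2`, `S_P4`, `S_Path` of `B/SpecK.lean`.)

Proof. Suppose `i' ≥ i + 2 k + 7`.  CASE `y ~ y'`: `r = 1`: otherwise `q i, q (i + 2), y'` is a non-adjacent triple
in the neighbourhood of `y` (F1); in the same way `r' = 1` (`q i', q (i' + 2), y` in the neighbourhood of `y'`).
P4 with `m = 1`, `p 0 = y`, `p 1 = y'`, `a = i`, `b = i'`.
CASE `y ~ z`, `y' ~ z'` with `z, z' ∈ K` (`K` a component of `Off`, `y, y' ∉ K`), `y ≁ y'`: by P2 `r = r' = 1`.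
`C = K ∪ {y, y'}` is connected; `S_Path` for `C`, `{y}`, `{y'}` gives an induced path `p 0 = y, ..., p m = y'` in
`C`, whose inner vertices are in `K`, so not adjacent to the path `q`; `m ≥ 1` as `y ≠ y'`; P4. -/
def S_P5 : Prop := ∀ (V : Type) [Finite V] (D : SimpleGraph V) (X : Set V) (L k : ℕ) (q : ℕ → V)
  (y y' : V) (i i' r r' : ℕ), LCF D X → LongP D X L q → ¬ HasN D X 1 k → y ∈ X → y' ∈ X →
    (∀ j ≤ L, q j ≠ y) → (∀ j ≤ L, q j ≠ y') → 1 ≤ r → 1 ≤ r' → r ≤ 3 → r' ≤ 3 → k ≤ i →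
    i' + k + 4 ≤ L → (∀ j ≤ L, (D.Adj y (q j) ↔ i ≤ j ∧ j ≤ i + r)) →
    (∀ j ≤ L, (D.Adj y' (q j) ↔ i' ≤ j ∧ j ≤ i' + r')) →
    (D.Adj y y' ∨ ∃ K, IsComp D (Off D X L q) K ∧ (∃ z ∈ K, D.Adj y z) ∧ ∃ z ∈ K, D.Adj y' z) →
    i' ≤ i + 2 * k + 6

/-- **P6.** The linear structure.  (Uses `S_D2`, `S_P1`, `S_P2`, `S_P3`, `S_P5`, `S_Y7`.)

Proof. `m = 2 k + 10`, `X₁ = Mid D X L m q`, `Off ⊆ X₁`.  For `v ∈ X₁` define `idx v`:
(i) if `v = q j` (`j ≤ L`): `idx v = j`; note `m + 2 ≤ j` and `j + m + 2 ≤ L` (otherwise `v` is in the closed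
neighbourhood of one of the first or last `m + 1` vertices).
(ii) if `v` is not on the path but adjacent to some `q j`: P1 applies (`v` is not adjacent to `q 0`, `q L`), and
`idx v = i`, the smallest index; all neighbours have indices in `{i, .., i + r}`, `r ≤ 3`; `m < i`, `i + r + m < L`.
(iii) otherwise `v ∈ Off`, in a component `K`; `idx v` is the smallest `idx y`, `y ∈ X₁ \ K` adjacent to an
element of `K`, and `0` if there is no such `y`.  (`y` is as in (ii) by P2.)
(For `v ∉ X₁`: `idx v = 0`.)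
(a) `u ~ v` in `X₁`.  Both on the path: indices differ by one.  `u = q j`, `v` as in (ii): `idx v ≤ j ≤ idx v + 3`.
Both as in (ii): P5 (for both orders; `i ≥ m + 1 ≥ k`, `i' + k + 4 ≤ L`).  `u` as in (ii), `v ∈ K`: `idx v ≤ idx u`, and by P5
(second alternative, applied to `u` and the `y` with `idx y = idx v`) `idx u ≤ idx v + 2 k + 6`.  Both in `Off`:
same component, same index.  (A vertex on the path is not adjacent to a vertex of `Off`.)
(b) clear.  (c) see (i), (ii): `q j ∈ X₁` for `m + 2 ≤ j ≤ L - m - 2`: it is not in `Nc D (q i)` for `i ≤ m` or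
`i ≥ L - m`.
(d) Let `u ~ v`, `idx u < a ≤ idx v`.  `u = q (a - 1)`, `v = q a`: `j = a`.  `u = q j'`, `v` as in (ii): impossible
(`j' ≥ idx v ≥ a`, `j' = idx u < a`).  `u` as in (ii), `v = q j'`: `a ≤ j' ≤ idx u + 3 ≤ a + 2`: `j = j'`.  Both as
in (ii): `j = idx v ≤ idx u + 2 k + 6`, `v ~ q j`.  `u` as in (ii), `v ∈ Off`: impossible (`idx v ≤ idx u`).
`u ∈ Off`, `v` as in (ii): `j = idx v`.  Both in `Off`: impossible.
(e) `Z = {v ∈ X₁ | a ≤ idx v ≤ a + l}`.  By D2 (ambient set `X`) applied to `q j` for the `j ≤ L` with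
`a ≤ j ≤ a + l` (at most `l + 1` of them) it is enough to show `Dis D c₀ (60 * k)` for the set of the remaining
vertices of `Z`; those of type (i) and (ii) are gone (`v ∈ Nc D (q (idx v))`), so it is a subset of `Off`; use
`comps`, P3 and Y7 (a component of a subset of `Off` is contained in a component of `Off`). -/
def S_P6 : Prop := ∀ (V : Type) [Finite V] (D : SimpleGraph V) (X : Set V) (L k : ℕ) (q : ℕ → V),
  LCF D X → Conn D X → LongP D X L q → ¬ HasN D X 1 k → ∃ idx : V → ℕ,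
    (∀ u ∈ Mid D X L (2 * k + 10) q, ∀ v ∈ Mid D X L (2 * k + 10) q, D.Adj u v →
      idx v ≤ idx u + (2 * k + 6)) ∧
    (∀ v, idx v ≤ L) ∧
    (∀ j, 2 * k + 12 ≤ j → j + (2 * k + 12) ≤ L →
      q j ∈ Mid D X L (2 * k + 10) q ∧ idx (q j) = j) ∧
    (∀ a, ∀ u ∈ Mid D X L (2 * k + 10) q, ∀ v ∈ Mid D X L (2 * k + 10) q, D.Adj u v →
      idx u < a → a ≤ idx v →
      ∃ j, a ≤ j ∧ j ≤ a + (2 * k + 6) ∧ (u ∈ Nc D (q j) ∨ v ∈ Nc D (q j))) ∧
    ∀ a l, Dis D c₀ (60 * (k + l + 1)) {v | v ∈ Mid D X L (2 * k + 10) q ∧ a ≤ idx v ∧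
      idx v ≤ a + l}

/-- **P7.** One cut.  (Uses `S_D1`, `S_G2`, `S_Y8`.)

Proof. For every `j` with `a ≤ j ≤ a + b` apply D1 to `x = q j ∈ X` (in `X`): sets `Y_j, R_j`.  By Y8 (b), (d), (e)
`Mv D (60 * (b + 1)) X Y` for `Y = ⋂_j Y_j` (induction on the number of the `j`: `Mv D _ X Y'` and
`Mv D 60 Y' (Y' ∩ Y_j)`).  Put `P' = {v ∈ Y | a ≤ idx v, v ∉ R_j for all j}` and `P = Y \ P'`.  There are no edges
between `P` and `P'`: let `u ∈ P`, `v ∈ P'`, `u ~ v`.  If `u ∈ R_j` for some `j`: `v ∈ Y_j \ R_j`, contradiction to D1.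
Otherwise `idx u < a ≤ idx v`; by the crossing hypothesis `u` or `v` is in some `Nc D (q j)`, `a ≤ j ≤ a + b`, but
both are in `Y_j \ R_j`: contradiction to D1.  G2 gives `A` with `P ⊆ A ⊆ X`, `A ∩ P' = ∅` and at most
`60 * (b + 1)` types.  For `v ∈ Ball D X (q j) 3` we have `j ≤ idx v + 3 b` and `idx v ≤ j + 3 b` (`idx (q j) = j`,
every edge changes `idx` by at most `b`).  If `idx v + 3 b < a` then `v ∉ Ball D X (q j) 3` for all these `j`, so
`v ∈ Y_j \ R_j` for all `j` (D1), `v ∈ Y`, `v ∉ P'`, `v ∈ P ⊆ A`.  If `a + 4 b < idx v` then in the same way `v ∈ Y` and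
`v ∈ P'`, so `v ∉ A`. -/
def S_P7 : Prop := ∀ (V : Type) [Finite V] (D : SimpleGraph V) (X : Set V) (a b : ℕ)
  (q : ℕ → V) (idx : V → ℕ), LCF D X →
    (∀ j, a ≤ j → j ≤ a + b → q j ∈ X ∧ idx (q j) = j) →
    (∀ u ∈ X, ∀ v ∈ X, D.Adj u v → idx v ≤ idx u + b) →
    (∀ u ∈ X, ∀ v ∈ X, D.Adj u v → idx u < a → a ≤ idx v →
      ∃ j, a ≤ j ∧ j ≤ a + b ∧ (u ∈ Nc D (q j) ∨ v ∈ Nc D (q j))) →
    ∃ A ⊆ X, (Types (restr D X) A).encard ≤ (60 * (b + 1) : ℕ) ∧
      (∀ v ∈ X, idx v + 3 * b < a → v ∈ A) ∧ ∀ v ∈ A, idx v ≤ a + 4 * b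

/-- **P8.** The middle part has layouts of bounded width.  (Uses `S_G3`, `S_P6`, `S_P7`, `S_Y2`, `S_Y6`,
`S_Y7`.)

Proof. `b = 2 k + 6`, `lo = 2 k + 12`, `X₁ = Mid D X L (2 k + 10) q` (`LCF D X₁` follows from `LCF D X`: subsets).
Let `σ = 7 b + 1` and `a_j = lo + j σ`.  The windows are the `j` with `a_j + b + lo ≤ L`; if there is none then
`L < 2 lo + b` and `X₁ = {v ∈ X₁ | 0 ≤ idx v ≤ 0 + (2 lo + b)}` has bounded depth by P6 (e), and Y6.
Otherwise let `j = 0, ..., M - 1` be the windows, `A_j` the set of P7 for `a = a_j` (its hypotheses: P6), and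
`A_M = X₁` (no types).  `A_j ⊆ A_(j+1)`: an element of `A_j` has `idx ≤ a_j + 4 b < a_(j+1) - 3 b`.
`A_0 ⊆ {0 ≤ idx ≤ lo + 4 b}`; `A_(j+1) \ A_j ⊆ {a_j - 3 b ≤ idx ≤ a_(j+1) + 4 b}` for `j + 1 < M`;
`A_M \ A_(M-1) ⊆ {a_(M-1) - 3 b ≤ idx ≤ L}` and `L < a_M + b + lo = a_(M-1) + σ + b + lo`.  All these sets are inside
sets `{a ≤ idx ≤ a + l}` with `l ≤ 20 b + 2 lo + 2` or so, so they have layouts (as `restr D U`) of bounded width by
P6 (e), Y7, Y6.  G3 (with `m = M`, `t = 60 * (b + 1)`). -/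
def S_P8 : Prop := ∀ k : ℕ, ∃ K : ℕ, ∀ (V : Type) [Finite V] (D : SimpleGraph V) (X : Set V)
  (L : ℕ) (q : ℕ → V), LCF D X → Conn D X → LongP D X L q → ¬ HasN D X 1 k →
    Lay (restr D (Mid D X L (2 * k + 10) q)) K (Mid D X L (2 * k + 10) q)

/-- **P9.** Connected sets without nets.  (Uses `S_D2`, `S_P0`, `S_P8`, `S_Y6`.)

Proof. `X` is nonempty and finite, so there are `L, q` with `LongP D X L q` (`L = 0` exists; `L < |X|`).
P8 gives a layout of `Mid` of width `K`; `Dis D (max c₀ K) 0 Mid` (`base`, `Lay.mono`).  Apply D2 for the (at most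
`4 k + 22`) vertices `q i`, `i ≤ L`, `i ≤ 2 k + 10` or `L ≤ i + 2 k + 10` (all in `X`): removing their closed
neighbourhoods from `X` one after the other gives `Mid`.  So `Dis D (max c₀ K) (60 * (4 k + 22)) X`; Y6. -/
def S_P9 : Prop := ∀ k : ℕ, ∃ K : ℕ, ∀ (V : Type) [Finite V] (D : SimpleGraph V) (X : Set V),
  LCF D X → Conn D X → ¬ HasN D X 1 k → Lay (restr D X) K X

/-- **P10.** Sets without `r` nets.  (Uses `S_D2`, `S_P9`, `S_Y5`, `S_Y6`.)

Proof. Induction on `r`.  `r = 0`: if `V` is nonempty then `HasN D X 0 k` is true (constant function);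
if `V` is empty then `X = ∅`, `Lay.empty`.  Step `r → r + 1`.
If `¬ HasN D X 1 k`: every component `K'` of `D[X]` satisfies the hypotheses of P9 (`HasN D K' 1 k` would give
`HasN D X 1 k`), Y5 (with `max K 1`).  Otherwise let `f` be a net in `X`, `F` the set of its `3 (k + 1)` vertices and
`X' = {v ∈ X | v ∉ Nc D x for all x ∈ F}`.  `¬ HasN D X' r k`: otherwise take the `r` nets of `X'` and `f` as the
net with the index `r`: `g (c, i, j) = f' (c, i, j)` for `c < r` and `g (r, i, j) = f (0, i, j)`; elements of `X'` are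
different from and not adjacent to the elements of `F`; so `HasN D X (r + 1) k`.  By induction `X'` has a layout
of width `K'`, `Dis D (max c₀ K') 0 X'`; D2 for the elements of `F` gives
`Dis D (max c₀ K') (60 * (3 * (k + 1))) X`; Y6. -/
def S_P10 : Prop := ∀ r k : ℕ, ∃ K : ℕ, ∀ (V : Type) [Finite V] (D : SimpleGraph V) (X : Set V),
  LCF D X → ¬ HasN D X r k → Lay (restr D X) K X

/-! ### from induced minors to `LCF` and `HasN` -/

/-- **K1.** A set of minimum degree two contains a cycle.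

Proof. Take an injective path `p 0, ..., p m` in `Y` (consecutive vertices adjacent, `p i ∈ Y`) with maximal `m`
(`m < |V|`; `m = 0` exists).  `p 0` has two different neighbours in `Y`; both are on the path (otherwise a longer
path), one of them is `p j` with `j ≥ 2`.  `z i = p i` for `i ≤ j`, `l = j + 1`. -/
def S_K1 : Prop := ∀ (V : Type) [Finite V] (G : SimpleGraph V) (Y : Set V), Y.Nonempty →
  (∀ y ∈ Y, 2 ≤ {w | w ∈ Y ∧ G.Adj y w}.ncard) → ∃ (l : ℕ) (z : ℕ → V), 3 ≤ l ∧
    (∀ i < l, z i ∈ Y) ∧ (∀ i < l, ∀ j < l, z i = z j → i = j) ∧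
    (∀ i, i + 1 < l → G.Adj (z i) (z (i + 1))) ∧ G.Adj (z (l - 1)) (z 0)

/-- **K2.** Graphs without `K_3 + P_1`.  (Uses `S_K1`.)

Proof. Otherwise there are `v ∈ X` and a nonempty `Y ⊆ {w ∈ X | Gᶜ.Adj v w}` such that every `y ∈ Y` has at least
two `w ∈ Y`, `w ≠ y`, `¬ Gᶜ.Adj y w`, that is `G.Adj y w`.  K1 gives a cycle `z` in `Y`.  Model:
`0 ↦ {z 0}`, `1 ↦ {z 1, ..., z (l - 2)}`, `2 ↦ {z (l - 1)}`, `3 ↦ {v}`.  The second set is connected (a path,
induction with `Conn.insert`); the first three pairwise touch; `v` is not `G`-adjacent to `Y`. -/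
def S_K2 : Prop := ∀ (V : Type) [Finite V] (G : SimpleGraph V) (X : Set V),
  ¬ IMS K3P G X → LCF Gᶜ X

/-- **K3.** Members of `InCoT` are contained in complements of disjoint nets.

Proof. Let `f : W → ι × Fin 3 × ℕ` be as in `InCoT`.  Let `comp : W → ℕ` be a labelling of the connected components
of `Hᶜ` by natural numbers (`W` is finite; for instance compose `SimpleGraph.connectedComponentMk` with an
injection of the finite type of the components into `ℕ`).  `g w = (comp w, (f w).2.1, (f w).2.2)`.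
`comp u = comp v` implies `(f u).1 = (f v).1` (edges of `Hᶜ` preserve the first coordinate).  `g` is injective.
CLAIM: `Hᶜ.Adj u v ↔ (nets ℕ).Adj (g u) (g v)`.  `→`: clear.  `←`: `comp u = comp v`, so `f u, f v` have the same
first coordinate `c`.  If both are of level `0`: third condition of `InCoT` (`u ≠ v`).  Otherwise they are
`(c, i, j)` and `(c, i, j + 1)` in some order, say `f u = (c, i, j)`, `f v = (c, i, j + 1)`.  Suppose `¬ Hᶜ.Adj u v`.
The set `{w | (f w).1 = c, (f w).2.1 = i, j + 1 ≤ (f w).2.2}` contains `v`, not `u`, and is closed under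
`Hᶜ`-adjacency (the only edge of the nets leaving it is the one between `(c, i, j + 1)` and `(c, i, j)`, that is
between `v` and `u` as `f` is injective): contradiction to `comp u = comp v`.
Take `r, k` larger than all `(g w).1`, `(g w).2.2`.  If `HasN Gᶜ univ r k` with `F : ℕ × Fin 3 × ℕ → V` then the
singletons `{F (g w)}` are a model of `H` in `G`: for `w ≠ w'`: `H.Adj w w'` iff not `Hᶜ.Adj w w'` iff not
`Gᶜ.Adj (F (g w)) (F (g w'))` iff `G.Adj ..` (`F (g w) ≠ F (g w')`). -/
def S_K3 : Prop := ∀ (W : Type) [Finite W] (H : SimpleGraph W), InCoT H → ∃ r k : ℕ,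
  ∀ (V : Type) (G : SimpleGraph V), HasN Gᶜ Set.univ r k → IMS H G Set.univ

/-- **K4.** Connected sets without `K_4` + pendant vertex, with a model of `K_8`.  (Uses `S_K1`.)

Proof. All sets are inside `X`; `I` denotes an index set `⊆ range 8`.  We say that `x` meets or touches `B j` if
`x ∈ B j` or `Tch G {x} (B j)`.
(1) Let `D ⊆ X` be connected and disjoint from the `B i`, `i ∈ I`.  If it touches some `B a`, `a ∈ I`, then at most
two `B j`, `j ∈ I`, are not touched: otherwise `4 ↦ D`, `0 ↦ B a`, `1, 2, 3 ↦` three sets which are not touched.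
(2) Let `|I| ≥ 5`.  Every `x ∈ X`, not in any `B i`, `i ∈ I`, touches some `B i`, `i ∈ I`.  Otherwise let `F` be the
(nonempty) set of the `x ∈ X` outside the `B i` (`i ∈ I`) touching none of them; `F ≠ X`, so (`X` connected) there
are `w ∈ F`, `u ∈ X \ F` adjacent; `u` is not in a `B i` (as `w` touches none), so it touches some `B i`, by (1) it
touches at least three `B a, B b, B c`: `4 ↦ {w}`, `0 ↦ {u}`, `1, 2, 3 ↦ B a, B b, B c`: contradiction.
(3) Every `x ∈ X` meets or touches all but at most two of the eight sets: if `x ∈ B i` apply (2) and (1) to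
`I = range 8 \ {i}`, otherwise to `I = range 8`.
(4) Suppose that `LCF Gᶜ X` is false: `v ∈ X` and a nonempty `Y` as in K2, and by K1 a cycle `z 0, .., z (l - 1)` in
`Y`; put `Z = {z i | i < l}`; `v ∉ Z` is not `G`-adjacent to `Z`.
(5) A connected set `E ⊆ X \ (Z ∪ {v})` which touches `{v}` has at most two neighbours on `Z`: otherwise let
`i < i' < i''` be indices of neighbours: `4 ↦ {v}`, `0 ↦ E`, `1 ↦ {z 0, .., z i}`, `2 ↦ {z (i+1), .., z i'}`,
`3 ↦ {z (i'+1), .., z (l-1)}`; these three arcs are connected and pairwise touching.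
(6) `v` touches some set of the model (by (3) it touches at least five), so it has a neighbour `y ∈ X`; `y ∉ Z`.  Let
`E` be the component of `G[X \ (Z ∪ {v})]` containing `y`; `nb G E ∩ X ⊆ F := {v} ∪ (neighbours of E on Z)`,
`|F| ≤ 3` by (5).  At least `8 - 2 - 3 = 3` sets `B j` are disjoint from `F` and met or touched by `y`; such a `B j`
contains an element of `E` (`y` itself, or a neighbour of `y` in `B j`, which is in `E` or in `F`), and it is
connected and disjoint from `F`, so it is contained in `E`.  Every `z ∈ Z` is not in `E`, so it does not lie in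
these three sets, and by (3) it touches at least one of them: so all elements of `Z` (at least three) are neighbours
of `E`: contradiction to (5). -/
def S_K4 : Prop := ∀ (V : Type) [Finite V] (G : SimpleGraph V) (X : Set V) (B : ℕ → Set V),
  Conn G X → Mdl G (Finset.range 8) B → (∀ i < 8, B i ⊆ X) → ¬ IMS K4P G X → LCF Gᶜ X

/-- **K5.** Row `K_3 + P_1`, sufficient condition.  (Uses `S_K2`, `S_K3`, `S_P10`, `S_Y1`, `S_LayCW`.)

Proof. K3 gives `r, k` for `H`, P10 gives `K`.  Let `G` contain neither `K3P` nor `H` (`ims_univ_iff`).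
`LCF Gᶜ univ` by K2; `¬ HasN Gᶜ univ r k` by K3; so `Lay (restr Gᶜ univ) K univ`, by Y1
`Lay (restr Gᶜᶜ univ) (K + 1) univ`, and `restr Gᶜᶜ univ = G`.  `S_LayCW`. -/
def S_K5 : Prop := ∀ (W : Type) [Finite W] (H : SimpleGraph W), InCoT H → BoundedCW K3P H

/-- **K6.** Row `K_4` + pendant vertex, sufficient condition.  (Uses `S_K3`, `S_K4`, `S_P10`, `S_Y1`, `S_Y2`, `S_Y5`,
`S_Restr`, `S_LayB`, `S_LayCW`.)

Proof. K3 gives `r, k` for `H`, P10 gives `K`; `K4P` is an induced minor of `grid n` for some `n ≥ 2` (prove this: the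
grid `6 × 6`, say; for instance `0 ↦` row `0` together with (1,0) .. it is enough to give five branch sets in
a small grid); `S_LayB 8 8 0 n` gives `K'`.  Let `G` contain neither `K4P` nor `H`.  By Y5 (for `G`, `X = univ`, with
the width `max (K + 1) K' + 1`) it is enough to give `Lay (restr G X) .. X` for every component `X` of `G`.
CASE 1: there is a model `B` of `K_8` in `X` (as in K4).  By K4 `LCF Gᶜ X`; `¬ HasN Gᶜ X r k` by K3
(`HasN` is monotone); P10, Y1.
CASE 2: otherwise `G' = restr G X` has no model of `K_8` (each branch set of such a model has a vertex with a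
`G'`-neighbour, so it is in `X`; see the proof of `S_Restr`), so `Free 8 8 0 G'` (`KP 8` contains `K_8`, `DD 8 0`
is `K_8`); no `grid n` in `G'` since `K4P` would be in `G'` (`imsTrans` in `ImsTrans.lean`) and in `G` (`S_Restr`,
every vertex of `K4P` has a neighbour).  `S_LayB` gives `Lay G' K' univ`; `G' = restr G' univ`, Y2 gives
`Lay (restr G' X) K' X` and `restr G' X = restr G X`. -/
def S_K6 : Prop := ∀ (W : Type) [Finite W] (H : SimpleGraph W), InCoT H → BoundedCW K4P H

/-- **K7.** `K_3 + P_1` and `K_4` + pendant vertex are not in `InCoT`.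

Proof. In the complement of `K3P` the vertex `3` is adjacent to `0, 1, 2`, which are pairwise non-adjacent; in the
complement of `K4P` the vertex `4` is adjacent to `1, 2, 3`, which are pairwise non-adjacent.  So it is enough: if
`InCoT H` (with `f`) and `x` is adjacent in `Hᶜ` to three different vertices `a, b, c` then two of them are adjacent
in `Hᶜ`.  `f a, f b, f c` are three different neighbours of `f x` in a net.  If `f x` has level `j ≥ 1` there are
at most two (levels `j - 1`, `j + 1` of the same leg).  If it has level `0`, there is at most one of level `1`, so two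
of `a, b, c` have level `0` and the same first coordinate: they are adjacent in `Hᶜ`. -/
def S_K7 : Prop := ¬ InCoT K3P ∧ ¬ InCoT K4P

end Pool.Agent.MPd439b2
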