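import Pool.Agent.Lib.MP_d439b2_co.R.Spec2

/-!
# MP_d439b2_co, row `K_5` plus a vertex of degree two, Spec 3

`K5P` is the complete graph `K_5` together with a vertex adjacent to two of its vertices.  A connected
set `X` without cut vertices in a graph without `K5P`, containing a model of a large complete graph, is
either a set with `LCF Gᶜ X` (so everything about the row `K_3 + P_1` applies) or the join of an
independent set and the disjoint union of a cycle and a vertex.

Every `S_...` is a statement to be proved in its own file; the docstring contains the complete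
proof.  Notation: `a ~ b` means `G.Adj a b`; `x` meets or touches `B i` if `x ∈ B i` or
`Tch G {x} (B i)`.
-/

set_option autoImplicit false

namespace Pool.Agent.MPd439b2

/-- the complete graph on `0, 1, 2, 3, 4` and the vertex `5` adjacent to `0` and `1` -/
def K5P : SimpleGraph (Fin 6) where
  Adj i j := i ≠ j ∧ ((i.val < 5 ∧ j.val < 5) ∨ i.val < 2 ∨ j.val < 2)
  symm := ⟨fun _ _ h => ⟨h.1.symm, by tauto⟩⟩
  loopless := ⟨fun _ h => h.1 rfl⟩

/-- `X` is connected and has no cut vertex -/
def Blk {V : Type} (G : SimpleGraph V) (X : Set V) : Prop :=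
  Conn G X ∧ ∀ x ∈ X, (X \ {x}).Nonempty → Conn G (X \ {x})

/-- the indices of the sets of the model which are neither met nor touched by `x` -/
def Un {V : Type} (G : SimpleGraph V) (I : Finset ℕ) (B : ℕ → Set V) (x : V) : Set ℕ :=
  {i | i ∈ I ∧ x ∉ B i ∧ ¬ Tch G {x} (B i)}

/-- every vertex of `X` meets or touches all but at most two sets of every model of a complete graph
with at least nine vertices in `X` -/
def Tame {V : Type} (G : SimpleGraph V) (X : Set V) : Prop :=
  ∀ (I : Finset ℕ) (B : ℕ → Set V), 9 ≤ I.card → Mdl G I B → (∀ i ∈ I, B i ⊆ X) →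
    ∀ x ∈ X, (Un G I B x).ncard ≤ 2

/-- `z 0, ..., z (l - 1)` is a cycle -/
def Cyc {V : Type} (G : SimpleGraph V) (l : ℕ) (z : ℕ → V) : Prop :=
  3 ≤ l ∧ (∀ i < l, ∀ j < l, z i = z j → i = j) ∧ (∀ i, i + 1 < l → G.Adj (z i) (z (i + 1))) ∧
    G.Adj (z (l - 1)) (z 0)

/-- `Y` is a minimal nonempty set of minimum degree at least two (the vertex set of an induced
cycle) -/
def Ring {V : Type} (G : SimpleGraph V) (Y : Set V) : Prop :=
  Y.Nonempty ∧ (∀ y ∈ Y, 2 ≤ {w | w ∈ Y ∧ G.Adj y w}.ncard) ∧
    ∀ Y' ⊆ Y, Y'.Nonempty → (∀ y ∈ Y', 2 ≤ {w | w ∈ Y' ∧ G.Adj y w}.ncard) → Y' = Y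

/-- `P`, `Q` are the sides of an induced complete bipartite subgraph `K_{n,n}` of `G[X]` -/
def KNN {V : Type} (G : SimpleGraph V) (X : Set V) (n : ℕ) (P Q : Set V) : Prop :=
  P ⊆ X ∧ Q ⊆ X ∧ Disjoint P Q ∧ P.ncard = n ∧ Q.ncard = n ∧
    (∀ a ∈ P, ∀ b ∈ P, ¬ G.Adj a b) ∧ (∀ a ∈ Q, ∀ b ∈ Q, ¬ G.Adj a b) ∧
    ∀ a ∈ P, ∀ b ∈ Q, G.Adj a b

/-- the vertices of `X` which are adjacent to all but at most two vertices of `Q` -/
def Full {V : Type} (G : SimpleGraph V) (X Q : Set V) : Set V :=
  {x | x ∈ X ∧ {y | y ∈ Q ∧ y ≠ x ∧ ¬ G.Adj x y}.ncard ≤ 2}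

/-- **V1.** Large minimum degree gives a model of a complete graph (Mader).

Proof. Write `deg Y y` for the number of neighbours of `y` in `Y`, `d Y` for the sum of `deg Y y` over
`y ∈ Y`.  CLAIM (induction on `s`, inside it induction on `|Y|`): if `Y` is nonempty and `2 ^ s * |Y| ≤ d Y`
then there is a model of `K_(s+1)` in `Y`.  `s = 0`: one vertex.  Step `s → s + 1`: `2 ^ (s+1) * |Y| ≤ d Y`.  For
connected `U ⊆ Y` let `N U` be the set of the vertices of `Y \ U` with a neighbour in `U`.  Call `U` good if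
`2 ^ (s+1) * (|Y \ U| + 1) ≤ d (Y \ U) + 2 |N U|`.  The sets `{u}`, `u ∈ Y`, are good (`N {u}` is the set of the
neighbours of `u`, so the right hand side is `d Y`).  Take a good `U` of maximal size.  If `N U = ∅` then `Y \ U`
satisfies the hypothesis, is nonempty (otherwise `2 ^ (s+1) ≤ 0`) and smaller: induction on `|Y|`.  Otherwise let
`w ∈ N U`; `U ∪ {w}` is connected, so not good.  `d (Y \ (U ∪ {w})) = d (Y \ U) - 2 deg (Y \ U) w` and
`|N (U ∪ {w})| = |N U| - 1 + deg (Y \ U) w - deg (N U) w`, so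
`2 ^ (s+1) * |Y \ U| > d (Y \ U) + 2 |N U| - 2 - 2 deg (N U) w ≥ 2 ^ (s+1) * (|Y \ U| + 1) - 2 - 2 deg (N U) w`,
so `deg (N U) w ≥ 2 ^ s`.  So `d (N U) ≥ 2 ^ s * |N U|`: there is a model of `K_(s+1)` in `N U`, add `U` as the last
set (every element of `N U` is adjacent to an element of `U`). -/
def S_V1 : Prop := ∀ (s : ℕ) (V : Type) [Finite V] (G : SimpleGraph V) (Y : Set V), Y.Nonempty →
  (∀ y ∈ Y, 2 ^ s ≤ {w | w ∈ Y ∧ G.Adj y w}.ncard) →
    ∃ B : ℕ → Set V, Mdl G (Finset.range (s + 1)) B ∧ ∀ i < s + 1, B i ⊆ Y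

/-- **V2.** A cycle and two disjoint touching sets.

Proof. Model of `K5P`: `5 ↦ {v}`, `0 ↦ A`, `1 ↦ B`, `2 ↦ {z 0, ..., z i}`, `3 ↦ {z (i+1), ..., z j}`,
`4 ↦ {z (j+1), ..., z (l-1)}`.  The last three sets are connected (paths, induction with `Conn.insert`) and
pairwise touching; `z i`, `z j`, `z k` are in them; they do not touch `{v}`. -/
def S_V2 : Prop := ∀ (V : Type) (G : SimpleGraph V) (l : ℕ) (z : ℕ → V) (v : V) (A B : Set V)
  (i j k : ℕ), Cyc G l z → i < j → j < k → k < l → Conn G A → Conn G B → Disjoint A B →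
    Tch G A B → (∀ m < l, z m ∉ A ∧ z m ∉ B ∧ z m ≠ v ∧ ¬ G.Adj v (z m)) → v ∉ A → v ∉ B →
    Tch G {v} A → Tch G {v} B →
    (∀ m, m = i ∨ m = j ∨ m = k → Tch G {z m} A ∧ Tch G {z m} B) → IMS K5P G Set.univ

/-- **V3.** Sets without cut vertices are tame.

Proof. `I' ⊆ I` denotes a set of indices.
(a) Let `D ⊆ X` be connected and disjoint from the `B i`, `i ∈ I'`.  If `D` touches two of these sets `B a`, `B b`
then at most two of them are not touched by `D`: otherwise `5 ↦ D`, `0 ↦ B a`, `1 ↦ B b`, `2, 3, 4 ↦` three sets which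
are not touched.
(b) Let `|I'| ≥ 7` and `F(I')` be the set of the `x ∈ X` which are not in any `B i`, `i ∈ I'`, and touch at most one
of them.  CLAIM: every component `K` of `G[F(I')]` touches at most one `B i`, `i ∈ I'`.  Otherwise let `K₀ ⊆ K` be a
connected set touching at most one of them of maximal size (`{x}`, `x ∈ K`, is such a set).  `K₀ ≠ K`, so there is
`y ∈ K \ K₀` adjacent to `K₀`; `K₀ ∪ {y}` touches at most two sets, and not at most one by maximality, so exactly
two: at least `|I'| - 2 ≥ 3` are not touched: contradiction to (a).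
(c) Let `|I'| ≥ 7` and `K` a component of `G[F(I')]`, `N = nb G K ∩ X`.  CLAIM: `N` is not empty and `N ⊆ B a` for some
`a ∈ I'`.  Let `u ∈ N`: either `u ∈ B i` for some `i ∈ I'`, and then `K` touches `B i`, so `i = a` does not depend on `u`
(by (b)), or `u` is outside all `B i`, `i ∈ I'`, and as `u ∉ F(I')` it touches at least two, so it touches all but at
most two of them by (a).  Suppose `u ∈ N` is outside all of them.  There is another `u' ∈ N`: otherwise
`K = X \ {u}` (`X \ {u}` is connected and `K` has no neighbours in it), but the sets `B i ⊆ X`, `i ∈ I'`, are nonempty,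
disjoint from each other and from `K`.  First case: `u'` is outside all of them.  It touches at least five, so at
least four which are not touched by `K` (by (b)), and at least two of these are touched by `u`: let `B f` be one, and
`B c, B d, B e` three others.  `5 ↦ K`, `0 ↦ {u} ∪ B f`, `1 ↦ {u'}`, `2, 3, 4 ↦ B c, B d, B e` is a model of `K5P`.
Second case: `u' ∈ B a`; `K` touches only `B a`.  `u` touches some `B f`, `f ≠ a`: `5 ↦ K`, `0 ↦ {u} ∪ B f`,
`1 ↦ B a`, `2, 3, 4 ↦` three others.  So all elements of `N` are in one `B a`.  `N = ∅` is impossible: `X` is connected,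
so `K = X`, but `K` is disjoint from `B i ⊆ X`.
(d) Let `x ∈ X`.  First let `x` be outside all the `B i`, `i ∈ I`, where `|I| ≥ 8`; suppose that at least three sets are
not touched.  By (a) `x ∈ F(I)`; let `K` be its component, by (c) `N ⊆ B a`, and let `u ∈ N`.  Put `I' = I \ {a}`; then
`K ⊆ F(I')` (it is disjoint from all sets, and touches at most one).  Let `K' ⊇ K` be the component of `G[F(I')]`
containing `K`; by (c) `nb G K' ∩ X ⊆ B c`, `c ∈ I'`.  `u ∈ K'`: otherwise `u ∈ nb G K'`, so `u ∈ B c ∩ B a = ∅`.  If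
`B a ⊄ K'` then (`B a` is connected) some element of `B a \ K'` is adjacent to `B a ∩ K'`, so it is in
`nb G K' ∩ X ⊆ B c`: contradiction.  So `B a ⊆ K'` touches all `B i`, `i ∈ I'`: contradiction to (b).
If `x ∈ B i` for some `i ∈ I`, `|I| ≥ 9`: apply this to `I \ {i}`. -/
def S_V3 : Prop := ∀ (V : Type) [Finite V] (G : SimpleGraph V) (X : Set V), Blk G X →
  ¬ IMS K5P G Set.univ → Tame G X

/-- **V4.** A clique or a complete bipartite graph.  (Uses `S_Ram`, `S_V1`.)

Proof. Let `R` be the number of `S_Ram 12 20`, `R'` the number of `S_Ram 12 (R + 2)`, and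
`t₀ = 20 * (256 + R) + R + R' + 12`.
Every `x ∈ X` has at least `t₀ - 3` neighbours in `X`: it touches at least `t₀ - 3` of the disjoint sets `B i`.  Let
`x ∈ X` be a vertex with the minimal number `δ` of neighbours in `X`, `N` the set of its neighbours in `X`, and
`Y = {y ∈ X | y ≠ x, ¬ x ~ y}`; `|X| = 1 + δ + |Y|`.
(1) Every nonempty `Y' ⊆ Y` contains a vertex with fewer than 256 neighbours in `Y'`: otherwise V1 (`s = 8`) gives a
model of `K_9` in `Y'`; `x` neither meets nor touches any of its sets: contradiction to `Tame`.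
(2) Case `R ≤ |Y|`.  For all `k ≤ R` there is `S ⊆ Y` with `|S| = k` all of whose elements have fewer than `256 + k`
neighbours in `Y` (induction: by (1) `Y \ S` has a vertex with fewer than 256 neighbours in `Y \ S`).  Take `k = R`;
`S_Ram` gives a clique with 12 vertices, or an independent set `P ⊆ S` with `|P| = 20`.  Every `y ∈ P` has at least
`δ` neighbours in `X`, none of them is `x`, fewer than `256 + R` are in `Y`, so all but fewer than `256 + R` elements of
`N` are neighbours of `y`.  So the elements of `P` have at least `δ - 20 * (256 + R) ≥ R` common neighbours in `N`.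
`S_Ram` gives a clique with 12 vertices or an independent set `Q` of 20 vertices among them: `KNN G X 20 P Q`.
(3) Case `|Y| < R`.  Every vertex of `X` has at least `δ ≥ |X| - R` neighbours in `X`.  `|X| ≥ t₀ ≥ R'` (the sets `B i`
are nonempty and disjoint): `S_Ram` gives a clique with 12 vertices or an independent set with `R + 2` vertices; in
the second case an element of it has at most `|X| - R - 2` neighbours: contradiction. -/
def S_V4 : Prop := ∃ t₀ : ℕ, ∀ (V : Type) [Finite V] (G : SimpleGraph V) (X : Set V)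
  (B : ℕ → Set V), Tame G X → Mdl G (Finset.range t₀) B → (∀ i < t₀, B i ⊆ X) →
    (∃ C ⊆ X, C.ncard = 12 ∧ CompleteOn G C) ∨ ∃ P Q, KNN G X 20 P Q

/-- **V5.** Sets with a clique.  (Uses `S_K1`, `S_V2`.)

Proof. Otherwise there are `v ∈ X` and a nonempty `Y ⊆ {w ∈ X | Gᶜ.Adj v w}` such that every `y ∈ Y` has at least
two `w ∈ Y`, `w ≠ y`, `¬ Gᶜ.Adj y w`, that is `G.Adj y w`; K1 gives a cycle `z` in `Y`.  The singletons of the elements of
`C` are a model of a complete graph with 12 vertices in `X`; by `Tame` every vertex of `X` is adjacent to all but at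
most two elements of `C` (different from it).  So there are two different elements `c, c'` of `C` which are different
from `v` and adjacent to `v, z 0, z 1, z 2` (`v` excludes at most three, then `c ≠ z m` for all `m` as `v ~ c`; and
`z 0, z 1, z 2` exclude at most two each).  V2 for `A = {c}`, `B = {c'}`, `i, j, k = 0, 1, 2`. -/
def S_V5 : Prop := ∀ (V : Type) [Finite V] (G : SimpleGraph V) (X C : Set V), Tame G X →
  ¬ IMS K5P G Set.univ → C ⊆ X → C.ncard = 12 → CompleteOn G C → LCF Gᶜ X

/-- **V6.** Rings are induced cycles.  (Uses `S_K1`.)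

Proof. (a) K1 gives a cycle `z` in `Y`; the set `Y' = {z i | i < l}` is nonempty and every element of it has at least
two neighbours in `Y'`, so `Y' = Y`.  Let `z i ~ z j`, `i < j`, `j ≠ i + 1`, not (`i = 0` and `j = l - 1`).  The set
`{z i, ..., z j}` is nonempty, every element of it has at least two neighbours in it (a cycle), and it is not equal
to `Y`: contradiction.  (b) Finite descent: take a nonempty subset of minimum degree at least two of minimal size.
(c) By (a) `y = z i` has at most two neighbours in `Y`. -/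
def S_V6 : Prop := ∀ (V : Type) [Finite V] (G : SimpleGraph V) (Y : Set V),
  (Ring G Y → ∃ (l : ℕ) (z : ℕ → V), Cyc G l z ∧ Y = {y | ∃ i < l, y = z i} ∧
    ∀ i < l, ∀ j < l, G.Adj (z i) (z j) →
      i = j + 1 ∨ j = i + 1 ∨ (i = 0 ∧ j = l - 1) ∨ (j = 0 ∧ i = l - 1)) ∧
  (Y.Nonempty → (∀ y ∈ Y, 2 ≤ {w | w ∈ Y ∧ G.Adj y w}.ncard) → ∃ Y' ⊆ Y, Ring G Y') ∧
  (Ring G Y → ∀ y ∈ Y, {w | w ∈ Y ∧ G.Adj y w}.ncard ≤ 2)

/-- **V7.** The two sides.

Proof. (a) For `x ∈ P` the set in `Full G X Q` is empty; for `x ∈ Q` the set in `Full G X P` is empty.  Let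
`x ∉ P ∪ Q` be in none of the two sets: there are three elements `a 0, a 1, a 2` of `P` and three elements
`b 0, b 1, b 2` of `Q` not adjacent to `x`.  Extend to enumerations `a, b` (indices `< 20`) of `P`, `Q`.  The sets
`{a i, b i}`, `i < 20`, are a model of `K_20` in `X` (`a i ~ b j`), and `x` neither meets nor touches the first three:
contradiction to `Tame`.  (b) For `x ∈ Q` the set `{y ∈ Q | y ≠ x, ¬ x ~ y} = Q \ {x}` has 19 elements. -/
def S_V7 : Prop := ∀ (V : Type) [Finite V] (G : SimpleGraph V) (X P Q : Set V), Tame G X →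
  KNN G X 20 P Q → (∀ x ∈ X, x ∈ Full G X P ∨ x ∈ Full G X Q) ∧ ∀ x ∈ Q, x ∉ Full G X Q

/-- **V8.** The ring fills one side.  (Uses `S_V2`, `S_V6`, `S_V7`.)

Proof. Let `z, l` be as in V6 (a) for `Y`.  Note `v ∉ Q` (V7), and an element adjacent to `v` is different from `v` and
not in `Y`.
(1) `|P \ (Y ∪ {v})| ≤ 7`.  Otherwise choose different `c, c' ∈ Q` adjacent to `v` and adjacent to those of
`z 0, z 1, z 2` which are in `Full G X Q` (at most `2 + 3 * 2` elements of `Q` are excluded), and different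
`y, y' ∈ P \ (Y ∪ {v})` adjacent to those of `z 0, z 1, z 2` which are in `Full G X P` (at most 6 are excluded).  V2
for `A = {c, y}`, `B = {c', y'}` (`c ~ y`, `c' ~ y'`, `c ~ y'`; every `z m`, `m ≤ 2`, is adjacent to `c` or to `y`, by
V7 (a)).
(2) So `12 ≤ |P ∩ Y|`.
(3) `Full G X Q ⊆ Y ∪ {v}`: let `y ∈ Full G X Q`, `y ∉ Y ∪ {v}`; `y ∉ Q` (V7).  Choose different `c, c' ∈ Q` adjacent to `v`
and to `y`, and indices `i < j < k` with `z i, z j, z k ∈ P`.  V2 for `A = {c}`, `B = {c', y}`.
(4) `Y ⊆ Full G X Q`: let `y ∈ Y`, `y ∉ Full G X Q`; by V7 `y ∈ Full G X P`; so `y` is adjacent to at least `12 - 1 - 2`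
elements of `P ∩ Y`: contradiction to V6 (c). -/
def S_V8 : Prop := ∀ (V : Type) [Finite V] (G : SimpleGraph V) (X P Q Y : Set V) (v : V),
  Tame G X → ¬ IMS K5P G Set.univ → KNN G X 20 P Q → v ∈ Full G X Q → Ring G Y → Y ⊆ X →
    (∀ y ∈ Y, y ≠ v ∧ ¬ G.Adj v y) → Full G X Q = insert v Y ∧ 12 ≤ (P ∩ Y).ncard

/-- **V9.** The other side.  (Uses `S_V2`, `S_V6`, `S_V7`, `S_V8`.)

Proof. Let `z, l` be as in V6 (a).  By V8 `p ∉ Full G X Q`, so `p ∈ Full G X P` (V7), and `12 ≤ |P ∩ Y|`; so `p` is adjacent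
to all but at most two elements of `P ∩ Y` (`p ∉ Y`).
(1) `v ~ p`.  Otherwise let `i < j < k` be indices of neighbours of `p`.  In the set `{p, z i, ..., z j}` every element
has at least two neighbours, so it contains a ring `Y''` (V6 (b)), whose elements are different from `v` and not
adjacent to `v`.  V8 for `Y''`: `Full G X Q = insert v Y''`, but `z k ∈ Y ⊆ Full G X Q` is not in it.
(2) `¬ p ~ p'`: otherwise (`p'` has the same properties) both are adjacent to `v` by (1), and there are at least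
`12 - 4` elements of `P ∩ Y` adjacent to both: V2 for `A = {p}`, `B = {p'}` and three of them.
(3) `y ~ p` for `y ∈ Y`.  Let `y = z m` and `¬ z m ~ p`.  Call an index `n < l` good if `z n ∈ P`, `p ~ z n`,
`n ≠ m`, `¬ z n ~ z m`.  There are at least `12 - 2 - 1 - 2 = 7` good indices.  A good index `n` satisfies
`m + 2 ≤ n` and not (`m = 0` and `n = l - 1`), or `n + 2 ≤ m` and not (`n = 0` and `m = l - 1`) (consecutive
elements of the cycle are adjacent).  One of the two cases holds for at least four good indices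
`i < j < k < k'`, and in both cases all `z n`, `i ≤ n ≤ j`, are different from and not adjacent to `z m` (V6 (a)).  As
`z m ∈ Full G X Q` there are different `x, x' ∈ Q`, different from `p`, adjacent to `z m` (all elements of `Q` are
adjacent to all elements of `P`); `x, x' ∉ Y ∪ {v}` (V7, V8).  Model of `K5P`: `5 ↦ {z m}`, `2 ↦ {p}`,
`3 ↦ {z i, ..., z (j-1)}`, `4 ↦ {z j}`, `0 ↦ {x, z k}`, `1 ↦ {x', z k'}`. -/
def S_V9 : Prop := ∀ (V : Type) [Finite V] (G : SimpleGraph V) (X P Q Y : Set V) (v p : V),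
  Tame G X → ¬ IMS K5P G Set.univ → KNN G X 20 P Q → v ∈ Full G X Q → Ring G Y → Y ⊆ X →
    (∀ y ∈ Y, y ≠ v ∧ ¬ G.Adj v y) → p ∈ X → p ∉ insert v Y →
    G.Adj v p ∧ (∀ p' ∈ X, p' ∉ insert v Y → ¬ G.Adj p p') ∧ ∀ y ∈ Y, G.Adj y p

/-- **V10.** The exceptional graphs.

Proof. `G' = restr G X`.  Add the vertices in the order `z 0, ..., z (l-1), v`, then the elements of
`X \ ({v} ∪ Y)` one by one (`Lay.insert`).  For a set `{z 0, ..., z i}` the types are among: `P = X \ ({v} ∪ Y)` (the
vertices `z j`, `0 < j < i`; also `z 0` if `i = l - 1`), one for `z 0`, one for `z i`: at most three.  For the later sets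
the elements of `Y ∪ {v}` have the type `P` minus the elements already added, and the elements of `P` have none. -/
def S_V10 : Prop := ∀ (V : Type) [Finite V] (G : SimpleGraph V) (X : Set V) (v : V) (l : ℕ)
  (z : ℕ → V), v ∈ X → (∀ i < l, z i ∈ X ∧ z i ≠ v ∧ ¬ G.Adj v (z i)) →
    (∀ i < l, ∀ j < l, z i = z j → i = j) →
    (∀ i < l, ∀ j < l, G.Adj (z i) (z j) →
      i = j + 1 ∨ j = i + 1 ∨ (i = 0 ∧ j = l - 1) ∨ (j = 0 ∧ i = l - 1)) →
    (∀ p ∈ X, p ≠ v → (∀ i < l, p ≠ z i) → G.Adj v p ∧ (∀ i < l, G.Adj (z i) p) ∧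
      ∀ p' ∈ X, p' ≠ v → (∀ i < l, p' ≠ z i) → ¬ G.Adj p p') →
    Lay (restr G X) 3 X

/-- **V11.** Sets without cut vertices.  (Uses `S_V3`, `S_V4`, `S_V5`, `S_V6`, `S_V7`, `S_V9`, `S_V10`.)

Proof. `t₀` from V4.  `X` is tame by V3.  V4: in the case of a clique use V5.  Otherwise `KNN G X 20 P Q`.  If
`LCF Gᶜ X` is false then there are `v ∈ X` and a nonempty `Y₀ ⊆ {w ∈ X | Gᶜ.Adj v w}` such that every `y ∈ Y₀` has at least
two neighbours in `Y₀`; V6 (b): a ring `Y ⊆ Y₀`.  By V7 `v ∈ Full G X Q` or `v ∈ Full G X P`; the hypotheses are symmetric in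
`P, Q` (`KNN G X 20 Q P`), so let `v ∈ Full G X Q`.  V9 for all `p ∈ X`, `p ∉ insert v Y`, V6 (a), and V10. -/
def S_V11 : Prop := ∃ t₀ : ℕ, ∀ (V : Type) [Finite V] (G : SimpleGraph V) (X : Set V)
  (B : ℕ → Set V), Blk G X → ¬ IMS K5P G Set.univ → Mdl G (Finset.range t₀) B →
    (∀ i < t₀, B i ⊆ X) → LCF Gᶜ X ∨ Lay (restr G X) 3 X

/-- **V12.** Leaf blocks.

Proof. `¬ Blk`: there is `c ∈ X` with `X \ {c}` nonempty and not connected.  Choose `c ∈ X` and a component `K` of
`G[X \ {c}]` with `K ≠ X \ {c}` such that `|K|` is minimal.  (1) `K ∪ {c}` is connected: `K` has a neighbour in `X`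
outside `K` (`X` connected), which must be `c`.  (2) `Blk G (insert c K)`: removing `c` leaves the connected set `K`.
Let `c' ∈ K`, and suppose that `Y = (K ∪ {c}) \ {c'}` (it contains `c`) is not connected; let `K'` be a component of
`G[Y]` not containing `c` (take the component of an element outside the component of `c`).  `K' ⊆ K \ {c'}`; `K'` is a
component of `G[X \ {c'}]`: a neighbour in `X \ {c'}` of an element of `K' ⊆ K` is in `K ∪ {c}` (as `K` is a component of
`X \ {c}`), so in `Y`, so in `K'`.  `c ∈ X \ {c'}`, `c ∉ K'`; `|K'| < |K|`: contradiction.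
(3) `X \ K` is connected: it contains `c`; let `Z` be the component of `c` in `G[X \ K]`, and suppose `Z ≠ X \ K`; the set
`X \ (K ∪ Z)` is nonempty and has no neighbours in `Z` and none in `K` (its elements are different from `c`, and `K` is a
component of `X \ {c}`): contradiction to `X` connected. -/
def S_V12 : Prop := ∀ (V : Type) [Finite V] (G : SimpleGraph V) (X : Set V), Conn G X →
  ¬ Blk G X → ∃ c ∈ X, ∃ K, IsComp G (X \ {c}) K ∧ Blk G (insert c K) ∧ Conn G (X \ K)

/-- **V13.** Gluing layouts at a cut vertex.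

Proof. `G' = restr G (X ∪ Y)`.
(i) Claim: `Lay (restr G Y) k S` and `S ⊆ Y` imply `Lay G' (k + 1) S`.  Induction on `Lay`; for `S ⊆ Y` the elements
`a ∈ S`, `a ≠ c`, have the same trace outside `S` in `G'` and in `restr G Y` (their neighbours in `X ∪ Y` are in `Y`), and
`c` gives one more type.
(ii) Claim: `Lay (restr G X) (k + 1) S` and `S ⊆ X` imply: if `c ∉ S` then `Lay G' (k + 1) S`, and if `c ∈ S` then
`Lay G' (k + 1) (S ∪ Y)`.  Induction on `Lay`.  `{w}`, `w ≠ c`: the traces are the same.  `{c}`: `{c} ∪ Y = Y`, use (i).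
`A ∪ B` with `c ∈ A`: `(A ∪ Y) ∪ B`, disjoint as `B ∩ Y ⊆ {c}` and `c ∉ B`; the elements of `Y \ {c}` have no neighbours
outside `Y`, the elements of `A ∪ B` have the same traces outside `A ∪ B ∪ Y` in `G'` as outside `A ∪ B` in
`restr G X` (`c ∈ A`, the other elements of `X` have no neighbours in `Y \ {c}`).  The same for `c ∈ B`; if
`c ∉ A ∪ B` the traces are the same.
The result is (ii) for `S = X`. -/
def S_V13 : Prop := ∀ (V : Type) (G : SimpleGraph V) (k : ℕ) (X Y : Set V) (c : V),
  X ∩ Y = {c} → (∀ a ∈ X \ {c}, ∀ b ∈ Y \ {c}, ¬ G.Adj a b) → Lay (restr G X) (k + 1) X →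
    Lay (restr G Y) k Y → Lay (restr G (X ∪ Y)) (k + 1) (X ∪ Y)

/-- **V14.** Layouts from layouts of the blocks.  (Uses `S_V12`, `S_V13`, `S_Y5`.)

Proof. By Y5 we may assume that `X` is connected (a subset of `X`; the hypothesis is inherited).  Induction on `|X|`.
`Blk G X`: `Lay.mono`.  Otherwise V12 gives `c, K`; `X \ K` is connected and smaller; `Lay (restr G (X \ K)) (k + 1) _` by
induction; `Lay (restr G (insert c K)) k _` by hypothesis; V13 for `X \ K` and `insert c K`. -/
def S_V14 : Prop := ∀ (V : Type) [Finite V] (G : SimpleGraph V) (k : ℕ) (X : Set V),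
  (∀ Y ⊆ X, Blk G Y → Lay (restr G Y) k Y) → Lay (restr G X) (k + 1) X

/-- **V15.** Row `K5P`, sufficient condition.  (Uses `S_K3`, `S_P10`, `S_V11`, `S_V14`, `S_Y1`, `S_Y2`, `S_Restr`,
`S_LayB`, `S_LayCW`.)

Proof. K3 gives `r, k` for `H`, P10 gives `K`, V11 gives `t₀` (we may enlarge it, so `t₀ ≥ 2`: a model on
`range t` is a model on `range t₀` for `t₀ ≤ t`); let `n ≥ 2` be such that `K5P` or `H` is an induced minor of `grid n`
(a small grid is an induced minor of a larger one, or take `n` as it is and treat `n ≤ 1` separately: `grid 0` is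
empty, `grid 1` is one vertex; in these cases `H` or `K5P` has at most one vertex, it is an induced minor of
every nonempty graph, and there is nothing to prove); `S_LayB t₀ t₀ 0 n` gives `K'`.  Let `G` contain neither `K5P` nor
`H`.  By V14 (for `X = univ`) it is enough to give `Lay (restr G X) K'' X` for every `X` with `Blk G X`, `K''` large.
CASE 1: there is a model `B` of `K_(t₀)` in `X`.  By V11 `Lay (restr G X) 3 X` or `LCF Gᶜ X`; in the second case
`¬ HasN Gᶜ X r k` by K3 (`HasN` is monotone), P10, Y1.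
CASE 2: otherwise `G' = restr G X` has no model of `K_(t₀)` (each branch set has a vertex with a `G'`-neighbour,
so it is in `X`), so `Free t₀ t₀ 0 G'`; no `grid n` in `G'`: otherwise `grid n` is an induced minor of `G` (`S_Restr`, every
vertex of the grid has a neighbour) and then `K5P` or `H` (`imsTrans`).  `S_LayB`, Y2, as in K6. -/
def S_V15 : Prop := ∀ (W : Type) [Finite W] (H : SimpleGraph W), InCoT H →
  (InGrid K5P ∨ InGrid H) → BoundedCW K5P H

/-- **V16.** `K5P` is not in `InCoT`.

Proof. See K7: in the complement of `K5P` the vertex `5` is adjacent to `2, 3, 4`, which are pairwise not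
adjacent. -/
def S_V16 : Prop := ¬ InCoT K5P

end Pool.Agent.MPd439b2
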