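import Pool.Agent.Lib.MP_d439b2_co.R.Spec3
import Pool.Agent.Lib.MP_d439b2_co.ImsTrans

/-!
# MP_d439b2_co, row `K_5` plus a vertex of degree two: V15, sufficient condition
-/

set_option autoImplicit false

namespace Pool.Agent.MPd439b2

namespace rV15Aux

/-- a grid is an induced minor of a larger grid -/
theorem grid_grid (n : ℕ) : IMS (grid n) (grid (n + 2)) Set.univ := by
  have hadj : ∀ u v : Fin n × Fin n, (grid n).Adj u v ↔
      (grid (n + 2)).Adj (Fin.castAdd 2 u.1, Fin.castAdd 2 u.2) (Fin.castAdd 2 v.1, Fin.castAdd 2 v.2) := by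
    rintro ⟨a, b⟩ ⟨c, d⟩
    have e1 : a = c ↔ Fin.castAdd 2 a = Fin.castAdd 2 c := by
      rw [Fin.ext_iff, Fin.ext_iff]
      rfl
    have e2 : b = d ↔ Fin.castAdd 2 b = Fin.castAdd 2 d := by
      rw [Fin.ext_iff, Fin.ext_iff]
      rfl
    constructor
    · rintro (⟨h1, h2⟩ | ⟨h1, h2⟩)
      · exact Or.inl ⟨e1.1 h1, h2⟩
      · exact Or.inr ⟨e2.1 h1, h2⟩
    · rintro (⟨h1, h2⟩ | ⟨h1, h2⟩)
      · exact Or.inl ⟨e1.2 h1, h2⟩
      · exact Or.inr ⟨e2.2 h1, h2⟩
  refine ⟨fun u => {(Fin.castAdd 2 u.1, Fin.castAdd 2 u.2)}, fun _ => Set.subset_univ _,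
    fun _ => Conn.singleton _ _, ?_, ?_⟩
  · rintro ⟨a, b⟩ ⟨c, d⟩ hne
    rw [Set.disjoint_singleton]
    intro h
    apply hne
    have h1 := congrArg Prod.fst h
    have h2 := congrArg Prod.snd h
    simp only at h1 h2
    rw [Fin.ext_iff] at h1 h2
    exact Prod.ext (Fin.ext h1) (Fin.ext h2)
  · intro u v _
    rw [hadj]
    constructor
    · intro h
      exact ⟨_, rfl, _, rfl, h⟩
    · rintro ⟨x, hx, y, hy, h⟩
      rw [Set.mem_singleton_iff] at hx hy
      rw [hx, hy] at h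
      exact h

/-- every vertex of a grid with at least two rows has a neighbour -/
theorem grid_nb (n : ℕ) (w : Fin (n + 2) × Fin (n + 2)) : ∃ w', (grid (n + 2)).Adj w w' := by
  obtain ⟨a, b⟩ := w
  by_cases hb : b.val = 0
  · exact ⟨(a, ⟨1, by omega⟩), Or.inl ⟨rfl, Or.inr (by show 1 = b.val + 1; omega)⟩⟩
  · exact ⟨(a, ⟨b.val - 1, by omega⟩), Or.inl ⟨rfl, Or.inl (by show b.val = b.val - 1 + 1; omega)⟩⟩

theorem hasN_mono {V : Type} {D : SimpleGraph V} {X Y : Set V} (h : X ⊆ Y) {r k : ℕ}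
    (hN : HasN D X r k) : HasN D Y r k := by
  obtain ⟨f, h1, h2⟩ := hN
  exact ⟨f, fun u hu hk => h (h1 u hu hk), h2⟩

theorem restr_univ {V : Type} (G : SimpleGraph V) : restr G Set.univ = G := by
  ext u v
  exact ⟨fun h => h.1, fun h => ⟨h, Set.mem_univ _, Set.mem_univ _⟩⟩

theorem restr_restr {V : Type} (G : SimpleGraph V) (X : Set V) :
    restr (restr G X) X = restr G X := by
  ext u v
  exact ⟨fun h => h.1, fun h => ⟨h, h.2.1, h.2.2⟩⟩

/-- at least two connected, pairwise touching sets in `restr G X` are a model in `X` -/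
theorem mdl_of {V : Type} {G : SimpleGraph V} {X : Set V} {t : ℕ} (ht : 2 ≤ t) (b : Fin t → Set V)
    (h1 : ∀ i, Conn (restr G X) (b i)) (h2 : ∀ i j, i ≠ j → Disjoint (b i) (b j))
    (h3 : ∀ i j, i ≠ j → Tch (restr G X) (b i) (b j)) :
    ∃ B : ℕ → Set V, Mdl G (Finset.range t) B ∧ ∀ i < t, B i ⊆ X := by
  have hsub : ∀ i, b i ⊆ X := by
    intro i
    obtain ⟨j, hj⟩ : ∃ j : Fin t, i ≠ j := by
      by_cases hi : i.val = 0
      · refine ⟨⟨1, by omega⟩, fun h => ?_⟩
        have := congrArg Fin.val h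
        simp only at this
        omega
      · refine ⟨⟨0, by omega⟩, fun h => ?_⟩
        have := congrArg Fin.val h
        simp only at this
        omega
    obtain ⟨a, ha, c, _, hac⟩ := h3 i j hj
    have h4 : b i ∩ X = b i := by
      refine (h1 i).eq_of_nb Set.inter_subset_left ⟨a, ha, hac.2.1⟩ ?_
      rintro v hv ⟨hv1, e, _, hev⟩
      exact hv1 ⟨hv, hev.2.2⟩
    exact Set.inter_eq_left.mp h4
  refine ⟨fun n => if h : n < t then b ⟨n, h⟩ else ∅, ⟨?_, ?_⟩, ?_⟩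
  · intro i hi
    have hi' := Finset.mem_range.mp hi
    beta_reduce
    rw [dif_pos hi']
    exact (h1 ⟨i, hi'⟩).mono_graph fun u _ v _ h => h.1
  · intro i hi j hj hij
    have hi' := Finset.mem_range.mp hi
    have hj' := Finset.mem_range.mp hj
    have hne : (⟨i, hi'⟩ : Fin t) ≠ ⟨j, hj'⟩ := fun h => hij (congrArg Fin.val h)
    beta_reduce
    rw [dif_pos hi', dif_pos hj']
    refine ⟨h2 _ _ hne, ?_⟩
    obtain ⟨a, ha, c, hc, hac⟩ := h3 _ _ hne
    exact ⟨a, ha, c, hc, hac.1⟩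
  · intro i hi
    beta_reduce
    rw [dif_pos hi]
    exact hsub _

end rV15Aux

open rV15Aux in
theorem rV15 : S_K3 → S_P10 → S_V11 → S_V14 → S_Y1 → S_Y2 → S_Restr → S_LayB → S_LayCW → S_V15 := by
  intro hK3 hP10 hV11 hV14 hY1 hY2 hRestr hLayB hLayCW W _ H hH hgr
  obtain ⟨r, k, hrk⟩ := hK3 W H hH
  obtain ⟨K, hK⟩ := hP10 r k
  obtain ⟨t₀, ht₀⟩ := hV11
  -- a number `t ≥ t₀`, `t ≥ 2`
  obtain ⟨t, htt, ht2⟩ : ∃ t : ℕ, t₀ ≤ t ∧ 2 ≤ t := ⟨t₀ + 2, by omega, by omega⟩
  obtain ⟨n, hn⟩ : ∃ n : ℕ, IMS K5P (grid (n + 2)) Set.univ ∨ IMS H (grid (n + 2)) Set.univ := by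
    rcases hgr with ⟨n, hn⟩ | ⟨n, hn⟩
    · exact ⟨n, Or.inl (imsTrans _ _ _ _ _ _ _ (ims_univ_iff.mpr hn) (grid_grid n))⟩
    · exact ⟨n, Or.inr (imsTrans _ _ _ _ _ _ _ (ims_univ_iff.mpr hn) (grid_grid n))⟩
  obtain ⟨K', hK'⟩ := hLayB t t 0 (n + 2) ht2 (by omega) (by omega)
  refine ⟨3 * (max (max (K + 1) K') 3 + 1 + 1), ?_⟩
  intro V _ _ G hG1 hG2
  have hG1' : ¬ IMS K5P G Set.univ := fun h => hG1 (ims_univ_iff.mp h)
  have hG2' : ¬ IMS H G Set.univ := fun h => hG2 (ims_univ_iff.mp h)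
  apply hLayCW
  have main : ∀ X ⊆ (Set.univ : Set V), Blk G X →
      Lay (restr G X) (max (max (K + 1) K') 3) X := by
    intro X _ hX
    by_cases hM : ∃ B : ℕ → Set V, Mdl G (Finset.range t) B ∧ ∀ i < t, B i ⊆ X
    · obtain ⟨B, hB, hBX⟩ := hM
      have hB' : Mdl G (Finset.range t₀) B := by
        refine ⟨fun i hi => hB.1 i ?_, fun i hi j hj => hB.2 i ?_ j ?_⟩
        · rw [Finset.mem_range] at hi ⊢
          omega
        · rw [Finset.mem_range] at hi ⊢
          omega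
        · rw [Finset.mem_range] at hj ⊢
          omega
      rcases ht₀ V G X B hX hG1' hB' (fun i hi => hBX i (by omega)) with h1 | h1
      · have h2 : ¬ HasN Gᶜ X r k := fun h => hG2' (hrk V G (hasN_mono (Set.subset_univ _) h))
        have h3 := hY1 V Gᶜ K X (hK V Gᶜ X h1 h2)
        rw [compl_compl] at h3
        exact h3.mono ((le_max_left _ _).trans (le_max_left _ _))
      · exact h1.mono (le_max_right _ _)
    · have hfree : Free t t 0 (restr G X) := by
        constructor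
        · rintro ⟨b, _, b2, b3, b4⟩
          exact hM (mdl_of ht2 (fun i => b (Sum.inl i)) (fun i => b2 _)
            (fun i j hij => b3 _ _ fun h => hij (Sum.inl.inj h))
            (fun i j hij => (b4 _ _ fun h => hij (Sum.inl.inj h)).mp hij))
        · rintro ⟨b, _, b2, b3, b4⟩
          exact hM (mdl_of ht2 (fun i => b (Sum.inl i)) (fun i => b2 _)
            (fun i j hij => b3 _ _ fun h => hij (Sum.inl.inj h))
            (fun i j hij => (b4 _ _ fun h => hij (Sum.inl.inj h)).mp hij))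
      have hgrid : ¬ IMS (grid (n + 2)) (restr G X) Set.univ := by
        intro h
        have h' := hRestr V _ G (grid (n + 2)) X (grid_nb n) h
        rcases hn with hn | hn
        · exact hG1' (imsTrans _ _ _ _ _ _ _ hn h')
        · exact hG2' (imsTrans _ _ _ _ _ _ _ hn h')
      have h1 := hK' V (restr G X) hfree hgrid
      rw [← restr_univ (restr G X)] at h1
      have h2 := hY2 V (restr G X) K' Set.univ X (Set.subset_univ _) h1
      rw [restr_restr] at h2
      exact h2.mono ((le_max_right _ _).trans (le_max_left _ _))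
  have h5 := hV14 V G (max (max (K + 1) K') 3) Set.univ main
  rw [restr_univ] at h5
  exact h5

end Pool.Agent.MPd439b2
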