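import Pool.Agent.Lib.MP_d439b2_co.R.Spec3

/-!
# V4: a clique or a complete bipartite graph
-/

set_option autoImplicit false

namespace Pool.Agent.MPd439b2

namespace rV4Aux

open Classical in
/-- the neighbours of `v` in the finite set `Z` -/
noncomputable def nbs {V : Type} (G : SimpleGraph V) (Z : Finset V) (v : V) : Finset V :=
  Z.filter fun w => G.Adj v w

lemma mem_nbs {V : Type} {G : SimpleGraph V} {Z : Finset V} {v w : V} :
    w ∈ nbs G Z v ↔ w ∈ Z ∧ G.Adj v w := by
  classical
  unfold nbs
  rw [Finset.mem_filter]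

/-- lower bound for the degrees -/
lemma deg_ge {V : Type} [Finite V] (G : SimpleGraph V) (X : Finset V) (B : ℕ → Set V) (t : ℕ)
    (ht : 9 ≤ t) (hT : Tame G (X : Set V)) (hM : Mdl G (Finset.range t) B)
    (hB : ∀ i < t, B i ⊆ (X : Set V)) (x : V) (hx : x ∈ X) : t ≤ (nbs G X x).card + 3 := by
  classical
  have h1 := hT (Finset.range t) B (by rw [Finset.card_range]; exact ht) hM
    (fun i hi => hB i (Finset.mem_range.mp hi)) x hx
  set J := (Finset.range t).filter fun i => Tch G {x} (B i) with hJ
  set K := (Finset.range t).filter fun i => x ∈ B i with hK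
  set U := (Finset.range t).filter fun i => x ∉ B i ∧ ¬ Tch G {x} (B i) with hU
  have hUn : Un G (Finset.range t) B x = (U : Set ℕ) := by
    ext i
    simp only [Un, hU, Finset.coe_filter, Set.mem_ofPred_eq, Finset.mem_range]
  rw [hUn, Set.ncard_coe_finset] at h1
  have hK1 : K.card ≤ 1 := by
    rw [Finset.card_le_one]
    intro i hi j hj
    rw [hK, Finset.mem_filter] at hi hj
    by_contra hne
    exact (Set.disjoint_left.mp (hM.2 i hi.1 j hj.1 hne).1 hi.2) hj.2
  have hcov : Finset.range t ⊆ J ∪ K ∪ U := by
    intro i hi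
    rw [Finset.mem_union, Finset.mem_union, hJ, hK, hU, Finset.mem_filter, Finset.mem_filter,
      Finset.mem_filter]
    tauto
  have h2 := (Finset.card_le_card hcov).trans (Finset.card_union_le _ _)
  have h3 := Finset.card_union_le J K
  rw [Finset.card_range] at h2
  have h4 : ∀ i ∈ J, ∃ b ∈ B i, G.Adj x b := by
    intro i hi
    rw [hJ, Finset.mem_filter] at hi
    obtain ⟨a, ha, b, hb, hab⟩ := hi.2
    rw [Set.mem_singleton_iff] at ha
    subst ha
    exact ⟨b, hb, hab⟩
  have : Nonempty V := ⟨x⟩
  choose! f hf using h4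
  have h5 : J.card ≤ (nbs G X x).card := by
    apply Finset.card_le_card_of_injOn f
    · intro i hi
      have hi' := hi
      rw [Finset.mem_coe, hJ, Finset.mem_filter, Finset.mem_range] at hi'
      have := hf i hi
      rw [Finset.mem_coe, mem_nbs]
      exact ⟨hB i hi'.1 this.1, this.2⟩
    · intro i hi j hj hij
      by_contra hne
      have hi' := hi
      have hj' := hj
      rw [Finset.mem_coe, hJ, Finset.mem_filter] at hi' hj'
      have h6 := hf i hi
      have h7 := hf j hj
      rw [← hij] at h7
      exact (Set.disjoint_left.mp (hM.2 i hi'.1 j hj'.1 hne).1 h6.1) h7.1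
  omega

end rV4Aux

open rV4Aux in
theorem rV4 : S_Ram → S_V1 → S_V4 := by
  classical
  intro hRam hV1
  obtain ⟨R, hR⟩ := hRam 12 20
  obtain ⟨R', hR'⟩ := hRam 12 (R + 2)
  refine ⟨20 * (256 + R) + R + R' + 12, ?_⟩
  intro V _ G X₀ B hTame hMdl hB
  have := Fintype.ofFinite V
  -- the finite set `X`
  obtain ⟨X, rfl⟩ : ∃ X : Finset V, (X : Set V) = X₀ := ⟨X₀.toFinset, Set.coe_toFinset X₀⟩
  set t := 20 * (256 + R) + R + R' + 12 with ht
  have hdeg : ∀ x ∈ X, t ≤ (nbs G X x).card + 3 := fun x hx =>
    deg_ge G X B t (by omega) hTame hMdl hB x hx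
  have hXne : X.Nonempty := by
    obtain ⟨b, hb⟩ := (hMdl.1 0 (Finset.mem_range.mpr (by omega))).1
    exact ⟨b, hB 0 (by omega) hb⟩
  obtain ⟨x, hx, hmin⟩ := Finset.exists_min_image X (fun v => (nbs G X v).card) hXne
  set δ := (nbs G X x).card with hδ
  have hδt : t ≤ δ + 3 := hdeg x hx
  set N := nbs G X x with hN
  set Y := X.filter fun y => y ≠ x ∧ ¬ G.Adj x y with hY
  have hmemY : ∀ y, y ∈ Y ↔ y ∈ X ∧ y ≠ x ∧ ¬ G.Adj x y := by
    intro y
    rw [hY, Finset.mem_filter]
  have hcardX : X.card = 1 + δ + Y.card := by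
    have e : X = insert x (N ∪ Y) := by
      ext v
      rw [Finset.mem_insert, Finset.mem_union, hN, mem_nbs, hmemY]
      constructor
      · intro hv
        by_cases h1 : v = x
        · exact Or.inl h1
        · by_cases h2 : G.Adj x v
          · exact Or.inr (Or.inl ⟨hv, h2⟩)
          · exact Or.inr (Or.inr ⟨hv, h1, h2⟩)
      · rintro (h | h | h)
        · rw [h]; exact hx
        · exact h.1
        · exact h.1
    have h1 : x ∉ N ∪ Y := by
      rw [Finset.mem_union, hN, mem_nbs, hmemY]
      rintro (h | h)
      · exact G.loopless.irrefl x h.2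
      · exact h.2.1 rfl
    have h2 : Disjoint N Y := by
      rw [Finset.disjoint_left]
      intro v hv hv'
      rw [hN, mem_nbs] at hv
      exact ((hmemY v).mp hv').2.2 hv.2
    have h3 : (insert x (N ∪ Y)).card = 1 + δ + Y.card := by
      rw [Finset.card_insert_of_notMem h1, Finset.card_union_of_disjoint h2, hδ]
      ring
    rw [← h3, ← e]
  -- (1)
  have step1 : ∀ Y' ⊆ Y, Y'.Nonempty → ∃ y ∈ Y', (nbs G Y' y).card < 256 := by
    intro Y' hY' hne
    by_contra hcon
    push Not at hcon
    obtain ⟨B', hB', hB'Y⟩ := hV1 8 V G (Y' : Set V) hne (by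
      intro y hy
      have h1 := hcon y hy
      have h2 : {w | w ∈ (Y' : Set V) ∧ G.Adj y w} = (nbs G Y' y : Set V) := by
        ext w
        rw [Finset.mem_coe, mem_nbs]
        rfl
      rw [h2, Set.ncard_coe_finset]
      exact h1)
    have h3 := hTame (Finset.range 9) B' (by rw [Finset.card_range]) hB'
      (fun i hi v hv => by
        have h4 := hB'Y i (Finset.mem_range.mp hi) hv
        exact ((hmemY v).mp (hY' h4)).1) x hx
    have h5 : Un G (Finset.range 9) B' x = (Finset.range 9 : Set ℕ) := by
      ext i
      rw [Finset.mem_coe]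
      constructor
      · intro h
        exact h.1
      · intro h
        refine ⟨h, fun h6 => ?_, fun h6 => ?_⟩
        · have h7 := hB'Y i (Finset.mem_range.mp h) h6
          exact ((hmemY x).mp (hY' h7)).2.1 rfl
        · obtain ⟨a, ha, b, hb, hab⟩ := h6
          rw [Set.mem_singleton_iff] at ha
          subst ha
          have h7 := hB'Y i (Finset.mem_range.mp h) hb
          exact ((hmemY b).mp (hY' h7)).2.2 hab
    rw [h5, Set.ncard_coe_finset, Finset.card_range] at h3
    omega
  rcases Nat.lt_or_ge Y.card R with hcase | hcase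
  · -- (3)
    rcases hR' V X G.Adj (fun a b h => h.symm) (by omega) with ⟨T, hTX, hTc, hT⟩ | ⟨T, hTX, hTc, hT⟩
    · left
      exact ⟨(T : Set V), by exact_mod_cast hTX, by rw [Set.ncard_coe_finset]; exact hTc,
        fun u hu v hv huv => hT u hu v hv huv⟩
    · exfalso
      have hTne : T.Nonempty := by
        rw [← Finset.card_pos]
        omega
      obtain ⟨y, hy⟩ := hTne
      have h1 : nbs G X y ⊆ X \ T := by
        intro w hw
        rw [mem_nbs] at hw
        rw [Finset.mem_sdiff]
        refine ⟨hw.1, fun h2 => ?_⟩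
        have h3 : y ≠ w := by
          intro h4
          rw [h4] at hw
          exact G.loopless.irrefl w hw.2
        exact hT y hy w h2 h3 hw.2
      have h2 := Finset.card_le_card h1
      rw [Finset.card_sdiff_of_subset hTX] at h2
      have h3 := hmin y (hTX hy)
      have h4 := Finset.card_le_card hTX
      omega
  · -- (2)
    have hS : ∀ k ≤ R, ∃ S ⊆ Y, S.card = k ∧ ∀ y ∈ S, (nbs G Y y).card < 256 + k := by
      intro k
      induction k with
      | zero =>
        intro _
        exact ⟨∅, Finset.empty_subset _, rfl, fun y hy => absurd hy (Finset.notMem_empty y)⟩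
      | succ k ih =>
        intro hk
        obtain ⟨S, hSY, hSc, hS⟩ := ih (by omega)
        have hne : (Y \ S).Nonempty := by
          rw [← Finset.card_pos, Finset.card_sdiff_of_subset hSY]
          omega
        obtain ⟨y, hy, hyc⟩ := step1 (Y \ S) Finset.sdiff_subset hne
        rw [Finset.mem_sdiff] at hy
        refine ⟨insert y S, Finset.insert_subset hy.1 hSY, ?_, ?_⟩
        · rw [Finset.card_insert_of_notMem hy.2, hSc]
        · intro z hz
          rw [Finset.mem_insert] at hz
          rcases hz with rfl | hz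
          · have h1 : nbs G Y z ⊆ nbs G (Y \ S) z ∪ S := by
              intro w hw
              rw [mem_nbs] at hw
              rw [Finset.mem_union, mem_nbs, Finset.mem_sdiff]
              by_cases h2 : w ∈ S
              · exact Or.inr h2
              · exact Or.inl ⟨⟨hw.1, h2⟩, hw.2⟩
            have h2 := (Finset.card_le_card h1).trans (Finset.card_union_le _ _)
            omega
          · have := hS z hz
            omega
    obtain ⟨S, hSY, hSc, hSd⟩ := hS R le_rfl
    rcases hR V S G.Adj (fun a b h => h.symm) (by omega) with ⟨T, hTS, hTc, hT⟩ | ⟨P, hPS, hPc, hP⟩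
    · left
      refine ⟨(T : Set V), fun v hv => ((hmemY v).mp (hSY (hTS hv))).1,
        by rw [Set.ncard_coe_finset]; exact hTc, fun u hu v hv huv => hT u hu v hv huv⟩
    · -- common neighbours
      set CN := N.filter fun w => ∀ y ∈ P, G.Adj y w with hCN
      have hbad : ∀ y ∈ P, (N.filter fun w => ¬ G.Adj y w).card ≤ 256 + R := by
        intro y hy
        have hyY : y ∈ Y := hSY (hPS hy)
        have hyX := ((hmemY y).mp hyY).1
        have h1 : nbs G X y ⊆ (N.filter fun w => G.Adj y w) ∪ nbs G Y y := by
          intro w hw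
          rw [mem_nbs] at hw
          rw [Finset.mem_union, Finset.mem_filter, hN, mem_nbs, mem_nbs, hmemY]
          by_cases h2 : G.Adj x w
          · exact Or.inl ⟨⟨hw.1, h2⟩, hw.2⟩
          · right
            refine ⟨⟨hw.1, fun h3 => ?_, h2⟩, hw.2⟩
            rw [h3] at hw
            exact ((hmemY y).mp hyY).2.2 hw.2.symm
        have h2 := (Finset.card_le_card h1).trans (Finset.card_union_le _ _)
        have h3 := hmin y hyX
        have h4 := hSd y (hPS hy)
        have h5 := Finset.card_filter_add_card_filter_not (s := N) (p := fun w => G.Adj y w)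
        omega
      have hcov : N ⊆ CN ∪ P.biUnion fun y => N.filter fun w => ¬ G.Adj y w := by
        intro w hw
        rw [Finset.mem_union, hCN, Finset.mem_filter, Finset.mem_biUnion]
        by_cases h1 : ∀ y ∈ P, G.Adj y w
        · exact Or.inl ⟨hw, h1⟩
        · push Not at h1
          obtain ⟨y, hy, h2⟩ := h1
          exact Or.inr ⟨y, hy, Finset.mem_filter.mpr ⟨hw, h2⟩⟩
      have h1 := (Finset.card_le_card hcov).trans (Finset.card_union_le _ _)
      have h2 : (P.biUnion fun y => N.filter fun w => ¬ G.Adj y w).card ≤ P.card * (256 + R) :=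
        Finset.card_biUnion_le_card_mul _ _ _ hbad
      rw [hPc] at h2
      have h3 : R ≤ CN.card := by omega
      have hCNX : ∀ v ∈ CN, v ∈ X ∧ G.Adj x v ∧ ∀ y ∈ P, G.Adj y v := by
        intro v hv
        rw [hCN, Finset.mem_filter, hN, mem_nbs] at hv
        exact ⟨hv.1.1, hv.1.2, hv.2⟩
      rcases hR V CN G.Adj (fun a b h => h.symm) h3 with ⟨T, hTC, hTc, hT⟩ | ⟨Q, hQC, hQc, hQ⟩
      · left
        exact ⟨(T : Set V), fun v hv => (hCNX v (hTC hv)).1,
          by rw [Set.ncard_coe_finset]; exact hTc, fun u hu v hv huv => hT u hu v hv huv⟩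
      · right
        refine ⟨(P : Set V), (Q : Set V), fun v hv => ((hmemY v).mp (hSY (hPS hv))).1,
          fun v hv => (hCNX v (hQC hv)).1, ?_, by rw [Set.ncard_coe_finset]; exact hPc,
          by rw [Set.ncard_coe_finset]; exact hQc, ?_, ?_, ?_⟩
        · rw [Set.disjoint_left]
          intro v hv hv'
          exact ((hmemY v).mp (hSY (hPS hv))).2.2 (hCNX v (hQC hv')).2.1
        · intro a ha b hb hab
          by_cases h4 : a = b
          · rw [h4] at hab
            exact G.loopless.irrefl b hab
          · exact hP a ha b hb h4 hab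
        · intro a ha b hb hab
          by_cases h4 : a = b
          · rw [h4] at hab
            exact G.loopless.irrefl b hab
          · exact hQ a ha b hb h4 hab
        · intro a ha b hb
          exact (hCNX b (hQC hb)).2.2 a ha

end Pool.Agent.MPd439b2
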