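import Pool.Agent.Lib.MP_d439b2_co.R.Spec4

/-!
# MP_d439b2_co, row `Kite`, module X9: non-complete blocks
-/

set_option autoImplicit false

namespace Pool.Agent.MPd439b2

namespace rX9Aux

variable {V : Type} {G : SimpleGraph V}

/-- segments of paths are connected -/
theorem seg_conn (p : ℕ → V) (a b : ℕ) (hab : a ≤ b)
    (h : ∀ i, a ≤ i → i < b → G.Adj (p i) (p (i + 1))) :
    Conn G {x | ∃ i, a ≤ i ∧ i ≤ b ∧ x = p i} := by
  induction b, hab using Nat.le_induction with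
  | base =>
    have e : {x | ∃ i, a ≤ i ∧ i ≤ a ∧ x = p i} = {p a} := by
      ext x
      constructor
      · rintro ⟨i, h1, h2, rfl⟩
        have : i = a := le_antisymm h2 h1
        rw [this]
        rfl
      · intro hx
        exact ⟨a, le_rfl, le_rfl, hx⟩
    rw [e]
    exact Conn.singleton G _
  | succ b hb ih =>
    have e : {x | ∃ i, a ≤ i ∧ i ≤ b + 1 ∧ x = p i} =
        insert (p (b + 1)) {x | ∃ i, a ≤ i ∧ i ≤ b ∧ x = p i} := by
      ext x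
      constructor
      · rintro ⟨i, h1, h2, rfl⟩
        rcases Nat.lt_or_ge b i with h3 | h3
        · have : i = b + 1 := by omega
          rw [this]
          exact Set.mem_insert _ _
        · exact Set.mem_insert_of_mem _ ⟨i, h1, h3, rfl⟩
      · rintro (hx | ⟨i, h1, h2, hx⟩)
        · exact ⟨b + 1, by omega, le_rfl, hx⟩
        · exact ⟨i, h1, by omega, hx⟩
    rw [e]
    exact (ih (fun i h1 h2 => h i h1 (by omega))).insert
      ⟨p b, ⟨b, hb, le_rfl, rfl⟩, h b hb (by omega)⟩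

/-- the interior of an induced path -/
theorem interior (hp : S_Path) {C : Set V} (hC : Conn G C) {w y : V} (hw : w ∈ C) (hy : y ∈ C)
    (hne : w ≠ y) (hna : ¬ G.Adj w y) :
    ∃ P ⊆ C, Conn G P ∧ w ∉ P ∧ y ∉ P ∧ Tch G {w} P ∧ Tch G P {y} := by
  obtain ⟨l, p, h0, hl, hC', hinj, hadj, -, -⟩ :=
    hp V G C {w} {y} hC ⟨w, hw, rfl⟩ ⟨y, hy, rfl⟩
  have h0' : p 0 = w := h0
  have hl' : p l = y := hl
  have l2 : 2 ≤ l := by
    by_contra h
    have h1 : l = 0 ∨ l = 1 := by omega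
    rcases h1 with rfl | rfl
    · exact hne (h0'.symm.trans hl')
    · apply hna
      rw [← h0', ← hl']
      exact (hadj 0 (by omega) 1 (by omega)).mpr (Or.inr rfl)
  refine ⟨{x | ∃ i, 1 ≤ i ∧ i ≤ l - 1 ∧ x = p i}, ?_,
    seg_conn p 1 (l - 1) (by omega)
      (fun i h1 h2 => (hadj i (by omega) (i + 1) (by omega)).mpr (Or.inr rfl)), ?_, ?_, ?_, ?_⟩
  · rintro _ ⟨i, h1, h2, rfl⟩
    exact hC' i (by omega)
  · rintro ⟨i, h1, h2, h3⟩
    have := hinj 0 (by omega) i (by omega) (h0'.trans h3)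
    omega
  · rintro ⟨i, h1, h2, h3⟩
    have := hinj l le_rfl i (by omega) (hl'.trans h3)
    omega
  · exact ⟨w, rfl, p 1, ⟨1, le_rfl, by omega, rfl⟩, by
      rw [← h0']
      exact (hadj 0 (by omega) 1 (by omega)).mpr (Or.inr rfl)⟩
  · exact ⟨p (l - 1), ⟨l - 1, by omega, le_rfl, rfl⟩, y, rfl, by
      rw [← hl']
      exact (hadj (l - 1) (by omega) l le_rfl).mpr (Or.inr (by omega))⟩

/-- the set `{w, r 1, ..., r m}` -/
def T0 (p : ℕ → V) (m : ℕ) (w : V) : Set V := insert w {x | ∃ i, 1 ≤ i ∧ i ≤ m ∧ x = p i}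

theorem T0_conn (p : ℕ → V) (m : ℕ) (w : V) (h : ∀ i, i < m → G.Adj (p i) (p (i + 1)))
    (hw : G.Adj (p m) w) : Conn G (T0 p m w) := by
  rcases Nat.eq_zero_or_pos m with hm | hm
  · have e : T0 p m w = {w} := by
      ext x
      constructor
      · rintro (hx | ⟨i, h1, h2, -⟩)
        · exact hx
        · omega
      · intro hx
        exact Or.inl hx
    rw [e]
    exact Conn.singleton G w
  · exact (seg_conn p 1 m hm (fun i _ h2 => h i h2)).insert ⟨p m, ⟨m, hm, le_rfl, rfl⟩, hw⟩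

theorem T0_tch (p : ℕ → V) (m : ℕ) (w : V) (h : ∀ i, i < m → G.Adj (p i) (p (i + 1)))
    (hw : G.Adj (p m) w) : Tch G (T0 p m w) {p 0} := by
  rcases Nat.eq_zero_or_pos m with hm | hm
  · rw [hm] at hw
    exact ⟨w, Or.inl rfl, p 0, rfl, hw.symm⟩
  · exact ⟨p 1, Or.inr ⟨1, le_rfl, hm, rfl⟩, p 0, rfl, (h 0 hm).symm⟩

/-- the two applications of `S_X0` -/
theorem kite (h0 : S_X0) {X L D : Set V} (hK : ¬ IMS Kite G Set.univ)
    (hD : D ⊆ Rs G X L) {p : ℕ → V} {m : ℕ} (hpD : ∀ i ≤ m, p i ∈ D)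
    (hinj : ∀ i ≤ m, ∀ j ≤ m, p i = p j → i = j) (hadj : ∀ i, i < m → G.Adj (p i) (p (i + 1)))
    {w : V} (hw : w ∈ L) (hmw : G.Adj (p m) w) (T1 T2 T4 : Set V) (c1 : Conn G T1) (c2 : Conn G T2)
    (c4 : Conn G T4) (d1w : w ∉ T1) (d2w : w ∉ T2) (d4w : w ∉ T4) (d1 : ∀ x ∈ T1, x ∉ D)
    (d2 : ∀ x ∈ T2, x ∉ D) (d4 : ∀ x ∈ T4, x ∉ D) (d12 : Disjoint T1 T2) (d14 : Disjoint T1 T4)
    (d24 : Disjoint T2 T4) (t01 : Tch G {w} T1) (t02 : Tch G {w} T2) (t12 : Tch G T1 T2)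
    (t14 : Tch G T1 T4) (t24 : Tch G T2 T4) (n04 : ∀ x ∈ T4, ¬ G.Adj w x)
    (n04' : ∀ x ∈ T4, ∀ i, 1 ≤ i → i ≤ m → ¬ G.Adj (p i) x) (n13 : ∀ x ∈ T1, ¬ G.Adj x (p 0))
    (n23 : ∀ x ∈ T2, ¬ G.Adj x (p 0)) (n34 : ∀ x ∈ T4, ¬ G.Adj (p 0) x) : False := by
  apply hK
  have dT : ∀ T : Set V, w ∉ T → (∀ x ∈ T, x ∉ D) → Disjoint (T0 p m w) T := by
    intro T h1 h2
    rw [Set.disjoint_left]
    rintro x (hx | ⟨i, -, hi, hx⟩) hxT
    · exact h1 (hx ▸ hxT)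
    · exact h2 x hxT (hx ▸ hpD i hi)
  have dz : ∀ T : Set V, (∀ x ∈ T, x ∉ D) → Disjoint T {p 0} := by
    intro T h2
    rw [Set.disjoint_right]
    rintro x hx hxT
    rw [Set.mem_singleton_iff] at hx
    exact h2 x hxT (hx ▸ hpD 0 (Nat.zero_le m))
  have tsub : {w} ⊆ T0 p m w := Set.singleton_subset_iff.mpr (Or.inl rfl)
  refine h0 V G (T0 p m w) T1 T2 {p 0} T4 (T0_conn p m w hadj hmw) c1 c2 (Conn.singleton G _) c4
    (dT T1 d1w d1) (dT T2 d2w d2) ?_ (dT T4 d4w d4) d12 (dz T1 d1) d14 (dz T2 d2) d24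
    (dz T4 d4).symm (t01.mono tsub subset_rfl) (t02.mono tsub subset_rfl) t12 t14 t24
    (T0_tch p m w hadj hmw) ?_ ?_ ?_ ?_
  · rw [Set.disjoint_right]
    rintro x hx hxT
    rw [Set.mem_singleton_iff] at hx
    rcases hxT with hxw | ⟨i, hi1, hi, hxi⟩
    · have : p 0 ∈ Rs G X L := hD (hpD 0 (Nat.zero_le m))
      rw [← hx, hxw] at this
      exact this.2.1 hw
    · have := hinj 0 (Nat.zero_le m) i hi (hx.symm.trans hxi)
      omega
  · rintro ⟨a, (ha | ⟨i, hi1, hi, ha⟩), b, hb, hab⟩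
    · rw [ha] at hab
      exact n04 b hb hab
    · rw [ha] at hab
      exact n04' b hb i hi1 hi hab
  · rintro ⟨a, ha, b, hb, hab⟩
    rw [Set.mem_singleton_iff] at hb
    rw [hb] at hab
    exact n13 a ha hab
  · rintro ⟨a, ha, b, hb, hab⟩
    rw [Set.mem_singleton_iff] at hb
    rw [hb] at hab
    exact n23 a ha hab
  · rintro ⟨a, ha, b, hb, hab⟩
    rw [Set.mem_singleton_iff] at ha
    rw [ha] at hab
    exact n34 b hb hab

/-- not adjacent to all other elements of `L` -/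
def NU (G : SimpleGraph V) (L : Set V) (w : V) : Prop := w ∈ L ∧ ∃ y ∈ L, y ≠ w ∧ ¬ G.Adj w y

/-- (1) -/
theorem full1 (hp : S_Path) (h0 : S_X0) {X L D : Set V} {v : V} (hK : ¬ IMS Kite G Set.univ)
    (hL : Loc G X v L) (hD : IsComp G (Rs G X L) D) {e w₀ : V} (he : e ∈ D) (hw₀ : NU G L w₀)
    (hew : G.Adj e w₀) : ∀ f ∈ Fl G X L, ∀ z ∈ D, G.Adj f z := by
  obtain ⟨hLX, hLB, -, hvX, hvL, hvn, l1, -, l3, -⟩ := hL
  intro f hf z hz
  by_contra hfz
  obtain ⟨m, p, hp0, hpm, hpD, hinj, hadj, -, hY⟩ := hp V G D {z} {u | ∃ w, NU G L w ∧ G.Adj u w}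
    hD.2.1 ⟨z, hz, rfl⟩ ⟨e, he, w₀, hw₀, hew⟩
  have hp0' : p 0 = z := hp0
  obtain ⟨w, ⟨hwL, y, hyL, hyw, hwy⟩, hmw⟩ := hpm
  have hyNU : NU G L y := ⟨hyL, w, hwL, hyw.symm, fun h => hwy h.symm⟩
  have hwNU : NU G L w := ⟨hwL, y, hyL, hyw, hwy⟩
  have hDR : ∀ i ≤ m, p i ∈ Rs G X L := fun i hi => hD.1 (hpD i hi)
  have hzm : ∀ u, NU G L u → G.Adj z u → u = w := by
    intro u hu hzu
    have h1 : (0 : ℕ) = m := hY 0 (Nat.zero_le m) ⟨u, hu, by rw [hp0']; exact hzu⟩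
    rw [← h1, hp0'] at hmw
    exact l1 z (hD.1 hz) u hu.1 w hwL hzu hmw
  -- the set `P`
  obtain ⟨P, hPL, hPc, hwP, hyP, tw, ty, hPz⟩ : ∃ P ⊆ L, Conn G P ∧ w ∉ P ∧ y ∉ P ∧
      Tch G {w} P ∧ Tch G P {y} ∧ ∀ x ∈ P, ¬ G.Adj x z := by
    by_cases hu : ∃ u ∈ L, u ≠ w ∧ G.Adj z u
    · obtain ⟨u, huL, huw, hzu⟩ := hu
      have huN : ¬ NU G L u := fun h => huw (hzm u h hzu)
      have huy : u ≠ y := by
        rintro rfl
        exact huN hyNU
      have hc := hLB.2 u huL ⟨w, hwL, fun h => huw h.symm⟩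
      obtain ⟨P, h1, h2, h3, h4, h5, h6⟩ := interior hp hc
        (show w ∈ L \ {u} from ⟨hwL, fun h => huw h.symm⟩)
        (show y ∈ L \ {u} from ⟨hyL, fun h => huy h.symm⟩) hyw.symm hwy
      refine ⟨P, fun x hx => (h1 hx).1, h2, h3, h4, h5, h6, fun x hx hxz => ?_⟩
      exact (h1 hx).2 (l1 z (hD.1 hz) x (h1 hx).1 u huL hxz.symm hzu)
    · push Not at hu
      obtain ⟨P, h1, h2, h3, h4, h5, h6⟩ := interior hp hLB.1 hwL hyL hyw.symm hwy
      refine ⟨P, h1, h2, h3, h4, h5, h6, fun x hx hxz => ?_⟩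
      exact hu x (h1 hx) (fun h => h3 (h ▸ hx)) hxz.symm
  have hfw : f ≠ w := by
    rintro rfl
    exact hf.2.1 hwL
  have hfD : f ∉ D := by
    intro h
    obtain ⟨x, hx, hfx⟩ := (hD.1 h).2.2
    exact hfx (hf.2.2 x hx)
  have LD : ∀ x ∈ L, x ∉ D := fun x hx hxD => (hD.1 hxD).2.1 hx
  obtain ⟨q, hq⟩ := hPc.1
  refine kite h0 hK hD.1 hpD hinj
    (fun i hi => (hadj i (by omega) (i + 1) (by omega)).mpr (Or.inr rfl)) hwL hmw {f} P {y}
    (Conn.singleton G f) hPc (Conn.singleton G y) (fun h => hfw h.symm) hwP (fun h => hyw h.symm)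
    ?_ (fun x hx => LD x (hPL hx)) ?_ ?_ ?_ ?_ ⟨w, rfl, f, rfl, (hf.2.2 w hwL).symm⟩ tw
    ⟨f, rfl, q, hq, hf.2.2 q (hPL hq)⟩ ⟨f, rfl, y, rfl, hf.2.2 y hyL⟩ ty ?_ ?_ ?_ ?_ ?_
  · rintro x hx
    rw [Set.mem_singleton_iff] at hx
    rw [hx]
    exact hfD
  · rintro x hx
    rw [Set.mem_singleton_iff] at hx
    rw [hx]
    exact LD y hyL
  · rw [Set.disjoint_singleton_left]
    exact fun h => hf.2.1 (hPL h)
  · rw [Set.disjoint_singleton_left, Set.mem_singleton_iff]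
    rintro rfl
    exact hf.2.1 hyL
  · rw [Set.disjoint_singleton_right]
    exact hyP
  · rintro x hx
    rw [Set.mem_singleton_iff] at hx
    rw [hx]
    exact hwy
  · rintro x hx i hi1 hi
    rw [Set.mem_singleton_iff] at hx
    rw [hx]
    intro hiy
    have h1 : i = m := hY i hi ⟨y, hyNU, hiy⟩
    rw [h1] at hiy
    exact hyw (l1 (p m) (hDR m le_rfl) y hyL w hwL hiy hmw)
  · rintro x hx
    rw [Set.mem_singleton_iff] at hx
    rw [hx, hp0']
    exact hfz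
  · rintro x hx
    rw [hp0']
    exact hPz x hx
  · rintro x hx
    rw [Set.mem_singleton_iff] at hx
    rw [hx, hp0']
    intro hzy
    exact hyw (hzm y hyNU hzy)

theorem comp_disj {R D D' : Set V} (hD : IsComp G R D) (hD' : IsComp G R D') {x : V} (hx : x ∈ D)
    (hx' : x ∈ D') : D = D' := by
  have h1 := hD.2.1.eq_of_nb (C := D ∩ D') Set.inter_subset_left ⟨x, hx, hx'⟩ (by
    rintro u hu ⟨hu1, c, hc, hcu⟩
    exact hD'.2.2 u (hD.1 hu) ⟨fun h => hu1 ⟨hu, h⟩, c, hc.2, hcu⟩)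
  have h2 := hD'.2.1.eq_of_nb (C := D ∩ D') Set.inter_subset_right ⟨x, hx, hx'⟩ (by
    rintro u hu ⟨hu1, c, hc, hcu⟩
    exact hD.2.2 u (hD'.1 hu) ⟨fun h => hu1 ⟨h, hu⟩, c, hc.1, hcu⟩)
  rw [← h1, h2]

/-- (1) and (2) -/
theorem full (hp : S_Path) (h0 : S_X0) {X L : Set V} {v x' e' : V}
    (hK : ¬ IMS Kite G Set.univ) (hL : Loc G X v L) (hx' : NU G L x') (he' : e' ∈ Rs G X L)
    (hex' : G.Adj e' x') {D : Set V} (hD : IsComp G (Rs G X L) D) {e w₀ : V} (he : e ∈ D)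
    (hw₀ : w₀ ∈ L) (hew : G.Adj e w₀) : ∀ f ∈ Fl G X L, ∀ z ∈ D, G.Adj f z := by
  by_cases hNU : ∃ e ∈ D, ∃ w, NU G L w ∧ G.Adj e w
  · obtain ⟨e, he, w, hw, hew⟩ := hNU
    exact full1 hp h0 hK hL hD he hw hew
  push Not at hNU
  intro f hf z hz
  by_contra hfz
  -- `f ~ e'`
  obtain ⟨D', hD'R, heD', hD'c, hD'n⟩ := exists_comp G he'
  have hfe' : G.Adj f e' := full1 hp h0 hK hL ⟨hD'R, hD'c, hD'n⟩ heD' hx' hex' f hf e' heD'
  obtain ⟨hLX, hLB, -, hvX, hvL, hvn, l1, -, l3, -⟩ := hL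
  obtain ⟨m, p, hp0, hpm, hpD, hinj, hadj, -, -⟩ := hp V G D {z} {u | ∃ w ∈ L, G.Adj u w}
    hD.2.1 ⟨z, hz, rfl⟩ ⟨e, he, w₀, hw₀, hew⟩
  have hp0' : p 0 = z := hp0
  obtain ⟨w, hwL, hmw⟩ := hpm
  have hwN : ¬ NU G L w := fun h => hNU (p m) (hpD m le_rfl) w h hmw
  have hwx' : w ≠ x' := by
    rintro rfl
    exact hwN hx'
  have hwx : G.Adj w x' := by
    by_contra h
    exact hwN ⟨hwL, x', hx'.1, hwx'.symm, h⟩
  have he'D : e' ∉ D := fun h => hNU e' h x' hx' hex'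
  have he'n : ∀ u ∈ D, ¬ G.Adj u e' := fun u hu hue => hD.2.2 e' he' ⟨he'D, u, hu, hue⟩
  have hfD : f ∉ D := by
    intro h
    obtain ⟨x, hx, hfx⟩ := (hD.1 h).2.2
    exact hfx (hf.2.2 x hx)
  refine kite h0 hK hD.1 hpD hinj
    (fun i hi => (hadj i (by omega) (i + 1) (by omega)).mpr (Or.inr rfl)) hwL hmw {x'} {f} {e'}
    (Conn.singleton G x') (Conn.singleton G f) (Conn.singleton G e') hwx' ?_ ?_
    ?_ ?_ ?_ ?_ ?_ ?_ ⟨w, rfl, x', rfl, hwx⟩ ⟨w, rfl, f, rfl, (hf.2.2 w hwL).symm⟩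
    ⟨x', rfl, f, rfl, (hf.2.2 x' hx'.1).symm⟩ ⟨x', rfl, e', rfl, hex'.symm⟩
    ⟨f, rfl, e', rfl, hfe'⟩ ?_ ?_ ?_ ?_ ?_
  · intro h
    rw [Set.mem_singleton_iff] at h
    exact hf.2.1 (h ▸ hwL)
  · intro h
    rw [Set.mem_singleton_iff] at h
    exact he'.2.1 (h ▸ hwL)
  · rintro x hx
    rw [Set.mem_singleton_iff] at hx
    rw [hx]
    exact fun h => (hD.1 h).2.1 hx'.1
  · rintro x hx
    rw [Set.mem_singleton_iff] at hx
    rw [hx]
    exact hfD
  · rintro x hx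
    rw [Set.mem_singleton_iff] at hx
    rw [hx]
    exact he'D
  · rw [Set.disjoint_singleton_left, Set.mem_singleton_iff]
    rintro h
    exact hf.2.1 (h ▸ hx'.1)
  · rw [Set.disjoint_singleton_left, Set.mem_singleton_iff]
    rintro h
    exact he'.2.1 (h ▸ hx'.1)
  · rw [Set.disjoint_singleton_left, Set.mem_singleton_iff]
    rintro h
    exact hfe'.ne h
  · rintro x hx
    rw [Set.mem_singleton_iff] at hx
    rw [hx]
    intro h
    exact hwx' (l1 e' he' w hwL x' hx'.1 h.symm hex')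
  · rintro x hx i hi1 hi
    rw [Set.mem_singleton_iff] at hx
    rw [hx]
    exact he'n (p i) (hpD i hi)
  · rintro x hx
    rw [Set.mem_singleton_iff] at hx
    rw [hx, hp0']
    exact fun h => hNU z hz x' hx' h.symm
  · rintro x hx
    rw [Set.mem_singleton_iff] at hx
    rw [hx, hp0']
    exact hfz
  · rintro x hx
    rw [Set.mem_singleton_iff] at hx
    rw [hx, hp0']
    exact he'n z hz

end rX9Aux

open rX9Aux in
theorem rX9 : S_Path → S_X0 → S_X7 → S_X9 := by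
  intro hp h0 h7 V _ G X L v hPr hB hK hL hNC
  have hL' := hL
  obtain ⟨hLX, hLB, hL3, hvX, hvL, hvn, l1, l2, l3, -⟩ := hL'
  have hLne : L ≠ X := by
    rintro rfl
    exact hvL hvX
  -- a non-universal vertex with a private neighbour
  obtain ⟨x', hx'L, e', he', hex', hx'N⟩ : ∃ x' ∈ L, ∃ e' ∈ Rs G X L, G.Adj e' x' ∧ NU G L x' := by
    by_contra hcon
    apply hNC
    apply h7.1 V G X L hPr hLX hLne
    rintro x hx ⟨e, he, hex⟩ y hy hyx
    by_contra hxy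
    exact hcon ⟨x, hx, e, he, hex, hx, y, hy, hyx, hxy⟩
  have hfull : ∀ (D : Set V), IsComp G (Rs G X L) D → ∀ (e w₀ : V), e ∈ D → w₀ ∈ L →
      G.Adj e w₀ → ∀ f ∈ Fl G X L, ∀ z ∈ D, G.Adj f z :=
    fun D hD e w₀ he hw₀ hew => full hp h0 hK hL hx'N he' hex' hD he hw₀ hew
  have hsplit : ∀ u ∈ X, u ∉ L → u ∈ Fl G X L ∨ u ∈ Rs G X L := by
    intro u hu huL
    by_cases h : ∀ w ∈ L, G.Adj u w
    · exact Or.inl ⟨hu, huL, h⟩
    · push Not at h
      exact Or.inr ⟨hu, huL, h⟩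
  -- the module
  let M : Set V := L ∪ {z | ∃ D, IsComp G (Rs G X L) D ∧ z ∈ D ∧ ∃ e ∈ D, ∃ w ∈ L, G.Adj e w}
  have hM : Mod G X M := by
    refine ⟨?_, ?_⟩
    · rintro x (hx | ⟨D, hD, hxD, -⟩)
      · exact hLX hx
      · exact (hD.1 hxD).1
    · intro u hu huM
      have huL : u ∉ L := fun h => huM (Or.inl h)
      rcases hsplit u hu huL with hF | hR
      · left
        rintro x (hx | ⟨D, hD, hxD, e, he, w, hw, hew⟩)
        · exact hF.2.2 x hx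
        · exact hfull D hD e w he hw hew u hF x hxD
      · right
        rintro x (hx | ⟨D, hD, hxD, e, he, w, hw, hew⟩) hux
        · obtain ⟨D, h1, h2, h3, h4⟩ := exists_comp G hR
          exact huM (Or.inr ⟨D, ⟨h1, h3, h4⟩, h2, u, h2, x, hx, hux⟩)
        · have huD : u ∉ D := fun h => huM (Or.inr ⟨D, hD, h, e, he, w, hw, hew⟩)
          exact hD.2.2 u hR ⟨huD, x, hxD, hux.symm⟩
  have hMX : M = X := by
    rcases hPr M hM with h | h
    · exact h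
    · exfalso
      have h1 : L.Subsingleton := h.anti Set.subset_union_left
      have h2 : L.ncard ≤ 1 := by
        rw [Set.ncard_le_one_iff_eq]
        rcases h1.eq_empty_or_singleton with h | ⟨a, h⟩
        · exact Or.inl h
        · exact Or.inr ⟨a, h⟩
      omega
  have hFe : Fl G X L = ∅ := by
    rw [Set.eq_empty_iff_forall_notMem]
    intro f hf
    have hfM : f ∈ M := by rw [hMX]; exact hf.1
    rcases hfM with h | ⟨D, hD, hfD, -⟩
    · exact hf.2.1 h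
    · obtain ⟨x, hx, hfx⟩ := (hD.1 hfD).2.2
      exact hfx (hf.2.2 x hx)
  refine ⟨hFe, ?_⟩
  have hXR : X \ L = Rs G X L := by
    ext u
    constructor
    · rintro ⟨hu, huL⟩
      rcases hsplit u hu huL with h | h
      · rw [hFe] at h
        exact absurd h (Set.notMem_empty u)
      · exact h
    · intro hu
      exact ⟨hu.1, hu.2.1⟩
  have hcomp : ∀ u ∈ Rs G X L, ∃ D, IsComp G (Rs G X L) D ∧ u ∈ D ∧ ∃ e ∈ D, ∃ w ∈ L,
      G.Adj e w := by
    intro u hu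
    have huM : u ∈ M := by rw [hMX]; exact hu.1
    rcases huM with h | h
    · exact absurd h hu.2.1
    · exact h
  have hvR : v ∈ Rs G X L := by
    rw [← hXR]
    exact ⟨hvX, hvL⟩
  obtain ⟨D, hD, hvD, -⟩ := hcomp v hvR
  have hall : D = Rs G X L := by
    apply Set.Subset.antisymm hD.1
    intro u hu
    obtain ⟨D', hD', huD', e, he, w, hw, hew⟩ := hcomp u hu
    by_cases hv : v ∈ D'
    · rw [comp_disj hD hD' hvD hv]
      exact huD'
    · exfalso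
      have hwn : w ∈ nb G D' := ⟨fun h => (hD'.1 h).2.1 hw, e, he, hew⟩
      have hne : (X \ {w}).Nonempty := ⟨v, hvX, fun h => hvL (by
        rw [Set.mem_singleton_iff] at h
        rw [h]
        exact hw)⟩
      have hc := hB.2 w (hLX hw) hne
      have heq := hc.eq_of_nb (C := D') (fun x hx => ⟨(hD'.1 hx).1, fun h => by
        rw [Set.mem_singleton_iff] at h
        exact (hD'.1 hx).2.1 (h ▸ hw)⟩) ⟨e, he⟩ (by
        intro x hx hxn
        by_cases hxL : x ∈ L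
        · exact hx.2 (l3 D' hD' hv x hxL w hw hxn hwn)
        · have : x ∈ Rs G X L := by
            rw [← hXR]
            exact ⟨hx.1, hxL⟩
          exact hD'.2.2 x this hxn)
      have h2 : ∃ b ∈ L, b ≠ w := by
        by_contra hcon
        push Not at hcon
        have : L.ncard ≤ 1 := by
          rw [Set.ncard_le_one_iff_eq]
          exact Or.inr ⟨w, Set.Subset.antisymm (fun b hb => hcon b hb)
            (Set.singleton_subset_iff.mpr hw)⟩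
        omega
      obtain ⟨b, hb, hbw⟩ := h2
      have hbD : b ∈ D' := by
        rw [heq]
        exact ⟨hLX hb, hbw⟩
      exact (hD'.1 hbD).2.1 hb
  rw [hXR, ← hall]
  exact hD.2.1

end Pool.Agent.MPd439b2
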