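import Pool.Agent.Lib.MP_d439b2_co.R.Spec1

set_option autoImplicit false

namespace Pool.Agent.MPd439b2

namespace rY2Aux

theorem types_sub {V : Type} {D : SimpleGraph V} {X X' : Set V} (h : X' ⊆ X) (A : Set V) :
    Types (restr D X') (A ∩ X') ⊆ (fun T => T ∩ X') '' Types (restr D X) A := by
  rintro T ⟨hne, a, ha, rfl⟩
  have e : (restr D X').neighborSet a \ (A ∩ X') = ((restr D X).neighborSet a \ A) ∩ X' := by
    ext w
    constructor
    · rintro ⟨h1, h2⟩
      have h1' : (restr D X').Adj a w := h1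
      obtain ⟨k1, k2, k3⟩ := h1'
      exact ⟨⟨show (restr D X).Adj a w from ⟨k1, h k2, h k3⟩, fun h4 => h2 ⟨h4, k3⟩⟩, k3⟩
    · rintro ⟨⟨h1, h2⟩, h3⟩
      have h1' : (restr D X).Adj a w := h1
      obtain ⟨k1, k2, k3⟩ := h1'
      exact ⟨show (restr D X').Adj a w from ⟨k1, ha.2, h3⟩, fun h4 => h2 h4.1⟩
  refine ⟨(restr D X).neighborSet a \ A, ⟨?_, a, ha.1, rfl⟩, e.symm⟩
  rw [e] at hne
  exact hne.mono Set.inter_subset_left

theorem lay_sub {V : Type} {D : SimpleGraph V} {X X' : Set V} (h : X' ⊆ X) {k : ℕ} {A : Set V}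
    (hA : Lay (restr D X) k A) : Lay (restr D X') k (A ∩ X') := by
  induction hA with
  | empty => rw [Set.empty_inter]; exact Lay.empty
  | single v hv =>
    by_cases hvX : v ∈ X'
    · have e : ({v} : Set V) ∩ X' = {v} :=
        Set.inter_eq_left.mpr (Set.singleton_subset_iff.mpr hvX)
      rw [e]
      refine Lay.single v ?_
      have h1 := types_sub (D := D) h {v}
      rw [e] at h1
      exact (Set.encard_le_encard h1).trans ((Set.encard_image_le _ _).trans hv)
    · have e : ({v} : Set V) ∩ X' = ∅ := by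
        rw [Set.singleton_inter_eq_empty]
        exact hvX
      rw [e]
      exact Lay.empty
  | @union A B _ _ hd ht ihA ihB =>
    have e : (A ∪ B) ∩ X' = (A ∩ X') ∪ (B ∩ X') := Set.union_inter_distrib_right A B X'
    have h1 := types_sub (D := D) h (A ∪ B)
    rw [e] at h1 ⊢
    exact Lay.union ihA ihB (hd.mono Set.inter_subset_left Set.inter_subset_left)
      ((Set.encard_le_encard h1).trans ((Set.encard_image_le _ _).trans ht))

end rY2Aux

theorem rY2 : S_Y2 := by
  intro V D k X X' h hX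
  have h1 := rY2Aux.lay_sub h hX
  rw [Set.inter_eq_right.mpr h] at h1
  exact h1

end Pool.Agent.MPd439b2
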